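import Pool.Agent.MP_aa1ef7_ag.H20.Spec

/-! Formal arcs through a point, and extension of points. -/

namespace Pool.Agent.MP_aa1ef7_ag.H20

namespace ArcA

/-- A complex point extends along an integral ring map. -/
theorem ext_point {R S : Type} [CommRing R] [CommRing S] [Algebra ℂ R] [Algebra ℂ S]
    [Algebra R S] [IsScalarTower ℂ R S] [Algebra.IsIntegral R S] (e : R →ₐ[ℂ] ℂ)
    (h : ∀ r, algebraMap R S r = 0 → e r = 0) :
    ∃ e' : S →ₐ[ℂ] ℂ, ∀ r, e' (algebraMap R S r) = e r := by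
  have : (RingHom.ker e).IsPrime := RingHom.ker_isPrime e
  obtain ⟨Q, -, hQ, hQe⟩ := Ideal.exists_ideal_over_prime_of_isIntegral (S := S)
    (RingHom.ker e) ⊥ fun r hr => h r (by simpa using hr)
  have key : ∀ r, Ideal.Quotient.mk Q (algebraMap R S r) = algebraMap ℂ (S ⧸ Q) (e r) := by
    intro r
    have h1 : r - algebraMap ℂ R (e r) ∈ RingHom.ker e := by simp [RingHom.mem_ker]
    rw [← hQe, Ideal.mem_comap, map_sub, ← IsScalarTower.algebraMap_apply] at h1
    exact (Ideal.Quotient.eq.2 h1).trans rfl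
  have : Algebra.IsIntegral ℂ (S ⧸ Q) := ⟨fun x => by
    obtain ⟨s, rfl⟩ := Ideal.Quotient.mk_surjective x
    obtain ⟨p, hp, hs⟩ := Algebra.IsIntegral.isIntegral (R := R) s
    refine ⟨p.map e.toRingHom, hp.map _, ?_⟩
    have h2 := congrArg (Ideal.Quotient.mk Q) hs
    rw [Polynomial.hom_eval₂, map_zero] at h2
    rw [Polynomial.eval₂_map, ← h2]
    congr 1
    ext r
    exact (key r).symm⟩
  let ρ : (S ⧸ Q) →ₐ[ℂ] ℂ := IsAlgClosed.lift
  exact ⟨ρ.comp (Ideal.Quotient.mkₐ ℂ Q), fun r => by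
    simp only [AlgHom.comp_apply, Ideal.Quotient.mkₐ_eq_mk, key, AlgHom.commutes]; rfl⟩

/-- Expansion at a point of a Dedekind domain. -/
theorem arc_ded (hE : ExpS) {O : Type} [CommRing O] [IsDedekindDomain O] [Algebra ℂ O]
    (χ : O →ₐ[ℂ] ℂ) (a : O) (ha : a ≠ 0) (ha' : χ a = 0) :
    ∃ ψ : O →ₐ[ℂ] PowerSeries ℂ, Function.Injective ψ ∧
      ∀ b, PowerSeries.constantCoeff (ψ b) = χ b := by
  let P : Ideal O := RingHom.ker χ
  have : P.IsPrime := RingHom.ker_isPrime χ
  have hP : P ≠ ⊥ := fun h => ha (by simpa [h] using (show a ∈ P from ha'))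
  let L := Localization.AtPrime P
  have : IsDiscreteValuationRing L :=
    IsLocalization.AtPrime.isDiscreteValuationRing_of_dedekind_domain O hP L
  have hu : ∀ y : P.primeCompl, IsUnit (χ y) := fun y => isUnit_iff_ne_zero.2 y.2
  let χ' : L →ₐ[ℂ] ℂ := IsLocalization.liftAlgHom (M := P.primeCompl) (f := χ) hu
  have hχ : ∀ b, χ' (algebraMap O L b) = χ b := fun b => by
    simp [χ', IsLocalization.liftAlgHom_apply]
  obtain ⟨π, hπ⟩ := IsDiscreteValuationRing.exists_irreducible L
  have hmax : RingHom.ker χ' = IsLocalRing.maximalIdeal L :=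
    IsLocalRing.eq_maximalIdeal (RingHom.ker_isMaximal_of_surjective χ' fun z =>
      ⟨algebraMap ℂ L z, by simp⟩)
  obtain ⟨E, hE1, -, hE3⟩ := hE ℂ L χ' π hπ.ne_zero fun b => by
    rw [← RingHom.mem_ker, hmax, hπ.maximalIdeal_eq, Ideal.mem_span_singleton]
  refine ⟨E.comp (IsScalarTower.toAlgHom ℂ O L), hE1.comp ?_, fun b => ?_⟩
  · exact IsLocalization.injective L P.primeCompl_le_nonZeroDivisors
  · rw [AlgHom.comp_apply, hE3]; exact hχ b

/-- Expansion at a point of a curve. -/
theorem arc_curve (hE : ExpS) {B : Type} [CommRing B] [IsDomain B] [Algebra ℂ B]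
    [Algebra (Polynomial ℂ) B] [IsScalarTower ℂ (Polynomial ℂ) B]
    [Module.Finite (Polynomial ℂ) B] [FaithfulSMul (Polynomial ℂ) B] (e : B →ₐ[ℂ] ℂ) :
    ∃ ψ : B →ₐ[ℂ] PowerSeries ℂ, Function.Injective ψ ∧
      ∀ b, PowerSeries.constantCoeff (ψ b) = e b := by
  let K := FractionRing (Polynomial ℂ)
  let L := FractionRing B
  let : Algebra K L := FractionRing.liftAlgebra (Polynomial ℂ) L
  have : IsScalarTower (Polynomial ℂ) K L := FractionRing.isScalarTower_liftAlgebra _ _
  have : FiniteDimensional K L := inferInstance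
  let O := integralClosure (Polynomial ℂ) L
  have : IsDedekindDomain O := integralClosure.isDedekindDomain (Polynomial ℂ) K L
  have hint : ∀ b : B, IsIntegral (Polynomial ℂ) (algebraMap B L b) := fun b =>
    (Algebra.IsIntegral.isIntegral b).map (IsScalarTower.toAlgHom (Polynomial ℂ) B L)
  let ι : B →ₐ[Polynomial ℂ] O :=
    (IsScalarTower.toAlgHom (Polynomial ℂ) B L).codRestrict O hint
  have hι : Function.Injective ι := fun a b h =>
    IsFractionRing.injective B L (congrArg Subtype.val h)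
  let : Algebra B O := ι.toRingHom.toAlgebra
  have : IsScalarTower (Polynomial ℂ) B O :=
    IsScalarTower.of_algebraMap_eq fun x => (ι.commutes x).symm
  have : IsScalarTower ℂ B O := IsScalarTower.of_algebraMap_eq fun x => by
    rw [IsScalarTower.algebraMap_apply ℂ (Polynomial ℂ) B,
      ← IsScalarTower.algebraMap_apply (Polynomial ℂ) B O,
      ← IsScalarTower.algebraMap_apply ℂ (Polynomial ℂ) O]
  have : Algebra.IsIntegral B O := Algebra.IsIntegral.tower_top (R := Polynomial ℂ)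
  obtain ⟨χ, hχ⟩ := ext_point (S := O) e fun r hr => by
    rw [hι (a₁ := r) (a₂ := 0) (by rw [map_zero]; exact hr), map_zero]
  let a : B := algebraMap (Polynomial ℂ) B
    (Polynomial.X - Polynomial.C (e (algebraMap (Polynomial ℂ) B Polynomial.X)))
  have ha : a ≠ 0 := fun h => Polynomial.X_sub_C_ne_zero _
    (FaithfulSMul.algebraMap_injective (Polynomial ℂ) B (h.trans (map_zero _).symm))
  have hea : e a = 0 := by
    simp only [a, map_sub]
    rw [Polynomial.C_eq_algebraMap, ← IsScalarTower.algebraMap_apply, AlgHom.commutes]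
    simp
  obtain ⟨ψ, h1, h2⟩ := arc_ded hE χ (algebraMap B O a)
    (fun h => ha (hι (h.trans (map_zero _).symm))) (by rw [hχ, hea])
  exact ⟨ψ.comp (IsScalarTower.toAlgHom ℂ B O), h1.comp hι, fun b => by
    rw [AlgHom.comp_apply, h2]; exact hχ b⟩

theorem arc (hE : ExpS) : ArcS := by
  intro A _ _ _ _ e Φ hΦ
  by_cases h0 : e Φ ≠ 0
  · refine ⟨(Algebra.ofId ℂ (PowerSeries ℂ)).comp e, fun a => by simp [Algebra.ofId_apply], ?_⟩
    intro h
    apply h0
    have := congrArg PowerSeries.constantCoeff h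
    simpa [Algebra.ofId_apply] using this
  rw [not_not] at h0
  obtain ⟨n, g, hg, hfin⟩ := exists_finite_inj_algHom_of_fg ℂ A
  let R := MvPolynomial (Fin n) ℂ
  let : Algebra R A := g.toRingHom.toAlgebra
  have : Module.Finite R A := hfin
  have : FaithfulSMul R A := (faithfulSMul_iff_algebraMap_injective R A).2 hg
  obtain ⟨N, hN, hN0⟩ := (Submodule.ne_bot_iff _).1 (Ideal.comap_ne_bot_of_integral_mem (R := R)
    hΦ (Ideal.mem_span_singleton_self Φ) (Algebra.IsIntegral.isIntegral Φ))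
  have hdvd : Φ ∣ g N := Ideal.mem_span_singleton.1 hN
  obtain ⟨η, hη⟩ : ∃ η : Fin n → ℂ, MvPolynomial.eval η N ≠ 0 := by
    by_contra h
    exact hN0 (MvPolynomial.funext fun x => by simpa using not_exists.1 h x)
  let ξ : Fin n → ℂ := fun i => e (g (MvPolynomial.X i))
  have hξ : ∀ r : R, e (g r) = MvPolynomial.eval ξ r := fun r => by
    have : e.comp g = MvPolynomial.aeval ξ := MvPolynomial.algHom_ext fun i => by simp [ξ]
    exact (congrArg (fun φ : R →ₐ[ℂ] ℂ => φ r) this).trans rfl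
  obtain ⟨i0, hi0⟩ : ∃ i, η i - ξ i ≠ 0 := by
    by_contra h
    have : η = ξ := funext fun i => sub_eq_zero.1 (not_not.1 (not_exists.1 h i))
    obtain ⟨c, hc⟩ := hdvd
    exact hη (by rw [this, ← hξ, hc, map_mul, h0, zero_mul])
  let ℓ : R →ₐ[ℂ] Polynomial ℂ := MvPolynomial.aeval fun i =>
    Polynomial.C (ξ i) + Polynomial.C (η i - ξ i) * Polynomial.X
  have hℓ : ∀ (t : ℂ) (r : R), (ℓ r).eval t =
      MvPolynomial.eval (fun i => ξ i + (η i - ξ i) * t) r := fun t r => by
    have : (Polynomial.aeval t).comp ℓ = MvPolynomial.aeval fun i => ξ i + (η i - ξ i) * t :=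
      MvPolynomial.algHom_ext fun i => by simp [ℓ]
    exact (congrArg (fun φ : R →ₐ[ℂ] ℂ => φ r) this).trans rfl
  let s : Polynomial ℂ →ₐ[ℂ] R := Polynomial.aeval
    (MvPolynomial.C (η i0 - ξ i0)⁻¹ * (MvPolynomial.X i0 - MvPolynomial.C (ξ i0)))
  have hs : ∀ f, ℓ (s f) = f := fun f => by
    have hC : ∀ c, ℓ (MvPolynomial.C c) = Polynomial.C c := fun c => ℓ.commutes c
    have hX : ℓ (MvPolynomial.X i0) =
        Polynomial.C (ξ i0) + Polynomial.C (η i0 - ξ i0) * Polynomial.X := MvPolynomial.aeval_X _ _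
    have : ℓ.comp s = AlgHom.id ℂ _ := Polynomial.algHom_ext (by
      rw [AlgHom.comp_apply, AlgHom.id_apply, Polynomial.aeval_X, map_mul ℓ, map_sub ℓ, hC, hC, hX,
        add_sub_cancel_left, ← mul_assoc, ← map_mul, inv_mul_cancel₀ hi0, map_one, one_mul])
    exact congrArg (fun φ : Polynomial ℂ →ₐ[ℂ] Polynomial ℂ => φ f) this
  have : (RingHom.ker ℓ).IsPrime := RingHom.ker_isPrime ℓ
  have : (RingHom.ker e).IsPrime := RingHom.ker_isPrime e
  obtain ⟨q, hqe, hq, hqp⟩ := Ideal.exists_ideal_le_liesOver_of_le (p := RingHom.ker ℓ)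
    (q := (RingHom.ker e).under R) (RingHom.ker e) fun r hr => by
      have h1 := hℓ 0 r
      rw [show ℓ r = 0 from hr] at h1
      change e (g r) = 0
      rw [hξ]
      simpa using h1.symm
  have hmem : ∀ r : R, g r ∈ q ↔ ℓ r = 0 := fun r => by
    rw [← RingHom.mem_ker, q.over_def (RingHom.ker ℓ)]; rfl
  let B := A ⧸ q
  let m : A →ₐ[ℂ] B := Ideal.Quotient.mkₐ ℂ q
  let κ : Polynomial ℂ →ₐ[ℂ] B := m.comp (g.comp s)
  have hκ : ∀ r : R, κ (ℓ r) = m (g r) := fun r =>
    Ideal.Quotient.eq.2 (by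
      change g (s (ℓ r)) - g r ∈ q
      rw [← map_sub, hmem, map_sub, hs, sub_self])
  let : Algebra (Polynomial ℂ) B := κ.toRingHom.toAlgebra
  have : IsScalarTower ℂ (Polynomial ℂ) B :=
    IsScalarTower.of_algebraMap_eq fun x => (κ.commutes x).symm
  have : FaithfulSMul (Polynomial ℂ) B := (faithfulSMul_iff_algebraMap_injective _ _).2
    ((injective_iff_map_eq_zero _).2 fun f hf => by
      have h1 : g (s f) ∈ q := Ideal.Quotient.eq_zero_iff_mem.1 hf
      rwa [hmem, hs] at h1)
  have : Module.Finite (Polynomial ℂ) B := by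
    have h1 : (κ.toRingHom.comp ℓ.toRingHom).Finite := by
      have : κ.toRingHom.comp ℓ.toRingHom = m.toRingHom.comp g.toRingHom :=
        RingHom.ext fun r => hκ r
      rw [this]
      exact (RingHom.Finite.of_surjective _ Ideal.Quotient.mk_surjective).comp hfin
    exact h1.of_comp_finite
  let eb : B →ₐ[ℂ] ℂ := Ideal.Quotient.liftₐ q e fun a ha => hqe ha
  obtain ⟨ψ, h1, h2⟩ := arc_curve hE eb
  refine ⟨ψ.comp m, fun a => by rw [AlgHom.comp_apply, h2]; rfl, fun h => ?_⟩
  have h3 : Φ ∈ q := Ideal.Quotient.eq_zero_iff_mem.1 (h1 (h.trans (map_zero _).symm))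
  have h4 : ℓ N = 0 := (hmem N).1 (Ideal.mem_of_dvd _ hdvd h3)
  have h5 := hℓ 1 N
  rw [h4] at h5
  exact hη (by simpa using h5.symm)

theorem point : PointS := by
  rintro Ω _ _ A e x hA (hx | ⟨b, hb, rfl⟩)
  · let A' : Subalgebra ℂ Ω := A ⊔ Algebra.adjoin ℂ {x}
    have hle : A ≤ A' := le_sup_left
    let : Algebra A A' := (Subalgebra.inclusion hle).toRingHom.toAlgebra
    have : IsScalarTower ℂ A A' := IsScalarTower.of_algebraMap_eq fun _ => rfl
    have : IsScalarTower A A' Ω := IsScalarTower.of_algebraMap_eq fun _ => rfl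
    have h1 : A' ≤ (integralClosure A Ω).restrictScalars ℂ :=
      sup_le (fun a ha => isIntegral_algebraMap (R := A) (x := ⟨a, ha⟩))
        (Algebra.adjoin_le (Set.singleton_subset_iff.2 hx))
    have : Algebra.IsIntegral A A' := ⟨fun y =>
      (isIntegral_algHom_iff (IsScalarTower.toAlgHom A A' Ω) Subtype.val_injective).1 (h1 y.2)⟩
    obtain ⟨e', he'⟩ := ext_point (S := A') e fun r hr => by
      have : r = 0 := Subtype.ext (congrArg (fun z : A' => (z : Ω)) hr)
      rw [this, map_zero]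
    refine ⟨A', hle, e', ?_, (le_sup_right : _ ≤ A') (Algebra.self_mem_adjoin_singleton ℂ x), he'⟩
    obtain ⟨t, ht⟩ := hA
    classical
    exact ⟨t ∪ {x}, by rw [Finset.coe_union, Algebra.adjoin_union, ht, Finset.coe_singleton]⟩
  · have hb0 : b ≠ 0 := fun h => hb (by rw [h, map_zero])
    have hb1 : (b : Ω) ≠ 0 := fun h => hb0 (Subtype.ext h)
    let S := Localization.Away b
    have hu : ∀ y : Submonoid.powers b, IsUnit (A.val y) := by
      rintro ⟨_, k, rfl⟩
      exact isUnit_iff_ne_zero.2 (by simpa using fun h => absurd h hb0)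
    have hv : ∀ y : Submonoid.powers b, IsUnit (e y) := by
      rintro ⟨_, k, rfl⟩
      exact isUnit_iff_ne_zero.2 (by simpa using fun h => absurd h hb)
    let φ : S →ₐ[ℂ] Ω := IsLocalization.liftAlgHom (M := Submonoid.powers b) (f := A.val) hu
    let ε : S →ₐ[ℂ] ℂ := IsLocalization.liftAlgHom (M := Submonoid.powers b) (f := e) hv
    have hφ : ∀ a : A, φ (algebraMap A S a) = a := fun a => by
      simp [φ, IsLocalization.liftAlgHom_apply]
    have hε : ∀ a : A, ε (algebraMap A S a) = e a := fun a => by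
      simp [ε, IsLocalization.liftAlgHom_apply]
    have hinj : Function.Injective φ := (injective_iff_map_eq_zero _).2 fun z hz => by
      obtain ⟨⟨a, y⟩, h⟩ := IsLocalization.surj (Submonoid.powers b) z
      have h1 := congrArg φ h
      rw [map_mul, hz, zero_mul, hφ] at h1
      have h2 : a = 0 := Subtype.ext h1.symm
      rw [h2, map_zero] at h
      exact (IsLocalization.map_units S y).mul_left_eq_zero.1 h
    have : Algebra.FiniteType ℂ A := (Subalgebra.fg_iff_finiteType A).1 hA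
    have : Algebra.FiniteType ℂ S := Algebra.FiniteType.trans (S := A) inferInstance inferInstance
    refine ⟨φ.range, fun a ha => ⟨algebraMap A S ⟨a, ha⟩, hφ _⟩,
      ε.comp (AlgEquiv.ofInjective φ hinj).symm.toAlgHom, ?_,
      ⟨IsLocalization.Away.invSelf b, ?_⟩, fun a => ?_⟩
    · rw [← Algebra.map_top]
      exact Algebra.FiniteType.out.map φ
    · refine eq_inv_of_mul_eq_one_right ?_
      change (b : Ω) * φ _ = 1
      rw [← hφ b, ← map_mul, IsLocalization.Away.mul_invSelf, map_one]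
    · rw [← hε]
      change ε _ = ε _
      congr 1
      refine (AlgEquiv.ofInjective φ hinj).symm_apply_eq.2 (Subtype.ext ?_)
      exact (hφ a).symm

end ArcA

theorem rowArc : OfArc ∧ PointS := ⟨ArcA.arc, ArcA.point⟩

end Pool.Agent.MP_aa1ef7_ag.H20
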