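import Pool.Agent.MP_aa1ef7_ag.H20.Spec

/-! From a generic point with a formal centre to a formal arc with a formal centre. -/

namespace Pool.Agent.MP_aa1ef7_ag.H20

open MvPolynomial
open Pool.Agent.MP_aa1ef7_ag.H40

namespace ArcdA

/-- A finitely generated subalgebra with a complex point. -/
structure Pt (Ω : Type) [Field Ω] [Algebra ℂ Ω] where
  A : Subalgebra ℂ Ω
  e : A →ₐ[ℂ] ℂ
  fg : A.FG

variable {Ω : Type} [Field Ω] [Algebra ℂ Ω]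

/-- `x` lies in the subalgebra and has value `c`. -/
def Pt.val (a : Pt Ω) (x : Ω) (c : ℂ) : Prop := ∃ h : x ∈ a.A, a.e ⟨x, h⟩ = c

/-- Extension of points. -/
def Pt.ex (a b : Pt Ω) : Prop := ∀ x c, a.val x c → b.val x c

theorem Pt.ex.trans {a b c : Pt Ω} (h : a.ex b) (h' : b.ex c) : a.ex c :=
  fun x v hx => h' x v (h x v hx)

theorem Pt.val_self (a : Pt Ω) (x : a.A) : a.val x (a.e x) := ⟨x.2, rfl⟩

theorem Pt.ex.le {a b : Pt Ω} (h : a.ex b) : a.A ≤ b.A :=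
  fun x hx => (h x _ (a.val_self ⟨x, hx⟩)).1

theorem Pt.val.ne {a : Pt Ω} {x : Ω} {c : ℂ} (h : a.val x c) (hc : c ≠ 0) : x ≠ 0 := by
  obtain ⟨hx, h⟩ := h
  rintro rfl
  exact hc (h.symm.trans (map_zero a.e))

theorem Pt.ex.int {a b : Pt Ω} (h : a.ex b) {x : Ω} (hx : IsIntegral a.A x) :
    IsIntegral b.A x := by
  obtain ⟨q, hq, hx⟩ := hx
  refine ⟨q.map (Subalgebra.inclusion h.le).toRingHom, hq.map _, ?_⟩
  rw [Polynomial.eval₂_map]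
  exact hx

theorem ext_int (hP : PointS) (a : Pt Ω) {x : Ω} (hx : IsIntegral a.A x) :
    ∃ b : Pt Ω, a.ex b ∧ x ∈ b.A := by
  obtain ⟨A', h, e', hfg, hx', he⟩ := hP Ω a.A a.e x a.fg (Or.inl hx)
  exact ⟨⟨A', e', hfg⟩, fun y c ⟨hy, hc⟩ => ⟨h hy, (he ⟨y, hy⟩).trans hc⟩, hx'⟩

theorem ext_inv (hP : PointS) (a : Pt Ω) {x : Ω} {c : ℂ} (hx : a.val x c) (hc : c ≠ 0) :
    ∃ b : Pt Ω, a.ex b ∧ x⁻¹ ∈ b.A := by
  obtain ⟨hx, hv⟩ := hx
  obtain ⟨A', h, e', hfg, hx', he⟩ := hP Ω a.A a.e x⁻¹ a.fg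
    (Or.inr ⟨⟨x, hx⟩, by rwa [hv], rfl⟩)
  exact ⟨⟨A', e', hfg⟩, fun y c ⟨hy, hc⟩ => ⟨h hy, (he ⟨y, hy⟩).trans hc⟩, hx'⟩

theorem unit_of {A : Subalgebra ℂ Ω} (x : A) (h0 : (x : Ω) ≠ 0) (h : (x : Ω)⁻¹ ∈ A) :
    IsUnit x :=
  IsUnit.of_mul_eq_one ⟨_, h⟩ (Subtype.ext (mul_inv_cancel₀ h0))

theorem start (d : ℕ) (χ : MvPolynomial CI ℂ →ₐ[ℂ] Ω) (c : CI → ℂ)
    (hd : ∀ i : CI, d < i.2 0 + i.2 1 → χ (X i) = 0) (hk : ∀ Φ, χ Φ = 0 → eval c Φ = 0) :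
    ∃ a : Pt Ω, ∀ Φ, a.val (χ Φ) (eval c Φ) := by
  have hfg : χ.range.FG := by
    rw [Subalgebra.fg_def]
    refine ⟨Set.range (χ ∘ X), ?_, ?_⟩
    · refine Set.Finite.subset (Set.Finite.insert 0
        (((Finset.univ ×ˢ mon d : Finset CI).finite_toSet).image (χ ∘ X))) ?_
      rintro _ ⟨i, rfl⟩
      by_cases hi : d < i.2 0 + i.2 1
      · exact Or.inl (hd i hi)
      · refine Or.inr ⟨i, ?_, rfl⟩
        rw [Finset.mem_coe, Finset.mem_product, mem_mon]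
        exact ⟨Finset.mem_univ _, by omega⟩
    · rw [Algebra.adjoin_range_eq_range_aeval, ← aeval_unique]
  have hker : RingHom.ker χ.rangeRestrict.toRingHom ≤ RingHom.ker (aeval c).toRingHom := by
    intro Φ hΦ
    have h1 : χ Φ = 0 := congrArg Subtype.val (RingHom.mem_ker.1 hΦ)
    exact RingHom.mem_ker.2 (hk Φ h1)
  refine ⟨⟨χ.range, AlgHom.liftOfSurjective χ.rangeRestrict χ.rangeRestrict_surjective (aeval c)
    hker, hfg⟩, fun Φ => ⟨⟨Φ, rfl⟩, ?_⟩⟩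
  exact AlgHom.liftOfSurjective_apply χ.rangeRestrict χ.rangeRestrict_surjective (aeval c) hker Φ

/-- The quadratic expression in the linear part. -/
noncomputable def cy {K : Type} [CommRing K] (P Q : Ser K) (s t : ℕ) : K :=
  cc (dS 1 P) * (s : K) ^ 2 - 2 * cc (dS 0 P) * (s : K) * (t : K) - cc (dS 0 Q) * (t : K) ^ 2

theorem cy_map {K K' : Type} [CommRing K] [CommRing K'] (j : K →+* K') (P Q : Ser K) (s t : ℕ) :
    cy (MvPowerSeries.map j P) (MvPowerSeries.map j Q) s t = j (cy P Q s t) := by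
  simp [cy, dS_map, cc_map, map_ofNat]

theorem exists_cy (P Q : Ser ℂ) (h : jac P Q ≠ 0) : ∃ s t, cy P Q s t ≠ 0 := by
  by_contra hc
  have hc' : ∀ s t, cy P Q s t = 0 := fun s t => by
    by_contra h'
    exact hc ⟨s, t, h'⟩
  have h1 := hc' 1 0
  have h2 := hc' 0 1
  have h3 := hc' 1 1
  simp only [cy, Nat.cast_one, Nat.cast_zero] at h1 h2 h3
  have hb : cc (dS 1 P) = 0 := by linear_combination h1
  have ha : cc (dS 0 P) = 0 := by linear_combination (h1 + h2 - h3) / 2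
  exact h (by rw [jac, ha, hb]; ring)

section sub

variable (d : ℕ) (χ : MvPolynomial CI ℂ →ₐ[ℂ] Ω) (w : Poly × Poly) (a : Pt Ω)
  (ha : ∀ Φ, a.val (χ Φ) (eval (coords w) Φ))

/-- The map `χ` with values in the subalgebra. -/
noncomputable def chi : MvPolynomial CI ℂ →ₐ[ℂ] a.A := χ.codRestrict a.A fun Φ => (ha Φ).1

/-- The form over the subalgebra. -/
noncomputable def fm (b : Bool) : Pl a.A := formOf d (fun i => chi χ w a ha (X i)) b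

theorem fm_val (b : Bool) :
    MvPolynomial.map a.A.val.toRingHom (fm d χ w a ha b) = formOf d (fun i => χ (X i)) b := by
  rw [fm, formOf_map]; rfl

theorem e_chi (Φ : MvPolynomial CI ℂ) : a.e (chi χ w a ha Φ) = eval (coords w) Φ := (ha Φ).2

theorem fm_e (h1 : w.1.totalDegree ≤ d) (h2 : w.2.totalDegree ≤ d) :
    MvPolynomial.map a.e.toRingHom (fm d χ w a ha true) = w.1 ∧
      MvPolynomial.map a.e.toRingHom (fm d χ w a ha false) = w.2 := by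
  have h : (a.e.toRingHom ∘ fun i => chi χ w a ha (X i)) = coordsK w.1 w.2 := by
    funext i
    exact (e_chi χ w a ha (X i)).trans (eval_X i)
  rw [fm, fm, formOf_map, formOf_map, h]
  exact formOf_coordsK h1 h2

theorem tay_val {p : Fin 2 → Ω} (hp : ∀ i, p i ∈ a.A) (b : Bool) :
    MvPowerSeries.map a.A.val.toRingHom (tay (fun i => (⟨p i, hp i⟩ : a.A)) (fm d χ w a ha b)) =
      tay p (formOf d (fun i => χ (X i)) b) := by
  rw [← tay_map, fm_val]; rfl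

end sub

theorem main [IsAlgClosed Ω] (hI : IntegS) (hP : PointS) (hN : NfS) (hA : ArcS) (d : ℕ)
    (χ : MvPolynomial CI ℂ →ₐ[ℂ] Ω) (p : Fin 2 → Ω) (w : Poly × Poly) (Φ0 : MvPolynomial CI ℂ)
    (hd : 1 ≤ d)
    (hF : FC (formOf d (fun i => χ (X i)) true) (formOf d (fun i => χ (X i)) false) p)
    (hz : ∀ i : CI, d < i.2 0 + i.2 1 → χ (X i) = 0) (h1 : w.1.totalDegree ≤ d)
    (h2 : w.2.totalDegree ≤ d)
    (hc : IsRelPrime (homogeneousComponent d w.1) (homogeneousComponent d w.2))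
    (hj : ∀ z, eval z w.1 = 0 → eval z w.2 = 0 → jac (tay z w.1) (tay z w.2) ≠ 0)
    (hk : ∀ Φ, χ Φ = 0 → eval (coords w) Φ = 0) (h0 : χ Φ0 ≠ 0) :
    ∃ (ψ : MvPolynomial CI ℂ →ₐ[ℂ] PowerSeries ℂ) (pt : Fin 2 → PowerSeries ℂ),
      (∀ Φ, PowerSeries.constantCoeff (ψ Φ) = eval (coords w) Φ) ∧ ψ Φ0 ≠ 0 ∧
      (∀ Φ, χ Φ = 0 → ψ Φ = 0) ∧
      FC (formOf d (fun i => ψ (X i)) true) (formOf d (fun i => ψ (X i)) false) pt := by
  obtain ⟨h, hF⟩ := hF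
  obtain ⟨a0, ha0⟩ := start d χ (coords w) hz hk
  have hev : ∀ b, aeval p (fm d χ w a0 ha0 b) = cc (tay p (formOf d (fun i => χ (X i)) b)) := by
    intro b
    rw [cc_tay, ← fm_val d χ w a0 ha0 b, eval_map]
    rfl
  obtain ⟨Δ, hΔ, hint⟩ := hI Ω a0.A a0.e d (fm d χ w a0 ha0 true) (fm d χ w a0 ha0 false) p hd
    (deg_formOf _ _ _) (deg_formOf _ _ _)
    (by rw [(fm_e d χ w a0 ha0 h1 h2).1, (fm_e d χ w a0 ha0 h1 h2).2]; exact hc)
    ((hev true).trans hF.P0) ((hev false).trans hF.Q0)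
  have hΔv : a0.val Δ 1 := hΔ ▸ a0.val_self Δ
  obtain ⟨a1, e01, m1⟩ := ext_int hP a0 (hint 0)
  obtain ⟨a2, e12, m2⟩ := ext_int hP a1 (e01.int (hint 1))
  obtain ⟨a3, e23, m3⟩ := ext_inv hP a2 ((e01.trans e12) _ _ hΔv) one_ne_zero
  have hΔ0 : (Δ : Ω) ≠ 0 := hΔv.ne one_ne_zero
  have hp3 : ∀ i, p i ∈ a3.A := by
    have hh : ∀ i, (Δ : Ω) * p i ∈ a3.A := by
      intro i
      fin_cases i
      · exact e23.le (e12.le m1)
      · exact e23.le m2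
    intro i
    have := a3.A.mul_mem m3 (hh i)
    rwa [inv_mul_cancel_left₀ hΔ0] at this
  have ha3 : ∀ Φ, a3.val (χ Φ) (eval (coords w) Φ) :=
    fun Φ => ((e01.trans e12).trans e23) _ _ (ha0 Φ)
  obtain ⟨P, hPe⟩ : ∃ P, P = tay p (formOf d (fun i => χ (X i)) true) := ⟨_, rfl⟩
  obtain ⟨Q, hQe⟩ : ∃ Q, Q = tay p (formOf d (fun i => χ (X i)) false) := ⟨_, rfl⟩
  obtain ⟨P3, hP3⟩ : ∃ P3, P3 = tay (fun i => (⟨p i, hp3 i⟩ : a3.A)) (fm d χ w a3 ha3 true) :=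
    ⟨_, rfl⟩
  obtain ⟨Q3, hQ3⟩ : ∃ Q3, Q3 = tay (fun i => (⟨p i, hp3 i⟩ : a3.A)) (fm d χ w a3 ha3 false) :=
    ⟨_, rfl⟩
  obtain ⟨z, hzz⟩ : ∃ z, z = a3.e.toRingHom ∘ fun i => (⟨p i, hp3 i⟩ : a3.A) := ⟨_, rfl⟩
  have vP : MvPowerSeries.map a3.A.val.toRingHom P3 = P := by rw [hP3, hPe, tay_val]
  have vQ : MvPowerSeries.map a3.A.val.toRingHom Q3 = Q := by rw [hQ3, hQe, tay_val]
  have eP : MvPowerSeries.map a3.e.toRingHom P3 = tay z w.1 := by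
    rw [hP3, ← tay_map, (fm_e d χ w a3 ha3 h1 h2).1, hzz]
  have eQ : MvPowerSeries.map a3.e.toRingHom Q3 = tay z w.2 := by
    rw [hQ3, ← tay_map, (fm_e d χ w a3 ha3 h1 h2).2, hzz]
  rw [← hPe, ← hQe] at hF
  have z1 : eval z w.1 = 0 := by
    have h3 : cc P3 = 0 := Subtype.ext ((cc_map a3.A.val.toRingHom P3).symm.trans
      (by rw [vP]; exact hF.P0))
    rw [← cc_tay, ← eP, cc_map, h3, map_zero]
  have z2 : eval z w.2 = 0 := by
    have h3 : cc Q3 = 0 := Subtype.ext ((cc_map a3.A.val.toRingHom Q3).symm.trans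
      (by rw [vQ]; exact hF.Q0))
    rw [← cc_tay, ← eQ, cc_map, h3, map_zero]
  have hjz := hj z z1 z2
  obtain ⟨s, t, hst⟩ := exists_cy _ _ hjz
  have vJ : a3.val (jac P Q) (jac (tay z w.1) (tay z w.2)) := by
    rw [← vP, ← vQ, ← eP, ← eQ, jac_map, jac_map]
    exact a3.val_self _
  have vC : a3.val (cy P Q s t) (cy (tay z w.1) (tay z w.2) s t) := by
    rw [← vP, ← vQ, ← eP, ← eQ, cy_map, cy_map]
    exact a3.val_self _
  obtain ⟨lam, hlam⟩ := IsAlgClosed.exists_pow_nat_eq (-jac P Q) (n := 2) (by norm_num)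
  have hli : IsIntegral a3.A lam := by
    refine IsIntegral.of_pow (n := 2) (by norm_num) ?_
    rw [hlam]
    exact (isIntegral_algebraMap (R := a3.A) (A := Ω) (x := ⟨jac P Q, vJ.1⟩)).neg
  obtain ⟨a4, e34, m4⟩ := ext_int hP a3 hli
  have hl4 : a4.e ⟨lam, m4⟩ ≠ 0 := by
    obtain ⟨hJ, hJv⟩ := e34 _ _ vJ
    have h3 : (⟨lam, m4⟩ : a4.A) ^ 2 = -⟨jac P Q, hJ⟩ := Subtype.ext hlam
    intro h4
    have h5 := congrArg a4.e h3
    rw [map_pow, map_neg, h4, hJv] at h5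
    exact hjz (by linear_combination h5)
  have vl : a4.val lam (a4.e ⟨lam, m4⟩) := ⟨m4, rfl⟩
  obtain ⟨a5, e45, m5⟩ := ext_inv hP a4 vl hl4
  obtain ⟨a6, e56, m6⟩ := ext_inv hP a5 ((e34.trans e45) _ _ vC) hst
  have e36 := (e34.trans e45).trans e56
  have hp6 : ∀ i, p i ∈ a6.A := fun i => e36.le (hp3 i)
  have ha6 : ∀ Φ, a6.val (χ Φ) (eval (coords w) Φ) := fun Φ => e36 _ _ (ha3 Φ)
  obtain ⟨P6, hP6⟩ : ∃ P6, P6 = tay (fun i => (⟨p i, hp6 i⟩ : a6.A)) (fm d χ w a6 ha6 true) :=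
    ⟨_, rfl⟩
  obtain ⟨Q6, hQ6⟩ : ∃ Q6, Q6 = tay (fun i => (⟨p i, hp6 i⟩ : a6.A)) (fm d χ w a6 ha6 false) :=
    ⟨_, rfl⟩
  have wP : MvPowerSeries.map a6.A.val.toRingHom P6 = P := by rw [hP6, hPe, tay_val]
  have wQ : MvPowerSeries.map a6.A.val.toRingHom Q6 = Q := by rw [hQ6, hQe, tay_val]
  have hJ6 : ((jac P6 Q6 : a6.A) : Ω) = jac P Q := by
    rw [← wP, ← wQ, jac_map]; rfl
  have hC6 : ((cy P6 Q6 s t : a6.A) : Ω) = cy P Q s t := by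
    rw [← wP, ← wQ, cy_map]; rfl
  have ml : lam ∈ a6.A := (e45.trans e56).le m4
  let _ : Algebra ℚ a6.A := ((algebraMap ℂ a6.A).comp (algebraMap ℚ ℂ)).toAlgebra
  have _ : CharZero Ω := charZero_of_injective_algebraMap (algebraMap ℂ Ω).injective
  obtain ⟨h', hF'⟩ := hN a6.A Ω a6.A.val.toRingHom P6 Q6 h ⟨lam, ml⟩ s t Subtype.val_injective
    (by rw [wP, wQ]; exact hF) (unit_of _ (vl.ne hl4) (e56.le m5))
    (Subtype.ext (hlam.trans (by rw [← hJ6]; rfl)))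
    (unit_of (cy P6 Q6 s t) (by rw [hC6]; exact vC.ne hst) (by rw [hC6]; exact m6))
  have _ : Algebra.FiniteType ℂ a6.A := (Subalgebra.fg_iff_finiteType _).1 a6.fg
  obtain ⟨ψ, hψ, hψ0⟩ := hA a6.A a6.e (chi χ w a6 ha6 Φ0) fun h3 => h0 (congrArg Subtype.val h3)
  have hFC : FC (fm d χ w a6 ha6 true) (fm d χ w a6 ha6 false)
      fun i => (⟨p i, hp6 i⟩ : a6.A) := ⟨h', by rw [← hP6, ← hQ6]; exact hF'⟩
  have hFC' := hFC.map ψ.toRingHom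
  rw [fm, fm, formOf_map, formOf_map] at hFC'
  refine ⟨ψ.comp (chi χ w a6 ha6), _, fun Φ => (hψ _).trans (e_chi χ w a6 ha6 Φ), hψ0,
    fun Φ hΦ => ?_, hFC'⟩
  have h3 : chi χ w a6 ha6 Φ = 0 := Subtype.ext hΦ
  rw [AlgHom.comp_apply, h3, map_zero]

end ArcdA

theorem rowArcd : OfArcd := by
  intro hI hP hN hA d Ω _ _ χ p w Φ0 hd hF hz h1 h2 hc hj hk h0
  let ι : Ω →ₐ[ℂ] AlgebraicClosure Ω := IsScalarTower.toAlgHom ℂ Ω (AlgebraicClosure Ω)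
  have hι : Function.Injective ι := ι.toRingHom.injective
  have hF' := hF.map ι.toRingHom
  rw [formOf_map, formOf_map] at hF'
  obtain ⟨ψ, pt, k1, k2, k3, k4⟩ := ArcdA.main hI hP hN hA d (ι.comp χ) _ w Φ0 hd hF'
    (fun i hi => by rw [AlgHom.comp_apply, hz i hi, map_zero]) h1 h2 hc hj
    (fun Φ hΦ => hk Φ (hι (hΦ.trans (map_zero ι).symm)))
    (fun h => h0 (hι (h.trans (map_zero ι).symm)))
  exact ⟨ψ, pt, k1, k2, fun Φ hΦ => k3 Φ (by rw [AlgHom.comp_apply, hΦ, map_zero]), k4⟩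

end Pool.Agent.MP_aa1ef7_ag.H20
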