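import Pool.Agent.MP_aa1ef7_ag.H20.Spec

/-! Basic identities in the ring of logarithms. -/

namespace Pool.Agent.MP_aa1ef7_ag.H20

open MvPolynomial
open Pool.Agent.MP_aa1ef7_ag.H40

namespace BasA

variable {d : ℕ} (l : Fin (d + 1) → ℂ × ℂ × ℂ)

theorem hom_der (φ : BB l →ₐ[TT l] BB l) (D : Derivation ℂ (BB l) (BB l))
    (hC : ∀ a, φ (D (C a)) = D (C a)) (hX : ∀ m, φ (D (X m)) = D (φ (X m))) (A : BB l) :
    φ (D A) = D (φ A) :=
  leib_ext φ.toRingHom (fun A => φ (D A)) (fun A => D (φ A)) (fun a b => by simp)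
    (fun a b => by simp) (fun a b => by simp) (fun a b => by simp)
    (fun a => by rw [hC, algHom_C, algebraMap_eq]) hX A

theorem der_zero (φ : BB l →ₐ[TT l] BB l) (D : Derivation ℂ (BB l) (BB l))
    (hC : ∀ a, D (C a) = 0) (hX : ∀ m, D (φ (X m)) = 0) (A : BB l) : D (φ A) = 0 :=
  leib_ext φ.toRingHom (fun A => D (φ A)) (fun _ => 0) (fun a b => by simp)
    (fun a b => by simp) (fun a b => by simp) (fun a b => by simp)
    (fun a => by rw [algHom_C, algebraMap_eq, hC]) hX A

theorem der_comm (D E : Derivation ℂ (BB l) (BB l)) (hC : ∀ a, D (E (C a)) = E (D (C a)))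
    (hX : ∀ m, D (E (X m)) = E (D (X m))) (A : BB l) : D (E A) = E (D A) := by
  have h := leib_ext (RingHom.id _) (fun A => ⁅D, E⁆ A) (fun _ => 0) (fun a b => map_add _ a b)
    (fun a b => by simp) (fun a b => by simp only [Derivation.leibniz, smul_eq_mul,
      RingHom.id_apply]) (fun a b => by simp)
    (fun a => by rw [Derivation.commutator_apply, hC, sub_self])
    (fun m => by rw [Derivation.commutator_apply, hX, sub_self]) A
  rwa [Derivation.commutator_apply, sub_eq_zero] at h

theorem dT_comm (t : TT l) : dT l 0 (dT l 1 t) = dT l 1 (dT l 0 t) := by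
  have h0 : ∀ r : Poly, ⁅dT l 0, dT l 1⁆ (algebraMap Poly (TT l) r) = 0 := fun r => by
    rw [Derivation.commutator_apply, dT_alg, dT_alg, dT_alg, dT_alg, pderiv_comm2, sub_self]
  obtain ⟨n, r, h⟩ := IsLocalization.Away.surj (ff l) t
  have h1 := congrArg (fun t => ⁅dT l 0, dT l 1⁆ t) h
  beta_reduce at h1
  rw [← map_pow, Derivation.leibniz, h0, h0, smul_zero, zero_add, smul_eq_mul, map_pow] at h1
  have hu : IsUnit (algebraMap Poly (TT l) (ff l) ^ n) :=
    (IsLocalization.Away.algebraMap_isUnit (ff l)).pow n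
  have h2 := (hu.mul_right_eq_zero).1 h1
  rwa [Derivation.commutator_apply, sub_eq_zero] at h2

theorem pd_lin (i : Fin 2) (a : ℂ × ℂ × ℂ) : pderiv i (lin a) = C (dir i a) := by
  fin_cases i <;> simp [lin, dir, pderiv_X]

theorem alg_C (c : ℂ) (t : TT l) : algebraMap Poly (TT l) (C c) * t = c • t := by
  rw [Algebra.smul_def, IsScalarTower.algebraMap_apply ℂ Poly (TT l), algebraMap_eq]

theorem dT_linv (i : Fin 2) (m : Fin (d + 1)) :
    dT l i (linv l m) = -(dir i (l m) • linv l m ^ 2) := by
  have h := lin_mul_linv l m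
  have h1 := congrArg (dT l i) h
  rw [Derivation.leibniz, dT_alg, pd_lin, Derivation.map_one_eq_zero, smul_eq_mul,
    smul_eq_mul] at h1
  rw [← alg_C]
  linear_combination linv l m * h1 - dT l i (linv l m) * h

theorem dB_C (i : Fin 2) (a : TT l) : dB l i (C a) = C (dT l i a) := dext_C _ _ _

theorem dB_X (i : Fin 2) (m : Fin (d + 1)) : dB l i (X m) = C (dir i (l m) • linv l m) :=
  dext_X _ _ _

theorem pd_X (D : Derivation ℂ (BB l) (BB l)) (m n : Fin (d + 1)) :
    D (pderiv m (X n : BB l)) = 0 := by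
  rw [pderiv_X, Pi.single_apply]
  split_ifs <;> simp

theorem cL (m : Fin (d + 1)) (i : Fin 2) (A : BB l) :
    pderiv m (dB l i A) = dB l i (pderiv m A) :=
  der_comm l (dL l m) (dB l i) (fun a => by simp [dB_C, dL_apply])
    (fun n => by rw [dB_X, dL_apply, dL_apply, pderiv_C, pd_X]) A

theorem Lc (m : Fin (d + 1)) (r : Poly) : pderiv m (cB l r) = 0 := pderiv_C

theorem DB_eq (A : BB l) :
    DB l A = cB l (pderiv 1 (ff l)) * dB l 0 A - cB l (pderiv 0 (ff l)) * dB l 1 A := by
  rw [DB, br, dB_cB, dB_cB]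

/-- `D` on `R[1/f][L]` as a derivation. -/
noncomputable def derB : Derivation ℂ (BB l) (BB l) :=
  cB l (pderiv 1 (ff l)) • dB l 0 - cB l (pderiv 0 (ff l)) • dB l 1

theorem derB_apply (A : BB l) : derB l A = DB l A := by
  rw [DB_eq]
  simp [derB]

theorem Dc (r : Poly) : DB l (cB l r) = cB l (DP l r) := by
  rw [DB_eq, dB_cB, dB_cB, DP, br, map_sub, map_mul, map_mul]
  rfl

theorem DX (L : Lin l) (m : Fin (d + 1)) : DB l (X m) = cB l (bet l m) := by
  have h1 : DP l (lin (l m)) =
      pderiv 1 (ff l) * C (dir 0 (l m)) - pderiv 0 (ff l) * C (dir 1 (l m)) := by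
    rw [← pd_lin, ← pd_lin]
    rfl
  have h2 := congrArg (algebraMap Poly (TT l)) ((L.bet m).trans h1)
  have h3 := lin_mul_linv l m
  rw [map_mul, map_sub, map_mul, map_mul] at h2
  rw [DB_eq, dB_X, dB_X, ← alg_C, ← alg_C]
  simp only [cB, RingHom.comp_apply]
  rw [← map_mul, ← map_mul, ← map_sub]
  refine congrArg C ?_
  linear_combination algebraMap Poly (TT l) (bet l m) * h3 - linv l m * h2

theorem fixC (φ : BB l →ₐ[TT l] BB l) (a : TT l) : φ (C a) = C a := by
  rw [algHom_C, algebraMap_eq]

theorem fixc (φ : BB l →ₐ[TT l] BB l) (r : Poly) : φ (cB l r) = cB l r := fixC l φ _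

theorem fixD (φ : BB l →ₐ[TT l] BB l) (a : TT l) : φ (derB l (C a)) = derB l (C a) := by
  rw [derB_apply, DB_eq, dB_C, dB_C, map_sub, map_mul, map_mul, fixc, fixc, fixC, fixC]

theorem subS_X (i m : Fin (d + 1)) :
    subS l i (X m) = if m = i then -∑ k ∈ Finset.univ.erase i, X k else X m := aeval_X _ _

theorem subP_X (m : Fin (d + 1)) :
    subP l (X m) = X m - algebraMap ℂ (BB l) ((d + 1 : ℂ)⁻¹) * ∑ k, X k := aeval_X _ _

theorem fixa (φ : BB l →ₐ[TT l] BB l) (c : ℂ) :
    φ (algebraMap ℂ (BB l) c) = algebraMap ℂ (BB l) c := by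
  rw [← cB_C, fixc]

theorem cinv : algebraMap ℂ (BB l) ((d + 1 : ℂ)⁻¹) * (d + 1 : BB l) = 1 := by
  have h : (d + 1 : BB l) = algebraMap ℂ (BB l) (d + 1) := by simp
  have h0 : (d + 1 : ℂ) ≠ 0 := Nat.cast_add_one_ne_zero d
  rw [h, ← map_mul, inv_mul_cancel₀ h0, map_one]

theorem subP_sum : ∑ k, subP l (X k) = 0 := by
  simp only [subP_X, Finset.sum_sub_distrib, Finset.sum_const, Finset.card_univ, Fintype.card_fin,
    nsmul_eq_mul]
  push_cast
  linear_combination (-∑ k, (X k : BB l)) * cinv l

theorem subP_idem (A : BB l) : subP l (subP l A) = subP l A := by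
  have h : (subP l).comp (subP l) = subP l := by
    refine algHom_ext fun m => ?_
    rw [AlgHom.comp_apply]
    conv_lhs => rw [subP_X]
    rw [map_sub, map_mul, map_sum, subP_sum, mul_zero, sub_zero]
  exact AlgHom.congr_fun h A

theorem der_subP (D : Derivation ℂ (BB l) (BB l)) (m : Fin (d + 1)) :
    D (subP l (X m)) = D (X m) - algebraMap ℂ (BB l) ((d + 1 : ℂ)⁻¹) * ∑ k, D (X k) := by
  rw [subP_X, map_sub, Derivation.leibniz, Derivation.map_algebraMap, smul_zero, add_zero,
    smul_eq_mul, map_sum]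

theorem der_RP (D : Derivation ℂ (BB l) (BB l)) (hC : ∀ a, subP l (D (C a)) = D (C a))
    (hX : ∀ m, subP l (D (X m)) = D (X m)) (A : BB l) (hA : A ∈ RP l) : D A ∈ RP l := by
  have h := leib_ext (subP l).toRingHom (fun Z => subP l (D (subP l Z))) (fun Z => D (subP l Z))
    (fun a b => by simp) (fun a b => by simp) (fun a b => by simp [subP_idem])
    (fun a b => by simp) (fun a => by rw [fixC, hC])
    (fun m => by simp only [der_subP, map_sub, map_mul, map_sum, hX, fixa]) A
  rwa [(mem_RP l).1 hA] at h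

theorem sfix (i : Fin (d + 1)) (A : BB l) (hA : A ∈ SI l {i}) : subS l i A = A := by
  classical
  have h0 := (mem_SI l).1 hA i (Finset.mem_singleton_self i)
  refine hom_congr_vars (f₁ := (subS l i).toRingHom) (f₂ := RingHom.id _) ?_ ?_ rfl
  · exact RingHom.ext fun a => fixC l (subS l i) a
  · intro m hm _
    have hmi : m ≠ i := by
      rintro rfl
      obtain ⟨e, he, hme⟩ := (mem_vars_iff_mem_support _).1 hm
      have h1 : e - Finsupp.single m 1 + Finsupp.single m 1 = e :=
        tsub_add_cancel_of_le (Finsupp.single_le_iff.2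
          (Nat.one_le_iff_ne_zero.2 (Finsupp.mem_support_iff.1 hme)))
      have h2 := congrArg (coeff (e - Finsupp.single m 1)) h0
      rw [coeff_pderiv, h1, coeff_zero] at h2
      have hu : ∀ n : ℕ, IsUnit ((n : TT l) + 1) := fun n => by
        have h : ((n : TT l) + 1) = algebraMap ℂ (TT l) (n + 1) := by simp
        rw [h]
        exact (IsUnit.mk0 _ (Nat.cast_add_one_ne_zero n)).map _
      exact mem_support_iff.1 he ((hu _).mul_left_eq_zero.1 h2)
    change subS l i (X m) = X m
    rw [subS_X, if_neg hmi]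

theorem clear (A : BB l) : ∃ (N : ℕ) (Z : RL d), iB l Z = cB l (ff l) ^ N * A := by
  induction A using MvPolynomial.induction_on with
  | C t =>
    obtain ⟨n, r, h⟩ := IsLocalization.Away.surj (ff l) t
    refine ⟨n, C r, ?_⟩
    rw [iB_C]
    simp only [cB, RingHom.comp_apply]
    rw [← h, map_mul, map_pow, mul_comm]
  | add a b ha hb =>
    obtain ⟨N, Z, hZ⟩ := ha
    obtain ⟨M, W, hW⟩ := hb
    refine ⟨N + M, C (ff l) ^ M * Z + C (ff l) ^ N * W, ?_⟩
    rw [map_add, map_mul, map_mul, map_pow, map_pow, hZ, hW, iB_C]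
    ring
  | mul_X a m ha =>
    obtain ⟨N, Z, hZ⟩ := ha
    exact ⟨N, Z * X m, by rw [map_mul, hZ, iB_X, mul_assoc]⟩

theorem bas (L : Lin l) : Bas l := by
  have hle : Submonoid.powers (ff l) ≤ nonZeroDivisors Poly :=
    powers_le_nonZeroDivisors_of_noZeroDivisors L.ne
  have hinj : Function.Injective (algebraMap Poly (TT l)) := IsLocalization.injective _ hle
  have hsum : ∑ k, DB l (X k) = 0 := by
    simp only [DX l L]
    rw [← map_sum, L.betsum, map_zero]
  refine
    { dom := ?_, cinj := (C_injective _ _).comp hinj, iinj := map_injective _ hinj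
      clear := clear l, unit := (IsLocalization.Away.algebraMap_isUnit (ff l)).map C
      comm := ?_, cL := cL l, LL := ?_, Lc := Lc l, Li := fun m Z => pderiv_map, DL := ?_
      Dc := Dc l, DX := DX l L, Di := ?_, sD := ?_, sI := ?_, sfix := sfix l, pD := ?_
      pP := subP_idem l, ps := ?_, psum := ?_, pd := ?_, pL := ?_, pc := fixC l _ }
  · have : IsDomain (TT l) := IsLocalization.isDomain_localization hle
    infer_instance
  · refine der_comm l _ _ (fun a => by rw [dB_C, dB_C, dB_C, dB_C, dT_comm]) fun m => ?_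
    rw [dB_X, dB_X, dB_C, dB_C, Derivation.map_smul, Derivation.map_smul, dT_linv, dT_linv,
      smul_neg, smul_neg, smul_comm]
  · intro m n
    exact der_comm l (dL l m) (dL l n) (fun a => by simp [dL_apply])
      (fun k => by rw [dL_apply l n (X k), dL_apply l m (X k), pd_X, pd_X])
  · intro m A
    rw [DB_eq, DB_eq, map_sub, Derivation.leibniz, Derivation.leibniz, Lc, Lc, cL, cL]
    simp
  · intro Z
    rw [← derB_apply]
    refine leib_ext (iB l) (fun Z => derB l (iB l Z)) (fun Z => iB l (H20.DL l Z))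
      (fun a b => by simp) (fun a b => by simp) (fun a b => by simp) (fun a b => by simp)
      (fun a => ?_) (fun m => ?_) Z
    · rw [iB_C, derB_apply, Dc, H20.DL, dext_C, iB_C, derP_apply]
    · rw [iB_X, derB_apply, DX l L, H20.DL, dext_X, iB_C]
  · intro i A
    rw [← derB_apply, ← derB_apply]
    refine hom_der l _ _ (fixD l _) (fun m => ?_) A
    rw [subS_X, derB_apply, DX l L, fixc]
    split_ifs with h
    · subst h
      rw [map_neg, map_sum, ← DX l L, eq_neg_iff_add_eq_zero]
      simp only [derB_apply]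
      rw [Finset.add_sum_erase _ (fun k => DB l (X k)) (Finset.mem_univ m), hsum]
    · rw [derB_apply, DX l L]
  · intro i A
    rw [mem_SI]
    intro j hj
    rw [Finset.mem_singleton.1 hj]
    refine der_zero l (subS l i) (dL l i) (fun a => pderiv_C) (fun m => ?_) A
    rw [subS_X, dL_apply]
    split_ifs with h
    · rw [map_neg, map_sum, neg_eq_zero]
      exact Finset.sum_eq_zero fun k hk => pderiv_X_of_ne (Finset.ne_of_mem_erase hk)
    · exact pderiv_X_of_ne h
  · intro A
    rw [← derB_apply, ← derB_apply]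
    refine hom_der l _ _ (fixD l _) (fun m => ?_) A
    rw [der_subP]
    simp only [derB_apply]
    rw [hsum, mul_zero, sub_zero, DX l L, fixc]
  · intro i A
    have h : (subP l).comp (subS l i) = subP l := by
      refine algHom_ext fun m => ?_
      rw [AlgHom.comp_apply, subS_X]
      split_ifs with h
      · subst h
        rw [map_neg, map_sum, neg_eq_iff_add_eq_zero, add_comm,
          Finset.add_sum_erase _ (fun k => subP l (X k)) (Finset.mem_univ m), subP_sum]
      · rfl
    exact AlgHom.congr_fun h A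
  · intro A hA
    have e : ∀ B : BB l, (∑ m, dL l m) B = ∑ m, pderiv m B := fun B => by
      have h := map_sum Derivation.coeFnAddMonoidHom (fun m => dL l m) Finset.univ
      have h' := congrFun h B
      rwa [Finset.sum_apply] at h'
    have e1 : ∀ k, ∑ m, pderiv m (X k : BB l) = 1 := fun k => by
      simp [pderiv_X, Pi.single_apply]
    have h := der_zero l (subP l) (∑ m, dL l m) (fun a => by simp [e]) (fun m => by
      rw [der_subP]
      simp only [e, e1, Finset.sum_const, Finset.card_univ, Fintype.card_fin, nsmul_eq_mul]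
      push_cast
      linear_combination -cinv l) A
    rwa [(mem_RP l).1 hA, e] at h
  · intro i
    exact der_RP l _ (fun a => by rw [dB_C, fixC]) (fun m => by rw [dB_X, fixC])
  · intro m
    refine der_RP l (dL l m) (fun a => by simp [dL_apply]) fun n => ?_
    rw [dL_apply, pderiv_X, Pi.single_apply]
    split_ifs <;> simp

end BasA

theorem rowBas : OfBas := fun _ _ l _ L => BasA.bas l L

end Pool.Agent.MP_aa1ef7_ag.H20
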