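import Pool.Agent.MP_aa1ef7_ag.H20.Spec

/-! Row C8: a saturated subspace stable under the connection has only trivial elements. -/

namespace Pool.Agent.MP_aa1ef7_ag.H20

open MvPolynomial
open Pool.Agent.MP_aa1ef7_ag.H40

namespace C8A

/-- An eigenvector modulo `W` of a linear relation. -/
theorem eig {E : Type} [AddCommGroup E] [Module ℂ E] (V W : Submodule ℂ E) (hV : V.FG)
    (R : Submodule ℂ (E × E)) (h1 : ∀ v ∈ V, ∃ w ∈ V, (v, w) ∈ R)
    (h2 : ∀ v w, v ∈ W → (v, w) ∈ R → w ∈ W) (h : ¬ V ≤ W) :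
    ∃ v ∈ V, v ∉ W ∧ ∃ (α : ℂ) (w : E), (v, w) ∈ R ∧ w - α • v ∈ W := by
  have : Module.Finite ℂ V := Module.Finite.iff_fg.2 hV
  let R' : Submodule ℂ (V × V) := R.comap (V.subtype.prodMap V.subtype)
  let p : R' →ₗ[ℂ] V := (LinearMap.fst ℂ V V).comp R'.subtype
  have hp : LinearMap.range p = ⊤ := by
    rw [LinearMap.range_eq_top]
    intro v
    obtain ⟨w, hw, hr⟩ := h1 v.1 v.2
    exact ⟨⟨(v, ⟨w, hw⟩), hr⟩, rfl⟩
  obtain ⟨g, hg⟩ := p.exists_rightInverse_of_surjective hp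
  let θ : V →ₗ[ℂ] V := ((LinearMap.snd ℂ V V).comp R'.subtype).comp g
  have hθ : ∀ v : V, ((v : E), (θ v : E)) ∈ R := by
    intro v
    have e1 : (g v).1.1 = v := LinearMap.congr_fun hg v
    have e2 : (((g v).1.1 : E), ((g v).1.2 : E)) ∈ R := (g v).2
    rw [e1] at e2
    exact e2
  let W' : Submodule ℂ V := W.comap V.subtype
  have hW : W' ≤ W'.comap θ := fun v hv => h2 _ _ hv (hθ v)
  have : Nontrivial (V ⧸ W') := by
    rw [Submodule.Quotient.nontrivial_iff]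
    intro e
    exact h fun v hv => by
      have : (⟨v, hv⟩ : V) ∈ W' := by rw [e]; trivial
      exact this
  obtain ⟨α, hα⟩ := Module.End.exists_eigenvalue (W'.mapQ W' θ hW : Module.End ℂ (V ⧸ W'))
  obtain ⟨x, hx⟩ := hα.exists_hasEigenvector
  obtain ⟨v, rfl⟩ := Submodule.Quotient.mk_surjective W' x
  refine ⟨v, v.2, fun hv => hx.2 ((Submodule.Quotient.mk_eq_zero W').2 hv), α, θ v, hθ v, ?_⟩
  have e := hx.apply_eq_smul
  rw [Submodule.mapQ_apply, ← Submodule.Quotient.mk_smul, Submodule.Quotient.eq] at e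
  exact e

variable {d : ℕ} (l : Fin (d + 1) → ℂ × ℂ × ℂ)

/-- The trivial polynomials as a subspace. -/
noncomputable def TS : Submodule ℂ Poly where
  carrier := {b | Triv l b}
  zero_mem' := ⟨0, 0, by simp [DP, br_zero]⟩
  add_mem' := by
    rintro a b ⟨A, e, rfl⟩ ⟨B, e', rfl⟩
    refine ⟨A + B, e + e', ?_⟩
    simp only [DP, br_add, Pi.add_apply, map_add, add_mul, Finset.sum_add_distrib]
    ring
  smul_mem' := by
    rintro c a ⟨A, e, rfl⟩
    refine ⟨c • A, c • e, ?_⟩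
    simp only [DP, br_smul, Pi.smul_apply, map_smul, smul_add, Finset.smul_sum, smul_mul_assoc]

theorem mem_TS {b : Poly} : b ∈ TS l ↔ Triv l b := Iff.rfl

theorem DP_mem (A : Poly) : DP l A ∈ TS l := ⟨A, 0, by simp⟩

theorem bet_mem (e : Polynomial ℂ) (m : Fin (d + 1)) :
    Polynomial.aeval (ff l) e * bet l m ∈ TS l := by
  refine ⟨0, Pi.single m e, ?_⟩
  rw [DP, br_zero, zero_add, Finset.sum_eq_single m]
  · simp
  · intro k _ hk
    simp [Pi.single_eq_of_ne hk]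
  · simp

theorem f_mul_mem {b : Poly} (h : b ∈ TS l) : ff l * b ∈ TS l := by
  obtain ⟨A, e, rfl⟩ := h
  refine ⟨ff l * A, fun m => Polynomial.X * e m, ?_⟩
  simp only [DP, br_mul, br_self, map_mul, Polynomial.aeval_X, mul_add, Finset.mul_sum, mul_assoc]
  ring

theorem DP_eq (A : Poly) :
    DP l A = pderiv 1 (ff l) * pderiv 0 A - pderiv 0 (ff l) * pderiv 1 A := rfl

variable {l}

/-- Two fields with the same value on `f` have the same divergence modulo trivial terms. -/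
theorem div_syz (hJ : Jac l) {Y0 Y1 Z0 Z1 : Poly}
    (h : Y0 * pderiv 0 (ff l) + Y1 * pderiv 1 (ff l) =
      Z0 * pderiv 0 (ff l) + Z1 * pderiv 1 (ff l)) :
    (pderiv 0 Y0 + pderiv 1 Y1) - (pderiv 0 Z0 + pderiv 1 Z1) ∈ TS l := by
  obtain ⟨c, h0, h1⟩ := hJ.syz (Y0 - Z0) (Y1 - Z1) (by linear_combination h)
  have e : (pderiv 0 Y0 + pderiv 1 Y1) - (pderiv 0 Z0 + pderiv 1 Z1) = DP l c := by
    have e0 := congrArg (pderiv 0) h0
    have e1 := congrArg (pderiv 1) h1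
    simp only [map_sub, map_neg, Derivation.leibniz, smul_eq_mul] at e0 e1
    rw [DP_eq]
    linear_combination e0 + e1 + c * pderiv_comm2 (ff l)
  rw [e]
  exact DP_mem l c

/-- The connection preserves the trivial polynomials. -/
theorem div_triv (hL : Lin l) (hJ : Jac l) {b Y0 Y1 : Poly} (hb : b ∈ TS l)
    (h : Y0 * pderiv 0 (ff l) + Y1 * pderiv 1 (ff l) = ff l * b) :
    pderiv 0 Y0 + pderiv 1 Y1 ∈ TS l := by
  let P : Poly → Prop := fun b => ∃ Z0 Z1 : Poly,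
    Z0 * pderiv 0 (ff l) + Z1 * pderiv 1 (ff l) = ff l * b ∧ pderiv 0 Z0 + pderiv 1 Z1 ∈ TS l
  have hadd : ∀ a b, P a → P b → P (a + b) := by
    rintro a b ⟨Z0, Z1, e, t⟩ ⟨U0, U1, e', t'⟩
    refine ⟨Z0 + U0, Z1 + U1, by linear_combination e + e', ?_⟩
    have := add_mem t t'
    simp only [map_add]
    convert this using 1
    ring
  have h0 : P 0 := ⟨0, 0, by simp, by simp⟩
  have hD : ∀ A, P (DP l A) := by
    intro A
    refine ⟨-(ff l * pderiv 1 A), ff l * pderiv 0 A, by rw [DP_eq]; ring, ?_⟩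
    convert DP_mem l A using 1
    simp only [map_neg, Derivation.leibniz, smul_eq_mul, DP_eq]
    linear_combination (-ff l) * pderiv_comm2 A
  have hB : ∀ (e : Polynomial ℂ) m, P (Polynomial.aeval (ff l) e * bet l m) := by
    intro e m
    refine ⟨-(Polynomial.aeval (ff l) e * (gI l {m} * C (l m).2.1)),
      Polynomial.aeval (ff l) e * (gI l {m} * C (l m).1), ?_, ?_⟩
    · linear_combination Polynomial.aeval (ff l) e * hL.wf m
    · convert bet_mem l (Polynomial.X * Polynomial.derivative e + e) m using 1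
      simp only [map_neg, Derivation.leibniz, smul_eq_mul, Derivation.map_aeval, derivation_C,
        map_add, map_mul, Polynomial.aeval_X]
      linear_combination Polynomial.aeval (ff l) (Polynomial.derivative e) * hL.wf m +
        Polynomial.aeval (ff l) e * hL.wdiv m
  have hP : P b := by
    obtain ⟨A, e, rfl⟩ := hb
    exact hadd _ _ (hD A) (Finset.sum_induction _ P hadd h0 fun m _ => hB (e m) m)
  obtain ⟨Z0, Z1, e, t⟩ := hP
  have := add_mem (div_syz hJ (h.trans e.symm)) t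
  rwa [sub_add_cancel] at this

/-- The degree condition on the coefficients of the logarithmic terms. -/
def Kd (d n : ℕ) (p : Polynomial ℂ) : Prop := ∀ j, n + 2 < (d + 1) * (j + 1) → p.coeff j = 0

theorem deg_term (hG : Geo l) (hL : Lin l) {n : ℕ} {p : Polynomial ℂ} (hp : Kd d n p)
    (m k : Fin (d + 1)) : (Polynomial.aeval (ff l) p * gam l m k).totalDegree ≤ n := by
  by_cases h : p = 0
  · simp [h]
  · refine (totalDegree_mul _ _).trans ?_
    have h1 : ¬ n + 2 < (d + 1) * (p.natDegree + 1) := fun hh =>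
      Polynomial.leadingCoeff_ne_zero.2 h (hp _ hh)
    have h2 := hL.gamdeg m k
    have h3 := hG.two
    rw [hL.aevaldeg]
    rw [mul_add] at h1
    omega

theorem deg_th0 (hG : Geo l) (hL : Lin l) {n : ℕ} {Y0 Y1 : Poly} {c : CC d}
    (h0 : Y0.totalDegree ≤ n + 1) (h1 : Y1.totalDegree ≤ n + 1) (hc : ∀ m k, Kd d n (c m k)) :
    (th0 l Y0 Y1 c).totalDegree ≤ n := by
  refine (totalDegree_add _ _).trans (max_le ((totalDegree_add _ _).trans
    (max_le (deg_pderiv_le h0 0) (deg_pderiv_le h1 1))) ?_)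
  refine totalDegree_finsetSum_le fun m _ => totalDegree_finsetSum_le fun k _ => ?_
  exact deg_term hG hL (hc m k) m k

variable (l)

/-- Elements of `N` of bounded weight. -/
noncomputable def VV (N : Submodule ℂ (Poly × CC d)) (i0 : Fin (d + 1)) (n : ℕ) :
    Submodule ℂ (Poly × CC d) where
  carrier := {v | v ∈ N ∧ (∀ m k, v.2 m k = -v.2 k m) ∧ (∀ k, v.2 i0 k = 0) ∧
    v.1.totalDegree ≤ n ∧ ∀ m k, Kd d n (v.2 m k)}
  zero_mem' := ⟨zero_mem _, by simp, by simp, by simp, fun m k j _ => by simp⟩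
  add_mem' := by
    rintro a b ⟨a1, a2, a3, a4, a5⟩ ⟨b1, b2, b3, b4, b5⟩
    refine ⟨add_mem a1 b1, fun m k => ?_, fun k => ?_,
      (totalDegree_add _ _).trans (max_le a4 b4), fun m k j hj => ?_⟩
    · simp only [Prod.snd_add, Pi.add_apply]
      rw [a2 m k, b2 m k]; ring
    · simp only [Prod.snd_add, Pi.add_apply, a3, b3, add_zero]
    · simp only [Prod.snd_add, Pi.add_apply, Polynomial.coeff_add, a5 m k j hj, b5 m k j hj,
        add_zero]
  smul_mem' := by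
    rintro c a ⟨a1, a2, a3, a4, a5⟩
    refine ⟨N.smul_mem c a1, fun m k => ?_, fun k => ?_,
      (totalDegree_smul_le _ _).trans a4, fun m k j hj => ?_⟩
    · simp only [Prod.smul_snd, Pi.smul_apply]
      rw [a2 m k, smul_neg]
    · simp only [Prod.smul_snd, Pi.smul_apply, a3, smul_zero]
    · simp only [Prod.smul_snd, Pi.smul_apply, Polynomial.coeff_smul, a5 m k j hj, smul_zero]

theorem mem_VV {N : Submodule ℂ (Poly × CC d)} {i0 : Fin (d + 1)} {n : ℕ} {v : Poly × CC d} :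
    v ∈ VV N i0 n ↔ v ∈ N ∧ (∀ m k, v.2 m k = -v.2 k m) ∧ (∀ k, v.2 i0 k = 0) ∧
      v.1.totalDegree ≤ n ∧ ∀ m k, Kd d n (v.2 m k) := Iff.rfl

theorem VV_fg (N : Submodule ℂ (Poly × CC d)) (i0 : Fin (d + 1)) (n : ℕ) : (VV N i0 n).FG := by
  have h1 : (restrictTotalDegree (Fin 2) ℂ n).FG := Module.Finite.iff_fg.1 inferInstance
  have h2 : (Polynomial.degreeLT ℂ (n + 2)).FG :=
    Module.Finite.iff_fg.1 (Module.Finite.equiv (Polynomial.degreeLTEquiv ℂ (n + 2)).symm)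
  have h3 := h1.prod (Submodule.fg_pi (ι := Fin (d + 1)) fun _ =>
    Submodule.fg_pi (ι := Fin (d + 1)) fun _ => h2)
  have := Module.Finite.iff_fg.2 h3
  refine Module.Finite.iff_fg.1 (Submodule.finiteDimensional_of_le
    (S₂ := (restrictTotalDegree (Fin 2) ℂ n).prod (Submodule.pi Set.univ fun _ : Fin (d + 1) =>
      Submodule.pi Set.univ fun _ : Fin (d + 1) => Polynomial.degreeLT ℂ (n + 2))) ?_)
  rintro v ⟨-, -, -, a4, a5⟩
  refine ⟨(mem_restrictTotalDegree _ _ _).2 a4, fun m _ k _ => ?_⟩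
  refine Polynomial.mem_degreeLT.2 ((Polynomial.degree_lt_iff_coeff_zero _ _).2 fun j hj => ?_)
  exact a5 m k j (by nlinarith)

/-- The graph of the connection. -/
noncomputable def RR : Submodule ℂ ((Poly × CC d) × (Poly × CC d)) where
  carrier := {x | ∃ Y0 Y1 : Poly, Y0 * pderiv 0 (ff l) + Y1 * pderiv 1 (ff l) = ff l * x.1.1 ∧
    x.2.1 = th0 l Y0 Y1 x.1.2 ∧ x.2.2 = th1 x.1.2}
  zero_mem' := ⟨0, 0, by simp, by simp [th0], by funext m k; simp [th1]⟩
  add_mem' := by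
    rintro a b ⟨Y0, Y1, a1, a2, a3⟩ ⟨Z0, Z1, b1, b2, b3⟩
    refine ⟨Y0 + Z0, Y1 + Z1, ?_, ?_, ?_⟩
    · simp only [Prod.fst_add]
      linear_combination a1 + b1
    · simp only [Prod.fst_add, Prod.snd_add, a2, b2, th0, map_add, Pi.add_apply, add_mul,
        Finset.sum_add_distrib]
      ring
    · funext m k
      simp only [Prod.fst_add, Prod.snd_add, a3, b3, th1, map_add, Pi.add_apply, mul_add]
  smul_mem' := by
    rintro c a ⟨Y0, Y1, a1, a2, a3⟩
    refine ⟨c • Y0, c • Y1, ?_, ?_, ?_⟩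
    · simp only [Prod.smul_fst, smul_mul_assoc, mul_smul_comm, ← a1, smul_add]
    · simp only [Prod.smul_fst, Prod.smul_snd, a2, th0, map_smul, Derivation.map_smul,
        Pi.smul_apply, smul_mul_assoc, smul_add, Finset.smul_sum]
    · funext m k
      simp only [Prod.smul_fst, Prod.smul_snd, a3, th1, map_smul, Pi.smul_apply, mul_smul_comm]

variable {l}

theorem coeff_th1 (c : CC d) (m k : Fin (d + 1)) (j : ℕ) :
    (th1 c m k).coeff j = (c m k).coeff j * (j + 1) := by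
  rw [th1, Polynomial.coeff_derivative, Polynomial.coeff_X_mul]

theorem rel_ex (hG : Geo l) (hL : Lin l) (hJ : Jac l) (hM : Mor l)
    {N : Submodule ℂ (Poly × CC d)} (h3 : ∀ b c, (b, c) ∈ N → ∀ p, Face l p → eval p b = 0)
    (h4 : ∀ b c Y0 Y1, (b, c) ∈ N → Y0 * pderiv 0 (ff l) + Y1 * pderiv 1 (ff l) = ff l * b →
      (th0 l Y0 Y1 c, th1 c) ∈ N) (i0 : Fin (d + 1)) (n : ℕ) :
    ∀ v ∈ VV N i0 n, ∃ w ∈ VV N i0 n, (v, w) ∈ RR l := by
  rintro ⟨b, c⟩ ⟨a1, a2, a3, a4, a5⟩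
  obtain ⟨Y0, Y1, hY⟩ := hM.rad (ff l * b) fun p hp => by
    rw [map_mul]
    rcases hL.cls p hp with h | ⟨i, j, h⟩
    · rw [h3 b c a1 p h, mul_zero]
    · rw [ff_eq l {i}, map_mul, Finset.prod_singleton, h.2.1, zero_mul, zero_mul]
  obtain ⟨Z0, Z1, d0, d1, hZ⟩ := hJ.hb (n + 1) Y0 Y1 (by
    rw [← hY]
    refine (totalDegree_mul _ _).trans ?_
    have := deg_ff_le l
    have : b.totalDegree ≤ n := a4
    omega)
  rw [← hY] at hZ
  refine ⟨(th0 l Z0 Z1 c, th1 c), ⟨h4 b c Z0 Z1 a1 hZ, fun m k => ?_, fun k => ?_,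
    deg_th0 hG hL d0 d1 a5, fun m k j hj => ?_⟩, Z0, Z1, hZ, rfl, rfl⟩
  · have : c m k = -c k m := a2 m k
    simp only [th1, this, mul_neg, map_neg]
  · have : c i0 k = 0 := a3 k
    simp only [th1, this, mul_zero, map_zero]
  · have : (c m k).coeff j = 0 := a5 m k j hj
    simp only [coeff_th1, this, zero_mul]

theorem rel_W (hL : Lin l) (hJ : Jac l) (v w : Poly × CC d) (hv : v ∈ (TS l).prod ⊥)
    (h : (v, w) ∈ RR l) : w ∈ (TS l).prod ⊥ := by
  obtain ⟨Y0, Y1, a1, a2, a3⟩ := h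
  have h0 : v.2 = 0 := hv.2
  simp only [h0] at a1 a2 a3
  refine ⟨?_, ?_⟩
  · have := div_triv hL hJ hv.1 a1
    rw [SetLike.mem_coe, a2]
    simpa [th0] using this
  · rw [SetLike.mem_coe, Submodule.mem_bot, a3]
    funext m k
    simp [th1]

theorem step (H : C8aS) (hG : Geo l) (hL : Lin l) (hJ : Jac l) (hM : Mor l)
    {N : Submodule ℂ (Poly × CC d)} (h1 : ∀ b, Triv l b → (b, 0) ∈ N)
    (h2 : ∀ b c, (ff l * b, fun m n => Polynomial.X * c m n) ∈ N → (b, c) ∈ N)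
    (h3 : ∀ b c, (b, c) ∈ N → ∀ p, Face l p → eval p b = 0)
    (h4 : ∀ b c Y0 Y1, (b, c) ∈ N → Y0 * pderiv 0 (ff l) + Y1 * pderiv 1 (ff l) = ff l * b →
      (th0 l Y0 Y1 c, th1 c) ∈ N) (i0 : Fin (d + 1)) (n : ℕ)
    (h : ¬ VV N i0 n ≤ (TS l).prod ⊥) :
    ∃ (Z0 Z1 : Poly) (c : CC d) (β : ℂ), Z0.totalDegree ≤ n - 1 ∧ Z1.totalDegree ≤ n - 1 ∧
      (β • th0 l Z0 Z1 c, c) ∈ N ∧ (∀ m k, c m k = -c k m) ∧ (∀ k, c i0 k = 0) ∧
      (∀ m k, Kd d n (Polynomial.X * c m k)) ∧ (β • th0 l Z0 Z1 c, c) ∉ (TS l).prod ⊥ := by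
  obtain ⟨⟨b, c⟩, ⟨a1, a2, a3, a4, a5⟩, hv, α, w, ⟨Y0, Y1, r1, r2, r3⟩, hw⟩ :=
    eig (VV N i0 n) ((TS l).prod ⊥) (VV_fg N i0 n) (RR l) (rel_ex hG hL hJ hM h3 h4 i0 n)
      (rel_W hL hJ) h
  simp only at a2 a3 a4 a5 r1 r2 r3
  have w1 : Triv l (th0 l Y0 Y1 c - α • b) := by
    have := hw.1
    rw [SetLike.mem_coe, Prod.fst_sub, r2] at this
    exact this
  have w2 : ∀ m k, th1 c m k = α • c m k := by
    have := hw.2
    rw [SetLike.mem_coe, Submodule.mem_bot, Prod.snd_sub, r3, sub_eq_zero] at this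
    exact fun m k => congrFun (congrFun this m) k
  rcases H d l hG hL hJ i0 α b Y0 Y1 c a2 a3 r1 w2 w1 with ⟨e, t⟩ | ⟨hα, c', U0, U1, ε, e1, e2, t⟩
  · exact absurd ⟨t, e⟩ hv
  have h3d := hG.two
  obtain ⟨Z0, Z1, d0, d1, hZ⟩ := hJ.hb (n - 1) U0 U1 (by
    rw [← sub_eq_iff_eq_add'.2 e2]
    refine (totalDegree_sub _ _).trans (max_le (by omega) ?_)
    refine totalDegree_finsetSum_le fun m _ => (totalDegree_smul_le _ _).trans ?_
    have := hL.betdeg m
    omega)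
  have hα' : (1 - α) ≠ 0 := sub_ne_zero.2 hα.symm
  have t1 : b - ff l * (-(1 - α)⁻¹ • th0 l Z0 Z1 c') ∈ TS l := by
    have t2 := (TS l).smul_mem (1 - α)⁻¹ (add_mem t (f_mul_mem l (div_syz hJ hZ)))
    convert t2 using 1
    rw [smul_add, smul_add, smul_smul, inv_mul_cancel₀ hα', one_smul, mul_smul_comm, neg_smul,
      sub_neg_eq_add, add_assoc, ← smul_add]
    congr 2
    simp only [th0]
    ring
  have ec : c = fun m k => Polynomial.X * c' m k := by
    funext m k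
    exact e1 m k
  refine ⟨Z0, Z1, c', -(1 - α)⁻¹, d0, d1, h2 _ _ ?_, fun m k => ?_, fun k => ?_,
    fun m k => e1 m k ▸ a5 m k, fun hh => hv ⟨?_, ?_⟩⟩
  · have := sub_mem a1 (h1 _ t1)
    rwa [Prod.mk_sub_mk, sub_sub_cancel, sub_zero, ec] at this
  · apply mul_left_cancel₀ (Polynomial.X_ne_zero (R := ℂ))
    rw [mul_neg, ← e1, ← e1, a2 m k]
  · apply mul_left_cancel₀ (Polynomial.X_ne_zero (R := ℂ))
    rw [mul_zero, ← e1, a3 k]
  · have := add_mem t1 (f_mul_mem l hh.1)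
    rwa [sub_add_cancel] at this
  · have h0 : c' = 0 := hh.2
    rw [SetLike.mem_coe, Submodule.mem_bot, ec, h0]
    funext m k
    simp

end C8A

open C8A in
theorem rowC8 : OfC8 := by
  intro H d l hG hL hJ hM N h1 h2 h3 h4 i0 b c hN ha h0
  have h3d := hG.two
  have key : ∀ n, VV N i0 n ≤ (TS l).prod ⊥ := by
    intro n
    induction n with
    | zero =>
      by_contra h
      obtain ⟨Z0, Z1, c, β, d0, d1, -, -, -, k, hw⟩ := step H hG hL hJ hM h1 h2 h3 h4 i0 0 h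
      have hc : c = 0 := by
        funext m m'
        ext j
        have := k m m' (j + 1) (by nlinarith)
        rwa [Polynomial.coeff_X_mul] at this
      refine hw ⟨?_, hc⟩
      simp [hc, th0, pderiv_eq_zero_of_deg d0, pderiv_eq_zero_of_deg d1]
    | succ n ih =>
      by_contra h
      obtain ⟨Z0, Z1, c, β, d0, d1, a1, a2, a3, k, hw⟩ :=
        step H hG hL hJ hM h1 h2 h3 h4 i0 (n + 1) h
      have k' : ∀ m m', Kd d n (c m m') := by
        intro m m' j hj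
        have := k m m' (j + 1) (by nlinarith)
        rwa [Polynomial.coeff_X_mul] at this
      refine hw (ih ⟨a1, a2, a3, (totalDegree_smul_le _ _).trans ?_, k'⟩)
      exact deg_th0 hG hL (by omega) (by omega) k'
  obtain ⟨S, hS⟩ : ∃ S : ℕ, ∀ m k, (c m k).natDegree ≤ S :=
    ⟨∑ m, ∑ k, (c m k).natDegree, fun m k =>
      (Finset.single_le_sum (f := fun k => (c m k).natDegree) (fun _ _ => Nat.zero_le _)
        (Finset.mem_univ k)).trans
      (Finset.single_le_sum (f := fun m => ∑ k, (c m k).natDegree) (fun _ _ => Nat.zero_le _)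
        (Finset.mem_univ m))⟩
  have := key (b.totalDegree + (d + 1) * (S + 1)) (x := (b, c))
    ⟨hN, ha, h0, Nat.le_add_right _ _, fun m k j hj => by
      refine Polynomial.coeff_eq_zero_of_natDegree_lt ((hS m k).trans_lt ?_)
      by_contra hh
      have : (d + 1) * (j + 1) ≤ (d + 1) * (S + 1) := Nat.mul_le_mul_left _ (by omega)
      omega⟩
  exact ⟨this.2, this.1⟩

end Pool.Agent.MP_aa1ef7_ag.H20
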