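import Pool.Agent.MP_aa1ef7_ag.H20.Spec

/-! Row C8a: eigenvectors of the operator on the quotient by the trivial classes. -/

namespace Pool.Agent.MP_aa1ef7_ag.H20

open MvPolynomial
open Pool.Agent.MP_aa1ef7_ag.H40

namespace C8aA

variable {d : ℕ} {l : Fin (d + 1) → ℂ × ℂ × ℂ}

theorem ff_single (i : Fin (d + 1)) : ff l = lin (l i) * gI l {i} := by
  rw [ff_eq l {i}, Finset.prod_singleton]

theorem d0_lin (a : ℂ × ℂ × ℂ) : pderiv 0 (lin a) = C a.1 := by simp [lin]

theorem d1_lin (a : ℂ × ℂ × ℂ) : pderiv 1 (lin a) = C a.2.1 := by simp [lin]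

theorem DP_eq (A : Poly) :
    DP l A = pderiv 1 (ff l) * pderiv 0 A - pderiv 0 (ff l) * pderiv 1 A := rfl

theorem dvd_gI {i j : Fin (d + 1)} (h : i ≠ j) : lin (l i) ∣ gI l {j} :=
  Finset.dvd_prod_of_mem _ (by simpa using h)

theorem dvd_ff (i : Fin (d + 1)) : lin (l i) ∣ ff l := ⟨_, ff_single i⟩

theorem ndvd_gI (L : Lin l) (i : Fin (d + 1)) : ¬ lin (l i) ∣ gI l {i} := by
  intro h
  obtain ⟨m, hm, hd⟩ := (L.prime i).exists_mem_finset_dvd h
  exact L.ndvd i m (by simpa [eq_comm] using hm) hd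

theorem ff_dvd (L : Lin l) {r : Poly} (h : ∀ i, lin (l i) ∣ r) : ff l ∣ r :=
  Finset.prod_dvd_of_isRelPrime
    (fun i _ j _ hij => (L.prime i).irreducible.isRelPrime_iff_not_dvd.2 (L.ndvd i j hij))
    fun i _ => h i

theorem der_prod {ι : Type} [DecidableEq ι] (D : Derivation ℂ Poly Poly) (u : ι → Poly)
    (s : Finset ι) : D (∏ m ∈ s, u m) = ∑ m ∈ s, (∏ k ∈ s.erase m, u k) * D (u m) := by
  induction s using Finset.induction_on with
  | empty => simp
  | insert a s ha ih =>
    rw [Finset.prod_insert ha, Finset.sum_insert ha, Derivation.leibniz, ih,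
      Finset.erase_insert ha, smul_eq_mul, smul_eq_mul, Finset.mul_sum, add_comm]
    congr 1
    refine Finset.sum_congr rfl fun m hm => ?_
    rw [Finset.erase_insert_of_ne (by rintro rfl; exact ha hm),
      Finset.prod_insert (by simp [ha]), mul_assoc]

theorem d_ff (k : Fin 2) : pderiv k (ff l) = ∑ m, gI l {m} * pderiv k (lin (l m)) := by
  rw [ff, der_prod]
  refine Finset.sum_congr rfl fun m _ => ?_
  rw [gI, Finset.compl_singleton]

/-- First component of the field tangent to all lines. -/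
noncomputable def w0 (l : Fin (d + 1) → ℂ × ℂ × ℂ) (i : Fin (d + 1)) : Poly :=
  -(gI l {i} * C (l i).2.1)

/-- Second component of the field tangent to all lines. -/
noncomputable def w1 (l : Fin (d + 1) → ℂ × ℂ × ℂ) (i : Fin (d + 1)) : Poly :=
  gI l {i} * C (l i).1

theorem w_f (L : Lin l) (i : Fin (d + 1)) :
    w0 l i * pderiv 0 (ff l) + w1 l i * pderiv 1 (ff l) = ff l * bet l i := by
  rw [← L.wf i, w0, w1]; ring

theorem w_div (L : Lin l) (i : Fin (d + 1)) (r : Poly) :
    pderiv 0 (r * w0 l i) + pderiv 1 (r * w1 l i) =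
      r * bet l i + (w0 l i * pderiv 0 r + w1 l i * pderiv 1 r) := by
  rw [← L.wdiv i]
  simp only [w0, w1, Derivation.leibniz, map_neg, derivation_C, smul_eq_mul]
  ring

theorem sum_w_f (L : Lin l) (r : Fin (d + 1) → Poly) :
    (∑ i, r i * w0 l i) * pderiv 0 (ff l) + (∑ i, r i * w1 l i) * pderiv 1 (ff l) =
      ff l * ∑ i, r i * bet l i := by
  rw [Finset.sum_mul, Finset.sum_mul, Finset.mul_sum, ← Finset.sum_add_distrib]
  refine Finset.sum_congr rfl fun i _ => ?_
  linear_combination r i * w_f L i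

theorem sum_w_div (L : Lin l) (r : Fin (d + 1) → Poly) :
    pderiv 0 (∑ i, r i * w0 l i) + pderiv 1 (∑ i, r i * w1 l i) =
      ∑ i, r i * bet l i + ∑ i, (w0 l i * pderiv 0 (r i) + w1 l i * pderiv 1 (r i)) := by
  rw [map_sum, map_sum, ← Finset.sum_add_distrib, ← Finset.sum_add_distrib]
  exact Finset.sum_congr rfl fun i _ => w_div L i (r i)

theorem exists_rho (G : Geo l) (L : Lin l) (i : Fin (d + 1)) (s : Poly)
    (h : ∀ j p, Node l i j p → eval p s = 0) : ∃ ρ, lin (l i) ∣ s - gI l {i} * ρ := by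
  have H : ∀ j : Fin (d + 1), j ≠ i → ∃ u t : ℂ, u ≠ 0 ∧
      res l i (lin (l j)) = Polynomial.C u * (Polynomial.X - Polynomial.C t) ∧
      (res l i s).eval t = 0 ∧ ∀ k, k ≠ i → k ≠ j → (res l i (lin (l k))).eval t ≠ 0 := by
    intro j hj
    obtain ⟨p, hp⟩ := L.node i j hj.symm
    have h1 := L.reseval i p hp.2.1
    refine ⟨(l j).1 * (l i).2.1 - (l j).2.1 * (l i).1, p 0 / (l i).2.1, ?_, ?_, ?_, ?_⟩
    · have := G.gen.1 j i hj
      rwa [mul_comm (l i).1] at this
    · have h2 := h1 (lin (l j))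
      rw [hp.2.2, L.reslin] at h2
      rw [L.reslin, mul_sub (Polynomial.C _), ← Polynomial.C_mul,
        sub_eq_add_neg (_ * Polynomial.X), ← Polynomial.C_neg]
      congr 2
      simp only [Polynomial.eval_add, Polynomial.eval_mul, Polynomial.eval_C,
        Polynomial.eval_X] at h2
      linear_combination h2
    · rw [h1]; exact h j p hp
    · intro k hk hk'
      rw [h1]; exact L.nodeoff i j p hp k hk hk'
  choose! u t hu hr hs hk using H
  have hd : res l i (gI l {i}) ∣ res l i s := by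
    rw [gI, map_prod]
    refine Finset.prod_dvd_of_coprime (fun j hj k hk' hjk => ?_) fun j hj => ?_
    · have hj' : j ≠ i := by simpa using hj
      have hk'' : k ≠ i := by simpa using hk'
      have hne : t j - t k ≠ 0 := by
        intro h0
        refine hk j hj' k hk'' hjk.symm ?_
        rw [hr k hk'']
        simp [h0]
      change IsCoprime (res l i (lin (l j))) (res l i (lin (l k)))
      rw [hr j hj', hr k hk'', isCoprime_mul_units_left
        (Polynomial.isUnit_C.2 (hu j hj').isUnit) (Polynomial.isUnit_C.2 (hu k hk'').isUnit)]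
      exact Polynomial.isCoprime_X_sub_C_of_isUnit_sub hne.isUnit
    · have hj' : j ≠ i := by simpa using hj
      rw [hr j hj', (Polynomial.isUnit_C.2 (hu j hj').isUnit).mul_left_dvd]
      exact Polynomial.dvd_iff_isRoot.2 (hs j hj')
  obtain ⟨q, hq⟩ := hd
  obtain ⟨ρ, rfl⟩ := L.ressurj i q
  exact ⟨ρ, (L.resker i _).1 (by rw [map_sub, map_mul, hq, sub_self])⟩

theorem dvd_sub_sum {i : Fin (d + 1)} {Y : Poly} {v : Fin (d + 1) → Poly}
    (h : lin (l i) ∣ Y - v i) (hv : ∀ j, j ≠ i → lin (l i) ∣ v j) :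
    lin (l i) ∣ Y - ∑ j, v j := by
  rw [← Finset.add_sum_erase _ _ (Finset.mem_univ i), ← sub_sub]
  exact dvd_sub h (Finset.dvd_sum fun j hj => hv j (Finset.ne_of_mem_erase hj))

theorem decomp (G : Geo l) (L : Lin l) {Y0 Y1 b : Poly}
    (h : Y0 * pderiv 0 (ff l) + Y1 * pderiv 1 (ff l) = ff l * b) :
    ∃ (ρ : Fin (d + 1) → Poly) (U0 U1 : Poly), Y0 = ∑ i, ρ i * w0 l i + ff l * U0 ∧
      Y1 = ∑ i, ρ i * w1 l i + ff l * U1 := by
  have h1 : ∀ i, lin (l i) ∣ C (l i).1 * Y0 + C (l i).2.1 * Y1 := by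
    intro i
    refine ((L.prime i).dvd_or_dvd (a := gI l {i}) ?_).resolve_left (ndvd_gI L i)
    refine ⟨gI l {i} * b - Y0 * pderiv 0 (gI l {i}) - Y1 * pderiv 1 (gI l {i}), ?_⟩
    rw [ff_single i] at h
    simp only [Derivation.leibniz, d0_lin, d1_lin, smul_eq_mul] at h
    linear_combination h
  have h2 : ∀ i j p, Node l i j p → eval p Y0 = 0 := by
    intro i j p hp
    have ei : eval p (C (l i).1 * Y0 + C (l i).2.1 * Y1) = 0 := by
      obtain ⟨r, hr⟩ := h1 i
      rw [hr, map_mul, hp.2.1, zero_mul]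
    have ej : eval p (C (l j).1 * Y0 + C (l j).2.1 * Y1) = 0 := by
      obtain ⟨r, hr⟩ := h1 j
      rw [hr, map_mul, hp.2.2, zero_mul]
    simp only [map_add, map_mul, eval_C] at ei ej
    refine (mul_eq_zero.1 ?_).resolve_left (G.gen.1 i j hp.1)
    linear_combination (l j).2.1 * ei - (l i).2.1 * ej
  have h3 : ∀ i, ∃ ρ, lin (l i) ∣ Y0 - ρ * w0 l i ∧ lin (l i) ∣ Y1 - ρ * w1 l i := by
    intro i
    obtain ⟨ρ, r, hr⟩ := exists_rho G L i (-(C (l i).2.1⁻¹ * Y0)) fun j p hp => by
      simp [h2 i j p hp]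
    obtain ⟨r', hr'⟩ := h1 i
    have hb : (C (l i).2.1 * C (l i).2.1⁻¹ : Poly) = 1 := by
      rw [← C_mul, mul_inv_cancel₀ (G.bne i), C_1]
    refine ⟨ρ, ⟨-(C (l i).2.1 * r), ?_⟩, ⟨C (l i).2.1⁻¹ * r' + C (l i).1 * r, ?_⟩⟩
    · rw [w0]; linear_combination -(C (l i).2.1 * hr) - Y0 * hb
    · rw [w1]; linear_combination C (l i).2.1⁻¹ * hr' + C (l i).1 * hr - Y1 * hb
  choose ρ hρ0 hρ1 using h3
  obtain ⟨U0, hU0⟩ := ff_dvd L (r := Y0 - ∑ i, ρ i * w0 l i) fun i =>
    dvd_sub_sum (hρ0 i) fun j hj =>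
      Dvd.dvd.mul_left (dvd_neg.2 (Dvd.dvd.mul_right (dvd_gI hj.symm) _)) _
  obtain ⟨U1, hU1⟩ := ff_dvd L (r := Y1 - ∑ i, ρ i * w1 l i) fun i =>
    dvd_sub_sum (hρ1 i) fun j hj =>
      Dvd.dvd.mul_left (Dvd.dvd.mul_right (dvd_gI hj.symm) _) _
  exact ⟨ρ, U0, U1, by linear_combination hU0, by linear_combination hU1⟩

theorem star (G : Geo l) (L : Lin l) {Y0 Y1 b : Poly}
    (h : Y0 * pderiv 0 (ff l) + Y1 * pderiv 1 (ff l) = ff l * b) :
    ∃ (ρ : Fin (d + 1) → Poly) (U0 U1 : Poly),
      b = ∑ i, ρ i * bet l i + (U0 * pderiv 0 (ff l) + U1 * pderiv 1 (ff l)) ∧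
      pderiv 0 Y0 + pderiv 1 Y1 =
        b + ∑ i, (w0 l i * pderiv 0 (ρ i) + w1 l i * pderiv 1 (ρ i)) +
          ff l * (pderiv 0 U0 + pderiv 1 U1) := by
  obtain ⟨ρ, U0, U1, h0, h1⟩ := decomp G L h
  have hb : b = ∑ i, ρ i * bet l i + (U0 * pderiv 0 (ff l) + U1 * pderiv 1 (ff l)) := by
    refine mul_left_cancel₀ L.ne ?_
    rw [← h, h0, h1]
    linear_combination sum_w_f L ρ
  refine ⟨ρ, U0, U1, hb, ?_⟩
  rw [h0, h1, map_add, map_add, Derivation.leibniz, Derivation.leibniz, hb]
  simp only [smul_eq_mul]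
  linear_combination sum_w_div L ρ

theorem eval_aeval (p : Fin 2 → ℂ) (f : Poly) (e : Polynomial ℂ) :
    eval p (Polynomial.aeval f e) = e.eval (eval p f) := by
  induction e using Polynomial.induction_on' with
  | add a b ha hb => simp [ha, hb]
  | monomial n a => simp

theorem node_ff {i j : Fin (d + 1)} {p : Fin 2 → ℂ} (hp : Node l i j p) : eval p (ff l) = 0 := by
  rw [ff_single i, map_mul, hp.2.1, zero_mul]

theorem node_gI {i j : Fin (d + 1)} {p : Fin 2 → ℂ} (hp : Node l i j p) (m : Fin (d + 1)) :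
    eval p (gI l {m}) = 0 := by
  by_cases hm : i = m
  · obtain ⟨r, hr⟩ := dvd_gI (l := l) (i := j) (j := m) (hm ▸ hp.1.symm)
    rw [hr, map_mul, hp.2.2, zero_mul]
  · obtain ⟨r, hr⟩ := dvd_gI (l := l) hm
    rw [hr, map_mul, hp.2.1, zero_mul]

theorem node_bet (L : Lin l) {i j : Fin (d + 1)} {p : Fin 2 → ℂ} (hp : Node l i j p)
    (r : Fin (d + 1) → Poly) :
    eval p (∑ m, r m * bet l m) = (eval p (r j) - eval p (r i)) * eval p (gam l i j) := by
  have h := (L.nodebet i j p hp).2.2
  rw [map_sum, Finset.sum_eq_add_of_mem i j (Finset.mem_univ _) (Finset.mem_univ _) hp.1]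
  · rw [map_mul, map_mul, h, h, if_neg hp.1, if_pos rfl, if_pos rfl]; ring
  · intro m _ hm
    rw [map_mul, h, if_neg hm.2, if_neg hm.1, mul_zero]

theorem node_gam (L : Lin l) {i j : Fin (d + 1)} {p : Fin 2 → ℂ} (hp : Node l i j p)
    (s : Fin (d + 1) → Fin (d + 1) → Poly) :
    eval p (∑ m, ∑ n, s m n * gam l m n) =
      (eval p (s i j) - eval p (s j i)) * eval p (gam l i j) := by
  have h := (L.nodebet i j p hp).2.1
  have hij := hp.1
  rw [map_sum, Finset.sum_eq_add_of_mem i j (Finset.mem_univ _) (Finset.mem_univ _) hij]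
  · rw [map_sum, map_sum, Finset.sum_eq_single j, Finset.sum_eq_single i]
    · rw [map_mul, map_mul, h j i, if_neg (fun hh => hij hh.2), if_pos ⟨rfl, rfl⟩]; ring
    · intro n _ hn
      rw [map_mul, h, if_neg (fun hh => hij hh.1.symm), if_neg (fun hh => hn hh.2), mul_zero]
    · simp
    · intro n _ hn
      rw [map_mul, h, if_neg (fun hh => hn hh.2), if_neg (fun hh => hij hh.1), mul_zero]
    · simp
  · intro m _ hm
    rw [map_sum]
    refine Finset.sum_eq_zero fun n _ => ?_
    rw [map_mul, h, if_neg (fun hh => hm.1 hh.1), if_neg (fun hh => hm.2 hh.1), mul_zero]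

theorem common (L : Lin l) (ρ r : Fin (d + 1) → Poly) (ε : Fin (d + 1) → ℂ) (A U0 U1 : Poly)
    (h : ∀ i, ρ i = A + C (ε i) + lin (l i) * r i) : ∃ Z0 Z1 : Poly,
      ∑ i, ρ i * bet l i + (U0 * pderiv 0 (ff l) + U1 * pderiv 1 (ff l)) =
        ∑ i, ε i • bet l i + (Z0 * pderiv 0 (ff l) + Z1 * pderiv 1 (ff l)) ∧
      ∑ i, (w0 l i * pderiv 0 (ρ i) + w1 l i * pderiv 1 (ρ i)) +
          ff l * (pderiv 0 U0 + pderiv 1 U1) =
        -DP l A + ff l * (pderiv 0 Z0 + pderiv 1 Z1) := by
  refine ⟨U0 - ∑ i, r i * C (l i).2.1, U1 + ∑ i, r i * C (l i).1, ?_, ?_⟩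
  · have e1 : ∑ i, ρ i * bet l i = A * ∑ i, bet l i + ∑ i, ε i • bet l i +
        ((∑ i, r i * C (l i).1) * pderiv 1 (ff l) -
          (∑ i, r i * C (l i).2.1) * pderiv 0 (ff l)) := by
      rw [Finset.mul_sum, Finset.sum_mul, Finset.sum_mul, ← Finset.sum_sub_distrib,
        ← Finset.sum_add_distrib, ← Finset.sum_add_distrib]
      refine Finset.sum_congr rfl fun i _ => ?_
      have := L.bet i
      rw [DP_eq, d0_lin, d1_lin] at this
      rw [h i, smul_eq_C_mul]
      linear_combination r i * this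
    rw [e1, L.betsum]; ring
  · have e1 : ∑ i, (w0 l i * pderiv 0 (ρ i) + w1 l i * pderiv 1 (ρ i)) =
        (∑ m, gI l {m} * pderiv 0 (lin (l m))) * pderiv 1 A -
          (∑ m, gI l {m} * pderiv 1 (lin (l m))) * pderiv 0 A +
        ff l * (pderiv 1 (∑ i, r i * C (l i).1) - pderiv 0 (∑ i, r i * C (l i).2.1)) := by
      rw [map_sum, map_sum, Finset.sum_mul, Finset.sum_mul, ← Finset.sum_sub_distrib,
        ← Finset.sum_sub_distrib, Finset.mul_sum, ← Finset.sum_add_distrib]
      refine Finset.sum_congr rfl fun i _ => ?_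
      rw [h i, ff_single i]
      simp only [w0, w1, map_add, Derivation.leibniz, derivation_C, d0_lin, d1_lin, smul_eq_mul]
      ring
    rw [e1, ← d_ff, ← d_ff, DP_eq, map_sub, map_add]; ring

theorem exists_prim (e : Polynomial ℂ) :
    ∃ E : Polynomial ℂ, Polynomial.derivative (Polynomial.X * E) = e := by
  induction e using Polynomial.induction_on' with
  | add a b ha hb =>
    obtain ⟨A, hA⟩ := ha
    obtain ⟨B, hB⟩ := hb
    exact ⟨A + B, by rw [mul_add, map_add, hA, hB]⟩
  | monomial n a =>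
    refine ⟨Polynomial.monomial n (a / (n + 1)), ?_⟩
    rw [Polynomial.X_mul_monomial, Polynomial.derivative_monomial_succ,
      div_mul_cancel₀ _ (Nat.cast_add_one_ne_zero n)]

theorem triv_of_div (hP : PoincS) (L : Lin l) (Z0 Z1 : Poly) (e : Fin (d + 1) → Polynomial ℂ)
    (ε : Fin (d + 1) → ℂ)
    (h : pderiv 0 Z0 + pderiv 1 Z1 = ∑ i, Polynomial.aeval (ff l) (e i) * bet l i) :
    Triv l (∑ i, ε i • bet l i + (Z0 * pderiv 0 (ff l) + Z1 * pderiv 1 (ff l))) := by
  choose E hE using fun i => exists_prim (e i)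
  set V0 := Z0 - ∑ i, Polynomial.aeval (ff l) (E i) * w0 l i with hV0
  set V1 := Z1 - ∑ i, Polynomial.aeval (ff l) (E i) * w1 l i with hV1
  have hdiv : pderiv 0 V0 + pderiv 1 V1 = 0 := by
    have e1 := sum_w_div L fun i => Polynomial.aeval (ff l) (E i)
    rw [← Finset.sum_add_distrib] at e1
    have e2 : ∑ i, (Polynomial.aeval (ff l) (E i) * bet l i +
        (w0 l i * pderiv 0 (Polynomial.aeval (ff l) (E i)) +
          w1 l i * pderiv 1 (Polynomial.aeval (ff l) (E i)))) =
        ∑ i, Polynomial.aeval (ff l) (e i) * bet l i := by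
      refine Finset.sum_congr rfl fun i _ => ?_
      rw [← hE i]
      simp only [Derivation.map_aeval, smul_eq_mul, Polynomial.derivative_mul,
        Polynomial.derivative_X, map_add, map_mul, map_one, Polynomial.aeval_X]
      linear_combination Polynomial.aeval (ff l) (Polynomial.derivative (E i)) * w_f L i
    rw [hV0, hV1, map_sub, map_sub]
    linear_combination h - e1 - e2
  obtain ⟨B, hB⟩ := (hP ℂ (Fin 2)).1 ![-V1, V0] (by
    intro m n
    fin_cases m <;> fin_cases n
    · rfl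
    · change pderiv 1 (-V1) = pderiv 0 V0
      rw [map_neg]; linear_combination -hdiv
    · change pderiv 0 V0 = pderiv 1 (-V1)
      rw [map_neg]; linear_combination hdiv
    · rfl)
  have hB0 : pderiv 0 B = -V1 := hB 0
  have hB1 : pderiv 1 B = V0 := hB 1
  refine ⟨-B, fun i => Polynomial.C (ε i) + Polynomial.X * E i, ?_⟩
  have e3 : ∑ i, Polynomial.aeval (ff l) (Polynomial.C (ε i) + Polynomial.X * E i) * bet l i =
      ∑ i, ε i • bet l i + ff l * ∑ i, Polynomial.aeval (ff l) (E i) * bet l i := by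
    rw [Finset.mul_sum, ← Finset.sum_add_distrib]
    refine Finset.sum_congr rfl fun i _ => ?_
    simp only [map_add, map_mul, Polynomial.aeval_C, Polynomial.aeval_X, algebraMap_eq,
      smul_eq_C_mul]
    ring
  rw [e3, DP_eq, map_neg, map_neg, hB0, hB1, hV0, hV1]
  linear_combination sum_w_f L fun i => Polynomial.aeval (ff l) (E i)

end C8aA

open C8aA

theorem rowC8a : OfC8a := by
  intro hP d l G L _ i0 α b Y0 Y1 c hc hc0 hY hth ⟨A, e, hA⟩
  obtain ⟨ρ, U0, U1, hb, hdiv⟩ := star G L (Y0 := Y0 - A * pderiv 1 (ff l))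
    (Y1 := Y1 + A * pderiv 0 (ff l)) (b := b) (by linear_combination hY)
  have hs : C (1 - α) * b + (∑ i, (w0 l i * pderiv 0 (ρ i) + w1 l i * pderiv 1 (ρ i)) +
      ff l * (pderiv 0 U0 + pderiv 1 U1)) +
      ∑ m, ∑ n, Polynomial.aeval (ff l) (c m n) * gam l m n =
      ∑ m, Polynomial.aeval (ff l) (e m) * bet l m := by
    rw [th0, DP_eq, smul_eq_C_mul] at hA
    simp only [map_sub, map_add, Derivation.leibniz, smul_eq_mul] at hdiv
    rw [pderiv_comm2] at hdiv
    rw [map_sub, C_1]
    linear_combination hA - hdiv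
  have hn : ∀ i j p, Node l i j p → (1 - α) * (eval p (ρ j) - eval p (ρ i)) +
      2 * (c i j).coeff 0 = (e j).coeff 0 - (e i).coeff 0 := by
    intro i j p hp
    have h1 := congrArg (eval p) hs
    have h2 : eval p (∑ i, (w0 l i * pderiv 0 (ρ i) + w1 l i * pderiv 1 (ρ i))) = 0 := by
      rw [map_sum]
      exact Finset.sum_eq_zero fun m _ => by simp [w0, w1, node_gI hp]
    have h3 : eval p b = (eval p (ρ j) - eval p (ρ i)) * eval p (gam l i j) := by
      rw [hb, map_add, node_bet L hp, map_add, map_mul, map_mul, L.nodecrit i j p hp 0,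
        L.nodecrit i j p hp 1]
      ring
    rw [node_bet L hp, map_add, node_gam L hp, map_add, map_add, h2, map_mul, map_mul, h3, eval_C,
      node_ff hp] at h1
    simp only [eval_aeval, node_ff hp, ← Polynomial.coeff_zero_eq_eval_zero] at h1
    rw [hc j i, Polynomial.coeff_neg] at h1
    refine mul_right_cancel₀ (L.nodebet i j p hp).1 ?_
    linear_combination h1
  by_cases hα : α = 1
  · left
    subst hα
    have he : ∀ j, (e j).coeff 0 = (e i0).coeff 0 := by
      intro j
      by_cases hj : i0 = j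
      · rw [hj]
      · obtain ⟨p, hp⟩ := L.node i0 j hj
        have := hn i0 j p hp
        rw [hc0, Polynomial.coeff_zero] at this
        linear_combination -this
    have hcz : c = 0 := by
      funext m n
      have h1 : Polynomial.derivative (c m n) = 0 := by
        have := hth m n
        rw [th1, one_smul, Polynomial.derivative_mul, Polynomial.derivative_X, one_mul,
          add_eq_left] at this
        exact (mul_eq_zero.1 this).resolve_left Polynomial.X_ne_zero
      have h2 : (c m n).coeff 0 = 0 := by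
        by_cases hmn : m = n
        · subst hmn
          have := congrArg (fun q => Polynomial.coeff q 0) (hc m m)
          simp only [Polynomial.coeff_neg] at this
          linear_combination this / 2
        · obtain ⟨p, hp⟩ := L.node m n hmn
          have := hn m n p hp
          rw [he n, he m] at this
          linear_combination this / 2
      rw [Polynomial.eq_C_of_derivative_eq_zero h1, h2, map_zero]
      rfl
    refine ⟨hcz, ?_⟩
    have hs' : ∑ i, (w0 l i * pderiv 0 (ρ i) + w1 l i * pderiv 1 (ρ i)) +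
        ff l * (pderiv 0 U0 + pderiv 1 U1) =
        ff l * ∑ m, Polynomial.aeval (ff l) (e m).divX * bet l m := by
      have e1 : ∑ m, Polynomial.aeval (ff l) (e m) * bet l m =
          C ((e i0).coeff 0) * ∑ m, bet l m +
            ff l * ∑ m, Polynomial.aeval (ff l) (e m).divX * bet l m := by
        rw [Finset.mul_sum, Finset.mul_sum, ← Finset.sum_add_distrib]
        refine Finset.sum_congr rfl fun m _ => ?_
        conv_lhs => rw [← Polynomial.divX_mul_X_add (e m), he m]
        simp only [map_add, map_mul, Polynomial.aeval_C, Polynomial.aeval_X, algebraMap_eq]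
        ring
      rw [e1, L.betsum, hcz] at hs
      simpa using hs
    have hρ : ∀ i, ∃ (ε : ℂ) (r : Poly), ρ i = 0 + C ε + lin (l i) * r := by
      intro i
      have h1 : lin (l i) ∣ (ff l * ∑ m, Polynomial.aeval (ff l) (e m).divX * bet l m -
          ff l * (pderiv 0 U0 + pderiv 1 U1)) -
          ∑ j, (if j = i then 0 else w0 l j * pderiv 0 (ρ j) + w1 l j * pderiv 1 (ρ j)) := by
        refine dvd_sub_sum ?_ fun j hj => ?_
        · rw [if_pos rfl, sub_zero, ← mul_sub]
          exact (dvd_ff i).mul_right _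
        · rw [if_neg hj]
          exact dvd_add ((dvd_neg.2 ((dvd_gI hj.symm).mul_right _)).mul_right _)
            (((dvd_gI hj.symm).mul_right _).mul_right _)
      have h2 : lin (l i) ∣
          gI l {i} * (C (l i).2.1 * pderiv 0 (ρ i) - C (l i).1 * pderiv 1 (ρ i)) := by
        rw [← dvd_neg]
        convert h1 using 1
        rw [← hs', ← Finset.add_sum_erase _ _ (Finset.mem_univ i),
          ← Finset.add_sum_erase _ _ (Finset.mem_univ i), if_pos rfl,
          Finset.sum_congr rfl fun j hj => if_neg (Finset.ne_of_mem_erase hj), w0, w1]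
        ring
      have h3 := (L.resker i _).2 (((L.prime i).dvd_or_dvd h2).resolve_left (ndvd_gI L i))
      rw [L.resder] at h3
      obtain ⟨r, hr⟩ := (L.resker i (ρ i - C ((res l i (ρ i)).coeff 0))).1 (by
        rw [map_sub, algHom_C, Polynomial.algebraMap_eq, sub_eq_zero]
        exact Polynomial.eq_C_of_derivative_eq_zero h3)
      exact ⟨_, r, by linear_combination hr⟩
    choose ε r hr using hρ
    obtain ⟨Z0, Z1, h1, h2⟩ := common L ρ r ε 0 U0 U1 hr
    rw [hb, h1]
    refine triv_of_div hP L Z0 Z1 (fun m => (e m).divX) ε (mul_left_cancel₀ L.ne ?_)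
    rw [← hs', h2, DP, br_zero]; ring
  · right
    have hα' : 1 - α ≠ 0 := sub_ne_zero.2 (Ne.symm hα)
    have hc1 : ∀ m n, (c m n).coeff 0 = 0 := by
      intro m n
      have := congrArg (fun q => Polynomial.coeff q 0) (hth m n)
      simp only [th1, Polynomial.coeff_derivative, Polynomial.coeff_X_mul, Polynomial.coeff_smul,
        smul_eq_mul, Nat.cast_zero, zero_add, mul_one] at this
      refine (mul_eq_zero.1 ?_).resolve_left hα'
      linear_combination this
    have hc2 : ∀ m n, c m n = Polynomial.X * (c m n).divX := by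
      intro m n
      conv_lhs => rw [← Polynomial.X_mul_divX_add (c m n), hc1, map_zero, add_zero]
    obtain ⟨A', hA'⟩ := L.glue (fun i => ρ i - C ((e i).coeff 0 / (1 - α))) fun i j p hp => by
      have := hn i j p hp
      rw [hc1] at this
      simp only [map_sub, eval_C]
      field_simp
      linear_combination -this
    choose r hr using hA'
    obtain ⟨Z0, Z1, h1, h2⟩ := common L ρ r (fun i => (e i).coeff 0 / (1 - α)) A' U0 U1
      fun i => by linear_combination hr i
    refine ⟨hα, fun m n => (c m n).divX, Z0, Z1, _, hc2, hb.trans h1, A', e, ?_⟩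
    have e1 : ∑ m, ∑ n, Polynomial.aeval (ff l) (c m n) * gam l m n =
        ff l * ∑ m, ∑ n, Polynomial.aeval (ff l) (c m n).divX * gam l m n := by
      rw [Finset.mul_sum]
      refine Finset.sum_congr rfl fun m _ => ?_
      rw [Finset.mul_sum]
      refine Finset.sum_congr rfl fun n _ => ?_
      conv_lhs => rw [hc2 m n, map_mul, Polynomial.aeval_X, mul_assoc]
    rw [th0, smul_eq_C_mul]
    linear_combination hs - h2 - e1

end Pool.Agent.MP_aa1ef7_ag.H20
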