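import Pool.Agent.MP_aa1ef7_ag.G.C9a

/-! Row C9: exactness at a node gives exactness at some face. -/

namespace Pool.Agent.MP_aa1ef7_ag.H20

namespace C9A

open MvPolynomial
open Pool.Agent.MP_aa1ef7_ag.H40

variable {d : ℕ} (l : Fin (d + 1) → ℂ × ℂ × ℂ)

/-- Pairs of bounded degree. -/
noncomputable def V0 (d D R : ℕ) : Submodule ℂ (Poly × CC d) :=
  (restrictTotalDegree (Fin 2) ℂ D).prod
    (Submodule.pi Set.univ fun _ => Submodule.pi Set.univ fun _ => Polynomial.degreeLT ℂ (R + 1))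

theorem V0_fg (d D R : ℕ) : (V0 d D R).FG := by
  refine Submodule.FG.prod (Module.Finite.iff_fg.1 inferInstance) ?_
  exact Submodule.fg_pi fun _ => Submodule.fg_pi fun _ => Module.Finite.iff_fg.1 inferInstance

theorem mem_V0 {D R : ℕ} {n : Poly × CC d} : n ∈ V0 d D R ↔
    n.1.totalDegree ≤ D ∧ ∀ m k, (n.2 m k).natDegree ≤ R := by
  simp only [V0, Submodule.mem_prod, mem_restrictTotalDegree, Submodule.mem_pi, Set.mem_univ,
    true_implies, Polynomial.degreeLT_succ_eq_degreeLE, Polynomial.mem_degreeLE,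
    Polynomial.natDegree_le_iff_degree_le]

/-- Pairs without the lines `i`, `j`. -/
def OffS (i j : Fin (d + 1)) : Submodule ℂ (Poly × CC d) where
  carrier := {n | Off i j n.2}
  zero_mem' := fun n => by simp
  add_mem' := by
    intro a b ha hb n
    obtain ⟨h1, h2, h3, h4⟩ := ha n
    obtain ⟨g1, g2, g3, g4⟩ := hb n
    simp [h1, h2, h3, h4, g1, g2, g3, g4]
  smul_mem' := by
    intro c a ha n
    obtain ⟨h1, h2, h3, h4⟩ := ha n
    simp [h1, h2, h3, h4]

theorem mem_OffS {i j : Fin (d + 1)} {n : Poly × CC d} : n ∈ OffS i j ↔ Off i j n.2 := Iff.rfl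

theorem th_mem (hL : Lin l) {D R : ℕ} (hD : (d + 1) * R + d ≤ D) {Z0 Z1 : Poly}
    (h0 : Z0.totalDegree ≤ D + 1) (h1 : Z1.totalDegree ≤ D + 1) {c : CC d}
    (hc : ∀ m k, (c m k).natDegree ≤ R) : (th0 l Z0 Z1 c, th1 c) ∈ V0 d D R := by
  refine mem_V0.2 ⟨?_, fun m k => ?_⟩
  · refine (totalDegree_add _ _).trans (max_le ((totalDegree_add _ _).trans
      (max_le (deg_pderiv_le h0 0) (deg_pderiv_le h1 1))) ?_)
    refine totalDegree_finsetSum_le fun m _ => totalDegree_finsetSum_le fun k _ => ?_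
    refine (totalDegree_mul _ _).trans ?_
    have e1 := hL.aevaldeg (c m k)
    have e2 := hL.gamdeg m k
    have e3 := Nat.mul_le_mul_left (d + 1) (hc m k)
    omega
  · refine (Polynomial.natDegree_derivative_le _).trans ?_
    have e1 : (Polynomial.X * c m k).natDegree ≤ 1 + (c m k).natDegree :=
      Polynomial.natDegree_mul_le.trans (by simp)
    have := hc m k
    omega

theorem periods_bounded (hN : NablaS) (hL : Lin l) (hJ : Jac l) (hM : Mor l) {i j : Fin (d + 1)}
    {p : Fin 2 → ℂ} (hp : Node l i j p) {r : Ser ℂ →ₗ[ℂ] PowerSeries ℂ}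
    (hr : Per (tay p (ff l)) r) (nn : (Fin 2 → ℂ) → Poly × CC d)
    (hnn : ∀ p', Face l p' → Off i j (nn p').2 ∧ r (evL l p (nn p')) = 0 ∧
      eval p' (nn p').1 ≠ 0 ∧ ∀ p'', Face l p'' → p'' ≠ p' → eval p'' (nn p').1 = 0) :
    ∃ g : ℕ, ∀ m ∈ mon (2 * d - 2), ∀ k, g ≤ k →
      PowerSeries.coeff k (r (tay p (monomial m 1))) = 0 := by
  classical
  let F := hM.fin.toFinset
  have hF : ∀ p', p' ∈ F ↔ Face l p' := fun p' => hM.fin.mem_toFinset
  let R : ℕ := F.sup fun p' => Finset.univ.sup fun m => Finset.univ.sup fun k =>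
    ((nn p').2 m k).natDegree
  let D0 : ℕ := F.sup fun p' => (nn p').1.totalDegree
  let D : ℕ := D0 + (d + 1) * R + 2 * d
  let V : Submodule ℂ (Poly × CC d) := V0 d D R ⊓ OffS i j
  have hnV : ∀ p' ∈ F, nn p' ∈ V := by
    intro p' h
    refine ⟨mem_V0.2 ⟨?_, fun m k => ?_⟩, (hnn p' ((hF p').1 h)).1⟩
    · have : (nn p').1.totalDegree ≤ D0 :=
        Finset.le_sup (f := fun p' => (nn p').1.totalDegree) h
      omega
    · refine le_trans ?_ (Finset.le_sup (f := fun p' => Finset.univ.sup fun m =>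
        Finset.univ.sup fun k => ((nn p').2 m k).natDegree) h)
      refine le_trans ?_ (Finset.le_sup (f := fun m =>
        Finset.univ.sup fun k => ((nn p').2 m k).natDegree) (Finset.mem_univ m))
      exact Finset.le_sup (f := fun k => ((nn p').2 m k).natDegree) (Finset.mem_univ k)
  have : FiniteDimensional ℂ (V0 d D R) := Module.Finite.iff_fg.2 (V0_fg d D R)
  have : FiniteDimensional ℂ V := Submodule.finiteDimensional_of_le inf_le_left
  obtain ⟨g, hg⟩ := bounded (V.map (r ∘ₗ evL l p)) (by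
    rintro _ ⟨n, hn, rfl⟩
    let n' : Poly × CC d := n - ∑ p' ∈ F, (eval p' n.1 / eval p' (nn p').1) • nn p'
    have hn' : n' ∈ V :=
      V.sub_mem hn (V.sum_mem fun p' h => V.smul_mem _ (hnV p' h))
    have hrn : r (evL l p n') = r (evL l p n) := by
      simp only [n', map_sub, map_sum, map_smul]
      rw [Finset.sum_eq_zero fun p' h => by rw [(hnn p' ((hF p').1 h)).2.1, smul_zero], sub_zero]
    have hv : ∀ p'', Face l p'' → eval p'' n'.1 = 0 := by
      intro p'' h''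
      simp only [n', Prod.fst_sub, Prod.fst_sum, Prod.smul_fst, map_sub, map_sum, smul_eval]
      rw [Finset.sum_eq_single_of_mem p'' ((hF p'').2 h'') fun p' h hne => by
        rw [(hnn p' ((hF p').1 h)).2.2.2 p'' h'' hne.symm, mul_zero],
        div_mul_cancel₀ _ (hnn p'' h'').2.2.1, sub_self]
    obtain ⟨Y0, Y1, hY⟩ := exists_Y l hL hM n'.1 hv
    obtain ⟨hdeg, hoff⟩ := hn'
    obtain ⟨hd1, hd2⟩ := mem_V0.1 hdeg
    obtain ⟨Z0, Z1, h0, h1, hZ⟩ := hJ.hb (D + 1) Y0 Y1 (by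
      rw [hY]
      refine (totalDegree_mul _ _).trans ?_
      have := deg_ff_le l
      omega)
    refine ⟨(th0 l Z0 Z1 n'.2, th1 n'.2), ⟨th_mem l hL (by omega) h0 h1 hd2, Off.th1 hoff⟩, ?_⟩
    rw [LinearMap.comp_apply, LinearMap.comp_apply,
      hr.nabla l hN hL n' Z0 Z1 (off_node l hL hp hoff) (hZ.trans hY), ff_node l hp, hrn]
    simp)
  refine ⟨g, fun m hm k hk => hg _ ⟨(monomial m 1, 0), ⟨mem_V0.2 ⟨?_, fun _ _ => by simp⟩,
    fun _ => by simp⟩, ?_⟩ k hk⟩
  · refine deg_le_iff.2 fun e he => ?_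
    rw [coeff_monomial, if_neg]
    rintro rfl
    have := mem_mon.1 hm
    omega
  · simp [evL_apply, ev]

theorem coeff_aeval_mul (c : Polynomial ℂ) (s : PowerSeries ℂ) (g k : ℕ)
    (hs : ∀ k, g ≤ k → PowerSeries.coeff k s = 0) (hk : c.natDegree + g ≤ k) :
    PowerSeries.coeff k (Polynomial.aeval PowerSeries.X c * s) = 0 := by
  have : Polynomial.aeval (PowerSeries.X : PowerSeries ℂ) c = (c : PowerSeries ℂ) :=
    Polynomial.eval₂_C_X_eq_coe (φ := c)
  rw [this, PowerSeries.coeff_mul]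
  refine Finset.sum_eq_zero fun x hx => ?_
  have hx' : x.1 + x.2 = k := by simpa using hx
  rw [Polynomial.coeff_coe]
  by_cases h : c.natDegree < x.1
  · rw [Polynomial.coeff_eq_zero_of_natDegree_lt h, zero_mul]
  · rw [hs x.2 (by omega), mul_zero]

theorem deg_lin (a : ℂ × ℂ × ℂ) : (lin a).totalDegree ≤ 1 := by
  refine (totalDegree_add _ _).trans (max_le ((totalDegree_add _ _).trans (max_le ?_ ?_)) ?_)
  · exact (totalDegree_mul _ _).trans (by simp)
  · exact (totalDegree_mul _ _).trans (by simp)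
  · simp

theorem not_bounded (hG : GensS) (hg : Geo l) (hL : Lin l) (hJ : Jac l) {i j : Fin (d + 1)}
    {p : Fin 2 → ℂ} (hp : Node l i j p) {r : Ser ℂ →ₗ[ℂ] PowerSeries ℂ}
    (hr : Per (tay p (ff l)) r) (g : ℕ) (h : ∀ m ∈ mon (2 * d - 2), ∀ k, g ≤ k →
      PowerSeries.coeff k (r (tay p (monomial m 1))) = 0) : False := by
  classical
  have h2 := hg.two
  have hc0 : cc (tay p (ff l)) = 0 := by rw [cc_tay, ff_node l hp]
  obtain ⟨c, A, hc, hb⟩ := (hG ℂ d (ff l) (by omega) (deg_ff_le l) hJ.syl).1 (2 * (3 * g))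
    ((lin (l i) * lin (l j)) ^ (3 * g)) (by
      refine (totalDegree_pow _ _).trans ?_
      have := (totalDegree_mul (lin (l i)) (lin (l j))).trans
        (Nat.add_le_add (deg_lin (l i)) (deg_lin (l j)))
      nlinarith)
  have e1 : PowerSeries.coeff (3 * g) (r (tay p ((lin (l i) * lin (l j)) ^ (3 * g)))) = 0 := by
    have e0 : r (tay p (pderiv 1 (ff l) * pderiv 0 A - pderiv 0 (ff l) * pderiv 1 A)) = 0 :=
      (hr.ker _).2 ⟨tay p A, by simp [br, dS_tay]⟩
    rw [hb, map_add, map_add, e0, add_zero, map_sum, map_sum, map_sum]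
    refine Finset.sum_eq_zero fun m hm => ?_
    rw [map_mul, ← Polynomial.aeval_algHom_apply, hr.aev, hc0, map_zero, zero_add]
    refine coeff_aeval_mul _ _ g _ (h m hm) ?_
    have := hc m
    nlinarith
  have hU : cc (tay p (gI l {i, j})) ≠ 0 := by
    rw [cc_tay, gI, map_prod]
    refine Finset.prod_ne_zero_iff.2 fun m hm => ?_
    simp only [Finset.mem_compl, Finset.mem_insert, Finset.mem_singleton, not_or] at hm
    exact hL.nodeoff i j p hp m hm.1 hm.2
  obtain ⟨W, hW⟩ := (MvPowerSeries.isUnit_iff_constantCoeff.2 (Ne.isUnit hU)).exists_right_inv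
  have hW0 : MvPowerSeries.constantCoeff W ≠ 0 := by
    intro h0
    have := congrArg MvPowerSeries.constantCoeff hW
    rw [map_mul, h0, mul_zero, map_one] at this
    exact zero_ne_one this
  have e2 : tay p (lin (l i) * lin (l j)) = tay p (ff l) * W := by
    rw [ff_eq l {i, j}, Finset.prod_pair hp.1, map_mul (tay p) _ (gI l {i, j}), mul_assoc, hW,
      mul_one]
  have e3 := hr.aev (Polynomial.X ^ (3 * g)) (W ^ (3 * g))
  rw [map_pow, map_pow, Polynomial.aeval_X, Polynomial.aeval_X, hc0, map_zero, zero_add] at e3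
  rw [map_pow, e2, mul_pow, e3] at e1
  have e4 := PowerSeries.coeff_X_pow_mul (r (W ^ (3 * g))) (3 * g) 0
  rw [zero_add, e1, PowerSeries.coeff_zero_eq_constantCoeff_apply, hr.c0, cc, map_pow] at e4
  exact pow_ne_zero _ hW0 e4.symm

end C9A

open C9A in
theorem rowC9 : OfC9 := by
  intro hP hN hG d l hg hL hJ hM i j p hp
  by_contra hcon
  push Not at hcon
  obtain ⟨r, hr⟩ := exists_per l hP hM (hL.nodecrit i j p hp)
  have h1 : ∀ p', ∃ n : H40.Poly × CC d, Face l p' → Off i j n.2 ∧ r (evL l p n) = 0 ∧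
      MvPolynomial.eval p' n.1 ≠ 0 ∧
      ∀ p'', Face l p'' → p'' ≠ p' → MvPolynomial.eval p'' n.1 = 0 := by
    intro p'
    by_cases h : Face l p'
    · obtain ⟨b, c, h0, h1, h2⟩ := hcon p' h
      obtain ⟨n, hn⟩ := exists_n l hP hN hL hM hp hr h (b, c) h0 h1 h2
      exact ⟨n, fun _ => hn⟩
    · exact ⟨0, fun h' => absurd h' h⟩
  choose nn hnn using h1
  obtain ⟨g, hb⟩ := periods_bounded l hN hL hJ hM hp hr nn hnn
  exact not_bounded l hG hg hL hJ hp hr g hb

end Pool.Agent.MP_aa1ef7_ag.H20
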