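import Pool.Agent.MP_aa1ef7_ag.H20.Spec

/-! Row C9, first part: two facts on series and the period map. -/

namespace Pool.Agent.MP_aa1ef7_ag.H20

namespace C9A

open MvPolynomial
open Pool.Agent.MP_aa1ef7_ag.H40

/-- A set of series without constant terms that is stable under `s ↦ (U s)'` is zero. -/
theorem vanish (S : Set (PowerSeries ℂ)) (U : PowerSeries ℂ)
    (hU : PowerSeries.constantCoeff U ≠ 0) (h0 : ∀ s ∈ S, PowerSeries.constantCoeff s = 0)
    (h1 : ∀ s ∈ S, PowerSeries.derivative ℂ (U * s) ∈ S) : ∀ s ∈ S, s = 0 := by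
  have key : ∀ k : ℕ, ∀ s ∈ S, ∀ j ≤ k, PowerSeries.coeff j s = 0 := by
    intro k
    induction k with
    | zero =>
      intro s hs j hj
      obtain rfl : j = 0 := by omega
      simpa using h0 s hs
    | succ k ih =>
      intro s hs j hj
      rcases Nat.lt_or_ge j (k + 1) with h | h
      · exact ih s hs j (by omega)
      obtain rfl : j = k + 1 := by omega
      have h2 := ih _ (h1 s hs) k le_rfl
      rw [PowerSeries.coeff_derivative] at h2
      have h3 : PowerSeries.coeff (k + 1) (U * s) = 0 := by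
        refine (mul_eq_zero.1 h2).resolve_right ?_
        exact_mod_cast Nat.succ_ne_zero k
      obtain ⟨t, rfl⟩ : (PowerSeries.X : PowerSeries ℂ) ^ (k + 1) ∣ s :=
        PowerSeries.X_pow_dvd_iff.2 fun m hm => ih s hs m (by omega)
      have e1 : ∀ w : PowerSeries ℂ, PowerSeries.coeff (k + 1) (PowerSeries.X ^ (k + 1) * w) =
          PowerSeries.constantCoeff w := fun w => by
        have := PowerSeries.coeff_X_pow_mul w (k + 1) 0
        rw [zero_add] at this
        rw [this]; simp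
      rw [mul_left_comm, e1, map_mul] at h3
      rw [e1]
      exact (mul_eq_zero.1 h3).resolve_left hU
  intro s hs
  ext k
  simpa using key k s hs k le_rfl

/-- A finite dimensional space of series stable under `s ↦ (X s)'` has bounded degrees. -/
theorem bounded (W : Submodule ℂ (PowerSeries ℂ)) [FiniteDimensional ℂ W]
    (h : ∀ s ∈ W, PowerSeries.derivative ℂ (PowerSeries.X * s) ∈ W) :
    ∃ g : ℕ, ∀ s ∈ W, ∀ k, g ≤ k → PowerSeries.coeff k s = 0 := by
  let θ : PowerSeries ℂ →ₗ[ℂ] PowerSeries ℂ :=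
    (PowerSeries.derivative ℂ).toLinearMap ∘ₗ LinearMap.mulLeft ℂ PowerSeries.X
  have hθ : ∀ s ∈ W, θ s ∈ W := h
  let θ' : Module.End ℂ W := θ.restrict hθ
  let T : Module.End ℂ (Module.Dual ℂ W) := θ'.dualMap
  have hfin := T.finite_hasEigenvalue
  have hinj : Function.Injective fun k : ℕ => (k : ℂ) + 1 := fun a b hab => by
    simpa using hab
  have hfin' := hfin.preimage hinj.injOn
  obtain ⟨g, hg⟩ := hfin'.bddAbove
  refine ⟨g + 1, fun s hs k hk => ?_⟩
  by_contra hne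
  have hev : T.HasEigenvalue ((k : ℂ) + 1) := by
    refine Module.End.hasEigenvalue_of_hasEigenvector
      (x := (PowerSeries.coeff k : PowerSeries ℂ →ₗ[ℂ] ℂ) ∘ₗ W.subtype) ⟨?_, fun h0 => ?_⟩
    · rw [Module.End.mem_eigenspace_iff]
      ext w
      change PowerSeries.coeff k (PowerSeries.derivative ℂ (PowerSeries.X * (w : PowerSeries ℂ))) =
        ((k : ℂ) + 1) * PowerSeries.coeff k (w : PowerSeries ℂ)
      rw [PowerSeries.coeff_derivative, PowerSeries.coeff_succ_X_mul, mul_comm]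
    · exact hne (by simpa using congrArg (fun φ : Module.Dual ℂ W => φ ⟨s, hs⟩) h0)
  have := hg (a := k) hev
  omega

theorem hom_aeval {A : Type} [CommRing A] [Algebra ℂ A] (φ : A →+* ℂ)
    (hφ : ∀ a, φ (algebraMap ℂ A a) = a) (x : A) (q : Polynomial ℂ) :
    φ (Polynomial.aeval x q) = q.eval (φ x) := by
  induction q using Polynomial.induction_on with
  | C a => simp [hφ]
  | add p q hp hq => simp [hp, hq]
  | monomial n a _ => simp [hφ]

/-- The properties of the period map. -/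
structure Per (φ : Ser ℂ) (r : Ser ℂ →ₗ[ℂ] PowerSeries ℂ) : Prop where
  ker : ∀ G, r G = 0 ↔ ∃ A, br dS φ A = G
  mul : ∀ G, r (φ * G) = (PowerSeries.C (cc φ) + PowerSeries.X) * r G
  c0 : ∀ G, PowerSeries.constantCoeff (r G) = cc G
  div : ∀ Y0 Y1, r (dS 0 Y0 + dS 1 Y1) =
    PowerSeries.derivative ℂ (r (Y0 * dS 0 φ + Y1 * dS 1 φ))

theorem Per.aev {φ : Ser ℂ} {r : Ser ℂ →ₗ[ℂ] PowerSeries ℂ} (h : Per φ r) (q : Polynomial ℂ)
    (G : Ser ℂ) : r (Polynomial.aeval φ q * G) =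
      Polynomial.aeval (PowerSeries.C (cc φ) + PowerSeries.X) q * r G := by
  have hp : ∀ n : ℕ, r (φ ^ n * G) = (PowerSeries.C (cc φ) + PowerSeries.X) ^ n * r G := by
    intro n
    induction n with
    | zero => simp
    | succ n ih => rw [pow_succ', mul_assoc, h.mul, ih]; ring
  induction q using Polynomial.induction_on' with
  | add p q hp hq => simp only [map_add, add_mul, hp, hq]
  | monomial n a =>
    simp only [Polynomial.aeval_monomial, ← Algebra.smul_def, smul_mul_assoc, map_smul, hp]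

variable {d : ℕ} (l : Fin (d + 1) → ℂ × ℂ × ℂ)

theorem exists_per (hP : PerS) (hM : Mor l) {p : Fin 2 → ℂ} (hp : Crit l p) :
    ∃ r, Per (tay p (ff l)) r := by
  obtain ⟨r, h1, h2, h3, h4⟩ := hP (tay p (ff l)) (fun i => by rw [dS_tay, cc_tay]; exact hp i)
    (hM.nd p hp)
  exact ⟨r, h1, h2, h3, h4⟩

/-- `ev` as a linear map. -/
noncomputable def evL (p : Fin 2 → ℂ) : (Poly × CC d) →ₗ[ℂ] Ser ℂ where
  toFun n := ev l p n.1 n.2
  map_add' a b := by
    simp only [ev, Prod.fst_add, Prod.snd_add, Pi.add_apply, map_add, add_mul,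
      Finset.sum_add_distrib]
    ring
  map_smul' a b := by
    simp only [ev, Prod.smul_fst, Prod.smul_snd, Pi.smul_apply, map_smul, RingHom.id_apply,
      smul_add, Finset.smul_sum, smul_mul_assoc]

theorem evL_apply (p : Fin 2 → ℂ) (n : Poly × CC d) : evL l p n = ev l p n.1 n.2 := rfl

theorem cc_lg (p : Fin 2 → ℂ) (m : Fin (d + 1)) : cc (lg l p m) = 0 := by
  change lg l p m 0 = 0
  simp [lg]

theorem cc_evL (p : Fin 2 → ℂ) (n : Poly × CC d) : cc (evL l p n) = eval p n.1 := by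
  have h := cc_lg l p
  have h2 := cc_tay p n.1
  simp only [cc] at h h2 ⊢
  simp [evL_apply, ev, h, h2]

/-- Multiplication by `q (f)`. -/
noncomputable def mulq (q : Polynomial ℂ) (n : Poly × CC d) : Poly × CC d :=
  (Polynomial.aeval (ff l) q * n.1, fun m k => q * n.2 m k)

theorem evL_mulq (p : Fin 2 → ℂ) (q : Polynomial ℂ) (n : Poly × CC d) :
    evL l p (mulq l q n) = Polynomial.aeval (tay p (ff l)) q * evL l p n := by
  simp only [evL_apply, mulq, ev, map_mul, mul_add, Finset.mul_sum, mul_assoc,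
    Polynomial.aeval_algHom_apply]

theorem eval_aeval (p : Fin 2 → ℂ) (q : Polynomial ℂ) :
    eval p (Polynomial.aeval (ff l) q) = q.eval (eval p (ff l)) :=
  hom_aeval (eval p) (fun a => by simp) _ q

/-- No terms with the lines `i`, `j`. -/
def Off (i j : Fin (d + 1)) (c : CC d) : Prop :=
  ∀ n, c i n = 0 ∧ c j n = 0 ∧ c n i = 0 ∧ c n j = 0

theorem Off.th1 {i j : Fin (d + 1)} {c : CC d} (h : Off i j c) : Off i j (th1 c) := fun n => by
  obtain ⟨h1, h2, h3, h4⟩ := h n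
  simp [H20.th1, h1, h2, h3, h4]

theorem Off.mulq {i j : Fin (d + 1)} {n : Poly × CC d} (h : Off i j n.2) (q : Polynomial ℂ) :
    Off i j (mulq l q n).2 := fun k => by
  obtain ⟨h1, h2, h3, h4⟩ := h k
  simp [C9A.mulq, h1, h2, h3, h4]

theorem Per.nabla (hN : NablaS) (hL : Lin l) {p : Fin 2 → ℂ} {r : Ser ℂ →ₗ[ℂ] PowerSeries ℂ}
    (h : Per (tay p (ff l)) r) (n : Poly × CC d) (Y0 Y1 : Poly)
    (hc : ∀ m k, n.2 m k ≠ 0 → eval p (lin (l m)) ≠ 0)
    (hY : Y0 * pderiv 0 (ff l) + Y1 * pderiv 1 (ff l) = ff l * n.1) :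
    r (evL l p (th0 l Y0 Y1 n.2, H20.th1 n.2)) = PowerSeries.derivative ℂ
      ((PowerSeries.C (eval p (ff l)) + PowerSeries.X) * r (evL l p n)) := by
  obtain ⟨Z0, Z1, h1, h2⟩ := hN d l hL p n.1 Y0 Y1 n.2 hc hY
  rw [evL_apply, ← h2, h.div, h1, h.mul, cc_tay, evL_apply]

theorem off_node (hL : Lin l) {i j : Fin (d + 1)} {p : Fin 2 → ℂ} (hp : Node l i j p) {c : CC d}
    (hc : Off i j c) : ∀ m k, c m k ≠ 0 → eval p (lin (l m)) ≠ 0 := fun m k h =>
  hL.nodeoff i j p hp m (fun e => h (e ▸ (hc k).1)) (fun e => h (e ▸ (hc k).2.1))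

theorem ff_node {i j : Fin (d + 1)} {p : Fin 2 → ℂ} (hp : Node l i j p) : eval p (ff l) = 0 := by
  rw [ff, map_prod]
  exact Finset.prod_eq_zero (Finset.mem_univ i) hp.2.1

theorem ff_face {p : Fin 2 → ℂ} (hp : Face l p) : eval p (ff l) ≠ 0 := by
  rw [ff, map_prod]
  exact Finset.prod_ne_zero_iff.2 fun m _ => hp.2 m

theorem exists_Y (hL : Lin l) (hM : Mor l) (b : Poly) (hb : ∀ p, Face l p → eval p b = 0) :
    ∃ Y0 Y1, Y0 * pderiv 0 (ff l) + Y1 * pderiv 1 (ff l) = ff l * b := by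
  obtain ⟨Y0, Y1, h⟩ := hM.rad (ff l * b) fun p hp => by
    rcases hL.cls p hp with h | ⟨i, j, h⟩
    · rw [map_mul, hb p h, mul_zero]
    · rw [map_mul, ff_node l h, zero_mul]
  exact ⟨Y0, Y1, h.symm⟩

theorem exists_q (hM : Mor l) {p : Fin 2 → ℂ} (hp : Face l p) : ∃ q : Polynomial ℂ,
    q.eval (eval p (ff l)) ≠ 0 ∧ ∀ p', Face l p' → p' ≠ p → q.eval (eval p' (ff l)) = 0 := by
  classical
  refine ⟨∏ p' ∈ hM.fin.toFinset.erase p, (Polynomial.X - Polynomial.C (eval p' (ff l))), ?_,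
    fun p' h1 h2 => ?_⟩
  · rw [Polynomial.eval_prod]
    refine Finset.prod_ne_zero_iff.2 fun p' h => ?_
    rw [Finset.mem_erase, Set.Finite.mem_toFinset] at h
    simp only [Polynomial.eval_sub, Polynomial.eval_X, Polynomial.eval_C, sub_ne_zero]
    exact fun e => h.1 (hM.inj p p' hp h.2 e).symm
  · rw [Polynomial.eval_prod]
    exact Finset.prod_eq_zero (i := p')
      (Finset.mem_erase.2 ⟨h2, hM.fin.mem_toFinset.2 h1⟩) (by simp)

/-- An element that is exact at the node and vanishes at all faces but one. -/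
theorem exists_n (hP : PerS) (hN : NablaS) (hL : Lin l) (hM : Mor l) {i j : Fin (d + 1)}
    {p : Fin 2 → ℂ} (hp : Node l i j p) {r : Ser ℂ →ₗ[ℂ] PowerSeries ℂ}
    (hr : Per (tay p (ff l)) r) {p' : Fin 2 → ℂ} (hp' : Face l p') (n0 : Poly × CC d)
    (h0 : Off i j n0.2) (h1 : Ex l p (ev l p n0.1 n0.2)) (h2 : ¬ Ex l p' (ev l p' n0.1 n0.2)) :
    ∃ n : Poly × CC d, Off i j n.2 ∧ r (evL l p n) = 0 ∧ eval p' n.1 ≠ 0 ∧
      ∀ p'', Face l p'' → p'' ≠ p' → eval p'' n.1 = 0 := by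
  obtain ⟨r', hr'⟩ := exists_per l hP hM hp'.1
  obtain ⟨q, hq, hq'⟩ := exists_q l hM hp'
  have hmul : ∀ n : Poly × CC d, r (evL l p n) = 0 → r (evL l p (mulq l q n)) = 0 :=
    fun n hn => by rw [evL_mulq, hr.aev, hn, mul_zero]
  have hvan : ∀ (n : Poly × CC d) p'', Face l p'' → p'' ≠ p' → eval p'' (mulq l q n).1 = 0 :=
    fun n p'' ha hb => by rw [mulq, map_mul, eval_aeval, hq' p'' ha hb, zero_mul]
  suffices h : ∃ n : Poly × CC d, Off i j n.2 ∧ r (evL l p n) = 0 ∧ eval p' n.1 ≠ 0 by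
    obtain ⟨n, ha, hb, hc⟩ := h
    refine ⟨mulq l q n, ha.mulq l q, hmul n hb, ?_, hvan n⟩
    rw [mulq, map_mul, eval_aeval]
    exact mul_ne_zero hq hc
  by_contra hcon
  push Not at hcon
  let x : PowerSeries ℂ := PowerSeries.C (eval p' (ff l)) + PowerSeries.X
  have hx : PowerSeries.constantCoeff x = eval p' (ff l) := by simp [x]
  have := vanish ((fun n => r' (evL l p' n)) '' {n | Off i j n.2 ∧ r (evL l p n) = 0})
    (x * Polynomial.aeval x q) ?_ ?_ ?_ _ ⟨n0, ⟨h0, (hr.ker _).2 h1⟩, rfl⟩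
  · exact h2 ((hr'.ker _).1 this)
  · rw [map_mul, hom_aeval PowerSeries.constantCoeff (fun a => by simp), hx]
    exact mul_ne_zero (ff_face l hp') hq
  · rintro _ ⟨n, ⟨ha, hb⟩, rfl⟩
    rw [hr'.c0, cc_evL]
    exact hcon n ha hb
  · rintro _ ⟨n, ⟨ha, hb⟩, rfl⟩
    obtain ⟨Y0, Y1, hY⟩ := exists_Y l hL hM (mulq l q n).1 fun p'' h'' => by
      by_cases e : p'' = p'
      · rw [e, mulq, map_mul, hcon n ha hb, mul_zero]
      · exact hvan n p'' h'' e
    refine ⟨(th0 l Y0 Y1 (mulq l q n).2, H20.th1 (mulq l q n).2), ⟨(ha.mulq l q).th1, ?_⟩, ?_⟩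
    · rw [hr.nabla l hN hL _ Y0 Y1 (off_node l hL hp (ha.mulq l q)) hY, hmul n hb]
      simp
    · dsimp only
      rw [hr'.nabla l hN hL _ Y0 Y1 (fun m _ _ => hp'.2 m) hY, evL_mulq, hr'.aev, cc_tay,
        mul_assoc]

end C9A

end Pool.Agent.MP_aa1ef7_ag.H20
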