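import Pool.Agent.MP_aa1ef7_ag.H20.Spec

/-! Row Chart: inverse integrating factors in the charts. -/

namespace Pool.Agent.MP_aa1ef7_ag.H20

open MvPolynomial
open Pool.Agent.MP_aa1ef7_ag.H40

namespace ChartA

theorem cd_pow {S : Type} [CommRing S] [Algebra ℂ S] (δ : Derivation ℂ S S) (k : ℕ)
    (F : PowerSeries S) : cd δ (PowerSeries.X ^ k * F) = PowerSeries.X ^ k * cd δ F := by
  induction k with
  | zero => simp
  | succ k ih => rw [pow_succ', mul_assoc, cd_mul, cd_X, ih]; ring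

variable {d : ℕ} {l : Fin (d + 1) → ℂ × ℂ × ℂ} {P Q : PowerSeries Poly}

theorem amb (A : All l) (D : Def l P Q) :
    Amb (dB l) (cB l (ff l)) (PowerSeries.map (cB l) P) (PowerSeries.map (cB l) Q) where
  comm := A.bas.comm
  P0 := by
    rw [← PowerSeries.coeff_zero_eq_constantCoeff_apply, PowerSeries.coeff_map,
      PowerSeries.coeff_zero_eq_constantCoeff_apply, D.P0, dB_cB]
  Q0 := by
    rw [← PowerSeries.coeff_zero_eq_constantCoeff_apply, PowerSeries.coeff_map,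
      PowerSeries.coeff_zero_eq_constantCoeff_apply, D.Q0, dB_cB, map_neg]

theorem cht (A : All l) (D : Def l P Q) {T : Subalgebra ℂ (BB l)}
    (h1 : Sub (dB l) (cB l (ff l)) T) (h2 : ∀ m, ∀ a ∈ T, pderiv m a ∈ T)
    (h3 : ∀ a ∈ T, DB l a = 0 → ∀ m, pderiv m a = 0) :
    Cht (dB l) (cB l (ff l)) (PowerSeries.map (cB l) P) (PowerSeries.map (cB l) Q) T (dL l) where
  amb := amb A D
  sub := h1
  ne := by
    rw [dB_cB]
    exact fun h => A.jac.ned 0 (A.bas.cinj (h.trans (map_zero _).symm))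
  cD := A.bas.cL
  cδ := A.bas.LL
  kf m := A.bas.Lc m _
  kP m := PowerSeries.ext fun k => by
    rw [coeff_cd, PowerSeries.coeff_map, map_zero]; exact A.bas.Lc m _
  kQ m := PowerSeries.ext fun k => by
    rw [coeff_cd, PowerSeries.coeff_map, map_zero]; exact A.bas.Lc m _
  cl := h2
  ker := h3

theorem key (hI : IifS) (A : All l) (hn : ¬ ∃ h, Sol l P Q (SI l Finset.univ) h)
    {T : Subalgebra ℂ (BB l)}
    (C : Cht (dB l) (cB l (ff l)) (PowerSeries.map (cB l) P) (PowerSeries.map (cB l) Q) T (dL l))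
    {V : AddSubgroup (BB l)} {U : Set (BB l)}
    (hV : ∀ a ∈ V, a ∈ T) (hU : ∀ a ∈ U, a ∈ T)
    (hm : ∀ m, ∀ u ∈ U, ∀ v ∈ V, u * pderiv m v ∈ V) {h g : PowerSeries (BB l)}
    (hh : Sol l P Q V h) (g1 : InS U g) (g2 : PowerSeries.constantCoeff g = 1)
    (g3 : PowerSeries.map (cB l) P = g * cd (dB l 1) h)
    (g4 : PowerSeries.map (cB l) Q = -(g * cd (dB l 0) h)) :
    (∃ F, Iif l P Q V F) ∧ ((∀ a ∈ SI l Finset.univ, a ∈ T) → ∀ F G, Iif l P Q Set.univ F →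
      Iif l P Q Set.univ G → ∀ i, F * cd (dB l i) G = G * cd (dB l i) F) := by
  have := A.bas.dom
  obtain ⟨a, b, c⟩ := hI _ _ _ _ _ T _ _ C h g (fun k => hV _ (hh.1 k)) hh.2.1
    (fun k => hU _ (g1 k)) g2 g3 g4
  obtain ⟨m, h0⟩ : ∃ m, cd (dL l m) h ≠ 0 := by
    by_contra k
    push Not at k
    refine hn ⟨h, fun n => (mem_SI l).2 fun m _ => ?_, hh.2⟩
    rw [← dL_apply, ← coeff_cd, k, map_zero]
  have z : ∀ F, InS (SI l Finset.univ : Set (BB l)) F → ∀ n, cd (dL l n) F = 0 := fun F hF n =>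
    PowerSeries.ext fun k => by
      rw [coeff_cd, map_zero]; exact (mem_SI l).1 (hF k) n (Finset.mem_univ _)
  refine ⟨?_, fun hS F G hF hG => c m h0 F G (fun k => hS _ (hF.2.1 k)) (fun k => hS _ (hG.2.1 k))
    (z F hF.2.1) (z G hG.2.1) hF.2.2.2 hG.2.2.2⟩
  have f0 : g * cd (dL l m) h ≠ 0 := mul_ne_zero (fun e => by simp [e] at g2) h0
  have f1 : InS (V : Set (BB l)) (g * cd (dL l m) h) := fun k => by
    rw [PowerSeries.coeff_mul]
    exact V.sum_mem fun p _ => by rw [coeff_cd]; exact hm m _ (g1 _) _ (hh.1 _)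
  have f2 := a m
  have f3 := b m
  generalize g * cd (dL l m) h = E at f0 f1 f2 f3
  obtain ⟨k, F, rfl, hF⟩ : ∃ (k : ℕ) (F : _), E = PowerSeries.X ^ k * F ∧ PowerSeries.constantCoeff F ≠ 0 :=
    ⟨_, _, PowerSeries.X_pow_order_mul_divXPowOrder.symm,
      fun e => f0 (PowerSeries.constantCoeff_divXPowOrder_eq_zero_iff.1 e)⟩
  have x0 : (PowerSeries.X : PowerSeries (BB l)) ^ k ≠ 0 := pow_ne_zero _ PowerSeries.X_ne_zero
  refine ⟨F, fun n => ?_, fun n => (mem_SI l).2 fun j _ => ?_, hF, mul_left_cancel₀ x0 ?_⟩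
  · rw [← PowerSeries.coeff_X_pow_mul F k n]
    exact f1 _
  · have := f2 j
    rw [cd_pow, mul_eq_zero, or_iff_right x0] at this
    rw [← dL_apply, ← coeff_cd, this, map_zero]
  · rw [vf, cd_pow, cd_pow] at f3
    rw [vf]
    linear_combination f3

end ChartA

open ChartA in
theorem rowChart : OfChart := by
  intro hR hG hI d l A P Q D ⟨H, hH⟩ hn
  have H' : ∃ H, InS ((⊤ : Subalgebra ℂ (BB l)) : Set (BB l)) H ∧
      PowerSeries.constantCoeff H = cB l (ff l) ∧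
      vf (dB l) (PowerSeries.map (cB l) P) (PowerSeries.map (cB l) Q) H = 0 :=
    ⟨H, fun _ => Algebra.mem_top, hH.2⟩
  have k : ∀ i, (∃ F, Iif l P Q (RI l {i}) F) ∧ ∀ F G, Iif l P Q Set.univ F →
      Iif l P Q Set.univ G → ∀ i, F * cd (dB l i) G = G * cd (dB l i) F := fun i => by
    have c : ∀ (R : PowerSeries Poly) k,
        PowerSeries.coeff k (PowerSeries.map (cB l) R) ∈ RI l {i} := fun R k => by
      rw [PowerSeries.coeff_map]; exact A.dv.ric _ _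
    obtain ⟨h, hh⟩ := hR _ _ _ _ _ ⊤ (RI l {i}).toSubring.toAddSubgroup
      (RI l {i}).toSubring.toAddSubgroup (amb A D) A.dv.top H' (A.dv.ric _ _)
      (fun _ _ => Algebra.mem_top)
      (fun k v hv => (RI l {i}).add_mem ((RI l {i}).mul_mem (c P k) (A.dv.rid _ _ v hv))
        ((RI l {i}).mul_mem (c Q k) (A.dv.rid _ _ v hv))) fun a _ => A.tf.tfi i a
    obtain ⟨g, g1, g2, g3, g4⟩ := hG _ _ _ _ _ (RI l {i}) (RI l {i}).toSubring.toAddSubgroup h
      (amb A D) A.dv.top hh.2.1 hh.2.2 (fun k => ⟨c P k, c Q k⟩)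
      (fun a h0 h1 => by rw [dB_cB] at h0 h1; exact A.dv.ridiv _ a h0 h1)
      fun u hu k j => (RI l {i}).mul_mem hu (A.dv.rid _ _ _ (hh.1 k))
    exact (key hI A hn
      (cht A D (A.dv.si {i}) (A.dv.siL _) (A.tf.ker _ (Finset.singleton_nonempty i)))
      (V := (RI l {i}).toSubring.toAddSubgroup)
      (fun a ha => ((mem_RI l).1 ha).1) (fun a ha => ((mem_RI l).1 ha).1)
      (fun m u hu v hv => (RI l {i}).mul_mem hu (A.dv.riL _ m v hv)) hh g1 g2 g3 g4).imp_right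
      fun k => k fun a ha j _ => ha j (Finset.mem_univ _)
  refine ⟨fun i => (k i).1, ?_, (k 0).2⟩
  have c : ∀ k, PowerSeries.coeff k (PowerSeries.map (cB l) P) ∈ RD l d ∧
      PowerSeries.coeff k (PowerSeries.map (cB l) Q) ∈ RD l d := fun k => by
    rw [PowerSeries.coeff_map, PowerSeries.coeff_map]
    exact ⟨A.dv.rdc _ _ (D.degP k), A.dv.rdc _ _ (D.degQ k)⟩
  obtain ⟨h, hh⟩ := hR _ _ _ _ _ ⊤ (RD l (d + 1)) (RD l (2 * d)) (amb A D) A.dv.top H'
    (A.dv.rdc _ _ (deg_ff_le l)) (fun _ _ => Algebra.mem_top)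
    (fun k v hv => by
      rw [two_mul]
      exact add_mem (A.dv.rdmul _ _ _ (c k).1 _ (A.dv.rdd _ _ v hv))
        (A.dv.rdmul _ _ _ (c k).2 _ (A.dv.rdd _ _ v hv))) fun a _ => A.tf.tfd a
  obtain ⟨g, g1, g2, g3, g4⟩ := hG _ _ _ _ _ (RD l 0) (RD l d) h (amb A D) A.dv.top hh.2.1 hh.2.2 c
    (fun a h0 h1 => by rw [dB_cB] at h0 h1; exact A.dv.rddiv a h0 h1)
    fun u hu k j => by simpa using A.dv.rdmul _ _ u hu _ (A.dv.rdd _ j _ (hh.1 k))
  exact (key hI A hn (cht A D A.dv.rp A.bas.pL A.tf.kerp)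
    (fun a ha => ((mem_RD l).1 ha).1) (fun a ha => ((mem_RD l).1 ha).1)
    (fun m u hu v hv => by simpa using A.dv.rdmul _ _ u hu _ (A.dv.rdL _ m v hv))
    hh g1 g2 g3 g4).1

end Pool.Agent.MP_aa1ef7_ag.H20
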