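import Pool.Agent.MP_aa1ef7_ag.H20.Spec

/-! Coprime derivatives of a product of linear forms, and Sylvester for arrangements. -/

namespace Pool.Agent.MP_aa1ef7_ag.H20

open MvPolynomial

namespace CoprA

theorem hom_lin {K : Type} [CommRing K] (a b : K) :
    (C a * X 0 + C b * X 1 : Pl K).IsHomogeneous 1 := by
  refine IsHomogeneous.add ?_ ?_
  · simpa using (isHomogeneous_C (Fin 2) a).mul (isHomogeneous_X K (0 : Fin 2))
  · simpa using (isHomogeneous_C (Fin 2) b).mul (isHomogeneous_X K (1 : Fin 2))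

theorem hom_prod {K ι : Type} [CommRing K] (s : Finset ι) (h : ι → Pl K)
    (hh : ∀ m, (h m).IsHomogeneous 1) : (∏ m ∈ s, h m).IsHomogeneous s.card := by
  simpa using IsHomogeneous.prod s h (fun _ => 1) fun m _ => hh m

theorem deg_prod {K ι : Type} [CommRing K] (s : Finset ι) (h : ι → Pl K) (c : ι → K)
    (hh : ∀ m, (h m).IsHomogeneous 1) : (∏ m ∈ s, (h m + C (c m))).totalDegree ≤ s.card := by
  refine (totalDegree_finsetProd _ _).trans ?_
  refine (Finset.sum_le_card_nsmul _ _ 1 fun m _ => ?_).trans (by simp)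
  exact (totalDegree_add _ _).trans (max_le (hh m).totalDegree_le (by simp))

theorem top_mul {K : Type} [CommRing K] (n : ℕ) (h P : Pl K) (c : K) (hh : h.IsHomogeneous 1)
    (hP : P.totalDegree ≤ n) :
    homogeneousComponent (n + 1) ((h + C c) * P) = h * homogeneousComponent n P := by
  have h1 : homogeneousComponent (n + 1) (C c * P) = 0 :=
    homogeneousComponent_eq_zero _ _ (((totalDegree_mul _ _).trans (by simpa using hP)).trans_lt
      (Nat.lt_succ_self n))
  have h2 : ∀ i, homogeneousComponent (n + 1) (h * homogeneousComponent i P) =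
      if i = n then h * homogeneousComponent i P else 0 := by
    intro i
    have : (h * homogeneousComponent i P) ∈ homogeneousSubmodule (Fin 2) K (1 + i) :=
      hh.mul (homogeneousComponent_isHomogeneous i P)
    rw [homogeneousComponent_of_mem this]
    by_cases hi : i = n
    · rw [if_pos (by omega), if_pos hi]
    · rw [if_neg (by omega), if_neg hi]
  rw [add_mul, map_add, h1, add_zero]
  conv_lhs => rw [← sum_homogeneousComponent P]
  rw [Finset.mul_sum, map_sum, Finset.sum_congr rfl fun i _ => h2 i, Finset.sum_ite_eq']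
  split_ifs with hn
  · rfl
  · rw [homogeneousComponent_eq_zero _ _ (by simpa using hn), mul_zero]

theorem top_prod {K ι : Type} [CommRing K] (s : Finset ι) (h : ι → Pl K) (c : ι → K)
    (hh : ∀ m, (h m).IsHomogeneous 1) :
    homogeneousComponent s.card (∏ m ∈ s, (h m + C (c m))) = ∏ m ∈ s, h m := by
  classical
  induction s using Finset.induction_on with
  | empty => simp
  | insert m s hm ih =>
    rw [Finset.card_insert_of_notMem hm, Finset.prod_insert hm, Finset.prod_insert hm,
      top_mul _ _ _ _ (hh m) (deg_prod s h c hh), ih]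

theorem not_dvd_both {K : Type} [Field K] (p : Pl K) (hp : Prime p) (h0 : p ∣ X 0)
    (h1 : p ∣ X 1) : False := by
  have ha : Associated p (X 0) :=
    (hp.irreducible.associated_of_dvd (X_prime (i := (0 : Fin 2))).irreducible h0)
  have : (X 0 : Pl K) ∣ X 1 := ha.symm.dvd.trans h1
  rw [X_dvd_X] at this
  exact absurd this (by decide)

theorem dvd_of_C_mul {K : Type} [Field K] {p G : Pl K} {a : K} (ha : a ≠ 0) (h : p ∣ C a * G) :
    p ∣ G :=
  ((isUnit_iff_ne_zero.mpr ha).map (C : K →+* Pl K)).dvd_mul_left.mp h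

theorem two_lines {K : Type} [Field K] (p : Pl K) (hp : Prime p) (a b a' b' : K)
    (hd : a * b' - a' * b ≠ 0) (h : p ∣ C a * X 0 + C b * X 1) (h' : p ∣ C a' * X 0 + C b' * X 1) :
    False := by
  refine not_dvd_both p hp (dvd_of_C_mul hd ?_) (dvd_of_C_mul hd ?_)
  · have : (C (a * b' - a' * b) * X 0 : Pl K) =
        C b' * (C a * X 0 + C b * X 1) - C b * (C a' * X 0 + C b' * X 1) := by
      simp only [map_sub, map_mul]; ring
    rw [this]
    exact dvd_sub (h.mul_left _) (h'.mul_left _)
  · have : (C (a * b' - a' * b) * X 1 : Pl K) =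
        C a * (C a' * X 0 + C b' * X 1) - C a' * (C a * X 0 + C b * X 1) := by
      simp only [map_sub, map_mul]; ring
    rw [this]
    exact dvd_sub (h'.mul_left _) (h.mul_left _)

theorem copr : CoprS := by
  intro K _ _ d a b hd hab g hg0 hg1
  classical
  set l : Fin (d + 1) → Pl K := fun m => C (a m) * X 0 + C (b m) * X 1 with hl
  have hne : ∀ m, a m ≠ 0 ∨ b m ≠ 0 := by
    intro m
    have : Nontrivial (Fin (d + 1)) := Fin.nontrivial_iff_two_le.mpr (by omega)
    obtain ⟨k, hk⟩ := exists_ne m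
    by_contra hc
    push Not at hc
    exact hab k m hk (by rw [hc.1, hc.2]; ring)
  have d0 : ∀ m, pderiv 0 (l m) = C (a m) := fun m => by simp [hl, pderiv_X]
  have d1 : ∀ m, pderiv 1 (l m) = C (b m) := fun m => by simp [hl, pderiv_X]
  have hl0 : ∀ m, l m ≠ 0 := by
    intro m h
    have e0 := d0 m
    have e1 := d1 m
    rw [h, map_zero, eq_comm, C_eq_zero] at e0 e1
    exact (hne m).elim (fun h => h e0) fun h => h e1
  have hF : ∏ m, l m ≠ 0 := Finset.prod_ne_zero_iff.mpr fun m _ => hl0 m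
  have hE := (hom_prod Finset.univ l fun m => hom_lin _ _).sum_X_mul_pderiv
  rw [Fin.sum_univ_two, Finset.card_univ, Fintype.card_fin, nsmul_eq_mul,
    ← map_natCast (C : K →+* Pl K)] at hE
  have hgF : g ∣ ∏ m, l m := by
    refine dvd_of_C_mul (a := ((d + 1 : ℕ) : K)) (Nat.cast_ne_zero.mpr (by omega)) ?_
    rw [← hE]
    exact dvd_add (hg0.mul_left _) (hg1.mul_left _)
  by_contra hu
  obtain ⟨p, hp, hpg⟩ := WfDvdMonoid.exists_irreducible_factor hu (ne_zero_of_dvd_ne_zero hF hgF)
  have hp' : Prime p := hp.prime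
  obtain ⟨m, -, hm⟩ := (Prime.dvd_finsetProd_iff hp' l).mp (hpg.trans hgF)
  have hG : p ∣ ∏ k ∈ Finset.univ.erase m, l k := by
    have e := Finset.mul_prod_erase Finset.univ l (Finset.mem_univ m)
    have key : ∀ (i : Fin 2) (c : K), pderiv i (l m) = C c → c ≠ 0 →
        p ∣ pderiv i (∏ m, l m) → p ∣ ∏ k ∈ Finset.univ.erase m, l k := by
      intro i c hc hc0 h
      rw [← e, Derivation.leibniz, hc, smul_eq_mul, smul_eq_mul] at h
      have := (dvd_add_right (hm.mul_right _)).mp h
      rw [mul_comm] at this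
      exact dvd_of_C_mul hc0 this
    rcases hne m with h | h
    · exact key 0 _ (d0 m) h (hpg.trans hg0)
    · exact key 1 _ (d1 m) h (hpg.trans hg1)
  obtain ⟨k, hk, hk'⟩ := (Prime.dvd_finsetProd_iff hp' l).mp hG
  exact two_lines p hp' _ _ _ _ (hab k m (Finset.ne_of_mem_erase hk)) hk' hm

theorem sylg : OfSylg := by
  intro hS hC K Λ _ _ _ _ d a b u hd hab
  have e1 := deg_prod Finset.univ
    (fun m => (C (algebraMap K Λ (a m)) * X 0 + C (algebraMap K Λ (b m)) * X 1 : Pl Λ)) u
    fun m => hom_lin _ _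
  have e2 := top_prod Finset.univ
    (fun m => (C (algebraMap K Λ (a m)) * X 0 + C (algebraMap K Λ (b m)) * X 1 : Pl Λ)) u
    fun m => hom_lin _ _
  rw [Finset.card_univ, Fintype.card_fin] at e1 e2
  refine ⟨e1, fun m hm => ?_⟩
  have hF := hom_prod Finset.univ (fun m => (C (a m) * X 0 + C (b m) * X 1 : Pl K))
    fun m => hom_lin _ _
  rw [Finset.card_univ, Fintype.card_fin] at hF
  obtain ⟨α, β, hα, hβ, h⟩ := hS K d _ _ hd (hF.pderiv (i := 0)) (hF.pderiv (i := 1))
    (hC K d a b hd hab) m hm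
  refine ⟨map (algebraMap K Λ) α, map (algebraMap K Λ) β, hα.map _, hβ.map _, ?_⟩
  have e3 : (∏ m, (C (algebraMap K Λ (a m)) * X 0 + C (algebraMap K Λ (b m)) * X 1) : Pl Λ) =
      map (algebraMap K Λ) (∏ m, (C (a m) * X 0 + C (b m) * X 1 : Pl K)) := by
    simp only [map_prod, map_add, map_mul, map_C, map_X]
  rw [e2, e3, pderiv_map, pderiv_map, ← map_mul, ← map_mul, ← map_add, ← h, map_monomial,
    (algebraMap K Λ).map_one]

end CoprA

theorem rowCopr : CoprS ∧ OfSylg := ⟨CoprA.copr, CoprA.sylg⟩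

end Pool.Agent.MP_aa1ef7_ag.H20
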