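import Pool.Agent.MP_aa1ef7_ag.H20.Spec

/-! Degree reduction modulo polynomials in `f`. -/

namespace Pool.Agent.MP_aa1ef7_ag.H20

open MvPolynomial
open Pool.Agent.MP_aa1ef7_ag.H40

namespace DegA

/-- The substitution `x ↦ t`, `y ↦ t s`. -/
noncomputable def ph : Poly →ₐ[ℂ] Polynomial (Polynomial ℂ) :=
  aeval ![Polynomial.X, Polynomial.X * Polynomial.C Polynomial.X]

theorem ph_X0 : ph (X 0) = Polynomial.X := by simp [ph]

theorem ph_X1 : ph (X 1) = Polynomial.X * Polynomial.C Polynomial.X := by simp [ph]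

theorem ph_C (c : ℂ) : ph (C c) = Polynomial.C (Polynomial.C c) := by
  simp [ph, Polynomial.algebraMap_apply]

theorem ph_monomial (m : Fin 2 →₀ ℕ) (c : ℂ) :
    ph (monomial m c) = Polynomial.monomial (m 0 + m 1) (Polynomial.monomial (m 1) c) := by
  rw [monomial_eq, map_mul, ph_C, Finsupp.prod_fintype _ _ (by simp), Fin.prod_univ_two, map_mul,
    map_pow, map_pow, ph_X0, ph_X1, ← Polynomial.C_mul_X_pow_eq_monomial,
    ← Polynomial.C_mul_X_pow_eq_monomial, map_mul, map_pow]
  ring

theorem coeff_ph (r : Poly) (m : Fin 2 →₀ ℕ) :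
    ((ph r).coeff (m 0 + m 1)).coeff (m 1) = coeff m r := by
  classical
  induction r using MvPolynomial.induction_on' with
  | monomial u c =>
    rw [ph_monomial, Polynomial.coeff_monomial, coeff_monomial]
    by_cases h : u = m
    · subst h; simp
    · rw [if_neg h]
      split_ifs with h1
      · rw [Polynomial.coeff_monomial, if_neg]
        intro h2
        apply h
        ext i
        fin_cases i
        · simp only [Fin.zero_eta]; omega
        · simpa using h2
      · simp
  | add p q hp hq => simp [hp, hq]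

theorem natDegree_ph {n : ℕ} {r : Poly} (h : r.totalDegree ≤ n) : (ph r).natDegree ≤ n := by
  rw [r.as_sum, map_sum]
  refine Polynomial.natDegree_sum_le_of_forall_le _ _ fun m hm => ?_
  rw [ph_monomial]
  refine (Polynomial.natDegree_monomial_le _).trans ?_
  by_contra hc
  exact mem_support_iff.1 hm (deg_le_iff.1 h m (by omega))

theorem deg_drop {n : ℕ} {r : Poly} (h : r.totalDegree ≤ n + 1) (h0 : (ph r).coeff (n + 1) = 0) :
    r.totalDegree ≤ n := by
  refine deg_le_iff.2 fun m hm => ?_
  by_cases h1 : m 0 + m 1 = n + 1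
  · rw [← coeff_ph, h1, h0, Polynomial.coeff_zero]
  · exact deg_le_iff.1 h m (by omega)

theorem der_t (r : Poly) : Polynomial.derivative (ph r) =
    ph (pderiv 0 r) + Polynomial.C Polynomial.X * ph (pderiv 1 r) := by
  induction r using MvPolynomial.induction_on with
  | C a => simp
  | add p q hp hq => simp only [map_add, hp, hq]; ring
  | mul_X p m hp =>
    fin_cases m
    · simp [ph_X0, hp, pderiv_X]; ring
    · simp [ph_X1, hp, pderiv_X]; ring

theorem der_s (r : Poly) (k : ℕ) : Polynomial.derivative ((ph r).coeff k) =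
    (Polynomial.X * ph (pderiv 1 r)).coeff k := by
  induction r using MvPolynomial.induction_on generalizing k with
  | C a => rw [ph_C, Polynomial.coeff_C]; split_ifs <;> simp
  | add p q hp hq => simp only [map_add, Polynomial.coeff_add, hp, hq, mul_add]
  | mul_X p m hp =>
    fin_cases m
    · have e : Polynomial.X * ph (pderiv 1 (p * X 0)) =
          Polynomial.X * ph (pderiv 1 p) * Polynomial.X := by
        simp [ph_X0, pderiv_X]; ring
      simp only [Fin.zero_eta]
      rw [e, map_mul, ph_X0]
      rcases k with _ | k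
      · simp
      · rw [Polynomial.coeff_mul_X, Polynomial.coeff_mul_X, hp]
    · have e : Polynomial.X * ph (pderiv 1 (p * X 1)) =
          (ph p + Polynomial.X * ph (pderiv 1 p) * Polynomial.C Polynomial.X) * Polynomial.X := by
        simp [ph_X1, pderiv_X]; ring
      have e' : ph (p * X 1) = ph p * Polynomial.C Polynomial.X * Polynomial.X := by
        rw [map_mul, ph_X1]; ring
      simp only [Fin.mk_one]
      rw [e, e']
      rcases k with _ | k
      · simp
      · rw [Polynomial.coeff_mul_X, Polynomial.coeff_mul_X, Polynomial.coeff_add,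
          Polynomial.coeff_mul_C, Polynomial.coeff_mul_C, ← hp, Polynomial.derivative_mul]
        simp [add_comm]

theorem top_y (r : Poly) (k : ℕ) :
    (ph (pderiv 1 r)).coeff k = Polynomial.derivative ((ph r).coeff (k + 1)) := by
  rw [der_s, Polynomial.coeff_X_mul]

theorem top_x (r : Poly) (k : ℕ) : (ph (pderiv 0 r)).coeff k =
    (ph r).coeff (k + 1) * ((k : Polynomial ℂ) + 1) -
      Polynomial.X * Polynomial.derivative ((ph r).coeff (k + 1)) := by
  rw [← Polynomial.coeff_derivative, der_t, Polynomial.coeff_add, Polynomial.coeff_C_mul, top_y]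
  ring

theorem top_mul {i j : ℕ} {r s : Poly} (hr : r.totalDegree ≤ i) (hs : s.totalDegree ≤ j) :
    (ph (r * s)).coeff (i + j) = (ph r).coeff i * (ph s).coeff j := by
  rw [map_mul, Polynomial.coeff_mul_add_eq_of_natDegree_le (natDegree_ph hr) (natDegree_ph hs)]

theorem deg_lin (a : ℂ × ℂ × ℂ) : (lin a).totalDegree ≤ 1 := by
  refine (totalDegree_add _ _).trans (max_le ((totalDegree_add _ _).trans (max_le ?_ ?_)) ?_)
  · exact (totalDegree_mul _ _).trans (by simp)
  · exact (totalDegree_mul _ _).trans (by simp)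
  · simp

theorem top_lin (a : ℂ × ℂ × ℂ) : (ph (lin a)).coeff 1 =
    Polynomial.C a.2.1 * Polynomial.X + Polynomial.C a.1 := by
  simp [lin, ph_X0, ph_X1, Polynomial.coeff_C, add_comm]

variable {d : ℕ} (l : Fin (d + 1) → ℂ × ℂ × ℂ)

/-- The top form of `f` at `x = 1`. -/
noncomputable def gg : Polynomial ℂ :=
  ∏ m, (Polynomial.C (l m).2.1 * Polynomial.X + Polynomial.C (l m).1)

theorem top_ff : (ph (ff l)).coeff (d + 1) = gg l := by
  have h := Polynomial.coeff_prod_of_natDegree_le Finset.univ (fun m => ph (lin (l m))) 1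
    (fun m _ => natDegree_ph (deg_lin _))
  rw [ff, map_prod, gg]
  simpa [top_lin] using h

theorem top_DP {M : ℕ} {A : Poly} (h : A.totalDegree ≤ M + 1) :
    (ph (DP l A)).coeff (d + M) =
      ((M : Polynomial ℂ) + 1) * Polynomial.derivative (gg l) * (ph A).coeff (M + 1) -
        ((d : Polynomial ℂ) + 1) * gg l * Polynomial.derivative ((ph A).coeff (M + 1)) := by
  have e : DP l A = pderiv 1 (ff l) * pderiv 0 A - pderiv 0 (ff l) * pderiv 1 A := rfl
  rw [e, map_sub, Polynomial.coeff_sub,
    top_mul (deg_pderiv_le (deg_ff_le l) 1) (deg_pderiv_le h 0),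
    top_mul (deg_pderiv_le (deg_ff_le l) 0) (deg_pderiv_le h 1), top_x, top_x, top_y, top_y,
    top_ff]
  ring

theorem top_bet (hG : Geo l) (hL : Lin l) (m : Fin (d + 1)) :
    (ph (bet l m)).coeff (d - 1) = Polynomial.derivative (gg l) - ((d : Polynomial ℂ) + 1) *
      (Polynomial.C (l m).2.1 * ∏ k ∈ Finset.univ.erase m,
        (Polynomial.C (l k).2.1 * Polynomial.X + Polynomial.C (l k).1)) := by
  have h2 := hG.two
  have h1 := top_DP l (M := 0) (deg_lin (l m))
  rw [← hL.bet, show d + 0 = 1 + (d - 1) by omega, top_mul (deg_lin _) (hL.betdeg m), zero_add,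
    top_lin] at h1
  have h3 : Polynomial.C (l m).2.1 * Polynomial.X + Polynomial.C (l m).1 ≠ 0 := by
    intro h
    have := congrArg (fun p => Polynomial.coeff p 1) h
    simp at this
    exact hG.bne m this
  have h4 : gg l = (Polynomial.C (l m).2.1 * Polynomial.X + Polynomial.C (l m).1) *
      ∏ k ∈ Finset.univ.erase m,
        (Polynomial.C (l k).2.1 * Polynomial.X + Polynomial.C (l k).1) :=
    (Finset.mul_prod_erase _ _ (Finset.mem_univ m)).symm
  refine mul_left_cancel₀ h3 ?_
  rw [h1]
  generalize Polynomial.derivative (gg l) = g'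
  rw [h4]
  simp
  ring

theorem exists_top (N : ℕ) (Z : RL d) : ∃ A : MvPolynomial (Fin (d + 1)) (Polynomial ℂ),
    ∀ e, coeff e A = (ph (coeff e Z)).coeff N := by
  classical
  refine ⟨∑ e ∈ Z.support, monomial e ((ph (coeff e Z)).coeff N), fun e => ?_⟩
  simp only [coeff_sum, coeff_monomial, Finset.sum_ite_eq', mem_support_iff]
  split_ifs with h
  · rfl
  · rw [not_not.1 h]; simp

theorem step (hP : PoincS) (hO : OneS) (hG : Geo l) (hL : Lin l) (M : ℕ) (Z : RL d)
    (hs : ∑ m, pderiv m Z = 0) (hZ : ∀ e, (coeff e Z).totalDegree ≤ M + 1)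
    (hD : ∀ e, (coeff e (DL l Z)).totalDegree ≤ M + d - 1) :
    ∃ c : Polynomial ℂ, ∀ e, (coeff e (Z - C (Polynomial.aeval (ff l) c))).totalDegree ≤ M := by
  classical
  have h2 := hG.two
  obtain ⟨A, hA⟩ := exists_top (M + 1) Z
  have hA' : ∀ m e, coeff e (pderiv m A) = (ph (coeff e (pderiv m Z))).coeff (M + 1) := by
    intro m e
    rw [coeff_pderiv, coeff_pderiv, hA, map_mul, map_add, map_natCast, map_one,
      ← Nat.cast_succ, ← Nat.cast_succ, Polynomial.coeff_mul_natCast]
  have hZ' : ∀ m e, (coeff e (pderiv m Z)).totalDegree ≤ M + 1 := by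
    intro m e
    rw [coeff_pderiv, ← Nat.cast_succ, ← map_natCast (C : ℂ →+* Poly)]
    exact (totalDegree_mul _ _).trans (by rw [totalDegree_C, add_zero]; exact hZ _)
  have hsum : ∀ e, ∑ m, coeff e (pderiv m A) = 0 := by
    intro e
    simp only [hA']
    rw [← Polynomial.finsetSum_coeff, ← map_sum, ← coeff_sum, hs]
    simp
  obtain ⟨h1, h3⟩ := hO (Fin (d + 1)) Finset.univ (fun m => (l m).2.1) (fun m => (l m).1)
    (d + 1) (M + 1) A Finset.univ_nonempty (by omega) (fun m _ => hG.bne m)
    (fun m _ k _ hmk h => hG.gen.1 m k hmk (by linear_combination -h)) (fun e => by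
      have h0 : (ph (coeff e (DL l Z))).coeff (d + M) = 0 :=
        Polynomial.coeff_eq_zero_of_natDegree_lt ((natDegree_ph (hD e)).trans_lt (by omega))
      rw [DL, coeff_dext, derP_apply, map_add, Polynomial.coeff_add, top_DP l (hZ e), map_sum,
        Polynomial.finsetSum_coeff, ← hA] at h0
      have h5 : ∀ m, (ph (bet l m * coeff e (pderiv m Z))).coeff (d + M) =
          Polynomial.derivative (gg l) * coeff e (pderiv m A) - ((d : Polynomial ℂ) + 1) *
          (Polynomial.C (l m).2.1 * (∏ k ∈ Finset.univ.erase m,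
            (Polynomial.C (l k).2.1 * Polynomial.X + Polynomial.C (l k).1)) *
            coeff e (pderiv m A)) := by
        intro m
        rw [show d + M = (d - 1) + (M + 1) by omega, top_mul (hL.betdeg m) (hZ' m e),
          top_bet l hG hL, ← hA']
        ring
      simp only [h5, Finset.sum_sub_distrib, ← Finset.mul_sum, hsum] at h0
      change ((d + 1 : ℕ) : Polynomial ℂ) * (gg l * _ + _) =
        ((M + 1 : ℕ) : Polynomial ℂ) * Polynomial.derivative (gg l) * _
      push_cast
      linear_combination -h0)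
  have h4 := (hP (Polynomial ℂ) (Fin (d + 1))).2 A fun m => h1 m (Finset.mem_univ m)
  have h6 : ∀ e, e ≠ 0 → (coeff e Z).totalDegree ≤ M := fun e he =>
    deg_drop (hZ e) (by rw [← hA, h4, coeff_C, if_neg (Ne.symm he)])
  have h7 : ∀ c : Polynomial ℂ, (coeff 0 Z - Polynomial.aeval (ff l) c).totalDegree ≤ M →
      ∀ e, (coeff e (Z - C (Polynomial.aeval (ff l) c))).totalDegree ≤ M := by
    intro c hc e
    rw [coeff_sub, coeff_C]
    split_ifs with he
    · rw [← he]; exact hc
    · rw [sub_zero]; exact h6 e (Ne.symm he)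
  rcases h3 0 with h | ⟨⟨r, hr⟩, c, h⟩
  · exact ⟨0, h7 0 (by simpa using deg_drop (hZ 0) (by rw [← hA, h]))⟩
  · have hr' : (M + 1) / (d + 1) = r := by rw [hr, Nat.mul_div_cancel_left _ (by omega)]
    have e : Polynomial.aeval (ff l) (Polynomial.C c * Polynomial.X ^ r) = ff l ^ r * C c := by
      rw [map_mul, map_pow, Polynomial.aeval_X, Polynomial.aeval_C, algebraMap_eq, mul_comm]
    refine ⟨Polynomial.C c * Polynomial.X ^ r, h7 _ (deg_drop ?_ ?_)⟩
    · refine (totalDegree_sub _ _).trans (max_le (hZ 0) ?_)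
      rw [e]
      refine (deg_pow_mul l (n := 0) (by simp)).trans ?_
      rw [hr, zero_add, mul_comm]
    · rw [map_sub, Polynomial.coeff_sub, ← hA, h, e, map_mul, ph_C, Polynomial.coeff_mul_C,
        map_pow, hr', hr, mul_comm (d + 1) r,
        Polynomial.coeff_pow_of_natDegree_le (natDegree_ph (deg_ff_le l)), top_ff, mul_comm]
      exact sub_self _

end DegA

theorem rowDeg : OfDeg := by
  intro hP hO d l hG hL n Z hs hD
  have key : ∀ (k : ℕ) (Z : RL d), ∑ m, pderiv m Z = 0 →
      (∀ e, (coeff e (DL l Z)).totalDegree ≤ n + d - 1) →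
      (∀ e, (coeff e Z).totalDegree ≤ n + k) →
      ∃ c : Polynomial ℂ, ∀ e, (coeff e (Z - C (Polynomial.aeval (ff l) c))).totalDegree ≤ n := by
    intro k
    induction k with
    | zero => intro Z _ _ h; exact ⟨0, by simpa using h⟩
    | succ k ih =>
      intro Z hs hD h
      obtain ⟨c, hc⟩ := DegA.step l hP hO hG hL (n + k) Z hs h
        fun e => (hD e).trans (by omega)
      obtain ⟨c', hc'⟩ := ih (Z - C (Polynomial.aeval (ff l) c)) (by simpa using hs)
        (by
          rw [map_sub, DL, dext_C, derP_apply, DP, br_aeval, map_zero, sub_zero]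
          exact hD) hc
      exact ⟨c + c', by simpa only [map_add, sub_sub] using hc'⟩
  refine key (Z.support.sup fun e => (coeff e Z).totalDegree) Z hs hD fun e => ?_
  by_cases he : e ∈ Z.support
  · exact (Finset.le_sup (f := fun e => (coeff e Z).totalDegree) he).trans (Nat.le_add_left _ _)
  · rw [notMem_support_iff.1 he]; simp

end Pool.Agent.MP_aa1ef7_ag.H20
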