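import Pool.Agent.MP_aa1ef7_ag.H20.Spec
import Pool.Agent.MP_aa1ef7_ag.H40.Alg
import Pool.Agent.MP_aa1ef7_ag.H40.Zar

/-! Persistence of nondegenerate zeros, and density of centres in the logarithmic families. -/

namespace Pool.Agent.MP_aa1ef7_ag.H20

open MvPolynomial
open Pool.Agent.MP_aa1ef7_ag.H40

namespace DensA

/-- The value of a family of polynomials at a parameter and a point. -/
noncomputable def ev (R : Pl (Polynomial ℂ)) (x : ℂ × (Fin 2 → ℂ)) : ℂ :=
  eval x.2 (MvPolynomial.map (Polynomial.evalRingHom x.1) R)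

theorem ev_add (R S : Pl (Polynomial ℂ)) : ev (R + S) = fun x => ev R x + ev S x := by
  funext x; simp [ev]

theorem ev_mul (R S : Pl (Polynomial ℂ)) : ev (R * S) = fun x => ev R x * ev S x := by
  funext x; simp [ev]

theorem ev_strict (R : Pl (Polynomial ℂ)) (x : ℂ × (Fin 2 → ℂ)) :
    ∃ L : ℂ × (Fin 2 → ℂ) →L[ℂ] ℂ, HasStrictFDerivAt (ev R) L x ∧
      ∀ v, L (0, v) = v 0 * ev (pderiv 0 R) x + v 1 * ev (pderiv 1 R) x := by
  induction R using MvPolynomial.induction_on with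
  | C a =>
    have h1 : ev (C a) = fun x => a.eval x.1 := by funext x; simp [ev]
    have h2 := (a.hasStrictDerivAt x.1).comp_hasStrictFDerivAt x
      (hasStrictFDerivAt_fst (𝕜 := ℂ) (p := x))
    refine ⟨_, by rw [h1]; exact h2, fun v => ?_⟩
    simp [ev]
  | add a b ha hb =>
    obtain ⟨L, hL, hL'⟩ := ha
    obtain ⟨M, hM, hM'⟩ := hb
    refine ⟨L + M, ev_add a b ▸ hL.add hM, fun v => ?_⟩
    simp only [add_apply, hL', hM', map_add, ev_add]; ring
  | mul_X a m ha =>
    obtain ⟨L, hL, hL'⟩ := ha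
    have h1 : ev (X m) = fun x => x.2 m := by funext x; simp [ev]
    have h2 : HasStrictFDerivAt (fun x : ℂ × (Fin 2 → ℂ) => x.2 m)
        ((ContinuousLinearMap.proj m).comp (ContinuousLinearMap.snd ℂ ℂ (Fin 2 → ℂ))) x :=
      ((ContinuousLinearMap.proj m).comp
        (ContinuousLinearMap.snd ℂ ℂ (Fin 2 → ℂ))).hasStrictFDerivAt
    have h3 := hL.mul h2
    refine ⟨_, by rw [ev_mul, h1]; exact h3, fun v => ?_⟩
    simp only [add_apply, smul_apply, hL', smul_eq_mul,
      ContinuousLinearMap.comp_apply, ContinuousLinearMap.coe_snd', ContinuousLinearMap.proj_apply,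
      Derivation.leibniz, ev_add, ev_mul, h1]
    fin_cases m <;> simp [ev] <;> ring

theorem ev_cont (R : Pl (Polynomial ℂ)) : Continuous (ev R) :=
  continuous_iff_continuousAt.2 fun x => (ev_strict R x).choose_spec.1.continuousAt

theorem jac_ev (P Q : Pl (Polynomial ℂ)) (t : ℂ) (z : Fin 2 → ℂ) :
    jac (tay z (MvPolynomial.map (Polynomial.evalRingHom t) P))
      (tay z (MvPolynomial.map (Polynomial.evalRingHom t) Q)) =
    ev (pderiv 0 P) (t, z) * ev (pderiv 1 Q) (t, z) -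
      ev (pderiv 1 P) (t, z) * ev (pderiv 0 Q) (t, z) := by
  rw [jac_tay]; simp [ev, pderiv_map]

theorem pers : PersS := by
  intro P Q p hP hQ hj G hG
  obtain ⟨L, hL, hL'⟩ := ev_strict P (0, p)
  obtain ⟨M, hM, hM'⟩ := ev_strict Q (0, p)
  have hF := (hasStrictFDerivAt_fst (𝕜 := ℂ) (p := ((0 : ℂ), p))).prodMk (hL.prodMk hM)
  rw [jac_ev] at hj
  set a := ev (pderiv 0 P) (0, p)
  set b := ev (pderiv 1 P) (0, p)
  set c := ev (pderiv 0 Q) (0, p)
  set e := ev (pderiv 1 Q) (0, p)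
  have hs := hF.map_nhds_eq_of_surj (by
    rw [LinearMap.range_eq_top]
    rintro ⟨τ, u, w⟩
    let u' := u - L (τ, 0)
    let w' := w - M (τ, 0)
    obtain ⟨k, hk⟩ : ∃ k, (a * e - b * c) * k = 1 := ⟨_, mul_inv_cancel₀ hj⟩
    let v : Fin 2 → ℂ := ![(e * u' - b * w') * k, (a * w' - c * u') * k]
    refine ⟨(τ, v), ?_⟩
    have h0 : ((τ, v) : ℂ × (Fin 2 → ℂ)) = (τ, 0) + (0, v) := by simp
    have h1 : L (τ, v) = u := by
      rw [h0, map_add, hL']
      simp only [v, u', w', Matrix.cons_val_zero, Matrix.cons_val_one]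
      linear_combination (u - L (τ, 0)) * hk
    have h2 : M (τ, v) = w := by
      rw [h0, map_add, hM']
      simp only [v, u', w', Matrix.cons_val_zero, Matrix.cons_val_one]
      linear_combination (w - M (τ, 0)) * hk
    simp [h1, h2])
  have hU : ∀ᶠ x : ℂ × (Fin 2 → ℂ) in nhds (0, p),
      ev (pderiv 0 P) x * ev (pderiv 1 Q) x - ev (pderiv 1 P) x * ev (pderiv 0 Q) x ≠ 0 ∧
        ev G x ≠ 0 := by
    refine Filter.Eventually.and (ContinuousAt.eventually_ne ?_ hj)
      ((ev_cont G).continuousAt.eventually_ne hG)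
    exact (((ev_cont _).mul (ev_cont _)).sub ((ev_cont _).mul (ev_cont _))).continuousAt
  have h3 := Filter.image_mem_map (m := fun x : ℂ × (Fin 2 → ℂ) => (x.1, ev P x, ev Q x)) hU
  rw [hs] at h3
  have h4 : ev P (0, p) = 0 := hP
  have h5 : ev Q (0, p) = 0 := hQ
  simp only [h4, h5] at h3
  have h6 : ContinuousAt (fun t : ℂ => (t, (0 : ℂ), (0 : ℂ))) 0 := by fun_prop
  filter_upwards [h6.preimage_mem_nhds h3] with t ht
  obtain ⟨⟨t', z⟩, hx, he⟩ := ht
  simp only [Prod.mk.injEq] at he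
  obtain ⟨rfl, h7, h8⟩ := he
  exact ⟨z, h7, h8, by rw [jac_ev]; exact hx.1, hx.2⟩

section log

variable {K : Type} [CommRing K] {s : ℕ}

/-- The first component of a logarithmic form. -/
noncomputable def LP (f : Fin s → Pl K) (lam : Fin s → K) : Pl K :=
  ∑ i, (C (lam i) * ∏ j ∈ Finset.univ.erase i, f j) * pderiv 1 (f i)

/-- The second component of a logarithmic form. -/
noncomputable def LQ (f : Fin s → Pl K) (lam : Fin s → K) : Pl K :=
  ∑ i, (C (lam i) * ∏ j ∈ Finset.univ.erase i, f j) * -pderiv 0 (f i)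

theorem map_LP {K' : Type} [CommRing K'] (j : K →+* K') (f : Fin s → Pl K) (lam : Fin s → K) :
    MvPolynomial.map j (LP f lam) =
      LP (fun i => MvPolynomial.map j (f i)) (fun i => j (lam i)) := by
  simp [LP, pderiv_map]

theorem map_LQ {K' : Type} [CommRing K'] (j : K →+* K') (f : Fin s → Pl K) (lam : Fin s → K) :
    MvPolynomial.map j (LQ f lam) =
      LQ (fun i => MvPolynomial.map j (f i)) (fun i => j (lam i)) := by
  simp [LQ, pderiv_map]

theorem form_eq (f : Fin s → Poly) (lam : Fin s → ℂ) :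
    ∑ i, (C (lam i) * ∏ j ∈ Finset.univ.erase i, f j) • dform (f i) = (LP f lam, LQ f lam) := by
  ext1
  · simp [Prod.fst_sum, LP, dform]
  · simp [Prod.snd_sum, LQ, dform]

theorem deg_term {d : ℕ} {D : Fin s → ℕ} (hD : ∀ i, 0 < D i) (hs : ∑ i, D i = d + 1)
    {f : Fin s → Pl K} (hf : ∀ i, (f i).totalDegree ≤ D i) (c : K) (i : Fin s) (k : Fin 2) :
    ((C c * ∏ j ∈ Finset.univ.erase i, f j) * pderiv k (f i)).totalDegree ≤ d := by
  have h1 : (pderiv k (f i)).totalDegree ≤ D i - 1 :=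
    deg_pderiv_le (by have := hf i; have := hD i; omega) k
  have h2 : (∏ j ∈ Finset.univ.erase i, f j).totalDegree ≤ ∑ j ∈ Finset.univ.erase i, D j :=
    (totalDegree_finsetProd _ _).trans (Finset.sum_le_sum fun j _ => hf j)
  have h3 := Finset.add_sum_erase Finset.univ D (Finset.mem_univ i)
  have h4 := totalDegree_mul (C c : Pl K) (∏ j ∈ Finset.univ.erase i, f j)
  have h5 := totalDegree_mul (C c * ∏ j ∈ Finset.univ.erase i, f j) (pderiv k (f i))
  rw [totalDegree_C] at h4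
  have := hD i
  omega

theorem deg_LP {d : ℕ} {D : Fin s → ℕ} (hD : ∀ i, 0 < D i) (hs : ∑ i, D i = d + 1)
    {f : Fin s → Pl K} (hf : ∀ i, (f i).totalDegree ≤ D i) (lam : Fin s → K) :
    (LP f lam).totalDegree ≤ d :=
  totalDegree_finsetSum_le fun i _ => deg_term hD hs hf _ i 1

theorem deg_LQ {d : ℕ} {D : Fin s → ℕ} (hD : ∀ i, 0 < D i) (hs : ∑ i, D i = d + 1)
    {f : Fin s → Pl K} (hf : ∀ i, (f i).totalDegree ≤ D i) (lam : Fin s → K) :
    (LQ f lam).totalDegree ≤ d :=
  totalDegree_finsetSum_le fun i _ => by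
    rw [mul_neg, totalDegree_neg]; exact deg_term hD hs hf _ i 0

theorem pderiv_prod' {ι : Type} [DecidableEq ι] (T : Finset ι) (f : ι → Pl K) (k : Fin 2) :
    pderiv k (∏ j ∈ T, f j) = ∑ i ∈ T, (∏ j ∈ T.erase i, f j) * pderiv k (f i) := by
  induction T using Finset.induction_on with
  | empty => simp
  | insert a T ha ih =>
    rw [Finset.prod_insert ha, Finset.sum_insert ha, Finset.erase_insert ha, Derivation.leibniz,
      ih, smul_eq_mul, smul_eq_mul, Finset.mul_sum, add_comm]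
    congr 1
    refine Finset.sum_congr rfl fun i hi => ?_
    have hne : a ≠ i := fun h => ha (h ▸ hi)
    rw [Finset.erase_insert_of_ne hne, Finset.prod_insert (fun h => ha (Finset.mem_of_mem_erase h)),
      mul_assoc]

theorem LP_one (f : Fin s → Pl K) : LP f (fun _ => 1) = pderiv 1 (∏ j, f j) := by
  simp [LP, pderiv_prod']

theorem LQ_one (f : Fin s → Pl K) : LQ f (fun _ => 1) = -pderiv 0 (∏ j, f j) := by
  simp [LQ, pderiv_prod']

theorem map_top {K' : Type} [CommRing K'] (j : K →+* K') (n : ℕ) (R : Pl K) :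
    MvPolynomial.map j (homogeneousComponent n R) =
      homogeneousComponent n (MvPolynomial.map j R) := by
  ext m
  simp only [coeff_map, coeff_homogeneousComponent]
  split_ifs <;> simp

theorem deg_map {K' : Type} [CommRing K'] (j : K →+* K') {n : ℕ} {R : Pl K}
    (h : R.totalDegree ≤ n) : (MvPolynomial.map j R).totalDegree ≤ n :=
  deg_le_iff.2 fun m hm => by rw [coeff_map, deg_le_iff.1 h m hm, map_zero]

theorem spec [Algebra ℂ K] (e : K →ₐ[ℂ] ℂ) (P Q : Pl K) (Φ : MvPolynomial CI ℂ) :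
    e (aeval (coordsK P Q) Φ) =
      eval (coords (MvPolynomial.map e.toRingHom P, MvPolynomial.map e.toRingHom Q)) Φ := by
  have h : ∀ i, e (coordsK P Q i) =
      coords (MvPolynomial.map e.toRingHom P, MvPolynomial.map e.toRingHom Q) i := by
    rintro ⟨_ | _, m⟩ <;> simp [coordsK, coords, coeff_map]
  induction Φ using MvPolynomial.induction_on with
  | C a => simp
  | add a b ha hb => simp only [map_add, ha, hb]
  | mul_X a m ha => simp only [map_mul, ha, aeval_X, eval_X, h]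

end log

theorem cop_of_syl {d : ℕ} {G H : Poly} {c : ℂ} (hc : c ≠ 0)
    (h : ∀ m : Fin 2 →₀ ℕ, m 0 + m 1 = 2 * d - 1 → ∃ α β : Poly, monomial m c = α * G + β * H) :
    IsRelPrime G H := by
  intro r h1 h2
  have key : ∀ i : Fin 2, r ∣ X i ^ (2 * d - 1) := by
    intro i
    obtain ⟨α, β, he⟩ := h (Finsupp.single i (2 * d - 1)) (by fin_cases i <;> simp)
    have h3 : r ∣ monomial (Finsupp.single i (2 * d - 1)) c :=
      he ▸ dvd_add (h1.mul_left _) (h2.mul_left _)
    rw [← C_mul_X_pow_eq_monomial] at h3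
    exact ((isUnit_iff_ne_zero.2 hc).map C).dvd_mul_left.1 h3
  have h4 : IsRelPrime (X 0 : Poly) (X 1) :=
    (X_prime.irreducible.isRelPrime_iff_not_dvd).2 (by rw [X_dvd_X]; decide)
  exact h4.pow (key 0) (key 1)

theorem ne_of_cop {d : ℕ} (hd : 1 ≤ d) {G H : Poly} (hH : H.IsHomogeneous d)
    (h : IsRelPrime G H) : G ≠ 0 := by
  rintro rfl
  have h1 : IsUnit H := h (dvd_zero _) dvd_rfl
  have h2 := (isUnit_iff_totalDegree_of_isReduced.1 h1).2
  rw [hH.totalDegree h1.ne_zero] at h2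
  omega

theorem rat_case (hS : SylaS) (hL : LogcS) (hP : PersS) {d : ℕ} {l : Fin (d + 1) → ℂ × ℂ × ℂ}
    (hg : Geo l) (hj : Jac l) {p : Fin 2 → ℂ} (hp : Face l p) (hh : hess (tay p (ff l)) ≠ 0)
    {s : ℕ} {D : Fin s → ℕ} (hD : ∀ i, 0 < D i) (hs : ∑ i, D i = d + 1)
    {Φ : MvPolynomial CI ℂ}
    (hΦ : ∀ w : Poly × Poly, IsRelPrime w.1 w.2 → max w.1.totalDegree w.2.totalDegree = d →
      (∃ z, IsCenter w z) → eval (coords w) Φ = 0)
    (f : Fin s → Poly) (hf : ∀ i, (f i).totalDegree ≤ D i) (lam : Fin s → ℚ) :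
    eval (coords (LP f fun i => (lam i : ℂ), LQ f fun i => (lam i : ℂ))) Φ = 0 := by
  have hd : 1 ≤ d := le_trans (by norm_num) hg.two
  let E : (i : Fin s) × Fin (D i) ≃ Fin (d + 1) := finSigmaFinEquiv.trans (finCongr hs)
  let f0 : Fin s → Poly := fun i => ∏ k : Fin (D i), lin (l (E ⟨i, k⟩))
  have hf0 : ∀ i, (f0 i).totalDegree ≤ D i := fun i => prod_deg _
  have hpr : ∏ i, f0 i = ff l := by
    rw [ff, ← E.prod_comp, Fintype.prod_sigma]
  let F : Fin s → Pl (Polynomial ℂ) := fun i => MvPolynomial.map Polynomial.C (f0 i) +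
    C Polynomial.X * MvPolynomial.map Polynomial.C (f i - f0 i)
  let Λ : Fin s → Polynomial ℂ := fun i => 1 + Polynomial.X * Polynomial.C ((lam i : ℂ) - 1)
  have hF : ∀ i, (F i).totalDegree ≤ D i := fun i => by
    refine deg_le_iff.2 fun m hm => ?_
    simp [F, coeff_map, deg_le_iff.1 (hf i) m hm, deg_le_iff.1 (hf0 i) m hm]
  have hid : ∀ t : ℂ, (Polynomial.evalRingHom t).comp Polynomial.C = RingHom.id ℂ := fun t => by
    ext; simp
  have hFt : ∀ (t : ℂ) i, MvPolynomial.map (Polynomial.evalRingHom t) (F i) =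
      f0 i + C t * (f i - f0 i) := fun t i => by
    simp only [F, map_add, map_mul, map_map, hid, map_id, map_C, Polynomial.coe_evalRingHom,
      Polynomial.eval_X]
  have hΛ : ∀ (t : ℂ) i, Polynomial.evalRingHom t (Λ i) = 1 + t * ((lam i : ℂ) - 1) :=
    fun t i => by simp [Λ]
  have hP0 : MvPolynomial.map (Polynomial.evalRingHom 0) (LP F Λ) = pderiv 1 (ff l) := by
    rw [map_LP, ← hpr, ← LP_one]; simp only [hFt, hΛ]; simp
  have hQ0 : MvPolynomial.map (Polynomial.evalRingHom 0) (LQ F Λ) = -pderiv 0 (ff l) := by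
    rw [map_LQ, ← hpr, ← LQ_one]; simp only [hFt, hΛ]; simp
  have hae : ∀ t : ℂ, (Polynomial.aeval t : Polynomial ℂ →ₐ[ℂ] ℂ).toRingHom =
      Polynomial.evalRingHom t := fun t => by ext <;> simp
  obtain ⟨Δ, hΔ, hΔ'⟩ := hS (Polynomial ℂ) (Polynomial.aeval 0) d
    (homogeneousComponent d (LP F Λ)) (homogeneousComponent d (LQ F Λ)) hd
    (homogeneousComponent_isHomogeneous _ _) (homogeneousComponent_isHomogeneous _ _) (by
      rw [hae, map_top, map_top, hP0, hQ0, map_neg]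
      exact hj.cop.symm.neg_right)
  have h1 := hP (LP F Λ) (LQ F Λ) p (by rw [hP0]; exact hp.1 1)
    (by rw [hQ0, map_neg, hp.1 0, neg_zero])
    (by rw [hP0, hQ0, map_neg, ← dS_tay, ← dS_tay, jac_ham]; exact hh) (∏ i, F i) (by
      simp only [map_prod, hFt, C_0, zero_mul, add_zero]
      rw [← map_prod, hpr, ff, map_prod]
      exact Finset.prod_ne_zero_iff.2 fun m _ => hp.2 m)
  have h2 : ∀ᶠ t : ℂ in nhds 0, Δ.eval t ≠ 0 :=
    Δ.continuous.continuousAt.eventually_ne (by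
      have : Δ.eval 0 = 1 := by simpa [Polynomial.coeff_zero_eq_eval_zero] using hΔ
      rw [this]; exact one_ne_zero)
  have h3 : Filter.Tendsto (fun n : ℕ => (((1 / ((n : ℚ) + 1) : ℚ)) : ℂ)) Filter.atTop (nhds 0) := by
    have := (Complex.continuous_ofReal.tendsto 0).comp tendsto_one_div_add_atTop_nhds_zero_nat
    refine (this.congr fun n => ?_).trans (by simp)
    simp
  have h4 : ∀ᶠ n : ℕ in Filter.atTop, ∀ i, 0 < 1 + 1 / ((n : ℚ) + 1) * (lam i - 1) := by
    refine Filter.eventually_all.2 fun i => ?_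
    obtain ⟨N, hN⟩ := exists_nat_gt (-lam i)
    filter_upwards [Filter.eventually_ge_atTop N] with n hn
    have h5 : (N : ℚ) ≤ n := by exact_mod_cast hn
    have h6 : (0 : ℚ) < n + 1 := by positivity
    have h7 : 1 + 1 / ((n : ℚ) + 1) * (lam i - 1) = (n + lam i) / (n + 1) := by
      field_simp; ring
    rw [h7]; exact div_pos (by linarith) h6
  set Ψ : Polynomial ℂ := aeval (coordsK (LP F Λ) (LQ F Λ)) Φ with hΨ
  have hΨt : ∀ t : ℂ, Ψ.eval t = eval (coords
      (MvPolynomial.map (Polynomial.evalRingHom t) (LP F Λ),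
        MvPolynomial.map (Polynomial.evalRingHom t) (LQ F Λ))) Φ := fun t => by
    rw [← hae, ← spec, hΨ]; simp
  have h9 : ∀ᶠ n : ℕ in Filter.atTop, Ψ.IsRoot (((1 / ((n : ℚ) + 1) : ℚ)) : ℂ) := by
    filter_upwards [h3.eventually h1, h3.eventually h2, h4] with n hn1 hn2 hn3
    set t : ℂ := (((1 / ((n : ℚ) + 1) : ℚ)) : ℂ) with ht
    obtain ⟨z, hz1, hz2, hz3, hz4⟩ := hn1
    rw [Polynomial.IsRoot, hΨt]
    set P := MvPolynomial.map (Polynomial.evalRingHom t) (LP F Λ) with hPd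
    set Q := MvPolynomial.map (Polynomial.evalRingHom t) (LQ F Λ) with hQd
    have dP : P.totalDegree ≤ d := deg_map _ (deg_LP hD hs hF Λ)
    have dQ : Q.totalDegree ≤ d := deg_map _ (deg_LQ hD hs hF Λ)
    have hc : IsRelPrime (homogeneousComponent d P) (homogeneousComponent d Q) := by
      refine cop_of_syl (d := d) hn2 fun m hm => ?_
      obtain ⟨α, β, -, -, he⟩ := hΔ' m hm
      have := congrArg (MvPolynomial.map (Polynomial.evalRingHom t)) he
      rw [map_add, map_mul, map_mul, map_top, map_top, map_monomial] at this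
      exact ⟨_, _, this⟩
    have nP := ne_of_cop hd (homogeneousComponent_isHomogeneous _ _) hc
    have nQ := ne_of_cop hd (homogeneousComponent_isHomogeneous _ _) hc.symm
    refine hΦ (P, Q) (relPrime_of_top dP dQ nP nQ hc)
      (by simp only [deg_eq_of_top dP nP, deg_eq_of_top dQ nQ, max_self]) ⟨z, ?_⟩
    refine hL s (fun i => MvPolynomial.map (Polynomial.evalRingHom t) (F i))
      (fun i => 1 + 1 / ((n : ℚ) + 1) * (lam i - 1)) z (P, Q) hn3 ?_ ?_ hz1 hz2 hz3
    · intro i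
      rw [map_prod, map_prod] at hz4
      exact Finset.prod_ne_zero_iff.1 hz4 i (Finset.mem_univ i)
    · rw [form_eq, hPd, hQd, map_LP, map_LQ]
      have : (fun i => Polynomial.evalRingHom t (Λ i)) =
          fun i => ((1 + 1 / ((n : ℚ) + 1) * (lam i - 1) : ℚ) : ℂ) := by
        funext i; rw [hΛ, ht]; push_cast; ring
      rw [this]
  have h10 : Ψ = 0 := by
    apply Polynomial.eq_zero_of_infinite_isRoot
    have hinj : Function.Injective fun n : ℕ => (((1 / ((n : ℚ) + 1) : ℚ)) : ℂ) := by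
      intro a b hab
      have h11 : (1 / ((a : ℚ) + 1) : ℚ) = 1 / ((b : ℚ) + 1) := Rat.cast_injective (α := ℂ) hab
      simpa using h11
    rw [← Nat.cofinite_eq_atTop] at h9
    refine ((Set.infinite_of_finite_compl h9).image hinj.injOn).mono ?_
    rintro _ ⟨n, hn, rfl⟩
    exact hn
  have h12 := hΨt 1
  rw [h10, Polynomial.eval_zero, map_LP, map_LQ] at h12
  simp only [hFt, hΛ, C_1, one_mul, add_sub_cancel] at h12
  exact h12.symm

theorem dens : OfDens := by
  intro hS hL hP d l hg _ hj p hp hh s D hD hs F hF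
  rintro Z ⟨⟨S, hS', rfl⟩, hZ⟩ Φ hΦ
  obtain ⟨n, hn⟩ := hS' Φ hΦ
  obtain ⟨f, lam, hf, v, hv, hw, rfl⟩ := hF
  rw [eval_rep_iff hn, hw, form_eq]
  have key : ∀ w : Poly × Poly, IsRelPrime w.1 w.2 → max w.1.totalDegree w.2.totalDegree = d →
      (∃ z, IsCenter w z) → eval (coords w) Φ = 0 := by
    intro w h1 h2 h3
    have hm : w ∈ Form d := ⟨(mem_restrictTotalDegree _ _ _).2 (h2 ▸ le_max_left _ _),
      (mem_restrictTotalDegree _ _ _).2 (h2 ▸ le_max_right _ _)⟩
    have hne : (⟨w, hm⟩ : Form d) ≠ 0 := by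
      intro h0
      have h4 : w = 0 := congrArg Subtype.val h0
      rw [h4] at h1
      exact not_isUnit_zero (h1 dvd_rfl dvd_rfl)
    have := hZ (a := Projectivization.mk ℂ ⟨w, hm⟩ hne) ⟨w, ⟨_, hne, rfl, rfl⟩, h1, h2, h3⟩ Φ hΦ
    exact (eval_rep_iff hn _ hne).1 this
  let f' : Fin s → Pl (MvPolynomial (Fin s) ℂ) := fun i => MvPolynomial.map C (f i)
  set Ψ : MvPolynomial (Fin s) ℂ := aeval (coordsK (LP f' X) (LQ f' X)) Φ with hΨ
  have hΨt : ∀ x : Fin s → ℂ, eval x Ψ = eval (coords (LP f x, LQ f x)) Φ := fun x => by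
    have h1 := spec (aeval x : MvPolynomial (Fin s) ℂ →ₐ[ℂ] ℂ) (LP f' X) (LQ f' X) Φ
    have hid : (aeval x : MvPolynomial (Fin s) ℂ →ₐ[ℂ] ℂ).toRingHom.comp C = RingHom.id ℂ := by
      ext; simp
    rw [map_LP, map_LQ] at h1
    simp only [f', map_map, hid, map_id] at h1
    rw [← hΨ] at h1
    simpa using h1
  have h0 : Ψ = 0 := by
    refine MvPolynomial.funext_set (fun _ => Set.range ((↑) : ℚ → ℂ))
      (fun _ => Set.infinite_range_of_injective Rat.cast_injective) fun x hx => ?_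
    choose q hq using fun i => hx i (Set.mem_univ i)
    rw [map_zero, hΨt, ← funext hq]
    exact rat_case hS hL hP hg hj hp hh hD hs key f hf q
  rw [← hΨt, h0, map_zero]

end DensA

theorem rowDens : PersS ∧ OfDens := ⟨DensA.pers, DensA.dens⟩

end Pool.Agent.MP_aa1ef7_ag.H20
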