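import Pool.Agent.MP_aa1ef7_ag.H20.Spec

/-! Division and closure properties of the charts. -/

namespace Pool.Agent.MP_aa1ef7_ag.H20

open MvPolynomial
open Pool.Agent.MP_aa1ef7_ag.H40

namespace DvA

variable {d : ℕ} {l : Fin (d + 1) → ℂ × ℂ × ℂ}

theorem syzL (hJ : Jac l) {Z W : RL d}
    (h : Z * C (pderiv 0 (ff l)) + W * C (pderiv 1 (ff l)) = 0) :
    ∃ V : RL d, Z = V * C (pderiv 1 (ff l)) ∧ W = -(V * C (pderiv 0 (ff l))) := by
  classical
  have h1 : ∀ e, coeff e Z * pderiv 0 (ff l) + coeff e W * pderiv 1 (ff l) = 0 := fun e => by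
    have := congrArg (coeff e) h
    rwa [coeff_add, mul_comm Z, mul_comm W, coeff_C_mul, coeff_C_mul, mul_comm, mul_comm _ (coeff e W),
      coeff_zero] at this
  choose c hc1 hc2 using fun e => hJ.syz _ _ (h1 e)
  have hV : ∀ e, coeff e (∑ e ∈ Z.support, monomial e (c e) : RL d) = c e := fun e => by
    rw [coeff_sum]
    simp only [coeff_monomial, Finset.sum_ite_eq', mem_support_iff]
    split_ifs with h2
    · rfl
    · rw [hc1 e, not_not, mul_eq_zero] at h2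
      exact (h2.resolve_right (hJ.ned 1)).symm
  refine ⟨∑ e ∈ Z.support, monomial e (c e), ?_, ?_⟩
  · refine MvPolynomial.ext _ _ fun e => ?_
    rw [mul_comm, coeff_C_mul, hV, hc1, mul_comm]
  · refine MvPolynomial.ext _ _ fun e => ?_
    rw [coeff_neg, mul_comm, coeff_C_mul, hV, hc2, mul_comm]

theorem cB_ne (hB : Bas l) {r : Poly} (hr : r ≠ 0) : cB l r ≠ 0 :=
  fun h => hr (hB.cinj (h.trans (map_zero _).symm))

theorem divL (hJ : Jac l) (hB : Bas l) {G : Poly} {c : BB l} {N M : ℕ} {Z W : RL d}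
    (hZ : iB l Z = cB l G ^ N * (c * cB l (pderiv 0 (ff l))))
    (hW : iB l W = cB l G ^ M * (c * cB l (pderiv 1 (ff l)))) :
    ∃ V : RL d, iB l V = cB l G ^ (N + M) * c ∧ C (G ^ N) * W = V * C (pderiv 1 (ff l)) := by
  have := hB.dom
  obtain ⟨V, h1, -⟩ := syzL hJ (Z := C (G ^ N) * W) (W := -(C (G ^ M) * Z)) (hB.iinj (by
    simp only [map_add, map_mul, map_neg, iB_C, hZ, hW, map_pow, map_zero]
    ring))
  refine ⟨V, mul_right_cancel₀ (cB_ne hB (hJ.ned 1)) ?_, h1⟩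
  have h2 := congrArg (iB l) h1
  simp only [map_mul, iB_C, hW, map_pow] at h2
  rw [← h2]
  ring

theorem topdiv (hJ : Jac l) (hB : Bas l) {a b : BB l}
    (h : a * dB l 0 (cB l (ff l)) + b * dB l 1 (cB l (ff l)) = 0) :
    ∃ c, a = c * dB l 1 (cB l (ff l)) ∧ b = -(c * dB l 0 (cB l (ff l))) := by
  rw [dB_cB, dB_cB] at h ⊢
  obtain ⟨N, Z, hZ⟩ := hB.clear a
  obtain ⟨M, W, hW⟩ := hB.clear b
  obtain ⟨V, h1, h2⟩ := syzL hJ (Z := C (ff l ^ M) * Z) (W := C (ff l ^ N) * W) (hB.iinj (by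
    simp only [map_add, map_mul, iB_C, hZ, hW, map_pow, map_zero]
    linear_combination cB l (ff l) ^ (N + M) * h))
  obtain ⟨u, hu⟩ := (hB.unit.pow (N + M)).exists_left_inv
  have h3 := congrArg (iB l) h1
  have h4 := congrArg (iB l) h2
  simp only [map_mul, map_neg, iB_C, hZ, hW, map_pow] at h3 h4
  exact ⟨u * iB l V, by linear_combination u * h3 - a * hu, by linear_combination u * h4 - b * hu⟩

theorem pd_cmul (hB : Bas l) (m : Fin (d + 1)) (r : Poly) (A : BB l) :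
    pderiv m (cB l r * A) = cB l r * pderiv m A := by
  rw [Derivation.leibniz, hB.Lc, smul_zero, add_zero, smul_eq_mul]

theorem si_cancel (hB : Bas l) {I : Finset (Fin (d + 1))} {c : BB l} {r : Poly} (hr : r ≠ 0)
    (h : c * cB l r ∈ SI l I) : c ∈ SI l I := fun i hi => by
  have := hB.dom
  have h1 := h i hi
  rw [mul_comm, pd_cmul hB, mul_eq_zero] at h1
  exact h1.resolve_left (cB_ne hB hr)

theorem rp_cancel (hB : Bas l) {c : BB l} {r : Poly} (hr : r ≠ 0) (h : c * cB l r ∈ RP l) :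
    c ∈ RP l := by
  have := hB.dom
  have h1 : subP l (cB l r) = cB l r := hB.pc _
  rw [mem_RP, map_mul, h1] at h
  exact mul_right_cancel₀ (cB_ne hB hr) h

theorem pd_clear (hB : Bas l) {G : Poly} {N : ℕ} {Z : RL d} {A : BB l}
    (hZ : iB l Z = cB l G ^ N * A) (m : Fin (d + 1)) :
    iB l (pderiv m Z) = cB l G ^ N * pderiv m A := by
  rw [← hB.Li, hZ, ← map_pow, pd_cmul hB]

/-- The coefficientwise derivative. -/
noncomputable def dc (d : ℕ) (i : Fin 2) : Derivation ℂ (RL d) (RL d) :=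
  dext (dP i) fun _ => C 0

theorem coeff_dc (i : Fin 2) (Z : RL d) (e : Fin (d + 1) →₀ ℕ) :
    coeff e (dc d i Z) = pderiv i (coeff e Z) := by
  rw [dc, coeff_dext (dP i) (fun _ => 0)]
  simp [dP]

theorem dB_iB (hB : Bas l) (i : Fin 2) (Z : RL d) : dB l i (iB l Z) =
    iB l (dc d i Z) + ∑ m, C (dir i (l m) • linv l m) * iB l (pderiv m Z) := by
  refine MvPolynomial.ext _ _ fun e => ?_
  rw [dB, coeff_dext, coeff_add, coeff_sum]
  simp only [coeff_C_mul, hB.Li]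
  simp only [iB, coeff_map, coeff_dc, dT_alg]

theorem key (hB : Bas l) {G : Poly} {I : Finset (Fin (d + 1))} {q : Fin (d + 1) → Poly}
    (hq : ∀ m, m ∉ I → lin (l m) * q m = G) {A : BB l} (hA : A ∈ SI l I) {N : ℕ} {Z : RL d}
    (hZ : iB l Z = cB l G ^ N * A) (i : Fin 2) :
    iB l (C G * dc d i Z + ∑ m, C (C (dir i (l m)) * q m) * pderiv m Z
      - C ((N : Poly) * pderiv i G) * Z) = cB l G ^ (N + 1) * dB l i A := by
  have h1 : ∀ m, cB l G * (C (dir i (l m) • linv l m) * iB l (pderiv m Z)) =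
      iB l (C (C (dir i (l m)) * q m) * pderiv m Z) := fun m => by
    by_cases hm : m ∈ I
    · rw [map_mul, pd_clear hB hZ, hA m hm]
      simp
    · rw [map_mul, iB_C, ← mul_assoc, ← hq m hm]
      congr 1
      simp only [cB, RingHom.comp_apply]
      rw [← C_mul]
      congr 1
      rw [map_mul, map_mul, mul_smul_comm, mul_right_comm, lin_mul_linv, one_mul,
        ← algebraMap_eq, ← IsScalarTower.algebraMap_apply, Algebra.smul_def]
  have h2 : cB l G * dB l i (cB l G ^ N) = N * cB l (pderiv i G) * cB l G ^ N := by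
    rw [Derivation.leibniz_pow, dB_cB]
    cases N with
    | zero => simp
    | succ n => simp only [Nat.add_sub_cancel, smul_eq_mul, nsmul_eq_mul]; ring
  have h3 := dB_iB hB i Z
  rw [hZ, Derivation.leibniz, smul_eq_mul, smul_eq_mul] at h3
  rw [map_sub, map_add, map_sum, ← Finset.sum_congr rfl fun m _ => h1 m, ← Finset.mul_sum,
    map_mul, map_mul, iB_C, iB_C, map_mul, map_natCast, hZ]
  linear_combination (-cB l G) * h3 + A * h2

theorem deg_lin (a : ℂ × ℂ × ℂ) : (lin a).totalDegree ≤ 1 := by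
  refine (totalDegree_add _ _).trans (max_le ((totalDegree_add _ _).trans (max_le ?_ ?_)) ?_)
  · exact (totalDegree_mul _ _).trans (by simp)
  · exact (totalDegree_mul _ _).trans (by simp)
  · simp

theorem deg_gI (m : Fin (d + 1)) : (gI l {m}).totalDegree ≤ d := by
  refine (totalDegree_finsetProd _ _).trans ?_
  refine (Finset.sum_le_card_nsmul _ _ 1 fun m _ => deg_lin _).trans ?_
  simp [Finset.card_compl]

theorem deg_mul_le {a b : Poly} {n k : ℕ} (ha : a.totalDegree ≤ n) (hb : b.totalDegree ≤ k) :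
    (a * b).totalDegree ≤ n + k := (totalDegree_mul _ _).trans (add_le_add ha hb)

theorem deg_coeff_pd {Z : RL d} {n : ℕ} (h : ∀ e, (coeff e Z).totalDegree ≤ n) (m : Fin (d + 1))
    (e : Fin (d + 1) →₀ ℕ) : (coeff e (pderiv m Z)).totalDegree ≤ n := by
  rw [coeff_pderiv]
  have h1 : ((e m : Poly) + 1).totalDegree ≤ 0 := by
    rw [← Nat.cast_succ, ← map_natCast (C : ℂ →+* Poly), totalDegree_C]
  exact deg_mul_le (h _) h1

theorem deg_pow (hL : Lin l) (N : ℕ) : (ff l ^ N).totalDegree = N * (d + 1) := by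
  induction N with
  | zero => simp
  | succ n ih =>
    rw [pow_succ, totalDegree_mul_of_isDomain (pow_ne_zero _ hL.ne) hL.ne, ih, hL.deg]
    ring

theorem deg_cancel (hJ : Jac l) {v : Poly} {n : ℕ}
    (h : (v * pderiv 1 (ff l)).totalDegree ≤ d + n) : v.totalDegree ≤ n := by
  by_cases hv : v = 0
  · simp [hv]
  · rw [totalDegree_mul_of_isDomain hv (hJ.ned 1), hJ.degd] at h
    omega

theorem logfree (hP : PoincS) (hB : Bas l) {G : Poly} {N : ℕ} {Z : RL d} {A : BB l}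
    (hZ : iB l Z = cB l G ^ N * A) (hA : ∀ m, pderiv m A = 0) :
    ∃ r, cB l r = cB l G ^ N * A := by
  refine ⟨coeff 0 Z, ?_⟩
  rw [← hZ, ← iB_C, ← (hP Poly (Fin (d + 1))).2 Z fun m => hB.iinj ?_]
  rw [pd_clear hB hZ, hA, mul_zero, map_zero]

theorem riall (hP : PoincS) (hL : Lin l) (hB : Bas l) (A : BB l) (h : ∀ i, A ∈ RI l {i}) :
    ∃ r, A = cB l r := by
  have := hB.dom
  have hA : ∀ m, pderiv m A = 0 := fun m => (h m).1 m (Finset.mem_singleton_self m)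
  obtain ⟨N, Z, hZ⟩ := hB.clear A
  obtain ⟨r, hr⟩ := logfree hP hB hZ hA
  have h1 : ∀ i, lin (l i) ^ N ∣ r := fun i => by
    obtain ⟨M, W, hW⟩ := (h i).2
    obtain ⟨s, hs⟩ := logfree hP hB hW hA
    have h2 : gI l {i} ^ M * r = ff l ^ N * s := hB.cinj (by
      simp only [map_mul, map_pow, hr, hs]
      ring)
    refine (hL.prime i).pow_dvd_of_dvd_mul_left N (a := gI l {i} ^ M) (fun h3 => ?_) ?_
    · obtain ⟨m, hm, h4⟩ := ((hL.prime i).dvd_finsetProd_iff _).1 ((hL.prime i).dvd_of_dvd_pow h3)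
      exact hL.ndvd i m (fun h5 => by simp [h5] at hm) h4
    · rw [h2, ff_eq l {i}, Finset.prod_singleton, mul_pow, mul_assoc]
      exact dvd_mul_right _ _
  have h2 : ff l ^ N ∣ r := by
    rw [ff, ← Finset.prod_pow]
    refine Finset.prod_dvd_of_isRelPrime (fun i _ j _ hij => ?_) fun i _ => h1 i
    exact IsRelPrime.pow ((hL.prime i).irreducible.isRelPrime_iff_not_dvd.2 (hL.ndvd i j hij))
  obtain ⟨s, rfl⟩ := h2
  rw [map_mul, map_pow] at hr
  exact ⟨s, (mul_left_cancel₀ (pow_ne_zero N (cB_ne hB hL.ne)) hr).symm⟩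

theorem rdd (hJ : Jac l) (hB : Bas l) (n : ℕ) (i : Fin 2) (A : BB l) (h : A ∈ RD l (n + 1)) :
    dB l i A ∈ RD l n := by
  obtain ⟨h1, N, Z, hZ, hd⟩ := h
  refine ⟨hB.pd i A h1, N + 1, _, key hB (I := ∅) (q := fun m => gI l {m})
    (fun m _ => by rw [ff_eq l {m}, Finset.prod_singleton]) (fun _ h => by simp at h) hZ i,
    fun e => ?_⟩
  rw [coeff_sub, coeff_add, coeff_sum, coeff_C_mul, coeff_C_mul, coeff_dc]
  refine (totalDegree_sub _ _).trans (max_le ((totalDegree_add _ _).trans (max_le ?_ ?_)) ?_)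
  · have h2 := deg_mul_le (deg_ff_le l) (deg_pderiv_le (n := n + N * (d + 1))
      ((hd e).trans (by omega)) i)
    exact h2.trans (by rw [add_mul]; omega)
  · refine totalDegree_finsetSum_le fun m _ => ?_
    rw [coeff_C_mul]
    have h2 := deg_mul_le (deg_mul_le (totalDegree_C (dir i (l m))).le (deg_gI (l := l) m))
      (deg_coeff_pd hd m e)
    exact h2.trans (by rw [add_mul]; omega)
  · have h3 : (N : Poly).totalDegree ≤ 0 := by
      rw [← map_natCast (C : ℂ →+* Poly), totalDegree_C]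
    have h2 := deg_mul_le (deg_mul_le h3 (hJ.degd i).le) (hd e)
    exact h2.trans (by rw [add_mul]; omega)

end DvA

open DvA in
theorem rowDv : OfDv := by
  intro hP d l _ hL hJ hB
  have := hB.dom
  have hsiL : ∀ I m, ∀ A ∈ SI l I, pderiv m A ∈ SI l I := fun I m A hA i hi => by
    rw [hB.LL, hA i hi, map_zero]
  have hsid : ∀ I i, ∀ A ∈ SI l I, dB l i A ∈ SI l I := fun I i A hA m hm => by
    rw [hB.cL, hA m hm, map_zero]
  refine ⟨⟨fun _ _ _ => Algebra.mem_top, fun a _ b _ h => ?_⟩,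
    fun I => ⟨hsid I, fun a ha b _ h => ?_⟩, ⟨hB.pd, fun a ha b _ h => ?_⟩, hsiL,
    fun I r => ⟨fun i _ => hB.Lc i r, 0, C r, by simp [iB_C]⟩,
    fun I m hm => ⟨fun i hi => pderiv_X_of_ne fun h => hm (h ▸ hi), 0, X m, by simp [iB_X]⟩,
    ?_, ?_, fun I Z hZ => ⟨hZ, 0, Z, by simp⟩, ?_, riall hP hL hB, ?_, ?_, ?_, ?_, rdd hJ hB, ?_,
    ?_, ?_⟩
  · obtain ⟨c, hc⟩ := topdiv hJ hB h
    exact ⟨c, Algebra.mem_top, hc⟩
  · obtain ⟨c, hc⟩ := topdiv hJ hB h
    refine ⟨c, si_cancel hB (hJ.ned 1) ?_, hc⟩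
    rwa [hc.1, dB_cB] at ha
  · obtain ⟨c, hc⟩ := topdiv hJ hB h
    refine ⟨c, rp_cancel hB (hJ.ned 1) ?_, hc⟩
    rwa [hc.1, dB_cB] at ha
  · rintro I i A ⟨hA, N, Z, hZ⟩
    exact ⟨hsid I i A hA, N + 1, _, key hB (q := fun m => ∏ k ∈ Iᶜ.erase m, lin (l k))
      (fun m hm => Finset.mul_prod_erase _ (fun k => lin (l k)) (Finset.mem_compl.2 hm)) hA hZ i⟩
  · rintro I m A ⟨hA, N, Z, hZ⟩
    exact ⟨hsiL I m A hA, N, _, pd_clear hB hZ m⟩
  · rintro I c ⟨-, N, Z, hZ⟩ ⟨hA, M, W, hW⟩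
    obtain ⟨V, hV, -⟩ := divL hJ hB hZ hW
    exact ⟨si_cancel hB (hJ.ned 1) hA, _, V, hV⟩
  · rintro A ⟨hA, N, Z, hZ⟩
    obtain ⟨r, hr⟩ := logfree hP hB hZ fun m => hA m (Finset.mem_univ m)
    exact ⟨r, by simpa [gI] using hr.symm⟩
  · intro n r hr
    refine ⟨hB.pc _, 0, C r, by simp [iB_C], fun e => ?_⟩
    classical
    rw [coeff_C]
    split_ifs
    · simpa using hr
    · simp
  · rintro n r ⟨-, N, Z, hZ, hd⟩
    have h1 : Z = C (ff l ^ N * r) := hB.iinj (by rw [hZ, iB_C, map_mul, map_pow])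
    have h2 := hd 0
    rw [h1, coeff_zero_C] at h2
    by_cases hr : r = 0
    · simp [hr]
    · rw [totalDegree_mul_of_isDomain (pow_ne_zero _ hL.ne) hr, deg_pow hL] at h2
      omega
  · rintro n k A ⟨hA, N, Z, hZ, hd⟩ B ⟨hB', M, W, hW, hd'⟩
    refine ⟨mul_mem hA hB', N + M, Z * W, by rw [map_mul, hZ, hW]; ring, fun e => ?_⟩
    classical
    rw [coeff_mul]
    refine totalDegree_finsetSum_le fun x _ => (deg_mul_le (hd _) (hd' _)).trans ?_
    rw [add_mul]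
    omega
  · rintro n m A ⟨hA, N, Z, hZ, hd⟩
    exact ⟨hB.pL m A hA, N, _, pd_clear hB hZ m, deg_coeff_pd hd m⟩
  · rintro c ⟨-, N, Z, hZ, -⟩ ⟨hA, M, W, hW, hd⟩
    obtain ⟨V, hV, h1⟩ := divL hJ hB hZ hW
    refine ⟨rp_cancel hB (hJ.ned 1) hA, _, V, hV, fun e => deg_cancel hJ ?_⟩
    have h2 := congrArg (coeff e) h1
    rw [mul_comm V, coeff_C_mul, coeff_C_mul, mul_comm (pderiv 1 (ff l))] at h2
    rw [← h2]
    exact (deg_pow_mul l (hd e)).trans (by rw [add_mul]; omega)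
  · rintro c ⟨r, -, hr⟩ ⟨s, hs, hs'⟩
    obtain ⟨v, h1, -⟩ := hJ.syz s (-r) (hB.cinj (by
      simp only [map_add, map_mul, map_neg, ← hr, ← hs', map_zero]
      ring))
    refine ⟨v, deg_cancel hJ (h1 ▸ hs), mul_right_cancel₀ (cB_ne hB (hJ.ned 1)) ?_⟩
    rw [hs', h1, map_mul]

end Pool.Agent.MP_aa1ef7_ag.H20
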