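import Pool.Agent.MP_aa1ef7_ag.H20.Spec

/-! Expansion of elements without poles at `p` as series at `p`. -/

namespace Pool.Agent.MP_aa1ef7_ag.H20

open MvPolynomial
open Pool.Agent.MP_aa1ef7_ag.H40

namespace EmbA

variable {d : ℕ} (l : Fin (d + 1) → ℂ × ℂ × ℂ) (p : Fin 2 → ℂ)

/-- Expansion of polynomials in the logarithms. -/
noncomputable def e0 : RL d →+* Ser ℂ := eval₂Hom (tay p).toRingHom (lg l p)

theorem e0_C (r : Poly) : e0 l p (C r) = tay p r := eval₂Hom_C _ _ r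

theorem e0_X (m : Fin (d + 1)) : e0 l p (X m) = lg l p m := eval₂Hom_X' _ _ m

theorem chain {A : Type} [CommRing A] (φ : RL d →+* A) (D : A → A) (i : Fin 2)
    (hD : ∀ a b, D (a + b) = D a + D b) (hD' : ∀ a b, D (a * b) = a * D b + b * D a)
    (hC : ∀ r, D (φ (C r)) = φ (C (pderiv i r))) (Z : RL d) :
    D (φ Z) = φ (dext (dP i) (fun _ => 0) Z) + ∑ m, D (φ (X m)) * φ (pderiv m Z) := by
  refine leib_ext φ (fun Z => D (φ Z))
    (fun Z => φ (dext (dP i) (fun _ => 0) Z) + ∑ m, D (φ (X m)) * φ (pderiv m Z))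
    (fun a b => by rw [map_add, hD]) (fun a b => ?_) (fun a b => by rw [map_mul, hD'])
    (fun a b => ?_) (fun a => by simp [dext_C, hC, dP]) (fun m => ?_) Z
  · simp only [map_add, mul_add, Finset.sum_add_distrib]; ring
  · simp only [Derivation.leibniz, smul_eq_mul, map_add, map_mul, mul_add,
      Finset.sum_add_distrib, Finset.mul_sum]
    have e1 : ∀ a b : RL d, ∑ m, D (φ (X m)) * (φ a * φ (pderiv m b)) =
        ∑ m, φ a * (D (φ (X m)) * φ (pderiv m b)) :=
      fun a b => Finset.sum_congr rfl fun _ _ => by ring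
    rw [e1, e1]; ring
  · simp [dext_X, pderiv_X, Pi.single_apply, apply_ite φ]

theorem lift (hL : LgS) (I : Finset (Fin (d + 1))) (hp : ∀ m, m ∉ I → eval p (lin (l m)) ≠ 0)
    (i : Fin 2) (Z : RL d) (hZ : ∀ m ∈ I, pderiv m Z = 0) : ∃ W : RL d,
    iB l W = cB l (gI l I) * dB l i (iB l Z) ∧ e0 l p W = tay p (gI l I) * dS i (e0 l p Z) := by
  have h1 : ∀ m, m ∉ I → gI l I = lin (l m) * ∏ k ∈ Iᶜ.erase m, lin (l k) := fun m hm =>
    (Finset.mul_prod_erase _ _ (Finset.mem_compl.2 hm)).symm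
  refine ⟨C (gI l I) * dext (dP i) (fun _ => 0) Z +
    ∑ m, C (C (dir i (l m)) * ∏ k ∈ Iᶜ.erase m, lin (l k)) * pderiv m Z, ?_, ?_⟩
  · rw [chain (iB l) (dB l i) i (map_add _) (fun a b => by simp)
      (fun r => by rw [iB_C, iB_C, dB_cB]), map_add, map_mul, iB_C, mul_add, map_sum,
      Finset.mul_sum]
    refine congrArg _ (Finset.sum_congr rfl fun m _ => ?_)
    by_cases hm : m ∈ I
    · simp [hZ m hm]
    rw [map_mul, iB_C, iB_X, dB, dext_X, h1 m hm, ← mul_assoc]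
    refine congrArg (· * _) ?_
    simp only [cB, RingHom.comp_apply, ← map_mul]
    refine congrArg _ ?_
    rw [map_mul, map_mul, mul_smul_comm, mul_right_comm, lin_mul_linv, one_mul, Algebra.smul_def,
      IsScalarTower.algebraMap_apply ℂ Poly (TT l)]
    rfl
  · rw [chain (e0 l p) (dS i) i (map_add _) (fun a b => by simp)
      (fun r => by rw [e0_C, e0_C, dS_tay]), map_add, map_mul, e0_C, mul_add, map_sum,
      Finset.mul_sum]
    refine congrArg _ (Finset.sum_congr rfl fun m _ => ?_)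
    by_cases hm : m ∈ I
    · simp [hZ m hm]
    rw [map_mul, e0_C, e0_X, h1 m hm, ← mul_assoc]
    refine congrArg (· * _) ?_
    rw [map_mul, map_mul, mul_right_comm, (hL d l p m).2 (hp m hm) i]
    simp [tay, MvPowerSeries.algebraMap_apply]

end EmbA

open EmbA in
theorem rowEmb : OfEmb := by
  intro hL d l hB hD I p hp
  obtain ⟨v, hv⟩ : ∃ v, tay p (gI l I) * v = 1 := by
    refine IsUnit.exists_right_inv (MvPowerSeries.isUnit_iff_constantCoeff.2 ?_)
    change IsUnit (cc _)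
    rw [cc_tay, gI, map_prod]
    exact (Finset.prod_ne_zero_iff.2 fun m hm => hp m (Finset.mem_compl.1 hm)).isUnit
  have hv' : ∀ N : ℕ, tay p (gI l I) ^ N * v ^ N = 1 := fun N => by rw [← mul_pow, hv, one_pow]
  have ex : ∀ A, ∃ s, ∀ (N : ℕ) (Z : RL d), iB l Z = cB l (gI l I) ^ N * A →
      tay p (gI l I) ^ N * s = e0 l p Z := by
    intro A
    by_cases h : ∃ (N : ℕ) (Z : RL d), iB l Z = cB l (gI l I) ^ N * A
    · obtain ⟨M, W, hW⟩ := h
      refine ⟨e0 l p W * v ^ M, fun N Z hZ => ?_⟩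
      have e : C (gI l I) ^ M * Z = C (gI l I) ^ N * W := hB.iinj (by
        rw [map_mul, map_mul, map_pow, map_pow, iB_C, hZ, hW]; ring)
      have e' := congrArg (e0 l p) e
      rw [map_mul, map_mul, map_pow, map_pow, e0_C] at e'
      linear_combination e0 l p Z * hv' M - v ^ M * e'
    · exact ⟨0, fun N Z hZ => absurd ⟨N, Z, hZ⟩ h⟩
  choose f hf using ex
  have uq : ∀ A (N : ℕ) (Z : RL d) s, iB l Z = cB l (gI l I) ^ N * A →
      tay p (gI l I) ^ N * s = e0 l p Z → f A = s := fun A N Z s h1 h2 => by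
    linear_combination v ^ N * (hf A N Z h1 - h2) - (f A - s) * hv' N
  have fc : ∀ r, f (cB l r) = tay p r := fun r =>
    uq _ 0 (C r) _ (by simp [iB_C]) (by simp [e0_C])
  have fm : ∀ A ∈ RI l I, ∀ B ∈ RI l I, f (A * B) = f A * f B := by
    rintro A ⟨-, N, Z, hZ⟩ B ⟨-, M, W, hW⟩
    refine uq _ (N + M) (Z * W) _ (by rw [map_mul, hZ, hW]; ring) ?_
    rw [map_mul, ← hf A N Z hZ, ← hf B M W hW]; ring
  have fa : ∀ A ∈ RI l I, ∀ B ∈ RI l I, f (A + B) = f A + f B := by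
    rintro A ⟨-, N, Z, hZ⟩ B ⟨-, M, W, hW⟩
    refine uq _ (N + M) (C (gI l I) ^ M * Z + C (gI l I) ^ N * W) _ ?_ ?_
    · rw [map_add, map_mul, map_mul, map_pow, map_pow, hZ, hW, iB_C]; ring
    · rw [map_add, map_mul, map_mul, map_pow, map_pow, ← hf A N Z hZ, ← hf B M W hW, e0_C]; ring
  obtain ⟨ε, hε⟩ := LinearMap.exists_extend (p := Subalgebra.toSubmodule (RI l I))
    { toFun := fun A => f A
      map_add' := fun A B => fa _ A.2 _ B.2
      map_smul' := fun c A => by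
        rw [Submodule.coe_smul, Algebra.smul_def, ← cB_C, fm _ (hD.ric I _) _ A.2, fc, algHom_C,
          RingHom.id_apply, Algebra.smul_def] }
  have he : ∀ A ∈ RI l I, ε A = f A := fun A hA => DFunLike.congr_fun hε ⟨A, hA⟩
  refine ⟨ε, fun A hA B hB => ?_, fun r => ?_, fun m hm => ?_, fun i A hA => ?_⟩
  · rw [he _ (mul_mem hA hB), he _ hA, he _ hB, fm _ hA _ hB]
  · rw [he _ (hD.ric I r), fc]
  · rw [he _ (hD.riX I m hm)]
    exact uq _ 0 (X m) _ (by simp [iB_X]) (by simp [e0_X])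
  · rw [he _ (hD.rid I i A hA), he _ hA]
    obtain ⟨hA, N, Z, hZ⟩ := hA
    obtain ⟨W, h1, h2⟩ := lift l p hL I hp i Z fun m hm => hB.iinj (by
      rw [← hB.Li, hZ, ← map_pow, Derivation.leibniz, hB.Lc, hA m hm]; simp)
    have h3 := hf A N Z hZ
    refine uq _ (2 * N + 1) (C (gI l I) ^ N * W - C (gI l I * pderiv i (gI l I ^ N)) * Z) _ ?_ ?_
    · rw [map_sub, map_mul, map_mul, map_pow, iB_C, iB_C, h1, hZ, ← map_pow (cB l) _ N,
        Derivation.leibniz, dB_cB, map_mul, map_pow]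
      simp only [smul_eq_mul]; ring
    · rw [map_sub, map_mul, map_mul, map_pow, e0_C, e0_C, h2, ← h3, ← map_pow (tay p) _ N,
        Derivation.leibniz, dS_tay, map_mul, map_pow]
      simp only [smul_eq_mul]; ring

end Pool.Agent.MP_aa1ef7_ag.H20
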