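import Pool.Agent.MP_aa1ef7_ag.H20.Spec

/-! From the two cases over `ℂ[[t]]` to a logarithmic form over the closure of `ℂ((t))`. -/

namespace Pool.Agent.MP_aa1ef7_ag.H20

open MvPolynomial
open Pool.Agent.MP_aa1ef7_ag.H40

namespace EndA

section ring

variable {K K' : Type} [CommRing K] [CommRing K']

theorem degree_two (e : Fin 2 →₀ ℕ) : e.degree = e 0 + e 1 := by
  rw [Finsupp.degree_eq_sum, Fin.sum_univ_two]

theorem top_mul {a b : Pl K} {m n : ℕ} (ha : a.totalDegree ≤ m) (hb : b.totalDegree ≤ n) :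
    homogeneousComponent (m + n) (a * b) = homogeneousComponent m a * homogeneousComponent n b := by
  classical
  ext e
  rw [coeff_homogeneousComponent, coeff_mul, coeff_mul]
  simp only [coeff_homogeneousComponent, degree_two]
  split_ifs with h
  · refine Finset.sum_congr rfl fun x hx => ?_
    have h0 := congrArg (fun t : Fin 2 →₀ ℕ => t 0) (Finset.HasAntidiagonal.mem_antidiagonal.1 hx)
    have h1 := congrArg (fun t : Fin 2 →₀ ℕ => t 1) (Finset.HasAntidiagonal.mem_antidiagonal.1 hx)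
    simp only [Finsupp.add_apply] at h0 h1
    rcases lt_trichotomy (x.1 0 + x.1 1) m with h2 | h2 | h2
    · rw [deg_le_iff.1 hb x.2 (by omega), if_neg (by omega), mul_zero, zero_mul]
    · rw [if_pos h2, if_pos (by omega)]
    · rw [deg_le_iff.1 ha x.1 h2, if_neg (by omega), zero_mul, zero_mul]
  · refine (Finset.sum_eq_zero fun x hx => ?_).symm
    have h0 := congrArg (fun t : Fin 2 →₀ ℕ => t 0) (Finset.HasAntidiagonal.mem_antidiagonal.1 hx)
    have h1 := congrArg (fun t : Fin 2 →₀ ℕ => t 1) (Finset.HasAntidiagonal.mem_antidiagonal.1 hx)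
    simp only [Finsupp.add_apply] at h0 h1
    by_cases h2 : x.1 0 + x.1 1 = m
    · rw [if_neg (show ¬ x.2 0 + x.2 1 = n by omega), mul_zero]
    · rw [if_neg h2, zero_mul]

theorem hc_map (j : K →+* K') (n : ℕ) (F : Pl K) :
    MvPolynomial.map j (homogeneousComponent n F) =
      homogeneousComponent n (MvPolynomial.map j F) := by
  ext m
  rw [coeff_map, coeff_homogeneousComponent, coeff_homogeneousComponent, coeff_map]
  split_ifs <;> simp

theorem deg_map (j : K →+* K') {n : ℕ} {F : Pl K} (h : F.totalDegree ≤ n) :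
    (MvPolynomial.map j F).totalDegree ≤ n :=
  deg_le_iff.2 fun m hm => by rw [coeff_map, deg_le_iff.1 h m hm, map_zero]

theorem shift_C (v : Fin 2 → K) (a : K) : shift v (C a) = C a := by simp [shift]

theorem shift_X (v : Fin 2 → K) (i : Fin 2) : shift v (X i) = X i + C (v i) := by simp [shift]

theorem pderiv_shift (v : Fin 2 → K) (i : Fin 2) (P : Pl K) :
    pderiv i (shift v P) = shift v (pderiv i P) := by
  induction P using MvPolynomial.induction_on with
  | C a => rw [shift_C, pderiv_C, map_zero]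
  | add p q hp hq => simp only [map_add, hp, hq]
  | mul_X p m hp =>
    simp only [map_mul, Derivation.leibniz, smul_eq_mul, map_add, hp, shift_X, pderiv_C,
      pderiv_X, Pi.single_apply]
    split_ifs <;> simp

theorem shift_shift (v : Fin 2 → K) (P : Pl K) : shift (-v) (shift v P) = P := by
  induction P using MvPolynomial.induction_on with
  | C a => rw [shift_C, shift_C]
  | add p q hp hq => simp only [map_add, hp, hq]
  | mul_X p m hp =>
    simp only [map_mul, map_add, hp, shift_X, shift_C, Pi.neg_apply, map_neg]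
    ring

theorem map_shift (j : K →+* K') (v : Fin 2 → K) (P : Pl K) :
    MvPolynomial.map j (shift v P) = shift (j ∘ v) (MvPolynomial.map j P) := by
  induction P using MvPolynomial.induction_on with
  | C a => rw [shift_C, map_C, shift_C]
  | add p q hp hq => simp only [map_add, hp, hq]
  | mul_X p m hp => simp only [map_mul, map_add, hp, shift_X, map_X, map_C, Function.comp]

theorem deg_shift (v : Fin 2 → K) {n : ℕ} {P : Pl K} (h : P.totalDegree ≤ n) :
    (shift v P).totalDegree ≤ n := by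
  have h1 : ∀ i : Fin 2, (X i + C (v i) : Pl K).totalDegree ≤ 1 := fun i =>
    (totalDegree_add _ _).trans (max_le ((isHomogeneous_X K i).totalDegree_le) (by simp))
  rw [P.as_sum, map_sum]
  refine (totalDegree_finsetSum _ _).trans (Finset.sup_le fun m hm => ?_)
  have h2 : m 0 + m 1 ≤ n := by
    by_contra hc
    exact mem_support_iff.1 hm (deg_le_iff.1 h m (by omega))
  rw [shift, aeval_monomial, Finsupp.prod_fintype _ _ (by simp), Fin.prod_univ_two]
  refine (totalDegree_mul _ _).trans ?_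
  have h3 := totalDegree_mul ((X 0 + C (v 0) : Pl K) ^ m 0) ((X 1 + C (v 1)) ^ m 1)
  have h4 := (totalDegree_pow (X 0 + C (v 0) : Pl K) (m 0)).trans (Nat.mul_le_mul_left _ (h1 0))
  have h5 := (totalDegree_pow (X 1 + C (v 1) : Pl K) (m 1)).trans (Nat.mul_le_mul_left _ (h1 1))
  rw [algebraMap_eq, totalDegree_C]
  omega

theorem isLog_map (j : K →+* K') {s : ℕ} {D : Fin s → ℕ} {P Q : Pl K} (h : IsLog D P Q) :
    IsLog D (MvPolynomial.map j P) (MvPolynomial.map j Q) := by
  obtain ⟨f, lam, hf, rfl, rfl⟩ := h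
  refine ⟨fun i => MvPolynomial.map j (f i), fun i => j (lam i), fun i => deg_map j (hf i), ?_, ?_⟩
  · simp only [map_sum, map_mul, map_prod, map_C, pderiv_map]
  · simp only [map_sum, map_mul, map_prod, map_C, pderiv_map, map_neg]

theorem isLog_shift (v : Fin 2 → K) {s : ℕ} {D : Fin s → ℕ} {P Q : Pl K} (h : IsLog D P Q) :
    IsLog D (shift v P) (shift v Q) := by
  obtain ⟨f, lam, hf, rfl, rfl⟩ := h
  refine ⟨fun i => shift v (f i), lam, fun i => deg_shift v (hf i), ?_, ?_⟩
  · simp only [map_sum, map_mul, map_prod, shift_C, pderiv_shift]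
  · simp only [map_sum, map_mul, map_prod, shift_C, pderiv_shift, map_neg]

theorem sw_C (G : PowerSeries K) : sw (C G : Pl (PowerSeries K)) = PowerSeries.map C G :=
  eval₂Hom_C _ _ G

end ring

theorem sqf {K : Type} [Field K] {d : ℕ} {F : Pl K} {Δ : K}
    (hF : F.totalDegree ≤ d + 1) (hΔ : Δ ≠ 0)
    (h : ∀ m : Fin 2 →₀ ℕ, m 0 + m 1 = 2 * d - 1 → ∃ α β : Pl K,
      monomial m Δ = α * pderiv 0 (homogeneousComponent (d + 1) F)
        + β * pderiv 1 (homogeneousComponent (d + 1) F)) :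
    F.totalDegree = d + 1 ∧ Squarefree F := by
  have hG : homogeneousComponent (d + 1) F ≠ 0 := by
    intro h0
    obtain ⟨α, β, e⟩ := h (Finsupp.single 0 (2 * d - 1)) (by simp)
    rw [h0] at e
    simp [hΔ] at e
  have hdeg : F.totalDegree = d + 1 := by
    by_contra hc
    exact hG (homogeneousComponent_eq_zero _ _ (by omega))
  refine ⟨hdeg, fun φ ⟨ψ, hψ⟩ => ?_⟩
  have F0 : F ≠ 0 := fun h0 => hG (by rw [h0, map_zero])
  have φψ0 : φ * φ ≠ 0 := left_ne_zero_of_mul (hψ ▸ F0)
  have φ0 : φ ≠ 0 := left_ne_zero_of_mul φψ0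
  have ψ0 : ψ ≠ 0 := right_ne_zero_of_mul (hψ ▸ F0)
  have e1 : d + 1 = φ.totalDegree + φ.totalDegree + ψ.totalDegree := by
    rw [← hdeg, hψ, totalDegree_mul_of_isDomain φψ0 ψ0, totalDegree_mul_of_isDomain φ0 φ0]
  set t := homogeneousComponent φ.totalDegree φ with ht
  have e2 : homogeneousComponent (d + 1) F = t * t * homogeneousComponent ψ.totalDegree ψ := by
    rw [e1, hψ, top_mul (totalDegree_mul φ φ) le_rfl, top_mul le_rfl le_rfl]
  have e3 : ∀ i, t ∣ pderiv i (homogeneousComponent (d + 1) F) := fun i => by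
    rw [e2]
    simp only [Derivation.leibniz, smul_eq_mul]
    exact Dvd.dvd.add (Dvd.dvd.mul_right (dvd_mul_right _ _) _)
      (Dvd.dvd.mul_left (Dvd.dvd.add (dvd_mul_right _ _) (dvd_mul_right _ _)) _)
  have e4 : ∀ i : Fin 2, t ∣ X i ^ (2 * d - 1) := fun i => by
    obtain ⟨α, β, e⟩ := h (Finsupp.single i (2 * d - 1)) (by fin_cases i <;> simp)
    have e5 : t ∣ monomial (Finsupp.single i (2 * d - 1)) Δ := by
      rw [e]
      exact Dvd.dvd.add (Dvd.dvd.mul_left (e3 0) _) (Dvd.dvd.mul_left (e3 1) _)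
    rw [← C_mul_X_pow_eq_monomial] at e5
    exact ((Ne.isUnit hΔ).map C).dvd_mul_left.1 e5
  have cop : IsRelPrime (X 0 : Pl K) (X 1) :=
    (X_prime.irreducible.isRelPrime_iff_not_dvd).2 (by rw [X_dvd_X]; simp)
  have hu : IsUnit t := (cop.pow (m := 2 * d - 1) (n := 2 * d - 1)) (e4 0) (e4 1)
  have h0 : t.totalDegree = 0 := by
    obtain ⟨b, hb⟩ := hu.exists_right_inv
    have h1 := totalDegree_mul_of_isDomain (left_ne_zero_of_mul_eq_one hb)
      (right_ne_zero_of_mul_eq_one hb)
    rw [hb, totalDegree_one] at h1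
    omega
  rw [ht, (homogeneousComponent_isHomogeneous _ _).totalDegree hu.ne_zero] at h0
  rwa [ht, homogeneousComponent_eq_self
    (by rw [h0]; exact (totalDegree_zero_iff_isHomogeneous _).1 h0)] at hu

theorem inj : Function.Injective (algebraMap (PowerSeries ℂ) Om) := by
  rw [IsScalarTower.algebraMap_eq (PowerSeries ℂ) (FractionRing (PowerSeries ℂ)) Om]
  exact (algebraMap (FractionRing (PowerSeries ℂ)) Om).injective.comp
    (IsFractionRing.injective _ _)

/-- The value at `t = 0`. -/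
noncomputable def ev0 : PowerSeries ℂ →ₐ[ℂ] ℂ :=
  { (PowerSeries.constantCoeff : PowerSeries ℂ →+* ℂ) with
    commutes' := fun c => by simp }

theorem ev0_ring : ev0.toRingHom = PowerSeries.constantCoeff := rfl

theorem ham (hsw : SwS) {d : ℕ} {P Q : Pl (PowerSeries ℂ)} (h : Ham d (sw P) (sw Q)) :
    IsLog ![d + 1] P Q := by
  obtain ⟨-, h2, h3, -, -, h6⟩ := hsw
  obtain ⟨G, H, hH, hP, hQ⟩ := h
  obtain ⟨H', hd, rfl⟩ := h3 _ H hH
  refine ⟨![H'], ![G], fun i => by fin_cases i; exact hd, h6 ?_, h6 ?_⟩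
  · rw [hP, ← h2, ← sw_C, ← map_mul]
    simp
  · rw [hQ, ← h2, ← sw_C, ← map_mul, ← map_neg]
    simp

theorem nonham (hsw : SwS) (hsyl : SylaS) (hlog : LogfS) {d : ℕ} {l : Fin (d + 1) → ℂ × ℂ × ℂ}
    (G : Geo l) (J : Jac l) {P Q : Pl (PowerSeries ℂ)} (hP : P.totalDegree ≤ d)
    (hQ : Q.totalDegree ≤ d) (h : NonHam l (sw P) (sw Q)) :
    ∃ (s : ℕ) (D : Fin s → ℕ), (∀ i, 0 < D i) ∧ ∑ i, D i = d + 1 ∧
      IsLog D (MvPolynomial.map (algebraMap (PowerSeries ℂ) Om) P)
        (MvPolynomial.map (algebraMap (PowerSeries ℂ) Om) Q) := by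
  obtain ⟨-, h2, h3, -, h5, h6⟩ := hsw
  obtain ⟨F, α, β, hα, hF, h0, he⟩ := h
  obtain ⟨F', hd, rfl⟩ := h3 _ F hF
  have hd1 : 1 ≤ d := by have := G.two; omega
  have eq : P * pderiv 0 F' + Q * pderiv 1 F' = F' * (pderiv 0 P + pderiv 1 Q) := by
    apply h6
    simp only [map_add, map_mul, h2]
    exact he
  rw [h5] at h0
  have top : ∀ i, MvPolynomial.map ev0.toRingHom (pderiv i (homogeneousComponent (d + 1) F')) =
      C α * homogeneousComponent d (pderiv i (ff l)) := fun i => by
    rw [← pderiv_map, hc_map, ev0_ring, h0, map_add, homogeneousComponent_C_mul,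
      homogeneousComponent_eq_zero (d + 1) (C β) (by simp), add_zero, J.topd, pderiv_C_mul]
  have hu : IsUnit (C α : Poly) := (Ne.isUnit hα).map C
  obtain ⟨Δ, hΔ, hm⟩ := hsyl (PowerSeries ℂ) ev0 d (pderiv 0 (homogeneousComponent (d + 1) F'))
    (pderiv 1 (homogeneousComponent (d + 1) F')) hd1
    (homogeneousComponent_isHomogeneous (d + 1) F').pderiv
    (homogeneousComponent_isHomogeneous (d + 1) F').pderiv (by
      rw [top, top]
      intro p a b
      exact J.cop (hu.dvd_mul_left.1 a) (hu.dvd_mul_left.1 b))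
  have hΔ0 : algebraMap (PowerSeries ℂ) Om Δ ≠ 0 := by
    intro h
    have : Δ = 0 := inj (by rw [h, map_zero])
    rw [this, map_zero] at hΔ
    exact zero_ne_one hΔ
  obtain ⟨k1, k2⟩ := sqf (F := MvPolynomial.map (algebraMap (PowerSeries ℂ) Om) F')
    (deg_map _ hd) hΔ0 fun m hm' => by
      obtain ⟨a, b, -, -, e⟩ := hm m hm'
      refine ⟨MvPolynomial.map (algebraMap (PowerSeries ℂ) Om) a,
        MvPolynomial.map (algebraMap (PowerSeries ℂ) Om) b, ?_⟩
      rw [← hc_map, pderiv_map, pderiv_map, ← map_mul, ← map_mul, ← map_add, ← e, map_monomial]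
  have : CharZero Om := charZero_of_injective_ringHom
    (f := (algebraMap (PowerSeries ℂ) Om).comp (PowerSeries.C : ℂ →+* PowerSeries ℂ))
    (RingHom.injective _)
  refine hlog Om d _ _ _ (deg_map _ hP) (deg_map _ hQ) k1 k2 ?_
  simp only [pderiv_map, ← map_mul, ← map_add, eq]

end EndA

theorem rowEnd : OfEnd := by
  intro hsw hsyl hlog d l G _ J P Q v hP hQ h
  have key : ∃ (s : ℕ) (D : Fin s → ℕ), (∀ i, 0 < D i) ∧ ∑ i, D i = d + 1 ∧
      IsLog D (MvPolynomial.map (algebraMap (PowerSeries ℂ) Om) (shift v P))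
        (MvPolynomial.map (algebraMap (PowerSeries ℂ) Om) (shift v Q)) := by
    rcases h with h | h
    · exact ⟨1, ![d + 1], fun i => by fin_cases i; simp, by simp,
        EndA.isLog_map _ (EndA.ham hsw h)⟩
    · exact EndA.nonham hsw hsyl hlog G J (EndA.deg_shift v hP) (EndA.deg_shift v hQ) h
  obtain ⟨s, D, h1, h2, h3⟩ := key
  refine ⟨s, D, h1, h2, ?_⟩
  have := EndA.isLog_shift (-(algebraMap (PowerSeries ℂ) Om ∘ v)) h3
  rwa [EndA.map_shift, EndA.map_shift, EndA.shift_shift, EndA.shift_shift] at this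

end Pool.Agent.MP_aa1ef7_ag.H20
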