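import Pool.Agent.MP_aa1ef7_ag.H20.Spec

/-! Row Eqv: equivariance under field automorphisms, and vanishing of derivations. -/

namespace Pool.Agent.MP_aa1ef7_ag.H20

open MvPolynomial
open Pool.Agent.MP_aa1ef7_ag.H40

namespace EqvA

variable {d : ℕ} {l : Fin (d + 1) → ℂ × ℂ × ℂ} {θ : ℂ →+* ℂ} (h : ∀ k, θ (coef l k) = coef l k)
include h

theorem ca (m : Fin (d + 1)) : θ (l m).1 = (l m).1 := h (m, 0)

theorem cb (m : Fin (d + 1)) : θ (l m).2.1 = (l m).2.1 := h (m, 1)

theorem c2 (m : Fin (d + 1)) : θ (l m).2.2 = (l m).2.2 := h (m, 2)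

theorem m_lin (m : Fin (d + 1)) : map θ (lin (l m)) = lin (l m) := by
  simp only [lin, map_add, map_mul, map_C, map_X, ca h, cb h, c2 h]

theorem m_ff : map θ (ff l) = ff l := by
  simp only [ff, map_prod, m_lin h]

theorem m_bet (n : Fin (d + 1)) : map θ (bet l n) = bet l n := by
  simp only [bet, gam, map_sum, map_mul, map_prod, map_C, map_sub, m_lin h, ca h, cb h]

omit h in
theorem ev_map (p : Fin 2 → ℂ) {r : Poly} (hr : map θ r = r) : eval (θ ∘ p) r = θ (eval p r) := by
  rw [← cc_tay, ← cc_tay, ← cc_map, ← tay_map, hr]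

theorem face {p : Fin 2 → ℂ} (hp : Face l p) : Face l (θ ∘ p) :=
  ⟨fun i => by rw [ev_map p (by rw [← pderiv_map, m_ff h]), hp.1 i, map_zero],
    fun m => by rw [ev_map p (m_lin h m)]; exact (map_ne_zero θ).2 (hp.2 m)⟩

theorem m_lg (p : Fin 2 → ℂ) (m : Fin (d + 1)) :
    MvPowerSeries.map θ (lg l p m) = lg l (θ ∘ p) m := by
  ext e
  rw [MvPowerSeries.coeff_map]
  change θ (lg l p m e) = lg l (θ ∘ p) m e
  simp only [lg, map_mul, map_div₀, map_pow, map_neg, map_one, map_natCast, ca h, cb h,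
    ev_map p (m_lin h m)]

theorem m_gen (p : Fin 2 → ℂ) (a : GI d) :
    MvPowerSeries.map θ (gen l p a) = gen l (θ ∘ p) a := by
  rcases a with a | a
  · simp only [gen, ← tay_map, map_monomial, map_one]
  · simp only [gen, map_mul, m_lg h, ← tay_map, m_bet h]

omit h in
theorem m_aeval (G : Ser ℂ) (c : Polynomial ℂ) : MvPowerSeries.map θ (Polynomial.aeval G c) =
    Polynomial.aeval (MvPowerSeries.map θ G) (c.map θ) :=
  Polynomial.map_aeval_eq_aeval_map (by
    ext1 x
    simp [MvPowerSeries.algebraMap_apply]) c G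

theorem rel {p : Fin 2 → ℂ} {c : GI d → Polynomial ℂ} (hc : c ∈ Rel l p) :
    (fun a => (c a).map θ) ∈ Rel l (θ ∘ p) := by
  obtain ⟨A, hA⟩ := hc
  have e : tay (θ ∘ p) (ff l) = MvPowerSeries.map θ (tay p (ff l)) := by rw [← tay_map, m_ff h]
  refine ⟨MvPowerSeries.map θ A, ?_⟩
  simp only [e, ← m_aeval, ← m_gen h, ← map_mul, ← map_sum, ← hA, br, dS_map, map_sub]

end EqvA

open EqvA in
theorem rowEqv : EqvS ∧ DeruS := by
  refine ⟨fun d l θ h p hp => ⟨face (θ := θ.toRingHom) h hp,
    ev_map (θ := θ.toRingHom) p (m_ff h), fun c => ⟨rel (θ := θ.toRingHom) h, fun hc => ?_⟩⟩,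
    fun F E Ω _ _ _ _ _ φ D ha hm h0 => ?_⟩
  · have h1 := rel (θ := θ.symm.toRingHom) (fun k => θ.symm_apply_eq.2 (h k).symm) hc
    have e1 : θ.symm.toRingHom ∘ θ ∘ p = p := funext fun i => θ.symm_apply_apply _
    have e2 : θ.symm.toRingHom.comp θ.toRingHom = RingHom.id ℂ :=
      RingHom.ext θ.symm_apply_apply
    simpa only [e1, Polynomial.map_map, e2, Polynomial.map_id] using h1
  have hp : ∀ (x : E) (q : Polynomial F), D (Polynomial.aeval x q) =
      φ (Polynomial.aeval x (Polynomial.derivative q)) * D x := fun x q => by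
    induction q using Polynomial.induction_on with
    | C a => simp [h0]
    | add p q hp hq => simp only [map_add, ha, hp, hq, add_mul]
    | monomial n a ih =>
      rw [pow_succ, ← mul_assoc]
      generalize Polynomial.C a * Polynomial.X ^ n = r at ih ⊢
      rw [map_mul, Polynomial.aeval_X, hm, ih, Polynomial.derivative_mul]
      simp only [map_add, map_mul, Polynomial.aeval_X, Polynomial.derivative_X, mul_one]
      ring
  have z0 : D 0 = 0 := by simpa using h0 0
  have z1 : D 1 = 0 := by simpa using h0 1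
  refine ⟨fun x hx => ?_, fun S hS x hx => ?_⟩
  · have h1 := hp x (minpoly F x)
    rw [minpoly.aeval, z0] at h1
    refine (mul_eq_zero.1 h1.symm).resolve_left ((map_ne_zero φ).2 ?_)
    exact (minpoly.irreducible hx.isIntegral).separable.aeval_derivative_ne_zero (minpoly.aeval F x)
  · induction hx using IntermediateField.adjoin_induction with
    | mem x hx => exact hS x hx
    | algebraMap x => exact h0 x
    | add x y _ _ hx hy => rw [ha, hx, hy, add_zero]
    | inv x _ hx =>
      rcases eq_or_ne x 0 with rfl | hx0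
      · rw [inv_zero, z0]
      · have h1 := hm x x⁻¹
        rw [mul_inv_cancel₀ hx0, z1, hx, mul_zero, add_zero] at h1
        exact (mul_eq_zero.1 h1.symm).resolve_left ((map_ne_zero φ).2 hx0)
    | mul x y _ _ hx hy => rw [hm, hx, hy, mul_zero, mul_zero, add_zero]

end Pool.Agent.MP_aa1ef7_ag.H20
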