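import Pool.Agent.MP_aa1ef7_ag.G.Eta2

/-! The derivation preserves the integral elements that are fixed by all inertia elements. -/

namespace Pool.Agent.MP_aa1ef7_ag.H20

open Polynomial

namespace Eta1A

open Eta2A

theorem mem_range_of_pos {κ : Type} [Field κ] {f : LaurentSeries κ} (h : Pos 0 f) :
    f ∈ (algebraMap (PowerSeries κ) (LaurentSeries κ)).range := by
  refine ⟨PowerSeries.mk fun n => f.coeff n, ?_⟩
  ext n
  rw [LaurentSeries.coe_algebraMap, PowerSeries.coeff_coe]
  split_ifs with hn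
  · exact (h n hn).symm
  · rw [PowerSeries.coeff_mk, Int.natAbs_of_nonneg (by omega)]

theorem jpoly {κ E : Type} [Field κ] [Field E] [Algebra κ E] (U : E) (u0 : κ) (e : ℕ)
    (j : E →ₐ[κ] LaurentSeries κ) (hj : j (U - algebraMap κ E u0) = HahnSeries.single (e : ℤ) 1)
    (p : κ[X]) : j (aeval U p) = algebraMap (PowerSeries κ) (LaurentSeries κ)
      (aeval (PowerSeries.X ^ e + PowerSeries.C u0 : PowerSeries κ) p) := by
  have hc : ∀ a : κ, j (algebraMap κ E a) =
      algebraMap (PowerSeries κ) (LaurentSeries κ) (PowerSeries.C a) := by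
    intro a
    rw [j.commutes, HahnSeries.algebraMap_apply', ← LaurentSeries.coe_algebraMap]
    simp
  have hU : j U = algebraMap (PowerSeries κ) (LaurentSeries κ)
      (PowerSeries.X ^ e + PowerSeries.C u0) := by
    rw [← HahnSeries.ofPowerSeries_X_pow, ← LaurentSeries.coe_algebraMap, map_sub, hc] at hj
    rw [map_add, ← hj]; ring
  induction p using Polynomial.induction_on' with
  | add p q hp hq => rw [map_add, map_add, hp, hq, map_add, map_add]
  | monomial n a =>
    rw [aeval_monomial, aeval_monomial, map_mul, map_mul, map_pow, map_pow, hU, hc]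
    rfl

theorem resc {κ : Type} [Field κ] {ζ : κ} {e : ℕ} (h : ζ ^ e = 1) (u0 : κ) (p : κ[X]) :
    PowerSeries.rescale ζ (aeval (PowerSeries.X ^ e + PowerSeries.C u0 : PowerSeries κ) p) =
      aeval (PowerSeries.X ^ e + PowerSeries.C u0 : PowerSeries κ) p := by
  have hc : ∀ a : κ, PowerSeries.rescale ζ (PowerSeries.C a) = PowerSeries.C a := by
    intro a
    ext n
    rw [PowerSeries.coeff_rescale, PowerSeries.coeff_C]
    split_ifs with h
    · simp [h]
    · simp
  have hU : PowerSeries.rescale ζ (PowerSeries.X ^ e + PowerSeries.C u0 : PowerSeries κ) =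
      PowerSeries.X ^ e + PowerSeries.C u0 := by
    rw [map_add, hc, map_pow, PowerSeries.rescale_X, mul_pow, ← map_pow, h, map_one, one_mul]
  induction p using Polynomial.induction_on' with
  | add p q hp hq => rw [map_add, map_add, hp, hq]
  | monomial n a =>
    rw [aeval_monomial, map_mul, map_pow, hU]
    exact congrArg (· * _) (hc a)

theorem ccpoly {κ : Type} [Field κ] {e : ℕ} (he : 0 < e) (u0 : κ) (p : κ[X]) :
    PowerSeries.constantCoeff (aeval (PowerSeries.X ^ e + PowerSeries.C u0 : PowerSeries κ) p) =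
      p.eval u0 := by
  induction p using Polynomial.induction_on' with
  | add p q hp hq => rw [map_add, map_add, hp, hq, eval_add]
  | monomial n a =>
    rw [aeval_monomial, map_mul, map_pow, eval_monomial]
    simp [he.ne']

variable {κ k E : Type} [Field κ] [CharZero κ] [Field k] [Field E] [Algebra κ k] [Algebra k E]
  [Algebra κ E] [IsScalarTower κ k E] [FiniteDimensional k E]

theorem place [IsAlgClosed κ] [IsGalois k E] (hD : DeruS) (hP : PuiS) (u : k)
    (hu : IntermediateField.adjoin κ {u} = ⊤) (δ : Derivation κ E E)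
    (hδ : δ (algebraMap k E u) = 1) (u0 : κ) :
    ∃ (ζ : κ) (e : ℕ) (j : E →ₐ[κ] LaurentSeries κ) (σ : LaurentSeries κ →+* LaurentSeries κ)
      (g : E ≃ₐ[k] E), Place (algebraMap k E u) u0 ζ e j σ ∧ IsPrimitiveRoot ζ e ∧
      (∀ x, j (g x) = σ (j x)) ∧
      ∀ x, j (δ x) = HahnSeries.single (-(e : ℤ)) (e : κ)⁻¹ * eu (j x) := by
  have htk := transk hD u δ hδ
  have hv : Transcendental κ (u - algebraMap κ k u0) := fun h => htk (by
    have := h.add (isAlgebraic_algebraMap (A := k) u0)
    rwa [sub_add_cancel] at this)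
  have hv' : IntermediateField.adjoin κ {u - algebraMap κ k u0} = ⊤ := by
    rw [eq_top_iff, ← hu, IntermediateField.adjoin_simple_le_iff]
    have := add_mem (IntermediateField.mem_adjoin_simple_self κ (u - algebraMap κ k u0))
      (IntermediateField.algebraMap_mem _ u0)
    rwa [sub_add_cancel] at this
  obtain ⟨e, j, he, hj⟩ := hP κ k E _ hv hv'
  rw [map_sub, ← IsScalarTower.algebraMap_apply] at hj
  have he' : (e : κ) ≠ 0 := Nat.cast_ne_zero.mpr he.ne'
  have : NeZero e := ⟨he.ne'⟩
  have : NeZero (e : κ) := ⟨he'⟩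
  obtain ⟨ζ, hζ⟩ := HasEnoughRootsOfUnity.exists_primitiveRoot κ e
  have hζ0 : ζ ≠ 0 := hζ.ne_zero he.ne'
  have hr : Function.Injective ((algebraMap (PowerSeries κ) (LaurentSeries κ)).comp
      (PowerSeries.rescale ζ)) :=
    (IsFractionRing.injective _ _).comp (PowerSeries.rescale_injective hζ0)
  let σ : LaurentSeries κ →+* LaurentSeries κ := IsFractionRing.lift hr
  have hσ : ∀ a, σ (algebraMap (PowerSeries κ) (LaurentSeries κ) a) =
      algebraMap (PowerSeries κ) (LaurentSeries κ) (PowerSeries.rescale ζ a) :=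
    fun a => IsFractionRing.lift_algebraMap hr a
  have hfix : ∀ z : k, σ (j (algebraMap k E z)) = j (algebraMap k E z) := by
    intro z
    have hz : z ∈ IntermediateField.adjoin κ {u} := by rw [hu]; trivial
    obtain ⟨r, s, rfl⟩ := (IntermediateField.mem_adjoin_simple_iff κ z).mp hz
    have h1 : ∀ p : κ[X], σ (j (algebraMap k E (aeval u p))) = j (algebraMap k E (aeval u p)) := by
      intro p
      rw [← aeval_algebraMap_apply, jpoly _ u0 e j hj, hσ, resc hζ.pow_eq_one]
    rw [map_div₀, map_div₀, map_div₀, h1, h1]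
  have hg : ∃ g : E ≃ₐ[k] E, ∀ x, j (g x) = σ (j x) := by
    let : Algebra E (LaurentSeries κ) := (j : E →+* LaurentSeries κ).toAlgebra
    let : Algebra k (LaurentSeries κ) :=
      ((j : E →+* LaurentSeries κ).comp (algebraMap k E)).toAlgebra
    have : IsScalarTower k E (LaurentSeries κ) := IsScalarTower.of_algebraMap_eq fun _ => rfl
    let φ : E →ₐ[k] LaurentSeries κ :=
      { σ.comp (j : E →+* LaurentSeries κ) with commutes' := hfix }
    exact ⟨φ.restrictNormal' E, fun x => φ.restrictNormal_commutes E x⟩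
  obtain ⟨g, hg⟩ := hg
  refine ⟨ζ, e, j, σ, g, ⟨he, hj, hζ.pow_eq_one, hσ⟩, hζ, hg, fun x => ?_⟩
  have hc : ∀ c : κ, eu (j (algebraMap κ E c)) = 0 := by
    intro c
    simp only [AlgHom.commutes, LaurentSeries.algebraMap_apply, HahnSeries.C_apply, eu_single]
    simp
  rw [← sub_eq_zero]
  refine deru2 hD u hu (j : E →+* LaurentSeries κ)
    (fun x => j (δ x) - HahnSeries.single (-(e : ℤ)) (e : κ)⁻¹ * eu (j x)) ?_ ?_ ?_ ?_ x
  · intro a b; simp only [map_add, eu_add]; ring
  · intro a b
    simp only [map_mul, Derivation.leibniz, smul_eq_mul, map_add, RingHom.coe_coe, eu_mul]; ring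
  · intro c
    simp only [δ.map_algebraMap, map_zero, hc, mul_zero, sub_zero]
  · have h1 : j (algebraMap k E u) = HahnSeries.single (e : ℤ) 1 + j (algebraMap κ E u0) := by
      rw [← hj, map_sub, sub_add_cancel]
    simp only [hδ, map_one, h1, eu_add, hc, add_zero, eu_single, HahnSeries.single_mul_single]
    rw [neg_add_cancel]
    have : (e : κ)⁻¹ * ((((e : ℤ) : ℤ) : κ) * 1) = 1 := by
      push_cast
      field_simp
    rw [this, HahnSeries.single_zero_one, sub_self]

omit [CharZero κ] in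
theorem regular {U : E} {u0 ζ : κ} {e : ℕ} {j : E →ₐ[κ] LaurentSeries κ}
    {σ : LaurentSeries κ →+* LaurentSeries κ} (hpl : Place U u0 ζ e j σ)
    (hζ : IsPrimitiveRoot ζ e) (b : E) (hb : IsIntegral (Algebra.adjoin κ {U}) b)
    (hσ : σ (j b) = j b) : Pos 0 (HahnSeries.single (-(e : ℤ)) (e : κ)⁻¹ * eu (j b)) := by
  have hi : Function.Injective (algebraMap (PowerSeries κ) (LaurentSeries κ)) :=
    IsFractionRing.injective _ _
  have h1 : IsIntegral (algebraMap (PowerSeries κ) (LaurentSeries κ)).range (j b) := by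
    have hm : ∀ r : Algebra.adjoin κ {U},
        j r ∈ (algebraMap (PowerSeries κ) (LaurentSeries κ)).range := by
      intro r
      obtain ⟨p, hp⟩ := Algebra.adjoin_mem_exists_aeval κ _ r.2
      rw [← hp, jpoly U u0 e j hpl.ju]
      exact ⟨_, rfl⟩
    refine IsIntegral.map_of_comp_eq
      (((j : E →+* LaurentSeries κ).comp (algebraMap (Algebra.adjoin κ {U}) E)).codRestrict _ hm)
      (j : E →+* LaurentSeries κ) ?_ hb
    rfl
  have h2 : IsIntegral (PowerSeries κ) (j b) := by
    let ε := RingEquiv.ofBijective (algebraMap (PowerSeries κ) (LaurentSeries κ)).rangeRestrict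
      ⟨fun x y h => hi (congrArg Subtype.val h), RingHom.rangeRestrict_surjective _⟩
    refine IsIntegral.map_of_comp_eq (ε.symm : _ →+* PowerSeries κ) (RingHom.id _) ?_ h1
    ext1 r
    obtain ⟨p, rfl⟩ := ε.surjective r
    simp only [RingHom.comp_apply, RingHom.coe_coe, RingEquiv.symm_apply_apply, RingHom.id_apply]
    rfl
  obtain ⟨a, ha⟩ :=
    (IsIntegrallyClosed.isIntegral_iff (R := PowerSeries κ) (K := LaurentSeries κ)).mp h2
  rw [← ha, hpl.rot] at hσ
  have h3 := hi hσ
  intro n hn
  rw [HahnSeries.coeff_single_mul, eu_coeff, ← ha, LaurentSeries.coe_algebraMap,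
    PowerSeries.coeff_coe]
  split_ifs with h
  · simp
  · obtain ⟨m, hm⟩ : ∃ m : ℕ, n - -(e : ℤ) = m := ⟨(n - -(e : ℤ)).toNat, by omega⟩
    rw [hm, Int.natAbs_natCast]
    by_cases hm0 : m = 0
    · simp [hm0]
    · have h4 := congrArg (PowerSeries.coeff m) h3
      rw [PowerSeries.coeff_rescale] at h4
      have h5 : ζ ^ m ≠ 1 := hζ.pow_ne_one_of_pos_of_lt hm0 (by omega)
      have h6 : PowerSeries.coeff m a = 0 := by
        by_contra h7
        exact h5 (mul_right_cancel₀ h7 (h4.trans (one_mul _).symm))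
      simp [h6]

omit [CharZero κ] [FiniteDimensional k E] in
theorem polyk [IsAlgClosed κ] (u : k) (hu : IntermediateField.adjoin κ {u} = ⊤)
    (ht : Transcendental κ u) (z : k)
    (hz : ∀ u0 : κ, ∃ (e : ℕ) (j : E →ₐ[κ] LaurentSeries κ), 0 < e ∧
      j (algebraMap k E u - algebraMap κ E u0) = HahnSeries.single (e : ℤ) 1 ∧
      j (algebraMap k E z) ∈ (algebraMap (PowerSeries κ) (LaurentSeries κ)).range) :
    algebraMap k E z ∈ Algebra.adjoin κ {algebraMap k E u} := by
  have hz' : z ∈ IntermediateField.adjoin κ {u} := by rw [hu]; trivial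
  obtain ⟨r, s, hrs⟩ := (IntermediateField.mem_adjoin_simple_iff κ z).mp hz'
  by_cases hs : s = 0
  · rw [hrs, hs, map_zero, div_zero, map_zero]; exact zero_mem _
  obtain ⟨a, b, c, hab, rfl, rfl⟩ := UniqueFactorizationMonoid.exists_reduced_factors' r s hs
  have hne : ∀ p : κ[X], p ≠ 0 → aeval u p ≠ 0 := fun p hp h =>
    hp (transcendental_iff_injective.mp ht (by rw [h, map_zero]))
  have hb0 : b ≠ 0 := right_ne_zero_of_mul hs
  have hzb : aeval u b * z = aeval u a := by
    have h1 := hne _ hb0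
    have h2 := hne _ (left_ne_zero_of_mul hs)
    rw [hrs, map_mul, map_mul]
    field_simp
  have hdeg : b.degree = 0 := by
    by_contra hd
    obtain ⟨u0, hu0⟩ := IsAlgClosed.exists_root b hd
    obtain ⟨e, j, he, hj, w, hw⟩ := hz u0
    have h1 := congrArg (fun x => j (algebraMap k E x)) hzb
    simp only [map_mul] at h1
    rw [← aeval_algebraMap_apply, ← aeval_algebraMap_apply, jpoly _ u0 e j hj, jpoly _ u0 e j hj,
      ← hw, ← map_mul] at h1
    have h2 := congrArg PowerSeries.constantCoeff (IsFractionRing.injective _ _ h1)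
    rw [map_mul, ccpoly he, ccpoly he, hu0.eq_zero, zero_mul] at h2
    exact not_isUnit_X_sub_C u0 (hab (dvd_iff_isRoot.mpr h2.symm) (dvd_iff_isRoot.mpr hu0))
  obtain ⟨c0, rfl⟩ : ∃ c0, b = Polynomial.C c0 := ⟨_, eq_C_of_degree_eq_zero hdeg⟩
  have hc0 : c0 ≠ 0 := fun h => hb0 (by rw [h, map_zero])
  have h1 : z = aeval u (Polynomial.C c0⁻¹ * a) := by
    rw [map_mul, ← hzb, ← mul_assoc, ← map_mul, ← map_mul, inv_mul_cancel₀ hc0, map_one, map_one,
      one_mul]
  rw [h1, ← aeval_algebraMap_apply]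
  exact Polynomial.aeval_mem_adjoin_singleton κ _

end Eta1A

open Eta2A Eta1A

theorem rowEta1 : OfEta1 := by
  intro hD hP κ k E _ _ _ _ _ _ _ _ _ _ _ u δ H hu hδ hH hI b hb hint
  classical
  set P : E[X] := ∏ g : E ≃ₐ[k] E, (X - Polynomial.C (g (δ b))) with hPdef
  have hmon : P.Monic := monic_prod_of_monic _ _ fun g _ => monic_X_sub_C _
  have hroot : P.eval (δ b) = 0 := by
    rw [hPdef, eval_prod]
    exact Finset.prod_eq_zero (Finset.mem_univ 1) (by simp)
  have hfix : ∀ (g : E ≃ₐ[k] E) (n : ℕ), g (P.coeff n) = P.coeff n := by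
    intro g n
    have h1 : P.map (g : E →+* E) = P := by
      rw [hPdef, Polynomial.map_prod]
      simp only [Polynomial.map_sub, map_X, map_C, RingHom.coe_coe]
      exact Fintype.prod_equiv (Equiv.mulLeft g) _ _ fun _ => rfl
    have h2 := congrArg (fun p => Polynomial.coeff p n) h1
    simpa using h2
  have hcoef : ∀ n, P.coeff n ∈ Algebra.adjoin κ {algebraMap k E u} := by
    intro n
    obtain ⟨z, hz⟩ := (IsGalois.mem_range_algebraMap_iff_fixed (F := k) (P.coeff n)).mpr
      fun g => hfix g n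
    rw [← hz]
    refine polyk u hu (transk hD u δ hδ) z fun u0 => ?_
    obtain ⟨ζ, e, j, σ, g0, hpl, hζ, hg0, hj⟩ := place hD hP u hu δ hδ u0
    refine ⟨e, j, hpl.pos, hpl.ju, ?_⟩
    have hH0 : g0 ∈ H := hI u0 ζ e j σ g0 hpl hg0
    let S : Subring E :=
      (algebraMap (PowerSeries κ) (LaurentSeries κ)).range.comap (j : E →+* LaurentSeries κ)
    have hS : ∀ g : E ≃ₐ[k] E, g (δ b) ∈ S := by
      intro g
      have h1 : g0 (g b) = g b := by
        have h2 := hb _ (hH.conj_mem' g0 hH0 g)
        rw [AlgEquiv.mul_apply, AlgEquiv.mul_apply] at h2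
        have h3 := congrArg g h2
        rwa [← AlgEquiv.mul_apply, mul_inv_cancel, AlgEquiv.one_apply] at h3
      have h2 : IsIntegral (Algebra.adjoin κ {algebraMap k E u}) (g b) := by
        refine IsIntegral.map_of_comp_eq (RingHom.id _) (g : E →+* E) ?_ hint
        refine RingHom.ext fun r => ?_
        obtain ⟨p, hp⟩ := Algebra.adjoin_mem_exists_aeval κ _ r.2
        have : algebraMap (Algebra.adjoin κ {algebraMap k E u}) E r =
            algebraMap k E (aeval u p) := by
          rw [← aeval_algebraMap_apply, hp]; rfl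
        simp only [RingHom.comp_apply, RingHom.id_apply, this, RingHom.coe_coe, AlgEquiv.commutes]
      have h3 := regular hpl hζ (g b) h2 (by rw [← hg0, h1])
      rw [← hj, ← comm hD u hu δ hδ] at h3
      exact mem_range_of_pos h3
    have hl : P ∈ lifts S.subtype := by
      rw [hPdef]
      refine Subsemiring.prod_mem _ fun g _ => ?_
      exact (mem_lifts _).mpr ⟨X - Polynomial.C ⟨_, hS g⟩, by simp⟩
    obtain ⟨s, hs⟩ := (lifts_iff_coeff_lifts _).mp hl n
    rw [hz, ← hs]
    exact s.2
  have hl : P ∈ lifts (algebraMap (Algebra.adjoin κ {algebraMap k E u}) E) :=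
    (lifts_iff_coeff_lifts _).mpr fun n => ⟨⟨_, hcoef n⟩, rfl⟩
  obtain ⟨q, hq, -, hqm⟩ := lifts_and_natDegree_eq_and_monic hl hmon
  exact ⟨q, hqm, by rw [eval₂_eq_eval_map, hq, hroot]⟩

end Pool.Agent.MP_aa1ef7_ag.H20
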