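import Pool.Agent.MP_aa1ef7_ag.H20.Spec

/-! The affine line has no unramified cover: the rows `Eta2` and `Etale`. -/

namespace Pool.Agent.MP_aa1ef7_ag.H20

open Polynomial

namespace Eta2A

section Euler

variable {κ : Type} [Field κ]

/-- The Euler operator `t d/dt` on Laurent series. -/
noncomputable def eu (f : LaurentSeries κ) : LaurentSeries κ where
  coeff n := (n : κ) * f.coeff n
  isPWO_support' := f.isPWO_support.mono (by
    intro n hn
    simp only [Function.mem_support] at hn
    exact right_ne_zero_of_mul hn)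

theorem eu_coeff (f : LaurentSeries κ) (n : ℤ) : (eu f).coeff n = (n : κ) * f.coeff n := rfl

theorem eu_supp (f : LaurentSeries κ) : (eu f).support ⊆ f.support := by
  intro n hn
  simp only [HahnSeries.mem_support, eu_coeff] at hn ⊢
  exact right_ne_zero_of_mul hn

theorem eu_add (f g : LaurentSeries κ) : eu (f + g) = eu f + eu g := by
  ext n
  simp [eu_coeff, mul_add]

theorem eu_mul (f g : LaurentSeries κ) : eu (f * g) = f * eu g + g * eu f := by
  ext n
  rw [HahnSeries.coeff_add, mul_comm g, eu_coeff, HahnSeries.coeff_mul,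
    HahnSeries.coeff_mul_right' g.isPWO_support (eu_supp g),
    HahnSeries.coeff_mul_left' f.isPWO_support (eu_supp f), Finset.mul_sum,
    ← Finset.sum_add_distrib]
  refine Finset.sum_congr rfl fun ij hij => ?_
  have h : ij.1 + ij.2 = n := (Finset.mem_antidiagonal.mp hij).2.2
  rw [eu_coeff, eu_coeff, ← h]
  push_cast
  ring

theorem eu_single (m : ℤ) (a : κ) :
    eu (HahnSeries.single m a) = HahnSeries.single m ((m : κ) * a) := by
  ext n
  rw [eu_coeff]
  by_cases h : n = m
  · subst h; simp
  · simp [HahnSeries.coeff_single_of_ne h]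

/-- All coefficients below `m` vanish. -/
def Pos (m : ℤ) (f : LaurentSeries κ) : Prop := ∀ n < m, f.coeff n = 0

theorem Pos.mono {m m' : ℤ} {f : LaurentSeries κ} (h : Pos m f) (hm : m' ≤ m) : Pos m' f :=
  fun n hn => h n (lt_of_lt_of_le hn hm)

theorem pos_order (f : LaurentSeries κ) : Pos f.order f :=
  fun _ hn => HahnSeries.coeff_eq_zero_of_lt_order hn

theorem Pos.mul {f g : LaurentSeries κ} (hf : Pos 1 f) (hg : Pos 1 g) : Pos 1 (f * g) := by
  intro n hn
  rw [HahnSeries.coeff_mul]
  refine Finset.sum_eq_zero fun ij hij => ?_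
  have h : ij.1 + ij.2 = n := (Finset.mem_antidiagonal.mp hij).2.2
  by_cases h1 : ij.1 < 1
  · rw [hf _ h1, zero_mul]
  · rw [hg _ (by omega), mul_zero]

theorem Pos.step {m : ℤ} {f : LaurentSeries κ} (hf : Pos m f) (e : ℕ) (he : 0 < e) (a : κ) :
    Pos (m + 1) (HahnSeries.single (e : ℤ) a * eu f) := by
  intro n hn
  rw [HahnSeries.coeff_single_mul, eu_coeff, hf _ (by omega)]
  simp

theorem aeval_coeff (e : ℕ) (he : 0 < e) (p : κ[X]) (i : ℕ) :
    (aeval (HahnSeries.single (-(e : ℤ)) (1 : κ) : LaurentSeries κ) p).coeff (-(e : ℤ) * i) =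
      p.coeff i := by
  induction p using Polynomial.induction_on' with
  | add p q hp hq => rw [map_add, HahnSeries.coeff_add, hp, hq, Polynomial.coeff_add]
  | monomial n a =>
    rw [aeval_monomial, LaurentSeries.algebraMap_apply, HahnSeries.single_pow, one_pow,
      HahnSeries.C_apply, HahnSeries.single_mul_single, zero_add, mul_one,
      Polynomial.coeff_monomial]
    by_cases h : n = i
    · subst h
      rw [if_pos rfl, nsmul_eq_mul, mul_comm, HahnSeries.coeff_single_same]
    · rw [if_neg h, HahnSeries.coeff_single_of_ne]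
      rw [nsmul_eq_mul, mul_comm]
      intro h'
      have : (i : ℤ) = n := mul_right_cancel₀ (by omega : -(e : ℤ) ≠ 0) h'
      omega

theorem exists_deriv [CharZero κ] (p : κ[X]) : ∃ P : κ[X], derivative P = p := by
  induction p using Polynomial.induction_on' with
  | add p q hp hq =>
    obtain ⟨P, rfl⟩ := hp
    obtain ⟨Q, rfl⟩ := hq
    exact ⟨P + Q, derivative_add⟩
  | monomial n a =>
    refine ⟨monomial (n + 1) (a / ((n : κ) + 1)), ?_⟩
    rw [derivative_monomial_succ, div_mul_cancel₀]
    exact Nat.cast_add_one_ne_zero n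

end Euler

section Tower

variable {κ k E : Type} [Field κ] [CharZero κ] [Field k] [Field E] [Algebra κ k] [Algebra k E]
  [Algebra κ E] [IsScalarTower κ k E] [FiniteDimensional k E]

theorem deru2 (hD : DeruS) (u : k) (hu : IntermediateField.adjoin κ {u} = ⊤) {Ω : Type} [Field Ω]
    (φ : E →+* Ω) (D : E → Ω) (h1 : ∀ x y, D (x + y) = D x + D y)
    (h2 : ∀ x y, D (x * y) = φ x * D y + φ y * D x) (h3 : ∀ c, D (algebraMap κ E c) = 0)
    (h4 : D (algebraMap k E u) = 0) (x : E) : D x = 0 := by
  have : CharZero k := charZero_of_injective_algebraMap (algebraMap κ k).injective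
  have hk : ∀ y : k, D (algebraMap k E y) = 0 := by
    intro y
    refine (hD κ k Ω (φ.comp (algebraMap k E)) (fun y => D (algebraMap k E y)) ?_ ?_ ?_).2 {u} ?_ y
      ?_
    · intro a b; simp only [map_add, h1]
    · intro a b; simp only [map_mul, h2, RingHom.comp_apply]
    · intro c; rw [← IsScalarTower.algebraMap_apply]; exact h3 c
    · intro s hs; rw [Set.mem_singleton_iff.mp hs]; exact h4
    · rw [hu]; trivial
  exact (hD k E Ω φ D h1 h2 hk).1 x (Algebra.IsAlgebraic.isAlgebraic x)

omit [FiniteDimensional k E] [Algebra κ k] [IsScalarTower κ k E] in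
theorem transE (hD : DeruS) (u : k) (δ : Derivation κ E E) (hδ : δ (algebraMap k E u) = 1) :
    Transcendental κ (algebraMap k E u) := by
  intro h
  have := (hD κ E E (RingHom.id E) δ (fun x y => map_add δ x y)
    (fun x y => by simp [Derivation.leibniz]) (fun c => δ.map_algebraMap c)).1 _ h
  rw [hδ] at this
  exact one_ne_zero this

omit [FiniteDimensional k E] in
theorem transk (hD : DeruS) (u : k) (δ : Derivation κ E E) (hδ : δ (algebraMap k E u) = 1) :
    Transcendental κ u :=
  fun h => transE hD u δ hδ (h.algebraMap (A := E))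

theorem comm (hD : DeruS) (u : k) (hu : IntermediateField.adjoin κ {u} = ⊤)
    (δ : Derivation κ E E) (hδ : δ (algebraMap k E u) = 1) (g : E ≃ₐ[k] E) (x : E) :
    g (δ x) = δ (g x) := by
  rw [← sub_eq_zero]
  refine deru2 hD u hu (g : E →+* E) (fun x => g (δ x) - δ (g x)) ?_ ?_ ?_ ?_ x
  · intro a b; simp only [map_add]; ring
  · intro a b
    simp only [map_mul, Derivation.leibniz, smul_eq_mul, map_add, RingHom.coe_coe]; ring
  · intro c
    have : g (algebraMap κ E c) = algebraMap κ E c := by
      rw [IsScalarTower.algebraMap_apply κ k E, AlgEquiv.commutes]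
    simp only [this, δ.map_algebraMap, map_zero, sub_zero]
  · simp only [AlgEquiv.commutes, hδ, map_one, sub_self]

theorem comm_iter (hD : DeruS) (u : k) (hu : IntermediateField.adjoin κ {u} = ⊤)
    (δ : Derivation κ E E) (hδ : δ (algebraMap k E u) = 1) (g : E ≃ₐ[k] E) (N : ℕ) (x : E) :
    g (δ^[N] x) = δ^[N] (g x) := by
  induction N with
  | zero => rfl
  | succ N ih =>
    rw [Function.iterate_succ_apply', Function.iterate_succ_apply', comm hD u hu δ hδ, ih]

omit [CharZero κ] [FiniteDimensional k E] in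
/-- Integral elements of `k = κ(u)` are polynomials, and algebraic elements have an integral
multiple. -/
theorem intk (u : k) (hu : IntermediateField.adjoin κ {u} = ⊤)
    (ht : Transcendental κ (algebraMap k E u)) :
    (∀ z : k, IsIntegral (Algebra.adjoin κ {algebraMap k E u}) (algebraMap k E z) →
      ∃ p : κ[X], aeval (algebraMap k E u) p = algebraMap k E z) ∧
    ∀ b : E, IsAlgebraic k b → ∃ y : κ[X], y ≠ 0 ∧
      IsIntegral (Algebra.adjoin κ {algebraMap k E u}) (aeval (algebraMap k E u) y * b) := by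
  have htk : Transcendental κ u := fun h => ht (h.algebraMap (A := E))
  let : Algebra κ[X] k := (aeval u : κ[X] →ₐ[κ] k).toRingHom.toAlgebra
  let : Algebra κ[X] E := (aeval (algebraMap k E u) : κ[X] →ₐ[κ] E).toRingHom.toAlgebra
  have a1 : ∀ p : κ[X], algebraMap κ[X] k p = aeval u p := fun p => rfl
  have a2 : ∀ p : κ[X], algebraMap κ[X] E p = aeval (algebraMap k E u) p := fun p => rfl
  have : IsScalarTower κ[X] k E := IsScalarTower.of_algebraMap_eq fun p => by
    rw [a1, a2, aeval_algebraMap_apply]
  have : FaithfulSMul κ[X] k :=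
    (faithfulSMul_iff_algebraMap_injective _ _).mpr (transcendental_iff_injective.mp htk)
  have : IsFractionRing κ[X] k := IsFractionRing.of_field _ _ fun z => by
    have hz : z ∈ IntermediateField.adjoin κ {u} := by rw [hu]; trivial
    exact (IntermediateField.mem_adjoin_simple_iff κ z).mp hz
  let ε := Polynomial.algEquivOfTranscendental κ (algebraMap k E u) ht
  have hε : ∀ p : κ[X], algebraMap (Algebra.adjoin κ {algebraMap k E u}) E (ε p) =
      aeval (algebraMap k E u) p := by
    intro p
    rw [Polynomial.algEquivOfTranscendental_apply, ← aeval_algebraMap_apply]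
    rfl
  constructor
  · intro z hz
    have h1 : IsIntegral κ[X] (algebraMap k E z) := by
      refine IsIntegral.map_of_comp_eq (ε.symm : _ →+* κ[X]) (RingHom.id E) ?_ hz
      ext1 r
      obtain ⟨p, rfl⟩ := ε.surjective r
      simp only [RingHom.comp_apply, RingHom.coe_coe, AlgEquiv.symm_apply_apply, RingHom.id_apply]
      rw [a2, hε]
    have h2 : IsIntegral κ[X] z := (isIntegral_algebraMap_iff (algebraMap k E).injective).mp h1
    obtain ⟨p, hp⟩ := (IsIntegrallyClosed.isIntegral_iff (R := κ[X]) (K := k)).mp h2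
    exact ⟨p, by rw [← hp, a1, aeval_algebraMap_apply]⟩
  · intro b hb
    obtain ⟨y, hy, hi⟩ := ((IsFractionRing.isAlgebraic_iff κ[X] k E).mpr hb).exists_integral_multiple
    refine ⟨y, hy, ?_⟩
    rw [Algebra.smul_def, a2] at hi
    refine IsIntegral.map_of_comp_eq (ε : κ[X] →+* _) (RingHom.id E) ?_ hi
    refine RingHom.ext fun p => ?_
    simp only [RingHom.comp_apply, RingHom.coe_coe, RingHom.id_apply]
    rw [a2, hε]

theorem puis [IsAlgClosed κ] (hD : DeruS) (hP : PuiS) (u : k)
    (hu : IntermediateField.adjoin κ {u} = ⊤) (δ : Derivation κ E E)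
    (hδ : δ (algebraMap k E u) = 1) :
    ∃ (e : ℕ) (j : E →ₐ[κ] LaurentSeries κ), 0 < e ∧
      j (algebraMap k E u) = HahnSeries.single (-(e : ℤ)) 1 ∧
      ∀ x, j (δ x) = HahnSeries.single (e : ℤ) (-(e : κ)⁻¹) * eu (j x) := by
  have htk := transk hD u δ hδ
  have hv : Transcendental κ u⁻¹ := fun h => htk (IsAlgebraic.inv_iff.mp h)
  have hv' : IntermediateField.adjoin κ {u⁻¹} = ⊤ := by
    rw [eq_top_iff, ← hu, IntermediateField.adjoin_simple_le_iff]
    have := inv_mem (IntermediateField.mem_adjoin_simple_self κ u⁻¹)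
    rwa [inv_inv] at this
  obtain ⟨e, j, he, hj⟩ := hP κ k E u⁻¹ hv hv'
  have he' : (e : κ) ≠ 0 := Nat.cast_ne_zero.mpr he.ne'
  have hju : j (algebraMap k E u) = HahnSeries.single (-(e : ℤ)) 1 := by
    rw [map_inv₀, map_inv₀] at hj
    rw [← inv_inv (j (algebraMap k E u)), hj]
    refine inv_eq_of_mul_eq_one_right ?_
    rw [HahnSeries.single_mul_single]
    simp
  refine ⟨e, j, he, hju, fun x => ?_⟩
  rw [← sub_eq_zero]
  refine deru2 hD u hu (j : E →+* LaurentSeries κ)
    (fun x => j (δ x) - HahnSeries.single (e : ℤ) (-(e : κ)⁻¹) * eu (j x)) ?_ ?_ ?_ ?_ x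
  · intro a b; simp only [map_add, eu_add]; ring
  · intro a b
    simp only [map_mul, Derivation.leibniz, smul_eq_mul, map_add, RingHom.coe_coe, eu_mul]; ring
  · intro c
    simp only [δ.map_algebraMap, map_zero, AlgHom.commutes, LaurentSeries.algebraMap_apply,
      HahnSeries.C_apply, eu_single]
    simp
  · simp only [hδ, map_one, hju, eu_single, HahnSeries.single_mul_single]
    rw [add_neg_cancel]
    have : -(e : κ)⁻¹ * (((-(e : ℤ) : ℤ) : κ) * 1) = 1 := by
      push_cast
      field_simp
    rw [this, HahnSeries.single_zero_one, sub_self]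

end Tower

end Eta2A

open Eta2A

theorem Eta2A.eta2 : OfEta2 := by
  intro hD hP κ k E _ _ _ _ _ _ _ _ _ _ _ u δ hu hδ b hb
  obtain ⟨e, j, he, hju, hj⟩ := puis hD hP u hu δ hδ
  have he' : (e : κ) ≠ 0 := Nat.cast_ne_zero.mpr he.ne'
  have ht := transE hD u δ hδ
  have hjinj : Function.Injective j := (j : E →+* LaurentSeries κ).injective
  -- the order rises
  have hpos : ∀ (N : ℕ) (x : E), Pos ((j x).order + N) (j (δ^[N] x)) := by
    intro N x
    induction N with
    | zero => simpa using pos_order (j x)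
    | succ N ih =>
      rw [Function.iterate_succ_apply', hj]
      have := ih.step e he (-(e : κ)⁻¹)
      rwa [add_assoc, ← Nat.cast_succ] at this
  -- the kernel of `δ`
  have hker : ∀ x : E, δ x = 0 → ∃ a : κ, x = algebraMap κ E a := by
    intro x hx
    have h1 := hj x
    rw [hx, map_zero, eq_comm, mul_eq_zero] at h1
    have h2 : eu (j x) = 0 := by
      refine h1.resolve_left ?_
      rw [HahnSeries.single_eq_zero_iff]
      simpa using he.ne'
    refine ⟨(j x).coeff 0, hjinj ?_⟩
    rw [AlgHom.commutes, LaurentSeries.algebraMap_apply, HahnSeries.C_apply]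
    ext n
    by_cases hn : n = 0
    · subst hn; simp
    · rw [HahnSeries.coeff_single_of_ne hn]
      have h3 : (eu (j x)).coeff n = 0 := by rw [h2]; rfl
      rw [eu_coeff] at h3
      exact (mul_eq_zero.mp h3).resolve_left (Int.cast_ne_zero.mpr hn)
  -- nilpotent elements are polynomials
  have hnil : ∀ (N : ℕ) (x : E), δ^[N] x = 0 → ∃ p : κ[X], aeval (algebraMap k E u) p = x := by
    intro N
    induction N with
    | zero => intro x hx; exact ⟨0, by rw [map_zero]; exact hx.symm⟩
    | succ N ih =>
      intro x hx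
      rw [Function.iterate_succ_apply] at hx
      obtain ⟨p, hp⟩ := ih _ hx
      obtain ⟨P, rfl⟩ := exists_deriv p
      obtain ⟨a, ha⟩ := hker (x - aeval (algebraMap k E u) P) (by
        rw [map_sub, Derivation.map_aeval, hδ, smul_eq_mul, mul_one, hp, sub_self])
      refine ⟨P + Polynomial.C a, ?_⟩
      rw [map_add, aeval_C, ← ha]
      ring
  -- some iterate vanishes
  obtain ⟨N, hN⟩ : ∃ N : ℕ, ∀ g : E ≃ₐ[k] E, 1 ≤ (j (g b)).order + N := by
    obtain ⟨M, hM⟩ := (Set.finite_range fun g : E ≃ₐ[k] E => 1 - (j (g b)).order).bddAbove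
    refine ⟨M.toNat, fun g => ?_⟩
    have := hM ⟨g, rfl⟩
    simp only at this
    omega
  have hy : δ^[N] b = 0 := by
    classical
    have h1 : Pos 1 (j (∏ g : E ≃ₐ[k] E, g (δ^[N] b))) := by
      rw [map_prod]
      refine Finset.prod_induction_nonempty _ (Pos 1) (fun _ _ => Pos.mul) Finset.univ_nonempty ?_
      intro g _
      rw [comm_iter hD u hu δ hδ]
      exact (hpos N (g b)).mono (hN g)
    have h2 : IsIntegral (Algebra.adjoin κ {algebraMap k E u})
        (∏ g : E ≃ₐ[k] E, g (δ^[N] b)) := by
      refine IsIntegral.prod _ fun g _ => ?_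
      refine IsIntegral.map_of_comp_eq (RingHom.id _) (g : E →+* E) ?_ (hb N)
      refine RingHom.ext fun r => ?_
      obtain ⟨p, hp⟩ := Algebra.adjoin_mem_exists_aeval κ _ r.2
      have : algebraMap (Algebra.adjoin κ {algebraMap k E u}) E r = algebraMap k E (aeval u p) := by
        rw [← aeval_algebraMap_apply, hp]; rfl
      simp only [RingHom.comp_apply, RingHom.id_apply, this, RingHom.coe_coe, AlgEquiv.commutes]
    rw [← Algebra.norm_eq_prod_automorphisms] at h1 h2
    obtain ⟨p, hp⟩ := (intk u hu ht).1 _ h2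
    have hp0 : p = 0 := by
      ext i
      rw [← aeval_coeff e he p i, ← hju, aeval_algHom_apply, hp, Polynomial.coeff_zero]
      refine h1 _ ?_
      have : (0 : ℤ) ≤ (e : ℤ) * i := by positivity
      linarith
    rw [hp0, map_zero, eq_comm, map_eq_zero, Algebra.norm_eq_zero_iff] at hp
    exact hp
  obtain ⟨p, rfl⟩ := hnil N b hy
  exact Polynomial.aeval_mem_adjoin_singleton κ _

theorem Eta2A.etale : OfEtale := by
  intro hD h1 h2 κ k E _ _ _ _ _ _ _ _ _ _ _ u δ H hu hδ hH hI
  have ht := transE hD u δ hδ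
  have hfix : IntermediateField.fixedField H = ⊥ := by
    rw [eq_bot_iff]
    intro b hb
    rw [IntermediateField.mem_fixedField_iff] at hb
    obtain ⟨y, hy, hi⟩ := (intk u hu ht).2 b (Algebra.IsAlgebraic.isAlgebraic b)
    have hy' : aeval (algebraMap k E u) y ≠ 0 := fun h =>
      hy (transcendental_iff_injective.mp ht (by rw [h, map_zero]))
    have hf : ∀ N : ℕ, ∀ g ∈ H, g (δ^[N] (aeval (algebraMap k E u) y * b)) =
        δ^[N] (aeval (algebraMap k E u) y * b) := by
      intro N g hg
      rw [comm_iter hD u hu δ hδ, map_mul, hb g hg, aeval_algebraMap_apply, AlgEquiv.commutes]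
    have hall : ∀ N : ℕ, IsIntegral (Algebra.adjoin κ {algebraMap k E u})
        (δ^[N] (aeval (algebraMap k E u) y * b)) := by
      intro N
      induction N with
      | zero => exact hi
      | succ N ih =>
        rw [Function.iterate_succ_apply']
        exact h1 κ k E u δ H hu hδ hH hI _ (hf N) ih
    obtain ⟨p, hp⟩ := Algebra.adjoin_mem_exists_aeval κ _ (h2 κ k E u δ hu hδ _ hall)
    rw [IntermediateField.mem_bot]
    refine ⟨aeval u p / aeval u y, ?_⟩
    rw [map_div₀, ← aeval_algebraMap_apply, ← aeval_algebraMap_apply, hp]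
    field_simp
  rw [← IntermediateField.fixingSubgroup_fixedField H, hfix, IntermediateField.fixingSubgroup_bot]

theorem rowEta2 : OfEta2 ∧ OfEtale := ⟨Eta2A.eta2, Eta2A.etale⟩

end Pool.Agent.MP_aa1ef7_ag.H20
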