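import Pool.Agent.MP_aa1ef7_ag.H20.Spec

/-! Power series expansion at a point with principal ideal, and Puiseux expansion. -/

namespace Pool.Agent.MP_aa1ef7_ag.H20

namespace ExpA

theorem expansion : ExpS := by
  intro κ O _ _ _ _ _ χ π hπ hk
  have hex : ∀ b : O, ∃ c, b - algebraMap κ O (χ b) = π * c := fun b =>
    (hk _).1 (by simp)
  choose D hD using hex
  have hadd : ∀ a b, D (a + b) = D a + D b := fun a b =>
    mul_left_cancel₀ hπ (by rw [mul_add, ← hD, ← hD, ← hD, map_add, map_add]; ring)
  have hsmul : ∀ (c : κ) a, D (algebraMap κ O c * a) = algebraMap κ O c * D a := fun c a =>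
    mul_left_cancel₀ hπ (by
      rw [← hD, mul_left_comm, ← hD, map_mul, AlgHom.commutes, map_mul]
      simp only [Algebra.algebraMap_self, RingHom.id_apply]; ring)
  have hmul : ∀ a b, D (a * b) = D a * b + algebraMap κ O (χ a) * D b := fun a b =>
    mul_left_cancel₀ hπ (by
      rw [← hD, mul_add, ← mul_assoc, ← hD, mul_left_comm, ← hD, map_mul, map_mul]; ring)
  have hconst : ∀ c : κ, D (algebraMap κ O c) = 0 := fun c =>
    mul_left_cancel₀ hπ (by rw [← hD]; simp)
  let E : O → PowerSeries κ := fun b => PowerSeries.mk fun j => χ (D^[j] b)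
  have h0 : ∀ b, PowerSeries.coeff 0 (E b) = χ b := fun b => by simp [E]
  have hs : ∀ b j, PowerSeries.coeff (j + 1) (E b) = PowerSeries.coeff j (E (D b)) := fun b j => by
    simp only [E, PowerSeries.coeff_mk, Function.iterate_succ_apply]
  have hrec : ∀ b, E b = PowerSeries.C (χ b) + PowerSeries.X * E (D b) := fun b => by
    ext j
    rcases j with _ | j
    · simp [h0]
    · rw [hs, map_add, PowerSeries.coeff_succ_X_mul, PowerSeries.coeff_C]; simp
  have Eadd : ∀ a b, E (a + b) = E a + E b := by
    have : ∀ j a b, PowerSeries.coeff j (E (a + b)) = PowerSeries.coeff j (E a + E b) := by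
      intro j
      induction j with
      | zero => intro a b; rw [map_add, h0, h0, h0, map_add]
      | succ j ih => intro a b; rw [hs, hadd, ih, map_add, map_add, hs, hs]
    intro a b; ext j; exact this j a b
  have Esmul : ∀ (c : κ) a, E (algebraMap κ O c * a) = PowerSeries.C c * E a := by
    have : ∀ j (c : κ) a, PowerSeries.coeff j (E (algebraMap κ O c * a)) =
        PowerSeries.coeff j (PowerSeries.C c * E a) := by
      intro j
      induction j with
      | zero => intro c a; rw [PowerSeries.coeff_C_mul, h0, h0, map_mul, AlgHom.commutes]; rfl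
      | succ j ih =>
        intro c a; rw [hs, hsmul, ih, PowerSeries.coeff_C_mul, PowerSeries.coeff_C_mul, hs]
    intro c a; ext j; exact this j c a
  have E0 : E 0 = 0 := by
    have := Esmul 0 0
    simpa using this
  have Econst : ∀ c : κ, E (algebraMap κ O c) = PowerSeries.C c := fun c => by
    rw [hrec, hconst, E0, AlgHom.commutes]; simp
  have Emul : ∀ a b, E (a * b) = E a * E b := by
    have : ∀ j a b, PowerSeries.coeff j (E (a * b)) = PowerSeries.coeff j (E a * E b) := by
      intro j
      induction j with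
      | zero =>
        intro a b
        rw [PowerSeries.coeff_zero_eq_constantCoeff, map_mul,
          ← PowerSeries.coeff_zero_eq_constantCoeff, h0, h0, h0, map_mul]
      | succ j ih =>
        intro a b
        have e1 : E a * E b = PowerSeries.C (χ a * χ b) +
            PowerSeries.X * (E (D a) * E b + PowerSeries.C (χ a) * E (D b)) := by
          conv_lhs => rw [hrec a, add_mul]
          conv_lhs => enter [1, 2]; rw [hrec b]
          rw [map_mul]; ring
        rw [hs, hmul, Eadd, Esmul, e1, map_add, map_add, PowerSeries.coeff_succ_X_mul, map_add, ih,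
          PowerSeries.coeff_C]
        simp
    intro a b; ext j; exact this j a b
  let Eh : O →ₐ[κ] PowerSeries κ :=
    { toFun := E
      map_one' := by simpa using Econst 1
      map_mul' := Emul
      map_zero' := E0
      map_add' := Eadd
      commutes' := fun c => by rw [Econst]; rfl }
  refine ⟨Eh, (injective_iff_map_eq_zero Eh).2 fun b hb => ?_, ?_, fun b => ?_⟩
  · have hb' : ∀ j, χ (D^[j] b) = 0 := fun j => by
      have := congrArg (PowerSeries.coeff j) (show E b = 0 from hb)
      simpa [E] using this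
    have hpow : ∀ j, b = π ^ j * D^[j] b := by
      intro j
      induction j with
      | zero => simp
      | succ j ih =>
        have := hD (D^[j] b)
        rw [hb', map_zero, sub_zero] at this
        rw [Function.iterate_succ_apply', pow_succ, mul_assoc, ← this]
        exact ih
    have hne : Ideal.span {π} ≠ ⊤ := by
      intro h
      have hu := Ideal.span_singleton_eq_top.1 h
      have : χ 1 = 0 := (hk 1).2 hu.dvd
      simp at this
    have hbot := Ideal.iInf_pow_eq_bot_of_isDomain (Ideal.span {π}) hne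
    have : b ∈ ⨅ i : ℕ, (Ideal.span {π}) ^ i := by
      refine Submodule.mem_iInf _ |>.2 fun j => ?_
      rw [Ideal.span_singleton_pow, Ideal.mem_span_singleton]
      exact ⟨_, hpow j⟩
    rw [hbot] at this
    exact this
  · have h1 : χ π = 0 := (hk π).2 dvd_rfl
    have h2 : D π = algebraMap κ O 1 :=
      mul_left_cancel₀ hπ (by rw [← hD, h1, map_zero, map_one, sub_zero, mul_one])
    change E π = _
    rw [hrec, h1, h2, Econst, map_zero, map_one, zero_add, mul_one]
  · rw [← PowerSeries.coeff_zero_eq_constantCoeff_apply]; exact h0 b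

theorem exists_root {κ : Type} [Field κ] [IsAlgClosed κ] [CharZero κ] (w : PowerSeries κ)
    (hw : PowerSeries.constantCoeff w ≠ 0) {e : ℕ} (he : 0 < e) : ∃ u, u ^ e = w := by
  obtain ⟨c, hc⟩ := IsAlgClosed.exists_pow_nat_eq (PowerSeries.constantCoeff w) he
  have hc0 : c ≠ 0 := by
    rintro rfl
    rw [zero_pow he.ne'] at hc
    exact hw hc.symm
  obtain ⟨u, hu, -⟩ := HenselianRing.is_henselian (I := Ideal.span {(PowerSeries.X : PowerSeries κ)})
    (Polynomial.X ^ e - Polynomial.C w) (Polynomial.monic_X_pow_sub_C w he.ne') (PowerSeries.C c)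
    (by
      rw [Ideal.mem_span_singleton, PowerSeries.X_dvd_iff]
      simp [hc])
    (by
      refine IsUnit.map _ ?_
      rw [PowerSeries.isUnit_iff_constantCoeff, isUnit_iff_ne_zero]
      simp [Polynomial.derivative_X_pow, hc0, he.ne'])
  exact ⟨u, by simpa [sub_eq_zero] using hu⟩

/-- A change of the parameter turns a series of positive order into a power of `X`. -/
theorem normalise (hE : ExpS) {κ : Type} [Field κ] [IsAlgClosed κ] [CharZero κ]
    (s : PowerSeries κ) (hs : s ≠ 0) (h0 : PowerSeries.constantCoeff s = 0) :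
    ∃ (e : ℕ) (F : PowerSeries κ →ₐ[κ] PowerSeries κ), 0 < e ∧ Function.Injective F ∧
      F s = PowerSeries.X ^ e := by
  have h1 := PowerSeries.X_pow_order_mul_divXPowOrder (f := s)
  have h2 : PowerSeries.constantCoeff (PowerSeries.divXPowOrder s) ≠ 0 := by
    rwa [Ne, PowerSeries.constantCoeff_divXPowOrder_eq_zero_iff]
  generalize s.order.toNat = e at h1
  generalize PowerSeries.divXPowOrder s = w at h1 h2
  have he : 0 < e := by
    refine Nat.pos_of_ne_zero fun h => h2 ?_
    rw [h, pow_zero, one_mul] at h1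
    rwa [h1]
  obtain ⟨u, rfl⟩ := exists_root w h2 he
  have hu : IsUnit u := by
    rw [PowerSeries.isUnit_iff_constantCoeff, isUnit_iff_ne_zero]
    intro h
    exact h2 (by rw [map_pow, h, zero_pow he.ne'])
  let χ : PowerSeries κ →ₐ[κ] κ :=
    { (PowerSeries.constantCoeff : PowerSeries κ →+* κ) with commutes' := fun c => by simp }
  obtain ⟨F, hF, hX, -⟩ := hE κ (PowerSeries κ) χ (PowerSeries.X * u)
    (mul_ne_zero PowerSeries.X_ne_zero hu.ne_zero) fun b => by
      rw [hu.mul_right_dvd, PowerSeries.X_dvd_iff]; rfl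
  exact ⟨e, F, he, hF, by rw [← h1, ← mul_pow, map_pow, hX]⟩

theorem dedekind (hE : ExpS) {κ B : Type} [Field κ] [CommRing B] [IsDedekindDomain B]
    [Algebra κ B] (χ₀ : B →ₐ[κ] κ) (t : B) (ht : t ≠ 0) (h0 : χ₀ t = 0) :
    ∃ E : B →ₐ[κ] PowerSeries κ, Function.Injective E ∧
      ∀ b, PowerSeries.constantCoeff (E b) = χ₀ b := by
  let m : Ideal B := RingHom.ker χ₀
  have hm : m.IsPrime := RingHom.ker_isPrime χ₀
  have hm0 : m ≠ ⊥ := fun h => ht (by
    have h1 : t ∈ m := h0
    rwa [h, Ideal.mem_bot] at h1)
  let O := Localization.AtPrime m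
  have : IsDiscreteValuationRing O :=
    IsLocalization.AtPrime.isDiscreteValuationRing_of_dedekind_domain B hm0 O
  let χ : O →ₐ[κ] κ := IsLocalization.liftAlgHom (M := m.primeCompl) (f := χ₀) fun y =>
    isUnit_iff_ne_zero.2 y.2
  have hχ : ∀ b : B, χ (algebraMap B O b) = χ₀ b := fun b => by simp [χ]
  obtain ⟨π, hπ⟩ := IsDiscreteValuationRing.exists_irreducible O
  have hmax : (RingHom.ker χ).IsMaximal :=
    RingHom.ker_isMaximal_of_surjective χ fun c => ⟨algebraMap κ O c, by simp⟩
  have hker : RingHom.ker χ = Ideal.span {π} :=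
    (IsLocalRing.eq_maximalIdeal hmax).trans hπ.maximalIdeal_eq
  obtain ⟨E, hE, -, hE0⟩ := hE κ O χ π hπ.ne_zero fun b => by
    rw [← Ideal.mem_span_singleton, ← hker, RingHom.mem_ker]
  refine ⟨E.comp (IsScalarTower.toAlgHom κ B O), hE.comp
    (IsLocalization.injective O m.primeCompl_le_nonZeroDivisors), fun b => ?_⟩
  simp only [AlgHom.comp_apply, IsScalarTower.toAlgHom_apply, hE0, hχ]

theorem exists_point {κ B : Type} [Field κ] [IsAlgClosed κ] [CommRing B] [Algebra κ B]
    [Algebra (Polynomial κ) B] [IsScalarTower κ (Polynomial κ) B]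
    [Algebra.IsIntegral (Polynomial κ) B]
    (hi : Function.Injective (algebraMap (Polynomial κ) B)) :
    ∃ χ : B →ₐ[κ] κ, χ (algebraMap (Polynomial κ) B Polynomial.X) = 0 := by
  have hP : (Ideal.span {(Polynomial.X : Polynomial κ)}).IsMaximal :=
    PrincipalIdealRing.isMaximal_of_irreducible Polynomial.irreducible_X
  obtain ⟨Q, hQ, hQP⟩ := Ideal.exists_ideal_over_maximal_of_isIntegral (S := B)
    (Ideal.span {(Polynomial.X : Polynomial κ)}) (by
      rw [(RingHom.injective_iff_ker_eq_bot _).1 hi]; exact bot_le)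
  have hX : Ideal.Quotient.mk Q (algebraMap (Polynomial κ) B Polynomial.X) = 0 := by
    rw [Ideal.Quotient.eq_zero_iff_mem, ← Ideal.mem_comap, hQP]
    exact Ideal.mem_span_singleton_self _
  have hc : (Ideal.Quotient.mk Q).comp (algebraMap (Polynomial κ) B) =
      (algebraMap κ (B ⧸ Q)).comp (Polynomial.evalRingHom 0) := by
    refine Polynomial.ringHom_ext (fun a => ?_) ?_
    · simp only [RingHom.comp_apply, Polynomial.coe_evalRingHom, Polynomial.eval_C]
      rw [← Polynomial.algebraMap_eq, ← IsScalarTower.algebraMap_apply]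
      rfl
    · simp only [RingHom.comp_apply, hX, Polynomial.coe_evalRingHom, Polynomial.eval_X, map_zero]
  have : Algebra.IsIntegral κ (B ⧸ Q) := ⟨fun z => by
    obtain ⟨b, rfl⟩ := Ideal.Quotient.mk_surjective z
    obtain ⟨p, hp, hb⟩ := Algebra.IsIntegral.isIntegral (R := Polynomial κ) b
    refine ⟨p.map (Polynomial.evalRingHom 0), hp.map _, ?_⟩
    rw [Polynomial.eval₂_map, ← hc, ← Polynomial.hom_eval₂, hb, map_zero]⟩
  let := Ideal.Quotient.field Q
  refine ⟨(IsAlgClosed.lift : (B ⧸ Q) →ₐ[κ] κ).comp (Ideal.Quotient.mkₐ κ Q), ?_⟩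
  rw [AlgHom.comp_apply, Ideal.Quotient.mkₐ_eq_mk, hX, map_zero]

theorem puiseux : OfPui := by
  intro hE κ k E _ _ _ _ _ _ _ _ _ _ v hv htop
  let : Algebra (Polynomial κ) k := (Polynomial.aeval v : Polynomial κ →ₐ[κ] k).toRingHom.toAlgebra
  let : Algebra (Polynomial κ) E :=
    ((algebraMap k E).comp (algebraMap (Polynomial κ) k)).toAlgebra
  have : IsScalarTower (Polynomial κ) k E := IsScalarTower.of_algebraMap_eq fun _ => rfl
  have hk : ∀ p, algebraMap (Polynomial κ) k p = Polynomial.aeval v p := fun _ => rfl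
  have : IsScalarTower κ (Polynomial κ) E := IsScalarTower.of_algebraMap_eq fun c => by
    rw [IsScalarTower.algebraMap_apply (Polynomial κ) k E, hk, AlgHom.commutes,
      ← IsScalarTower.algebraMap_apply]
  have hi : Function.Injective (algebraMap (Polynomial κ) k) :=
    transcendental_iff_injective.1 hv
  have : FaithfulSMul (Polynomial κ) k := (faithfulSMul_iff_algebraMap_injective _ _).2 hi
  have : IsFractionRing (Polynomial κ) k := IsFractionRing.of_field _ _ fun z =>
    (IntermediateField.mem_adjoin_simple_iff κ z).1 (htop ▸ IntermediateField.mem_top)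
  have : CharZero k := charZero_of_injective_algebraMap (algebraMap κ k).injective
  let B := integralClosure (Polynomial κ) E
  have : IsDedekindDomain B := IsIntegralClosure.isDedekindDomain (Polynomial κ) k E B
  have : IsFractionRing B E := IsIntegralClosure.isFractionRing_of_finite_extension
    (Polynomial κ) k E B
  have hiB : Function.Injective (algebraMap (Polynomial κ) B) := fun a b h =>
    hi ((algebraMap k E).injective (congrArg Subtype.val h))
  obtain ⟨χ, hχ⟩ := exists_point hiB
  have ht : algebraMap (Polynomial κ) B Polynomial.X ≠ 0 :=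
    (map_ne_zero_iff _ hiB).2 Polynomial.X_ne_zero
  obtain ⟨E1, h1, h1'⟩ := dedekind hE χ _ ht hχ
  obtain ⟨e, F, he, hF, hFs⟩ := normalise hE (E1 (algebraMap (Polynomial κ) B Polynomial.X))
    ((map_ne_zero_iff _ h1).2 ht) (by rw [h1', hχ])
  let ι : PowerSeries κ →ₐ[κ] LaurentSeries κ :=
    { algebraMap (PowerSeries κ) (LaurentSeries κ) with commutes' := fun _ => rfl }
  let G : B →ₐ[κ] LaurentSeries κ := ι.comp (F.comp E1)
  have hG : Function.Injective G :=
    (IsFractionRing.injective (PowerSeries κ) (LaurentSeries κ)).comp (hF.comp h1)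
  refine ⟨e, IsFractionRing.liftAlgHom (K := E) hG, he, ?_⟩
  have e1 : algebraMap k E v = algebraMap B E (algebraMap (Polynomial κ) B Polynomial.X) := by
    rw [← IsScalarTower.algebraMap_apply, IsScalarTower.algebraMap_apply (Polynomial κ) k E, hk,
      Polynomial.aeval_X]
  rw [e1, IsFractionRing.liftAlgHom_apply, IsFractionRing.lift_algebraMap]
  change algebraMap (PowerSeries κ) (LaurentSeries κ) (F (E1 _)) = _
  rw [hFs, map_pow, LaurentSeries.coe_algebraMap, HahnSeries.ofPowerSeries_X,
    HahnSeries.single_pow]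
  simp

end ExpA

theorem rowExp : ExpS ∧ OfPui := ⟨ExpA.expansion, ExpA.puiseux⟩

end Pool.Agent.MP_aa1ef7_ag.H20
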