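import Pool.Agent.MP_aa1ef7_ag.H20.Spec

/-! Fields and derivations attached to algebraically independent coefficients. -/

namespace Pool.Agent.MP_aa1ef7_ag.H20

open Pool.Agent.MP_aa1ef7_ag.H40

namespace FldA

open Set Polynomial

lemma smooth_of_charZero (K L : Type) [Field K] [Field L] [Algebra K L] [CharZero K] :
    Algebra.FormallySmooth K L := by
  obtain ⟨s, hs⟩ := exists_isTranscendenceBasis K L
  have := hs.isAlgebraic_field
  have : CharZero (IntermediateField.adjoin K (range ((↑) : s → L))) :=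
    charZero_of_injective_algebraMap (algebraMap K _).injective
  exact .of_algebraicIndependent_of_isSeparable hs.1

/-- A transcendental element is moved by some derivation. -/
lemma exists_der {k : Subfield ℂ} {x : ℂ} (h : ¬ IsAlgebraic k x) :
    ∃ D : Derivation ℤ ℂ ℂ, (∀ z ∈ k, D z = 0) ∧ D x = 1 := by
  let f : k[X] →ₐ[k] ℂ := aeval x
  let g : k[X] →ₐ[k] DualNumber ℂ := aeval (TrivSqZeroExt.inl x + DualNumber.eps)
  have hfg : ∀ p, (g p).fst = f p := fun p => by
    have : (TrivSqZeroExt.fstHom k ℂ ℂ).comp g = f := algHom_ext (by simp [f, g])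
    exact DFunLike.congr_fun this p
  let : Algebra k[X] ℂ := f.toRingHom.toAlgebra
  have : FaithfulSMul k[X] ℂ :=
    (faithfulSMul_iff_algebraMap_injective _ _).2 (transcendental_iff_injective.1 h)
  let := FractionRing.liftAlgebra k[X] ℂ
  have : CharZero (FractionRing k[X]) :=
    charZero_of_injective_algebraMap (IsFractionRing.injective k[X] _)
  have := smooth_of_charZero (FractionRing k[X]) ℂ
  have : Algebra.FormallySmooth k[X] (FractionRing k[X]) :=
    .of_isLocalization (nonZeroDivisors _)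
  have : Algebra.FormallySmooth k[X] ℂ := .comp _ (FractionRing k[X]) _
  let : Algebra k[X] (DualNumber ℂ) := g.toRingHom.toAlgebra
  let π : DualNumber ℂ →ₐ[k[X]] ℂ :=
    { (TrivSqZeroExt.fstHom ℂ ℂ ℂ).toRingHom with commutes' := hfg }
  have hs : Function.Surjective π := fun c => ⟨TrivSqZeroExt.inl c, rfl⟩
  have hn : IsNilpotent (RingHom.ker (π : DualNumber ℂ →+* ℂ)) := ⟨2, by
    refine (Submodule.pow_succ _ (n := 1)).trans ?_
    rw [Submodule.pow_one, Ideal.zero_eq_bot, eq_bot_iff, Ideal.mul_le]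
    intro a ha b hb
    have ha' : a.fst = 0 := ha
    have hb' : b.fst = 0 := hb
    exact TrivSqZeroExt.ext (by simp [ha']) (by simp [ha', hb'])⟩
  let l := Algebra.FormallySmooth.liftOfSurjective (AlgHom.id k[X] ℂ) π hs hn
  have h1 : ∀ c, (l c).fst = c := fun c =>
    Algebra.FormallySmooth.liftOfSurjective_apply (AlgHom.id k[X] ℂ) π hs hn c
  have h2 : ∀ p, l (f p) = g p := fun p => l.commutes p
  have h3 : ∀ c : k, (l c).snd = 0 := fun c => by
    have := h2 (C c)
    simp only [f, g, aeval_C] at this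
    exact (congrArg TrivSqZeroExt.snd this).trans rfl
  have h4 : ∀ a b, (l (a * b)).snd = a * (l b).snd + b * (l a).snd := fun a b => by
    rw [map_mul, DualNumber.snd_mul, h1, h1, mul_comm (l a).snd]
  let L : ℂ →+ ℂ := ⟨⟨fun c => (l c).snd, by simp⟩, fun a b => by simp⟩
  refine ⟨Derivation.mk' L.toIntLinearMap h4, fun z hz => h3 ⟨z, hz⟩, ?_⟩
  have := h2 X
  simp only [f, g, aeval_X] at this
  change (l x).snd = 1
  rw [this]; simp

lemma alg_of_le {A B : Type} [Field A] [Field B] [Algebra A ℂ] [Algebra B ℂ]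
    (h : ∀ a : A, ∃ b : B, algebraMap B ℂ b = algebraMap A ℂ a) {z : ℂ} (hz : IsAlgebraic A z) :
    IsAlgebraic B z := by
  obtain ⟨p, hp, hz⟩ := hz
  have hl : p.map (algebraMap A ℂ) ∈ lifts (algebraMap B ℂ) :=
    (lifts_iff_coeff_lifts _).2 fun n => by rw [coeff_map]; exact h _
  obtain ⟨q, hq⟩ := (mem_lifts _).1 hl
  refine ⟨q, fun h0 => hp ?_, ?_⟩
  · rw [h0, Polynomial.map_zero] at hq
    exact (Polynomial.map_eq_zero _).1 hq.symm
  · rw [aeval_def, ← eval_map, hq, eval_map, ← aeval_def, hz]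

/-- The elements algebraic over the field generated by `S`. -/
noncomputable def kk (S : Set ℂ) : Subfield ℂ :=
  (algebraicClosure (IntermediateField.adjoin ℚ S) ℂ).toSubfield

lemma mem_kk {S : Set ℂ} {z : ℂ} : z ∈ kk S ↔ IsAlgebraic (IntermediateField.adjoin ℚ S) z :=
  mem_algebraicClosure_iff

lemma adj_le {S : Set ℂ} {T : Subfield ℂ} (h : S ⊆ T) {z : ℂ}
    (hz : z ∈ IntermediateField.adjoin ℚ S) : z ∈ T := by
  have : (IntermediateField.adjoin ℚ S).toSubfield ≤ T := by
    rw [IntermediateField.adjoin_toSubfield, Subfield.closure_le]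
    rintro _ (⟨c, rfl⟩ | hc)
    · exact SubfieldClass.ratCast_mem T c
    · exact h hc
  exact this hz

lemma sub_kk {S : Set ℂ} {z : ℂ} (h : z ∈ S) : z ∈ kk S :=
  mem_kk.2 (isAlgebraic_algebraMap
    (⟨z, IntermediateField.subset_adjoin _ _ h⟩ : IntermediateField.adjoin ℚ S))

lemma kk_mono {S T : Set ℂ} (h : S ⊆ T) : kk S ≤ kk T := fun _ hz =>
  mem_kk.2 (alg_of_le (fun a => ⟨⟨a.1, IntermediateField.adjoin.mono _ _ _ h a.2⟩, rfl⟩)
    (mem_kk.1 hz))

lemma kk_cl {S : Set ℂ} {z : ℂ} (h : IsAlgebraic (kk S) z) : z ∈ kk S := by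
  have h1 : IsAlgebraic (algebraicClosure (IntermediateField.adjoin ℚ S) ℂ) z :=
    alg_of_le (fun a => ⟨⟨a.1, a.2⟩, rfl⟩) h
  exact mem_kk.2 (h1.restrictScalars _)

lemma kk_alg {B S U : Set ℂ} (hB : IsTranscendenceBasis ℚ ((↑) : B → ℂ)) (h : B ⊆ S ∪ U) (z : ℂ) :
    IsAlgebraic (IntermediateField.adjoin (kk S) U) z := by
  have h1 := hB.isAlgebraic_field.isAlgebraic z
  refine alg_of_le (fun a => ⟨⟨a.1, ?_⟩, rfl⟩) h1
  refine adj_le (T := (IntermediateField.adjoin (kk S) U).toSubfield) ?_ a.2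
  rintro _ ⟨b, rfl⟩
  rcases h b.2 with hb | hb
  · exact (IntermediateField.adjoin (kk S) U).algebraMap_mem ⟨b.1, sub_kk hb⟩
  · exact IntermediateField.subset_adjoin _ _ hb

lemma kk_ind {B U : Set ℂ} (hB : AlgebraicIndependent ℚ ((↑) : B → ℂ)) {ι : Type} {u : ι → ℂ}
    (hu : Function.Injective u) (hub : ∀ i, u i ∈ B) (hU : ∀ i, u i ∈ U) :
    AlgebraicIndependent (kk (B \ U)) u := by
  have h1 := hB.adjoin_of_disjoint (s := {b : B | b.1 ∉ U}) (t := {b : B | b.1 ∈ U})
    (disjoint_left.2 fun _ h h' => h h')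
  have e : ((↑) : B → ℂ) '' {b : B | b.1 ∉ U} = B \ U := by
    ext z
    exact ⟨fun ⟨b, hb, e⟩ => e ▸ ⟨b.2, hb⟩, fun h => ⟨⟨z, h.1⟩, h.2, rfl⟩⟩
  rw [e] at h1
  have h2 : AlgebraicIndependent (Algebra.adjoin ℚ (B \ U)) u :=
    h1.comp (fun i => ⟨⟨u i, hub i⟩, hU i⟩) fun i j h =>
      hu (congrArg (fun b : {b : B | b.1 ∈ U} => b.1.1) h)
  exact (IntermediateField.algebraicIndependent_adjoin_iff.2 h2).algebraicClosure

end FldA

open FldA MvPolynomial

theorem rowFld : FldS := by
  intro d l hd h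
  have hne : ∀ p : MvPolynomial (Fin (d + 1) × Fin 3) ℚ, p ≠ 0 → aeval (coef l) p ≠ 0 :=
    fun p hp e => hp (h (e.trans (map_zero _).symm))
  have hinj := h.injective
  refine ⟨⟨hd, ⟨fun i j hij => ?_, fun i j k hij hik hjk p ⟨h1, h2, h3⟩ => ?_⟩, fun m => ?_⟩, ?_⟩
  · have := hne (X (i, 0) * X (j, 1) - X (j, 0) * X (i, 1)) fun e => by
      have := congrArg (eval fun x => if x = (i, 0) ∨ x = (j, 1) then (1 : ℚ) else 0) e
      simp [hij, hij.symm] at this
    simpa [coef] using this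
  · have := hne (X (i, 0) * (X (j, 1) * X (k, 2) - X (k, 1) * X (j, 2))
        - X (j, 0) * (X (i, 1) * X (k, 2) - X (k, 1) * X (i, 2))
        + X (k, 0) * (X (i, 1) * X (j, 2) - X (j, 1) * X (i, 2))) fun e => by
      have := congrArg
        (eval fun x => if x = (i, 0) ∨ x = (j, 1) ∨ x = (k, 2) then (1 : ℚ) else 0) e
      simp [hij, hij.symm, hik, hik.symm, hjk, hjk.symm] at this
    apply this
    simp only [lin, map_add, map_mul, eval_C, eval_X] at h1 h2 h3
    simp only [map_add, map_sub, map_mul, aeval_X, coef, Matrix.cons_val_zero, Matrix.cons_val_one,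
      Matrix.cons_val]
    linear_combination ((l j).1 * (l k).2.1 - (l k).1 * (l j).2.1) * h1
      - ((l i).1 * (l k).2.1 - (l k).1 * (l i).2.1) * h2
      + ((l i).1 * (l j).2.1 - (l j).1 * (l i).2.1) * h3
  · simpa [coef] using hne (X (m, 1)) (X_ne_zero _)
  · obtain ⟨B, hsub, hB⟩ := exists_isTranscendenceBasis_superset (R := ℚ) (s := Set.range (coef l))
      h.to_subtype_range
    have hmem : ∀ x, coef l x ∈ B := fun x => hsub ⟨x, rfl⟩
    have hu : Function.Injective fun i => (l i).2.2 := fun i j e =>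
      congrArg Prod.fst (hinj (a₁ := (i, 2)) (a₂ := (j, 2)) e)
    have hoff : ∀ m (s : Fin 3), s ≠ 2 → coef l (m, s) ∉ Set.range fun i => (l i).2.2 := by
      rintro m s hs ⟨i, e⟩
      exact hs (congrArg Prod.snd (hinj (a₁ := (i, 2)) (a₂ := (m, s)) e)).symm
    have htr : ∀ i, ¬ IsAlgebraic (kk (B \ {(l i).2.2})) (l i).2.2 := fun i =>
      (kk_ind (U := {(l i).2.2}) hB.1 (u := fun _ : Unit => (l i).2.2)
        (Function.injective_of_subsingleton _) (fun _ => hmem (i, 2)) fun _ => rfl).transcendental ()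
    choose δ hδ hδ' using fun i => exists_der (htr i)
    exact ⟨{ k0 := kk (B \ Set.range fun i => (l i).2.2)
             k := fun i => kk (B \ {(l i).2.2})
             δ := δ
             dir0 := fun m => ⟨sub_kk ⟨hmem (m, 0), hoff m 0 (by decide)⟩,
               sub_kk ⟨hmem (m, 1), hoff m 1 (by decide)⟩⟩
             le := fun i => kk_mono fun z hz => ⟨hz.1, fun e => hz.2 ⟨i, e.symm⟩⟩
             mem := fun i j hji => sub_kk ⟨hmem (j, 2), fun e => hji (hu e)⟩
             cl0 := fun _ => kk_cl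
             cl := fun _ _ => kk_cl
             ind := kk_ind hB.1 hu (fun i => hmem (i, 2)) fun i => ⟨i, rfl⟩
             alg0 := kk_alg hB (Set.subset_sdiff_union _ _)
             alg := fun _ => kk_alg hB (Set.subset_sdiff_union _ _)
             dz := hδ
             du := hδ' }⟩

end Pool.Agent.MP_aa1ef7_ag.H20
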