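import Pool.Agent.MP_aa1ef7_ag.H20.Spec

/-! Row Ft: exactness at one singular point gives exactness at every face and globally. -/

namespace Pool.Agent.MP_aa1ef7_ag.H20

open MvPolynomial
open Pool.Agent.MP_aa1ef7_ag.H40

namespace FtA

variable {d : ℕ} {l : Fin (d + 1) → ℂ × ℂ × ℂ} {p : Fin 2 → ℂ}

theorem ex_zero : Ex l p 0 := ⟨0, br_zero _ _⟩

theorem ex_br (A : Ser ℂ) : Ex l p (br dS (tay p (ff l)) A) := ⟨A, rfl⟩

theorem ex_add {G H : Ser ℂ} (hG : Ex l p G) (hH : Ex l p H) : Ex l p (G + H) := by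
  obtain ⟨A, rfl⟩ := hG
  obtain ⟨B, rfl⟩ := hH
  exact ⟨A + B, br_add _ _ _ _⟩

theorem ex_sub {G H : Ser ℂ} (hG : Ex l p G) (hH : Ex l p H) : Ex l p (G - H) := by
  obtain ⟨A, rfl⟩ := hG
  obtain ⟨B, rfl⟩ := hH
  exact ⟨A - B, br_sub _ _ _ _⟩

theorem ex_smul (c : ℂ) {G : Ser ℂ} (hG : Ex l p G) : Ex l p (c • G) := by
  obtain ⟨A, rfl⟩ := hG
  exact ⟨c • A, br_smul _ _ _ _⟩

theorem ex_mul (c : Polynomial ℂ) {G : Ser ℂ} (hG : Ex l p G) :
    Ex l p (Polynomial.aeval (tay p (ff l)) c * G) := by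
  obtain ⟨A, rfl⟩ := hG
  exact ⟨_, br_aeval_mul _ _ _ _⟩

theorem ex_sum {ι : Type} (s : Finset ι) (G : ι → Ser ℂ) (h : ∀ i ∈ s, Ex l p (G i)) :
    Ex l p (∑ i ∈ s, G i) :=
  Finset.sum_induction G (Ex l p) (fun _ _ => ex_add) ex_zero h

theorem tay_DP (A : Poly) : tay p (DP l A) = br dS (tay p (ff l)) (tay p A) := by
  simp only [DP, br, dP, map_sub, map_mul, dS_tay]

theorem tay_aeval (c : Polynomial ℂ) :
    tay p (Polynomial.aeval (ff l) c) = Polynomial.aeval (tay p (ff l)) c :=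
  (Polynomial.aeval_algHom_apply (tay p) (ff l) c).symm

theorem cc_crit (hp : Crit l p) (i : Fin 2) : cc (dS i (tay p (ff l))) = 0 := by
  rw [dS_tay, cc_tay, hp i]

theorem cc_ex (hp : Crit l p) {G : Ser ℂ} (hG : Ex l p G) : cc G = 0 := by
  obtain ⟨A, rfl⟩ := hG
  have h0 := cc_crit hp 0
  have h1 := cc_crit hp 1
  simp only [cc] at h0 h1
  simp only [br, cc, map_sub, map_mul, h0, h1, zero_mul, sub_zero]

theorem aeval_ne (c : ℂ) {g : Polynomial ℂ} (hg : g ≠ 0) :
    Polynomial.aeval (PowerSeries.C c + PowerSeries.X : PowerSeries ℂ) g ≠ 0 := by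
  have e : (PowerSeries.C c + PowerSeries.X : PowerSeries ℂ) =
      Polynomial.coeToPowerSeries.algHom ℂ (Polynomial.X + Polynomial.C c) := by
    simp [add_comm]
  rw [e, Polynomial.aeval_algHom_apply]
  intro h
  simp only [Polynomial.coeToPowerSeries.algHom_apply, Algebra.algebraMap_self,
    PowerSeries.map_id, id_eq, Polynomial.coe_eq_zero_iff] at h
  exact hg (Polynomial.taylor_injective c (by
    rw [Polynomial.taylor_apply, Polynomial.comp_eq_aeval, h, map_zero]))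

theorem r_aeval {φ : Ser ℂ} {u : PowerSeries ℂ} (r : Ser ℂ →ₗ[ℂ] PowerSeries ℂ)
    (h : ∀ G, r (φ * G) = u * r G) (g : Polynomial ℂ) (G : Ser ℂ) :
    r (Polynomial.aeval φ g * G) = Polynomial.aeval u g * r G := by
  induction g using Polynomial.induction_on with
  | C a => simp only [Polynomial.aeval_C, ← Algebra.smul_def, map_smul]
  | add a b ha hb => simp only [map_add, add_mul, ha, hb]
  | monomial n a ha =>
    rw [pow_succ', mul_left_comm, map_mul (Polynomial.aeval φ), map_mul (Polynomial.aeval u),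
      Polynomial.aeval_X, Polynomial.aeval_X, mul_assoc, h, ha, mul_assoc]

theorem sat (hper : PerS) (hp : Crit l p) (hh : hess (tay p (ff l)) ≠ 0) {g : Polynomial ℂ}
    (hg : g ≠ 0) {G : Ser ℂ} (h : Ex l p (Polynomial.aeval (tay p (ff l)) g * G)) : Ex l p G := by
  obtain ⟨r, h1, h2, -, -⟩ := hper _ (cc_crit hp) hh
  have h3 := (h1 _).2 h
  rw [r_aeval r h2] at h3
  exact (h1 _).1 ((mul_eq_zero.1 h3).resolve_left (aeval_ne _ hg))

theorem ex_bet (hlg : LgS) (hl : Lin l) (m : Fin (d + 1)) (hm : eval p (lin (l m)) ≠ 0) :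
    Ex l p (tay p (bet l m)) := by
  refine ⟨lg l p m, ?_⟩
  have hu : IsUnit (tay p (lin (l m))) := by
    rw [MvPowerSeries.isUnit_iff_constantCoeff]
    exact (cc_tay p _ ▸ hm : cc (tay p (lin (l m))) ≠ 0).isUnit
  have h := (hlg d l p m).2 hm
  have e : ∀ i, dS i (tay p (lin (l m))) = MvPowerSeries.C (dir i (l m)) := fun i => by
    rw [dS_tay]
    fin_cases i <;> simp [lin, dir, tay, MvPowerSeries.algebraMap_apply]
  refine hu.mul_left_cancel ?_
  rw [← map_mul, hl.bet, tay_DP, br, br, e, e, ← h 0, ← h 1]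
  ring

theorem ex_triv (hlg : LgS) (hl : Lin l) (A : Poly) (e : Fin (d + 1) → Polynomial ℂ)
    (s : Finset (Fin (d + 1))) (h : ∀ m ∈ s, e m = 0 ∨ eval p (lin (l m)) ≠ 0) :
    Ex l p (tay p (DP l A + ∑ m ∈ s, Polynomial.aeval (ff l) (e m) * bet l m)) := by
  rw [map_add, map_sum, tay_DP]
  refine ex_add (ex_br _) (ex_sum _ _ fun m hm => ?_)
  rw [map_mul, tay_aeval]
  rcases h m hm with h | h
  · rw [h, map_zero, zero_mul]; exact ex_zero
  · exact ex_mul _ (ex_bet hlg hl m h)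

theorem ev_zero (b : Poly) : ev l p b 0 = tay p b := by simp [ev]

/-- The pairs whose germ is exact at every face. -/
noncomputable def NN (l : Fin (d + 1) → ℂ × ℂ × ℂ) : Submodule ℂ (Poly × CC d) where
  carrier := {x | ∀ p, Face l p → Ex l p (ev l p x.1 x.2)}
  zero_mem' p _ := by
    rw [Prod.fst_zero, Prod.snd_zero, ev_zero, map_zero]
    exact ex_zero
  add_mem' {x y} hx hy p hp := by
    have e : ev l p (x + y).1 (x + y).2 = ev l p x.1 x.2 + ev l p y.1 y.2 := by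
      simp only [ev, Prod.fst_add, Prod.snd_add, map_add, Pi.add_apply, add_mul,
        Finset.sum_add_distrib]
      ring
    rw [e]
    exact ex_add (hx p hp) (hy p hp)
  smul_mem' c x hx p hp := by
    have e : ev l p (c • x).1 (c • x).2 = c • ev l p x.1 x.2 := by
      simp only [ev, Prod.smul_fst, Prod.smul_snd, map_smul, Pi.smul_apply, smul_mul_assoc,
        smul_add, Finset.smul_sum]
    rw [e]
    exact ex_smul c (hx p hp)

theorem glob (hlg : LgS) (hper : PerS) (hna : NablaS) (h8 : C8S) (hg : Geo l) (hl : Lin l)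
    (hj : Jac l) (hm : Mor l) (i : Fin (d + 1)) (b : Poly) (c : CC d)
    (hc : ∀ m n, c m n = -c n m) (hi : ∀ n, c i n = 0)
    (h : ∀ p, Face l p → Ex l p (ev l p b c)) :
    c = 0 ∧ ∃ (A : Poly) (e : Fin (d + 1) → Polynomial ℂ),
      e i = 0 ∧ b = DP l A + ∑ m, Polynomial.aeval (ff l) (e m) * bet l m := by
  obtain ⟨h0, A, e, he⟩ := h8 d l hg hl hj hm (NN l) (by
      rintro b ⟨A, e, rfl⟩ p hp
      rw [ev_zero]
      exact ex_triv hlg hl A e _ fun m _ => Or.inr (hp.2 m))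
    (fun b c h p hp => by
      refine sat hper hp.1 (hm.nd p hp.1) Polynomial.X_ne_zero ?_
      have e : ev l p (ff l * b) (fun m n => Polynomial.X * c m n) =
          Polynomial.aeval (tay p (ff l)) (Polynomial.X : Polynomial ℂ) * ev l p b c := by
        simp only [ev, map_mul, Polynomial.aeval_X, mul_add, Finset.mul_sum, mul_assoc]
      rw [← e]
      exact h p hp)
    (fun b c h p hp => by
      have h1 := cc_ex hp.1 (h p hp)
      have h2 := fun m => (hlg d l p m).1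
      rw [← cc_tay]
      simp only [cc] at h1 h2 ⊢
      simpa only [ev, map_add, map_sum, map_mul, h2, zero_mul, mul_zero, Finset.sum_const_zero,
        add_zero] using h1)
    (fun b c Y0 Y1 h hY p hp => by
      obtain ⟨Z0, Z1, hZ, hZ'⟩ := hna d l hl p b Y0 Y1 c (fun m _ _ => hp.2 m) hY
      obtain ⟨r, h1, h2, -, h4⟩ := hper _ (cc_crit hp.1) (hm.nd p hp.1)
      refine (h1 _).1 ?_
      rw [← hZ', h4, hZ, h2, (h1 _).2 (h p hp), mul_zero, map_zero])
    i b c h hc hi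
  refine ⟨h0, A, fun m => e m - e i, sub_self _, ?_⟩
  simp only [map_sub, sub_mul, Finset.sum_sub_distrib, ← Finset.mul_sum, hl.betsum, mul_zero,
    sub_zero]
  exact he

theorem core : OfCore := by
  intro hlg hper hna h8 h9 d l hg hl hj hm hft I p hI b c hc hI0 hex
  rcases hI with ⟨i, rfl, hp⟩ | ⟨i, j, rfl, hp⟩
  · obtain ⟨h0, A, e, hi, he⟩ := glob hlg hper hna h8 hg hl hj hm i b c hc
      (hI0 i (by simp)) fun p' hp' => hft p p' hp hp' b c hex
    exact ⟨h0, A, e, fun m hm => by rwa [Finset.mem_singleton.1 hm], he⟩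
  obtain ⟨q, hq, hq'⟩ := h9 d l hg hl hj hm i j p hp
  have ci := hI0 i (by simp)
  have cj := hI0 j (by simp)
  have h1 := hq' b c (fun n => ⟨ci n, cj n, by rw [hc, ci, neg_zero], by rw [hc, cj, neg_zero]⟩) hex
  obtain ⟨h0, A, e, hi, he⟩ := glob hlg hper hna h8 hg hl hj hm i b c hc ci
    fun p' hp' => hft q p' hq hp' b c h1
  have ej : e j = 0 := by
    by_contra hne
    rw [h0, ev_zero, he, ← Finset.add_sum_erase _ _ (Finset.mem_univ j), add_left_comm,
      map_add] at hex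
    have h2 := ex_sub hex (ex_triv hlg hl A e (Finset.univ.erase j) fun m hm => by
      by_cases hmi : m = i
      · exact Or.inl (hmi ▸ hi)
      · exact Or.inr (hl.nodeoff i j p hp m hmi (Finset.ne_of_mem_erase hm)))
    rw [add_sub_cancel_right, map_mul, tay_aeval] at h2
    have h3 := cc_ex (hl.nodecrit i j p hp)
      (sat hper (hl.nodecrit i j p hp) (hl.nodehess i j p hp) hne h2)
    rw [cc_tay, (hl.nodebet i j p hp).2.2 j, if_pos rfl] at h3
    exact (hl.nodebet i j p hp).1 h3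
  refine ⟨h0, A, e, fun m hm => ?_, he⟩
  rcases Finset.mem_insert.1 hm with rfl | hm
  · exact hi
  · rwa [Finset.mem_singleton.1 hm]

theorem fix_coef (F : Fld l) (θ : ℂ ≃+* ℂ) (h0 : ∀ y ∈ F.k0, θ y = y)
    (h : ∀ i, θ (l i).2.2 = (l i).2.2) (k : Fin (d + 1) × Fin 3) : θ (coef l k) = coef l k := by
  obtain ⟨m, s⟩ := k
  fin_cases s
  · exact h0 _ (F.dir0 m).1
  · exact h0 _ (F.dir0 m).2
  · exact h m

theorem fix_coef' (F : Fld l) (i : Fin (d + 1)) (θ : ℂ ≃+* ℂ) (h0 : ∀ y ∈ F.k i, θ y = y)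
    (h : θ (l i).2.2 = (l i).2.2) : ∀ k, θ (coef l k) = coef l k :=
  fix_coef F θ (fun y hy => h0 y (F.le i hy)) fun m => by
    by_cases hm : m = i
    · rwa [hm]
    · exact h0 _ (F.mem i m hm)

theorem rel_fix (hper : PerS) (hgm : GmS) (heq : EqvS) (hun : UnrS) (hg : Geo l) (hl : Lin l)
    (hm : Mor l) (F : Fld l) (i : Fin (d + 1)) (θ : ℂ ≃+* ℂ) (h0 : ∀ y ∈ F.k i, θ y = y)
    (h : θ (l i).2.2 = (l i).2.2) (hp : Face l p) : Rel l (θ ∘ p) = Rel l p := by
  obtain ⟨q, Θ, q1, q2, q3, q4⟩ := hgm d l hg hl F i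
  have U := hun (F.k i) (l i).2.2 (F.δ i) (GI d) (Rel l '' {p | Face l p}) q Θ (F.cl i) (F.dz i)
    (F.du i) (F.alg i) (hm.fin.image _) q1 q2 q3 (by
      rintro _ ⟨π, hπ, rfl⟩ g c hg0 hc
      refine sat hper hπ.1 (hm.nd π hπ.1) hg0 ?_
      rw [mem_Rel] at hc
      simpa only [Pi.smul_apply, smul_eq_mul, map_mul, mul_assoc, ← Finset.mul_sum] using hc)
    (by
      rintro _ ⟨π, hπ, rfl⟩
      exact q4 π hπ)
    (by
      rintro θ a b _ ⟨π, hπ, rfl⟩
      obtain ⟨e1, -, e3⟩ := heq d l θ (fix_coef' F i θ a b) π hπ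
      exact ⟨_, ⟨_, e1, rfl⟩, e3⟩)
  obtain ⟨-, -, e3⟩ := heq d l θ (fix_coef' F i θ h0 h) p hp
  have e2 : θ.toRingHom.comp θ.symm.toRingHom = RingHom.id ℂ := RingHom.ext θ.apply_symm_apply
  have e4 : ∀ c : GI d → Polynomial ℂ,
      (fun a => ((c a).map θ.symm.toRingHom).map θ.toRingHom) = c := fun c => by
    simp only [Polynomial.map_map, e2, Polynomial.map_id]
  ext c
  constructor
  · intro hc
    rw [← e4 c] at hc ⊢
    exact U θ h0 h _ ⟨p, hp, rfl⟩ _ ((e3 _).2 hc)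
  · intro hc
    rw [← e4 c]
    exact (e3 _).1 (U θ.symm (fun y hy => θ.symm_apply_eq.2 (h0 y hy).symm)
      (θ.symm_apply_eq.2 h.symm) _ ⟨p, hp, rfl⟩ _ hc)

theorem rel_eq (hper : PerS) (hgm : GmS) (heq : EqvS) (hun : UnrS) (hge : GenS) (htr : TransS)
    (hg : Geo l) (hl : Lin l) (hm : Mor l) (F : Fld l) {p' : Fin 2 → ℂ} (hp : Face l p)
    (hp' : Face l p') : Rel l p' = Rel l p := by
  classical
  set O := hm.fin.toFinset.filter fun π => Rel l π = Rel l p with hO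
  have mO : ∀ π, π ∈ O ↔ Face l π ∧ Rel l π = Rel l p := fun π => by simp [hO]
  set W : Polynomial ℂ := ∏ π ∈ O, (Polynomial.X - Polynomial.C (eval π (ff l))) with hW
  have st : ∀ i (θ : ℂ ≃+* ℂ), (∀ y ∈ F.k i, θ y = y) → θ (l i).2.2 = (l i).2.2 →
      ∀ π ∈ O, θ ∘ π ∈ O := fun i θ a b π hπ => by
    obtain ⟨h1, h2⟩ := (mO π).1 hπ
    exact (mO _).2 ⟨(heq d l θ (fix_coef' F i θ a b) π h1).1,
      (rel_fix hper hgm heq hun hg hl hm F i θ a b h1).trans h2⟩
  have fx : ∀ i (θ : ℂ ≃+* ℂ), (∀ y ∈ F.k i, θ y = y) → θ (l i).2.2 = (l i).2.2 →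
      W.map θ.toRingHom = W := fun i θ a b => by
    rw [hW, Polynomial.map_prod]
    refine Finset.prod_nbij' (fun π => θ ∘ π) (fun π => θ.symm ∘ π) (st i θ a b)
      (st i θ.symm (fun y hy => θ.symm_apply_eq.2 (a y hy).symm) (θ.symm_apply_eq.2 b.symm))
      (fun π _ => funext fun k => θ.symm_apply_apply _)
      (fun π _ => funext fun k => θ.apply_symm_apply _) fun π hπ => ?_
    rw [(heq d l θ (fix_coef' F i θ a b) π ((mO π).1 hπ).1).2.1, Polynomial.map_sub,
      Polynomial.map_X, Polynomial.map_C]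
    rfl
  obtain ⟨θ, a, b, rfl⟩ := htr d l hg F p p' hp hp'
  have f0 : W.map θ.toRingHom = W := by
    ext n
    rw [Polynomial.coeff_map]
    exact hge d l F _ (fun i θ a b => by
      have := congrArg (fun V : Polynomial ℂ => V.coeff n) (fx i θ a b)
      rwa [Polynomial.coeff_map] at this) θ a b
  have r0 : W.eval (eval p (ff l)) = 0 := by
    rw [hW, Polynomial.eval_prod]
    exact Finset.prod_eq_zero ((mO p).2 ⟨hp, rfl⟩) (by simp)
  have r1 : W.eval (eval (θ ∘ p) (ff l)) = 0 := by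
    rw [(heq d l θ (fix_coef F θ a b) p hp).2.1, ← f0]
    exact (Polynomial.eval_map_apply θ.toRingHom _).trans (by rw [r0, map_zero])
  rw [hW, Polynomial.eval_prod, Finset.prod_eq_zero_iff] at r1
  obtain ⟨π, hπ, h3⟩ := r1
  obtain ⟨h1, h2⟩ := (mO π).1 hπ
  rw [hm.inj _ π hp' h1 (by simpa [sub_eq_zero] using h3), h2]

theorem ft : OfFt := by
  intro hper hgs hgm heq hun hge htr d l hg hl hj hm F p p' hp hp' b c hex
  obtain ⟨a, A, -, hb⟩ := (hgs ℂ d (ff l) (by have := hg.two; omega) (deg_ff_le l) hj.syl).1 _ b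
    le_rfl
  have key : ∀ π, Ex l π (ev l π b c) ↔
      (Sum.elim (fun m => a m.1) fun mn => c mn.1 mn.2 : GI d → Polynomial ℂ) ∈ Rel l π := by
    intro π
    have e : ev l π b c = ∑ x : GI d, Polynomial.aeval (tay π (ff l))
        (Sum.elim (fun m => a m.1) (fun mn => c mn.1 mn.2) x) * gen l π x +
        br dS (tay π (ff l)) (tay π A) := by
      rw [Fintype.sum_sum_type, Fintype.sum_prod_type, ev, ← tay_DP]
      simp only [Sum.elim_inl, Sum.elim_inr, gen]
      rw [Finset.sum_coe_sort (mon (2 * d - 2))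
        fun m => Polynomial.aeval (tay π (ff l)) (a m) * tay π (monomial m 1)]
      conv_lhs => rw [hb]
      simp only [map_add, map_sum, map_mul, tay_aeval, DP, br, dP]
      ring
    rw [mem_Rel, e]
    exact ⟨fun h => by simpa using ex_sub h (ex_br (tay π A)), fun h => ex_add h (ex_br _)⟩
  rw [key, rel_eq hper hgm heq hun hge htr hg hl hm F hp hp', ← key]
  exact hex

end FtA

theorem rowFt : OfFt ∧ OfCore := ⟨FtA.ft, FtA.core⟩

end Pool.Agent.MP_aa1ef7_ag.H20
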