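import Pool.Agent.MP_aa1ef7_ag.G.Gena

/-! Transitivity on the faces, and the row. -/

namespace Pool.Agent.MP_aa1ef7_ag.H20

open MvPolynomial
open Pool.Agent.MP_aa1ef7_ag.H40

namespace GenA

lemma logder {ι : Type} [DecidableEq ι] (f : ι → Poly) (p : Fin 2 → ℂ) (k : Fin 2)
    (hf : ∀ m, eval p (f m) ≠ 0) (s : Finset ι) :
    eval p (pderiv k (∏ m ∈ s, f m)) =
      eval p (∏ m ∈ s, f m) * ∑ m ∈ s, eval p (pderiv k (f m)) * (eval p (f m))⁻¹ := by
  induction s using Finset.induction_on with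
  | empty => simp
  | insert i s hi ih =>
    rw [Finset.prod_insert hi, Finset.sum_insert hi, Derivation.leibniz, smul_eq_mul, smul_eq_mul,
      map_add, map_mul, map_mul, map_mul, ih]
    have := hf i
    field_simp
    ring

variable {d : ℕ} (l : Fin (d + 1) → ℂ × ℂ × ℂ)

lemma eval_lin (a : ℂ × ℂ × ℂ) (p : Fin 2 → ℂ) :
    eval p (lin a) = a.1 * p 0 + a.2.1 * p 1 + a.2.2 := by
  simp [lin]

lemma crit_eq (p : Fin 2 → ℂ) (hp : Face l p) :
    ∑ m, (l m).1 * (eval p (lin (l m)))⁻¹ = 0 ∧ ∑ m, (l m).2.1 * (eval p (lin (l m)))⁻¹ = 0 := by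
  have hne : eval p (∏ m, lin (l m)) ≠ 0 := by
    rw [map_prod]
    exact Finset.prod_ne_zero_iff.2 fun m _ => hp.2 m
  have h : ∀ k, ∑ m, eval p (pderiv k (lin (l m))) * (eval p (lin (l m)))⁻¹ = 0 := fun k => by
    have h1 := hp.1 k
    rw [ff, logder (fun m => lin (l m)) p k hp.2] at h1
    exact (mul_eq_zero.1 h1).resolve_left hne
  have e0 : ∀ m, eval p (pderiv 0 (lin (l m))) = (l m).1 := fun m => by simp [lin]
  have e1 : ∀ m, eval p (pderiv 1 (lin (l m))) = (l m).2.1 := fun m => by simp [lin]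
  exact ⟨by simpa only [e0] using h 0, by simpa only [e1] using h 1⟩

/-- Coordinates of a face: the point and the inverses of all but two lines. -/
noncomputable def zz (i j : Fin (d + 1)) (p : Fin 2 → ℂ) (m : Fin (d + 1)) : ℂ :=
  if m = i then p 0 else if m = j then p 1 else (eval p (lin (l m)))⁻¹

/-- The inverses of the lines as combinations of the coordinates. -/
noncomputable def yy (i j : Fin (d + 1)) (z : Fin (d + 1) → ℂ) (m : Fin (d + 1)) : ℂ :=
  if m = i then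
    ((l j).1 * ∑ n ∈ (Finset.univ.erase i).erase j, (l n).2.1 * z n -
      (l j).2.1 * ∑ n ∈ (Finset.univ.erase i).erase j, (l n).1 * z n) /
      ((l i).1 * (l j).2.1 - (l j).1 * (l i).2.1)
  else if m = j then
    ((l i).2.1 * ∑ n ∈ (Finset.univ.erase i).erase j, (l n).1 * z n -
      (l i).1 * ∑ n ∈ (Finset.univ.erase i).erase j, (l n).2.1 * z n) /
      ((l i).1 * (l j).2.1 - (l j).1 * (l i).2.1)
  else z m

lemma u_eq {i j : Fin (d + 1)} (hij : i ≠ j)
    (hΔ : (l i).1 * (l j).2.1 - (l j).1 * (l i).2.1 ≠ 0) (p : Fin 2 → ℂ) (hp : Face l p)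
    (m : Fin (d + 1)) : (l m).2.2 =
      (yy l i j (zz l i j p) m)⁻¹ - (l m).1 * zz l i j p i - (l m).2.1 * zz l i j p j := by
  have hs : ∀ c : Fin (d + 1) → ℂ, ∑ n, c n * (eval p (lin (l n)))⁻¹ =
      c i * (eval p (lin (l i)))⁻¹ + (c j * (eval p (lin (l j)))⁻¹ +
        ∑ n ∈ (Finset.univ.erase i).erase j, c n * zz l i j p n) := fun c => by
    rw [← Finset.add_sum_erase _ _ (Finset.mem_univ i),
      ← Finset.add_sum_erase _ _ (Finset.mem_erase.2 ⟨hij.symm, Finset.mem_univ j⟩)]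
    congr 2
    refine Finset.sum_congr rfl fun n hn => ?_
    rw [Finset.mem_erase, Finset.mem_erase] at hn
    rw [zz, if_neg hn.2.1, if_neg hn.1]
  obtain ⟨h0, h1⟩ := crit_eq l p hp
  rw [hs fun n => (l n).1] at h0
  rw [hs fun n => (l n).2.1] at h1
  have hy : yy l i j (zz l i j p) m = (eval p (lin (l m)))⁻¹ := by
    unfold yy
    split_ifs with h h'
    · rw [h, div_eq_iff hΔ]
      linear_combination (l j).1 * h1 - (l j).2.1 * h0
    · rw [h', div_eq_iff hΔ]
      linear_combination (l i).2.1 * h0 - (l i).1 * h1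
    · rw [zz, if_neg h, if_neg h']
  have hi : zz l i j p i = p 0 := if_pos rfl
  have hj : zz l i j p j = p 1 := by rw [zz, if_neg hij.symm, if_pos rfl]
  rw [hy, inv_inv, eval_lin, hi, hj]
  ring

lemma yy_mem (K : Subfield ℂ) (i j : Fin (d + 1)) (z : Fin (d + 1) → ℂ)
    (ha : ∀ m, (l m).1 ∈ K ∧ (l m).2.1 ∈ K) (hz : ∀ m, z m ∈ K) (m : Fin (d + 1)) :
    yy l i j z m ∈ K := by
  have hA := sum_mem (S := K) fun n (_ : n ∈ (Finset.univ.erase i).erase j) =>
    mul_mem (ha n).1 (hz n)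
  have hB := sum_mem (S := K) fun n (_ : n ∈ (Finset.univ.erase i).erase j) =>
    mul_mem (ha n).2 (hz n)
  have hΔ := sub_mem (mul_mem (ha i).1 (ha j).2) (mul_mem (ha j).1 (ha i).2)
  unfold yy
  split_ifs
  · exact div_mem (sub_mem (mul_mem (ha j).1 hB) (mul_mem (ha j).2 hA)) hΔ
  · exact div_mem (sub_mem (mul_mem (ha i).2 hA) (mul_mem (ha i).1 hB)) hΔ
  · exact hz m

lemma yy_map (θ : ℂ ≃+* ℂ) (i j : Fin (d + 1)) (z z' : Fin (d + 1) → ℂ)
    (ha : ∀ m, θ (l m).1 = (l m).1 ∧ θ (l m).2.1 = (l m).2.1) (hz : ∀ m, θ (z m) = z' m)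
    (m : Fin (d + 1)) : θ (yy l i j z m) = yy l i j z' m := by
  unfold yy
  split_ifs
  · simp only [map_div₀, map_sub, map_mul, map_sum, (ha _).1, (ha _).2, hz]
  · simp only [map_div₀, map_sub, map_mul, map_sum, (ha _).1, (ha _).2, hz]
  · exact hz m

lemma basis (F : Fld l) {i j : Fin (d + 1)} (hij : i ≠ j)
    (hΔ : (l i).1 * (l j).2.1 - (l j).1 * (l i).2.1 ≠ 0) (p : Fin 2 → ℂ) (hp : Face l p) :
    AlgebraicIndependent F.k0 (zz l i j p) ∧
      Algebra.IsAlgebraic (IntermediateField.adjoin F.k0 (Set.range (zz l i j p))) ℂ := by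
  set K := IntermediateField.adjoin F.k0 (Set.range (zz l i j p)) with hK
  have hz : ∀ m, zz l i j p m ∈ K := fun m => IntermediateField.subset_adjoin _ _ ⟨m, rfl⟩
  have ha : ∀ m, (l m).1 ∈ K ∧ (l m).2.1 ∈ K := fun m =>
    ⟨K.algebraMap_mem ⟨_, (F.dir0 m).1⟩, K.algebraMap_mem ⟨_, (F.dir0 m).2⟩⟩
  have hle : IntermediateField.adjoin F.k0 (Set.range fun m => (l m).2.2) ≤ K := by
    rw [IntermediateField.adjoin_le_iff]
    rintro _ ⟨m, rfl⟩
    change (l m).2.2 ∈ K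
    rw [u_eq l hij hΔ p hp m]
    exact sub_mem (sub_mem (inv_mem (yy_mem l K.toSubfield i j _ ha hz m))
      (mul_mem (ha m).1 (hz i))) (mul_mem (ha m).2 (hz j))
  have halg : Algebra.IsAlgebraic K ℂ := ⟨fun x =>
    IsAlgebraic.tower_top_of_subalgebra_le (A := (IntermediateField.adjoin F.k0
      (Set.range fun m => (l m).2.2)).toSubalgebra) (B := K.toSubalgebra) hle (F.alg0 x)⟩
  refine ⟨?_, halg⟩
  have h1 : IsTranscendenceBasis F.k0 fun m => (l m).2.2 :=
    F.ind.isTranscendenceBasis_iff_isAlgebraic.2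
      (IntermediateField.isAlgebraic_adjoin_iff_top.1 ⟨F.alg0⟩)
  have := IntermediateField.isAlgebraic_adjoin_iff_top.1 halg
  exact (Algebra.IsAlgebraic.isTranscendenceBasis_of_le_trdeg_of_finite F.k0 (zz l i j p)
    h1.cardinalMk_eq_trdeg.le).1

lemma exists_aut {ι : Type} (k : Subfield ℂ) (z z' : ι → ℂ) (h : AlgebraicIndependent k z)
    (h' : AlgebraicIndependent k z')
    (a : Algebra.IsAlgebraic (IntermediateField.adjoin k (Set.range z)) ℂ)
    (a' : Algebra.IsAlgebraic (IntermediateField.adjoin k (Set.range z')) ℂ) :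
    ∃ θ : ℂ ≃+* ℂ, (∀ y ∈ k, θ y = y) ∧ ∀ m, θ (z m) = z' m := by
  have c : IsAlgClosure (IntermediateField.adjoin k (Set.range z)) ℂ := ⟨inferInstance, a⟩
  have c' : IsAlgClosure (IntermediateField.adjoin k (Set.range z')) ℂ := ⟨inferInstance, a'⟩
  let e := h.aevalEquivField.symm.trans h'.aevalEquivField
  have key : ∀ q : MvPolynomial ι k,
      IsAlgClosure.equivOfEquiv ℂ ℂ e.toRingEquiv (aeval z q) = aeval z' q := fun q => by
    have h1 := IsAlgClosure.equivOfEquiv_algebraMap ℂ ℂ e.toRingEquiv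
      (h.aevalEquivField (algebraMap _ _ q))
    have h2 : e.toRingEquiv (h.aevalEquivField (algebraMap _ _ q)) =
        h'.aevalEquivField (algebraMap _ _ q) := by simp [e]
    rw [h2] at h1
    rw [← h.aevalEquivField_algebraMap_apply_coe, ← h'.aevalEquivField_algebraMap_apply_coe]
    exact h1
  refine ⟨IsAlgClosure.equivOfEquiv ℂ ℂ e.toRingEquiv, fun y hy => ?_, fun m => ?_⟩
  · have := key (C ⟨y, hy⟩)
    rw [aeval_C, aeval_C] at this
    exact this
  · simpa using key (X m)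

theorem trans : TransS := by
  intro d l G F p p' hp hp'
  have h2 := G.two
  let i : Fin (d + 1) := ⟨0, by omega⟩
  let j : Fin (d + 1) := ⟨1, by omega⟩
  have hij : i ≠ j := by simp [i, j, Fin.ext_iff]
  have hΔ := G.gen.1 i j hij
  obtain ⟨b1, b2⟩ := basis l F hij hΔ p hp
  obtain ⟨b3, b4⟩ := basis l F hij hΔ p' hp'
  obtain ⟨θ, h0, hz⟩ := exists_aut F.k0 _ _ b1 b3 b2 b4
  have ha : ∀ m, θ (l m).1 = (l m).1 ∧ θ (l m).2.1 = (l m).2.1 := fun m =>
    ⟨h0 _ (F.dir0 m).1, h0 _ (F.dir0 m).2⟩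
  refine ⟨θ, h0, fun m => ?_, ?_⟩
  · conv_lhs => rw [u_eq l hij hΔ p hp m]
    rw [map_sub, map_sub, map_inv₀, map_mul, map_mul, yy_map l θ i j _ _ ha hz, hz, hz, (ha m).1,
      (ha m).2, ← u_eq l hij hΔ p' hp' m]
  · have e0 := hz i
    have e1 := hz j
    simp only [zz, if_pos, if_neg hij.symm] at e0 e1
    funext n
    fin_cases n
    · exact e0
    · exact e1

end GenA

theorem rowGen : OfGen ∧ TransS := ⟨GenA.gen, GenA.trans⟩

end Pool.Agent.MP_aa1ef7_ag.H20
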