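import Pool.Agent.MP_aa1ef7_ag.H20.Spec

/-! The intersection of the fields `k_i(u_i)` is fixed by the automorphisms over `k0(u)`. -/

namespace Pool.Agent.MP_aa1ef7_ag.H20.GenA

open MvPolynomial

/-- An element fixed by all automorphisms over `k(u)` lies in `k(u)`. -/
lemma mem_adj (k : Subfield ℂ) (u z : ℂ)
    (alg : ∀ z : ℂ, IsAlgebraic (IntermediateField.adjoin k {u}) z)
    (h : ∀ θ : ℂ ≃+* ℂ, (∀ y ∈ k, θ y = y) → θ u = u → θ z = z) :
    z ∈ IntermediateField.adjoin k {u} := by
  set K := IntermediateField.adjoin k {u} with hK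
  have : Algebra.IsAlgebraic K ℂ := ⟨alg⟩
  have : IsAlgClosure K ℂ := ⟨inferInstance, inferInstance⟩
  have : IsGalois K ℂ := IsAlgClosure.isGalois K ℂ
  have hz : z ∈ (⊥ : IntermediateField K ℂ) := by
    rw [InfiniteGalois.mem_bot_iff_fixed]
    intro f
    refine h f.toRingEquiv (fun y hy => ?_) ?_
    · exact f.commutes ⟨y, K.algebraMap_mem ⟨y, hy⟩⟩
    · exact f.commutes ⟨u, IntermediateField.mem_adjoin_simple_self k u⟩
  obtain ⟨y, hy⟩ := IntermediateField.mem_bot.1 hz
  rw [← hy]
  exact y.2

open scoped IntermediateField.algebraAdjoinAdjoin in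
lemma poly_of_int (k : Subfield ℂ) (u b : ℂ) (hu : Transcendental k u)
    (hb : b ∈ IntermediateField.adjoin k {u}) (hi : IsIntegral (Algebra.adjoin k {u}) b) :
    ∃ q : Polynomial k, Polynomial.aeval u q = b := by
  have : IsIntegrallyClosed (Algebra.adjoin k {u}) :=
    IsIntegrallyClosed.of_equiv (Polynomial.algEquivOfTranscendental k u hu).toRingEquiv
  have h1 : IsIntegral (Algebra.adjoin k {u}) (⟨b, hb⟩ : IntermediateField.adjoin k {u}) := by
    rw [← isIntegral_algHom_iff (IsScalarTower.toAlgHom (Algebra.adjoin k {u})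
      (IntermediateField.adjoin k {u}) ℂ) Subtype.val_injective]
    exact hi
  obtain ⟨y, hy⟩ := IsIntegrallyClosed.algebraMap_eq_of_integral h1
  have h2 : (y : ℂ) = b := congrArg Subtype.val hy
  have h3 : b ∈ Algebra.adjoin k {u} := h2 ▸ y.2
  rw [Algebra.adjoin_singleton_eq_range_aeval] at h3
  exact h3

lemma der_aeval (k : Subfield ℂ) (δ : Derivation ℤ ℂ ℂ) (u : ℂ) (hz : ∀ z ∈ k, δ z = 0)
    (hu : δ u = 1) (q : Polynomial k) :
    δ (Polynomial.aeval u q) = Polynomial.aeval u (Polynomial.derivative q) := by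
  induction q using Polynomial.induction_on' with
  | add p q hp hq => simp only [map_add, hp, hq]
  | monomial n a =>
    have ha : δ (algebraMap k ℂ a) = 0 := hz _ a.2
    rw [Polynomial.derivative_monomial, Polynomial.aeval_monomial, Polynomial.aeval_monomial,
      Derivation.leibniz, ha, Derivation.leibniz_pow, hu]
    simp only [smul_eq_mul, mul_zero, add_zero, mul_one, nsmul_eq_mul, map_mul, map_natCast]
    ring

lemma nil_aeval (k : Subfield ℂ) (δ : Derivation ℤ ℂ ℂ) (u : ℂ) (hz : ∀ z ∈ k, δ z = 0)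
    (hu : δ u = 1) (q : Polynomial k) : ∃ N : ℕ, δ^[N] (Polynomial.aeval u q) = 0 := by
  have h : ∀ (N : ℕ) (q : Polynomial k), δ^[N] (Polynomial.aeval u q) =
      Polynomial.aeval u (Polynomial.derivative^[N] q) := by
    intro N
    induction N with
    | zero => intro q; rfl
    | succ N ih =>
      intro q
      rw [Function.iterate_succ_apply, Function.iterate_succ_apply, der_aeval k δ u hz hu, ih]
  exact ⟨q.natDegree + 1, by
    rw [h, Polynomial.iterate_derivative_eq_zero (Nat.lt_succ_self _), map_zero]⟩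

section Const

variable {ι : Type} [DecidableEq ι] (δ : ι → Derivation ℤ ℂ ℂ) (u : ι → ℂ)

lemma der_mv {A : Type} [CommRing A] [Algebra A ℂ] (hu : ∀ i j, δ i (u j) = if j = i then 1 else 0)
    (hA : ∀ i a, δ i (algebraMap A ℂ a) = 0) (i : ι) (p : MvPolynomial ι A) :
    δ i (aeval u p) = aeval u (pderiv i p) := by
  induction p using MvPolynomial.induction_on with
  | C a => simp [hA]
  | add p q hp hq => simp only [map_add, hp, hq]
  | mul_X p j hp =>
    rw [map_mul, aeval_X, Derivation.leibniz, Derivation.leibniz, hp, hu, pderiv_X]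
    by_cases h : j = i
    · subst h
      simp
    · simp [h]

lemma ind_const {A : Type} [CommRing A] [IsDomain A] [CharZero A] [Algebra A ℂ]
    (hinj : Function.Injective (algebraMap A ℂ))
    (hu : ∀ i j, δ i (u j) = if j = i then 1 else 0)
    (hA : ∀ i a, δ i (algebraMap A ℂ a) = 0) : AlgebraicIndependent A u := by
  have h0 : ∀ p : MvPolynomial ι A, p = C (coeff 0 p) → aeval u p = 0 → p = 0 := by
    intro p hp h
    rw [hp, aeval_C] at h
    rw [hp, hinj (h.trans (map_zero _).symm), map_zero]
  have key : ∀ (n : ℕ) (p : MvPolynomial ι A), p.totalDegree ≤ n → aeval u p = 0 → p = 0 := by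
    intro n
    induction n with
    | zero => exact fun p hp => h0 p (totalDegree_eq_zero_iff_eq_C.1 (Nat.le_zero.1 hp))
    | succ n ih =>
      intro p hp h
      have hd : ∀ i, pderiv i p = 0 := by
        intro i
        refine ih _ ?_ (by rw [← der_mv δ u hu hA, h, map_zero])
        refine Finset.sup_le fun m hm => ?_
        rw [mem_support_iff, coeff_pderiv] at hm
        have h1 := le_totalDegree (mem_support_iff.2 (left_ne_zero_of_mul hm))
        rw [Finsupp.sum_add_index' (fun _ => rfl) (fun _ _ _ => rfl), Finsupp.sum_single_index rfl]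
          at h1
        omega
      refine h0 p ?_ h
      ext m
      rw [coeff_C]
      split_ifs with hm
      · rw [hm]
      · obtain ⟨i, hi⟩ := Finsupp.ne_iff.1 (Ne.symm hm)
        have h1 := coeff_pderiv (i := i) p (m - Finsupp.single i 1)
        have h2 : m - Finsupp.single i 1 + Finsupp.single i 1 = m :=
          tsub_add_cancel_of_le (Finsupp.single_le_iff.2 (Nat.one_le_iff_ne_zero.2 hi))
        rw [hd, coeff_zero, h2] at h1
        exact (mul_eq_zero.1 h1.symm).resolve_right (Nat.cast_add_one_ne_zero _)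
  exact algebraicIndependent_iff.2 fun p => key _ p le_rfl

lemma alg_const (k : Subfield ℂ) (hu : ∀ i j, δ i (u j) = if j = i then 1 else 0)
    (hk : ∀ i, ∀ z ∈ k, δ i z = 0) (b : ℂ) (hb : ∀ i, δ i b = 0)
    (alg : IsAlgebraic (IntermediateField.adjoin k (Set.range u)) b) : IsAlgebraic k b := by
  by_contra hne
  have h1 : AlgebraicIndependent k fun _ : Unit => b := algebraicIndependent_unique_type_iff.2 hne
  have h2 : AlgebraicIndependent (Algebra.adjoin k (Set.range fun _ : Unit => b)) u := by
    refine ind_const δ u Subtype.val_injective hu fun i a => ?_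
    obtain ⟨a, ha⟩ := a
    change δ i a = 0
    induction ha using Algebra.adjoin_induction with
    | mem x hx => obtain ⟨_, rfl⟩ := hx; exact hb i
    | algebraMap r => exact hk i _ r.2
    | add x y _ _ hx hy => rw [map_add, hx, hy, add_zero]
    | mul x y _ _ hx hy => rw [Derivation.leibniz, hx, hy, smul_zero, smul_zero, add_zero]
  have h3 := AlgebraicIndependent.sumElim_iff.2 ⟨h1, h2⟩
  have h4 : AlgebraicIndependent k (Sum.elim (fun _ : Unit => b) u) := by
    have := h3.comp Sum.swap (Equiv.sumComm _ _).injective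
    convert this using 1
    ext (x | x) <;> rfl
  have h5 := algebraicIndependent_unique_type_iff.1 (AlgebraicIndependent.sumElim_iff.1 h4).2
  exact h5 (IntermediateField.isAlgebraic_adjoin_iff.1 alg)

lemma iter_mul (D : Derivation ℤ ℂ ℂ) (c : ℂ) (hc : D c = 0) (N : ℕ) (x : ℂ) :
    D^[N] (c * x) = c * D^[N] x := by
  induction N generalizing x with
  | zero => rfl
  | succ N ih =>
    rw [Function.iterate_succ_apply, Function.iterate_succ_apply, Derivation.leibniz, hc,
      smul_zero, add_zero, smul_eq_mul, ih]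

lemma iter_sub (D : Derivation ℤ ℂ ℂ) (N : ℕ) (x y : ℂ) : D^[N] (x - y) = D^[N] x - D^[N] y := by
  induction N generalizing x y with
  | zero => rfl
  | succ N ih => simp only [Function.iterate_succ_apply, map_sub, ih]

lemma iter_zero (D : Derivation ℤ ℂ ℂ) (N : ℕ) : D^[N] 0 = 0 :=
  Function.iterate_fixed (map_zero D) N

lemma iter_more (D : Derivation ℤ ℂ ℂ) {N M : ℕ} (h : N ≤ M) {x : ℂ} (hx : D^[N] x = 0) :
    D^[M] x = 0 := by
  obtain ⟨c, rfl⟩ := Nat.exists_eq_add_of_le' h
  rw [Function.iterate_add_apply, hx, iter_zero]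

lemma iter_pow (D : Derivation ℤ ℂ ℂ) (v : ℂ) (hv : D v = 1) (N : ℕ) :
    D^[N] (v ^ N) = N.factorial := by
  induction N with
  | zero => simp
  | succ N ih =>
    rw [Function.iterate_succ_apply, Derivation.leibniz_pow, hv, Nat.add_sub_cancel, smul_eq_mul,
      mul_one, nsmul_eq_mul, iter_mul D _ (D.map_natCast _), ih, Nat.factorial_succ N, Nat.cast_mul]

lemma fix_nil (θ : ℂ ≃+* ℂ) (hu : ∀ i j, δ i (u j) = if j = i then 1 else 0)
    (hc : ∀ i j x, δ i (δ j x) = δ j (δ i x)) (hθ : ∀ i, θ (u i) = u i)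
    (h0 : ∀ b, (∀ i, δ i b = 0) → θ b = b) (S : Finset ι) :
    ∀ b, (∀ i, ∃ N : ℕ, (δ i)^[N] b = 0) → (∀ j ∉ S, δ j b = 0) → θ b = b := by
  have hcm : ∀ i j, Function.Commute (δ i) (δ j) := fun i j x => hc i j x
  induction S using Finset.induction_on with
  | empty => exact fun b _ hb => h0 b fun i => hb i (Finset.notMem_empty i)
  | insert i S hi ih =>
    have key : ∀ (N : ℕ) (b : ℂ), (δ i)^[N] b = 0 → (∀ j, ∃ M : ℕ, (δ j)^[M] b = 0) →
        (∀ j ∉ insert i S, δ j b = 0) → θ b = b := by
      intro N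
      induction N with
      | zero => intro b hb _ _; rw [show b = 0 from hb, map_zero]
      | succ N ihN =>
        intro b hb hn hj
        set b' := (δ i)^[N] b with hb'
        have e1 : δ i b' = 0 := by rw [hb', ← Function.iterate_succ_apply' (δ i)]; exact hb
        have e2 : ∀ j ∉ insert i S, δ j b' = 0 := fun j h => by
          rw [hb', ((hcm j i).iterate_right N).eq, hj j h, iter_zero]
        have e3 : ∀ j, ∃ M : ℕ, (δ j)^[M] b' = 0 := fun j => by
          obtain ⟨M, hM⟩ := hn j
          exact ⟨M, by rw [hb', ((hcm j i).iterate_iterate M N).eq, hM, iter_zero]⟩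
        have e4 : θ b' = b' := ih b' e3 fun j h => by
          by_cases hji : j = i
          · rw [hji]; exact e1
          · exact e2 j (by simp [hji, h])
        have hf : (N.factorial : ℂ) ≠ 0 := Nat.cast_ne_zero.2 N.factorial_ne_zero
        have hw : ∀ j, δ j ((N.factorial : ℂ)⁻¹) = 0 := fun j => by
          rw [Derivation.leibniz_inv, Derivation.map_natCast, smul_zero]
        have hw2 : ∀ j, j ≠ i → δ j ((N.factorial : ℂ)⁻¹ * u i ^ N) = 0 := fun j h => by
          rw [Derivation.leibniz, hw, Derivation.leibniz_pow, hu, if_neg (Ne.symm h)]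
          simp
        have e5 : (δ i)^[N] (b - (N.factorial : ℂ)⁻¹ * u i ^ N * b') = 0 := by
          have : δ i ((N.factorial : ℂ)⁻¹ * b') = 0 := by
            rw [Derivation.leibniz, hw, e1, smul_zero, smul_zero, add_zero]
          rw [iter_sub, mul_right_comm, iter_mul _ _ this, iter_pow _ _ (by rw [hu, if_pos rfl]),
            ← hb']
          field_simp
          ring
        have e6 := ihN _ e5 (fun j => by
          by_cases hji : j = i
          · exact ⟨N, by rw [hji]; exact e5⟩
          · obtain ⟨M, hM⟩ := hn j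
            obtain ⟨M', hM'⟩ := e3 j
            exact ⟨max M M', by
              rw [iter_sub, iter_mul _ _ (hw2 j hji), iter_more _ (le_max_left _ _) hM,
                iter_more _ (le_max_right _ _) hM', mul_zero, sub_zero]⟩) (fun j h => by
          have hji : j ≠ i := fun e => h (by simp [e])
          rw [map_sub, hj j h, Derivation.leibniz, hw2 j hji, e2 j h]
          simp)
        rw [map_sub, map_mul, map_mul, map_pow, map_inv₀, map_natCast, hθ, e4] at e6
        exact sub_left_injective e6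
    intro b hn hj
    obtain ⟨N, hN⟩ := hn i
    exact key N b hN hn hj

end Const

lemma comm_der (hD : DeruS) (k : Subfield ℂ) (S : Set ℂ) (D E : Derivation ℤ ℂ ℂ)
    (alg : ∀ z : ℂ, IsAlgebraic (IntermediateField.adjoin k S) z)
    (hk : ∀ z ∈ k, D z = 0 ∧ E z = 0) (hS : ∀ s ∈ S, D (E s) = 0 ∧ E (D s) = 0) (x : ℂ) :
    D (E x) = E (D x) := by
  have ha : ∀ x y : ℂ, D (E (x + y)) - E (D (x + y)) =
      (D (E x) - E (D x)) + (D (E y) - E (D y)) := fun x y => by
    simp only [map_add]; ring
  have hm : ∀ x y : ℂ, D (E (x * y)) - E (D (x * y)) =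
      RingHom.id ℂ x * (D (E y) - E (D y)) + RingHom.id ℂ y * (D (E x) - E (D x)) := fun x y => by
    simp only [Derivation.leibniz, map_add, smul_eq_mul, RingHom.id_apply]; ring
  have h1 := (hD k ℂ ℂ (RingHom.id ℂ) (fun x => D (E x) - E (D x)) ha hm (fun c => by
    have := hk _ c.2
    change D (E c) - E (D c) = 0
    rw [this.1, this.2, map_zero, map_zero, sub_zero])).2 S fun s hs => by
      rw [(hS s hs).1, (hS s hs).2, sub_zero]
  exact sub_eq_zero.1 ((hD (IntermediateField.adjoin k S) ℂ ℂ (RingHom.id ℂ)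
    (fun x => D (E x) - E (D x)) ha hm (fun c => h1 c c.2)).1 x (alg x))

theorem gen : OfGen := by
  intro hD d l F z hz θ hθ0 hθ
  set u : Fin (d + 1) → ℂ := fun i => (l i).2.2 with hudef
  have hu : ∀ i j, F.δ i (u j) = if j = i then 1 else 0 := fun i j => by
    split_ifs with h
    · rw [h]; exact F.du i
    · exact F.dz i _ (F.mem i j h)
  have hk : ∀ i, ∀ y ∈ F.k0, F.δ i y = 0 := fun i y hy => F.dz i y (F.le i hy)
  have hc : ∀ i j x, F.δ i (F.δ j x) = F.δ j (F.δ i x) := fun i j =>
    comm_der hD F.k0 (Set.range u) _ _ F.alg0 (fun y hy => ⟨hk i y hy, hk j y hy⟩) (by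
      rintro _ ⟨m, rfl⟩
      rw [hu, hu]
      constructor <;> split_ifs <;> simp)
  obtain ⟨a, ha0, hint⟩ :=
    (IntermediateField.isAlgebraic_adjoin_iff.1 (F.alg0 z)).exists_integral_multiple
  have hsub : ∀ i, ∀ x ∈ Algebra.adjoin F.k0 (Set.range u), x ∈ Algebra.adjoin (F.k i) {u i} := by
    intro i x hx
    induction hx using Algebra.adjoin_induction with
    | mem x hx =>
      obtain ⟨j, rfl⟩ := hx
      by_cases h : j = i
      · rw [h]; exact Algebra.self_mem_adjoin_singleton _ _
      · exact Subalgebra.algebraMap_mem _ (⟨_, F.mem i j h⟩ : F.k i)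
    | algebraMap r => exact Subalgebra.algebraMap_mem _ (⟨_, F.le i r.2⟩ : F.k i)
    | add x y _ _ hx hy => exact add_mem hx hy
    | mul x y _ _ hx hy => exact mul_mem hx hy
  have hfix : ∀ x ∈ Algebra.adjoin F.k0 (Set.range u), θ x = x := by
    intro x hx
    induction hx using Algebra.adjoin_induction with
    | mem x hx => obtain ⟨j, rfl⟩ := hx; exact hθ j
    | algebraMap r => exact hθ0 _ r.2
    | add x y _ _ hx hy => rw [map_add, hx, hy]
    | mul x y _ _ hx hy => rw [map_mul, hx, hy]
  have hn : ∀ i, ∃ N : ℕ, (F.δ i)^[N] ((a : ℂ) * z) = 0 := by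
    intro i
    have htr : Transcendental (F.k i) (u i) := fun h => by
      have h1 := F.dz i _ (F.cl i _ h)
      rw [hu, if_pos rfl] at h1
      exact one_ne_zero h1
    have hm : (a : ℂ) * z ∈ IntermediateField.adjoin (F.k i) {u i} :=
      mul_mem (IntermediateField.algebra_adjoin_le_adjoin _ _ (hsub i a a.2))
        (mem_adj (F.k i) (u i) z (F.alg i) (hz i))
    have hi : IsIntegral (Algebra.adjoin (F.k i) {u i}) ((a : ℂ) * z) :=
      IsIntegral.map_of_comp_eq
        ((Algebra.adjoin F.k0 (Set.range u)).val.toRingHom.codRestrict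
          (Algebra.adjoin (F.k i) {u i}) fun x => hsub i x x.2) (RingHom.id ℂ) rfl hint
    obtain ⟨q, hq⟩ := poly_of_int (F.k i) (u i) _ htr hm hi
    rw [← hq]
    exact nil_aeval (F.k i) (F.δ i) (u i) (F.dz i) (F.du i) q
  have hb := fix_nil F.δ u θ hu hc hθ (fun b hb => hθ0 b (F.cl0 b
    (alg_const F.δ u F.k0 hu hk b hb (F.alg0 b)))) Finset.univ _ hn
    fun j hj => (hj (Finset.mem_univ j)).elim
  rw [map_mul, hfix a a.2] at hb
  exact mul_left_cancel₀ (fun h => ha0 (Subtype.ext h)) hb

end Pool.Agent.MP_aa1ef7_ag.H20.GenA
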