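import Pool.Agent.MP_aa1ef7_ag.H20.Spec

/-! The generic point of a component carries a formal centre. -/

namespace Pool.Agent.MP_aa1ef7_ag.H20

open MvPolynomial
open Pool.Agent.MP_aa1ef7_ag.H40

namespace GenptA

theorem fcs_smul {P Q h : Ser ℂ} (H : FCs P Q h) (c : ℂ) (hc : c ≠ 0) :
    FCs (c • P) (c • Q) h where
  P0 := by simpa [cc] using Or.inr H.P0
  Q0 := by simpa [cc] using Or.inr H.Q0
  jac := by
    have : jac (c • P) (c • Q) = c * c * jac P Q := by
      simp only [jac, Derivation.map_smul, cc, MvPowerSeries.constantCoeff_smul, smul_eq_mul]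
      ring
    rw [this]
    exact ((IsUnit.mk0 c hc).mul (IsUnit.mk0 c hc)).mul H.jac
  int := by rw [smul_mul_assoc, smul_mul_assoc, ← smul_add, H.int, smul_zero]
  crit := H.crit
  hess := H.hess

theorem fc_rep (hT : TaylS) {d : ℕ} (v : Form d) (hv : v ≠ 0)
    (h : Projectivization.mk ℂ v hv ∈ Cent d) :
    ∃ (p : Fin 2 → ℂ) (g : Ser ℂ),
      FCs (tay p (v : Poly × Poly).1) (tay p (v : Poly × Poly).2) g := by
  obtain ⟨w, ⟨v', hv', rfl, e⟩, -, -, p, hp⟩ := h
  obtain ⟨g, hg⟩ := hT _ p hp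
  obtain ⟨c, rfl⟩ := (Projectivization.mk_eq_mk_iff ℂ _ _ _ _).mp e
  refine ⟨p, g, ?_⟩
  have := fcs_smul hg c c.ne_zero
  rw [← map_smul, ← map_smul] at this
  exact this

theorem fcs_pi {J : Type} {P Q h : Ser (J → ℂ)}
    (H : ∀ j, FCs (MvPowerSeries.map (Pi.evalRingHom (fun _ => ℂ) j) P)
      (MvPowerSeries.map (Pi.evalRingHom (fun _ => ℂ) j) Q)
      (MvPowerSeries.map (Pi.evalRingHom (fun _ => ℂ) j) h)) : FCs P Q h where
  P0 := funext fun j => (cc_map _ P).symm.trans (H j).P0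
  Q0 := funext fun j => (cc_map _ Q).symm.trans (H j).Q0
  jac := Pi.isUnit_iff.mpr fun j => by simpa [jac_map] using (H j).jac
  int := by
    ext e j
    have := (H j).int
    rw [dS_map, dS_map, ← map_mul, ← map_mul, ← map_add] at this
    exact congrArg (MvPowerSeries.coeff e) this
  crit i := funext fun j => by
    have := (H j).crit i
    rwa [dS_map, cc_map] at this
  hess := Pi.isUnit_iff.mpr fun j => by simpa [hess_map] using (H j).hess

end GenptA

open GenptA in
theorem rowGenpt : OfGenpt := by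
  intro hZ hT d C hC
  obtain ⟨-, h1, hpr, ⟨Ψ, hΨ, hin⟩, hA⟩ := (hZ d (Cent d)).2 C hC
  let J : Type := {v : Form d // ∃ hv : v ≠ 0, Projectivization.mk ℂ v hv ∈ Cent d}
  let a : MvPolynomial CI ℂ → J → ℂ := fun Φ j => eval (coords (j.1 : Poly × Poly)) Φ
  let W : MvPolynomial CI ℂ → Set J := fun Φ => {j | a (Ψ * Φ) j ≠ 0}
  have hne : ∀ Φ, ¬ Van C Φ → (W Φ).Nonempty := by
    intro Φ hΦ
    by_contra hc
    refine (hpr Ψ Φ (hA _ fun v hv hm => ?_)).elim hΨ hΦ
    by_contra h0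
    exact hc ⟨⟨v, hv, hm⟩, h0⟩
  obtain ⟨U, hU⟩ := Ultrafilter.exists_ultrafilter_of_finite_inter_nonempty
    (W '' {Φ | ¬ Van C Φ}) (by
      intro T hT'
      have : ∃ Φ, ¬ Van C Φ ∧ W Φ ⊆ ⋂₀ (T : Set (Set J)) := by
        classical
        induction T using Finset.induction_on with
        | empty => exact ⟨1, h1, by simp⟩
        | insert s T _ ih =>
          rw [Finset.coe_insert] at hT' ⊢
          obtain ⟨Φ, hΦ, hs⟩ := ih ((Set.subset_insert _ _).trans hT')
          obtain ⟨Φ', hΦ', rfl⟩ := hT' (Set.mem_insert _ _)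
          refine ⟨Φ * Φ', fun h => (hpr _ _ h).elim hΦ hΦ', fun j hj => ?_⟩
          have hj' : a Ψ j ≠ 0 ∧ a Φ j ≠ 0 ∧ a Φ' j ≠ 0 := by
            simpa [W, a, not_or] using hj
          rw [Set.sInter_insert]
          exact ⟨by simpa [W, a, not_or] using ⟨hj'.1, hj'.2.2⟩,
            hs (by simpa [W, a, not_or] using ⟨hj'.1, hj'.2.1⟩)⟩
      obtain ⟨Φ, hΦ, hs⟩ := this
      exact (hne Φ hΦ).mono hs)
  choose p g hg using fun j : J => fc_rep hT j.1 j.2.choose j.2.choose_spec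
  let π : (J → ℂ) →+* Filter.Germ (U : Filter J) ℂ := Filter.Germ.coeRingHom _
  let _ : Algebra ℂ (Filter.Germ (U : Filter J) ℂ) := (π.comp (algebraMap ℂ (J → ℂ))).toAlgebra
  let χ : MvPolynomial CI ℂ →ₐ[ℂ] Filter.Germ (U : Filter J) ℂ :=
    aeval fun i => π (a (X i))
  have hχ : ∀ Φ, χ Φ = π (a Φ) := by
    intro Φ
    induction Φ using MvPolynomial.induction_on with
    | C c =>
      rw [algHom_C]
      exact congrArg π (funext fun j => by simp [a])
    | add x y hx hy =>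
      rw [map_add, hx, hy, ← map_add]
      exact congrArg π (funext fun j => by simp [a])
    | mul_X x i hx =>
      rw [map_mul, hx, aeval_X, ← map_mul]
      exact congrArg π (funext fun j => by simp [a])
  have hπ : ∀ f : J → ℂ, π f = 0 ↔ ∀ᶠ j in (U : Filter J), f j = 0 := fun f =>
    Filter.Germ.coe_eq (f := f) (g := 0)
  refine ⟨Filter.Germ (U : Filter J) ℂ, inferInstance, inferInstance, χ,
    π ∘ fun i j => p j i, fun Φ => ?_, ?_⟩
  · rw [hχ, hπ]
    constructor
    · intro h0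
      by_contra hΦ
      obtain ⟨j, hj, hj'⟩ := (h0.and (hU ⟨Φ, hΦ, rfl⟩)).exists
      apply hj'
      change eval _ (Ψ * Φ) = 0
      rw [map_mul]
      exact mul_eq_zero_of_right _ hj
    · intro hΦ
      filter_upwards [hU ⟨1, h1, rfl⟩] with j hj
      exact hΦ _ _ (hin _ _ j.2.choose_spec (by simpa [W, a] using hj))
  · have h2 : (fun i => χ (X i)) = π ∘ fun i => a (X i) := funext fun i => hχ _
    rw [h2, ← formOf_map, ← formOf_map]
    refine FC.map π ⟨fun e j => g j e, fcs_pi fun j => ?_⟩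
    have h3 := formOf_coordsK (d := d) (P := (j.1 : Poly × Poly).1) (Q := (j.1 : Poly × Poly).2)
      ((mem_restrictTotalDegree _ _ _).mp j.1.2.1) ((mem_restrictTotalDegree _ _ _).mp j.1.2.2)
    have h4 : (Pi.evalRingHom (fun _ => ℂ) j) ∘ (fun i => a (X i)) =
        coordsK (j.1 : Poly × Poly).1 (j.1 : Poly × Poly).2 := funext fun i => by
      simp [a, coords, coordsK]
    rw [← tay_map, ← tay_map, formOf_map, formOf_map, h4, h3.1, h3.2]
    exact hg j

end Pool.Agent.MP_aa1ef7_ag.H20
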