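import Pool.Agent.MP_aa1ef7_ag.H20.Spec

/-! Generators of the Brieskorn module with degree control. -/

namespace Pool.Agent.MP_aa1ef7_ag.H20

open MvPolynomial

namespace GensA

variable {Λ : Type} [CommRing Λ]

/-- `b` has a normal form with degree bound `n`. -/
def Good (d : ℕ) (f : Pl Λ) (n : ℕ) (b : Pl Λ) : Prop :=
  ∃ (c : (Fin 2 →₀ ℕ) → Polynomial Λ) (A : Pl Λ), (∀ m, (d + 1) * (c m).natDegree ≤ n) ∧
    b = ∑ m ∈ mon (2 * d - 2), Polynomial.aeval f (c m) * monomial m 1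
      + (pderiv 1 f * pderiv 0 A - pderiv 0 f * pderiv 1 A)

variable {d : ℕ} {f : Pl Λ}

theorem Good.mono {n n' : ℕ} {b : Pl Λ} (h : Good d f n b) (hn : n ≤ n') : Good d f n' b := by
  obtain ⟨c, A, h1, h2⟩ := h
  exact ⟨c, A, fun m => (h1 m).trans hn, h2⟩

theorem good_exact (n : ℕ) (A : Pl Λ) :
    Good d f n (pderiv 1 f * pderiv 0 A - pderiv 0 f * pderiv 1 A) :=
  ⟨fun _ => 0, A, by simp, by simp⟩

theorem good_zero (n : ℕ) : Good d f n 0 := by simpa using good_exact (d := d) (f := f) n 0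

theorem Good.add {n : ℕ} {b b' : Pl Λ} (h : Good d f n b) (h' : Good d f n b') :
    Good d f n (b + b') := by
  obtain ⟨c, A, h1, rfl⟩ := h
  obtain ⟨c', A', h1', rfl⟩ := h'
  refine ⟨fun m => c m + c' m, A + A', fun m => ?_, ?_⟩
  · have := Polynomial.natDegree_add_le (c m) (c' m)
    have h3 := h1 m
    have h4 := h1' m
    rcases le_max_iff.mp this with h | h
    · exact (Nat.mul_le_mul_left _ h).trans h3
    · exact (Nat.mul_le_mul_left _ h).trans h4
  · simp only [map_add, add_mul, Finset.sum_add_distrib]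
    ring

theorem Good.cmul {n : ℕ} {b : Pl Λ} (h : Good d f n b) (r : Λ) : Good d f n (C r * b) := by
  obtain ⟨c, A, h1, rfl⟩ := h
  refine ⟨fun m => Polynomial.C r * c m, C r * A, fun m => ?_, ?_⟩
  · exact (Nat.mul_le_mul_left _ (Polynomial.natDegree_C_mul_le _ _)).trans (h1 m)
  · simp only [map_mul, Polynomial.aeval_C, algebraMap_eq, pderiv_C_mul, mul_add, Finset.mul_sum,
      mul_assoc]
    ring

theorem Good.fmul {n : ℕ} {b : Pl Λ} (h : Good d f n b) : Good d f (n + (d + 1)) (f * b) := by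
  obtain ⟨c, A, h1, rfl⟩ := h
  refine ⟨fun m => Polynomial.X * c m, f * A, fun m => ?_, ?_⟩
  · have h2 : (Polynomial.X * c m).natDegree ≤ 1 + (c m).natDegree :=
      Polynomial.natDegree_mul_le.trans (Nat.add_le_add_right Polynomial.natDegree_X_le _)
    have h3 := h1 m
    calc (d + 1) * (Polynomial.X * c m).natDegree ≤ (d + 1) * (1 + (c m).natDegree) :=
          Nat.mul_le_mul_left _ h2
      _ ≤ _ := by rw [mul_add]; omega
  · simp only [map_mul, Polynomial.aeval_X, Derivation.leibniz, smul_eq_mul, mul_add,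
      Finset.mul_sum, mul_assoc]
    ring

theorem good_low (n : ℕ) {m : Fin 2 →₀ ℕ} (hm : m 0 + m 1 ≤ 2 * d - 2) :
    Good d f n (monomial m 1) := by
  classical
  refine ⟨fun e => if e = m then 1 else 0, 0, fun e => by dsimp only; split_ifs <;> simp, ?_⟩
  rw [Finset.sum_eq_single m]
  · simp
  · intro e _ he; simp [he]
  · intro h; exact absurd (mem_mon.2 hm) h

theorem good_sum {ι : Type} (n : ℕ) (s : Finset ι) (g : ι → Pl Λ)
    (h : ∀ i ∈ s, Good d f n (g i)) : Good d f n (∑ i ∈ s, g i) :=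
  Finset.sum_induction g (Good d f n) (fun _ _ => Good.add) (good_zero n) h

theorem deg_of_mem {n : ℕ} {b : Pl Λ} (hb : b.totalDegree ≤ n) {m : Fin 2 →₀ ℕ}
    (hm : m ∈ b.support) : m 0 + m 1 ≤ n := by
  by_contra h
  exact mem_support_iff.mp hm (deg_le_iff.1 hb m (by omega))

theorem as_sum' (b : Pl Λ) : b = ∑ m ∈ b.support, C (coeff m b) * monomial m 1 := by
  conv_lhs => rw [b.as_sum]
  exact Finset.sum_congr rfl fun m _ => by rw [C_mul_monomial, mul_one]

theorem deg_rest (hf : f.totalDegree ≤ d + 1) :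
    (f - homogeneousComponent (d + 1) f).totalDegree ≤ d := by
  refine deg_le_iff.2 fun m hm => ?_
  rw [coeff_sub, coeff_homogeneousComponent]
  have e : m.degree = m 0 + m 1 := by rw [Finsupp.degree_eq_sum, Fin.sum_univ_two]
  split_ifs with h
  · exact sub_self _
  · rw [deg_le_iff.1 hf m (by omega), sub_zero]

theorem deg_mul_le {a b : Pl Λ} {i j : ℕ} (ha : a.totalDegree ≤ i) (hb : b.totalDegree ≤ j) :
    (a * b).totalDegree ≤ i + j := (totalDegree_mul a b).trans (Nat.add_le_add ha hb)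

theorem deg_add_le {a b : Pl Λ} {i : ℕ} (ha : a.totalDegree ≤ i) (hb : b.totalDegree ≤ i) :
    (a + b).totalDegree ≤ i := (totalDegree_add a b).trans (max_le ha hb)

theorem deg_sub_le {a b : Pl Λ} {i : ℕ} (ha : a.totalDegree ≤ i) (hb : b.totalDegree ≤ i) :
    (a - b).totalDegree ≤ i := (totalDegree_sub a b).trans (max_le ha hb)

theorem deg_X_le (i : Fin 2) : (X i : Pl Λ).totalDegree ≤ 1 := (isHomogeneous_X Λ i).totalDegree_le

/-- A monomial of high degree is in the Jacobian ideal up to lower degree. -/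
theorem mono_step (hd : 1 ≤ d) (hf : f.totalDegree ≤ d + 1) (hS : Syl d f) {m : Fin 2 →₀ ℕ}
    {k : ℕ} (hk : m 0 + m 1 = k + d) (hm : 2 * d - 1 ≤ m 0 + m 1) :
    ∃ α β r : Pl Λ, α.IsHomogeneous k ∧ β.IsHomogeneous k ∧ r.totalDegree ≤ k + d - 1 ∧
      monomial m 1 = α * pderiv 0 f + β * pderiv 1 f + r := by
  obtain ⟨a, b, ha, hb, hab⟩ : ∃ a b : ℕ, a ≤ m 0 ∧ b ≤ m 1 ∧ a + b = 2 * d - 1 := by
    by_cases h : m 0 ≤ 2 * d - 1
    · exact ⟨m 0, 2 * d - 1 - m 0, le_rfl, by omega, by omega⟩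
    · exact ⟨2 * d - 1, 0, by omega, by omega, by omega⟩
  let m₁ : Fin 2 →₀ ℕ := Finsupp.single 0 a + Finsupp.single 1 b
  let m₂ : Fin 2 →₀ ℕ := Finsupp.single 0 (m 0 - a) + Finsupp.single 1 (m 1 - b)
  have e : m = m₂ + m₁ := by
    ext i
    fin_cases i <;> simp [m₁, m₂] <;> omega
  obtain ⟨α, β, hα, hβ, h⟩ := hS m₁ (by simp [m₁]; omega)
  have hM : (monomial m₂ (1 : Λ)).IsHomogeneous (k - (d - 1)) := by
    apply isHomogeneous_monomial
    rw [Finsupp.degree_eq_sum, Fin.sum_univ_two]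
    simp [m₂]; omega
  have hk' : k - (d - 1) + (d - 1) = k := by omega
  have hα' := hM.mul hα
  have hβ' := hM.mul hβ
  rw [hk'] at hα' hβ'
  have hg := deg_rest hf
  set g := f - homogeneousComponent (d + 1) f with hgdef
  have hg' : g.totalDegree ≤ (d - 1) + 1 := by omega
  refine ⟨monomial m₂ 1 * α, monomial m₂ 1 * β,
    -(monomial m₂ 1 * α * pderiv 0 g + monomial m₂ 1 * β * pderiv 1 g), hα', hβ', ?_, ?_⟩
  · rw [totalDegree_neg]
    have h1 := deg_mul_le hα'.totalDegree_le (deg_pderiv_le hg' 0)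
    have h2 := deg_mul_le hβ'.totalDegree_le (deg_pderiv_le hg' 1)
    exact deg_add_le (by omega) (by omega)
  · have e2 : (monomial m (1 : Λ)) = monomial m₂ 1 * monomial m₁ 1 := by
      rw [monomial_mul, one_mul, ← e]
    rw [e2, h, hgdef, map_sub, map_sub]
    ring

theorem euler_f (hd : 1 ≤ d) (hf : f.totalDegree ≤ d + 1) : ∃ e : Pl Λ, e.totalDegree ≤ d ∧
    X 0 * pderiv 0 f + X 1 * pderiv 1 f = C ((d + 1 : ℕ) : Λ) * f + e := by
  have hg := deg_rest hf
  have hF := (homogeneousComponent_isHomogeneous (d + 1) f).sum_X_mul_pderiv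
  rw [Fin.sum_univ_two] at hF
  set F := homogeneousComponent (d + 1) f
  set g := f - F with hgdef
  have hg' : g.totalDegree ≤ (d - 1) + 1 := by omega
  refine ⟨X 0 * pderiv 0 g + X 1 * pderiv 1 g - C ((d + 1 : ℕ) : Λ) * g, ?_, ?_⟩
  · have h1 := deg_mul_le (deg_X_le (Λ := Λ) 0) (deg_pderiv_le hg' 0)
    have h2 := deg_mul_le (deg_X_le (Λ := Λ) 1) (deg_pderiv_le hg' 1)
    have h3 := deg_mul_le (totalDegree_C (σ := Fin 2) ((d + 1 : ℕ) : Λ)).le hg
    exact deg_sub_le (deg_add_le (by omega) (by omega)) (by omega)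
  · rw [hgdef, map_sub, map_sub, map_natCast]
    rw [nsmul_eq_mul] at hF
    linear_combination hF

theorem good_all [Algebra ℚ Λ] (hd : 1 ≤ d) (hf : f.totalDegree ≤ d + 1) (hS : Syl d f) (n : ℕ) :
    ∀ b : Pl Λ, b.totalDegree ≤ n → Good d f n b := by
  induction n using Nat.strong_induction_on with
  | _ n ih =>
    intro b hb
    rw [as_sum' b]
    refine good_sum n _ _ fun m hm => Good.cmul ?_ _
    have hmn := deg_of_mem hb hm
    by_cases hlow : m 0 + m 1 ≤ 2 * d - 2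
    · exact good_low n hlow
    obtain ⟨k, hk⟩ : ∃ k, m 0 + m 1 = k + d := ⟨m 0 + m 1 - d, by omega⟩
    obtain ⟨α, β, r, hα, hβ, hr, h⟩ := mono_step hd hf hS hk (by omega)
    obtain ⟨e, he, hE⟩ := euler_f hd hf
    rw [h]
    refine Good.add ?_ ((ih (n - 1) (by omega) r (by omega)).mono (by omega))
    have hα' := hα.sum_X_mul_pderiv
    have hβ' := hβ.sum_X_mul_pderiv
    rw [Fin.sum_univ_two, nsmul_eq_mul] at hα' hβ'
    have hdiv : Good d f n (f * (pderiv 0 α + pderiv 1 β)) ∧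
        Good d f n ((pderiv 0 α + pderiv 1 β) * e) := by
      rcases Nat.eq_zero_or_pos k with rfl | hk0
      · rw [pderiv_eq_zero_of_deg hα.totalDegree_le, pderiv_eq_zero_of_deg hβ.totalDegree_le]
        simpa using good_zero n
      · have h1 : (pderiv 0 α + pderiv 1 β).totalDegree ≤ k - 1 :=
          deg_add_le (deg_pderiv_le (by have := hα.totalDegree_le; omega) 0)
            (deg_pderiv_le (by have := hβ.totalDegree_le; omega) 1)
        have h2 := deg_mul_le h1 he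
        exact ⟨(ih (k - 1) (by omega) _ h1).fmul.mono (by omega),
          (ih (n - 1) (by omega) _ (by omega)).mono (by omega)⟩
    have hsum := ((hdiv.1.cmul ((d + 1 : ℕ) : Λ)).add hdiv.2).add
      (good_exact n (X 0 * β - X 1 * α))
    have hu : (C (algebraMap ℚ Λ (1 / (k + 1))) : Pl Λ) * ((k : Pl Λ) + 1) = 1 := by
      have : ((k : Pl Λ) + 1) = C (algebraMap ℚ Λ (k + 1)) := by simp
      rw [this, ← map_mul, ← map_mul, one_div_mul_cancel (by positivity), map_one, map_one]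
    convert hsum.cmul (algebraMap ℚ Λ (1 / (k + 1))) using 1
    have h01 : (pderiv 0 (X 1 : Pl Λ)) = 0 := pderiv_X_of_ne (by decide)
    have h10 : (pderiv 1 (X 0 : Pl Λ)) = 0 := pderiv_X_of_ne (by decide)
    simp only [map_sub, Derivation.leibniz, smul_eq_mul, pderiv_X_self, h01, h10]
    generalize (C (algebraMap ℚ Λ (1 / (k + 1))) : Pl Λ) = u at hu ⊢
    linear_combination (-(α * pderiv 0 f + β * pderiv 1 f)) * hu
      + u * (pderiv 0 α + pderiv 1 β) * hE - u * pderiv 0 f * hα' - u * pderiv 1 f * hβ'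

theorem monic_q (hd : 1 ≤ d) (hf : f.totalDegree ≤ d + 1) (hS : Syl d f) :
    ∃ (q : Polynomial Λ) (Y0 Y1 : Pl Λ), q.Monic ∧
      Polynomial.aeval f q = Y0 * pderiv 0 f + Y1 * pderiv 1 f := by
  classical
  let J : Ideal (Pl Λ) := Ideal.span {pderiv 0 f, pderiv 1 f}
  let π : Pl Λ →ₐ[Λ] Pl Λ ⧸ J := Ideal.Quotient.mkₐ Λ J
  let N : Submodule Λ (Pl Λ ⧸ J) :=
    Submodule.span Λ ((mon (2 * d - 2)).image fun m => π (monomial m 1))
  have key : ∀ n, ∀ b : Pl Λ, b.totalDegree ≤ n → π b ∈ N := by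
    intro n
    induction n using Nat.strong_induction_on with
    | _ n ih =>
      intro b hb
      rw [as_sum' b, map_sum]
      refine N.sum_mem fun m hm => ?_
      rw [C_mul', map_smul]
      refine N.smul_mem _ ?_
      have hmn := deg_of_mem hb hm
      by_cases hlow : m 0 + m 1 ≤ 2 * d - 2
      · exact Submodule.subset_span (Finset.mem_coe.2 (Finset.mem_image_of_mem _ (mem_mon.2 hlow)))
      obtain ⟨k, hk⟩ : ∃ k, m 0 + m 1 = k + d := ⟨m 0 + m 1 - d, by omega⟩
      obtain ⟨α, β, r, -, -, hr, h⟩ := mono_step hd hf hS hk (by omega)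
      have h0 : π (α * pderiv 0 f + β * pderiv 1 f) = 0 :=
        Ideal.Quotient.eq_zero_iff_mem.2 (Ideal.mem_span_pair.2 ⟨α, β, rfl⟩)
      rw [h, map_add, h0, zero_add]
      exact ih (n - 1) (by omega) r (by omega)
  have hfin : Module.Finite Λ (Pl Λ ⧸ J) := by
    refine ⟨⟨(mon (2 * d - 2)).image fun m => π (monomial m 1), ?_⟩⟩
    rw [eq_top_iff]
    intro z _
    obtain ⟨b, rfl⟩ := Ideal.Quotient.mkₐ_surjective Λ J z
    exact key _ b le_rfl
  obtain ⟨q, hq, hq0⟩ : IsIntegral Λ (π f) := Algebra.IsIntegral.isIntegral _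
  have h1 : π (Polynomial.aeval f q) = 0 := by
    rw [← Polynomial.aeval_algHom_apply]
    exact hq0
  obtain ⟨Y0, Y1, hY⟩ := Ideal.mem_span_pair.1 (Ideal.Quotient.eq_zero_iff_mem.1 h1)
  exact ⟨q, Y0, Y1, hq, hY.symm⟩

end GensA

theorem rowGens : GensS := fun _ _ _ _ _ hd hf hS =>
  ⟨fun n b hb => GensA.good_all hd hf hS n b hb, GensA.monic_q hd hf hS⟩

end Pool.Agent.MP_aa1ef7_ag.H20
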