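import Pool.Agent.MP_aa1ef7_ag.G.Gma

/-! The Gauss-Manin connection on the relations at a face. -/

namespace Pool.Agent.MP_aa1ef7_ag.H20

open MvPolynomial
open Pool.Agent.MP_aa1ef7_ag.H40

namespace GmA

section ser

/-- A derivation applied to every coefficient. -/
noncomputable def cf (δ : Derivation ℤ ℂ ℂ) : Ser ℂ →+ Ser ℂ where
  toFun G := fun e => δ (MvPowerSeries.coeff e G)
  map_zero' := funext fun _ => map_zero δ
  map_add' _ _ := funext fun _ => map_add δ _ _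

theorem coeff_cf (δ : Derivation ℤ ℂ ℂ) (G : Ser ℂ) (e : Fin 2 →₀ ℕ) :
    MvPowerSeries.coeff e (cf δ G) = δ (MvPowerSeries.coeff e G) := rfl

theorem cf_mul (δ : Derivation ℤ ℂ ℂ) (a b : Ser ℂ) :
    cf δ (a * b) = a * cf δ b + b * cf δ a := by
  classical
  ext e
  rw [mul_comm b, map_add, coeff_cf, MvPowerSeries.coeff_mul, MvPowerSeries.coeff_mul,
    MvPowerSeries.coeff_mul, map_sum, ← Finset.sum_add_distrib]
  refine Finset.sum_congr rfl fun x _ => ?_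
  simp only [Derivation.leibniz, smul_eq_mul, coeff_cf]; ring

theorem cf_dS (δ : Derivation ℤ ℂ ℂ) (i : Fin 2) (a : Ser ℂ) : cf δ (dS i a) = dS i (cf δ a) := by
  ext e
  simp only [dS, coeff_cf, MvPowerSeries.coeff_pderiv, Derivation.leibniz, smul_eq_mul, map_add,
    Derivation.map_natCast, Derivation.map_one_eq_zero]
  ring

theorem cf_C (δ : Derivation ℤ ℂ ℂ) (a : ℂ) :
    cf δ (MvPowerSeries.C a) = MvPowerSeries.C (δ a) := by
  classical
  ext e
  rw [coeff_cf, MvPowerSeries.coeff_C, MvPowerSeries.coeff_C]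
  split_ifs <;> simp

theorem cf_X (δ : Derivation ℤ ℂ ℂ) (j : Fin 2) : cf δ (MvPowerSeries.X j) = 0 := by
  classical
  ext e
  rw [coeff_cf, MvPowerSeries.coeff_X]
  split_ifs <;> simp

theorem dS_C (i : Fin 2) (a : ℂ) : dS i (MvPowerSeries.C a : Ser ℂ) = 0 :=
  MvPowerSeries.pderiv_C

theorem dS_dS (i j : Fin 2) (a : Ser ℂ) : dS i (dS j a) = dS j (dS i a) := by
  fin_cases i <;> fin_cases j
  · rfl
  · exact dS_comm a
  · exact (dS_comm a).symm
  · rfl

/-- The horizontal derivation at the moving point `p`. -/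
noncomputable def dh (δ : Derivation ℤ ℂ ℂ) (p : Fin 2 → ℂ) : Ser ℂ →+ Ser ℂ where
  toFun G := cf δ G - (MvPowerSeries.C (δ (p 0)) * dS 0 G + MvPowerSeries.C (δ (p 1)) * dS 1 G)
  map_zero' := by simp
  map_add' a b := by simp only [map_add]; ring

theorem dh_apply (δ : Derivation ℤ ℂ ℂ) (p : Fin 2 → ℂ) (G : Ser ℂ) : dh δ p G =
    cf δ G - (MvPowerSeries.C (δ (p 0)) * dS 0 G + MvPowerSeries.C (δ (p 1)) * dS 1 G) := rfl

theorem dh_mul (δ : Derivation ℤ ℂ ℂ) (p : Fin 2 → ℂ) (a b : Ser ℂ) :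
    dh δ p (a * b) = a * dh δ p b + b * dh δ p a := by
  simp only [dh_apply, cf_mul, Derivation.leibniz, smul_eq_mul]; ring

theorem dh_dS (δ : Derivation ℤ ℂ ℂ) (p : Fin 2 → ℂ) (i : Fin 2) (a : Ser ℂ) :
    dh δ p (dS i a) = dS i (dh δ p a) := by
  simp only [dh_apply, cf_dS, map_sub, map_add, Derivation.leibniz, smul_eq_mul, dS_C,
    dS_dS i]
  ring

theorem dh_C (δ : Derivation ℤ ℂ ℂ) (p : Fin 2 → ℂ) (a : ℂ) :
    dh δ p (MvPowerSeries.C a) = MvPowerSeries.C (δ a) := by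
  simp [dh_apply, cf_C, dS_C]

theorem tay_C (p : Fin 2 → ℂ) (a : ℂ) : tay p (C a) = MvPowerSeries.C a := by
  simp [tay, MvPowerSeries.algebraMap_apply]

theorem dh_tay_X (δ : Derivation ℤ ℂ ℂ) (p : Fin 2 → ℂ) (j : Fin 2) :
    dh δ p (tay p (X j)) = 0 := by
  rw [dh_apply, dS_tay, dS_tay]
  fin_cases j <;> simp [tay, cf_C, cf_X]

theorem dh_mon (δ : Derivation ℤ ℂ ℂ) (p : Fin 2 → ℂ) (m : Fin 2 →₀ ℕ) :
    dh δ p (tay p (monomial m 1)) = 0 := by
  have : tay p (monomial m 1) ∈ kerR _ (dh_mul δ p) := by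
    rw [monomial_eq, C_1, one_mul, Finsupp.prod, map_prod]
    refine prod_mem fun j _ => ?_
    rw [map_pow]
    exact pow_mem (dh_tay_X δ p j) _
  exact this

theorem dh_lin (δ : Derivation ℤ ℂ ℂ) (p : Fin 2 → ℂ) (a : ℂ × ℂ × ℂ) (h1 : δ a.1 = 0)
    (h2 : δ a.2.1 = 0) : dh δ p (tay p (lin a)) = MvPowerSeries.C (δ a.2.2) := by
  simp only [lin, map_add, map_mul, dh_mul, dh_tay_X, tay_C, dh_C, h1, h2]
  simp

theorem isUnit_tay (p : Fin 2 → ℂ) {r : Poly} (h : eval p r ≠ 0) : IsUnit (tay p r) := by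
  rw [MvPowerSeries.isUnit_iff_constantCoeff]
  have := cc_tay p r
  rw [cc] at this
  rw [this]
  exact h.isUnit

theorem pderiv_lin (a : ℂ × ℂ × ℂ) (j : Fin 2) : pderiv j (lin a) = C (dir j a) := by
  fin_cases j <;> simp [lin, dir]

end ser

variable {d : ℕ} {l : Fin (d + 1) → ℂ × ℂ × ℂ}

theorem lin_mul_gI (i : Fin (d + 1)) : lin (l i) * gI l {i} = ff l := by
  rw [ff_eq l {i}, Finset.prod_singleton]

theorem ctx (δ : Derivation ℤ ℂ ℂ) (i : Fin (d + 1)) (h1 : ∀ m, δ (l m).1 = 0)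
    (h2 : ∀ m, δ (l m).2.1 = 0) (h3 : ∀ m, m ≠ i → δ (l m).2.2 = 0) (h4 : δ (l i).2.2 = 1)
    (q : Polynomial ℂ) (Y0 Y1 : Poly)
    (hq : Polynomial.aeval (ff l) q = Y0 * pderiv 0 (ff l) + Y1 * pderiv 1 (ff l))
    (p : Fin 2 → ℂ) :
    Ctx dS (dh δ p) δ (tay p (ff l)) (tay p (gI l {i})) (tay p (Polynomial.aeval (ff l) q))
      (tay p (Polynomial.aeval (ff l) (Polynomial.derivative q))) (tay p Y0) (tay p Y1) where
  comm := dS_comm
  mul := dh_mul δ p
  cD := dh_dS δ p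
  alg a := dh_C δ p a
  hφ := by
    have hg : tay p (gI l {i}) ∈ kerR _ (dh_mul δ p) := by
      rw [gI, map_prod]
      refine prod_mem fun m hm => ?_
      change dh δ p _ = 0
      rw [dh_lin δ p _ (h1 m) (h2 m), h3 m (by simpa using hm), map_zero]
    rw [← lin_mul_gI i, map_mul, dh_mul, show dh δ p (tay p (gI l {i})) = 0 from hg,
      dh_lin δ p _ (h1 i) (h2 i), h4]
    simp
  hQ := by rw [hq, dS_tay, dS_tay, map_add, map_mul, map_mul]
  hQ' j := by
    rw [dS_tay, dS_tay, ← map_mul, Derivation.map_aeval, smul_eq_mul]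

/-- The polynomial part of the derivative of a logarithm. -/
theorem exists_v (R : Subring Poly) (i : Fin (d + 1)) (hl : ∀ m, lin (l m) ∈ R)
    (hd : ∀ j, ∀ r ∈ R, pderiv j r ∈ R) {Q Y0 Y1 : Poly} (h0 : Y0 ∈ R) (h1 : Y1 ∈ R)
    (hq : Q = Y0 * pderiv 0 (ff l) + Y1 * pderiv 1 (ff l)) (m : Fin (d + 1)) :
    ∃ v ∈ R, lin (l m) * v = Q * C (if m = i then 1 else 0)
      - gI l {i} * (Y0 * C (dir 0 (l m)) + Y1 * C (dir 1 (l m))) := by
  have hg : ∀ I, gI l I ∈ R := fun I => prod_mem fun k _ => hl k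
  split_ifs with h
  · subst h
    refine ⟨Y0 * pderiv 0 (gI l {m}) + Y1 * pderiv 1 (gI l {m}),
      add_mem (mul_mem h0 (hd _ _ (hg _))) (mul_mem h1 (hd _ _ (hg _))), ?_⟩
    rw [hq, ← lin_mul_gI m]
    simp only [Derivation.leibniz, smul_eq_mul, pderiv_lin, C_1]
    ring
  · have e : gI l {i} = lin (l m) * ∏ k ∈ ({i}ᶜ : Finset (Fin (d + 1))).erase m, lin (l k) :=
      (Finset.mul_prod_erase _ (fun k => lin (l k)) (by simpa using h)).symm
    refine ⟨-((∏ k ∈ ({i}ᶜ : Finset (Fin (d + 1))).erase m, lin (l k)) *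
      (Y0 * pderiv 0 (lin (l m)) + Y1 * pderiv 1 (lin (l m)))),
      neg_mem (mul_mem (prod_mem fun k _ => hl k)
        (add_mem (mul_mem h0 (hd _ _ (hl _))) (mul_mem h1 (hd _ _ (hl _))))), ?_⟩
    rw [e]
    simp only [pderiv_lin, C_0]
    ring

theorem bet_mem (R : Subring Poly) (hl : ∀ m, lin (l m) ∈ R)
    (hd : ∀ j, ∀ r ∈ R, pderiv j r ∈ R) (n : Fin (d + 1)) : bet l n ∈ R := by
  refine sum_mem fun m _ => mul_mem ?_ (prod_mem fun k _ => hl k)
  have h0 : ∀ k, C (l k).1 ∈ R := fun k => by simpa [pderiv_lin, dir] using hd 0 _ (hl k)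
  have h1 : ∀ k, C (l k).2.1 ∈ R := fun k => by simpa [pderiv_lin, dir] using hd 1 _ (hl k)
  rw [C_sub, C_mul, C_mul]
  exact sub_mem (mul_mem (h0 _) (h1 _)) (mul_mem (h0 _) (h1 _))

theorem br_lg (hlg : LgS) (hL : Lin l) {p : Fin 2 → ℂ} (hp : Face l p) (n : Fin (d + 1)) :
    br dS (tay p (ff l)) (lg l p n) = tay p (bet l n) := by
  have hu := isUnit_tay p (hp.2 n)
  refine hu.mul_left_cancel ?_
  have h0 := (hlg d l p n).2 (hp.2 n) 0
  have h1 := (hlg d l p n).2 (hp.2 n) 1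
  rw [← map_mul, hL.bet, DP, br, br, dS_tay, dS_tay]
  simp only [dP, pderiv_lin, map_sub, map_mul, tay_C]
  linear_combination tay p (pderiv 1 (ff l)) * h0 - tay p (pderiv 0 (ff l)) * h1

/-- The image of every generator is a polynomial over `R` up to an exact series. -/
theorem U_gen (hlg : LgS) (hL : Lin l) (R : Subring Poly) (δ : Derivation ℤ ℂ ℂ)
    (i : Fin (d + 1)) (h1 : ∀ m, δ (l m).1 = 0)
    (h2 : ∀ m, δ (l m).2.1 = 0) (h3 : ∀ m, m ≠ i → δ (l m).2.2 = 0) (h4 : δ (l i).2.2 = 1)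
    (q : Polynomial ℂ) (Y0 Y1 : Poly)
    (hq : Polynomial.aeval (ff l) q = Y0 * pderiv 0 (ff l) + Y1 * pderiv 1 (ff l))
    (hl : ∀ m, lin (l m) ∈ R) (hd : ∀ j, ∀ r ∈ R, pderiv j r ∈ R) (hY0 : Y0 ∈ R) (hY1 : Y1 ∈ R)
    (hq' : Polynomial.aeval (ff l) (Polynomial.derivative q) ∈ R)
    (hm : ∀ m, monomial m 1 ∈ R) (a : GI d) :
    ∃ r ∈ R, ∀ p, Face l p → ∃ B, UU dS (dh δ p) (tay p (gI l {i}))
      (tay p (Polynomial.aeval (ff l) q))
      (tay p (Polynomial.aeval (ff l) (Polynomial.derivative q))) (tay p Y0) (tay p Y1)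
      (gen l p a) = tay p r + br dS (tay p (ff l)) B := by
  have hg : gI l {i} ∈ R := prod_mem fun k _ => hl k
  rcases a with m | ⟨m, n⟩
  · refine ⟨-(gI l {i} * (Y0 * pderiv 0 (monomial m.1 1) + Y1 * pderiv 1 (monomial m.1 1))) +
      (Polynomial.aeval (ff l) (Polynomial.derivative q) * gI l {i} - pderiv 0 (gI l {i} * Y0)
        - pderiv 1 (gI l {i} * Y1)) * monomial m.1 1, ?_, fun p _ => ⟨0, ?_⟩⟩
    · exact add_mem (neg_mem (mul_mem hg (add_mem (mul_mem hY0 (hd _ _ (hm _)))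
        (mul_mem hY1 (hd _ _ (hm _))))))
        (mul_mem (sub_mem (sub_mem (mul_mem hq' hg) (hd _ _ (mul_mem hg hY0)))
          (hd _ _ (mul_mem hg hY1))) (hm _))
    · rw [gen, UU_apply, VV_apply, dh_mon, br_zero, ← map_mul _ _ Y0, ← map_mul _ _ Y1, dS_tay,
        dS_tay, dS_tay, dS_tay]
      simp only [map_add, map_sub, map_mul, map_neg]
      ring
  · choose v hv hv' using exists_v R i hl hd hY0 hY1 hq
    refine ⟨v m * bet l n - v n * bet l m,
      sub_mem (mul_mem (hv _) (bet_mem R hl hd _)) (mul_mem (hv _) (bet_mem R hl hd _)),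
      fun p hp => ?_⟩
    have H := ctx δ i h1 h2 h3 h4 q Y0 Y1 hq p
    have key : ∀ k, br dS (tay p (ff l)) (VV dS (dh δ p) (tay p (gI l {i}))
        (tay p (Polynomial.aeval (ff l) q)) (tay p Y0) (tay p Y1) (lg l p k) - tay p (v k)) = 0 := by
      intro k
      refine br_V_log H (a := fun j => MvPowerSeries.C (dir j (l k)))
        (e := MvPowerSeries.C (if k = i then 1 else 0)) (isUnit_tay p (hp.2 k))
        ((hlg d l p k).2 (hp.2 k)) (fun j => by rw [dS_tay, pderiv_lin, tay_C]) (fun j => ?_) ?_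
        (fun j => dS_C _ _) ?_
      · rw [dh_C]
        fin_cases j <;> simp [dir, h1, h2]
      · rw [dh_lin δ p _ (h1 k) (h2 k)]
        split_ifs with h
        · rw [h, h4]
        · rw [h3 k h]
      · rw [← map_mul, hv']
        simp only [map_add, map_sub, map_mul, tay_C]
    have e := U_log H (key m) (key n)
    rw [br_lg hlg hL hp, br_lg hlg hL hp, ← map_mul _ (v m), ← map_mul _ (v n),
      ← map_sub (tay p)] at e
    exact ⟨_, e⟩

/-- Reduction to the generators. -/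
theorem red {r A : Poly} {c : (Fin 2 →₀ ℕ) → Polynomial ℂ}
    (h : r = ∑ m ∈ mon (2 * d - 2), Polynomial.aeval (ff l) (c m) * monomial m 1
      + (pderiv 1 (ff l) * pderiv 0 A - pderiv 0 (ff l) * pderiv 1 A)) (p : Fin 2 → ℂ) :
    tay p r = ∑ b : GI d, Polynomial.aeval (tay p (ff l))
      (Sum.elim (fun m => c m.1) (fun _ => 0) b) * gen l p b + br dS (tay p (ff l)) (tay p A) := by
  rw [h, Fintype.sum_sum_type, br, dS_tay, dS_tay, dS_tay, dS_tay, ← Finset.sum_coe_sort]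
  simp [gen, Polynomial.aeval_algHom_apply]

end GmA

open GmA

theorem rowGm : OfGm := by
  intro hlg hsyl hgens d l hgeo hL F i
  let K : Type := F.k i
  let Λ : Subalgebra K ℂ := Algebra.adjoin (F.k i) {(l i).2.2}
  let _ : Algebra ℚ Λ := ((algebraMap K Λ).comp (algebraMap ℚ K)).toAlgebra
  let ι : Λ →+* ℂ := Λ.val.toRingHom
  have ha : ∀ m, (l m).1 ∈ F.k i := fun m => F.le i (F.dir0 m).1
  have hb : ∀ m, (l m).2.1 ∈ F.k i := fun m => F.le i (F.dir0 m).2
  have hu : ∀ m, (l m).2.2 ∈ Λ := fun m => by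
    by_cases h : m = i
    · rw [h]; exact Algebra.self_mem_adjoin_singleton _ _
    · exact Λ.algebraMap_mem (⟨_, F.mem i m h⟩ : K)
  have hd1 : 1 ≤ d := by have := hgeo.two; omega
  obtain ⟨hdeg, hS⟩ := hsyl K Λ d (fun m => ⟨_, ha m⟩) (fun m => ⟨_, hb m⟩) (fun m => ⟨_, hu m⟩)
    hd1 fun m n h h' => hgeo.gen.1 m n h (congrArg Subtype.val h')
  set fL : Pl Λ := ∏ m, (C (algebraMap K Λ ⟨_, ha m⟩) * X 0 + C (algebraMap K Λ ⟨_, hb m⟩) * X 1
    + C ⟨_, hu m⟩) with hfL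
  have hlin : ∀ m, MvPolynomial.map ι (C (algebraMap K Λ ⟨_, ha m⟩) * X 0
      + C (algebraMap K Λ ⟨_, hb m⟩) * X 1 + C ⟨_, hu m⟩) = lin (l m) := fun m => by
    simp only [map_add, map_mul, map_C, map_X, lin]
    rfl
  have hf : MvPolynomial.map ι fL = ff l := by
    rw [hfL, map_prod]
    exact Finset.prod_congr rfl fun m _ => hlin m
  have hae : ∀ c : Polynomial Λ, MvPolynomial.map ι (Polynomial.aeval fL c) =
      Polynomial.aeval (ff l) (c.map ι) := fun c => by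
    rw [← hf]
    exact Polynomial.map_aeval_eq_aeval_map (by ext a; simp) c fL
  obtain ⟨hred, q, Y0, Y1, hmon, hq⟩ := hgens Λ d fL hd1 hdeg hS
  have hq' : Polynomial.aeval (ff l) (q.map ι) = MvPolynomial.map ι Y0 * pderiv 0 (ff l)
      + MvPolynomial.map ι Y1 * pderiv 1 (ff l) := by
    rw [← hae, hq, ← hf, pderiv_map, pderiv_map, map_add, map_mul, map_mul]
  have h1 : ∀ m, F.δ i (l m).1 = 0 := fun m => F.dz i _ (ha m)
  have h2 : ∀ m, F.δ i (l m).2.1 = 0 := fun m => F.dz i _ (hb m)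
  have h3 : ∀ m, m ≠ i → F.δ i (l m).2.2 = 0 := fun m h => F.dz i _ (F.mem i m h)
  choose r hr hU using U_gen hlg hL (MvPolynomial.map ι : Pl Λ →+* Poly).range (F.δ i) i h1 h2 h3
    (F.du i) (q.map ι) _ _ hq' (fun m => ⟨_, hlin m⟩)
    (by rintro j _ ⟨r, rfl⟩; exact ⟨pderiv j r, pderiv_map.symm⟩) ⟨Y0, rfl⟩ ⟨Y1, rfl⟩
    ⟨Polynomial.aeval fL (Polynomial.derivative q), by rw [hae, Polynomial.derivative_map]⟩
    (fun m => ⟨monomial m 1, by simp⟩)
  choose rL hrL using hr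
  choose c A _ hc using fun a => hred _ (rL a) le_rfl
  have hc' : ∀ a, r a = ∑ m ∈ mon (2 * d - 2),
      Polynomial.aeval (ff l) ((c a m).map ι) * monomial m 1
      + (pderiv 1 (ff l) * pderiv 0 (MvPolynomial.map ι (A a))
        - pderiv 0 (ff l) * pderiv 1 (MvPolynomial.map ι (A a))) := fun a => by
    have e : ∀ j, pderiv j (ff l) = MvPolynomial.map ι (pderiv j fL) := fun j => by
      rw [← hf, pderiv_map]
    rw [← hrL a, hc a]
    simp only [map_add, map_sub, map_mul, map_sum, pderiv_map, map_monomial, map_one, hae, e]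
  refine ⟨q.map ι, fun a => Sum.elim (fun m => (c a m.1).map ι) fun _ => 0, hmon.map ι,
    fun n => ?_, fun a b n => ?_, fun p hp x x' hx hN => ?_⟩
  · rw [Polynomial.coeff_map]; exact (q.coeff n).2
  · rcases b with m | m
    · simp only [Sum.elim_inl, Polynomial.coeff_map]; exact ((c a m.1).coeff n).2
    · simp only [Sum.elim_inr, Polynomial.coeff_zero]; exact zero_mem _
  · refine stab (ctx (F.δ i) i h1 h2 h3 (F.du i) (q.map ι) _ _ hq' p) (gen l p) _ _
      (Polynomial.aeval_algHom_apply _ _ _) (fun a => ?_) x x' hx hN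
    obtain ⟨B, hB⟩ := hU a p hp
    exact ⟨tay p (MvPolynomial.map ι (A a)) + B, by
      rw [hB, red (hc' a) p, br_add, add_assoc]⟩

end Pool.Agent.MP_aa1ef7_ag.H20
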