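import Pool.Agent.MP_aa1ef7_ag.H20.Spec

/-! The Gauss-Manin operator in an abstract differential ring. -/

namespace Pool.Agent.MP_aa1ef7_ag.H20

namespace GmA

variable {S : Type} [CommRing S] [Algebra ℂ S]

/-- The data of a horizontal derivation `h`. -/
structure Ctx (D : Fin 2 → Derivation ℂ S S) (h : S →+ S) (δ : ℂ → ℂ) (φ g Q Q' Y0 Y1 : S) :
    Prop where
  comm : ∀ A, D 0 (D 1 A) = D 1 (D 0 A)
  mul : ∀ a b, h (a * b) = a * h b + b * h a
  cD : ∀ i A, h (D i A) = D i (h A)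
  alg : ∀ a, h (algebraMap ℂ S a) = algebraMap ℂ S (δ a)
  hφ : h φ = g
  hQ : Q = Y0 * D 0 φ + Y1 * D 1 φ
  hQ' : ∀ i, D i Q = Q' * D i φ

/-- The derivation that kills `φ`. -/
def VV (D : Fin 2 → Derivation ℂ S S) (h : S →+ S) (g Q Y0 Y1 : S) : S →+ S where
  toFun A := Q * h A - g * (Y0 * D 0 A + Y1 * D 1 A)
  map_zero' := by simp
  map_add' a b := by simp only [map_add]; ring

/-- The operator on densities. -/
def UU (D : Fin 2 → Derivation ℂ S S) (h : S →+ S) (g Q Q' Y0 Y1 : S) : S →+ S where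
  toFun b := VV D h g Q Y0 Y1 b + (Q' * g - D 0 (g * Y0) - D 1 (g * Y1)) * b
  map_zero' := by simp
  map_add' a b := by simp only [map_add]; ring

theorem VV_apply (D : Fin 2 → Derivation ℂ S S) (h : S →+ S) (g Q Y0 Y1 A : S) :
    VV D h g Q Y0 Y1 A = Q * h A - g * (Y0 * D 0 A + Y1 * D 1 A) := rfl

theorem UU_apply (D : Fin 2 → Derivation ℂ S S) (h : S →+ S) (g Q Q' Y0 Y1 b : S) :
    UU D h g Q Q' Y0 Y1 b =
      VV D h g Q Y0 Y1 b + (Q' * g - D 0 (g * Y0) - D 1 (g * Y1)) * b := rfl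

variable {D : Fin 2 → Derivation ℂ S S} {h : S →+ S} {δ : ℂ → ℂ} {φ g Q Q' Y0 Y1 : S}

omit [Algebra ℂ S] in
theorem h_one (hm : ∀ a b, h (a * b) = a * h b + b * h a) : h 1 = 0 := by
  have := hm 1 1
  simp only [mul_one, one_mul] at this
  linear_combination -this

/-- The elements killed by an additive map with the Leibniz rule. -/
def kerR (h : S →+ S) (hm : ∀ a b, h (a * b) = a * h b + b * h a) : Subring S where
  carrier := {A | h A = 0}
  mul_mem' {a b} ha hb := by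
    change h (a * b) = 0
    rw [hm, show h a = 0 from ha, show h b = 0 from hb]; simp
  one_mem' := h_one hm
  add_mem' {a b} ha hb := by
    change h (a + b) = 0
    rw [map_add, show h a = 0 from ha, show h b = 0 from hb]; simp
  zero_mem' := map_zero h
  neg_mem' {a} ha := by
    change h (-a) = 0
    rw [map_neg, show h a = 0 from ha]; simp

theorem V_mul (H : Ctx D h δ φ g Q Q' Y0 Y1) (a b : S) :
    VV D h g Q Y0 Y1 (a * b) = a * VV D h g Q Y0 Y1 b + b * VV D h g Q Y0 Y1 a := by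
  simp only [VV_apply, H.mul, Derivation.leibniz, smul_eq_mul]; ring

theorem U_mul (H : Ctx D h δ φ g Q Q' Y0 Y1) (a b : S) :
    UU D h g Q Q' Y0 Y1 (a * b) = VV D h g Q Y0 Y1 a * b + a * UU D h g Q Q' Y0 Y1 b := by
  simp only [UU_apply, V_mul H]; ring

theorem V_phi (H : Ctx D h δ φ g Q Q' Y0 Y1) : VV D h g Q Y0 Y1 φ = 0 := by
  rw [VV_apply, H.hφ, ← H.hQ]; ring

theorem V_alg (H : Ctx D h δ φ g Q Q' Y0 Y1) (a : ℂ) :
    VV D h g Q Y0 Y1 (algebraMap ℂ S a) = Q * algebraMap ℂ S (δ a) := by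
  simp [VV_apply, H.alg]

theorem V_aeval (H : Ctx D h δ φ g Q Q' Y0 Y1) (c c' : Polynomial ℂ)
    (hc : ∀ n, c'.coeff n = δ (c.coeff n)) :
    VV D h g Q Y0 Y1 (Polynomial.aeval φ c) = Q * Polynomial.aeval φ c' := by
  have h1 : c.natDegree < c.natDegree + c'.natDegree + 1 := by omega
  have h2 : c'.natDegree < c.natDegree + c'.natDegree + 1 := by omega
  rw [Polynomial.aeval_eq_sum_range' h1, Polynomial.aeval_eq_sum_range' h2, map_sum,
    Finset.mul_sum]
  refine Finset.sum_congr rfl fun n _ => ?_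
  have hp : VV D h g Q Y0 Y1 (φ ^ n) = 0 :=
    (kerR _ (V_mul H)).pow_mem (V_phi H) n
  rw [Algebra.smul_def, Algebra.smul_def, V_mul H, hp, V_alg H, hc]; ring

theorem U_br (H : Ctx D h δ φ g Q Q' Y0 Y1) (A : S) :
    UU D h g Q Q' Y0 Y1 (br D φ A) = br D φ (VV D h g Q Y0 Y1 A) := by
  have e0 := H.hQ' 0
  have e1 := H.hQ' 1
  have f0 := congrArg (D 0) H.hQ
  have f1 := congrArg (D 1) H.hQ
  have q := H.hQ
  simp only [map_add, Derivation.leibniz, smul_eq_mul, H.comm] at f0 f1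
  simp only [UU_apply, VV_apply, br, map_add, map_sub, H.mul, H.cD, H.hφ, Derivation.leibniz,
    smul_eq_mul, H.comm, e0, e1]
  rw [e0] at f0
  rw [e1] at f1
  linear_combination (D 1 g * D 0 A - D 0 g * D 1 A) * q + g * D 0 A * f1 - g * D 1 A * f0

theorem br_V_log (H : Ctx D h δ φ g Q Q' Y0 Y1) {L lg v e : S} {a : Fin 2 → S} (hL : IsUnit L)
    (hlg : ∀ j, L * D j lg = a j) (hD : ∀ j, D j L = a j) (ha : ∀ j, h (a j) = 0)
    (he : h L = e) (he' : ∀ j, D j e = 0)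
    (hv : L * v = Q * e - g * (Y0 * a 0 + Y1 * a 1)) :
    br D φ (VV D h g Q Y0 Y1 lg - v) = 0 := by
  obtain ⟨M, hM⟩ := hL.exists_right_inv
  have k1 : VV D h g Q Y0 Y1 lg - v = Q * (h lg - e * M) := by
    rw [VV_apply]
    linear_combination (v + g * (Y0 * D 0 lg + Y1 * D 1 lg)) * hM - M * hv
      - M * g * Y0 * hlg 0 - M * g * Y1 * hlg 1
  have k2 : ∀ j, D j (h lg - e * M) = 0 := by
    intro j
    have t1 := congrArg h (hlg j)
    have t2 := congrArg (D j) hM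
    rw [H.mul, ha, he, H.cD] at t1
    rw [Derivation.leibniz, hD, Derivation.map_one_eq_zero, smul_eq_mul, smul_eq_mul] at t2
    rw [map_sub, Derivation.leibniz, he', smul_eq_mul, smul_eq_mul]
    linear_combination M * t1 - e * M * t2 - e * M ^ 2 * hlg j
      - (D j (h lg) - e * D j M - e * M * D j lg) * hM
  rw [k1, br_mul]
  simp only [br, k2, H.hQ']; ring

theorem U_log (H : Ctx D h δ φ g Q Q' Y0 Y1) {a b v w : S}
    (ha : br D φ (VV D h g Q Y0 Y1 a - v) = 0) (hb : br D φ (VV D h g Q Y0 Y1 b - w) = 0) :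
    UU D h g Q Q' Y0 Y1 (a * br D φ b) = (v * br D φ b - w * br D φ a) +
      br D φ (a * w + (VV D h g Q Y0 Y1 a - v) * b) := by
  rw [U_mul H, U_br H, br_add, br_mul, br_mul, ha]
  rw [br_sub] at hb
  linear_combination a * hb

theorem stab (H : Ctx D h δ φ g Q Q' Y0 Y1) {ι : Type} [Fintype ι] (gen : ι → S)
    (q : Polynomial ℂ) (Θ : ι → ι → Polynomial ℂ) (hq : Polynomial.aeval φ q = Q)
    (hΘ : ∀ a, ∃ B, UU D h g Q Q' Y0 Y1 (gen a) =
      ∑ b, Polynomial.aeval φ (Θ a b) * gen b + br D φ B)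
    (c c' : ι → Polynomial ℂ) (hc : ∀ a n, (c' a).coeff n = δ ((c a).coeff n))
    (hA : ∃ A, br D φ A = ∑ a, Polynomial.aeval φ (c a) * gen a) :
    ∃ A, br D φ A = ∑ b, Polynomial.aeval φ (q * c' b + ∑ a, c a * Θ a b) * gen b := by
  obtain ⟨A, hA⟩ := hA
  choose B hB using hΘ
  refine ⟨VV D h g Q Y0 Y1 A - ∑ a, Polynomial.aeval φ (c a) * B a, ?_⟩
  rw [br_sub, ← U_br H, hA, map_sum, br_sum, ← Finset.sum_sub_distrib]
  simp only [map_add, map_mul, map_sum, add_mul, Finset.sum_add_distrib, Finset.sum_mul, hq]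
  rw [Finset.sum_comm, ← Finset.sum_add_distrib]
  refine Finset.sum_congr rfl fun a _ => ?_
  rw [U_mul H, V_aeval H _ _ (hc a), hB, br_aeval_mul, mul_add, Finset.mul_sum]
  simp only [mul_assoc]; ring

end GmA

end Pool.Agent.MP_aa1ef7_ag.H20
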