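import Pool.Agent.MP_aa1ef7_ag.H20.Spec

/-! The graded facts for a traceless diagonalisable linear field. -/

namespace Pool.Agent.MP_aa1ef7_ag.H20

open MvPolynomial

namespace GradA

variable {K : Type} [CommRing K]

theorem coeff_eul (i : Fin 2) (A : Pl K) (m : Fin 2 →₀ ℕ) :
    coeff m (X i * pderiv i A) = (m i : K) * coeff m A := by
  classical
  induction A using MvPolynomial.induction_on' with
  | monomial u r =>
    rw [X_mul_pderiv_monomial, coeff_smul, coeff_monomial]
    split_ifs with h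
    · subst h; simp
    · simp
  | add p q hp hq => rw [map_add, mul_add, coeff_add, hp, hq, coeff_add, mul_add]

/-- The diagonal field. -/
noncomputable def L0 (lam : K) (A : Pl K) : Pl K :=
  C lam * (X 0 * pderiv 0 A - X 1 * pderiv 1 A)

theorem coeff_L0 (lam : K) (A : Pl K) (m : Fin 2 →₀ ℕ) :
    coeff m (L0 lam A) = lam * ((m 0 : K) - m 1) * coeff m A := by
  rw [L0, coeff_C_mul, coeff_sub, coeff_eul, coeff_eul]; ring

/-- The diagonal exponent. -/
noncomputable def dg (k : ℕ) : Fin 2 →₀ ℕ := Finsupp.single 0 k + Finsupp.single 1 k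

theorem dg0 (k : ℕ) : dg k 0 = k := by simp [dg]

theorem dg1 (k : ℕ) : dg k 1 = k := by simp [dg]

theorem eq_dg {m : Fin 2 →₀ ℕ} {k : ℕ} : m = dg k ↔ m 0 = k ∧ m 1 = k := by
  constructor
  · rintro rfl; exact ⟨dg0 k, dg1 k⟩
  · rintro ⟨h0, h1⟩
    ext i
    fin_cases i
    · simpa [dg0] using h0
    · simpa [dg1] using h1

theorem q0_pow (ρ : K) (k : ℕ) : (C ρ * (X 0 * X 1) ^ k : Pl K) = monomial (dg k) ρ := by
  rw [mul_pow, X_pow_eq_monomial, X_pow_eq_monomial, monomial_mul, C_mul_monomial, dg]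
  simp

theorem unit_diff [Algebra ℚ K] {i j : ℕ} (h : i ≠ j) : IsUnit ((i : K) - j) := by
  have h1 : ((i : K) - j) = algebraMap ℚ K ((i : ℚ) - j) := by simp
  rw [h1]
  refine IsUnit.map _ (IsUnit.mk0 _ ?_)
  rw [sub_ne_zero]
  exact_mod_cast h

theorem deg_of_hom {n : ℕ} {G : Pl K} (hG : G.IsHomogeneous n) {m : Fin 2 →₀ ℕ}
    (hm : coeff m G ≠ 0) : m 0 + m 1 = n := by
  have := hG hm
  rw [← this, Finsupp.weight_apply, Finsupp.sum_fintype _ _ (by simp), Fin.sum_univ_two]
  simp

theorem hom_of_deg {n : ℕ} {G : Pl K} (h : ∀ m : Fin 2 →₀ ℕ, coeff m G ≠ 0 → m 0 + m 1 = n) :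
    G.IsHomogeneous n := by
  intro m hm
  rw [← h m hm, Finsupp.weight_apply, Finsupp.sum_fintype _ _ (by simp), Fin.sum_univ_two]
  simp

theorem one0 [Algebra ℚ K] {lam : K} (hl : IsUnit lam) {n : ℕ} {G : Pl K}
    (hG : G.IsHomogeneous n) : ∃ (A : Pl K) (ρ : K), A.IsHomogeneous n ∧ (Odd n → ρ = 0) ∧
      G = L0 lam A + C ρ * (X 0 * X 1) ^ (n / 2) := by
  classical
  let u : (Fin 2 →₀ ℕ) → K := fun m => Ring.inverse (lam * ((m 0 : K) - m 1))
  let A : Pl K := ∑ m ∈ G.support, monomial m (if m 0 = m 1 then 0 else u m * coeff m G)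
  have hA : ∀ m, coeff m A = if m 0 = m 1 then 0 else u m * coeff m G := by
    intro m
    simp only [A, coeff_sum, coeff_monomial, Finset.sum_ite_eq', mem_support_iff]
    split_ifs with h1 h2
    · rfl
    · rfl
    · rfl
    · rw [not_not.1 h1, mul_zero]
  refine ⟨A, coeff (dg (n / 2)) G, hom_of_deg fun m hm => deg_of_hom hG fun h0 => hm ?_,
    fun hn => ?_, ?_⟩
  · rw [hA, h0]; simp
  · by_contra h
    have := deg_of_hom hG h
    rw [dg0, dg1] at this
    obtain ⟨k, hk⟩ := hn
    omega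
  · ext m
    rw [coeff_add, coeff_L0, hA, q0_pow, coeff_monomial]
    by_cases h : m 0 = m 1
    · rw [if_pos h, mul_zero, zero_add]
      split_ifs with h2
      · rw [h2]
      · by_contra h3
        have := deg_of_hom hG h3
        exact h2 (eq_dg.2 ⟨by omega, by omega⟩).symm
    · rw [if_neg h, if_neg, add_zero, ← mul_assoc, Ring.mul_inverse_cancel _
        (hl.mul (unit_diff h)), one_mul]
      intro h2
      have := eq_dg.1 h2.symm
      omega

theorem two0 [Algebra ℚ K] {lam : K} (hl : IsUnit lam) {n : ℕ} {A : Pl K}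
    (hA : A.IsHomogeneous n) (h0 : L0 lam A = 0) :
    ∃ ρ : K, (Odd n → ρ = 0) ∧ A = C ρ * (X 0 * X 1) ^ (n / 2) := by
  classical
  refine ⟨coeff (dg (n / 2)) A, fun hn => ?_, ?_⟩
  · by_contra h
    have := deg_of_hom hA h
    rw [dg0, dg1] at this
    obtain ⟨k, hk⟩ := hn
    omega
  · ext m
    rw [q0_pow, coeff_monomial]
    split_ifs with h2
    · rw [h2]
    · by_contra h3
      have hd := deg_of_hom hA h3
      have hne : m 0 ≠ m 1 := fun h => h2 (eq_dg.2 ⟨by omega, by omega⟩).symm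
      have := coeff_L0 lam A m
      rw [h0, coeff_zero] at this
      exact h3 (((hl.mul (unit_diff hne)).mul_right_eq_zero).1 this.symm)

theorem three0 {lam : K} {A : Pl K} {ρ : K} {k : ℕ} (h : L0 lam A = C ρ * (X 0 * X 1) ^ k) :
    ρ = 0 := by
  classical
  have := coeff_L0 lam A (dg k)
  rw [h, q0_pow, coeff_monomial, if_pos rfl, dg0, dg1] at this
  rw [this]; ring

/-- A linear substitution. -/
noncomputable def sub (p q r s : K) : Pl K →ₐ[K] Pl K :=
  aeval ![C p * X 0 + C q * X 1, C r * X 0 + C s * X 1]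

theorem sub0 (p q r s : K) : sub p q r s (X 0) = C p * X 0 + C q * X 1 := by simp [sub]

theorem sub1 (p q r s : K) : sub p q r s (X 1) = C r * X 0 + C s * X 1 := by simp [sub]

theorem subC (p q r s a : K) : sub p q r s (C a) = C a := by simp [sub]

theorem sub_hom (p q r s : K) {n : ℕ} {A : Pl K} (hA : A.IsHomogeneous n) :
    (sub p q r s A).IsHomogeneous n := by
  have := hA.aeval (n := 1) (![C p * X 0 + C q * X 1, C r * X 0 + C s * X 1] : Fin 2 → Pl K)
    (fun i => by
    fin_cases i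
    · exact (isHomogeneous_C_mul_X p 0).add (isHomogeneous_C_mul_X q 1)
    · exact (isHomogeneous_C_mul_X r 0).add (isHomogeneous_C_mul_X s 1))
  rw [one_mul] at this
  exact this

theorem sub_sub {p q r s p' q' r' s' : K} (h1 : p' * p + q' * r = 1) (h2 : p' * q + q' * s = 0)
    (h3 : r' * p + s' * r = 0) (h4 : r' * q + s' * s = 1) (A : Pl K) :
    sub p q r s (sub p' q' r' s' A) = A := by
  have : (sub p q r s).comp (sub p' q' r' s') = AlgHom.id K _ := by
    refine MvPolynomial.algHom_ext fun i => ?_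
    fin_cases i
    · simp only [Fin.zero_eta, AlgHom.comp_apply, sub0, map_add, map_mul, subC, sub1,
        AlgHom.id_apply]
      have e1 := congrArg (C : K → Pl K) h1
      have e2 := congrArg (C : K → Pl K) h2
      simp only [map_add, map_mul, map_one, map_zero] at e1 e2
      linear_combination X 0 * e1 + X 1 * e2
    · simp only [Fin.mk_one, AlgHom.comp_apply, sub0, map_add, map_mul, subC, sub1,
        AlgHom.id_apply]
      have e1 := congrArg (C : K → Pl K) h3
      have e2 := congrArg (C : K → Pl K) h4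
      simp only [map_add, map_mul, map_one, map_zero] at e1 e2
      linear_combination X 0 * e1 + X 1 * e2
  exact congrArg (fun f : Pl K →ₐ[K] Pl K => f A) this

end GradA

open GradA in
theorem rowGrad : GradS := by
  intro K _ _ a b c lam s t hl hlam he n L q hL hq
  set e := b * s ^ 2 - 2 * a * s * t - c * t ^ 2 with he0
  have h2 : IsUnit (2 : K) := by
    have := unit_diff (K := K) (i := 2) (j := 0) (by norm_num)
    simpa using this
  obtain ⟨δ, hδ⟩ := ((h2.mul hl).mul he).exists_right_inv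
  obtain ⟨ε, hε⟩ := he.exists_right_inv
  set zx := s * a + t * c + lam * s with hzx
  set zy := s * b - t * a + lam * t with hzy
  set wx := s * a + t * c - lam * s with hwx
  set wy := s * b - t * a - lam * t with hwy
  have hdet : (zx * wy - zy * wx) * δ = 1 := by
    rw [← hδ, hzx, hzy, hwx, hwy, he0]; ring
  let Ψ := sub zx zy wx wy
  let Φ := sub (δ * wy) (-(δ * zy)) (-(δ * wx)) (δ * zx)
  have hΨΦ : ∀ A, Ψ (Φ A) = A := sub_sub (by linear_combination hdet) (by ring) (by ring)
    (by linear_combination hdet)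
  have hΦΨ : ∀ A, Φ (Ψ A) = A := sub_sub (by linear_combination hdet) (by ring) (by ring)
    (by linear_combination hdet)
  have hlamC := congrArg (C : K → Pl K) hlam
  simp only [map_add, map_mul, map_pow] at hlamC
  have hconj : ∀ A, L (Ψ A) = Ψ (L0 lam A) := by
    intro A
    refine leib_ext Ψ.toRingHom (fun A => L (Ψ A)) (fun A => Ψ (L0 lam A)) (fun A B => ?_)
      (fun A B => ?_) (fun A B => ?_) (fun A B => ?_) (fun r => ?_) (fun m => ?_) A
    · simp only [hL, map_add]; ring
    · simp only [L0, map_add, map_mul, map_sub]; ring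
    · simp only [hL, map_mul, Derivation.leibniz, smul_eq_mul, AlgHom.toRingHom_eq_coe,
        RingHom.coe_coe]; ring
    · simp only [L0, map_mul, map_sub, map_add, Derivation.leibniz, smul_eq_mul,
        AlgHom.toRingHom_eq_coe, RingHom.coe_coe]; ring
    · simp [hL, L0, Ψ]
    · fin_cases m
      · simp only [Fin.zero_eta, hL, L0, Ψ, sub0, subC, map_add, map_mul, map_sub,
          Derivation.leibniz, smul_eq_mul, derivation_C, pderiv_X, hzx, hzy]
        simp
        linear_combination (-(C s * X 0) - C t * X 1) * hlamC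
      · simp only [Fin.mk_one, hL, L0, Ψ, sub0, sub1, subC, map_add, map_mul, map_sub,
          Derivation.leibniz, smul_eq_mul, derivation_C, pderiv_X, hwx, hwy]
        simp
        linear_combination (-(C s * X 0) - C t * X 1) * hlamC
  have hzw : Ψ (X 0 * X 1) = C (-e) * q := by
    simp only [Ψ, map_mul, sub0, sub1, hq, he0, hzx, hzy, hwx, hwy, map_add, map_sub, map_neg,
      map_pow, map_ofNat]
    linear_combination (-(C s * X 0 + C t * X 1) ^ 2) * hlamC
  have hpow : ∀ (ρ : K) (k : ℕ), Ψ (C ρ * (X 0 * X 1) ^ k) = C (ρ * (-e) ^ k) * q ^ k := by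
    intro ρ k
    rw [map_mul, map_pow, hzw, subC, mul_pow, map_mul, map_pow, mul_assoc]
  refine ⟨fun G hG => ?_, fun A hA h0 => ?_, fun A ρ k h => ?_⟩
  · obtain ⟨A, ρ, hA, hρ, hG'⟩ := one0 hl (sub_hom (δ * wy) (-(δ * zy)) (-(δ * wx)) (δ * zx) hG)
    refine ⟨Ψ A, ρ * (-e) ^ (n / 2), sub_hom _ _ _ _ hA, fun hn => by rw [hρ hn, zero_mul], ?_⟩
    rw [hconj, ← hpow, ← map_add, ← hG']
    exact (hΨΦ G).symm
  · have h1 : L0 lam (Φ A) = 0 := by
      rw [← hΦΨ (L0 lam (Φ A)), ← hconj, hΨΦ, h0, map_zero]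
    obtain ⟨ρ, hρ, hA'⟩ := two0 hl (sub_hom (δ * wy) (-(δ * zy)) (-(δ * wx)) (δ * zx) hA) h1
    refine ⟨ρ * (-e) ^ (n / 2), fun hn => by rw [hρ hn, zero_mul], ?_⟩
    rw [← hpow, ← hA']
    exact (hΨΦ A).symm
  · have hk : (-ε) ^ k * (-e) ^ k = 1 := by
      rw [← mul_pow, neg_mul_neg, mul_comm, hε, one_pow]
    have h1 : L0 lam (Φ A) = C (ρ * (-ε) ^ k) * (X 0 * X 1) ^ k := by
      rw [← hΦΨ (L0 lam (Φ A)), ← hconj, hΨΦ, h, ← hΦΨ (C (ρ * (-ε) ^ k) * (X 0 * X 1) ^ k),
        hpow, mul_assoc, hk, mul_one]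
    have h3 := three0 h1
    rw [← mul_one ρ, ← hk, ← mul_assoc, h3, zero_mul]

end Pool.Agent.MP_aa1ef7_ag.H20
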