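import Pool.Agent.MP_aa1ef7_ag.H20.Spec

/-! Row Ham: the Hamiltonian case and the dichotomy for the inverse integrating factor. -/

namespace Pool.Agent.MP_aa1ef7_ag.H20

open MvPolynomial
open Pool.Agent.MP_aa1ef7_ag.H40

namespace HamA

variable {d : ℕ} {l : Fin (d + 1) → ℂ × ℂ × ℂ}

theorem cc_cd {S : Type} [CommRing S] [Algebra ℂ S] (δ : Derivation ℂ S S) (H : PowerSeries S) :
    PowerSeries.constantCoeff (cd δ H) = δ (PowerSeries.constantCoeff H) := by
  rw [← PowerSeries.coeff_zero_eq_constantCoeff_apply, coeff_cd,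
    PowerSeries.coeff_zero_eq_constantCoeff_apply]

theorem cc_map' {S T : Type} [CommRing S] [CommRing T] (j : S →+* T) (H : PowerSeries S) :
    PowerSeries.constantCoeff (PowerSeries.map j H) = j (PowerSeries.constantCoeff H) := by
  rw [← PowerSeries.coeff_zero_eq_constantCoeff_apply, PowerSeries.coeff_map,
    PowerSeries.coeff_zero_eq_constantCoeff_apply]

theorem cd_map (i : Fin 2) (H : PowerSeries Poly) :
    cd (dB l i) (PowerSeries.map (cB l) H) = PowerSeries.map (cB l) (cd (dP i) H) := by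
  refine PowerSeries.ext fun k => ?_
  rw [coeff_cd, PowerSeries.coeff_map, PowerSeries.coeff_map, coeff_cd, dB_cB]
  rfl

theorem vf_map (P Q H : PowerSeries Poly) :
    vf (dB l) (PowerSeries.map (cB l) P) (PowerSeries.map (cB l) Q) (PowerSeries.map (cB l) H) =
      PowerSeries.map (cB l) (vf dP P Q H) := by
  simp only [vf, cd_map, map_add, map_mul]

theorem map_inj (hb : Bas l) {F G : PowerSeries Poly}
    (h : PowerSeries.map (cB l) F = PowerSeries.map (cB l) G) : F = G := by
  refine PowerSeries.ext fun k => hb.cinj ?_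
  rw [← PowerSeries.coeff_map, h, PowerSeries.coeff_map]

theorem amb (hb : Bas l) {P Q : PowerSeries Poly} (hD : Def l P Q) :
    Amb (dB l) (cB l (ff l)) (PowerSeries.map (cB l) P) (PowerSeries.map (cB l) Q) where
  comm := hb.comm
  P0 := by rw [cc_map', hD.P0, dB_cB]
  Q0 := by rw [cc_map', hD.Q0, dB_cB, map_neg]

theorem ham1 (hR : RecS) (hG : GdivS) (a : All l) {P Q : PowerSeries Poly} (hD : Def l P Q)
    (hs : ∃ h, Sol l P Q (SI l Finset.univ) h) : Ham d P Q := by
  obtain ⟨h, h1, h2, h3⟩ := hR (BB l) (dB l) (cB l (ff l)) _ _ (SI l Finset.univ) (RH l (d + 1))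
    (RH l (2 * d)) (amb a.bas hD) (a.dv.si _) hs ⟨ff l, deg_ff_le l, rfl⟩
    (by
      rintro v ⟨r, -, rfl⟩ i -
      exact a.bas.Lc i r)
    (by
      rintro k v ⟨r, hr, rfl⟩
      refine ⟨PowerSeries.coeff k P * pderiv 0 r + PowerSeries.coeff k Q * pderiv 1 r, ?_, ?_⟩
      · refine (totalDegree_add _ _).trans (max_le ?_ ?_)
        · have := hD.degP k
          have := deg_pderiv_le hr 0
          exact (totalDegree_mul _ _).trans (by omega)
        · have := hD.degQ k
          have := deg_pderiv_le hr 1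
          exact (totalDegree_mul _ _).trans (by omega)
      · rw [PowerSeries.coeff_map, PowerSeries.coeff_map, dB_cB, dB_cB, map_add, map_mul, map_mul])
    a.tf.tfh
  obtain ⟨g, g1, -, g2, g3⟩ := hG (BB l) (dB l) (cB l (ff l)) _ _ (RH l 0) (RH l d) h
    (amb a.bas hD) a.dv.top h2 h3
    (fun k => ⟨⟨_, hD.degP k, PowerSeries.coeff_map _ _ _⟩,
      ⟨_, hD.degQ k, PowerSeries.coeff_map _ _ _⟩⟩)
    (fun c h0 h1 => a.dv.rhdiv c (by rwa [dB_cB] at h0) (by rwa [dB_cB] at h1))
    (by
      rintro u ⟨r, hr, rfl⟩ k i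
      obtain ⟨s, hs, e⟩ := h1 k
      refine ⟨r * pderiv i s, ?_, by rw [e, dB_cB, map_mul]⟩
      have := deg_pderiv_le hs i
      exact (totalDegree_mul _ _).trans (by omega))
  choose r hr er using h1
  choose s hs es using g1
  have eh : h = PowerSeries.map (cB l) (PowerSeries.mk r) := by
    refine PowerSeries.ext fun k => ?_
    rw [PowerSeries.coeff_map, PowerSeries.coeff_mk, er]
  have eg : g = PowerSeries.map (cB l) (PowerSeries.map (C : ℂ →+* Poly)
      (PowerSeries.mk fun k => coeff 0 (s k))) := by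
    refine PowerSeries.ext fun k => ?_
    rw [PowerSeries.coeff_map, PowerSeries.coeff_map, PowerSeries.coeff_mk, es,
      ← totalDegree_eq_zero_iff_eq_C.1 (Nat.le_zero.1 (hs k))]
  refine ⟨PowerSeries.mk fun k => coeff 0 (s k), PowerSeries.mk r, fun k => ?_,
    map_inj a.bas ?_, map_inj a.bas ?_⟩
  · rw [PowerSeries.coeff_mk]; exact hr k
  · rw [g2, map_mul, ← cd_map, ← eh, ← eg]
  · rw [g3, map_neg, map_mul, ← cd_map, ← eh, ← eg]

theorem ham2 (hP : PoincS) (hR : RecS) (hG : GdivS) (a : All l) {P Q : PowerSeries Poly}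
    (hD : Def l P Q) (F : PowerSeries Poly) (β : ℂ) (hβ : β ≠ 0)
    (h0 : PowerSeries.constantCoeff F = C β)
    (hv : vf dP P Q F = F * (cd (dP 0) P + cd (dP 1) Q)) : Ham d P Q := by
  have hu : IsUnit F := by
    rw [PowerSeries.isUnit_iff_constantCoeff, h0]
    exact (Ne.isUnit hβ).map C
  obtain ⟨u, hu⟩ := hu.exists_left_inv
  have h1 : ∀ i, F * cd (dP i) u = -(u * cd (dP i) F) := by
    intro i
    have e := cd_mul (dP i) u F
    rw [hu, ← map_one (PowerSeries.C (R := Poly)), cd_C, Derivation.map_one_eq_zero,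
      map_zero] at e
    linear_combination -e
  have h2 : cd (dP 0) (u * P) + cd (dP 1) (u * Q) = 0 := by
    rw [cd_mul, cd_mul]
    simp only [vf] at hv
    linear_combination u * P * h1 0 + u * Q * h1 1 - u * u * hv
      - (P * cd (dP 0) u + Q * cd (dP 1) u + u * (cd (dP 0) P + cd (dP 1) Q)) * hu
  have u0 : C β * PowerSeries.constantCoeff u = 1 := by
    have e := congrArg PowerSeries.constantCoeff hu
    rw [map_mul, h0, map_one] at e
    rw [mul_comm, e]
  let w : Fin 2 → PowerSeries Poly :=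
    ![-(PowerSeries.C (C β) * (u * Q)), PowerSeries.C (C β) * (u * P)]
  have hw : ∀ k, ∃ A : Poly, ∀ m, pderiv m A = PowerSeries.coeff k (w m) := by
    intro k
    have e : pderiv 0 (PowerSeries.coeff k (w 1)) = pderiv 1 (PowerSeries.coeff k (w 0)) := by
      have e2 := congrArg (PowerSeries.coeff k) h2
      rw [map_add, coeff_cd, coeff_cd, map_zero] at e2
      change pderiv 0 _ + pderiv 1 _ = 0 at e2
      change pderiv 0 (PowerSeries.coeff k (PowerSeries.C (C β) * (u * P))) =
        pderiv 1 (PowerSeries.coeff k (-(PowerSeries.C (C β) * (u * Q))))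
      rw [map_neg, map_neg, PowerSeries.coeff_C_mul, PowerSeries.coeff_C_mul, pderiv_C_mul,
        pderiv_C_mul]
      linear_combination C β * e2
    refine (hP ℂ (Fin 2)).1 (fun m => PowerSeries.coeff k (w m)) fun m n => ?_
    fin_cases m <;> fin_cases n
    · rfl
    · exact e.symm
    · exact e
    · rfl
  choose A hA using hw
  let H : PowerSeries Poly := PowerSeries.mk fun k => if k = 0 then ff l else A k
  have hH : ∀ m, cd (dP m) H = w m := by
    intro m
    refine PowerSeries.ext fun k => ?_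
    rw [coeff_cd, PowerSeries.coeff_mk]
    split_ifs with hk
    · subst hk
      rw [PowerSeries.coeff_zero_eq_constantCoeff_apply]
      fin_cases m
      · change pderiv 0 (ff l) = PowerSeries.constantCoeff (-(PowerSeries.C (C β) * (u * Q)))
        rw [map_neg, map_mul, map_mul, PowerSeries.constantCoeff_C, hD.Q0, ← mul_assoc, u0]
        ring
      · change pderiv 1 (ff l) = PowerSeries.constantCoeff (PowerSeries.C (C β) * (u * P))
        rw [map_mul, map_mul, PowerSeries.constantCoeff_C, hD.P0, ← mul_assoc, u0, one_mul]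
    · exact hA k m
  refine ham1 hR hG a hD ⟨PowerSeries.map (cB l) H, fun k i _ => ?_, ?_, ?_⟩
  · rw [PowerSeries.coeff_map]; exact a.bas.Lc i _
  · rw [cc_map', ← PowerSeries.coeff_zero_eq_constantCoeff_apply, PowerSeries.coeff_mk, if_pos rfl]
  · rw [vf_map, vf, hH, hH]
    change PowerSeries.map (cB l) (P * -(PowerSeries.C (C β) * (u * Q)) +
      Q * (PowerSeries.C (C β) * (u * P))) = 0
    rw [show P * -(PowerSeries.C (C β) * (u * Q)) + Q * (PowerSeries.C (C β) * (u * P)) = 0 by
      ring, map_zero]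

theorem bthm (hW : WronS) (hH : HamS) (hC : ChartS) : BthmS := by
  intro d l a P Q hD hs
  by_cases hl : ∃ h, Sol l P Q (SI l Finset.univ) h
  · exact Or.inl ((hH d l a P Q hD).1 hl)
  obtain ⟨hi, ⟨F, F1, F2, F3, F4⟩, hw⟩ := hC d l a P Q hD hs hl
  have hF : ∀ k, ∃ r, PowerSeries.coeff k F = cB l r := by
    intro k
    refine a.dv.riall _ fun i => ?_
    obtain ⟨G, G1, G2, G3, G4⟩ := hi i
    obtain ⟨c, hc⟩ := hW d l a.bas F G F2 G2 G3
      (hw F G ⟨fun _ => trivial, F2, F3, F4⟩ ⟨fun _ => trivial, G2, G3, G4⟩)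
    rw [hc, PowerSeries.coeff_mul]
    refine sum_mem fun x _ => mul_mem ?_ (G1 _)
    rw [PowerSeries.coeff_map]
    exact algebraMap_mem _ _
  choose r er using hF
  have eF : F = PowerSeries.map (cB l) (PowerSeries.mk r) := by
    refine PowerSeries.ext fun k => ?_
    rw [PowerSeries.coeff_map, PowerSeries.coeff_mk, er]
  have hdeg : ∀ k, (PowerSeries.coeff k (PowerSeries.mk r)).totalDegree ≤ d + 1 := by
    intro k
    rw [PowerSeries.coeff_mk]
    exact a.dv.rdc' _ _ (er k ▸ F1 k)
  generalize PowerSeries.mk r = Φ at eF hdeg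
  subst eF
  have hv : vf dP P Q Φ = Φ * (cd (dP 0) P + cd (dP 1) Q) := by
    refine map_inj a.bas ?_
    rw [← vf_map, F4, cd_map, cd_map, map_mul, map_add]
  have h0 : DP l (PowerSeries.constantCoeff Φ) = 0 := by
    have e := congrArg PowerSeries.constantCoeff hv
    rw [vf, map_add, map_mul, map_mul, map_mul, map_add, cc_cd, cc_cd, cc_cd, cc_cd, hD.P0,
      hD.Q0, map_neg] at e
    have e2 : dP 0 (pderiv 1 (ff l)) = dP 1 (pderiv 0 (ff l)) := pderiv_comm2 _
    change pderiv 1 (ff l) * dP 0 _ - pderiv 0 (ff l) * dP 1 _ = 0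
    rw [e2] at e
    linear_combination e
  obtain ⟨c, hc, hn⟩ := a.tf.kerr _ h0
  have hn1 : c.natDegree ≤ 1 := by
    have := hdeg 0
    rw [PowerSeries.coeff_zero_eq_constantCoeff_apply] at this
    exact Nat.le_of_mul_le_mul_left (hn.trans (by omega)) (Nat.succ_pos d)
  have e0 : PowerSeries.constantCoeff Φ = C (c.coeff 1) * ff l + C (c.coeff 0) := by
    rw [hc]
    conv_lhs => rw [Polynomial.eq_X_add_C_of_natDegree_le_one hn1]
    simp
  by_cases hα : c.coeff 1 = 0
  · rw [hα, map_zero, zero_mul, zero_add] at e0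
    refine Or.inl ((hH d l a P Q hD).2 Φ (c.coeff 0) (fun hβ => F3 ?_) e0 hv)
    rw [cc_map', e0, hβ, map_zero, map_zero]
  · exact Or.inr ⟨Φ, _, _, hα, hdeg, e0, hv⟩

end HamA

theorem rowHam : OfHam ∧ OfBthm :=
  ⟨fun hP hR hG _ _ a _ _ hD => ⟨HamA.ham1 hR hG a hD, HamA.ham2 hP hR hG a hD⟩, HamA.bthm⟩

end Pool.Agent.MP_aa1ef7_ag.H20
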