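import Pool.Agent.MP_aa1ef7_ag.H20.Spec

/-! Row Iif: inverse integrating factors from the chain rule for first integrals. -/

namespace Pool.Agent.MP_aa1ef7_ag.H20

namespace IifA

variable {S : Type} [CommRing S] [Algebra ℂ S]

theorem cd_neg (δ : Derivation ℂ S S) (H : PowerSeries S) : cd δ (-H) = -cd δ H := by
  ext k; simp [coeff_cd]

theorem cd_zero (δ : Derivation ℂ S S) : cd δ (0 : PowerSeries S) = 0 := by
  ext k; simp [coeff_cd]

theorem cd_comm {δ ε : Derivation ℂ S S} (h : ∀ A, δ (ε A) = ε (δ A)) (H : PowerSeries S) :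
    cd δ (cd ε H) = cd ε (cd δ H) := by
  ext k; simp [coeff_cd, h]

theorem cc_cd (δ : Derivation ℂ S S) (H : PowerSeries S) :
    PowerSeries.constantCoeff (cd δ H) = δ (PowerSeries.constantCoeff H) := by
  rw [← PowerSeries.coeff_zero_eq_constantCoeff_apply, coeff_cd,
    PowerSeries.coeff_zero_eq_constantCoeff_apply]

theorem cd_X_mul (δ : Derivation ℂ S S) (H : PowerSeries S) :
    cd δ (PowerSeries.X * H) = PowerSeries.X * cd δ H := by
  rw [cd_mul, cd_X]; ring

theorem exists_div (T : Subalgebra ℂ S) {F g : PowerSeries S} (hF : InS (T : Set S) F)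
    (hg : InS (T : Set S) g) (h1 : PowerSeries.constantCoeff g = 1) :
    ∃ ψ, InS (T : Set S) ψ ∧ F = g * ψ := by
  let j : T →+* S := T.val.toRingHom
  let F' : PowerSeries T := PowerSeries.mk fun k => ⟨PowerSeries.coeff k F, hF k⟩
  let g' : PowerSeries T := PowerSeries.mk fun k => ⟨PowerSeries.coeff k g, hg k⟩
  have eF : PowerSeries.map j F' = F := by
    ext k; simp [F', j]
  have eg : PowerSeries.map j g' = g := by
    ext k; simp [g', j]
  have hu : IsUnit g' := by
    rw [PowerSeries.isUnit_iff_constantCoeff]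
    have : PowerSeries.constantCoeff g' = 1 := by
      apply Subtype.ext
      rw [← PowerSeries.coeff_zero_eq_constantCoeff_apply]
      simp only [g', PowerSeries.coeff_mk, PowerSeries.coeff_zero_eq_constantCoeff_apply]
      simpa using h1
    rw [this]; exact isUnit_one
  obtain ⟨u, hu⟩ := hu.exists_right_inv
  refine ⟨PowerSeries.map j (u * F'), fun k => ?_, ?_⟩
  · rw [PowerSeries.coeff_map]
    exact (PowerSeries.coeff k (u * F')).2
  · rw [← eg, ← map_mul, ← mul_assoc, hu, one_mul, eF]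

theorem chain [IsDomain S] (hE : ExtS) {D : Fin 2 → Derivation ℂ S S} {f : S}
    {P Q : PowerSeries S} {T : Subalgebra ℂ S} {ι : Type} {δ : ι → Derivation ℂ S S}
    (c : Cht D f P Q T δ) {h : PowerSeries S} (hh : InS (T : Set S) h)
    (h0 : PowerSeries.constantCoeff h = f) (hv : vf D P Q h = 0) (m : ι) (i : Fin 2)
    {ψ : PowerSeries S} (hψ : InS (T : Set S) ψ) (hvψ : vf D P Q ψ = 0) :
    cd (δ m) ψ * cd (D i) h = cd (D i) ψ * cd (δ m) h := by
  have hK : ∀ a ∈ {a | a ∈ T ∧ br D f a = 0}, ∃ a' ∈ {a | a ∈ T ∧ br D f a = 0},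
      ∀ j, Sum.elim D δ j a = a' * Sum.elim D δ j (PowerSeries.constantCoeff h) := by
    rintro a ⟨haT, ha⟩
    obtain ⟨b, hb, e1, e0⟩ := c.sub.div (-D 1 a) (T.neg_mem (c.sub.der 1 a haT)) (D 0 a)
      (c.sub.der 0 a haT) (by rw [← ha, br]; ring)
    have e1' : D 1 a = -(b * D 1 f) := by rw [← e1, neg_neg]
    refine ⟨-b, ⟨T.neg_mem hb, ?_⟩, ?_⟩
    · have k := c.amb.comm a
      rw [e1', e0] at k
      simp only [map_neg, Derivation.leibniz, smul_eq_mul, c.amb.comm f] at k
      simp only [br, map_neg]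
      linear_combination k
    · rintro (j | n)
      · rw [h0]
        fin_cases j
        · simp only [Sum.elim_inl, Fin.zero_eta]; rw [e0]; ring
        · simp only [Sum.elim_inl, Fin.mk_one]; rw [e1']; ring
      · simp only [Sum.elim_inr]
        rw [h0, c.kf, c.ker a haT ha, mul_zero]
  have key : ∀ n : ℕ, ∀ ψ, InS (T : Set S) ψ → vf D P Q ψ = 0 →
      PowerSeries.X ^ n ∣ cd (δ m) ψ * cd (D i) h - cd (D i) ψ * cd (δ m) h := by
    intro n
    induction n with
    | zero => intro ψ _ _; simp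
    | succ n ih =>
      intro ψ hψ hvψ
      have hb : br D f (PowerSeries.constantCoeff ψ) = 0 := by
        have := congrArg PowerSeries.constantCoeff hvψ
        simp only [vf, map_add, map_mul, cc_cd, c.amb.P0, c.amb.Q0, map_zero] at this
        rw [br]; linear_combination this
      have hT : PowerSeries.constantCoeff ψ ∈ T := by
        rw [← PowerSeries.coeff_zero_eq_constantCoeff_apply]; exact hψ 0
      obtain ⟨E, E', hET, hE0, hEd⟩ := hE S (Fin 2 ⊕ ι) (Sum.elim D δ) T
        {a | a ∈ T ∧ br D f a = 0} h (fun a ha => ha.1) hh hK _ ⟨hT, hb⟩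
      have d0 := hEd (Sum.inl 0)
      have d1 := hEd (Sum.inl 1)
      have di := hEd (Sum.inl i)
      have dm := hEd (Sum.inr m)
      simp only [Sum.elim_inl, Sum.elim_inr] at d0 d1 di dm
      obtain ⟨ψ1, hψ1⟩ : PowerSeries.X ∣ ψ - E := by
        rw [PowerSeries.X_dvd_iff, map_sub, hE0, sub_self]
      have hT1 : InS (T : Set S) ψ1 := fun k => by
        rw [← PowerSeries.coeff_succ_X_mul, ← hψ1, map_sub]
        exact T.sub_mem (hψ _) (hET _)
      have e : ψ = E + PowerSeries.X * ψ1 := by rw [← hψ1]; ring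
      have hv1 : vf D P Q ψ1 = 0 := by
        have : PowerSeries.X * vf D P Q ψ1 = 0 := by
          rw [e] at hvψ
          simp only [vf, cd_add, cd_X_mul, d0, d1] at hvψ hv ⊢
          linear_combination hvψ - E' * hv
        exact (mul_eq_zero.1 this).resolve_left PowerSeries.X_ne_zero
      obtain ⟨w, hw⟩ := ih ψ1 hT1 hv1
      refine ⟨w, ?_⟩
      rw [e]
      simp only [cd_add, cd_X_mul, di, dm]
      linear_combination PowerSeries.X * hw
  rw [← sub_eq_zero]
  ext k
  have := (PowerSeries.X_pow_dvd_iff.1 (key (k + 1) ψ hψ hvψ)) k (Nat.lt_succ_self k)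
  simpa using this

end IifA

open IifA in
theorem rowIif : OfIif := by
  intro hE S _ _ _ D f P Q T ι δ c h g hh h0 hg g0 hP hQ
  have hv : vf D P Q h = 0 := by rw [vf, hP, hQ]; ring
  have gne : g ≠ 0 := fun e => by
    rw [e, map_zero] at g0; exact zero_ne_one g0
  have hx : cd (D 0) h ≠ 0 := fun e => by
    have := congrArg PowerSeries.constantCoeff e
    rw [cc_cd, h0, map_zero] at this
    exact c.ne this
  have cD : ∀ m i H, cd (δ m) (cd (D i) H) = cd (D i) (cd (δ m) H) :=
    fun m i H => cd_comm (c.cD m i) H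
  have φT : ∀ m, InS (T : Set S) (cd (δ m) h) := fun m k => by
    rw [coeff_cd]; exact c.cl m _ (hh k)
  have φv : ∀ m, vf D P Q (cd (δ m) h) = 0 := fun m => by
    have := congrArg (cd (δ m)) hv
    simp only [vf, cd_add, cd_mul, c.kP, c.kQ, cD, cd_zero] at this ⊢
    linear_combination this
  have dg : ∀ m i, cd (δ m) g * cd (D i) h = -(g * cd (D i) (cd (δ m) h)) := fun m i => by
    have k1 := c.kP m
    have k0 := c.kQ m
    rw [hP, cd_mul, cD] at k1
    rw [hQ, cd_neg, cd_mul, cD] at k0
    fin_cases i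
    · simp only [Fin.zero_eta]; linear_combination -k0
    · simp only [Fin.mk_one]; linear_combination k1
  have vg : vf D P Q g = g * (cd (D 0) P + cd (D 1) Q) := by
    rw [vf, hP, hQ, cd_neg, cd_mul, cd_mul, cd_comm c.amb.comm h]; ring
  have vmul : ∀ A B, vf D P Q (A * B) = A * vf D P Q B + B * vf D P Q A := fun A B => by
    simp only [vf, cd_mul]; ring
  refine ⟨fun m n => ?_, fun m => ?_, fun m hm F G hF hG dF dG vF vG i => ?_⟩
  · have k := chain hE c hh h0 hv m 0 (φT n) (φv n)
    rw [cd_comm (c.cδ m n)] at k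
    apply mul_right_cancel₀ hx
    rw [cd_mul]
    linear_combination g * k + cd (δ m) h * dg n 0
  · rw [vmul, φv, vg]; ring
  · have aux : ∀ F, InS (T : Set S) F → (∀ n, cd (δ n) F = 0) →
        vf D P Q F = F * (cd (D 0) P + cd (D 1) Q) →
        ∃ ψ, F = g * ψ ∧ cd (D i) ψ * cd (δ m) h = ψ * cd (D i) (cd (δ m) h) := by
      intro F hF dF vF
      obtain ⟨ψ, hψ, rfl⟩ := exists_div T hF hg g0
      have v : vf D P Q ψ = 0 := by
        apply mul_left_cancel₀ gne
        rw [vmul, vg] at vF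
        linear_combination vF
      have k := chain hE c hh h0 hv m i hψ v
      have k2 := dF m
      rw [cd_mul] at k2
      refine ⟨ψ, rfl, ?_⟩
      apply mul_left_cancel₀ gne
      linear_combination cd (D i) h * k2 - g * k - ψ * dg m i
    obtain ⟨a, rfl, ha⟩ := aux F hF dF vF
    obtain ⟨b, rfl, hb⟩ := aux G hG dG vG
    apply mul_right_cancel₀ hm
    simp only [cd_mul]
    linear_combination g ^ 2 * a * hb - g ^ 2 * b * ha

end Pool.Agent.MP_aa1ef7_ag.H20
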