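import Pool.Agent.MP_aa1ef7_ag.H20.Spec

/-! Inertia preserves a saturated submodule that is stable under the connection. -/

namespace Pool.Agent.MP_aa1ef7_ag.H20

open Polynomial

namespace InertA

theorem desc {E A Ω : Type} [Field E] [Fintype A] [CommRing Ω] (J : E[X] →+* Ω)
    (hJ : ∀ p, J p = 0 → p = 0) (N : Submodule E[X] (A → E[X])) (hN : Satu N) (c : A → E[X])
    (hc : (fun a => J (c a)) ∈
      Submodule.span Ω ((fun (n : A → E[X]) a => J (n a)) '' (N : Set (A → E[X])))) :
    c ∈ N := by
  classical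
  by_contra hcN
  have : Module.IsTorsionFree E[X] ((A → E[X]) ⧸ N) := by
    apply Module.IsTorsionFree.of_smul_eq_zero
    intro r m h
    obtain ⟨m, rfl⟩ := N.mkQ_surjective m
    by_cases hr : r = 0
    · exact Or.inl hr
    · right
      rw [← map_smul, Submodule.mkQ_apply, Submodule.Quotient.mk_eq_zero] at h
      rw [Submodule.mkQ_apply, Submodule.Quotient.mk_eq_zero]
      exact hN r m hr h
  obtain ⟨f, hf, hfN⟩ := Submodule.exists_dual_map_eq_bot_of_notMem hcN inferInstance
  have key : ∀ n : A → E[X], ∑ a, J (n a) * J (f (Pi.single a 1)) = J (f n) := by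
    intro n
    conv_rhs => rw [pi_eq_sum_univ' n]
    simp [map_sum]
  have hz : ∀ w ∈ Submodule.span Ω
      ((fun (n : A → E[X]) a => J (n a)) '' (N : Set (A → E[X]))),
      ∑ a, w a * J (f (Pi.single a 1)) = 0 := by
    intro w hw
    induction hw using Submodule.span_induction with
    | mem x hx =>
      obtain ⟨n, hn, rfl⟩ := hx
      have : f n = 0 := by
        have h1 : f n ∈ N.map f := Submodule.mem_map_of_mem hn
        rwa [hfN, Submodule.mem_bot] at h1
      rw [key, this, map_zero]
    | zero => simp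
    | add x y _ _ hx hy => simp [add_mul, Finset.sum_add_distrib, hx, hy]
    | smul r x _ hx => simp [mul_assoc, ← Finset.mul_sum, hx]
  have := hz _ hc
  rw [key] at this
  exact hf (hJ _ this)

theorem inj0 {κ F : Type} [Field κ] [Field F] [Algebra κ F] (s : F) (hs : Transcendental κ s)
    (p : (PowerSeries κ)[X])
    (h : p.eval₂ (PowerSeries.map (algebraMap κ F)) (PowerSeries.C s) = 0) : p = 0 := by
  ext i n
  have h1 : aeval s (∑ k ∈ p.support, monomial k (PowerSeries.coeff n (p.coeff k))) = 0 := by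
    have h2 := congrArg (PowerSeries.coeff n) h
    rw [eval₂_eq_sum, Polynomial.sum_def, map_sum, map_zero] at h2
    rw [map_sum, ← h2]
    refine Finset.sum_congr rfl fun k _ => ?_
    rw [aeval_monomial, ← map_pow, PowerSeries.coeff_mul_C, PowerSeries.coeff_map]
  have h3 := (transcendental_iff.mp hs) _ h1
  have h4 := congrArg (fun r => Polynomial.coeff r i) h3
  simp only [finsetSum_coeff, coeff_monomial, Finset.sum_ite_eq', coeff_zero] at h4
  by_cases hi : i ∈ p.support
  · simpa [hi] using h4
  · rw [notMem_support_iff.mp hi]; simp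

theorem inj1 {κ F L Ω : Type} [Field κ] [Field F] [Algebra κ F] [Field L] [Field Ω]
    [Algebra (PowerSeries κ) L] [IsFractionRing (PowerSeries κ) L]
    [Algebra (PowerSeries F) Ω] [IsFractionRing (PowerSeries F) Ω] (s : F)
    (hs : Transcendental κ s) (μ : L →+* Ω)
    (hμ : ∀ a, μ (algebraMap (PowerSeries κ) L a) =
      algebraMap (PowerSeries F) Ω (PowerSeries.map (algebraMap κ F) a))
    (p : L[X]) (h : p.eval₂ μ (algebraMap (PowerSeries F) Ω (PowerSeries.C s)) = 0) : p = 0 := by
  obtain ⟨b, hb, hp⟩ :=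
    IsLocalization.integerNormalization_spec (nonZeroDivisors (PowerSeries κ)) p
  set p0 := IsLocalization.integerNormalization (nonZeroDivisors (PowerSeries κ)) p
  have h0 : p0 = 0 := by
    apply inj0 s hs
    apply IsFractionRing.injective (PowerSeries F) Ω
    have hc : (algebraMap (PowerSeries F) Ω).comp (PowerSeries.map (algebraMap κ F)) =
        μ.comp (algebraMap (PowerSeries κ) L) := RingHom.ext fun a => (hμ a).symm
    rw [hom_eval₂, hc, ← eval₂_map, hp, map_zero, ← IsScalarTower.algebraMap_smul L b p,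
      smul_eq_C_mul, eval₂_mul, h, mul_zero]
  rw [h0, Polynomial.map_zero, ← IsScalarTower.algebraMap_smul L b p] at hp
  have hb' : algebraMap (PowerSeries κ) L b ≠ 0 := fun h' =>
    nonZeroDivisors.ne_zero hb (IsFractionRing.injective (PowerSeries κ) L (by simpa using h'))
  exact (smul_eq_zero.mp hp.symm).resolve_left hb'

theorem derJ {E Ω : Type} [CommRing E] [CommRing Ω] (φ : E →+* Ω) (δ : E → E) (D : Ω → Ω)
    (τ z : Ω) (hadd : ∀ x y, D (x + y) = D x + D y)
    (hmul : ∀ x y, D (x * y) = x * D y + y * D x) (hz : D z = 0) (hδ0 : δ 0 = 0)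
    (hδ : ∀ x y, δ (x + y) = δ x + δ y) (h : ∀ x, D (φ x) = τ * φ (δ x)) (p : E[X]) :
    ∃ p' : E[X], (∀ n, p'.coeff n = δ (p.coeff n)) ∧
      D (p.eval₂ φ z) = τ * p'.eval₂ φ z := by
  have h1 : D 1 = 0 := by
    have := hmul 1 1
    simp only [mul_one, one_mul] at this
    exact left_eq_add.mp this
  have hp : ∀ n : ℕ, D (z ^ n) = 0 := by
    intro n
    induction n with
    | zero => simpa using h1
    | succ n ih => rw [pow_succ, hmul, ih, hz]; simp
  induction p using Polynomial.induction_on' with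
  | add p q hp hq =>
    obtain ⟨p', h1, h2⟩ := hp
    obtain ⟨q', h3, h4⟩ := hq
    refine ⟨p' + q', fun n => by simp [h1, h3, hδ], ?_⟩
    rw [eval₂_add, eval₂_add, hadd, h2, h4, mul_add]
  | monomial n a =>
    refine ⟨monomial n (δ a), fun m => ?_, ?_⟩
    · simp only [coeff_monomial]
      split_ifs
      · rfl
      · exact hδ0.symm
    · rw [eval₂_monomial, eval₂_monomial, hmul, hp, h]; ring

theorem lifts_of {κ E : Type} [Field κ] [Field E] [Algebra κ E] (v : E) (p : E[X])
    (h : ∀ n, p.coeff n ∈ Algebra.adjoin κ {v}) :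
    p ∈ lifts (aeval v : κ[X] →ₐ[κ] E).toRingHom := by
  rw [lifts_iff_coeff_lifts]
  intro n
  have := h n
  rw [Algebra.adjoin_singleton_eq_range_aeval] at this
  exact this

theorem main (hD : DeruS) (hP : PvS) {κ k E A F Ω : Type} [Field κ] [CharZero κ] [Field k]
    [Field E] [Algebra κ k] [Algebra k E] [Algebra κ E] [IsScalarTower κ k E]
    [Algebra.IsAlgebraic k E] [Fintype A] [Field F] [Algebra κ F] [Field Ω]
    [Algebra (PowerSeries F) Ω] [IsFractionRing (PowerSeries F) Ω] [Algebra F Ω]
    [IsScalarTower F (PowerSeries F) Ω] (s : F) (hs : Transcendental κ s)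
    (u : k) (δ : Derivation κ E E) (u0 ζ : κ) (e : ℕ) (j : E →ₐ[κ] LaurentSeries κ)
    (σ : LaurentSeries κ →+* LaurentSeries κ) (g : E →+* E) (q : E[X])
    (Θ : A → A → E[X]) (N : Submodule E[X] (A → E[X]))
    (hu : IntermediateField.adjoin κ {u} = ⊤) (hδ : δ (algebraMap k E u) = 1)
    (hpl : Place (algebraMap k E u) u0 ζ e j σ) (hg : ∀ x, j (g x) = σ (j x)) (hq : q.Monic)
    (hqc : ∀ n, q.coeff n ∈ Algebra.adjoin κ {algebraMap k E u})
    (hΘ : ∀ a b n, (Θ a b).coeff n ∈ Algebra.adjoin κ {algebraMap k E u}) (hN : Satu N)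
    (hS : Stab δ q Θ N) (c : A → E[X]) (hc : c ∈ N) : (fun a => (c a).map g) ∈ N := by
  classical
  have : CharZero F := charZero_of_injective_algebraMap (algebraMap κ F).injective
  have : CharZero k := charZero_of_injective_algebraMap (algebraMap κ k).injective
  have he : e ≠ 0 := hpl.pos.ne'
  set ι := algebraMap (PowerSeries F) Ω with hι
  have hιi : Function.Injective ι := IsFractionRing.injective _ _
  obtain ⟨D, hDι⟩ := exists_der_loc (k := F) (A := Ω) (nonZeroDivisors (PowerSeries F))
    (PowerSeries.derivative F)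
  rw [← hι] at hDι
  have hDm : ∀ x y, D (x * y) = x * D y + y * D x := fun x y => by
    rw [Derivation.leibniz, smul_eq_mul, smul_eq_mul]
  -- the maps
  have hm : Function.Injective (ι.comp (PowerSeries.map (algebraMap κ F))) :=
    hιi.comp (PowerSeries.map_injective _ (algebraMap κ F).injective)
  let μ : LaurentSeries κ →+* Ω := IsFractionRing.lift hm
  have hμ : ∀ a, μ (algebraMap (PowerSeries κ) (LaurentSeries κ) a) =
      ι (PowerSeries.map (algebraMap κ F) a) := fun a => IsFractionRing.lift_algebraMap hm a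
  have hζ : (algebraMap κ F ζ) ^ e = 1 := by rw [← map_pow, hpl.root, map_one]
  have hζ0 : algebraMap κ F ζ ≠ 0 := fun h => by
    rw [h, zero_pow he] at hζ; exact zero_ne_one hζ
  have hr : Function.Injective (ι.comp (PowerSeries.rescale (algebraMap κ F ζ))) :=
    hιi.comp (PowerSeries.rescale_injective hζ0)
  let ρ : Ω →+* Ω := IsFractionRing.lift hr
  have hρ : ∀ a, ρ (ι a) = ι (PowerSeries.rescale (algebraMap κ F ζ) a) :=
    fun a => IsFractionRing.lift_algebraMap hr a
  have hρμ : ρ.comp μ = μ.comp σ := by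
    apply IsLocalization.ringHom_ext (nonZeroDivisors (PowerSeries κ))
    refine RingHom.ext fun a => ?_
    simp only [RingHom.comp_apply]
    rw [hpl.rot, hμ, hμ, hρ, PowerSeries.rescale_map]
  let φ : E →+* Ω := μ.comp j.toRingHom
  have hφ : ∀ x, φ x = μ (j x) := fun _ => rfl
  have hφc : ∀ a, φ (algebraMap κ E a) = ι (PowerSeries.C (algebraMap κ F a)) := by
    intro a
    rw [hφ, j.commutes, HahnSeries.algebraMap_apply', ← LaurentSeries.coe_algebraMap, hμ]
    simp
  have hφu : φ (algebraMap k E u) =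
      ι (PowerSeries.X ^ e + PowerSeries.C (algebraMap κ F u0)) := by
    have h1 : φ (algebraMap k E u - algebraMap κ E u0) = ι (PowerSeries.X ^ e) := by
      rw [hφ, hpl.ju, ← HahnSeries.ofPowerSeries_X_pow, ← LaurentSeries.coe_algebraMap, hμ]
      simp
    rw [map_sub, hφc] at h1
    rw [map_add, ← h1]; ring
  set τ : Ω := ι ((e : PowerSeries F) * PowerSeries.X ^ (e - 1)) with hτ
  have hDφ : ∀ x, D (φ x) = τ * φ (δ x) := by
    have hA : ∀ x y, D (φ (x + y)) - τ * φ (δ (x + y)) =
        (D (φ x) - τ * φ (δ x)) + (D (φ y) - τ * φ (δ y)) := fun x y => by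
      simp only [map_add]; ring
    have hM : ∀ x y, D (φ (x * y)) - τ * φ (δ (x * y)) =
        φ x * (D (φ y) - τ * φ (δ y)) + φ y * (D (φ x) - τ * φ (δ x)) := fun x y => by
      rw [map_mul, hDm, Derivation.leibniz, smul_eq_mul, smul_eq_mul]
      simp only [map_add, map_mul]; ring
    have h1 := (hD κ k Ω (φ.comp (algebraMap k E))
      (fun x => D (φ (algebraMap k E x)) - τ * φ (δ (algebraMap k E x)))
      (fun x y => by rw [map_add, hA]) (fun x y => by rw [map_mul, hM]; rfl)
      (fun a => by
        rw [← IsScalarTower.algebraMap_apply, hφc, hDι, PowerSeries.derivative_C]; simp)).2 {u}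
      (fun x hx => by
        rw [Set.mem_singleton_iff.mp hx, hφu, hDι, hδ, map_add, PowerSeries.derivative_C,
          PowerSeries.derivative_pow, PowerSeries.derivative_X]
        simp [hτ])
    rw [hu] at h1
    have h2 := (hD k E Ω φ (fun x => D (φ x) - τ * φ (δ x)) hA hM
      (fun a => h1 a IntermediateField.mem_top)).1
    exact fun x => sub_eq_zero.mp (h2 x (Algebra.IsAlgebraic.isAlgebraic x))
  let J : E[X] →+* Ω := eval₂RingHom φ (ι (PowerSeries.C s))
  have hJ : ∀ p, J p = p.eval₂ φ (ι (PowerSeries.C s)) := fun _ => rfl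
  have hJi : ∀ p, J p = 0 → p = 0 := by
    intro p hp
    rw [hJ, ← eval₂_map] at hp
    exact (Polynomial.map_eq_zero _).mp (inj1 s hs μ hμ _ hp)
  -- coefficients in the polynomial ring of `u`
  let ψ : κ[X] →+* PowerSeries F := eval₂RingHom (PowerSeries.C.comp (algebraMap κ F))
    (PowerSeries.X + PowerSeries.C (algebraMap κ F u0))
  have hψ : φ.comp (aeval (algebraMap k E u) : κ[X] →ₐ[κ] E).toRingHom =
      (ι.comp (PowerSeries.expand e he).toRingHom).comp ψ := by
    ext a
    · simp [ψ, hφc, PowerSeries.expand_C]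
    · simp [ψ, hφu, PowerSeries.expand_C]
  have hJl : ∀ p0 : κ[X][X], J (p0.map (aeval (algebraMap k E u) : κ[X] →ₐ[κ] E).toRingHom) =
      ι (PowerSeries.expand e he (p0.eval₂ ψ (PowerSeries.C s))) := by
    intro p0
    rw [hJ, eval₂_map, hψ]
    have := hom_eval₂ p0 ψ (ι.comp (PowerSeries.expand e he).toRingHom) (PowerSeries.C s)
    simpa [PowerSeries.expand_C] using this.symm
  obtain ⟨q0, hq0, -, hq0m⟩ := lifts_and_natDegree_eq_and_monic (lifts_of _ q hqc) hq
  choose Θ0 hΘ0 using fun a b => (mem_lifts _).mp (lifts_of _ (Θ a b) (hΘ a b))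
  have hunit : IsUnit (q0.eval₂ ψ (PowerSeries.C s)) := by
    rw [PowerSeries.isUnit_iff_constantCoeff, isUnit_iff_ne_zero, hom_eval₂]
    have h1 : (PowerSeries.constantCoeff (R := F)).comp ψ =
        (algebraMap κ F).comp (evalRingHom u0) := by
      ext a
      · simp [ψ]
      · simp [ψ]
    rw [h1, ← eval₂_map, PowerSeries.constantCoeff_C, ← aeval_def]
    intro h
    exact (hq0m.map _).ne_zero (transcendental_iff.mp hs _ h)
  obtain ⟨qi, hqi⟩ := hunit.exists_right_inv
  have hJq : J q * ι (PowerSeries.expand e he qi) = 1 := by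
    rw [← hq0, hJl, ← map_mul, ← map_mul, hqi, map_one, map_one]
  let W : Submodule Ω (A → Ω) :=
    Submodule.span Ω ((fun (n : A → E[X]) a => J (n a)) '' (N : Set (A → E[X])))
  have hW := hP F Ω A e he D ρ (algebraMap κ F ζ)
    (fun a b => qi * (Θ0 a b).eval₂ ψ (PowerSeries.C s)) W (map_add D) hDm hDι hζ hρ (by
      intro w hw
      rw [← hι]
      induction hw using Submodule.span_induction with
      | mem x hx =>
        obtain ⟨n, hn, rfl⟩ := hx
        choose n' h1 h2 using fun a => derJ φ δ D τ (ι (PowerSeries.C s)) (map_add D) hDm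
          (by rw [hDι, PowerSeries.derivative_C, map_zero]) (map_zero δ) (map_add δ) hDφ (n a)
        have h3 : (fun b => J (q * n' b + ∑ a, n a * Θ a b)) ∈ W :=
          Submodule.subset_span ⟨_, hS n n' h1 hn, rfl⟩
        convert W.smul_mem (τ * ι (PowerSeries.expand e he qi)) h3 using 1
        funext b
        have h4 : D (J (n b)) = τ * J (n' b) := h2 b
        simp only [Pi.smul_apply, smul_eq_mul]
        rw [h4, map_add, map_mul J, map_sum J, mul_add, Finset.mul_sum]
        congr 1
        · linear_combination (-τ * J (n' b)) * hJq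
        · refine Finset.sum_congr rfl fun a _ => ?_
          rw [map_mul J, ← hΘ0 a b, hJl, map_mul ι, ← hτ, map_mul, map_mul]; ring
      | zero =>
        convert W.zero_mem using 1
        funext b; simp
      | add x y _ _ hx hy =>
        convert W.add_mem hx hy using 1
        funext b
        simp only [Pi.add_apply, map_add, add_mul, Finset.sum_add_distrib]; ring
      | smul r x hxW hx =>
        convert W.add_mem (W.smul_mem r hx) (W.smul_mem (D r) hxW) using 1
        funext b
        simp only [Pi.add_apply, Pi.smul_apply, smul_eq_mul, hDm, mul_add, Finset.mul_sum,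
          mul_assoc]
        ring)
    _ (Submodule.subset_span ⟨c, hc, rfl⟩)
  apply desc J hJi N hN
  convert hW using 1
  funext b
  have h1 : φ.comp g = ρ.comp φ := by
    refine RingHom.ext fun x => ?_
    have := congrArg (fun f : LaurentSeries κ →+* Ω => f (j x)) hρμ
    simp only [RingHom.comp_apply] at this ⊢
    rw [hφ, hφ, hg, this]
  have h2 : PowerSeries.rescale (algebraMap κ F ζ) (PowerSeries.C s) = PowerSeries.C s := by
    ext n
    rw [PowerSeries.coeff_rescale, PowerSeries.coeff_C]
    split_ifs with h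
    · simp [h]
    · simp
  show J _ = ρ (J (c b))
  rw [hJ, hJ, eval₂_map, hom_eval₂, h1, hρ, h2]

end InertA

theorem rowInert : OfInert := by
  intro hD hP κ k E A _ _ _ _ _ _ _ _ _ _ u δ u0 ζ e j σ g q Θ N hu hδ hpl hg hq hqc hΘ hN hS c hc
  exact InertA.main (F := RatFunc κ) (Ω := FractionRing (PowerSeries (RatFunc κ))) hD hP
    RatFunc.X RatFunc.transcendental_X u δ u0 ζ e j σ g q Θ N hu hδ hpl hg hq hqc hΘ hN hS c hc

end Pool.Agent.MP_aa1ef7_ag.H20
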