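import Pool.Agent.MP_aa1ef7_ag.H20.Spec

/-! Integrality of common zeros and the exchange of series and polynomial variables. -/

namespace Pool.Agent.MP_aa1ef7_ag.H20

open MvPolynomial
open Pool.Agent.MP_aa1ef7_ag.H40

namespace IntegA

theorem degree_eq (m : Fin 2 →₀ ℕ) : m.degree = m 0 + m 1 := by
  rw [Finsupp.degree_eq_sum, Fin.sum_univ_two]

theorem map_hc {K K' : Type} [CommRing K] [CommRing K'] (j : K →+* K') (d : ℕ) (P : Pl K) :
    MvPolynomial.map j (homogeneousComponent d P) =
      homogeneousComponent d (MvPolynomial.map j P) := by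
  ext m
  simp only [coeff_map, coeff_homogeneousComponent]
  split_ifs <;> simp

theorem deg_sub_hc {K : Type} [CommRing K] {d : ℕ} {P : Pl K} (hd : 1 ≤ d)
    (hP : P.totalDegree ≤ d) : (homogeneousComponent d P - P).totalDegree ≤ d - 1 := by
  refine deg_le_iff.2 fun m hm => ?_
  rw [coeff_sub, coeff_homogeneousComponent, degree_eq]
  split_ifs with h
  · exact sub_self _
  · rw [deg_le_iff.1 hP m (by omega), sub_zero]

theorem deg_monomial {K : Type} [CommRing K] {n : ℕ} (m : Fin 2 →₀ ℕ) (c : K)
    (h : m 0 + m 1 ≤ n) : (monomial m c : Pl K).totalDegree ≤ n := by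
  classical
  refine deg_le_iff.2 fun m' hm => ?_
  rw [coeff_monomial, if_neg]
  rintro rfl
  omega

theorem integ : OfInteg := by
  intro hS Ω _ _ A e d P Q p hd hP hQ hc hp hq
  obtain ⟨Δ, hΔ, hm⟩ := hS A e d (homogeneousComponent d P) (homogeneousComponent d Q) hd
    (homogeneousComponent_isHomogeneous d P) (homogeneousComponent_isHomogeneous d Q)
    (by rw [map_hc, map_hc]; exact hc)
  refine ⟨Δ, hΔ, fun i => ?_⟩
  let M : Submodule A Ω := (restrictTotalDegree (Fin 2) A (2 * d - 2)).map
    (aeval p : Pl A →ₐ[A] Ω).toLinearMap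
  have hM : ∀ r : Pl A, r.totalDegree ≤ 2 * d - 2 → aeval p r ∈ M := fun r hr =>
    ⟨r, (mem_restrictTotalDegree _ _ _).2 hr, rfl⟩
  have hfg : M.FG := Submodule.FG.map _ (Module.Finite.iff_fg.1 inferInstance)
  have hne : M ≠ ⊥ := by
    intro h0
    have h1 := hM 1 (by simp)
    rw [h0, map_one, Submodule.mem_bot] at h1
    exact one_ne_zero h1
  have key : ∀ m : Fin 2 →₀ ℕ, m 0 + m 1 ≤ 2 * d - 1 → aeval p (monomial m Δ : Pl A) ∈ M := by
    intro m h
    rcases Nat.lt_or_ge (m 0 + m 1) (2 * d - 1) with h1 | h1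
    · exact hM _ (deg_monomial m Δ (by omega))
    · obtain ⟨α, β, hα, hβ, hαβ⟩ := hm m (by omega)
      have h2 : aeval p (monomial m Δ : Pl A) =
          aeval p (α * (homogeneousComponent d P - P) + β * (homogeneousComponent d Q - Q)) := by
        rw [hαβ]
        simp only [map_add, map_mul, map_sub, hp, hq, sub_zero]
      rw [h2]
      refine hM _ ((totalDegree_add _ _).trans (max_le ?_ ?_))
      · refine (totalDegree_mul _ _).trans ?_
        have := hα.totalDegree_le
        have := deg_sub_hc hd hP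
        omega
      · refine (totalDegree_mul _ _).trans ?_
        have := hβ.totalDegree_le
        have := deg_sub_hc hd hQ
        omega
  refine isIntegral_of_smul_mem_submodule M hne hfg _ ?_
  rintro _ ⟨r, hr, rfl⟩
  have hr' : r.totalDegree ≤ 2 * d - 2 := (mem_restrictTotalDegree _ _ _).1 hr
  change ((Δ : Ω) * p i) * aeval p r ∈ M
  rw [r.as_sum, map_sum, Finset.mul_sum]
  refine Submodule.sum_mem _ fun m hm' => ?_
  have hdeg : m 0 + m 1 ≤ 2 * d - 2 := by
    by_contra hc'
    exact mem_support_iff.1 hm' (deg_le_iff.1 hr' m (by omega))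
  have h3 : ((Δ : Ω) * p i) * aeval p (monomial m (coeff m r) : Pl A) =
      coeff m r • aeval p (monomial (m + Finsupp.single i 1) Δ : Pl A) := by
    have h4 : (monomial (m + Finsupp.single i 1) Δ : Pl A) = C Δ * X i * monomial m 1 := by
      rw [X, C_mul_monomial, monomial_mul, add_comm]; simp
    have h5 : (monomial m (coeff m r) : Pl A) = C (coeff m r) * monomial m 1 := by
      rw [C_mul_monomial, mul_one]
    rw [h4, h5]
    simp only [map_mul, aeval_C, aeval_X, Algebra.smul_def]
    have h6 : algebraMap A Ω Δ = (Δ : Ω) := rfl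
    rw [h6]
    ring
  rw [h3]
  refine Submodule.smul_mem _ _ (key _ ?_)
  fin_cases i <;> simp <;> omega

theorem sw_monomial {K : Type} [CommRing K] (u : Fin 2 →₀ ℕ) (a : PowerSeries K) :
    sw (monomial u a) = PowerSeries.map (C : K →+* Pl K) a * PowerSeries.C (monomial u 1) := by
  rw [sw, eval₂Hom_monomial, monomial_eq, map_one, one_mul, map_finsuppProd]
  simp only [map_pow]

theorem coeff_sw {K : Type} [CommRing K] (P : Pl (PowerSeries K)) (k : ℕ) (m : Fin 2 →₀ ℕ) :
    coeff m (PowerSeries.coeff k (sw P)) = PowerSeries.coeff k (coeff m P) := by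
  classical
  induction P using MvPolynomial.induction_on' with
  | monomial u a =>
    rw [sw_monomial, PowerSeries.coeff_mul_C, PowerSeries.coeff_map, C_mul_monomial, mul_one,
      coeff_monomial, coeff_monomial]
    split_ifs <;> simp
  | add p q hp hq => simp only [map_add, coeff_add, hp, hq]

theorem sws : SwS := by
  refine ⟨coeff_sw, fun P i => ?_, fun n F hF => ?_, fun n G hG k => ?_, fun G => ?_,
    fun G H h => ?_⟩
  · ext k m
    rw [coeff_sw, coeff_cd, dP, coeff_pderiv, coeff_pderiv, coeff_sw]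
    have : ((m i : PowerSeries ℂ) + 1) = PowerSeries.C ((m i : ℂ) + 1) := by simp
    rw [this, PowerSeries.coeff_mul_C]
  · refine ⟨formOf n (fun i => PowerSeries.mk fun k => coeff i.2 (PowerSeries.coeff k F)) true,
      deg_formOf _ _ _, ?_⟩
    ext k m
    rw [coeff_sw, coeff_formOf]
    split_ifs with h
    · rw [PowerSeries.coeff_mk]
    · rw [map_zero, deg_le_iff.1 (hF k) m (by omega)]
  · refine deg_le_iff.2 fun m hm => ?_
    rw [coeff_sw, deg_le_iff.1 hG m hm, map_zero]
  · ext m
    rw [← PowerSeries.coeff_zero_eq_constantCoeff_apply, coeff_sw, coeff_map,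
      PowerSeries.coeff_zero_eq_constantCoeff_apply]
  · ext m k
    rw [← coeff_sw, ← coeff_sw, h]

end IntegA

theorem rowInteg : OfInteg ∧ SwS := ⟨IntegA.integ, IntegA.sws⟩

end Pool.Agent.MP_aa1ef7_ag.H20
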