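import Pool.Agent.MP_aa1ef7_ag.H20.Spec

/-! Facts on the Jacobian ideal of a product of lines in general position. -/

namespace Pool.Agent.MP_aa1ef7_ag.H20

open MvPolynomial
open Pool.Agent.MP_aa1ef7_ag.H40

namespace JacA

theorem degree_two (e : Fin 2 →₀ ℕ) : e.degree = e 0 + e 1 := by
  rw [Finsupp.degree_eq_sum, Fin.sum_univ_two]

theorem top_mul {a b : Poly} {m n : ℕ} (ha : a.totalDegree ≤ m) (hb : b.totalDegree ≤ n) :
    homogeneousComponent (m + n) (a * b) = homogeneousComponent m a * homogeneousComponent n b := by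
  classical
  ext e
  rw [coeff_homogeneousComponent, coeff_mul, coeff_mul]
  simp only [coeff_homogeneousComponent, degree_two]
  split_ifs with h
  · refine Finset.sum_congr rfl fun x hx => ?_
    have h0 := congrArg (fun t : Fin 2 →₀ ℕ => t 0) (Finset.HasAntidiagonal.mem_antidiagonal.1 hx)
    have h1 := congrArg (fun t : Fin 2 →₀ ℕ => t 1) (Finset.HasAntidiagonal.mem_antidiagonal.1 hx)
    simp only [Finsupp.add_apply] at h0 h1
    rcases lt_trichotomy (x.1 0 + x.1 1) m with h2 | h2 | h2
    · rw [deg_le_iff.1 hb x.2 (by omega), if_neg (by omega), mul_zero, zero_mul]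
    · rw [if_pos h2, if_pos (by omega)]
    · rw [deg_le_iff.1 ha x.1 h2, if_neg (by omega), zero_mul, zero_mul]
  · refine (Finset.sum_eq_zero fun x hx => ?_).symm
    have h0 := congrArg (fun t : Fin 2 →₀ ℕ => t 0) (Finset.HasAntidiagonal.mem_antidiagonal.1 hx)
    have h1 := congrArg (fun t : Fin 2 →₀ ℕ => t 1) (Finset.HasAntidiagonal.mem_antidiagonal.1 hx)
    simp only [Finsupp.add_apply] at h0 h1
    by_cases h2 : x.1 0 + x.1 1 = m
    · rw [if_neg (show ¬ x.2 0 + x.2 1 = n by omega), mul_zero]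
    · rw [if_neg h2, zero_mul]

theorem drop {a : Poly} {n : ℕ} (ha : a.totalDegree ≤ n + 1)
    (h : homogeneousComponent (n + 1) a = 0) : a.totalDegree ≤ n := by
  refine deg_le_iff.2 fun m hm => ?_
  by_cases e : m 0 + m 1 = n + 1
  · have := congrArg (coeff m) h
    rwa [coeff_homogeneousComponent, degree_two, if_pos e, coeff_zero] at this
  · exact deg_le_iff.1 ha m (by omega)

theorem unit_deg {a : Poly} (h : IsUnit a) : a.totalDegree = 0 := by
  obtain ⟨b, hb⟩ := h.exists_right_inv
  have h1 := totalDegree_mul_of_isDomain (left_ne_zero_of_mul_eq_one hb)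
    (right_ne_zero_of_mul_eq_one hb)
  rw [hb, totalDegree_one] at h1
  omega

theorem syz_of {G H a b : Poly} (h : IsRelPrime G H) (hH : H ≠ 0) (e : a * G + b * H = 0) :
    ∃ c, a = c * H ∧ b = -(c * G) := by
  have h1 : H ∣ a * G := ⟨-b, by linear_combination e⟩
  obtain ⟨c, rfl⟩ := h.symm.dvd_of_dvd_mul_right h1
  refine ⟨c, mul_comm _ _, mul_right_cancel₀ hH ?_⟩
  linear_combination e

theorem top_dvd {p g : Poly} (hg : g ≠ 0) (h : p ∣ g) :
    homogeneousComponent p.totalDegree p ∣ homogeneousComponent g.totalDegree g := by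
  obtain ⟨q, rfl⟩ := h
  rw [totalDegree_mul_of_isDomain (left_ne_zero_of_mul hg) (right_ne_zero_of_mul hg),
    top_mul le_rfl le_rfl]
  exact dvd_mul_right _ _

theorem relPrime_of_top {g h : Poly} (hg : g ≠ 0) (hh : h ≠ 0)
    (H : IsRelPrime (homogeneousComponent g.totalDegree g)
      (homogeneousComponent h.totalDegree h)) : IsRelPrime g h := by
  intro p h1 h2
  have hu := H (top_dvd hg h1) (top_dvd hh h2)
  have h0 := unit_deg hu
  rw [(homogeneousComponent_isHomogeneous _ _).totalDegree hu.ne_zero] at h0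
  rwa [homogeneousComponent_eq_self (by rw [h0]; exact (totalDegree_zero_iff_isHomogeneous _).1 h0)]
    at hu

theorem topd (d : ℕ) (f : Poly) (i : Fin 2) :
    homogeneousComponent d (pderiv i f) = pderiv i (homogeneousComponent (d + 1) f) := by
  ext m
  rw [coeff_homogeneousComponent, coeff_pderiv, coeff_pderiv, coeff_homogeneousComponent]
  have e : (m + Finsupp.single i 1).degree = m.degree + 1 := by
    rw [map_add, Finsupp.degree_single]
  rw [e]
  by_cases h : m.degree = d
  · rw [if_pos h, if_pos (by omega)]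
  · rw [if_neg h, if_neg (by omega), zero_mul]

theorem hb_step {g h : Poly} {d n N : ℕ} (hg : g.totalDegree ≤ d) (hh : h.totalDegree ≤ d)
    (cop : IsRelPrime (homogeneousComponent d g) (homogeneousComponent d h))
    (ne : homogeneousComponent d h ≠ 0) (hN : n ≤ N) {Y0 Y1 : Poly}
    (h0 : Y0.totalDegree ≤ N + 1) (h1 : Y1.totalDegree ≤ N + 1)
    (hY : (Y0 * g + Y1 * h).totalDegree ≤ n + d) :
    ∃ Z0 Z1 : Poly, Z0.totalDegree ≤ N ∧ Z1.totalDegree ≤ N ∧
      Z0 * g + Z1 * h = Y0 * g + Y1 * h := by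
  have e : homogeneousComponent (N + 1 + d) (Y0 * g + Y1 * h) = 0 :=
    homogeneousComponent_eq_zero _ _ (by omega)
  rw [map_add, top_mul h0 hg, top_mul h1 hh] at e
  obtain ⟨c, c0, c1⟩ := syz_of cop ne e
  by_cases hc : c = 0
  · subst hc
    exact ⟨Y0, Y1, drop h0 (by rw [c0, zero_mul]), drop h1 (by rw [c1, zero_mul, neg_zero]), rfl⟩
  have hd : c.totalDegree + d = N + 1 := by
    have a1 := totalDegree_mul_of_isDomain hc ne
    rw [(homogeneousComponent_isHomogeneous d h).totalDegree ne, ← c0,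
      (homogeneousComponent_isHomogeneous _ _).totalDegree
        (by rw [c0]; exact mul_ne_zero hc ne)] at a1
    exact a1.symm
  have key : ∀ r : Poly, r.totalDegree ≤ d → (c * r).totalDegree ≤ N + 1 ∧
      homogeneousComponent (N + 1) (c * r) =
        homogeneousComponent (N + 1) (c * homogeneousComponent d r) := by
    intro r hr
    refine ⟨(totalDegree_mul _ _).trans (by omega), ?_⟩
    rw [← hd, top_mul le_rfl hr,
      top_mul le_rfl (homogeneousComponent_isHomogeneous d r).totalDegree_le,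
      homogeneousComponent_eq_self (homogeneousComponent_isHomogeneous d r)]
  refine ⟨Y0 - c * h, Y1 + c * g, drop ?_ ?_, drop ?_ ?_, by ring⟩
  · exact (totalDegree_sub _ _).trans (max_le h0 (key h hh).1)
  · rw [map_sub, (key h hh).2, ← c0,
      homogeneousComponent_eq_self (homogeneousComponent_isHomogeneous _ _), sub_self]
  · exact (totalDegree_add _ _).trans (max_le h1 (key g hg).1)
  · rw [map_add, (key g hg).2, ← neg_neg (c * homogeneousComponent d g), ← c1, map_neg,
      homogeneousComponent_eq_self (homogeneousComponent_isHomogeneous _ _), add_neg_cancel]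

theorem hb_all {g h : Poly} {d n : ℕ} (hg : g.totalDegree ≤ d) (hh : h.totalDegree ≤ d)
    (cop : IsRelPrime (homogeneousComponent d g) (homogeneousComponent d h))
    (ne : homogeneousComponent d h ≠ 0) (k : ℕ) : ∀ Y0 Y1 : Poly,
    Y0.totalDegree ≤ n + k → Y1.totalDegree ≤ n + k → (Y0 * g + Y1 * h).totalDegree ≤ n + d →
    ∃ Z0 Z1 : Poly, Z0.totalDegree ≤ n ∧ Z1.totalDegree ≤ n ∧
      Z0 * g + Z1 * h = Y0 * g + Y1 * h := by
  induction k with
  | zero => exact fun Y0 Y1 h0 h1 _ => ⟨Y0, Y1, h0, h1, rfl⟩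
  | succ k ih =>
    intro Y0 Y1 h0 h1 hY
    obtain ⟨Z0, Z1, z0, z1, e⟩ := hb_step hg hh cop ne (Nat.le_add_right n k) h0 h1 hY
    obtain ⟨W0, W1, w0, w1, e'⟩ := ih Z0 Z1 z0 z1 (e ▸ hY)
    exact ⟨W0, W1, w0, w1, e'.trans e⟩

end JacA

open JacA in
theorem rowJac : OfJac := by
  intro syl copr d l G L
  have hd := G.two
  have cop : IsRelPrime (homogeneousComponent d (pderiv 0 (ff l)))
      (homogeneousComponent d (pderiv 1 (ff l))) := by
    rw [topd, topd, L.top]
    exact copr ℂ d (fun m => (l m).1) (fun m => (l m).2.1) (by omega) G.gen.1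
  have nu : ∀ i, ¬ IsUnit (homogeneousComponent d (pderiv i (ff l))) := fun i hu => by
    have h0 := unit_deg hu
    rw [(homogeneousComponent_isHomogeneous _ _).totalDegree hu.ne_zero] at h0
    omega
  have ne : ∀ i, homogeneousComponent d (pderiv i (ff l)) ≠ 0 := by
    rw [Fin.forall_fin_two]
    constructor <;> intro h <;> rw [h] at cop
    · exact nu 1 (isRelPrime_zero_left.1 cop)
    · exact nu 0 (isRelPrime_zero_right.1 cop)
  have le : ∀ i, (pderiv i (ff l)).totalDegree ≤ d := deg_pderiv_le L.deg.le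
  have degd : ∀ i, (pderiv i (ff l)).totalDegree = d := fun i =>
    (le i).antisymm (not_lt.1 fun h => ne i (homogeneousComponent_eq_zero _ _ h))
  have ned : ∀ i, pderiv i (ff l) ≠ 0 := fun i h => ne i (by rw [h, map_zero])
  refine ⟨topd d _, cop, degd, ned, fun a b e => ?_, fun n Y0 Y1 hY => ?_, fun m hm => ?_⟩
  · exact syz_of (relPrime_of_top (ned 0) (ned 1) (by rw [degd, degd]; exact cop)) (ned 1) e
  · exact hb_all (le 0) (le 1) cop (ne 1) (max Y0.totalDegree Y1.totalDegree) Y0 Y1
      ((le_max_left _ _).trans (Nat.le_add_left _ _))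
      ((le_max_right _ _).trans (Nat.le_add_left _ _)) hY
  · rw [← topd, ← topd]
    exact syl ℂ d _ _ (by omega) (homogeneousComponent_isHomogeneous _ _)
      (homogeneousComponent_isHomogeneous _ _) cop m hm

end Pool.Agent.MP_aa1ef7_ag.H20
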