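import Pool.Agent.MP_aa1ef7_ag.H20.Spec

/-! The logarithm series and the operator `∇ s`. -/

namespace Pool.Agent.MP_aa1ef7_ag.H20

open MvPolynomial
open Pool.Agent.MP_aa1ef7_ag.H40

namespace LgA

lemma sub_add_add_comm' {R : Type} [AddCommGroup R] (a b c d : R) :
    a - b + (c + d) = a + c + (d - b) := by abel

/-- the inverse of `1 + α x + β y` -/
noncomputable def G (α β : ℂ) : Ser ℂ := fun e =>
  (-1) ^ (e 0 + e 1) * ((e 0 + e 1).choose (e 0) : ℂ) * α ^ e 0 * β ^ e 1

lemma coeff_G (α β : ℂ) (e : Fin 2 →₀ ℕ) : MvPowerSeries.coeff e (G α β) =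
    (-1) ^ (e 0 + e 1) * ((e 0 + e 1).choose (e 0) : ℂ) * α ^ e 0 * β ^ e 1 := rfl

lemma G_mul (α β : ℂ) : (1 + MvPowerSeries.C α * MvPowerSeries.X 0 +
    MvPowerSeries.C β * MvPowerSeries.X 1) * G α β = 1 := by
  ext e
  have h0 : e = 0 ↔ e 0 = 0 ∧ e 1 = 0 := by simp [Finsupp.ext_iff, Fin.forall_fin_two]
  simp only [add_mul, one_mul, mul_assoc, map_add, MvPowerSeries.coeff_C_mul, MvPowerSeries.X_def,
    MvPowerSeries.coeff_monomial_mul, Finsupp.single_le_iff, coeff_G, MvPowerSeries.coeff_one, h0,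
    Finsupp.tsub_apply, Finsupp.single_eq_same, ne_eq, zero_ne_one, one_ne_zero, not_false_eq_true,
    Finsupp.single_eq_of_ne, tsub_zero]
  generalize e 0 = i
  generalize e 1 = j
  rcases i with _ | i <;> rcases j with _ | j
  · simp
  · simp [pow_succ]
    ring
  · simp [pow_succ]
    ring
  · simp only [Nat.le_add_left, if_true, Nat.add_sub_cancel, Nat.add_eq_zero_iff, one_ne_zero,
      and_false, if_false]
    rw [show i + 1 + (j + 1) = i + (j + 1) + 1 by ring, show i + 1 + j = i + (j + 1) by ring,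
      Nat.choose_succ_succ']
    push_cast
    ring

lemma lgS : LgS := by
  intro d l p m
  refine ⟨by simp [cc, ← MvPowerSeries.coeff_zero_eq_constantCoeff_apply,
    MvPowerSeries.coeff_apply, lg], fun hc i => ?_⟩
  obtain ⟨c, hc'⟩ : ∃ c, c = eval p (lin (l m)) := ⟨_, rfl⟩
  have h1 : dS i (lg l p m) =
      MvPowerSeries.C (dir i (l m) / c) * G ((l m).1 / c) ((l m).2.1 / c) := by
    ext e
    rw [dS, MvPowerSeries.coeff_pderiv, MvPowerSeries.coeff_C_mul, coeff_G,
      MvPowerSeries.coeff_apply, lg, ← hc']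
    have hn : ((e 0 + e 1 : ℕ) : ℂ) + 1 ≠ 0 := Nat.cast_add_one_ne_zero _
    fin_cases i
    · have := congrArg (Nat.cast : ℕ → ℂ) (Nat.add_one_mul_choose_eq (e 0 + e 1) (e 0))
      simp only [Nat.cast_mul, Nat.cast_succ] at this
      simp [dir, add_right_comm (e 0) 1 (e 1), -Nat.cast_add, Nat.cast_succ]
      field_simp
      linear_combination (-(-1) ^ (e 0 + e 1) * ((l m).1 / c) ^ (e 0 + 1) *
        ((l m).2.1 / c) ^ e 1) * this
    · have := congrArg (Nat.cast : ℕ → ℂ) (Nat.choose_mul_succ_eq (e 0 + e 1) (e 0))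
      rw [show e 0 + e 1 + 1 - e 0 = e 1 + 1 by omega] at this
      simp only [Nat.cast_mul, Nat.cast_succ] at this
      simp [dir, ← add_assoc, -Nat.cast_add, Nat.cast_succ]
      field_simp
      linear_combination (-(-1) ^ (e 0 + e 1) * ((l m).1 / c) ^ e 0 *
        ((l m).2.1 / c) ^ (e 1 + 1)) * this
  have hc0 : c ≠ 0 := hc' ▸ hc
  have h2 : tay p (lin (l m)) = MvPowerSeries.C c * (1 + MvPowerSeries.C ((l m).1 / c) *
      MvPowerSeries.X 0 + MvPowerSeries.C ((l m).2.1 / c) * MvPowerSeries.X 1) := by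
    rw [mul_add, mul_add, ← mul_assoc, ← mul_assoc, ← map_mul, ← map_mul, mul_div_cancel₀ _ hc0,
      mul_div_cancel₀ _ hc0, hc']
    simp [tay, lin, MvPowerSeries.algebraMap_apply]
    ring
  rw [h1, h2, mul_mul_mul_comm, G_mul, mul_one, ← map_mul, mul_div_cancel₀ _ hc0]

lemma nabla : OfNabla := by
  intro hL d l H p b Y0 Y1 c hc hY
  have tC : ∀ a : ℂ, tay p (C a) = MvPowerSeries.C a := fun a => by
    simp [tay, MvPowerSeries.algebraMap_apply]
  have dC : ∀ (i) (a : ℂ), dS i (MvPowerSeries.C a : Ser ℂ) = 0 := fun i a =>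
    MvPowerSeries.pderiv_C
  have wf := fun n => congrArg (tay p) (H.wf n)
  have wd := fun n => congrArg (tay p) (H.wdiv n)
  simp only [map_mul, map_sub, tC, ← dS_tay] at wf wd
  refine ⟨tay p Y0 - ∑ m, ∑ n, Polynomial.aeval (tay p (ff l)) (c m n) *
      (lg l p m * (MvPowerSeries.C (l n).2.1 * tay p (gI l {n}))),
    tay p Y1 + ∑ m, ∑ n, Polynomial.aeval (tay p (ff l)) (c m n) *
      (lg l p m * (MvPowerSeries.C (l n).1 * tay p (gI l {n}))), ?_, ?_⟩
  · have := congrArg (tay p) hY
    simp only [map_mul, map_add, ← dS_tay] at this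
    rw [ev, mul_add, ← this, sub_mul, add_mul, sub_add_add_comm', add_right_inj]
    simp only [Finset.sum_mul, Finset.mul_sum, ← Finset.sum_sub_distrib]
    refine Finset.sum_congr rfl fun m _ => Finset.sum_congr rfl fun n _ => ?_
    linear_combination Polynomial.aeval (tay p (ff l)) (c m n) * lg l p m * wf n
  · rw [ev, th0, map_sub, map_add, map_add, map_add, ← dS_tay, ← dS_tay, sub_add_add_comm',
      add_assoc _ (tay p _), add_right_inj]
    simp only [map_sum, ← Finset.sum_sub_distrib, ← Finset.sum_add_distrib]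
    refine Finset.sum_congr rfl fun m _ => Finset.sum_congr rfl fun n _ => ?_
    by_cases h : c m n = 0
    · simp [h, th1]
    have h1 := (hL d l p m).2 (hc m n h)
    have h2 : tay p (lin (l m)) ≠ 0 := fun e => hc m n h (by rw [← cc_tay, e]; simp [cc])
    have h3 := congrArg (tay p) (H.wgam m n)
    simp only [map_mul, map_sub, tC] at h3
    have h4 : tay p (gI l {n}) * (MvPowerSeries.C (l n).1 * dS 1 (lg l p m) -
        MvPowerSeries.C (l n).2.1 * dS 0 (lg l p m)) = tay p (gam l m n) :=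
      mul_left_cancel₀ h2 (by
        have a0 : _ = MvPowerSeries.C (l m).1 := h1 0
        have a1 : _ = MvPowerSeries.C (l m).2.1 := h1 1
        linear_combination -h3 + tay p (gI l {n}) * MvPowerSeries.C (l n).1 * a1 -
          tay p (gI l {n}) * MvPowerSeries.C (l n).2.1 * a0)
    simp only [th1, Derivation.leibniz, Derivation.map_aeval, smul_eq_mul, dC, map_mul, map_add,
      Polynomial.derivative_mul, Polynomial.derivative_X, Polynomial.aeval_X, map_one,
      ← Polynomial.aeval_algHom_apply]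
    linear_combination Polynomial.aeval (tay p (ff l)) (c m n) * h4 +
      Polynomial.aeval (tay p (ff l)) (c m n) * lg l p m * wd n +
      Polynomial.aeval (tay p (ff l)) (Polynomial.derivative (c m n)) * lg l p m * wf n

end LgA

theorem rowLg : LgS ∧ OfNabla := ⟨LgA.lgS, LgA.nabla⟩

end Pool.Agent.MP_aa1ef7_ag.H20
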