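import Pool.Agent.MP_aa1ef7_ag.H20.Spec

/-! Elementary facts on an arrangement of lines in general position. -/

namespace Pool.Agent.MP_aa1ef7_ag.H20

open MvPolynomial
open Pool.Agent.MP_aa1ef7_ag.H40

namespace LinA

theorem eval_lin (p : Fin 2 → ℂ) (a : ℂ × ℂ × ℂ) :
    eval p (lin a) = a.1 * p 0 + a.2.1 * p 1 + a.2.2 := by simp [lin]

theorem pd0 (a : ℂ × ℂ × ℂ) : pderiv 0 (lin a) = C a.1 := by simp [lin, pderiv_X]

theorem pd1 (a : ℂ × ℂ × ℂ) : pderiv 1 (lin a) = C a.2.1 := by simp [lin, pderiv_X]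

theorem deg_lin (a : ℂ × ℂ × ℂ) : (lin a).totalDegree ≤ 1 := by
  refine (totalDegree_add _ _).trans (max_le ((totalDegree_add _ _).trans (max_le ?_ ?_)) ?_)
  · exact (totalDegree_mul _ _).trans (by simp)
  · exact (totalDegree_mul _ _).trans (by simp)
  · simp

theorem der_prod {ι : Type} [DecidableEq ι] (D : Derivation ℂ Poly Poly) (g : ι → Poly)
    (s : Finset ι) : D (∏ k ∈ s, g k) = ∑ m ∈ s, (∏ k ∈ s.erase m, g k) * D (g m) := by
  induction s using Finset.induction_on with
  | empty => simp
  | insert a s ha ih =>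
    rw [Finset.prod_insert ha, Finset.sum_insert ha, Finset.erase_insert ha, Derivation.leibniz,
      ih, smul_eq_mul, smul_eq_mul, Finset.mul_sum, add_comm]
    congr 1
    refine Finset.sum_congr rfl fun m hm => ?_
    have hne : a ≠ m := fun h => ha (h ▸ hm)
    rw [Finset.erase_insert_of_ne hne,
      Finset.prod_insert fun h => ha (Finset.mem_of_mem_erase h), mul_assoc]

variable {d : ℕ} (l : Fin (d + 1) → ℂ × ℂ × ℂ)

theorem gI_single (n : Fin (d + 1)) : gI l {n} = ∏ k ∈ Finset.univ.erase n, lin (l k) := by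
  rw [gI, Finset.compl_singleton]

theorem ff_single (n : Fin (d + 1)) : ff l = lin (l n) * gI l {n} := by
  rw [ff_eq l {n}, Finset.prod_singleton]

theorem gam_self (n : Fin (d + 1)) : gam l n n = 0 := by simp [gam]

theorem gam_anti (m n : Fin (d + 1)) : gam l m n = -gam l n m := by
  rw [gam, gam, Finset.erase_right_comm, ← neg_mul, ← map_neg, neg_sub]

theorem wgam (m n : Fin (d + 1)) : lin (l m) * gam l m n =
    C ((l n).1 * (l m).2.1 - (l m).1 * (l n).2.1) * gI l {n} := by
  by_cases h : m = n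
  · subst h
    simp [gam]
  · rw [gam, gI_single, Finset.erase_right_comm, mul_left_comm,
      Finset.mul_prod_erase _ (fun k => lin (l k)) (by simpa using h)]

theorem wdiv (n : Fin (d + 1)) :
    C (l n).1 * pderiv 1 (gI l {n}) - C (l n).2.1 * pderiv 0 (gI l {n}) = bet l n := by
  rw [gI_single, der_prod, der_prod, bet, 
    ← Finset.sum_erase (f := fun m => gam l m n) Finset.univ (gam_self l n),
    Finset.mul_sum, Finset.mul_sum, ← Finset.sum_sub_distrib]
  refine Finset.sum_congr rfl fun m _ => ?_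
  rw [pd0, pd1, gam, Finset.erase_right_comm (a := m), map_sub, map_mul, map_mul]
  ring

theorem wlin (n : Fin (d + 1)) :
    C (l n).1 * pderiv 1 (ff l) - C (l n).2.1 * pderiv 0 (ff l) = lin (l n) * bet l n := by
  rw [← wdiv, ff_single l n, Derivation.leibniz, Derivation.leibniz, pd0, pd1]
  simp only [smul_eq_mul]
  ring

theorem hbet (n : Fin (d + 1)) : lin (l n) * bet l n = DP l (lin (l n)) := by
  rw [← wlin, DP, br, dP, dP, pd0, pd1]
  ring

theorem wf (n : Fin (d + 1)) :
    gI l {n} * (C (l n).1 * pderiv 1 (ff l) - C (l n).2.1 * pderiv 0 (ff l)) = ff l * bet l n := by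
  rw [wlin, ff_single l n]
  ring

theorem betsum : ∑ n, bet l n = 0 := by
  have h : ∑ n, bet l n = -∑ n, bet l n := by
    simp only [bet]
    rw [← Finset.sum_neg_distrib, Finset.sum_comm]
    refine Finset.sum_congr rfl fun m _ => ?_
    rw [← Finset.sum_neg_distrib]
    exact Finset.sum_congr rfl fun n _ => gam_anti l m n
  exact self_eq_neg.1 h

theorem gamdeg (m n : Fin (d + 1)) : (gam l m n).totalDegree ≤ d - 1 := by
  by_cases h : m = n
  · rw [h, gam_self]; simp
  refine (totalDegree_mul _ _).trans ?_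
  rw [totalDegree_C, zero_add]
  refine (totalDegree_finsetProd _ _).trans
    ((Finset.sum_le_card_nsmul _ _ 1 fun k _ => deg_lin _).trans ?_)
  rw [Finset.card_erase_of_mem (by simpa using Ne.symm h), Finset.card_erase_of_mem (by simp)]
  simp

theorem betdeg (n : Fin (d + 1)) : (bet l n).totalDegree ≤ d - 1 :=
  totalDegree_finsetSum_le fun m _ => gamdeg l m n

/-! ### The top form -/

theorem hom_top (a : ℂ × ℂ × ℂ) : (C a.1 * X 0 + C a.2.1 * X 1 : Poly).IsHomogeneous 1 :=
  ((isHomogeneous_X ℂ 0).C_mul _).add ((isHomogeneous_X ℂ 1).C_mul _)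

theorem hom_prod (s : Finset (Fin (d + 1))) :
    (∏ m ∈ s, (C (l m).1 * X 0 + C (l m).2.1 * X 1) : Poly).IsHomogeneous s.card := by
  simpa using IsHomogeneous.prod s _ (fun _ => 1) fun m _ => hom_top (l m)

theorem rest_lt {s : Finset (Fin (d + 1))} (hs : s.Nonempty) :
    ((∏ m ∈ s, lin (l m)) - ∏ m ∈ s, (C (l m).1 * X 0 + C (l m).2.1 * X 1)).totalDegree <
      s.card := by
  induction hs using Finset.Nonempty.cons_induction with
  | singleton a => simp [lin]
  | cons a s ha hs ih =>
    rw [Finset.prod_cons, Finset.prod_cons, Finset.card_cons]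
    have e : lin (l a) * ∏ m ∈ s, lin (l m) - (C (l a).1 * X 0 + C (l a).2.1 * X 1) *
        ∏ m ∈ s, (C (l m).1 * X 0 + C (l m).2.1 * X 1) =
        lin (l a) * ((∏ m ∈ s, lin (l m)) - ∏ m ∈ s, (C (l m).1 * X 0 + C (l m).2.1 * X 1)) +
          C (l a).2.2 * ∏ m ∈ s, (C (l m).1 * X 0 + C (l m).2.1 * X 1) := by
      rw [lin]; ring
    rw [e]
    refine (totalDegree_add _ _).trans_lt (max_lt ((totalDegree_mul _ _).trans_lt ?_)
      ((totalDegree_mul _ _).trans_lt ?_))
    · have := deg_lin (l a)
      omega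
    · have := (hom_prod l s).totalDegree_le
      rw [totalDegree_C]
      omega

theorem top : homogeneousComponent (d + 1) (ff l) =
    ∏ m, (C (l m).1 * X 0 + C (l m).2.1 * X 1) := by
  have h1 := homogeneousComponent_eq_zero _ _ (rest_lt l Finset.univ_nonempty)
  have h2 := homogeneousComponent_eq_self (hom_prod l Finset.univ)
  rw [map_sub, h2, sub_eq_zero, Finset.card_univ, Fintype.card_fin] at h1
  exact h1

/-! ### Restriction to a line -/

theorem reslin (i m : Fin (d + 1)) : res l i (lin (l m)) =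
    Polynomial.C ((l m).1 * (l i).2.1 - (l m).2.1 * (l i).1) * Polynomial.X +
      Polynomial.C ((l m).2.2 - (l m).2.1 * (l i).2.2 / (l i).2.1) := by
  simp only [res, lin, map_add, map_mul, aeval_C, aeval_X, Polynomial.algebraMap_apply,
    Algebra.algebraMap_self_apply, Matrix.cons_val_zero, Matrix.cons_val_one, map_sub,
    div_eq_mul_inv, map_neg, neg_mul]
  ring

theorem resder (i : Fin (d + 1)) (r : Poly) :
    res l i (C (l i).2.1 * pderiv 0 r - C (l i).1 * pderiv 1 r) =
      Polynomial.derivative (res l i r) := by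
  refine leib_ext (res l i).toRingHom
    (fun r => res l i (C (l i).2.1 * pderiv 0 r - C (l i).1 * pderiv 1 r))
    (fun r => Polynomial.derivative (res l i r)) (fun a b => ?_) (fun a b => by simp)
    (fun a b => ?_) (fun a b => ?_) (fun a => by simp [res]) (fun m => ?_) r
  · simp only [map_add, map_sub, map_mul]; ring
  · simp only [Derivation.leibniz, smul_eq_mul, map_add, map_sub, map_mul,
      AlgHom.toRingHom_eq_coe, RingHom.coe_coe]
    ring
  · simp only [map_mul, Polynomial.derivative_mul, AlgHom.toRingHom_eq_coe, RingHom.coe_coe]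
    ring
  · fin_cases m <;> simp [res, pderiv_X]

/-- a section of the restriction -/
noncomputable def sec (i : Fin (d + 1)) : Polynomial ℂ →ₐ[ℂ] Poly :=
  Polynomial.aeval (C (l i).2.1⁻¹ * X 0)

/-- the intersection point of two lines -/
noncomputable def pt (i j : Fin (d + 1)) : Fin 2 → ℂ :=
  ![((l i).2.1 * (l j).2.2 - (l j).2.1 * (l i).2.2) / ((l i).1 * (l j).2.1 - (l j).1 * (l i).2.1),
    ((l j).1 * (l i).2.2 - (l i).1 * (l j).2.2) / ((l i).1 * (l j).2.1 - (l j).1 * (l i).2.1)]

theorem ff_two {i j : Fin (d + 1)} (h : i ≠ j) :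
    ff l = lin (l i) * (lin (l j) * ∏ k ∈ (Finset.univ.erase i).erase j, lin (l k)) := by
  rw [Finset.mul_prod_erase (Finset.univ.erase i) (fun k => lin (l k)) (by simpa using h.symm),
    ← gI_single, ← ff_single]

variable {l}

theorem nodecrit {i j : Fin (d + 1)} {p : Fin 2 → ℂ} (h : Node l i j p) : Crit l p := by
  intro s
  rw [ff_two l h.1]
  simp only [Derivation.leibniz, smul_eq_mul, map_add, map_mul, h.2.1, h.2.2]
  ring

theorem gam_node {i j : Fin (d + 1)} {p : Fin 2 → ℂ} (h : Node l i j p) (m n : Fin (d + 1)) :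
    eval p (gam l m n) =
      if m = i ∧ n = j then eval p (gam l i j) else if m = j ∧ n = i then -eval p (gam l i j)
      else 0 := by
  split_ifs with h1 h2
  · rw [h1.1, h1.2]
  · rw [h2.1, h2.2, gam_anti, map_neg]
  · have key : ∀ k, eval p (lin (l k)) = 0 → k ≠ m → k ≠ n → eval p (gam l m n) = 0 := by
      intro k hk a b
      rw [gam, map_mul, map_prod, Finset.prod_eq_zero (i := k) (by simp [a, b]) hk, mul_zero]
    have hij := h.1
    by_cases a1 : i = m
    · exact key j h.2.2 (fun e => hij (a1.trans e.symm)) fun e => h1 ⟨a1.symm, e.symm⟩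
    by_cases a2 : i = n
    · exact key j h.2.2 (fun e => h2 ⟨e.symm, a2.symm⟩) fun e => hij (a2.trans e.symm)
    exact key i h.2.1 a1 a2

theorem bet_node {i j : Fin (d + 1)} {p : Fin 2 → ℂ} (h : Node l i j p) (n : Fin (d + 1)) :
    eval p (bet l n) =
      if n = j then eval p (gam l i j) else if n = i then -eval p (gam l i j) else 0 := by
  rw [bet, map_sum, Finset.sum_congr rfl fun m _ => gam_node h m n]
  by_cases a1 : n = j
  · have a2 : n ≠ i := fun e => h.1 (e.symm.trans a1)
    simp [a1, a1 ▸ a2]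
  · by_cases a2 : n = i
    · simp [a2, a2 ▸ a1]
    · simp [a1, a2]

variable (G : Geo l)
include G

theorem lin_ne (m : Fin (d + 1)) : lin (l m) ≠ 0 := by
  intro h
  have := pd1 (l m)
  rw [h, map_zero] at this
  exact G.bne m (C_eq_zero.1 this.symm)

theorem ff_ne : ff l ≠ 0 := Finset.prod_ne_zero_iff.2 fun m _ => lin_ne G m

theorem deg : (ff l).totalDegree = d + 1 := by
  refine le_antisymm (deg_ff_le l) (not_lt.1 fun h => ?_)
  have h1 := homogeneousComponent_eq_zero _ _ h
  rw [top, Finset.prod_eq_zero_iff] at h1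
  obtain ⟨m, -, hm⟩ := h1
  have := congrArg (pderiv 1) hm
  simp [pderiv_X, G.bne m] at this

theorem aeval_aux (n : ℕ) : ∀ c : Polynomial ℂ, c ≠ 0 → c.natDegree = n →
    Polynomial.aeval (ff l) c ≠ 0 ∧ (Polynomial.aeval (ff l) c).totalDegree = (d + 1) * n := by
  induction n with
  | zero =>
    intro c hc h
    rw [Polynomial.eq_C_of_natDegree_eq_zero h] at hc ⊢
    simpa using hc
  | succ n ih =>
    intro c _ h
    have h1 : c.divX.natDegree = n := by
      rw [Polynomial.natDegree_divX_eq_natDegree_tsub_one, h]; rfl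
    have h2 : c.divX ≠ 0 := by
      intro e
      rw [← c.divX_mul_X_add, e] at h
      simp at h
    obtain ⟨h3, h4⟩ := ih _ h2 h1
    have h5 := totalDegree_mul_of_isDomain h3 (ff_ne G)
    rw [h4, deg G] at h5
    have h6 : (Polynomial.aeval (ff l) c).totalDegree = (d + 1) * (n + 1) := by
      rw [← c.divX_mul_X_add, map_add, map_mul, Polynomial.aeval_X, Polynomial.aeval_C,
        algebraMap_eq, totalDegree_add_eq_left_of_totalDegree_lt, h5, mul_add, mul_one]
      rw [h5, totalDegree_C]
      omega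
    refine ⟨fun e => ?_, h6⟩
    rw [e, totalDegree_zero] at h6
    exact absurd h6.symm (by positivity)

theorem aevalinj : Function.Injective (Polynomial.aeval (ff l) : Polynomial ℂ →ₐ[ℂ] Poly) :=
  (injective_iff_map_eq_zero _).2 fun c h => by
    by_contra hc
    exact (aeval_aux G _ c hc rfl).1 h

theorem aevaldeg (c : Polynomial ℂ) :
    (Polynomial.aeval (ff l) c).totalDegree = (d + 1) * c.natDegree := by
  by_cases hc : c = 0
  · simp [hc]
  · exact (aeval_aux G _ c hc rfl).2

theorem res_sec (i : Fin (d + 1)) (q : Polynomial ℂ) : res l i (sec l i q) = q := by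
  have h : res l i (C (l i).2.1⁻¹ * X 0) = Polynomial.X := by
    simp only [res, map_mul, aeval_C, aeval_X, Polynomial.algebraMap_apply,
      Algebra.algebraMap_self_apply, Matrix.cons_val_zero]
    rw [← mul_assoc, ← map_mul, inv_mul_cancel₀ (G.bne i), map_one, one_mul]
  rw [sec, ← Polynomial.aeval_algHom_apply, h, Polynomial.aeval_X_left_apply]

theorem dvd_sub_sec (i : Fin (d + 1)) (r : Poly) : lin (l i) ∣ r - sec l i (res l i r) := by
  have hb : (C (l i).2.1 : Poly) * C (l i).2.1⁻¹ = 1 := by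
    rw [← map_mul, mul_inv_cancel₀ (G.bne i), map_one]
  induction r using MvPolynomial.induction_on with
  | C a => simp [res, sec]
  | add p q hp hq =>
    rw [map_add, map_add, add_sub_add_comm]
    exact dvd_add hp hq
  | mul_X p m hp =>
    have hX : lin (l i) ∣ X m - sec l i (res l i (X m)) := by
      fin_cases m
      · refine ⟨0, ?_⟩
        simp only [res, sec, Fin.zero_eta, aeval_X, Matrix.cons_val_zero, map_mul,
          Polynomial.aeval_C, Polynomial.aeval_X, algebraMap_eq]
        linear_combination (-X 0 : Poly) * hb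
      · refine ⟨C (l i).2.1⁻¹, ?_⟩
        simp only [res, sec, lin, Fin.mk_one, aeval_X, Matrix.cons_val_one, Matrix.cons_val_zero,
          map_mul, map_sub, Polynomial.aeval_C, Polynomial.aeval_X, algebraMap_eq,
          div_eq_mul_inv, map_neg]
        linear_combination (-X 1 : Poly) * hb
    have e : p * X m - sec l i (res l i (p * X m)) =
        (p - sec l i (res l i p)) * X m + sec l i (res l i p) * (X m - sec l i (res l i (X m))) := by
      rw [map_mul, map_mul]; ring
    rw [e]
    exact dvd_add (hp.mul_right _) (hX.mul_left _)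

theorem res_self (i : Fin (d + 1)) : res l i (lin (l i)) = 0 := by
  have hb := G.bne i
  rw [reslin, show (l i).1 * (l i).2.1 - (l i).2.1 * (l i).1 = 0 by ring,
    show (l i).2.2 - (l i).2.1 * (l i).2.2 / (l i).2.1 = 0 by field_simp; ring]
  simp

theorem resker (i : Fin (d + 1)) (r : Poly) : res l i r = 0 ↔ lin (l i) ∣ r := by
  constructor
  · intro h
    have := dvd_sub_sec G i r
    rwa [h, map_zero, sub_zero] at this
  · rintro ⟨q, rfl⟩
    rw [map_mul, res_self G, zero_mul]

theorem prime (m : Fin (d + 1)) : Prime (lin (l m)) := by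
  refine ⟨lin_ne G m, fun h => ?_, fun a b h => ?_⟩
  · have := h.map (res l m)
    rw [res_self G] at this
    exact not_isUnit_zero this
  · rwa [← resker G, map_mul, mul_eq_zero, resker G, resker G] at h

theorem det_ne {i m : Fin (d + 1)} (h : i ≠ m) :
    (l m).1 * (l i).2.1 - (l m).2.1 * (l i).1 ≠ 0 := by
  have := G.gen.1 m i h.symm
  rwa [mul_comm (l i).1] at this

theorem ndvd (m n : Fin (d + 1)) (h : m ≠ n) : ¬ lin (l m) ∣ lin (l n) := by
  rw [← resker G, reslin]
  intro e
  have := congrArg (fun q => Polynomial.coeff q 1) e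
  simp only [Polynomial.coeff_add, Polynomial.coeff_C_mul, Polynomial.coeff_X_one, mul_one,
    Polynomial.coeff_C_succ, add_zero, Polynomial.coeff_zero] at this
  exact det_ne G h this

theorem reseval (i : Fin (d + 1)) (p : Fin 2 → ℂ) (hp : eval p (lin (l i)) = 0) (r : Poly) :
    (res l i r).eval (p 0 / (l i).2.1) = eval p r := by
  have hb := G.bne i
  rw [eval_lin] at hp
  induction r using MvPolynomial.induction_on with
  | C a => simp [res]
  | add a b ha hb => simp only [map_add, Polynomial.eval_add, ha, hb]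
  | mul_X a m ha =>
    rw [map_mul, map_mul, Polynomial.eval_mul, ha]
    congr 1
    fin_cases m
    · simp [res]
      field_simp
    · simp [res]
      field_simp
      linear_combination -hp

theorem node_pt {i j : Fin (d + 1)} (h : i ≠ j) : Node l i j (pt l i j) := by
  have hD := G.gen.1 i j h
  have hI := mul_inv_cancel₀ hD
  refine ⟨h, ?_, ?_⟩ <;> rw [eval_lin, pt] <;>
    simp only [Matrix.cons_val_zero, Matrix.cons_val_one, div_eq_mul_inv]
  · linear_combination (-(l i).2.2) * hI
  · linear_combination (-(l j).2.2) * hI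

theorem nodeoff {i j : Fin (d + 1)} {p : Fin 2 → ℂ} (h : Node l i j p) (m : Fin (d + 1))
    (hi : m ≠ i) (hj : m ≠ j) : eval p (lin (l m)) ≠ 0 := fun e =>
  G.gen.2 i j m h.1 hi.symm hj.symm p ⟨h.2.1, h.2.2, e⟩

theorem rest_ne {i j : Fin (d + 1)} {p : Fin 2 → ℂ} (h : Node l i j p) :
    eval p (∏ k ∈ (Finset.univ.erase i).erase j, lin (l k)) ≠ 0 := by
  rw [map_prod]
  refine Finset.prod_ne_zero_iff.2 fun m hm => ?_
  simp only [Finset.mem_erase] at hm
  exact nodeoff G h m hm.2.1 hm.1

theorem nodehess {i j : Fin (d + 1)} {p : Fin 2 → ℂ} (h : Node l i j p) :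
    hess (tay p (ff l)) ≠ 0 := by
  have hU := rest_ne G h
  have hD := G.gen.1 i j h.1
  have e : hess (tay p (ff l)) = -(((l i).1 * (l j).2.1 - (l j).1 * (l i).2.1) *
      eval p (∏ k ∈ (Finset.univ.erase i).erase j, lin (l k))) ^ 2 := by
    simp only [hess, dS_tay, cc_tay]
    rw [ff_two l h.1]
    generalize (∏ k ∈ (Finset.univ.erase i).erase j, lin (l k)) = U
    simp only [Derivation.leibniz, smul_eq_mul, map_add, map_mul, pd0, pd1, derivation_C,
      h.2.1, h.2.2, eval_C, map_zero]
    ring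
  rw [e]
  exact neg_ne_zero.2 (pow_ne_zero _ (mul_ne_zero hD hU))

theorem gam_ne {i j : Fin (d + 1)} {p : Fin 2 → ℂ} (h : Node l i j p) :
    eval p (gam l i j) ≠ 0 := by
  rw [gam, map_mul, eval_C]
  exact mul_ne_zero (G.gen.1 j i h.1.symm) (rest_ne G h)

theorem cls (p : Fin 2 → ℂ) (h : Crit l p) : Face l p ∨ ∃ i j, Node l i j p := by
  by_cases h0 : ∀ m, eval p (lin (l m)) ≠ 0
  · exact Or.inl ⟨h, h0⟩
  right
  obtain ⟨i, hi⟩ := not_forall.1 h0
  rw [not_not] at hi
  have h1 := h 1
  rw [ff_single l i] at h1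
  simp only [Derivation.leibniz, smul_eq_mul, map_add, map_mul, pd1, hi, eval_C, zero_mul,
    zero_add, mul_eq_zero, G.bne i, or_false] at h1
  rw [gI_single, map_prod, Finset.prod_eq_zero_iff] at h1
  obtain ⟨j, hj, h2⟩ := h1
  exact ⟨i, j, (Finset.ne_of_mem_erase hj).symm, hi, h2⟩

theorem res_factor {k j : Fin (d + 1)} (h : k ≠ j) : res l k (lin (l j)) =
    Polynomial.C ((l j).1 * (l k).2.1 - (l j).2.1 * (l k).1) *
      (Polynomial.X - Polynomial.C (pt l k j 0 / (l k).2.1)) := by
  have h1 := reseval G k _ (node_pt G h).2.1 (lin (l j))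
  rw [(node_pt G h).2.2, reslin] at h1
  simp only [Polynomial.eval_add, Polynomial.eval_mul, Polynomial.eval_C, Polynomial.eval_X] at h1
  rw [reslin, mul_sub (Polynomial.C _), ← map_mul, sub_eq_add_neg (Polynomial.C _ * _), ← map_neg,
    eq_neg_of_add_eq_zero_right h1]

theorem glue (ρ : Fin (d + 1) → Poly)
    (hρ : ∀ i j p, Node l i j p → eval p (ρ i) = eval p (ρ j)) (S : Finset (Fin (d + 1))) :
    ∃ A : Poly, ∀ i ∈ S, lin (l i) ∣ ρ i - A := by
  induction S using Finset.induction_on with
  | empty => exact ⟨0, by simp⟩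
  | insert k S hk ih =>
    obtain ⟨A, hA⟩ := ih
    have hne : ∀ j ∈ S, k ≠ j := fun j hj e => hk (e ▸ hj)
    have h1 : (∏ j ∈ S, (Polynomial.X - Polynomial.C (pt l k j 0 / (l k).2.1))) ∣
        res l k (ρ k - A) := by
      refine Finset.prod_dvd_of_coprime (fun a ha b hb hab => ?_) fun j hj => ?_
      · refine Polynomial.isCoprime_X_sub_C_of_isUnit_sub (Ne.isUnit (sub_ne_zero.2 fun e => ?_))
        have na := node_pt G (hne a ha)
        have nb := node_pt G (hne b hb)
        refine nodeoff G na b (hne b hb).symm (Ne.symm hab) ?_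
        rw [← reseval G k _ na.2.1, e, reseval G k _ nb.2.1, nb.2.2]
      · have nj := node_pt G (hne j hj)
        obtain ⟨q, hq⟩ := hA j hj
        rw [Polynomial.dvd_iff_isRoot, Polynomial.IsRoot.def, reseval G k _ nj.2.1, map_sub,
          hρ k j _ nj, ← map_sub, hq, map_mul, nj.2.2, zero_mul]
    have h2 : res l k (∏ j ∈ S, lin (l j)) ∣ res l k (ρ k - A) := by
      rw [map_prod, Finset.prod_congr rfl fun j hj => res_factor G (hne j hj),
        Finset.prod_mul_distrib, ← map_prod, IsUnit.mul_left_dvd]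
      · exact h1
      · exact Polynomial.isUnit_C.2
          (Ne.isUnit (Finset.prod_ne_zero_iff.2 fun j hj => det_ne G (hne j hj)))
    obtain ⟨w, hw⟩ := h2
    refine ⟨A + (∏ j ∈ S, lin (l j)) * sec l k w, fun i hi => ?_⟩
    rw [← sub_sub]
    rcases Finset.mem_insert.1 hi with rfl | hi
    · rw [← resker G, map_sub, hw, map_mul, res_sec G, sub_self]
    · exact dvd_sub (hA i hi) ((Finset.dvd_prod_of_mem _ hi).mul_right _)

end LinA

theorem rowLin : LinS := fun _ l G =>
  { prime := LinA.prime G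
    ndvd := LinA.ndvd G
    ne := LinA.ff_ne G
    deg := LinA.deg G
    top := LinA.top l
    bet := LinA.hbet l
    betsum := LinA.betsum l
    wf := LinA.wf l
    wdiv := LinA.wdiv l
    wgam := LinA.wgam l
    aevalinj := LinA.aevalinj G
    aevaldeg := LinA.aevaldeg G
    gamdeg := LinA.gamdeg l
    betdeg := LinA.betdeg l
    node := fun _ _ h => ⟨_, LinA.node_pt G h⟩
    nodeoff := fun _ _ _ h => LinA.nodeoff G h
    nodecrit := fun _ _ _ h => LinA.nodecrit h
    nodehess := fun _ _ _ h => LinA.nodehess G h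
    nodebet := fun _ _ _ h => ⟨LinA.gam_ne G h, LinA.gam_node h, LinA.bet_node h⟩
    cls := LinA.cls G
    resker := LinA.resker G
    resder := LinA.resder l
    reslin := LinA.reslin l
    reseval := LinA.reseval G
    ressurj := fun i q => ⟨_, LinA.res_sec G i q⟩
    glue := fun ρ h => (LinA.glue G ρ h Finset.univ).imp fun _ hA i => hA i (Finset.mem_univ i) }

end Pool.Agent.MP_aa1ef7_ag.H20
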