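import Pool.Agent.MP_aa1ef7_ag.G.LocA

/-! The local normal form along a diagonalisable field and the local obstruction. -/

namespace Pool.Agent.MP_aa1ef7_ag.H20

open MvPolynomial
open Pool.Agent.MP_aa1ef7_ag.H40

namespace LocA

variable {K : Type} [CommRing K]

theorem step [Algebra ℚ K] (hG : GradS) {P Q σ : Ser K} {u : K} (hD : Diag P Q) (hu : IsUnit u)
    (hσ : Ord 3 (σ - MvPowerSeries.C u * qf P Q)) (m : ℕ) (H : Ser K) :
    ∃ (A : Pl K) (ρ : K), A.IsHomogeneous m ∧ (Odd m → ρ = 0) ∧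
      (Ord m H → Ord (m + 1) (H - vD P Q (ph A) - MvPowerSeries.C ρ * σ ^ (m / 2))) ∧
      (Ord (m + 1) H → A = 0 ∧ ρ = 0) := by
  by_cases h1 : Ord (m + 1) H
  · exact ⟨0, 0, isHomogeneous_zero _ _ _, fun _ => rfl, fun _ => by simpa using h1,
      fun _ => ⟨rfl, rfl⟩⟩
  by_cases h0 : Ord m H
  · obtain ⟨B, hB, hHB⟩ := exists_hom h0
    obtain ⟨A, ρ', hA, ho, hBA⟩ := (grad hG hD m).1 B hB
    obtain ⟨ρ, ho', hρ⟩ := pw hu hσ m ρ' ho
    refine ⟨A, ρ, hA, ho', fun _ => ?_, fun h => absurd h h1⟩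
    have e : H - vD P Q (ph A) - MvPowerSeries.C ρ * σ ^ (m / 2) =
        (H - ph B) - (vD P Q (ph A) - ph (LL P Q A)) +
          (ph (C ρ' * qq P Q ^ (m / 2)) - MvPowerSeries.C ρ * σ ^ (m / 2)) := by
      rw [hBA, map_add]; ring
    rw [e]
    exact ord_add (ord_sub hHB (ord_vD_ph hD hA)) hρ
  · exact ⟨0, 0, isHomogeneous_zero _ _ _, fun _ => rfl, fun h => absurd h h0,
      fun _ => ⟨rfl, rfl⟩⟩

theorem exists_glue (B : ℕ → Pl K) (hB : ∀ m, (B m).IsHomogeneous m) :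
    ∃ A : Ser K, ∀ M, Ord M (A - ph (∑ m ∈ Finset.range M, B m)) := by
  refine ⟨fun e => coeff e (B (e 0 + e 1)), fun M e he => ?_⟩
  rw [map_sub, coeff_ph, coeff_sum, Finset.sum_eq_single (e 0 + e 1)
    (fun m _ hm => hom_coeff (hB m) (Ne.symm hm))
    (fun h => absurd (Finset.mem_range.mpr he) h)]
  exact sub_self _

theorem subst_split {σ : Ser K} (hσ : cc σ = 0) (c : ℕ → K) (M : ℕ) :
    ∃ R : Ser K, PowerSeries.subst σ (PowerSeries.mk c) =
      ∑ k ∈ Finset.range M, MvPowerSeries.C (c k) * σ ^ k + σ ^ M * R := by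
  have hs : PowerSeries.HasSubst σ := PowerSeries.HasSubst.of_constantCoeff_zero hσ
  have hd : (PowerSeries.X : PowerSeries K) ^ M ∣
      PowerSeries.mk c - ∑ k ∈ Finset.range M, PowerSeries.C (c k) * PowerSeries.X ^ k := by
    rw [PowerSeries.X_pow_dvd_iff]
    intro m hm
    simp only [map_sub, map_sum, PowerSeries.coeff_mk, PowerSeries.coeff_C_mul,
      PowerSeries.coeff_X_pow, mul_ite, mul_one, mul_zero]
    rw [Finset.sum_ite_eq, if_pos (Finset.mem_range.mpr hm), sub_self]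
  obtain ⟨r, hr⟩ := hd
  refine ⟨PowerSeries.subst σ r, ?_⟩
  rw [eq_add_of_sub_eq' hr, ← PowerSeries.coe_substAlgHom hs]
  simp only [map_add, map_sum, map_mul, map_pow, PowerSeries.substAlgHom_X]
  simp only [PowerSeries.coe_substAlgHom, PowerSeries.subst_C]

theorem sum_even (σ : Ser K) (ρ : ℕ → K) (h : ∀ m, Odd m → ρ m = 0) (M : ℕ) :
    ∑ m ∈ Finset.range (2 * M), MvPowerSeries.C (ρ m) * σ ^ (m / 2) =
      ∑ k ∈ Finset.range M, MvPowerSeries.C (ρ (2 * k)) * σ ^ k := by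
  induction M with
  | zero => simp
  | succ M ih =>
    have e : 2 * (M + 1) = 2 * M + 1 + 1 := by ring
    have e2 : 2 * M / 2 = M := by omega
    rw [e, Finset.sum_range_succ, Finset.sum_range_succ, ih, Finset.sum_range_succ,
      h (2 * M + 1) (odd_two_mul_add_one M), e2]
    simp

theorem loca (hG : GradS) : LocaS := by
  intro K _ _ P Q σ u hD hu hσ n G hn
  choose fA fρ h1 h2 h3 h4 using step hG hD hu hσ
  have hσ2 : Ord 2 σ := by
    have := ord_add (ord_mono (by omega : 2 ≤ 3) hσ)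
      (ord_mul_left (MvPowerSeries.C u) (ord_qf P Q))
    rwa [sub_add_cancel] at this
  obtain ⟨s, s0, s1⟩ : ∃ s : ℕ → Ser K, s 0 = G ∧ ∀ m, s (m + 1) =
      s m - vD P Q (ph (fA m (s m))) - MvPowerSeries.C (fρ m (s m)) * σ ^ (m / 2) :=
    ⟨fun m => Nat.rec G (fun m H =>
      H - vD P Q (ph (fA m H)) - MvPowerSeries.C (fρ m H) * σ ^ (m / 2)) m, rfl, fun _ => rfl⟩
  have hs : ∀ m, Ord m (s m) := by
    intro m
    induction m with
    | zero => exact ord_nil _
    | succ m ih => rw [s1]; exact h3 m _ ih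
  have hlow : ∀ m, m ≤ n → s m = G := by
    intro m
    induction m with
    | zero => exact fun _ => s0
    | succ m ih =>
      intro hm
      have hsm := ih (by omega)
      obtain ⟨e1, e2⟩ := h4 m (s m) (by rw [hsm]; exact ord_mono hm hn)
      rw [s1, e1, e2, hsm]; simp
  have hz : ∀ m, m < n → fA m (s m) = 0 ∧ fρ m (s m) = 0 := fun m hm =>
    h4 m (s m) (by rw [hlow m hm.le]; exact ord_mono hm hn)
  have hinv : ∀ M, s M = G - vD P Q (ph (∑ m ∈ Finset.range M, fA m (s m))) -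
      ∑ m ∈ Finset.range M, MvPowerSeries.C (fρ m (s m)) * σ ^ (m / 2) := by
    intro M
    induction M with
    | zero => simp [s0]
    | succ M ih =>
      rw [Finset.sum_range_succ, Finset.sum_range_succ, map_add, map_add]
      linear_combination s1 M + ih
  obtain ⟨A, hA⟩ := exists_glue (fun m => fA m (s m)) fun m => h1 m _
  refine ⟨A, PowerSeries.mk fun k => fρ (2 * k) (s (2 * k)), ?_, fun k hk => ?_, ?_⟩
  · have := hA n
    rwa [Finset.sum_eq_zero fun m hm => (hz m (Finset.mem_range.mp hm)).1, map_zero,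
      sub_zero] at this
  · rw [PowerSeries.coeff_mk]; exact (hz _ hk).2
  · rw [← vD_apply, ← sub_eq_zero]
    refine eq_zero_of_ord fun M => ?_
    obtain ⟨R, hR⟩ := subst_split (cc_of_ord (ord_mono (by omega) hσ2))
      (fun k => fρ (2 * k) (s (2 * k))) M
    have h5 := hinv (2 * M)
    rw [sum_even σ (fun m => fρ m (s m)) (fun m hm => h2 m _ hm) M] at h5
    have e : G - (vD P Q A + PowerSeries.subst σ
        (PowerSeries.mk fun k => fρ (2 * k) (s (2 * k)))) = s (2 * M) -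
        vD P Q (A - ph (∑ m ∈ Finset.range (2 * M), fA m (s m))) - σ ^ M * R := by
      rw [hR, map_sub]
      linear_combination -h5
    rw [e]
    exact ord_mono (by omega : M ≤ 2 * M) (ord_sub (ord_sub (hs _)
      (ord_vD hD.P0 hD.Q0 (hA _))) (ord_mul_right R (ord_pow hσ2 M)))

theorem trace_eq {K : Type} [Field K] [CharZero K] {P Q h : Ser K} (hF : FCs P Q h) :
    cc (dS 1 Q) = -cc (dS 0 P) := by
  have E1 := congrArg (fun G => cc (dS 0 (dS 0 G))) hF.int
  have E2 := congrArg (fun G => cc (dS 1 (dS 1 G))) hF.int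
  have E3 := congrArg (fun G => cc (dS 0 (dS 1 G))) hF.int
  simp only [map_add, map_zero, dS_mul, cc_add, cc_mul, cc_zero, hF.P0, hF.Q0, hF.crit,
    ← dS_comm h] at E1 E2 E3
  have hh := hF.hess.ne_zero
  have key : 2 * (cc (dS 1 Q) + cc (dS 0 P)) * hess h = 0 := by
    rw [hess]
    linear_combination cc (dS 1 (dS 1 h)) * E1 + cc (dS 0 (dS 0 h)) * E2
      - 2 * cc (dS 0 (dS 1 h)) * E3
  have h2 := (mul_eq_zero.mp key).resolve_right hh
  exact eq_neg_of_add_eq_zero_left ((mul_eq_zero.mp h2).resolve_left two_ne_zero)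

/-- The leading form of a series whose image has higher order is killed by the linear part. -/
theorem lead {P Q : Ser K} (hD : Diag P Q) {m : ℕ} {A : Ser K} {B W : Pl K}
    (hB : B.IsHomogeneous m) (hW : W.IsHomogeneous m) (hAB : Ord (m + 1) (A - ph B))
    (h : Ord (m + 1) (vD P Q A - ph W)) : LL P Q B = W := by
  rw [← sub_eq_zero]
  refine hom_eq_zero ((hom_LL P Q hB).sub hW) ?_
  have e : ph (LL P Q B - W) = (vD P Q A - ph W) - vD P Q (A - ph B)
      - (vD P Q (ph B) - ph (LL P Q B)) := by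
    rw [map_sub, map_sub]; ring
  rw [e]
  exact ord_sub (ord_sub h (ord_vD hD.P0 hD.Q0 hAB)) (ord_vD_ph hD hB)

theorem locb (hG : GradS) : LocbS := by
  intro K _ _ P Q h hF
  refine ⟨trace_eq hF, fun hD A k ρ hA => ?_⟩
  obtain ⟨σ, hσ⟩ : ∃ σ : Ser K, σ = h - MvPowerSeries.C (cc h) := ⟨_, rfl⟩
  have hd : ∀ i, dS i σ = dS i h := fun i => by rw [hσ, map_sub, dS_C, sub_zero]
  have hv : vD P Q σ = 0 := by rw [vD_apply, hd, hd]; exact hF.int
  have h2 : Ord 2 σ := ord_two (by rw [hσ, cc_sub, cc_C, sub_self]) fun i => by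
    rw [hd]; exact hF.crit i
  obtain ⟨B, hB, hσB⟩ := exists_hom h2
  have hL : LL P Q B = 0 := lead hD hB (isHomogeneous_zero _ _ _) hσB (by
    rw [hv, map_zero, sub_zero]; exact ord_zero _)
  obtain ⟨u, -, hu⟩ := (grad hG hD 2).2.1 B hB hL
  rw [hu, map_mul, map_pow, ph_C, ph_qq, Nat.div_self two_pos, pow_one] at hσB
  have hu0 : IsUnit u := by
    refine Ne.isUnit fun h0 => hF.hess.ne_zero ?_
    rw [h0, map_zero, zero_mul, sub_zero] at hσB
    have hz : ∀ i j, cc (dS i (dS j h)) = 0 := fun i j => by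
      rw [← hd]; exact cc_of_ord (ord_dS (ord_dS hσB j) i)
    rw [hess, hz, hz, hz]; ring
  rw [← vD_apply] at hA
  have main : ∀ m, m ≤ 2 * k → ∃ A' : Ser K, Ord m A' ∧ vD P Q A' = vD P Q A := by
    intro m
    induction m with
    | zero => exact fun _ => ⟨A, ord_nil _, rfl⟩
    | succ m ih =>
      intro hm
      obtain ⟨A', hA', hv'⟩ := ih (by omega)
      obtain ⟨B', hB', hAB⟩ := exists_hom hA'
      have hL' : LL P Q B' = 0 := by
        refine lead hD hB' (isHomogeneous_zero _ _ _) hAB ?_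
        have := ord_add (ord_mono (by omega : m + 1 ≤ 2 * k + 1) hA) (ord_mono hm
          (ord_mul_left (MvPowerSeries.C ρ) (ord_pow (ord_qf P Q) k)))
        rwa [map_zero, sub_zero, hv', ← sub_add_cancel (vD P Q A)
          (MvPowerSeries.C ρ * qf P Q ^ k)]
      obtain ⟨ρ', ho, hρ'⟩ := (grad hG hD m).2.1 B' hB' hL'
      obtain ⟨τ, -, hτ⟩ := pw hu0 hσB m ρ' ho
      refine ⟨A' - MvPowerSeries.C τ * σ ^ (m / 2), ?_, ?_⟩
      · have := ord_add hAB hτ
        rwa [← hρ', sub_add_sub_cancel] at this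
      · rw [map_sub, vD_C_mul, vD_pow hv, mul_zero, sub_zero, hv']
  obtain ⟨A', hA', hv'⟩ := main (2 * k) le_rfl
  obtain ⟨B', hB', hAB⟩ := exists_hom hA'
  refine (grad hG hD 0).2.2 B' ρ k (lead hD hB' (((hom_qq P Q).pow k).C_mul ρ) hAB ?_)
  rwa [hv', map_mul, map_pow, ph_C, ph_qq]

end LocA

theorem rowLoc : OfLoca ∧ OfLocb := ⟨LocA.loca, LocA.locb⟩

end Pool.Agent.MP_aa1ef7_ag.H20
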