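import Pool.Agent.MP_aa1ef7_ag.H20.Spec

/-! Orders of series in two variables and the leading part of a vector field. -/

namespace Pool.Agent.MP_aa1ef7_ag.H20.LocA

open MvPolynomial
open Pool.Agent.MP_aa1ef7_ag.H40

variable {K : Type} [CommRing K]

theorem ord_zero (n : ℕ) : Ord n (0 : Ser K) := fun _ _ => by simp

theorem ord_nil (G : Ser K) : Ord 0 G := fun _ h => absurd h (Nat.not_lt_zero _)

theorem ord_add {n : ℕ} {G H : Ser K} (hG : Ord n G) (hH : Ord n H) : Ord n (G + H) :=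
  fun e he => by rw [map_add, hG e he, hH e he, add_zero]

theorem ord_sub {n : ℕ} {G H : Ser K} (hG : Ord n G) (hH : Ord n H) : Ord n (G - H) :=
  fun e he => by rw [map_sub, hG e he, hH e he, sub_zero]

theorem ord_mono {m n : ℕ} {G : Ser K} (h : m ≤ n) (hG : Ord n G) : Ord m G :=
  fun e he => hG e (lt_of_lt_of_le he h)

theorem ord_mul {n k : ℕ} {G H : Ser K} (hG : Ord n G) (hH : Ord k H) : Ord (n + k) (G * H) := by
  classical
  intro e he
  rw [MvPowerSeries.coeff_mul]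
  refine Finset.sum_eq_zero fun x hx => ?_
  have hx' : x.1 + x.2 = e := Finset.HasAntidiagonal.mem_antidiagonal.mp hx
  have h0 : x.1 0 + x.2 0 = e 0 := by rw [← hx']; rfl
  have h1 : x.1 1 + x.2 1 = e 1 := by rw [← hx']; rfl
  by_cases h : x.1 0 + x.1 1 < n
  · rw [hG _ h, zero_mul]
  · rw [hH _ (by omega), mul_zero]

theorem ord_mul_left {n : ℕ} (G : Ser K) {H : Ser K} (hH : Ord n H) : Ord n (G * H) := by
  simpa using ord_mul (ord_nil G) hH

theorem ord_mul_right {n : ℕ} {G : Ser K} (H : Ser K) (hG : Ord n G) : Ord n (G * H) := by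
  simpa using ord_mul hG (ord_nil H)

theorem ord_pow {n : ℕ} {G : Ser K} (hG : Ord n G) (k : ℕ) : Ord (n * k) (G ^ k) := by
  induction k with
  | zero => exact ord_nil _
  | succ k ih => rw [pow_succ, Nat.mul_succ]; exact ord_mul ih hG

theorem ord_dS {n : ℕ} {G : Ser K} (hG : Ord n G) (i : Fin 2) : Ord (n - 1) (dS i G) := by
  intro e he
  rw [dS, MvPowerSeries.coeff_pderiv, hG, zero_mul]
  fin_cases i <;> simp <;> omega

theorem eq_zero_of_ord {G : Ser K} (h : ∀ n, Ord n G) : G = 0 := by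
  ext e
  rw [h (e 0 + e 1 + 1) e (Nat.lt_succ_self _)]; simp

theorem cc_eq (G : Ser K) : cc G = MvPowerSeries.coeff 0 G := rfl

theorem cc_of_ord {G : Ser K} (h : Ord 1 G) : cc G = 0 := h 0 (by simp)

theorem cc_add (G H : Ser K) : cc (G + H) = cc G + cc H := map_add _ G H

theorem cc_sub (G H : Ser K) : cc (G - H) = cc G - cc H := map_sub _ G H

theorem cc_mul (G H : Ser K) : cc (G * H) = cc G * cc H := map_mul _ G H

theorem cc_C (a : K) : cc (MvPowerSeries.C a : Ser K) = a := by simp [cc]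

theorem cc_X (i : Fin 2) : cc (MvPowerSeries.X i : Ser K) = 0 := by simp [cc]

theorem cc_zero : cc (0 : Ser K) = 0 := map_zero _

theorem cc_one : cc (1 : Ser K) = 1 := map_one _

theorem dS_C (i : Fin 2) (a : K) : dS i (MvPowerSeries.C a : Ser K) = 0 :=
  MvPowerSeries.pderiv_C

theorem dS_mul (i : Fin 2) (G H : Ser K) : dS i (G * H) = G * dS i H + H * dS i G := by
  rw [Derivation.leibniz, smul_eq_mul, smul_eq_mul]

theorem ord_one {G : Ser K} (h : cc G = 0) : Ord 1 G := by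
  intro e he
  have : e = 0 := by
    ext i
    fin_cases i <;> simp <;> omega
  rw [this]; exact h

theorem ord_two {G : Ser K} (h : cc G = 0) (h' : ∀ i, cc (dS i G) = 0) : Ord 2 G := by
  intro e he
  have key : ∀ i, MvPowerSeries.coeff (Finsupp.single i 1) G = 0 := fun i => by
    have := h' i
    rw [cc_eq, dS, MvPowerSeries.coeff_pderiv] at this
    simpa using this
  by_cases h0 : e 0 + e 1 < 1
  · exact ord_one h e h0
  by_cases h1 : e 0 = 1
  · have : e = Finsupp.single 0 1 := by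
      ext i
      fin_cases i <;> simp <;> omega
    rw [this]; exact key 0
  · have : e = Finsupp.single 1 1 := by
      ext i
      fin_cases i <;> simp <;> omega
    rw [this]; exact key 1

/-- A polynomial as a series. -/
noncomputable def ph : Pl K →+* Ser K := MvPolynomial.coeToMvPowerSeries.ringHom

theorem coeff_ph (A : Pl K) (e : Fin 2 →₀ ℕ) : MvPowerSeries.coeff e (ph A) = coeff e A :=
  MvPolynomial.coeff_coe A e

theorem ph_C (a : K) : ph (C a : Pl K) = MvPowerSeries.C a := MvPolynomial.coe_C a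

theorem ph_X (i : Fin 2) : ph (X i : Pl K) = MvPowerSeries.X i := MvPolynomial.coe_X i

theorem dS_ph (i : Fin 2) (A : Pl K) : dS i (ph A) = ph (pderiv i A) :=
  MvPowerSeries.pderiv_coe A

theorem deg_eq (e : Fin 2 →₀ ℕ) : e.degree = e 0 + e 1 := by
  rw [Finsupp.degree_eq_sum, Fin.sum_univ_two]

theorem hom_coeff {n : ℕ} {A : Pl K} (hA : A.IsHomogeneous n) {e : Fin 2 →₀ ℕ}
    (he : e 0 + e 1 ≠ n) : coeff e A = 0 :=
  hA.coeff_eq_zero (by rwa [deg_eq])

theorem ord_ph {n : ℕ} {A : Pl K} (hA : A.IsHomogeneous n) : Ord n (ph A) :=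
  fun e he => by rw [coeff_ph, hom_coeff hA he.ne]

theorem hom_eq_zero {n : ℕ} {A : Pl K} (hA : A.IsHomogeneous n) (h : Ord (n + 1) (ph A)) :
    A = 0 := by
  ext e
  by_cases he : e 0 + e 1 = n
  · rw [← coeff_ph, h e (by omega), coeff_zero]
  · rw [hom_coeff hA he, coeff_zero]

theorem exists_hom {n : ℕ} {G : Ser K} (hG : Ord n G) :
    ∃ A : Pl K, A.IsHomogeneous n ∧ Ord (n + 1) (G - ph A) := by
  classical
  refine ⟨∑ e ∈ (mon n).filter fun e => e 0 + e 1 = n, monomial e (MvPowerSeries.coeff e G),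
    IsHomogeneous.sum _ _ _ fun e he => isHomogeneous_monomial _ ?_, fun e he => ?_⟩
  · rw [deg_eq]; exact (Finset.mem_filter.mp he).2
  · rw [map_sub, coeff_ph, coeff_sum]
    simp only [coeff_monomial]
    rw [Finset.sum_ite_eq']
    split_ifs with h
    · exact sub_self _
    · rw [Finset.mem_filter, mem_mon] at h
      rw [hG e (by omega), sub_zero]

/-- The vector field `P ∂x + Q ∂y` as a derivation. -/
noncomputable def vD (P Q : Ser K) : Derivation K (Ser K) (Ser K) := P • dS 0 + Q • dS 1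

theorem vD_apply (P Q A : Ser K) : vD P Q A = P * dS 0 A + Q * dS 1 A := by
  simp [vD]

theorem vD_C_mul (P Q : Ser K) (a : K) (A : Ser K) :
    vD P Q (MvPowerSeries.C a * A) = MvPowerSeries.C a * vD P Q A := by
  simp only [vD_apply, dS_mul, dS_C]; ring

theorem vD_pow {P Q A : Ser K} (h : vD P Q A = 0) (k : ℕ) : vD P Q (A ^ k) = 0 := by
  rw [Derivation.leibniz_pow, h]; simp

theorem ord_vD {P Q : Ser K} (hP : cc P = 0) (hQ : cc Q = 0) {n : ℕ} {A : Ser K} (hA : Ord n A) :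
    Ord n (vD P Q A) := by
  rw [vD_apply]
  exact ord_add (ord_mono (by omega) (ord_mul (ord_one hP) (ord_dS hA 0)))
    (ord_mono (by omega) (ord_mul (ord_one hQ) (ord_dS hA 1)))

/-- The linear part of the field acting on polynomials. -/
noncomputable def LL (P Q : Ser K) (A : Pl K) : Pl K :=
  (C (cc (dS 0 P)) * X 0 + C (cc (dS 1 P)) * X 1) * pderiv 0 A
    + (C (cc (dS 0 Q)) * X 0 - C (cc (dS 0 P)) * X 1) * pderiv 1 A

/-- The invariant quadratic form as a polynomial. -/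
noncomputable def qq (P Q : Ser K) : Pl K :=
  C (cc (dS 0 Q)) * X 0 ^ 2 - 2 * C (cc (dS 0 P)) * X 0 * X 1 - C (cc (dS 1 P)) * X 1 ^ 2

theorem ph_qq (P Q : Ser K) : ph (qq P Q) = qf P Q := by
  simp only [qq, qf, map_sub, map_mul, map_pow, ph_C, ph_X, map_ofNat]

theorem hom_qq (P Q : Ser K) : (qq P Q).IsHomogeneous 2 := by
  have h2 : (2 : Pl K) * C (cc (dS 0 P)) = C (2 * cc (dS 0 P)) := by
    rw [map_mul, map_ofNat]
  unfold qq
  rw [h2]
  refine ((IsHomogeneous.C_mul ?_ _).sub ?_).sub (IsHomogeneous.C_mul ?_ _)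
  · exact isHomogeneous_X_pow _ _
  · exact ((isHomogeneous_X K 0).C_mul _).mul (isHomogeneous_X K 1)
  · exact isHomogeneous_X_pow _ _

theorem ord_qf (P Q : Ser K) : Ord 2 (qf P Q) := by
  rw [← ph_qq]; exact ord_ph (hom_qq P Q)

theorem hom_LL (P Q : Ser K) {n : ℕ} {A : Pl K} (hA : A.IsHomogeneous n) :
    (LL P Q A).IsHomogeneous n := by
  obtain _ | n := n
  · rw [← totalDegree_zero_iff_isHomogeneous, totalDegree_eq_zero_iff_eq_C] at hA
    rw [hA]
    simp only [LL, pderiv_C, mul_zero, add_zero]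
    exact isHomogeneous_zero _ _ _
  · have h0 := hA.pderiv (i := 0)
    have h1 := hA.pderiv (i := 1)
    rw [Nat.add_sub_cancel] at h0 h1
    rw [add_comm n 1]
    exact ((((isHomogeneous_X K 0).C_mul _).add ((isHomogeneous_X K 1).C_mul _)).mul h0).add
      ((((isHomogeneous_X K 0).C_mul _).sub ((isHomogeneous_X K 1).C_mul _)).mul h1)

theorem dS_X (i j : Fin 2) :
    dS i (MvPowerSeries.X j : Ser K) = if i = j then 1 else 0 := by
  split_ifs with h
  · subst h; exact MvPowerSeries.pderiv_X_self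
  · exact MvPowerSeries.pderiv_X_of_ne (Ne.symm h)

theorem ord_lin {G : Ser K} (h : cc G = 0) :
    Ord 2 (G - ph (C (cc (dS 0 G)) * X 0 + C (cc (dS 1 G)) * X 1)) := by
  refine ord_two ?_ fun i => ?_
  · simp only [map_add, map_mul, ph_C, ph_X, cc_sub, cc_add, cc_mul, cc_X, h]; ring
  · simp only [map_add, map_sub, map_mul, ph_C, ph_X, dS_mul, dS_C, dS_X, cc_sub, cc_add, cc_mul,
      cc_C, cc_X]
    fin_cases i <;> simp [cc_one, cc_zero]

theorem ord_vD_ph {P Q : Ser K} (hD : Diag P Q) {n : ℕ} {A : Pl K} (hA : A.IsHomogeneous n) :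
    Ord (n + 1) (vD P Q (ph A) - ph (LL P Q A)) := by
  have h1 := ord_lin hD.P0
  have h2 := ord_lin hD.Q0
  rw [hD.tr] at h2
  have e : vD P Q (ph A) - ph (LL P Q A) =
      (P - ph (C (cc (dS 0 P)) * X 0 + C (cc (dS 1 P)) * X 1)) * dS 0 (ph A) +
      (Q - ph (C (cc (dS 0 Q)) * X 0 + C (-cc (dS 0 P)) * X 1)) * dS 1 (ph A) := by
    simp only [vD_apply, LL, dS_ph, map_add, map_sub, map_mul, map_neg]; ring
  rw [e]
  exact ord_add (ord_mono (by omega) (ord_mul h1 (ord_dS (ord_ph hA) 0)))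
    (ord_mono (by omega) (ord_mul h2 (ord_dS (ord_ph hA) 1)))

theorem ord_pow_sub {σ τ : Ser K} (hτ : Ord 2 τ) (h : Ord 3 (σ - τ)) (k : ℕ) :
    Ord (2 * k + 1) (σ ^ k - τ ^ k) := by
  have hσ : Ord 2 σ := by
    have := ord_add (ord_mono (by omega : 2 ≤ 3) h) hτ
    rwa [sub_add_cancel] at this
  induction k with
  | zero => simpa using ord_zero 1
  | succ k ih =>
    have e : σ ^ (k + 1) - τ ^ (k + 1) = σ * (σ ^ k - τ ^ k) + (σ - τ) * τ ^ k := by ring
    rw [e]
    exact ord_add (ord_mono (by omega) (ord_mul hσ ih))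
      (ord_mono (by omega) (ord_mul h (ord_pow hτ k)))

/-- A multiple of a power of the quadratic form is the leading part of a multiple of `σ ^ k`. -/
theorem pw {P Q σ : Ser K} {u : K} (hu : IsUnit u)
    (hσ : Ord 3 (σ - MvPowerSeries.C u * qf P Q)) (m : ℕ) (ρ' : K) (h : Odd m → ρ' = 0) :
    ∃ ρ : K, (Odd m → ρ = 0) ∧
      Ord (m + 1) (ph (C ρ' * qq P Q ^ (m / 2)) - MvPowerSeries.C ρ * σ ^ (m / 2)) := by
  rcases Nat.even_or_odd m with hm | hm
  · obtain ⟨k, rfl⟩ := hm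
    obtain ⟨v, hv⟩ := hu.exists_right_inv
    have hk : (k + k) / 2 = k := by omega
    refine ⟨ρ' * v ^ k, fun ho => by rw [h ho, zero_mul], ?_⟩
    have h1 := ord_pow_sub (ord_mul_left (MvPowerSeries.C u) (ord_qf P Q)) hσ k
    have hC : (MvPowerSeries.C u : Ser K) ^ k * MvPowerSeries.C v ^ k = 1 := by
      rw [← mul_pow, ← map_mul, hv, map_one, one_pow]
    have e : ph (C ρ' * qq P Q ^ k) - MvPowerSeries.C (ρ' * v ^ k) * σ ^ k =
        -MvPowerSeries.C (ρ' * v ^ k) * (σ ^ k - (MvPowerSeries.C u * qf P Q) ^ k) := by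
      simp only [map_mul, map_pow, ph_C, ph_qq, mul_pow]
      linear_combination (-(MvPowerSeries.C ρ' * qf P Q ^ k)) * hC
    rw [hk, e]
    exact ord_mul_left _ (ord_mono (by omega) h1)
  · refine ⟨0, fun _ => rfl, ?_⟩
    rw [h hm]
    simpa using ord_zero (m + 1)

/-- The graded facts for the linear part of a diagonalisable field. -/
theorem grad [Algebra ℚ K] (hG : GradS) {P Q : Ser K} (hD : Diag P Q) (n : ℕ) :
    (∀ G : Pl K, G.IsHomogeneous n → ∃ (A : Pl K) (ρ : K), A.IsHomogeneous n ∧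
      (Odd n → ρ = 0) ∧ G = LL P Q A + C ρ * qq P Q ^ (n / 2)) ∧
    (∀ A : Pl K, A.IsHomogeneous n → LL P Q A = 0 →
      ∃ ρ : K, (Odd n → ρ = 0) ∧ A = C ρ * qq P Q ^ (n / 2)) ∧
    ∀ (A : Pl K) (ρ : K) (k : ℕ), LL P Q A = C ρ * qq P Q ^ k → ρ = 0 := by
  obtain ⟨lam, hl, hl2⟩ := hD.lam
  obtain ⟨s, t, hst⟩ := hD.cyc
  refine hG K (cc (dS 0 P)) (cc (dS 1 P)) (cc (dS 0 Q)) lam s t hl ?_ hst n (LL P Q) (qq P Q)
    (fun _ => rfl) rfl
  rw [hl2, jac, hD.tr]; ring

end Pool.Agent.MP_aa1ef7_ag.H20.LocA
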