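import Pool.Agent.MP_aa1ef7_ag.H20.Spec

/-! A formal centre along an arc gives a local first integral at a critical point. -/

namespace Pool.Agent.MP_aa1ef7_ag.H20

open MvPolynomial
open Pool.Agent.MP_aa1ef7_ag.H40

namespace LocsolA

/-- Exchange of the two kinds of variables, as a function. -/
noncomputable def s2f (G : Ser (PowerSeries ℂ)) : PowerSeries (Ser ℂ) :=
  PowerSeries.mk fun k => fun e => PowerSeries.coeff k (MvPowerSeries.coeff e G)

theorem coeff_s2f (G : Ser (PowerSeries ℂ)) (k : ℕ) (e : Fin 2 →₀ ℕ) :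
    MvPowerSeries.coeff e (PowerSeries.coeff k (s2f G)) =
      PowerSeries.coeff k (MvPowerSeries.coeff e G) :=
  congrArg (MvPowerSeries.coeff e) (PowerSeries.coeff_mk k _)

theorem s2f_C (a : PowerSeries ℂ) :
    s2f (MvPowerSeries.C a) = PowerSeries.map (MvPowerSeries.C : ℂ →+* Ser ℂ) a := by
  classical
  refine PowerSeries.ext fun k => MvPowerSeries.ext fun e => ?_
  rw [coeff_s2f, PowerSeries.coeff_map, MvPowerSeries.coeff_C, MvPowerSeries.coeff_C]
  split_ifs <;> simp

theorem s2f_X (i : Fin 2) : s2f (MvPowerSeries.X i) = PowerSeries.C (MvPowerSeries.X i) := by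
  classical
  refine PowerSeries.ext fun k => MvPowerSeries.ext fun e => ?_
  rw [coeff_s2f, MvPowerSeries.coeff_X, PowerSeries.coeff_C]
  split_ifs with h1 h2 h2
  · rw [MvPowerSeries.coeff_X, if_pos h1, h2]; simp
  · rw [PowerSeries.coeff_one, if_neg h2]; simp
  · rw [MvPowerSeries.coeff_X, if_neg h1]; simp
  · simp

/-- Exchange of the two kinds of variables. -/
noncomputable def s2 : Ser (PowerSeries ℂ) →+* PowerSeries (Ser ℂ) where
  toFun := s2f
  map_one' := by
    have := s2f_C 1
    rwa [map_one, map_one] at this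
  map_mul' G H := by
    classical
    refine PowerSeries.ext fun k => MvPowerSeries.ext fun e => ?_
    rw [coeff_s2f, MvPowerSeries.coeff_mul, PowerSeries.coeff_mul, map_sum, map_sum]
    simp only [PowerSeries.coeff_mul, MvPowerSeries.coeff_mul, coeff_s2f]
    exact Finset.sum_comm
  map_zero' := by
    have := s2f_C 0
    rwa [map_zero, map_zero] at this
  map_add' G H := by
    refine PowerSeries.ext fun k => MvPowerSeries.ext fun e => ?_
    simp only [map_add, coeff_s2f]

theorem coeff_s2 (G : Ser (PowerSeries ℂ)) (k : ℕ) (e : Fin 2 →₀ ℕ) :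
    MvPowerSeries.coeff e (PowerSeries.coeff k (s2 G)) =
      PowerSeries.coeff k (MvPowerSeries.coeff e G) := coeff_s2f G k e

theorem s2_C (a : PowerSeries ℂ) :
    s2 (MvPowerSeries.C a) = PowerSeries.map (MvPowerSeries.C : ℂ →+* Ser ℂ) a := s2f_C a

theorem s2_X (i : Fin 2) : s2 (MvPowerSeries.X i) = PowerSeries.C (MvPowerSeries.X i) := s2f_X i

theorem s2_dS (i : Fin 2) (G : Ser (PowerSeries ℂ)) : s2 (dS i G) = cd (dS i) (s2 G) := by
  refine PowerSeries.ext fun k => MvPowerSeries.ext fun e => ?_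
  rw [coeff_cd, coeff_s2]
  simp only [dS, MvPowerSeries.coeff_pderiv, coeff_s2]
  have : ((e i : PowerSeries ℂ) + 1) = PowerSeries.C ((e i : ℂ) + 1) := by simp
  rw [this, PowerSeries.coeff_mul_C]

theorem cc_s2 (G : Ser (PowerSeries ℂ)) :
    PowerSeries.constantCoeff (s2 G) = MvPowerSeries.map PowerSeries.constantCoeff G := by
  refine MvPowerSeries.ext fun e => ?_
  rw [← PowerSeries.coeff_zero_eq_constantCoeff_apply, coeff_s2, MvPowerSeries.coeff_map,
    PowerSeries.coeff_zero_eq_constantCoeff_apply]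

theorem tay_C {K : Type} [CommRing K] (p : Fin 2 → K) (a : K) :
    tay p (C a) = MvPowerSeries.C a := by
  simp [tay, MvPowerSeries.algebraMap_apply]

theorem tay_X {K : Type} [CommRing K] (p : Fin 2 → K) (i : Fin 2) :
    tay p (X i) = MvPowerSeries.C (p i) + MvPowerSeries.X i := by
  simp [tay]

theorem s2_tay (p : Fin 2 → ℂ) (R : Pl (PowerSeries ℂ)) :
    s2 (tay (fun i => PowerSeries.C (p i)) R) = PowerSeries.map (tay p).toRingHom (sw R) := by
  have hC : ∀ a : PowerSeries ℂ, sw (C a : Pl (PowerSeries ℂ)) =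
      PowerSeries.map (C : ℂ →+* Pl ℂ) a := fun a => eval₂Hom_C _ _ a
  have hX : ∀ i, sw (X i : Pl (PowerSeries ℂ)) = PowerSeries.C (X i) :=
    fun i => eval₂Hom_X' _ _ i
  induction R using MvPolynomial.induction_on with
  | C a =>
    rw [tay_C, s2_C, hC]
    refine PowerSeries.ext fun k => ?_
    rw [PowerSeries.coeff_map, PowerSeries.coeff_map, PowerSeries.coeff_map]
    exact (tay_C p _).symm
  | add a b ha hb => simp only [map_add, ha, hb]
  | mul_X a m ha =>
    rw [map_mul, map_mul, map_mul, map_mul, ha, tay_X, map_add, s2_C, s2_X, hX,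
      PowerSeries.map_C, PowerSeries.map_C, ← map_add]
    exact congrArg _ (congrArg _ (tay_X p m).symm)

theorem tay_shift {K : Type} [CommRing K] (q v : Fin 2 → K) (R : Pl K) :
    tay q (shift v R) = tay (fun i => q i + v i) R := by
  induction R using MvPolynomial.induction_on with
  | C a => rw [shift, algHom_C, algebraMap_eq, tay_C, tay_C]
  | add a b ha hb => simp only [map_add, ha, hb]
  | mul_X a m ha =>
    rw [map_mul, map_mul, map_mul, ha, shift, aeval_X, map_add, tay_X, tay_X, tay_C, map_add]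
    ring

theorem map_shift {K K' : Type} [CommRing K] [CommRing K'] (j : K →+* K') (v : Fin 2 → K)
    (hv : ∀ i, j (v i) = 0) (R : Pl K) : MvPolynomial.map j (shift v R) = MvPolynomial.map j R := by
  induction R using MvPolynomial.induction_on with
  | C a => rw [shift, algHom_C, algebraMap_eq]
  | add a b ha hb => simp only [map_add, ha, hb]
  | mul_X a m ha =>
    rw [map_mul, map_mul, map_mul, ha, shift, aeval_X, map_add, map_C, hv, map_zero, add_zero]

theorem deg_shift {K : Type} [CommRing K] (v : Fin 2 → K) {n : ℕ} {R : Pl K}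
    (h : R.totalDegree ≤ n) : (shift v R).totalDegree ≤ n := by
  rw [R.as_sum, map_sum]
  refine (totalDegree_finsetSum _ _).trans (Finset.sup_le fun m hm => ?_)
  rw [shift, aeval_monomial, algebraMap_eq]
  refine (totalDegree_mul _ _).trans ?_
  rw [totalDegree_C, zero_add, Finsupp.prod]
  refine (totalDegree_finsetProd _ _).trans (le_trans ?_ ((le_totalDegree hm).trans h))
  refine Finset.sum_le_sum fun i _ => (totalDegree_pow _ _).trans ?_
  have h1 : (X i + C (v i) : Pl K).totalDegree ≤ 1 := by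
    refine (totalDegree_add _ _).trans (max_le ?_ (by simp))
    exact (totalDegree_monomial_le _ _).trans (by simp)
  simpa using Nat.mul_le_mul_left (m i) h1

theorem cc_mul {K : Type} [CommRing K] (a b : Ser K) : cc (a * b) = cc a * cc b := map_mul _ a b

theorem cc_add {K : Type} [CommRing K] (a b : Ser K) : cc (a + b) = cc a + cc b := map_add _ a b

/-- A first integral of the Hamiltonian field has a proportional gradient. -/
theorem key (φ : Ser ℂ) (hS : Sub dS φ ⊤) (ψ : Ser ℂ) (hψ : br dS φ ψ = 0) :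
    ∃ b, br dS φ b = 0 ∧ ∀ i, dS i ψ = b * dS i φ := by
  obtain ⟨c, -, h1, h0⟩ := hS.div (-dS 1 ψ) trivial (dS 0 ψ) trivial (by
    rw [← hψ, br]; ring)
  have e0 : dS 0 ψ = -c * dS 0 φ := by rw [h0]; ring
  have e1 : dS 1 ψ = -c * dS 1 φ := by rw [neg_mul, ← h1, neg_neg]
  refine ⟨-c, ?_, fun i => ?_⟩
  · have h := dS_comm ψ
    rw [e0, e1, Derivation.leibniz, Derivation.leibniz, dS_comm φ] at h
    simp only [smul_eq_mul] at h
    rw [br]
    linear_combination h
  · fin_cases i
    · exact e0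
    · exact e1

theorem hess_prop (φ h a : Ser ℂ) (hc : ∀ i, cc (dS i φ) = 0) (e : ∀ i, dS i h = a * dS i φ) :
    hess h = cc a ^ 2 * hess φ := by
  simp only [hess, e, Derivation.leibniz, smul_eq_mul, cc_add, cc_mul, hc]
  ring

end LocsolA

open LocsolA in
theorem rowLocsol : OfLocsol := by
  intro hsw hext hreg d l P Q pt hP hQ hP0 hQ0 ⟨h, H⟩
  obtain ⟨-, -, -, hdeg, hcc, -⟩ := hsw
  set p : Fin 2 → ℂ := PowerSeries.constantCoeff ∘ pt with hp
  set v : Fin 2 → PowerSeries ℂ := fun i => pt i - PowerSeries.C (p i) with hv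
  have hv0 : ∀ i, PowerSeries.constantCoeff (v i) = 0 := fun i => by simp [hv, hp]
  have hpt : (fun i => PowerSeries.C (p i) + v i) = pt := funext fun i => by simp [hv]
  set φ : Ser ℂ := tay p (ff l) with hφ
  have H0 := H.map PowerSeries.constantCoeff
  rw [← tay_map, ← tay_map, ← hp, hP0, hQ0, map_neg, ← dS_tay, ← dS_tay, ← hφ] at H0
  have hc : ∀ i, cc (dS i φ) = 0 := fun i => by
    fin_cases i
    · have := H0.Q0
      rw [cc, map_neg, neg_eq_zero] at this
      exact this
    · exact H0.P0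
  have hh : hess φ ≠ 0 := by rw [← jac_ham]; exact H0.jac.ne_zero
  have hS := (hreg φ hc hh).1
  obtain ⟨a, ha, ha'⟩ := key φ hS (MvPowerSeries.map PowerSeries.constantCoeff h) (by
    rw [← H0.int, br]; ring)
  have hau : IsUnit a := by
    rw [MvPowerSeries.isUnit_iff_constantCoeff, isUnit_iff_ne_zero]
    intro h0
    apply H0.hess.ne_zero
    rw [hess_prop φ _ a hc ha', show cc a = 0 from h0]
    ring
  obtain ⟨a', haa⟩ := hau.exists_right_inv
  obtain ⟨E, E', -, hE0, hE⟩ := hext (Ser ℂ) (Fin 2) dS ⊤ {ψ | br dS φ ψ = 0} (s2 h)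
    (fun _ _ => trivial) (fun _ => trivial) (fun ψ hψ => by
      obtain ⟨b, hb, hb'⟩ := key φ hS ψ hψ
      refine ⟨b * a', ?_, fun i => ?_⟩
      · have h1 := br_mul dS φ a (b * a')
        rw [show a * (b * a') = b by rw [mul_left_comm, haa, mul_one], hb, ha, mul_zero,
          add_zero] at h1
        change br dS φ (b * a') = 0
        rw [← one_mul (br dS φ (b * a')), ← haa, mul_comm a, mul_assoc, ← h1, mul_zero]
      · rw [cc_s2, ha', hb', mul_assoc, ← mul_assoc a', mul_comm a', haa, one_mul])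
    φ (br_self dS φ)
  refine ⟨v, p, ⟨hdeg d _ (deg_shift v hP), hdeg d _ (deg_shift v hQ), ?_, ?_⟩, fun i => ?_,
    E, hE0, ?_⟩
  · rw [hcc, map_shift _ v hv0, hP0]
  · rw [hcc, map_shift _ v hv0, hQ0]
  · rw [← cc_tay, ← dS_tay]; exact hc i
  · have h1 := congrArg s2 H.int
    rw [map_add, map_mul, map_mul, s2_dS, s2_dS, map_zero] at h1
    rw [vf, ← s2_tay, ← s2_tay, tay_shift, tay_shift, hpt, hE, hE]
    linear_combination E' * h1

end Pool.Agent.MP_aa1ef7_ag.H20
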