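import Pool.Agent.MP_aa1ef7_ag.H20.Spec

/-! The critical points of a product of generic lines are nondegenerate, with distinct values. -/

namespace Pool.Agent.MP_aa1ef7_ag.H20

open MvPolynomial
open Pool.Agent.MP_aa1ef7_ag.H40

namespace MorA

section

variable {k : Type} [CommRing k] [Algebra k ℂ] (δ : Derivation k ℂ ℂ)

/-- The coefficientwise derivation. -/
noncomputable def dl : Derivation k Poly Poly := dext δ fun _ => C 0

theorem dl_C (a : ℂ) : dl δ (C a) = C (δ a) := dext_C _ _ _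

theorem dl_X (m : Fin 2) : dl δ (X m) = 0 := (dext_X _ _ _).trans C_0

theorem chain (p : Fin 2 → ℂ) (r : Poly) : δ (eval p r) =
    eval p (dl δ r) + δ (p 0) * eval p (pderiv 0 r) + δ (p 1) * eval p (pderiv 1 r) := by
  induction r using MvPolynomial.induction_on with
  | C a => simp [dl_C]
  | add a b ha hb => simp only [map_add, ha, hb]; ring
  | mul_X a m ha =>
    simp only [map_mul, Derivation.leibniz, smul_eq_mul, dl_X, eval_X, ha, map_add, pderiv_X]
    fin_cases m <;> simp <;> ring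

theorem dl_pderiv (j : Fin 2) (r : Poly) : dl δ (pderiv j r) = pderiv j (dl δ r) := by
  induction r using MvPolynomial.induction_on with
  | C a => simp [dl_C]
  | add a b ha hb => simp only [map_add, ha, hb]
  | mul_X a m ha =>
    simp only [Derivation.leibniz, smul_eq_mul, dl_X, ha, map_add, pderiv_X, Pi.single_apply]
    split_ifs <;> simp [add_comm]

end

variable {d : ℕ} {l : Fin (d + 1) → ℂ × ℂ × ℂ}

theorem ff_lin (l : Fin (d + 1) → ℂ × ℂ × ℂ) (i : Fin (d + 1)) :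
    ff l = lin (l i) * gI l {i} := by rw [ff_eq l {i}, Finset.prod_singleton]

theorem dl_lin (F : Fld l) (i m : Fin (d + 1)) :
    dl (F.δ i) (lin (l m)) = C (F.δ i (l m).2.2) := by
  simp only [lin, map_add, Derivation.leibniz, dl_X, dl_C, F.dz i _ (F.le i (F.dir0 m).1),
    F.dz i _ (F.le i (F.dir0 m).2)]
  simp

theorem dl_ff (F : Fld l) (i : Fin (d + 1)) : dl (F.δ i) (ff l) = gI l {i} := by
  have h : dl (F.δ i) (gI l {i}) = 0 := by
    refine Finset.prod_induction _ (fun r => dl (F.δ i) r = 0) (fun a b ha hb => ?_) ?_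
      fun m hm => ?_
    · simp [Derivation.leibniz, ha, hb]
    · simp
    · simp only [dl_lin]
      rw [F.dz i _ (F.mem i m (by simpa using hm)), C_0]
  rw [ff_lin l i, Derivation.leibniz, h, dl_lin, F.du]
  simp

theorem g_ne {p : Fin 2 → ℂ} (hp : Face l p) (i : Fin (d + 1)) : eval p (gI l {i}) ≠ 0 := by
  rw [gI, map_prod]
  exact Finset.prod_ne_zero_iff.2 fun m _ => hp.2 m

theorem hess_eq (p : Fin 2 → ℂ) (f : Poly) : hess (tay p f) =
    eval p (pderiv 0 (pderiv 0 f)) * eval p (pderiv 1 (pderiv 1 f)) -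
      eval p (pderiv 0 (pderiv 1 f)) ^ 2 := by
  simp only [hess, dS_tay, cc_tay]

theorem row (F : Fld l) {p : Fin 2 → ℂ} (hp : Crit l p) (i : Fin (d + 1)) (j : Fin 2) :
    eval p (lin (l i)) * (F.δ i (p 0) * eval p (pderiv 0 (pderiv j (ff l))) +
      F.δ i (p 1) * eval p (pderiv 1 (pderiv j (ff l)))) =
      eval p (pderiv j (lin (l i))) * eval p (gI l {i}) := by
  have h1 := chain (F.δ i) p (pderiv j (ff l))
  rw [hp j, map_zero, dl_pderiv, dl_ff] at h1
  have h2 := hp j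
  rw [ff_lin l i, Derivation.leibniz, smul_eq_mul, smul_eq_mul, map_add, map_mul, map_mul] at h2
  linear_combination -eval p (lin (l i)) * h1 - h2

theorem face_nd (hG : Geo l) (F : Fld l) {p : Fin 2 → ℂ} (hp : Face l p) :
    hess (tay p (ff l)) ≠ 0 := by
  have hd := hG.two
  intro h
  rw [hess_eq] at h
  have a0 := row F hp.1 ⟨0, by omega⟩ 0
  have a1 := row F hp.1 ⟨0, by omega⟩ 1
  have b0 := row F hp.1 ⟨1, by omega⟩ 0
  have b1 := row F hp.1 ⟨1, by omega⟩ 1
  rw [← pderiv_comm2] at a0 b0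
  have e0 : ∀ a, eval p (pderiv 0 (lin a)) = a.1 := fun a => by simp [lin]
  have e1 : ∀ a, eval p (pderiv 1 (lin a)) = a.2.1 := fun a => by simp [lin]
  rw [e0] at a0 b0
  rw [e1] at a1 b1
  refine mul_ne_zero (mul_ne_zero (g_ne hp ⟨0, by omega⟩) (g_ne hp ⟨1, by omega⟩))
    (hG.gen.1 ⟨0, by omega⟩ ⟨1, by omega⟩ (by simp)) ?_
  generalize eval p (pderiv 0 (pderiv 0 (ff l))) = A at *
  generalize eval p (pderiv 0 (pderiv 1 (ff l))) = B at *
  generalize eval p (pderiv 1 (pderiv 1 (ff l))) = D at *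
  have key : ∀ s t x0 x1 y0 y1 u0 u1 v0 v1 : ℂ, s * (x0 * A + x1 * B) = u0 →
      s * (x0 * B + x1 * D) = u1 → t * (y0 * A + y1 * B) = v0 → t * (y0 * B + y1 * D) = v1 →
      u0 * v1 - v0 * u1 = 0 := by
    rintro s t x0 x1 y0 y1 _ _ _ _ rfl rfl rfl rfl
    linear_combination s * t * (x0 * y1 - x1 * y0) * h
  linear_combination key _ _ _ _ _ _ _ _ _ _ a0 a1 b0 b1

theorem face_inj (hG : Geo l) (F : Fld l) {p p' : Fin 2 → ℂ} (hp : Face l p) (hp' : Face l p')
    (h : eval p (ff l) = eval p' (ff l)) : p = p' := by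
  have hd := hG.two
  have e : ∀ i, eval p (lin (l i)) = eval p' (lin (l i)) := fun i => by
    have h1 := chain (F.δ i) p (ff l)
    have h2 := chain (F.δ i) p' (ff l)
    rw [hp.1, hp.1, dl_ff, h] at h1
    rw [hp'.1, hp'.1, dl_ff, h1] at h2
    rw [ff_lin l i, map_mul, map_mul] at h
    refine mul_right_cancel₀ (g_ne hp i) ?_
    linear_combination h - eval p' (lin (l i)) * h2
  have h0 := e ⟨0, by omega⟩
  have h1 := e ⟨1, by omega⟩
  have hn := hG.gen.1 ⟨0, by omega⟩ ⟨1, by omega⟩ (by simp)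
  simp only [lin, map_add, map_mul, eval_C, eval_X] at h0 h1
  refine funext (Fin.forall_fin_two.2 ⟨mul_left_cancel₀ hn ?_, mul_left_cancel₀ hn ?_⟩)
  · linear_combination (l ⟨1, by omega⟩).2.1 * h0 - (l ⟨0, by omega⟩).2.1 * h1
  · linear_combination (l ⟨0, by omega⟩).1 * h1 - (l ⟨1, by omega⟩).1 * h0

theorem tay1 (p : Fin 2 → ℂ) (r : Poly) : ∃ A B : Poly,
    r = C (eval p r) + A * (X 0 - C (p 0)) + B * (X 1 - C (p 1)) := by
  induction r using MvPolynomial.induction_on with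
  | C a => exact ⟨0, 0, by simp⟩
  | add a b ha hb =>
    obtain ⟨A, B, ha⟩ := ha
    obtain ⟨A', B', hb⟩ := hb
    exact ⟨A + A', B + B', by simp only [map_add]; linear_combination ha + hb⟩
  | mul_X a m ha =>
    obtain ⟨A, B, ha⟩ := ha
    fin_cases m
    · refine ⟨A * X 0 + C (eval p a), B * X 0, ?_⟩
      simp only [Fin.zero_eta, map_mul, eval_X]
      linear_combination X 0 * ha
    · refine ⟨A * X 1, B * X 1 + C (eval p a), ?_⟩
      simp only [Fin.mk_one, map_mul, eval_X]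
      linear_combination X 1 * ha

theorem tay2 {p : Fin 2 → ℂ} {r : Poly} (h : eval p r = 0) : ∃ A B : Poly,
    r = A * (X 0 - C (p 0)) + B * (X 1 - C (p 1)) ∧ eval p (pderiv 0 r) = eval p A ∧
      eval p (pderiv 1 r) = eval p B := by
  obtain ⟨A, B, e⟩ := tay1 p r
  rw [h, C_0, zero_add] at e
  refine ⟨A, B, e, ?_, ?_⟩ <;> rw [e] <;> simp [Derivation.leibniz]

theorem rad {f : Poly} (nd : ∀ p, (∀ i, eval p (pderiv i f) = 0) → hess (tay p f) ≠ 0) (b : Poly)
    (hb : ∀ p, (∀ i, eval p (pderiv i f) = 0) → eval p b = 0) :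
    ∃ Y0 Y1, b = Y0 * pderiv 0 f + Y1 * pderiv 1 f := by
  let J : Ideal Poly := Ideal.span {pderiv 0 f, pderiv 1 f}
  have hJ : ∀ r, r ∈ J.colon {b} ↔ ∃ Y0 Y1, Y0 * pderiv 0 f + Y1 * pderiv 1 f = r * b :=
    fun r => Submodule.mem_colon_singleton.trans Ideal.mem_span_pair
  by_contra hn
  have hne : J.colon {b} ≠ ⊤ := fun h => by
    obtain ⟨Y0, Y1, e⟩ := (hJ 1).1 (h ▸ Submodule.mem_top)
    exact hn ⟨Y0, Y1, by rw [e, one_mul]⟩
  obtain ⟨M, hM, hle⟩ := Ideal.exists_le_maximal _ hne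
  obtain ⟨p, rfl⟩ := isMaximal_iff_eq_vanishingIdeal_singleton.1 hM
  have hv : ∀ r Y0 Y1, Y0 * pderiv 0 f + Y1 * pderiv 1 f = r * b → eval p r = 0 :=
    fun r Y0 Y1 e => (mem_vanishingIdeal_singleton_iff p r).1 (hle ((hJ r).2 ⟨Y0, Y1, e⟩))
  have hc : ∀ i, eval p (pderiv i f) = 0 := by
    rw [Fin.forall_fin_two]
    exact ⟨hv _ b 0 (by ring), hv _ 0 b (by ring)⟩
  obtain ⟨A, B, e, hA, hB⟩ := tay2 (hc 0)
  obtain ⟨A', B', e', hA', hB'⟩ := tay2 (hc 1)
  obtain ⟨S, T, eb, -, -⟩ := tay2 (hb p hc)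
  refine nd p hc ?_
  have := hv (A * B' - B * A') (S * B' - T * A') (T * A - S * B) (by
    linear_combination (S * B' - T * A') * e + (T * A - S * B) * e' - (A * B' - B * A') * eb)
  rw [map_sub, map_mul, map_mul, ← hA, ← hB, ← hA', ← hB', ← pderiv_comm2] at this
  rw [hess_eq, sq, this]

end MorA

open MorA in
theorem rowMor : OfMor := by
  intro hg d l hG hL hJ F
  have nd : ∀ p, Crit l p → hess (tay p (ff l)) ≠ 0 := fun p hp =>
    (hL.cls p hp).elim (face_nd hG F) fun ⟨i, j, h⟩ => hL.nodehess i j p h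
  refine ⟨nd, fun p p' => face_inj hG F, rad nd, ?_⟩
  obtain ⟨q, Y0, Y1, hq, e⟩ := (hg ℂ d (ff l) (by have := hG.two; omega) hL.deg.le hJ.syl).2
  refine Set.Finite.of_finite_image (f := fun p => eval p (ff l))
    ((q.rootSet_finite ℂ).subset ?_) fun p hp p' hp' => face_inj hG F hp hp'
  rintro _ ⟨p, hp, rfl⟩
  refine Polynomial.mem_rootSet.2 ⟨hq.ne_zero, ?_⟩
  have := congrArg (aeval p) e
  rw [← Polynomial.aeval_algHom_apply, map_add, map_mul, map_mul] at this
  simpa [hp.1 0, hp.1 1] using this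

end Pool.Agent.MP_aa1ef7_ag.H20
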