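import Pool.Agent.MP_aa1ef7_ag.H20.Spec

/-! The holomorphic Morse lemma for polynomials in two variables, and centres of logarithmic
forms with positive rational residues. -/

namespace Pool.Agent.MP_aa1ef7_ag.H20

open MvPolynomial Topology Filter
open Pool.Agent.MP_aa1ef7_ag.H40

namespace MorseA

lemma taylor1 (p : Fin 2 → ℂ) (r : Poly) :
    ∃ a b : Poly, r = C (eval p r) + a * (X 0 - C (p 0)) + b * (X 1 - C (p 1)) := by
  induction r using MvPolynomial.induction_on with
  | C c => exact ⟨0, 0, by simp⟩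
  | add f g hf hg =>
    obtain ⟨a, b, h⟩ := hf
    obtain ⟨a', b', h'⟩ := hg
    refine ⟨a + a', b + b', ?_⟩
    rw [map_add, map_add]
    linear_combination h + h'
  | mul_X f i hf =>
    obtain ⟨a, b, h⟩ := hf
    fin_cases i
    · refine ⟨a * X 0 + C (eval p f), b * X 0, ?_⟩
      simp only [Fin.zero_eta, map_mul, eval_X]
      linear_combination X 0 * h
    · refine ⟨a * X 1, b * X 1 + C (eval p f), ?_⟩
      simp only [Fin.mk_one, map_mul, eval_X]
      linear_combination X 1 * h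

lemma taylor2 (p : Fin 2 → ℂ) (h : Poly) (hc : ∀ i, eval p (pderiv i h) = 0) :
    ∃ A B D : Poly, h = C (eval p h) + A * (X 0 - C (p 0)) ^ 2 +
      B * (X 0 - C (p 0)) * (X 1 - C (p 1)) + D * (X 1 - C (p 1)) ^ 2 ∧
      hess (tay p h) = 4 * eval p A * eval p D - eval p B ^ 2 := by
  obtain ⟨a, b, e⟩ := taylor1 p h
  obtain ⟨a0, a1, ea⟩ := taylor1 p a
  obtain ⟨b0, b1, eb⟩ := taylor1 p b
  have ha : eval p a = 0 := by
    have := hc 0
    rw [e] at this
    simpa [pderiv_X] using this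
  have hb : eval p b = 0 := by
    have := hc 1
    rw [e] at this
    simpa [pderiv_X] using this
  rw [ha] at ea
  rw [hb] at eb
  have key : h = C (eval p h) + a0 * (X 0 - C (p 0)) ^ 2 +
      (a1 + b0) * (X 0 - C (p 0)) * (X 1 - C (p 1)) + b1 * (X 1 - C (p 1)) ^ 2 := by
    rw [map_zero] at ea eb
    linear_combination e + (X 0 - C (p 0)) * ea + (X 1 - C (p 1)) * eb
  refine ⟨a0, a1 + b0, b1, key, ?_⟩
  simp only [hess, dS_tay, cc_tay]
  generalize eval p h = c at key
  generalize a1 + b0 = B at key ⊢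
  have h00 : eval p (pderiv 0 (pderiv 0 h)) = 2 * eval p a0 := by
    rw [key]; simp [pderiv_X, pow_two]; ring
  have h11 : eval p (pderiv 1 (pderiv 1 h)) = 2 * eval p b1 := by
    rw [key]; simp [pderiv_X, pow_two]; ring
  have h01 : eval p (pderiv 0 (pderiv 1 h)) = eval p B := by
    rw [key]; simp [pderiv_X, pow_two]
  rw [h00, h11, h01]; ring

lemma contDiff_eval (r : Poly) (p : Fin 2 → ℂ) : ContDiffAt ℂ 1 (fun z => eval z r) p := by
  induction r using MvPolynomial.induction_on with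
  | C a => simpa using contDiffAt_const
  | add f g hf hg => simpa using hf.add hg
  | mul_X f i hf =>
    simp only [map_mul, eval_X]
    exact hf.mul (by fun_prop)

lemma exists_sqrt {g : (Fin 2 → ℂ) → ℂ} {p : Fin 2 → ℂ} (hg : ContDiffAt ℂ 1 g p)
    (h0 : g p ≠ 0) : ∃ s : (Fin 2 → ℂ) → ℂ, ContDiffAt ℂ 1 s p ∧ s p ≠ 0 ∧
      ∀ᶠ z in 𝓝 p, s z ^ 2 = g z := by
  obtain ⟨s0, hs0⟩ := IsAlgClosed.exists_pow_nat_eq (g p) (n := 2) (by norm_num)
  have hs : s0 ≠ 0 := by rintro rfl; apply h0; rw [← hs0]; simp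
  refine ⟨fun z => s0 * Complex.exp (Complex.log (g z / g p) / 2), ?_, ?_, ?_⟩
  · refine contDiffAt_const.mul (ContDiffAt.cexp (ContDiffAt.div_const ?_ 2))
    refine ContDiffAt.comp (g := Complex.log) p (Complex.contDiffAt_log ?_) (hg.div_const _)
    rw [div_self h0]; exact Complex.one_mem_slitPlane
  · exact mul_ne_zero hs (Complex.exp_ne_zero _)
  · filter_upwards [hg.continuousAt.eventually_ne h0] with z hz
    rw [mul_pow, hs0, ← Complex.exp_nat_mul]
    have : ((2 : ℕ) : ℂ) * (Complex.log (g z / g p) / 2) = Complex.log (g z / g p) := by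
      push_cast; ring
    rw [this, Complex.exp_log (div_ne_zero hz h0)]
    field_simp

lemma chart {φ : (Fin 2 → ℂ) → (Fin 2 → ℂ)} {p : Fin 2 → ℂ} (hφ : ContDiffAt ℂ 1 φ p)
    (E : (Fin 2 → ℂ) ≃L[ℂ] (Fin 2 → ℂ))
    (dφ : HasFDerivAt φ (E : (Fin 2 → ℂ) →L[ℂ] (Fin 2 → ℂ)) p) {R : (Fin 2 → ℂ) → Prop}
    (hR : ∀ᶠ z in 𝓝 p, R z) :
    ∃ e : OpenPartialHomeomorph (Fin 2 → ℂ) (Fin 2 → ℂ), p ∈ e.source ∧ (∀ z, e z = φ z) ∧
      DifferentiableOn ℂ e e.source ∧ DifferentiableOn ℂ e.symm e.target ∧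
      ∀ z ∈ e.source, R z := by
  let e0 := hφ.toOpenPartialHomeomorph φ dφ one_ne_zero
  have he0 : p ∈ e0.source := hφ.mem_toOpenPartialHomeomorph_source dφ one_ne_zero
  have hinv : ContDiffAt ℂ 1 e0.symm (φ p) := hφ.to_localInverse dφ one_ne_zero
  have hall : ∀ᶠ z in 𝓝 p, DifferentiableAt ℂ φ z ∧ DifferentiableAt ℂ e0.symm (φ z) ∧ R z := by
    filter_upwards [hφ.eventually (by simp), hφ.continuousAt.eventually (hinv.eventually (by simp)),
      hR] with z h1 h2 h3
    exact ⟨h1.differentiableAt one_ne_zero, h2.differentiableAt one_ne_zero, h3⟩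
  obtain ⟨U, hU, hUo, hU0⟩ := eventually_nhds_iff.1 hall
  refine ⟨e0.restrOpen U hUo, ⟨he0, hU0⟩, fun z => rfl, ?_, ?_, ?_⟩
  · intro z hz
    exact (hU z hz.2).1.differentiableWithinAt
  · intro q hq
    have h1 : e0.symm q ∈ U := hq.2
    have h2 : φ (e0.symm q) = q := e0.right_inv hq.1
    have := (hU _ h1).2.1
    rw [h2] at this
    exact this.differentiableWithinAt
  · intro z hz
    exact (hU z hz.2).2.2

lemma deriv_mul_lin {g : (Fin 2 → ℂ) → ℂ} {p : Fin 2 → ℂ} (hg : ContDiffAt ℂ 1 g p)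
    (l : (Fin 2 → ℂ) →L[ℂ] ℂ) : HasFDerivAt (fun z => g z * l (z - p)) (g p • l) p := by
  have h1 : HasFDerivAt (fun z => l (z - p)) l p := by
    have := l.hasFDerivAt.comp p ((hasFDerivAt_id p).sub_const p)
    simpa [Function.comp_def] using this
  have h2 := (hg.differentiableAt one_ne_zero).hasFDerivAt
  exact (h2.fun_mul h1).congr_fderiv (by ext z; simp)

lemma exists_dir {a b c : ℂ} (h : 4 * a * c - b ^ 2 ≠ 0) : ∃ t : ℂ, a + b * t + c * t ^ 2 ≠ 0 := by
  by_contra hn
  push Not at hn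
  have h0 := hn 0
  have h1 := hn 1
  have h2 := hn (-1)
  apply h
  have ha : a = 0 := by linear_combination h0
  have hb : b = 0 := by linear_combination (h1 - h2) / 2
  rw [ha, hb]; ring

theorem morse : MorseS := by
  intro h p hc hh
  obtain ⟨A, B, D, key, hd⟩ := taylor2 p h hc
  rw [hd] at hh
  obtain ⟨t, ht⟩ := exists_dir hh
  let a : (Fin 2 → ℂ) → ℂ := fun z => eval z A + eval z B * t + eval z D * t ^ 2
  let b : (Fin 2 → ℂ) → ℂ := fun z => eval z B / 2 + eval z D * t
  let δ : (Fin 2 → ℂ) → ℂ := fun z => eval z D - b z ^ 2 / a z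
  have hA := contDiff_eval A p
  have hB := contDiff_eval B p
  have hD := contDiff_eval D p
  have ha : ContDiffAt ℂ 1 a p :=
    (hA.add (hB.mul contDiffAt_const)).add (hD.mul contDiffAt_const)
  have hb : ContDiffAt ℂ 1 b p := (hB.div_const 2).add (hD.mul contDiffAt_const)
  have ha0 : a p ≠ 0 := ht
  have hδ : ContDiffAt ℂ 1 δ p := hD.sub ((hb.pow 2).div ha ha0)
  have hδ0 : δ p ≠ 0 := by
    intro h0
    apply hh
    have : δ p * a p = eval p D * a p - b p ^ 2 := by simp only [δ]; field_simp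
    rw [h0, zero_mul] at this
    simp only [a, b] at this
    linear_combination (-4) * this
  obtain ⟨s, hs, hs0, hs2⟩ := exists_sqrt ha ha0
  obtain ⟨r, hr, hr0, hr2⟩ := exists_sqrt hδ hδ0
  let β : (Fin 2 → ℂ) → ℂ := fun z => s z * (b z / a z)
  have hβ : ContDiffAt ℂ 1 β p := hs.mul (hb.div ha ha0)
  let p0 : (Fin 2 → ℂ) →L[ℂ] ℂ := ContinuousLinearMap.proj 0
  let p1 : (Fin 2 → ℂ) →L[ℂ] ℂ := ContinuousLinearMap.proj 1
  let y : (Fin 2 → ℂ) →L[ℂ] ℂ := p1 - t • p0
  let φ : (Fin 2 → ℂ) → (Fin 2 → ℂ) := fun z =>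
    ![s z * p0 (z - p) + β z * y (z - p), r z * y (z - p)]
  have hl : ∀ l : (Fin 2 → ℂ) →L[ℂ] ℂ, ContDiffAt ℂ 1 (fun z => l (z - p)) p := fun l =>
    l.contDiff.contDiffAt.comp p (contDiffAt_id.sub contDiffAt_const)
  have hφ : ContDiffAt ℂ 1 φ p := by
    rw [contDiffAt_pi]
    intro i
    fin_cases i
    · exact (hs.mul (hl p0)).add (hβ.mul (hl y))
    · exact hr.mul (hl y)
  let L : (Fin 2 → ℂ) →L[ℂ] (Fin 2 → ℂ) := ContinuousLinearMap.pi
    ![s p • p0 + β p • y, r p • y]
  let x' : (Fin 2 → ℂ) →L[ℂ] ℂ := (s p)⁻¹ • (p0 - (β p / r p) • p1)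
  let L' : (Fin 2 → ℂ) →L[ℂ] (Fin 2 → ℂ) := ContinuousLinearMap.pi
    ![x', (r p)⁻¹ • p1 + t • x']
  let E : (Fin 2 → ℂ) ≃L[ℂ] (Fin 2 → ℂ) := ContinuousLinearEquiv.equivOfInverse L L'
    (by
      intro z; funext i; fin_cases i <;> simp [L, L', x', y, p0, p1] <;> field_simp <;> ring)
    (by
      intro z; funext i; fin_cases i <;> simp [L, L', x', y, p0, p1] <;> field_simp <;> ring)
  have dφ : HasFDerivAt φ (E : (Fin 2 → ℂ) →L[ℂ] (Fin 2 → ℂ)) p := by
    change HasFDerivAt φ L p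
    rw [hasFDerivAt_pi']
    intro i
    fin_cases i
    · exact (deriv_mul_lin hs p0).add (deriv_mul_lin hβ y)
    · exact deriv_mul_lin hr y
  have hR : ∀ᶠ z in 𝓝 p, φ z 0 ^ 2 + φ z 1 ^ 2 = eval z h - eval p h := by
    filter_upwards [hs2, hr2, ha.continuousAt.eventually_ne ha0] with z h1 h2 h3
    have e1 : eval z h - eval p h = eval z A * (z 0 - p 0) ^ 2 +
        eval z B * (z 0 - p 0) * (z 1 - p 1) + eval z D * (z 1 - p 1) ^ 2 := by
      have := congrArg (eval z) key
      simp only [map_add, map_mul, map_pow, map_sub, eval_C, eval_X] at this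
      linear_combination this
    have e2 : φ z 0 = s z * ((z 0 - p 0) + b z / a z * ((z 1 - p 1) - t * (z 0 - p 0))) := by
      simp [φ, β, y, p0, p1]; ring
    have e3 : φ z 1 = r z * ((z 1 - p 1) - t * (z 0 - p 0)) := by
      simp [φ, y, p0, p1]
    rw [e1, e2, e3, mul_pow, mul_pow, h1, h2]
    simp only [δ]
    have e4 : eval z A = a z - eval z B * t - eval z D * t ^ 2 := by simp only [a]; ring
    have e5 : eval z B = 2 * b z - 2 * eval z D * t := by simp only [b]; ring
    rw [e4, e5]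
    field_simp
    ring
  obtain ⟨e, he, hef, h1, h2, h3⟩ := chart hφ E dφ hR
  refine ⟨e, he, ?_, h1, h2, fun z hz => ?_⟩
  · rw [hef]; funext i; fin_cases i <;> simp [φ]
  · rw [hef]; exact h3 z hz

lemma hasFDeriv_eval (r : Poly) (z : Fin 2 → ℂ) : HasFDerivAt (fun q => eval q r)
    (eval z (pderiv 0 r) • (ContinuousLinearMap.proj 0 : (Fin 2 → ℂ) →L[ℂ] ℂ) +
      eval z (pderiv 1 r) • (ContinuousLinearMap.proj 1 : (Fin 2 → ℂ) →L[ℂ] ℂ)) z := by
  induction r using MvPolynomial.induction_on with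
  | C a =>
    simp only [eval_C]
    exact (hasFDerivAt_const (𝕜 := ℂ) a z).congr_fderiv (by ext v; simp)
  | add f g hf hg =>
    simp only [map_add]
    exact (hf.add hg).congr_fderiv (by ext v; simp; ring)
  | mul_X f i hf =>
    simp only [map_mul, eval_X]
    refine (hf.fun_mul (hasFDerivAt_apply i z)).congr_fderiv ?_
    ext v
    fin_cases i <;> simp [pderiv_X] <;> ring

lemma log_der {ι : Type} [DecidableEq ι] (S : Finset ι) (f : ι → Poly) (n : ι → ℕ)
    (hn : ∀ i, 0 < n i) (k : Fin 2) :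
    (∏ i ∈ S, f i) * pderiv k (∏ i ∈ S, f i ^ n i) =
      (∏ i ∈ S, f i ^ n i) * ∑ i ∈ S, (n i : Poly) * (∏ j ∈ S.erase i, f j) * pderiv k (f i) := by
  induction S using Finset.induction_on with
  | empty => simp
  | insert a S ha ih =>
    rw [Finset.prod_insert ha, Finset.prod_insert ha, Finset.sum_insert ha, Finset.erase_insert ha]
    have h1 : ∑ i ∈ S, (n i : Poly) * (∏ j ∈ (insert a S).erase i, f j) * pderiv k (f i) =
        f a * ∑ i ∈ S, (n i : Poly) * (∏ j ∈ S.erase i, f j) * pderiv k (f i) := by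
      rw [Finset.mul_sum]
      refine Finset.sum_congr rfl fun i hi => ?_
      have hne : a ≠ i := fun h => ha (h ▸ hi)
      rw [Finset.erase_insert_of_ne hne, Finset.prod_insert (fun h => ha (Finset.mem_of_mem_erase h))]
      ring
    obtain ⟨m, hm⟩ : ∃ m, n a = m + 1 := ⟨n a - 1, by have := hn a; omega⟩
    rw [h1, Derivation.leibniz, Derivation.leibniz_pow, hm]
    simp only [smul_eq_mul, Nat.add_sub_cancel, nsmul_eq_mul]
    linear_combination f a ^ (m + 2) * ih

lemma pderiv_comm' (p : Fin 2 → ℂ) (h : Poly) :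
    eval p (pderiv 0 (pderiv 1 h)) = eval p (pderiv 1 (pderiv 0 h)) := by
  rw [← cc_tay, ← cc_tay, ← dS_tay, ← dS_tay, ← dS_tay, ← dS_tay, dS_comm]

theorem logc (hM : MorseS) : LogcS := by
  intro s f lam p w hl hf hw hP hQ hj
  let N : ℕ := ∏ i, (lam i).den
  have hN : 0 < N := Finset.prod_pos fun i _ => (lam i).den_pos
  have hex : ∀ i, ∃ m : ℕ, 0 < m ∧ (m : ℚ) = N * lam i := by
    intro i
    obtain ⟨c, hc⟩ : (lam i).den ∣ N := Finset.dvd_prod_of_mem _ (Finset.mem_univ i)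
    have hnum : 0 < (lam i).num := Rat.num_pos.2 (hl i)
    have e : ((c * (lam i).num.toNat : ℕ) : ℚ) = N * lam i := by
      have h1 : (((lam i).num.toNat : ℕ) : ℚ) = ((lam i).num : ℚ) := by
        rw [← Int.cast_natCast, Int.toNat_of_nonneg hnum.le]
      rw [hc]
      push_cast
      rw [h1, ← Rat.mul_den_eq_num]
      ring
    refine ⟨_, ?_, e⟩
    have : (0 : ℚ) < ((c * (lam i).num.toNat : ℕ) : ℚ) := by
      rw [e]; exact mul_pos (by exact_mod_cast hN) (hl i)
    exact_mod_cast this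
  choose n hn hnq using hex
  have hnc : ∀ i, (n i : Poly) = (N : Poly) * C ((lam i : ℚ) : ℂ) := by
    intro i
    have : (n i : ℂ) = (N : ℂ) * ((lam i : ℚ) : ℂ) := by exact_mod_cast hnq i
    rw [← map_natCast (C : ℂ →+* Poly), this, map_mul, map_natCast]
  set F : Poly := ∏ i, f i with hF
  set h : Poly := ∏ i, f i ^ n i with hh
  have w1 : w.1 = ∑ i, (C ((lam i : ℚ) : ℂ) * ∏ j ∈ Finset.univ.erase i, f j) * pderiv 1 (f i) := by
    rw [hw, Prod.fst_sum]; simp [dform]
  have w2 : w.2 = -∑ i, (C ((lam i : ℚ) : ℂ) * ∏ j ∈ Finset.univ.erase i, f j) *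
      pderiv 0 (f i) := by
    rw [hw, Prod.snd_sum]; simp [dform]
  have E1 : F * pderiv 1 h = (N : Poly) * h * w.1 := by
    rw [hF, hh, log_der _ f n hn 1, w1, mul_comm (N : Poly), mul_assoc]
    congr 1
    rw [Finset.mul_sum]
    exact Finset.sum_congr rfl fun i _ => by rw [hnc]; ring
  have E0 : F * pderiv 0 h = -((N : Poly) * h * w.2) := by
    rw [hF, hh, log_der _ f n hn 0, w2, mul_neg, neg_neg, mul_comm (N : Poly), mul_assoc]
    congr 1
    rw [Finset.mul_sum]
    exact Finset.sum_congr rfl fun i _ => by rw [hnc]; ring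
  have hFp : eval p F ≠ 0 := by
    rw [hF, map_prod]; exact Finset.prod_ne_zero_iff.2 fun i _ => hf i
  have hhp : eval p h ≠ 0 := by
    rw [hh, map_prod]
    exact Finset.prod_ne_zero_iff.2 fun i _ => by rw [map_pow]; exact pow_ne_zero _ (hf i)
  have hF0 : F ≠ 0 := by rintro h0; rw [h0] at hFp; simp at hFp
  clear_value F h
  have c1 : eval p (pderiv 1 h) = 0 := by
    have := congrArg (eval p) E1
    simp only [map_mul, hP, mul_zero] at this
    exact (mul_eq_zero.1 this).resolve_left hFp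
  have c0 : eval p (pderiv 0 h) = 0 := by
    have := congrArg (eval p) E0
    simp only [map_mul, map_neg, hQ, mul_zero, neg_zero] at this
    exact (mul_eq_zero.1 this).resolve_left hFp
  have d1 : ∀ k, eval p F * eval p (pderiv k (pderiv 1 h)) =
      N * eval p h * eval p (pderiv k w.1) := by
    intro k
    have := congrArg (fun r => eval p (pderiv k r)) E1
    simpa [hP, c1] using this
  have d0 : ∀ k, eval p F * eval p (pderiv k (pderiv 0 h)) =
      -(N * eval p h * eval p (pderiv k w.2)) := by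
    intro k
    have := congrArg (fun r => eval p (pderiv k r)) E0
    simpa [hQ, c0] using this
  simp only [jac, dS_tay, cc_tay] at hj
  have hNc : (N : ℂ) ≠ 0 := by exact_mod_cast hN.ne'
  have hH : hess (tay p h) ≠ 0 := by
    simp only [hess, dS_tay, cc_tay]
    intro h0
    have a00 := d0 0
    have a01 := d0 1
    have a10 := d1 0
    have a11 := d1 1
    rw [← pderiv_comm'] at a01
    have : (N * eval p h) ^ 2 * (eval p (pderiv 0 w.1) * eval p (pderiv 1 w.2) -
        eval p (pderiv 1 w.1) * eval p (pderiv 0 w.2)) = 0 := by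
      have b1 : eval p F ^ 2 * (eval p (pderiv 0 (pderiv 0 h)) * eval p (pderiv 1 (pderiv 1 h)) -
          eval p (pderiv 0 (pderiv 1 h)) ^ 2) =
          (eval p F * eval p (pderiv 0 (pderiv 0 h))) * (eval p F * eval p (pderiv 1 (pderiv 1 h)))
          - (eval p F * eval p (pderiv 0 (pderiv 1 h))) *
            (eval p F * eval p (pderiv 0 (pderiv 1 h))) := by ring
      rw [h0, mul_zero] at b1
      nth_rewrite 1 [a10] at b1
      rw [a00, a11, a01] at b1
      linear_combination -b1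
    exact mul_ne_zero (pow_ne_zero 2 (mul_ne_zero hNc hhp)) hj this
  have hint : w.1 * pderiv 0 h + w.2 * pderiv 1 h = 0 := by
    apply mul_left_cancel₀ hF0
    linear_combination w.1 * E0 + w.2 * E1
  obtain ⟨e, he, he0, h1, h2, h3⟩ := hM h p (fun i => by fin_cases i; exacts [c0, c1]) hH
  refine ⟨hP, hQ, by simpa using hj, e, he, he0, h1, h2, fun z hz => ?_⟩
  have hev : (fun q => e q 0 ^ 2 + e q 1 ^ 2) =ᶠ[𝓝 z] fun q => eval q h - eval p h := by
    filter_upwards [e.open_source.mem_nhds hz] with q hq using h3 q hq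
  rw [hev.fderiv_eq, ((hasFDeriv_eval h z).sub_const _).fderiv]
  have := congrArg (eval z) hint
  simp only [map_add, map_mul, map_zero] at this
  simp
  linear_combination this

end MorseA

theorem rowMorse : MorseS ∧ OfLogc := ⟨MorseA.morse, MorseA.logc⟩

end Pool.Agent.MP_aa1ef7_ag.H20
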