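import Pool.Agent.MP_aa1ef7_ag.H20.Spec

/-! Row Nf: a formal first integral descends along an injective map of coefficient rings. -/

namespace Pool.Agent.MP_aa1ef7_ag.H20

namespace NfA

variable {K : Type} [CommRing K]

theorem ord_zero (G : Ser K) : Ord 0 G := fun _ h => absurd h (Nat.not_lt_zero _)

theorem ord_mono {m n : ℕ} {G : Ser K} (h : Ord n G) (hm : m ≤ n) : Ord m G :=
  fun e he => h e (he.trans_le hm)

theorem ord_add {n : ℕ} {A B : Ser K} (hA : Ord n A) (hB : Ord n B) : Ord n (A + B) :=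
  fun e he => by rw [map_add, hA e he, hB e he, add_zero]

theorem ord_sub {n : ℕ} {A B : Ser K} (hA : Ord n A) (hB : Ord n B) : Ord n (A - B) :=
  fun e he => by rw [map_sub, hA e he, hB e he, sub_zero]

theorem ord_mul {m n : ℕ} {A B : Ser K} (hA : Ord m A) (hB : Ord n B) : Ord (m + n) (A * B) := by
  classical
  intro e he
  rw [MvPowerSeries.coeff_mul]
  refine Finset.sum_eq_zero fun p hp => ?_
  rw [← Finset.HasAntidiagonal.mem_antidiagonal.1 hp, Finsupp.add_apply, Finsupp.add_apply] at he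
  by_cases h : p.1 0 + p.1 1 < m
  · rw [hA _ h, zero_mul]
  · rw [hB _ (by omega), mul_zero]

theorem ord_pow {n : ℕ} {A : Ser K} (hA : Ord n A) (k : ℕ) : Ord (n * k) (A ^ k) := by
  induction k with
  | zero => exact ord_zero _
  | succ k ih => rw [pow_succ, mul_add_one]; exact ord_mul ih hA

theorem ord_dS {n : ℕ} {A : Ser K} (hA : Ord (n + 1) A) (i : Fin 2) : Ord n (dS i A) :=
  fun e he => by
    rw [dS, MvPowerSeries.coeff_pderiv, hA _ (by fin_cases i <;> simp <;> omega), zero_mul]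

theorem cc_of_ord {A : Ser K} (hA : Ord 1 A) : cc A = 0 := hA 0 (by simp)

theorem ord_two {A : Ser K} (h : cc A = 0) (h0 : cc (dS 0 A) = 0) (h1 : cc (dS 1 A) = 0) :
    Ord 2 A := by
  intro e he
  have k : ∀ i, cc (dS i A) = MvPowerSeries.coeff (Finsupp.single i 1) A := fun i => by
    rw [cc, ← MvPowerSeries.coeff_zero_eq_constantCoeff_apply, dS, MvPowerSeries.coeff_pderiv]
    simp
  have : e = 0 ∨ e = Finsupp.single 0 1 ∨ e = Finsupp.single 1 1 := by
    simp only [Finsupp.ext_iff, Fin.forall_fin_two]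
    simp
    omega
  rcases this with rfl | rfl | rfl
  · exact h
  · rw [← k, h0]
  · rw [← k, h1]

theorem dS_C (i : Fin 2) (a : K) : dS i (MvPowerSeries.C a : Ser K) = 0 := MvPowerSeries.pderiv_C

theorem dS_00 : dS 0 (MvPowerSeries.X 0 : Ser K) = 1 := MvPowerSeries.pderiv_X_self

theorem dS_11 : dS 1 (MvPowerSeries.X 1 : Ser K) = 1 := MvPowerSeries.pderiv_X_self

theorem dS_01 : dS 0 (MvPowerSeries.X 1 : Ser K) = 0 := MvPowerSeries.pderiv_X_of_ne (by simp)

theorem dS_10 : dS 1 (MvPowerSeries.X 0 : Ser K) = 0 := MvPowerSeries.pderiv_X_of_ne (by simp)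

theorem dS_two (i : Fin 2) : dS i (2 : Ser K) = 0 := by
  rw [← one_add_one_eq_two (R := Ser K), map_add, Derivation.map_one_eq_zero, add_zero]

theorem dS0_qf (P Q : Ser K) : dS 0 (qf P Q) =
    2 * MvPowerSeries.C (cc (dS 0 Q)) * MvPowerSeries.X 0 -
      2 * MvPowerSeries.C (cc (dS 0 P)) * MvPowerSeries.X 1 := by
  simp only [qf, sq, map_sub, Derivation.leibniz, smul_eq_mul, dS_C, dS_00, dS_01, dS_two]
  ring

theorem dS1_qf (P Q : Ser K) : dS 1 (qf P Q) =
    -(2 * MvPowerSeries.C (cc (dS 0 P)) * MvPowerSeries.X 0) -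
      2 * MvPowerSeries.C (cc (dS 1 P)) * MvPowerSeries.X 1 := by
  simp only [qf, sq, map_sub, Derivation.leibniz, smul_eq_mul, dS_C, dS_11, dS_10, dS_two]
  ring

theorem ord_qf (P Q : Ser K) : Ord 2 (qf P Q) :=
  ord_two (by simp [qf, cc]) (by rw [dS0_qf]; simp [cc]) (by rw [dS1_qf]; simp [cc])

theorem ord_lin {P : Ser K} (h : cc P = 0) :
    Ord 2 (P - (MvPowerSeries.C (cc (dS 0 P)) * MvPowerSeries.X 0 +
      MvPowerSeries.C (cc (dS 1 P)) * MvPowerSeries.X 1)) := by
  refine ord_two (by simpa [cc] using h) ?_ ?_ <;>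
    simp only [map_sub, map_add, Derivation.leibniz, smul_eq_mul, dS_C, dS_00, dS_01, dS_10,
      dS_11] <;>
    simp [cc]

theorem ord_vf {P Q : Ser K} (h : Diag P Q) : Ord 3 (P * dS 0 (qf P Q) + Q * dS 1 (qf P Q)) := by
  have k := ord_add (ord_mul (ord_lin h.P0) (ord_dS (ord_qf P Q) 0))
    (ord_mul (ord_lin h.Q0) (ord_dS (ord_qf P Q) 1))
  convert k using 1
  rw [dS0_qf, dS1_qf, h.tr, map_neg]
  ring

theorem hess_qf {P Q A : Ser K} (h : cc (dS 1 Q) = -cc (dS 0 P)) (hA : Ord 3 A) :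
    hess (qf P Q - A) = 4 * jac P Q := by
  have k : ∀ i j, cc (dS i (dS j (qf P Q - A))) = cc (dS i (dS j (qf P Q))) := fun i j => by
    have := cc_of_ord (ord_dS (ord_dS hA j) i)
    simp only [map_sub, cc] at this ⊢
    rw [this, sub_zero]
  rw [hess, k, k, k, jac, h, dS0_qf, dS1_qf]
  simp only [map_sub, map_neg, Derivation.leibniz, smul_eq_mul, dS_C, dS_00, dS_01, dS_10, dS_11,
    dS_two]
  simp [cc, map_ofNat]
  ring

theorem diag_map {K' : Type} [CommRing K'] (j : K →+* K') {P Q : Ser K} (h : Diag P Q) :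
    Diag (MvPowerSeries.map j P) (MvPowerSeries.map j Q) := by
  obtain ⟨lam, h1, h2⟩ := h.lam
  obtain ⟨s, t, h3⟩ := h.cyc
  refine ⟨by rw [cc_map, h.P0, map_zero], by rw [cc_map, h.Q0, map_zero],
    by rw [dS_map, dS_map, cc_map, cc_map, h.tr, map_neg],
    ⟨j lam, h1.map j, by rw [jac_map, ← map_pow, h2, map_neg]⟩, j s, j t, ?_⟩
  simpa [dS_map, cc_map, map_ofNat] using h3.map j

theorem ord_subst {q : Ser K} (hq : Ord 2 q) {r : PowerSeries K} {k : ℕ}
    (h : ∀ m, m < k → PowerSeries.coeff m r = 0) :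
    Ord (2 * k + 1) (PowerSeries.subst q r - MvPowerSeries.C (PowerSeries.coeff k r) * q ^ k) := by
  have hs : PowerSeries.HasSubst q :=
    .of_constantCoeff_zero (cc_of_ord (ord_mono hq one_le_two))
  obtain ⟨r1, rfl⟩ := PowerSeries.X_pow_dvd_iff.2 h
  have e : PowerSeries.coeff k (PowerSeries.X ^ k * r1) = PowerSeries.constantCoeff r1 := by
    simpa using PowerSeries.coeff_X_pow_mul r1 k 0
  obtain ⟨r2, e2⟩ : ∃ r2, r1 = PowerSeries.X * r2 + PowerSeries.C (PowerSeries.constantCoeff r1) :=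
    ⟨_, r1.eq_X_mul_shift_add_const⟩
  rw [e]
  generalize PowerSeries.constantCoeff r1 = ρ at e2
  have := ord_mul (ord_pow hq (k + 1)) (ord_zero (PowerSeries.subst q r2))
  refine ord_mono (by convert this using 1; rw [e2, PowerSeries.subst_mul hs,
    PowerSeries.subst_pow hs, PowerSeries.subst_add hs, PowerSeries.subst_mul hs,
    PowerSeries.subst_X hs, PowerSeries.subst_C]; ring) (by omega)

end NfA

open NfA in
theorem rowNf : OfNf := by
  intro hA hB Λ Ω _ _ _ _ j P Q h lam s t hj H hl hl2 hc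
  obtain ⟨h1, h2⟩ := hB Ω _ _ h H
  have D : Diag P Q := ⟨hj (by rw [← cc_map, H.P0, map_zero]), hj (by rw [← cc_map, H.Q0, map_zero]),
    hj (by rw [map_neg, ← cc_map, ← cc_map, ← dS_map, ← dS_map, h1]), ⟨lam, hl, hl2⟩, s, t, hc⟩
  obtain ⟨A, r, a3, -, e⟩ := hA Λ P Q (qf P Q) 1 D isUnit_one (fun e _ => by simp) 3 _ (ord_vf D)
  have e1 : P * dS 0 (qf P Q - A) + Q * dS 1 (qf P Q - A) = PowerSeries.subst (qf P Q) r := by
    rw [map_sub, map_sub]
    linear_combination e
  have hr : ∀ k, PowerSeries.coeff k r = 0 := fun k => by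
    induction k using Nat.strong_induction_on with
    | _ k ih =>
      refine hj ((h2 (diag_map j D) (MvPowerSeries.map j (qf P Q - A)) k _ ?_).trans
        (map_zero j).symm)
      have := (ord_subst (ord_qf P Q) ih).map j
      rw [← e1] at this
      simpa only [map_sub, map_add, map_mul, map_pow, MvPowerSeries.map_C, dS_map, qf_map]
        using this
  have hs : PowerSeries.HasSubst (qf P Q) :=
    .of_constantCoeff_zero (cc_of_ord (ord_mono (ord_qf P Q) one_le_two))
  have hJ : IsUnit (jac P Q) := by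
    rw [← neg_neg (jac P Q), ← hl2]
    exact (hl.pow 2).neg
  refine ⟨qf P Q - A, D.P0, D.Q0, hJ, ?_, fun i => cc_of_ord (ord_dS (ord_sub (ord_qf P Q)
    (ord_mono a3 (by norm_num))) i), ?_⟩
  · rw [e1, show r = 0 from PowerSeries.ext fun k => by simpa using hr k,
      ← PowerSeries.coe_substAlgHom hs, map_zero]
  · rw [hess_qf D.tr a3]
    refine IsUnit.mul ?_ hJ
    simpa [map_ofNat] using (IsUnit.mk0 (4 : ℚ) (by norm_num)).map (algebraMap ℚ Λ)

end Pool.Agent.MP_aa1ef7_ag.H20
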