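import Pool.Agent.MP_aa1ef7_ag.H20.Spec

/-! Flat sections on a line. -/

namespace Pool.Agent.MP_aa1ef7_ag.H20

namespace OneA

open Polynomial

/-- The operator `a ↦ n g a' - N g' a`. -/
noncomputable def EE (n N : ℕ) (g a : ℂ[X]) : ℂ[X] :=
  (n : ℂ[X]) * (g * derivative a) - (N : ℂ[X]) * derivative g * a

theorem X_sub_mul_der (y : ℂ) (s : ℕ) :
    (X - C y) * derivative ((X - C y) ^ s) = (s : ℂ[X]) * (X - C y) ^ s := by
  cases s with
  | zero => simp
  | succ s =>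
    rw [derivative_pow_succ, derivative_X_sub_C, mul_one, map_add, map_natCast, map_one]
    push_cast
    ring

/-- The local form of the operator at a simple root of `g`. -/
theorem EE_local (n N s : ℕ) (y : ℂ) (h w : ℂ[X]) :
    ∃ B : ℂ[X], EE n N ((X - C y) * h) ((X - C y) ^ s * w) = (X - C y) ^ s * B ∧
      B.eval y = h.eval y * w.eval y * ((n : ℂ) * s - N) := by
  refine ⟨(n : ℂ[X]) * ((s : ℂ[X]) * h * w + (X - C y) * h * derivative w) -
    (N : ℂ[X]) * (h + (X - C y) * derivative h) * w, ?_, ?_⟩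
  · have h1 := X_sub_mul_der y s
    rw [EE, derivative_mul, derivative_mul, derivative_X_sub_C]
    linear_combination (n : ℂ[X]) * h * w * h1
  · simp only [eval_sub, eval_mul, eval_add, eval_natCast, eval_X, eval_C, sub_self]
    ring

theorem factor {a : ℂ[X]} (ha : a ≠ 0) (y : ℂ) :
    ∃ (s : ℕ) (w : ℂ[X]), a = (X - C y) ^ s * w ∧ w.eval y ≠ 0 := by
  obtain ⟨w, h1, h2⟩ := exists_eq_pow_rootMultiplicity_mul_and_not_dvd a ha y
  exact ⟨_, w, h1, fun h => h2 (dvd_iff_isRoot.2 h)⟩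

theorem order_eq {n N : ℕ} {y : ℂ} {h a : ℂ[X]} (hh : h.eval y ≠ 0) (ha : a ≠ 0)
    (hE : EE n N ((X - C y) * h) a = 0) : ∃ s : ℕ, n * s = N ∧ (X - C y) ^ s ∣ a := by
  obtain ⟨s, w, rfl, hw⟩ := factor ha y
  obtain ⟨B, h1, h2⟩ := EE_local n N s y h w
  rw [hE] at h1
  have h3 : B = 0 := (mul_eq_zero.1 h1.symm).resolve_left (pow_ne_zero _ (X_sub_C_ne_zero y))
  rw [h3, eval_zero] at h2
  have h4 : (n : ℂ) * s - N = 0 :=
    (mul_eq_zero.1 h2.symm).resolve_left (mul_ne_zero hh hw)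
  refine ⟨s, ?_, dvd_mul_right _ _⟩
  exact_mod_cast sub_eq_zero.1 h4

theorem no_log {n r : ℕ} (hn : 1 ≤ n) {y : ℂ} {h a S : ℂ[X]} (hh : h.eval y ≠ 0)
    (hS : S.eval y ≠ 0) (hE : EE n (n * r) ((X - C y) * h) a = (X - C y) ^ r * S) : False := by
  have h0 : ∀ k : ℕ, ((X - C y) ^ k : ℂ[X]) ≠ 0 := fun k => pow_ne_zero _ (X_sub_C_ne_zero y)
  by_cases ha : a = 0
  · rw [ha, EE, derivative_zero, mul_zero, mul_zero, mul_zero, sub_zero] at hE
    have h1 : S = 0 := (mul_eq_zero.1 hE.symm).resolve_left (h0 r)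
    exact hS (by rw [h1, eval_zero])
  obtain ⟨s, w, rfl, hw⟩ := factor ha y
  obtain ⟨B, h1, h2⟩ := EE_local n (n * r) s y h w
  rw [hE] at h1
  have hn' : (n : ℂ) ≠ 0 := by exact_mod_cast (by omega : n ≠ 0)
  rcases lt_trichotomy s r with hlt | rfl | hlt
  · obtain ⟨k, rfl⟩ := Nat.exists_eq_add_of_lt hlt
    rw [add_assoc, pow_add, mul_assoc] at h1
    have h3 := congrArg (eval y) (mul_left_cancel₀ (h0 s) h1)
    rw [h2] at h3
    simp only [eval_mul, eval_pow, eval_sub, eval_X, eval_C, sub_self, pow_succ, mul_zero,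
      zero_mul] at h3
    have h4 := (mul_eq_zero.1 h3.symm).resolve_left (mul_ne_zero hh hw)
    have h5 : (n : ℂ) * ((k + 1 : ℕ) : ℂ) = 0 := by
      push_cast at h4 ⊢
      linear_combination -h4
    exact mul_ne_zero hn' (Nat.cast_ne_zero.2 (Nat.succ_ne_zero k)) h5
  · have h3 := congrArg (eval y) (mul_left_cancel₀ (h0 s) h1)
    rw [h2] at h3
    apply hS
    rw [h3]
    push_cast
    ring
  · obtain ⟨k, rfl⟩ := Nat.exists_eq_add_of_lt hlt
    rw [add_assoc, pow_add, mul_assoc] at h1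
    have h3 := congrArg (eval y) (mul_left_cancel₀ (h0 r) h1)
    simp only [eval_mul, eval_pow, eval_sub, eval_X, eval_C, sub_self, pow_succ, mul_zero,
      zero_mul] at h3
    exact hS h3

section Prod

variable {ι : Type} [DecidableEq ι] {J : Finset ι} {α γ : ι → ℂ}

/-- The root of the linear form. -/
noncomputable def rt (α γ : ι → ℂ) (m : ι) : ℂ := -γ m / α m

omit [DecidableEq ι] in
theorem lin_eq {m : ι} (h : α m ≠ 0) :
    C (α m) * X + C (γ m) = (X - C (rt α γ m)) * C (α m) := by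
  have h1 : γ m = -(rt α γ m * α m) := by rw [rt]; field_simp
  rw [sub_mul, ← C_mul, h1, C_neg]
  ring

omit [DecidableEq ι] in
theorem rt_ne (h1 : ∀ m ∈ J, α m ≠ 0) (h2 : ∀ m ∈ J, ∀ k ∈ J, m ≠ k → α m * γ k ≠ α k * γ m)
    {m k : ι} (hm : m ∈ J) (hk : k ∈ J) (hne : m ≠ k) : rt α γ m ≠ rt α γ k := by
  intro h
  rw [rt, rt, div_eq_div_iff (h1 m hm) (h1 k hk)] at h
  exact h2 m hm k hk hne (by linear_combination h)

theorem prod_eq (h1 : ∀ m ∈ J, α m ≠ 0) {m : ι} (hm : m ∈ J) :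
    ∏ k ∈ J, (C (α k) * X + C (γ k)) =
      (X - C (rt α γ m)) * (C (α m) * ∏ k ∈ J.erase m, (C (α k) * X + C (γ k))) := by
  rw [← Finset.mul_prod_erase J _ hm, lin_eq (h1 m hm), mul_assoc]

theorem eval_ne (h1 : ∀ m ∈ J, α m ≠ 0) (h2 : ∀ m ∈ J, ∀ k ∈ J, m ≠ k → α m * γ k ≠ α k * γ m)
    {m : ι} (hm : m ∈ J) :
    (C (α m) * ∏ k ∈ J.erase m, (C (α k) * X + C (γ k))).eval (rt α γ m) ≠ 0 := by
  rw [eval_mul, eval_C, eval_prod]
  refine mul_ne_zero (h1 m hm) (Finset.prod_ne_zero_iff.2 fun k hk => ?_)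
  obtain ⟨hk1, hk2⟩ := Finset.mem_erase.1 hk
  rw [lin_eq (h1 k hk2), eval_mul, eval_C, eval_sub, eval_X, eval_C]
  exact mul_ne_zero (sub_ne_zero.2 (rt_ne h1 h2 hm hk2 hk1.symm)) (h1 k hk2)

theorem eval_zero' (h1 : ∀ m ∈ J, α m ≠ 0) {m j : ι} (hm : m ∈ J) (hne : j ≠ m) :
    (C (α j) * ∏ k ∈ J.erase j, (C (α k) * X + C (γ k))).eval (rt α γ m) = 0 := by
  rw [eval_mul, eval_prod, Finset.prod_eq_zero (Finset.mem_erase.2 ⟨hne.symm, hm⟩), mul_zero]
  rw [lin_eq (h1 m hm), eval_mul, eval_sub, eval_X, eval_C, sub_self, zero_mul]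

theorem flat {n N : ℕ} (hJ : J.Nonempty) (hn : 1 ≤ n) (h1 : ∀ m ∈ J, α m ≠ 0)
    (h2 : ∀ m ∈ J, ∀ k ∈ J, m ≠ k → α m * γ k ≠ α k * γ m) {a : ℂ[X]} (ha : a ≠ 0)
    (hE : EE n N (∏ k ∈ J, (C (α k) * X + C (γ k))) a = 0) :
    n ∣ N ∧ ∃ c : ℂ, a = C c * (∏ k ∈ J, (C (α k) * X + C (γ k))) ^ (N / n) := by
  have h3 : ∀ m ∈ J, ∃ s : ℕ, n * s = N ∧ (X - C (rt α γ m)) ^ s ∣ a := fun m hm =>
    order_eq (eval_ne h1 h2 hm) ha (by rw [← prod_eq h1 hm]; exact hE)
  obtain ⟨m0, hm0⟩ := hJ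
  obtain ⟨r, rfl, -⟩ := h3 m0 hm0
  refine ⟨dvd_mul_right _ _, ?_⟩
  rw [Nat.mul_div_cancel_left _ (by omega)]
  have h4 : (∏ k ∈ J, (C (α k) * X + C (γ k))) ^ r ∣ a := by
    rw [← Finset.prod_pow]
    refine Finset.prod_dvd_of_coprime (fun m hm k hk hne => ?_) fun m hm => ?_
    · have hm' := Finset.mem_coe.1 hm
      have hk' := Finset.mem_coe.1 hk
      show IsCoprime (_ ^ r) (_ ^ r)
      rw [lin_eq (h1 m hm'), lin_eq (h1 k hk')]
      refine IsCoprime.pow ?_
      rw [isCoprime_mul_unit_right_left (isUnit_C.2 (h1 m hm').isUnit),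
        isCoprime_mul_unit_right_right (isUnit_C.2 (h1 k hk').isUnit)]
      exact isCoprime_X_sub_C_of_isUnit_sub (sub_ne_zero.2 (rt_ne h1 h2 hm' hk' hne)).isUnit
    · obtain ⟨s, hs, hd⟩ := h3 m hm
      obtain rfl : s = r := Nat.eq_of_mul_eq_mul_left (by omega) hs
      rw [lin_eq (h1 m hm), mul_pow]
      exact ((isUnit_C.2 (h1 m hm).isUnit).pow s).mul_right_dvd.2 hd
  have hg : (∏ k ∈ J, (C (α k) * X + C (γ k)) : ℂ[X]) ≠ 0 := by
    rw [prod_eq h1 hm0]
    refine mul_ne_zero (X_sub_C_ne_zero _) fun h => eval_ne h1 h2 hm0 ?_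
    rw [h, eval_zero]
  generalize (∏ k ∈ J, (C (α k) * X + C (γ k)) : ℂ[X]) = g at h4 hE hg
  obtain ⟨w, rfl⟩ := h4
  have h5 : g * derivative (g ^ r) = (r : ℂ[X]) * derivative g * g ^ r := by
    cases r with
    | zero => simp
    | succ r =>
      rw [derivative_pow_succ, map_add, map_natCast, map_one]
      push_cast
      ring
  have h6 : (n : ℂ[X]) * (g * g ^ r) * derivative w = 0 := by
    rw [EE, derivative_mul] at hE
    push_cast at hE
    linear_combination hE - (n : ℂ[X]) * w * h5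
  have h7 : derivative w = 0 := (mul_eq_zero.1 h6).resolve_left (mul_ne_zero
    (Nat.cast_ne_zero.2 (by omega)) (mul_ne_zero hg (pow_ne_zero _ hg)))
  exact ⟨w.coeff 0, by rw [← eq_C_of_derivative_eq_zero h7, mul_comm]⟩

end Prod

end OneA

open OneA MvPolynomial in
theorem rowOne : OneS := by
  intro ι _ _ J α γ n N A hJ hn h1 h2 heq
  have hE : ∀ e, (∀ m ∈ J, coeff (e + Finsupp.single m 1) A = 0) →
      EE n N (∏ k ∈ J, (Polynomial.C (α k) * Polynomial.X + Polynomial.C (γ k))) (coeff e A) =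
        0 := by
    intro e he
    have h3 := heq e
    rw [Finset.sum_eq_zero (fun m hm => by rw [coeff_pderiv, he m hm, zero_mul, mul_zero]),
      add_zero] at h3
    rw [EE, h3, sub_self]
  have hdeg : ∀ (e : ι →₀ ℕ), ∀ m ∈ J,
      ∑ k ∈ J, (e + Finsupp.single m 1 : ι →₀ ℕ) k = ∑ k ∈ J, e k + 1 := by
    intro e m hm
    simp only [Finsupp.add_apply, Finset.sum_add_distrib, Finsupp.single_apply]
    rw [Finset.sum_ite_eq, if_pos hm]
  have key : ∀ e, ∀ m ∈ J, coeff (e + Finsupp.single m 1) A = 0 := by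
    intro e0 m0 hm0
    by_contra hne
    obtain ⟨e, he, hmax⟩ := Finset.exists_max_image A.support (fun e => ∑ k ∈ J, e k)
      ⟨_, mem_support_iff.2 hne⟩
    have hk : 1 ≤ ∑ k ∈ J, e k := by
      have := hmax _ (mem_support_iff.2 hne)
      rw [hdeg e0 m0 hm0] at this
      omega
    obtain ⟨m, hm, hem⟩ : ∃ m ∈ J, e m ≠ 0 := by
      by_contra h
      push Not at h
      rw [Finset.sum_eq_zero h] at hk
      omega
    obtain ⟨β, rfl⟩ : ∃ β, e = β + Finsupp.single m 1 :=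
      ⟨e - Finsupp.single m 1, (tsub_add_cancel_of_le (Finsupp.single_le_iff.2 (by omega))).symm⟩
    have htop : ∀ j ∈ J, EE n N
        (∏ k ∈ J, (Polynomial.C (α k) * Polynomial.X + Polynomial.C (γ k)))
        (coeff (β + Finsupp.single j 1) A) = 0 := by
      intro j hj
      refine hE _ fun i hi => ?_
      by_contra h
      have := hmax _ (mem_support_iff.2 h)
      rw [hdeg _ i hi, hdeg _ j hj, hdeg _ m hm] at this
      omega
    obtain ⟨⟨r, rfl⟩, -⟩ := flat hJ hn h1 h2 (mem_support_iff.1 he) (htop m hm)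
    have hc : ∀ j, ∃ c : ℂ, j ∈ J → coeff (β + Finsupp.single j 1) A = Polynomial.C c *
        (∏ k ∈ J, (Polynomial.C (α k) * Polynomial.X + Polynomial.C (γ k))) ^ r := by
      intro j
      by_cases hj : j ∈ J
      · by_cases h0 : coeff (β + Finsupp.single j 1) A = 0
        · exact ⟨0, fun _ => by rw [h0, map_zero, zero_mul]⟩
        · obtain ⟨-, c, hc⟩ := flat hJ hn h1 h2 h0 (htop j hj)
          rw [Nat.mul_div_cancel_left _ (by omega)] at hc
          exact ⟨c, fun _ => hc⟩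
      · exact ⟨0, fun h => absurd h hj⟩
    choose c hc using hc
    have hcm : c m ≠ 0 := fun h => mem_support_iff.1 he (by rw [hc m hm, h, map_zero, zero_mul])
    have h3 := heq β
    have h4 : ∑ j ∈ J, Polynomial.C (α j) *
        (∏ k ∈ J.erase j, (Polynomial.C (α k) * Polynomial.X + Polynomial.C (γ k))) *
        coeff β (pderiv j A) =
        (∏ k ∈ J, (Polynomial.C (α k) * Polynomial.X + Polynomial.C (γ k))) ^ r *
          ∑ j ∈ J, Polynomial.C (α j) *
            (∏ k ∈ J.erase j, (Polynomial.C (α k) * Polynomial.X + Polynomial.C (γ k))) *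
            Polynomial.C (c j * (β j + 1)) := by
      rw [Finset.mul_sum]
      refine Finset.sum_congr rfl fun j hj => ?_
      rw [coeff_pderiv, hc j hj, map_mul, map_add, map_natCast, map_one]
      ring
    rw [h4] at h3
    have h5 : (∑ j ∈ J, Polynomial.C (α j) *
        (∏ k ∈ J.erase j, (Polynomial.C (α k) * Polynomial.X + Polynomial.C (γ k))) *
        Polynomial.C (c j * (β j + 1))).eval (rt α γ m) ≠ 0 := by
      rw [Polynomial.eval_finsetSum, Finset.sum_eq_single m, Polynomial.eval_mul,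
        Polynomial.eval_C]
      · exact mul_ne_zero (eval_ne h1 h2 hm) (mul_ne_zero hcm (Nat.cast_add_one_ne_zero _))
      · intro j _ hne
        rw [Polynomial.eval_mul, eval_zero' h1 hm hne, zero_mul]
      · exact fun h => absurd hm h
    have h6 := eval_ne h1 h2 hm
    rw [prod_eq h1 hm] at h3
    generalize (∑ j ∈ J, Polynomial.C (α j) *
        (∏ k ∈ J.erase j, (Polynomial.C (α k) * Polynomial.X + Polynomial.C (γ k))) *
        Polynomial.C (c j * (β j + 1))) = S at h3 h5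
    generalize Polynomial.C (α m) *
        (∏ k ∈ J.erase m, (Polynomial.C (α k) * Polynomial.X + Polynomial.C (γ k))) = h at h3 h6
    refine no_log (r := r) (a := coeff β A) (S := -((n : Polynomial ℂ) * h ^ r * S)) hn h6 ?_ ?_
    · rw [Polynomial.eval_neg, Polynomial.eval_mul, Polynomial.eval_mul, Polynomial.eval_pow,
        Polynomial.eval_natCast]
      exact neg_ne_zero.2 (mul_ne_zero (mul_ne_zero (Nat.cast_ne_zero.2 (by omega))
        (pow_ne_zero _ h6)) h5)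
    · rw [EE, ← h3, mul_pow]
      ring
  refine ⟨fun m hm => ?_, fun e => ?_⟩
  · ext1 e
    rw [coeff_pderiv, key e m hm, zero_mul, coeff_zero]
  · by_cases h0 : coeff e A = 0
    · exact .inl h0
    · exact .inr (flat hJ hn h1 h2 h0 (hE e (key e)))

end Pool.Agent.MP_aa1ef7_ag.H20
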