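import Pool.Agent.MP_aa1ef7_ag.H20.Spec
import Pool.Agent.MP_aa1ef7_ag.H40.Zar

/-! From very general arrangements to a Zariski open set of arrangements. -/

namespace Pool.Agent.MP_aa1ef7_ag.H20

open MvPolynomial
open Pool.Agent.MP_aa1ef7_ag.H40

namespace OpenA

theorem exists_indep (ι : Type) [Finite ι] : ∃ x : ι → ℂ, AlgebraicIndependent ℚ x := by
  obtain ⟨s, hs⟩ := exists_isTranscendenceBasis ℚ ℂ
  have h := IsAlgClosed.cardinal_eq_cardinal_transcendence_basis_of_aleph0_lt' _ hs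
    (by simp) (by rw [Cardinal.mk_complex]; exact Cardinal.aleph0_lt_continuum)
  have : Infinite s := Cardinal.infinite_iff.2 (by
    rw [← h, Cardinal.mk_complex]; exact Cardinal.aleph0_le_continuum)
  obtain ⟨f, hf⟩ := exists_injective_nat ι
  exact ⟨_, hs.1.comp (Infinite.natEmbedding s ∘ f) ((Infinite.natEmbedding s).injective.comp hf)⟩

variable {d : ℕ}

/-- The property holds off a hypersurface that avoids `l₀`. -/
def Gen (l₀ : Fin (d + 1) → ℂ × ℂ × ℂ) (P : (Fin (d + 1) → ℂ × ℂ × ℂ) → Prop) : Prop :=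
  ∃ Φ : MvPolynomial (Fin (d + 1) × Fin 3) ℂ, eval (coef l₀) Φ ≠ 0 ∧
    ∀ l, eval (coef l) Φ ≠ 0 → P l

variable {l₀ : Fin (d + 1) → ℂ × ℂ × ℂ} {P P' : (Fin (d + 1) → ℂ × ℂ × ℂ) → Prop}

theorem Gen.mono (h : Gen l₀ P) (h' : ∀ l, P l → P' l) : Gen l₀ P' :=
  h.imp fun _ h => ⟨h.1, fun l hl => h' l (h.2 l hl)⟩

theorem Gen.triv (h : ∀ l, P l) : Gen l₀ P := ⟨1, by simp, fun l _ => h l⟩

theorem Gen.and (h : Gen l₀ P) (h' : Gen l₀ P') : Gen l₀ fun l => P l ∧ P' l := by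
  obtain ⟨Φ, h1, h2⟩ := h
  obtain ⟨Ψ, h3, h4⟩ := h'
  refine ⟨Φ * Ψ, by rw [map_mul]; exact mul_ne_zero h1 h3, fun l hl => ?_⟩
  rw [map_mul] at hl
  exact ⟨h2 l (left_ne_zero_of_mul hl), h4 l (right_ne_zero_of_mul hl)⟩

theorem Gen.fin {α : Type} {s : Set α} (hs : s.Finite)
    {Q : α → (Fin (d + 1) → ℂ × ℂ × ℂ) → Prop} (h : ∀ a ∈ s, Gen l₀ (Q a)) :
    Gen l₀ fun l => ∀ a ∈ s, Q a l := by
  induction s, hs using Set.Finite.induction_on with
  | empty => exact Gen.triv (by simp)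
  | @insert a s _ _ ih =>
    exact ((h a (by simp)).and (ih fun b hb => h b (by simp [hb]))).mono fun l hl => by
      simpa using hl

theorem Gen.all {α : Type} [Finite α] {Q : α → (Fin (d + 1) → ℂ × ℂ × ℂ) → Prop}
    (h : ∀ a, Gen l₀ (Q a)) : Gen l₀ fun l => ∀ a, Q a l :=
  (Gen.fin Set.finite_univ fun a _ => h a).mono fun _ hl a => hl a trivial

theorem Gen.imp {p : Prop} (h : p → Gen l₀ P) : Gen l₀ fun l => p → P l := by
  by_cases hp : p
  · exact (h hp).mono fun _ h _ => h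
  · exact Gen.triv fun _ h => (hp h).elim

theorem gen_rat (h : AlgebraicIndependent ℚ (coef l₀)) (p : MvPolynomial (Fin (d + 1) × Fin 3) ℚ)
    (x : Fin (d + 1) × Fin 3 → ℚ) (hp : eval x p ≠ 0) :
    Gen l₀ fun l => aeval (coef l) p ≠ 0 := by
  refine ⟨map (algebraMap ℚ ℂ) p, ?_, fun l hl => by rwa [eval_map, ← aeval_def] at hl⟩
  rw [eval_map, ← aeval_def]
  intro h0
  rw [algebraicIndependent_iff.1 h p h0] at hp
  exact hp (map_zero _)

theorem gen_geo (hd : 2 ≤ d) (h : AlgebraicIndependent ℚ (coef l₀)) : Gen l₀ Geo := by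
  have h1 : Gen l₀ fun l => ∀ m, (l m).2.1 ≠ 0 := Gen.all fun m =>
    (gen_rat h (X (m, 1)) 1 (by simp)).mono fun l hl => by simpa [coef] using hl
  have h2 : Gen l₀ fun l => ∀ i j, i ≠ j → (l i).1 * (l j).2.1 - (l j).1 * (l i).2.1 ≠ 0 :=
    Gen.all fun i => Gen.all fun j => Gen.imp fun hij =>
      (gen_rat h (X (i, 0) * X (j, 1) - X (j, 0) * X (i, 1))
        (fun k => if k = (i, 0) ∨ k = (j, 1) then 1 else 0) (by simp [hij, hij.symm])).mono
        fun l hl => by simpa [coef] using hl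
  have h3 : Gen l₀ fun l => ∀ i j k, i ≠ j → i ≠ k → j ≠ k → ∀ p : Fin 2 → ℂ,
      ¬ (eval p (lin (l i)) = 0 ∧ eval p (lin (l j)) = 0 ∧ eval p (lin (l k)) = 0) :=
    Gen.all fun i => Gen.all fun j => Gen.all fun k => Gen.imp fun hij => Gen.imp fun hik =>
      Gen.imp fun hjk => (gen_rat h
        (X (i, 2) * (X (j, 0) * X (k, 1) - X (k, 0) * X (j, 1)) -
          X (j, 2) * (X (i, 0) * X (k, 1) - X (k, 0) * X (i, 1)) +
          X (k, 2) * (X (i, 0) * X (j, 1) - X (j, 0) * X (i, 1)))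
        (fun q => if q = (i, 0) ∨ q = (j, 1) ∨ q = (k, 2) then 1 else 0)
        (by simp [hij, hij.symm, hik, hik.symm, hjk, hjk.symm])).mono fun l hl p hp => hl (by
          obtain ⟨e1, e2, e3⟩ := hp
          simp only [lin, map_add, map_mul, map_sub, eval_C, eval_X, aeval_X, coef,
            Matrix.cons_val] at e1 e2 e3 ⊢
          linear_combination ((l j).1 * (l k).2.1 - (l k).1 * (l j).2.1) * e1 -
            ((l i).1 * (l k).2.1 - (l k).1 * (l i).2.1) * e2 +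
            ((l i).1 * (l j).2.1 - (l j).1 * (l i).2.1) * e3)
  exact (h1.and (h2.and h3)).mono fun l hl => ⟨hd, hl.2, hl.1⟩

theorem exists_pull (Ψ : MvPolynomial CI ℂ) : ∃ Φ : MvPolynomial (Fin (d + 1) × Fin 3) ℂ,
    ∀ l, eval (coef l) Φ = eval (coords (dform (ff l))) Ψ := by
  let f : Pl (MvPolynomial (Fin (d + 1) × Fin 3) ℂ) :=
    ∏ m, (C (X (m, 0)) * X 0 + C (X (m, 1)) * X 1 + C (X (m, 2)))
  refine ⟨aeval (coordsK (pderiv 1 f) (-pderiv 0 f)) Ψ, fun l => ?_⟩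
  have hf : map (eval (coef l)) f = ff l := by simp [f, ff, lin, coef]
  have : (eval (coef l)).comp (aeval (coordsK (pderiv 1 f) (-pderiv 0 f)) :
      MvPolynomial CI ℂ →ₐ[ℂ] _).toRingHom = eval (coords (dform (ff l))) := by
    ext ⟨b, m⟩
    · simp
    · cases b <;> simp [coordsK, coords, dform, ← hf, pderiv_map, coeff_map]
  exact congrArg (fun g : MvPolynomial CI ℂ →+* ℂ => g Ψ) this

theorem exists_pt {l : Fin (d + 1) → ℂ × ℂ × ℂ} (h : Jac l) :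
    ∃ F₀ : Fol d, IsPt F₀ (dform (∏ i, lin (l i))) :=
  ⟨_, ⟨dform (ff l), (mem_restrictTotalDegree _ _ _).2 (h.degd 1).le,
    (mem_restrictTotalDegree _ _ _).2 ((totalDegree_neg _).trans (h.degd 0)).le⟩,
    fun h0 => h.ned 1 (congrArg (fun v : Form d => (v : Poly × Poly).1) h0), rfl, rfl⟩

end OpenA

open OpenA in
theorem rowOpen : OfOpen := by
  intro hZ hL hJ hV d hd
  obtain ⟨x, hx⟩ := exists_indep (Fin (d + 1) × Fin 3)
  have hx' : AlgebraicIndependent ℚ (coef fun m => (x (m, 0), x (m, 1), x (m, 2))) := by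
    convert hx using 1
    funext ⟨m, k⟩
    fin_cases k <;> rfl
  generalize (fun m => (x (m, 0), x (m, 1), x (m, 2))) = l₀ at hx'
  have h1 := gen_geo hd hx'
  have hp : ∀ l : Fin (d + 1) → ℂ × ℂ × ℂ, Geo l → ∃ F₀ : Fol d,
      IsPt F₀ (dform (∏ i, lin (l i))) := fun l h => exists_pt (hJ d l h (hL d l h))
  obtain ⟨F, v, hv, hv', rfl⟩ := hp l₀ (h1.choose_spec.2 _ h1.choose_spec.1)
  have h2 : Gen l₀ fun l => ∀ C ∈ {C | IsComponent (zcl (Cent d)) C}, ∀ F₀ : Fol d,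
      IsPt F₀ (dform (∏ i, lin (l i))) → F₀ ∈ C →
      ∃ (s : ℕ) (D : Fin s → ℕ), (∀ i, 0 < D i) ∧ ∑ i, D i = d + 1 ∧ C = zcl (LogFam d D) := by
    refine Gen.fin (hZ d _).1 fun C hC => ?_
    by_cases hm : Projectivization.mk ℂ v hv ∈ C
    · exact Gen.triv fun _ _ _ _ => hV d l₀ hd hx' _ ⟨v, hv, hv', rfl⟩ C hC hm
    obtain ⟨S, hS, rfl⟩ := ((hZ d _).2 C hC).1
    simp only [Set.mem_ofPred_eq, not_forall] at hm
    obtain ⟨Ψ, hΨ, hne⟩ := hm
    obtain ⟨n, hn⟩ := hS Ψ hΨ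
    obtain ⟨Φ, hΦ⟩ := exists_pull (d := d) Ψ
    rw [eval_rep_iff hn, hv'] at hne
    refine ⟨Φ, by rw [hΦ]; exact hne, ?_⟩
    rintro l hl _ ⟨w, hw, hw', rfl⟩ hm
    have := hm Ψ hΨ
    rw [eval_rep_iff hn, hw'] at this
    exact (hl ((hΦ l).trans this)).elim
  obtain ⟨Φ, h3, h4⟩ := h1.and h2
  exact ⟨Φ, fun h => h3 (by rw [h, map_zero]), fun l hl =>
    ⟨(h4 l hl).1.gen, hp l (h4 l hl).1, fun F₀ h C hC => (h4 l hl).2 C hC F₀ h⟩⟩

end Pool.Agent.MP_aa1ef7_ag.H20
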