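import Pool.Agent.MP_aa1ef7_ag.H20.Spec

/-! The period map at a Morse point. -/

namespace Pool.Agent.MP_aa1ef7_ag.H20

namespace PerA

theorem cc_add (F G : Ser ℂ) : cc (F + G) = cc F + cc G := map_add _ F G
theorem cc_sub (F G : Ser ℂ) : cc (F - G) = cc F - cc G := map_sub _ F G
theorem cc_mul (F G : Ser ℂ) : cc (F * G) = cc F * cc G := map_mul _ F G
theorem cc_neg (F : Ser ℂ) : cc (-F) = -cc F := map_neg _ F
theorem cc_C (c : ℂ) : cc (MvPowerSeries.C c : Ser ℂ) = c := MvPowerSeries.constantCoeff_C c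
theorem cc_X (i : Fin 2) : cc (MvPowerSeries.X i : Ser ℂ) = 0 := MvPowerSeries.constantCoeff_X i
theorem cc_zero : cc (0 : Ser ℂ) = 0 := map_zero _
theorem cc_one : cc (1 : Ser ℂ) = 1 := map_one _

theorem dS_mul (i : Fin 2) (F G : Ser ℂ) : dS i (F * G) = F * dS i G + G * dS i F := by
  rw [Derivation.leibniz, smul_eq_mul, smul_eq_mul]

theorem dS_C (i : Fin 2) (c : ℂ) : dS i (MvPowerSeries.C c : Ser ℂ) = 0 := MvPowerSeries.pderiv_C
theorem dS_00 : dS 0 (MvPowerSeries.X 0 : Ser ℂ) = 1 := MvPowerSeries.pderiv_X_self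
theorem dS_11 : dS 1 (MvPowerSeries.X 1 : Ser ℂ) = 1 := MvPowerSeries.pderiv_X_self
theorem dS_01 : dS 0 (MvPowerSeries.X 1 : Ser ℂ) = 0 := MvPowerSeries.pderiv_X_of_ne (by decide)
theorem dS_10 : dS 1 (MvPowerSeries.X 0 : Ser ℂ) = 0 := MvPowerSeries.pderiv_X_of_ne (by decide)

theorem ord_zero (G : Ser ℂ) : Ord 0 G := fun _ h => absurd h (Nat.not_lt_zero _)

theorem ord_mono {m n : ℕ} {G : Ser ℂ} (h : Ord n G) (hm : m ≤ n) : Ord m G :=
  fun e he => h e (he.trans_le hm)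

theorem ord_add {n : ℕ} {F G : Ser ℂ} (hF : Ord n F) (hG : Ord n G) : Ord n (F + G) :=
  fun e he => by rw [map_add, hF e he, hG e he, add_zero]

theorem ord_mul {m n : ℕ} {F G : Ser ℂ} (hF : Ord m F) (hG : Ord n G) : Ord (m + n) (F * G) := by
  intro e he
  rw [MvPowerSeries.coeff_mul]
  refine Finset.sum_eq_zero fun x hx => ?_
  have h := Finset.HasAntidiagonal.mem_antidiagonal.1 hx
  have h0 : x.1 0 + x.2 0 = e 0 := by rw [← h]; rfl
  have h1 : x.1 1 + x.2 1 = e 1 := by rw [← h]; rfl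
  by_cases k : x.1 0 + x.1 1 < m
  · rw [hF _ k, zero_mul]
  · rw [hG _ (by omega), mul_zero]

theorem ord_pow {G : Ser ℂ} (h : Ord 2 G) (k : ℕ) : Ord (2 * k) (G ^ k) := by
  induction k with
  | zero => exact ord_zero _
  | succ k ih => rw [pow_succ]; exact ord_mul ih h

theorem ord_succ {n : ℕ} {G : Ser ℂ} (h0 : cc G = 0) (h : ∀ i, Ord n (dS i G)) :
    Ord (n + 1) G := by
  intro e he
  have key : ∀ i : Fin 2, e i ≠ 0 → MvPowerSeries.coeff e G = 0 := by
    intro i hi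
    have e1 : e - Finsupp.single i 1 + Finsupp.single i 1 = e :=
      tsub_add_cancel_of_le (Finsupp.single_le_iff.2 (by omega))
    have e2 : (e - Finsupp.single i 1 : Fin 2 →₀ ℕ) 0 + (e - Finsupp.single i 1 : Fin 2 →₀ ℕ) 1
        < n := by
      fin_cases i <;> simp at hi ⊢ <;> omega
    have h1 := h i _ e2
    rw [dS, MvPowerSeries.coeff_pderiv, e1] at h1
    exact (mul_eq_zero.1 h1).resolve_right (Nat.cast_add_one_ne_zero _)
  by_cases k0 : e 0 = 0
  · by_cases k1 : e 1 = 0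
    · have : e = 0 := by ext i; fin_cases i <;> simpa
      rw [this]
      exact h0
    · exact key 1 k1
  · exact key 0 k0

theorem ord_two {G : Ser ℂ} (h0 : cc G = 0) (h1 : ∀ i, cc (dS i G) = 0) : Ord 2 G :=
  ord_succ h0 fun i => ord_succ (h1 i) fun _ => ord_zero _

theorem ord_three {G : Ser ℂ} (h0 : cc G = 0) (h1 : ∀ i, cc (dS i G) = 0)
    (h2 : ∀ i j, cc (dS j (dS i G)) = 0) : Ord 3 G :=
  ord_succ h0 fun i => ord_two (h1 i) (h2 i)

theorem ord_pow_sub {F G : Ser ℂ} (hF : Ord 2 F) (hG : Ord 2 G) (h : Ord 3 (F - G)) (k : ℕ) :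
    Ord (2 * k + 1) (F ^ k - G ^ k) := by
  induction k with
  | zero => intro e _; simp
  | succ k ih =>
    have e : F ^ (k + 1) - G ^ (k + 1) = F * (F ^ k - G ^ k) + (F - G) * G ^ k := by ring
    rw [e]
    exact ord_add (ord_mono (ord_mul hF ih) (by omega))
      (ord_mono (ord_mul h (ord_pow hG k)) (by omega))

/-- A solution of `T' = g T` with `T(0) = 1`. -/
noncomputable def tc (g : PowerSeries ℂ) : ℕ → ℂ
  | 0 => 1
  | k + 1 => (∑ i ∈ Finset.range (k + 1), PowerSeries.coeff i g * tc g (k - i)) / (k + 1)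
decreasing_by omega

theorem exists_T (g : PowerSeries ℂ) : ∃ T : PowerSeries ℂ, PowerSeries.constantCoeff T = 1 ∧
    PowerSeries.derivative ℂ T = g * T := by
  refine ⟨PowerSeries.mk (tc g), by simp [tc], ?_⟩
  ext k
  rw [PowerSeries.coeff_derivative, PowerSeries.coeff_mk, tc,
    div_mul_cancel₀ _ (Nat.cast_add_one_ne_zero k), PowerSeries.coeff_mul,
    Finset.Nat.sum_antidiagonal_eq_sum_range_succ_mk]
  simp only [PowerSeries.coeff_mk]

variable {φ : Ser ℂ}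

/-- The function with its value at the origin removed. -/
noncomputable def sg (φ : Ser ℂ) : Ser ℂ := φ - MvPowerSeries.C (cc φ)

theorem cc_sg : cc (sg φ) = 0 := by rw [sg, cc_sub, cc_C, sub_self]

theorem dS_sg (i : Fin 2) : dS i (sg φ) = dS i φ := by rw [sg, map_sub, dS_C, sub_zero]

/-- Substitution of `sg φ`. -/
noncomputable def SS (φ : Ser ℂ) : PowerSeries ℂ →ₐ[ℂ] Ser ℂ :=
  PowerSeries.substAlgHom (PowerSeries.HasSubst.of_constantCoeff_zero (a := sg φ) cc_sg)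

theorem SS_eq (r : PowerSeries ℂ) : SS φ r = PowerSeries.subst (sg φ) r := by
  rw [SS, PowerSeries.coe_substAlgHom]

theorem SS_X : SS φ PowerSeries.X = sg φ := PowerSeries.substAlgHom_X _

theorem SS_C (c : ℂ) : SS φ (PowerSeries.C c) = MvPowerSeries.C c := by
  rw [SS_eq, PowerSeries.subst_C]

theorem SS_split (r : PowerSeries ℂ) :
    ∃ W, SS φ r = sg φ * W + MvPowerSeries.C (PowerSeries.constantCoeff r) := by
  refine ⟨SS φ (PowerSeries.mk fun p => PowerSeries.coeff (p + 1) r), ?_⟩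
  rw [← SS_X, ← SS_C, ← map_mul, ← map_add, ← PowerSeries.eq_X_mul_shift_add_const]

theorem cc_SS (r : PowerSeries ℂ) : cc (SS φ r) = PowerSeries.constantCoeff r := by
  obtain ⟨W, h⟩ := SS_split (φ := φ) r
  rw [h, cc_add, cc_mul, cc_sg, cc_C, zero_mul, zero_add]

theorem dS_SS (hs : SubstS) (i : Fin 2) (r : PowerSeries ℂ) :
    dS i (SS φ r) = SS φ (PowerSeries.derivative ℂ r) * dS i φ := by
  rw [SS_eq, hs ℂ _ r i cc_sg, ← SS_eq, dS_sg]

theorem br_SS (hs : SubstS) (r : PowerSeries ℂ) : br dS φ (SS φ r) = 0 := by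
  rw [br, dS_SS hs, dS_SS hs]; ring

theorem br_eq (A : Ser ℂ) : dS 1 φ * dS 0 A + -dS 0 φ * dS 1 A = br dS φ A := by
  rw [br]; ring

theorem fcs (hc : ∀ i, cc (dS i φ) = 0) (hh : hess φ ≠ 0) : FCs (dS 1 φ) (-dS 0 φ) φ where
  P0 := hc 1
  Q0 := by rw [cc_neg, hc, neg_zero]
  jac := by rw [jac_ham]; exact hh.isUnit
  int := by ring
  crit := hc
  hess := hh.isUnit

theorem diag (hc : ∀ i, cc (dS i φ) = 0) (hh : hess φ ≠ 0) : Diag (dS 1 φ) (-dS 0 φ) where
  P0 := hc 1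
  Q0 := by rw [cc_neg, hc, neg_zero]
  tr := by rw [map_neg, cc_neg, dS_comm]
  lam := by
    obtain ⟨z, hz⟩ := IsAlgClosed.exists_pow_nat_eq (-jac (dS 1 φ) (-dS 0 φ)) two_pos
    refine ⟨z, IsUnit.mk0 z ?_, hz⟩
    rintro rfl
    rw [jac_ham] at hz
    exact hh (by simpa using hz)
  cyc := by
    rw [map_neg, cc_neg]
    by_cases h1 : cc (dS 1 (dS 1 φ)) = 0
    · by_cases h0 : cc (dS 0 (dS 0 φ)) = 0
      · refine ⟨1, 1, IsUnit.mk0 _ fun h => hh ?_⟩
        rw [hess, h1, mul_zero]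
        rw [h1, h0] at h
        have : cc (dS 0 (dS 1 φ)) = 0 := by linear_combination (-1 / 2 : ℂ) * h
        rw [this]; simp
      · exact ⟨0, 1, IsUnit.mk0 _ (by simpa using h0)⟩
    · exact ⟨1, 0, IsUnit.mk0 _ (by simpa using h1)⟩

theorem qf_eq : MvPowerSeries.C (-1 / 2 : ℂ) * qf (dS 1 φ) (-dS 0 φ) =
    MvPowerSeries.C (cc (dS 0 (dS 0 φ)) / 2) * (MvPowerSeries.X 0 * MvPowerSeries.X 0) +
      MvPowerSeries.C (cc (dS 0 (dS 1 φ))) * (MvPowerSeries.X 0 * MvPowerSeries.X 1) +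
      MvPowerSeries.C (cc (dS 1 (dS 1 φ)) / 2) * (MvPowerSeries.X 1 * MvPowerSeries.X 1) := by
  have h2 : (MvPowerSeries.C (1 / 2 : ℂ) : Ser ℂ) * 2 = 1 := by
    rw [← map_ofNat (MvPowerSeries.C : ℂ →+* Ser ℂ) 2, ← map_mul]; norm_num
  have e : ∀ a : ℂ, a / 2 = 1 / 2 * a := fun a => by ring
  rw [qf, map_neg, cc_neg, e (cc (dS 0 (dS 0 φ))), e (cc (dS 1 (dS 1 φ))), neg_div, map_neg,
    map_neg, map_mul, map_mul]
  linear_combination (MvPowerSeries.C (cc (dS 0 (dS 1 φ))) * MvPowerSeries.X 0 *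
    MvPowerSeries.X 1) * h2

theorem ord_q : Ord 2 (MvPowerSeries.C (-1 / 2 : ℂ) * qf (dS 1 φ) (-dS 0 φ)) := by
  rw [qf_eq]
  refine ord_two ?_ fun i => ?_
  · simp [cc_add, cc_mul, cc_X]
  · simp [dS_mul, dS_C, cc_add, cc_mul, cc_X, cc_zero]

theorem ord_sq (hc : ∀ i, cc (dS i φ) = 0) :
    Ord 3 (sg φ - MvPowerSeries.C (-1 / 2 : ℂ) * qf (dS 1 φ) (-dS 0 φ)) := by
  rw [qf_eq]
  refine ord_three ?_ (fun i => ?_) fun i j => ?_
  · simp [cc_sub, cc_add, cc_mul, cc_X, cc_sg]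
  · simp [dS_sg, hc, dS_mul, dS_C, cc_sub, cc_add, cc_mul, cc_X, cc_zero]
  · have h : ∀ i : Fin 2, i = 0 ∨ i = 1 := by decide
    rcases h i with rfl | rfl <;> rcases h j with rfl | rfl <;>
      simp only [map_sub, map_add, dS_sg, dS_mul, dS_C, dS_00, dS_01, dS_10, dS_11, cc_sub, cc_add,
        cc_mul, cc_X, cc_C, cc_zero, cc_one, mul_zero, mul_one, add_zero, zero_add, map_zero,
        ← dS_comm] <;> ring

theorem uniq (hb : LocbS) (hc : ∀ i, cc (dS i φ) = 0) (hh : hess φ ≠ 0) {A : Ser ℂ}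
    {r : PowerSeries ℂ} (h : br dS φ A = SS φ r) : r = 0 := by
  have hσ : Ord 2 (sg φ) := ord_two cc_sg fun i => by rw [dS_sg, hc]
  have key : ∀ k, PowerSeries.X ^ k ∣ r := by
    intro k
    induction k with
    | zero => simp
    | succ k ih =>
      obtain ⟨s, rfl⟩ := ih
      obtain ⟨W, hW⟩ := SS_split (φ := φ) s
      have h1 := (hb ℂ _ _ φ (fcs hc hh)).2 (diag hc hh) A k
        (PowerSeries.constantCoeff s * (-1 / 2) ^ k) (by
          have e : dS 1 φ * dS 0 A + -dS 0 φ * dS 1 A - MvPowerSeries.C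
              (PowerSeries.constantCoeff s * (-1 / 2) ^ k) * qf (dS 1 φ) (-dS 0 φ) ^ k =
              sg φ ^ k * sg φ * W + MvPowerSeries.C (PowerSeries.constantCoeff s) * (sg φ ^ k -
                (MvPowerSeries.C (-1 / 2 : ℂ) * qf (dS 1 φ) (-dS 0 φ)) ^ k) := by
            rw [br_eq, h, map_mul, map_pow, SS_X, hW, map_mul, map_pow]
            ring
          rw [e]
          exact ord_add (ord_mono (ord_mul (ord_mul (ord_pow hσ k) hσ) (ord_zero W)) (by omega))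
            (ord_mono (ord_mul (ord_zero _) (ord_pow_sub hσ ord_q (ord_sq hc) k)) (by omega)))
      have h2 : PowerSeries.constantCoeff s = 0 :=
        (mul_eq_zero.1 h1).resolve_right (pow_ne_zero _ (by norm_num))
      rw [pow_succ]
      exact mul_dvd_mul_left _ (PowerSeries.X_dvd_iff.2 h2)
  ext k
  exact PowerSeries.X_pow_dvd_iff.1 (key (k + 1)) k (Nat.lt_succ_self k)

theorem exists_r0 (ha : LocaS) (hb : LocbS) (hc : ∀ i, cc (dS i φ) = 0) (hh : hess φ ≠ 0) :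
    ∃ r0 : Ser ℂ →ₗ[ℂ] PowerSeries ℂ, ∀ G r, r0 G = r ↔ ∃ A, G = br dS φ A + SS φ r := by
  have hex : ∀ G, ∃ r A, G = br dS φ A + SS φ r := fun G => by
    obtain ⟨A, r, -, -, h⟩ := ha ℂ _ _ (sg φ) (-1 / 2) (diag hc hh) (IsUnit.mk0 _ (by norm_num))
      (ord_sq hc) 0 G (ord_zero G)
    exact ⟨r, A, by rw [h, br_eq, SS_eq]⟩
  choose f hf using hex
  have key : ∀ G r, f G = r ↔ ∃ A, G = br dS φ A + SS φ r := by
    intro G r
    constructor
    · rintro rfl; exact hf G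
    · rintro ⟨A, hA⟩
      obtain ⟨B, hB⟩ := hf G
      refine sub_eq_zero.1 (uniq hb hc hh (A := A - B) ?_)
      rw [br_sub, map_sub]
      linear_combination hB - hA
  refine ⟨⟨⟨f, fun F G => ?_⟩, fun c G => ?_⟩, key⟩
  · obtain ⟨A, hA⟩ := hf F
    obtain ⟨B, hB⟩ := hf G
    refine (key _ _).2 ⟨A + B, ?_⟩
    rw [br_add, map_add]
    linear_combination hA + hB
  · obtain ⟨A, hA⟩ := hf G
    refine (key _ _).2 ⟨c • A, ?_⟩
    rw [br_smul, RingHom.id_apply, map_smul, ← smul_add, ← hA]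

/-- The divergence of a field with `E φ = φ - φ(0)` has the value `1` at the origin. -/
theorem cc_div (hc : ∀ i, cc (dS i φ) = 0) (hh : hess φ ≠ 0) {E0 E1 : Ser ℂ}
    (h : sg φ = E0 * dS 0 φ + E1 * dS 1 φ) : cc (dS 0 E0 + dS 1 E1) = 1 := by
  have h0 := congrArg (fun G => cc (dS 0 G)) h
  have h1 := congrArg (fun G => cc (dS 1 G)) h
  have h00 := congrArg (fun G => cc (dS 0 (dS 0 G))) h
  have h01 := congrArg (fun G => cc (dS 0 (dS 1 G))) h
  have h11 := congrArg (fun G => cc (dS 1 (dS 1 G))) h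
  simp only [dS_sg, map_add, dS_mul, cc_add, cc_mul, hc, ← dS_comm, zero_mul, mul_zero,
    add_zero] at h0 h1 h00 h01 h11
  rw [hess] at hh
  have e0 : cc E0 = 0 := by
    refine (mul_eq_zero.1 ?_).resolve_right hh
    linear_combination -cc (dS 1 (dS 1 φ)) * h0 + cc (dS 0 (dS 1 φ)) * h1
  have e1 : cc E1 = 0 := by
    refine (mul_eq_zero.1 ?_).resolve_right hh
    linear_combination cc (dS 0 (dS 1 φ)) * h0 - cc (dS 0 (dS 0 φ)) * h1
  rw [e0, e1] at h00 h01 h11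
  rw [cc_add]
  refine mul_right_cancel₀ hh ?_
  linear_combination (-1 / 2 * cc (dS 1 (dS 1 φ))) * h00 + (-1 / 2 * cc (dS 0 (dS 0 φ))) * h11 +
    cc (dS 0 (dS 1 φ)) * h01

end PerA

open PerA in
theorem rowPer : OfPer := by
  intro hr hs ha hb φ hc hh
  obtain ⟨r0, key⟩ := exists_r0 ha hb hc hh
  obtain ⟨hsub, hreg⟩ := hr φ hc hh
  have hmul : ∀ s G, r0 (SS φ s * G) = s * r0 G := fun s G => by
    obtain ⟨A, hA⟩ := (key G _).1 rfl
    refine (key _ _).2 ⟨SS φ s * A, ?_⟩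
    rw [br_mul, br_SS hs, map_mul]
    linear_combination SS φ s * hA
  have hcc : ∀ G, PowerSeries.constantCoeff (r0 G) = cc G := fun G => by
    obtain ⟨A, hA⟩ := (key G _).1 rfl
    have := congrArg cc hA
    rw [cc_add, cc_SS, br, cc_sub, cc_mul, cc_mul, hc, hc] at this
    rw [this]; ring
  have hbr : ∀ A, r0 (br dS φ A) = 0 := fun A => (key _ _).2 ⟨A, by simp⟩
  have hS : ∀ s, r0 (SS φ s) = s := fun s => (key _ _).2 ⟨0, by simp [br_zero]⟩
  obtain ⟨E0, E1, hE⟩ := hreg (sg φ) cc_sg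
  have hg : PowerSeries.X ∣ r0 (dS 0 E0 + dS 1 E1) - 1 := by
    rw [PowerSeries.X_dvd_iff, map_sub, hcc, cc_div hc hh hE, map_one, sub_self]
  obtain ⟨g, hg⟩ := hg
  obtain ⟨T, hT0, hT⟩ := exists_T g
  have hTne : T ≠ 0 := by
    rintro rfl
    simp at hT0
  refine ⟨(LinearMap.mulLeft ℂ T).comp r0, fun G => ?_, fun G => ?_, fun G => ?_, fun Y0 Y1 => ?_⟩
  · change T * r0 G = 0 ↔ _
    rw [mul_eq_zero, or_iff_right hTne, key]
    simp only [map_zero, add_zero]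
    exact exists_congr fun A => eq_comm
  · change T * r0 (φ * G) = _ * (T * r0 G)
    have e : φ = SS φ (PowerSeries.C (cc φ) + PowerSeries.X) := by
      rw [map_add, SS_C, SS_X, sg]; ring
    have e' := hmul (PowerSeries.C (cc φ) + PowerSeries.X) G
    rw [← e] at e'
    rw [e']; ring
  · change PowerSeries.constantCoeff (T * r0 G) = _
    rw [map_mul, hT0, hcc, one_mul]
  · change T * r0 _ = PowerSeries.derivative ℂ (T * r0 _)
    have h1 : PowerSeries.X ∣ r0 (Y0 * dS 0 φ + Y1 * dS 1 φ) := by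
      rw [PowerSeries.X_dvd_iff, hcc, cc_add, cc_mul, cc_mul, hc, hc]; ring
    obtain ⟨ρ, hρ⟩ := h1
    obtain ⟨A, hA⟩ := (key _ _).1 hρ
    rw [map_mul, SS_X, hE, br] at hA
    obtain ⟨B, -, k0, k1⟩ := hsub.div (Y0 - SS φ ρ * E0 + dS 1 A) trivial
      (Y1 - SS φ ρ * E1 - dS 0 A) trivial (by linear_combination hA)
    have k0' := congrArg (dS 0) k0
    have k1' := congrArg (dS 1) k1
    simp only [map_add, map_sub, map_neg, dS_mul, dS_SS hs, ← dS_comm] at k0' k1'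
    have e : dS 0 Y0 + dS 1 Y1 = br dS φ B + SS φ ρ * (dS 0 E0 + dS 1 E1) +
        SS φ (PowerSeries.X * PowerSeries.derivative ℂ ρ) := by
      rw [map_mul, SS_X, hE, br]
      linear_combination k0' + k1'
    rw [e, map_add, map_add, hbr, hmul, hS, hρ, Derivation.leibniz, Derivation.leibniz, hT,
      PowerSeries.derivative_X]
    simp only [smul_eq_mul]
    linear_combination T * ρ * hg

end Pool.Agent.MP_aa1ef7_ag.H20
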