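import Pool.Agent.MP_aa1ef7_ag.H20.Spec

/-! The Poincaré lemma for polynomials, and series with vanishing Wronskian. -/

namespace Pool.Agent.MP_aa1ef7_ag.H20

open MvPolynomial
open Pool.Agent.MP_aa1ef7_ag.H40

namespace PoincA

section poinc

variable {T : Type} [CommRing T] {ι : Type}

theorem pd_hc (n : ℕ) (k : ι) (p : MvPolynomial ι T) :
    pderiv k (homogeneousComponent n p) =
      if n = 0 then 0 else homogeneousComponent (n - 1) (pderiv k p) := by
  split_ifs with h
  · rw [h, homogeneousComponent_zero, pderiv_C]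
  · ext e
    rw [coeff_pderiv, coeff_homogeneousComponent, coeff_homogeneousComponent, coeff_pderiv,
      map_add, Finsupp.degree_single]
    by_cases h1 : e.degree = n - 1
    · rw [if_pos h1, if_pos (by omega)]
    · rw [if_neg h1, if_neg (by omega), zero_mul]

theorem unit_succ [Algebra ℚ T] (n : ℕ) :
    algebraMap ℚ T ((n + 1 : ℚ)⁻¹) * ((n : T) + 1) = 1 := by
  have h : ((n : T) + 1) = algebraMap ℚ T (n + 1) := by simp
  rw [h, ← map_mul, inv_mul_cancel₀ (by positivity), map_one]

theorem closed_exact [Algebra ℚ T] [Fintype ι] (w : ι → MvPolynomial ι T)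
    (hw : ∀ m n, pderiv n (w m) = pderiv m (w n)) : ∃ A, ∀ m, pderiv m A = w m := by
  classical
  let N := Finset.univ.sup fun m => (w m).totalDegree
  refine ⟨∑ n ∈ Finset.range (N + 1), C (algebraMap ℚ T ((n + 1 : ℚ)⁻¹)) *
    ∑ m, X m * homogeneousComponent n (w m), fun k => ?_⟩
  have h1 : ∀ n : ℕ, pderiv k (C (algebraMap ℚ T ((n + 1 : ℚ)⁻¹)) *
      ∑ m, X m * homogeneousComponent n (w m)) = homogeneousComponent n (w k) := by
    intro n
    have h2 : ∀ m, pderiv k (X m * homogeneousComponent n (w m)) =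
        X m * pderiv m (homogeneousComponent n (w k)) +
          if m = k then homogeneousComponent n (w k) else 0 := by
      intro m
      rw [Derivation.leibniz, pd_hc, pd_hc, hw, pderiv_X, smul_eq_mul, smul_eq_mul]
      by_cases h : m = k
      · subst h; simp
      · simp [h]
    rw [pderiv_C_mul, map_sum, Finset.sum_congr rfl fun m _ => h2 m, Finset.sum_add_distrib,
      (homogeneousComponent_isHomogeneous n (w k)).sum_X_mul_pderiv, Finset.sum_ite_eq',
      if_pos (Finset.mem_univ _), nsmul_eq_mul]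
    have h3 : (C (algebraMap ℚ T ((n + 1 : ℚ)⁻¹)) * ((n : MvPolynomial ι T) + 1)) = 1 := by
      have := congrArg (C : T →+* MvPolynomial ι T) (unit_succ (T := T) n)
      rwa [map_mul, map_add, map_natCast, map_one] at this
    linear_combination homogeneousComponent n (w k) * h3
  rw [map_sum, Finset.sum_congr rfl fun n _ => h1 n]
  have h4 : (w k).totalDegree ≤ N := Finset.le_sup (f := fun m => (w m).totalDegree)
    (Finset.mem_univ k)
  conv_rhs => rw [← sum_homogeneousComponent (w k)]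
  symm
  refine Finset.sum_subset (Finset.range_subset_range.2 (by omega)) fun n _ hn => ?_
  exact homogeneousComponent_eq_zero _ _ (by simpa using hn)

theorem const_of [Algebra ℚ T] (Z : MvPolynomial ι T) (h : ∀ m, pderiv m Z = 0) :
    Z = C (coeff 0 Z) := by
  classical
  ext e
  rw [coeff_C]
  split_ifs with he
  · rw [he]
  · obtain ⟨m, hm⟩ : ∃ m, e m ≠ 0 := by
      by_contra hc
      push Not at hc
      exact he (Finsupp.ext fun m => by simp [hc m])
    have h1 := coeff_pderiv (i := m) Z (e - Finsupp.single m 1)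
    rw [h m, coeff_zero, tsub_add_cancel_of_le
      (Finsupp.single_le_iff.2 (Nat.one_le_iff_ne_zero.2 hm))] at h1
    have h2 := unit_succ (T := T) ((e - Finsupp.single m 1 : ι →₀ ℕ) m)
    calc coeff e Z = coeff e Z * (algebraMap ℚ T _ * _) := by rw [h2, mul_one]
      _ = 0 := by rw [mul_left_comm, ← h1, mul_zero]

end poinc

theorem pd_zero_of_dvd (b : Poly) (i : Fin 2) (h : b ∣ pderiv i b) : pderiv i b = 0 := by
  by_contra hne
  obtain ⟨q, hq⟩ := h
  have hb : b ≠ 0 := by rintro rfl; simp at hne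
  have hq0 : q ≠ 0 := by rintro rfl; simp [hq] at hne
  have h1 : b.totalDegree ≤ (pderiv i b).totalDegree := by
    rw [hq, totalDegree_mul_of_isDomain hb hq0]; omega
  obtain ⟨e, he, hd⟩ := Finset.exists_mem_eq_sup (pderiv i b).support
    (support_nonempty.2 hne) (fun s => s.sum fun _ k => k)
  have h2 : e + Finsupp.single i 1 ∈ b.support := by
    rw [mem_support_iff] at he ⊢
    intro h0
    rw [coeff_pderiv, h0, zero_mul] at he
    exact he rfl
  have h3 := le_totalDegree h2
  rw [Finsupp.sum_add_index' (by simp) (by simp), Finsupp.sum_single_index rfl] at h3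
  have h4 : (pderiv i b).totalDegree = e.sum fun _ k => k := hd
  omega

theorem poly_wron (u v : Poly) (hv : v ≠ 0) (h : ∀ i, u * pderiv i v = v * pderiv i u) :
    ∃ c : ℂ, u = C c * v := by
  obtain ⟨a, b, g, hab, rfl, rfl⟩ := UniqueFactorizationMonoid.exists_reduced_factors' u v hv
  have hg : g ≠ 0 := left_ne_zero_of_mul hv
  have hb : b ≠ 0 := right_ne_zero_of_mul hv
  have h1 : ∀ i, a * pderiv i b = b * pderiv i a := by
    intro i
    have := h i
    simp only [Derivation.leibniz, smul_eq_mul] at this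
    apply mul_left_cancel₀ (mul_ne_zero hg hg)
    linear_combination this
  have h2 : ∀ i, pderiv i b = 0 := fun i =>
    pd_zero_of_dvd b i (hab.symm.dvd_of_dvd_mul_left ⟨_, h1 i⟩)
  have h3 : ∀ i, pderiv i a = 0 := fun i => by
    have := h1 i
    rw [h2, mul_zero] at this
    exact (mul_eq_zero.1 this.symm).resolve_left hb
  obtain ⟨α, rfl⟩ : ∃ α, a = C α := ⟨_, const_of a h3⟩
  obtain ⟨β, rfl⟩ : ∃ β, b = C β := ⟨_, const_of b h2⟩
  have hβ : β ≠ 0 := by rintro rfl; simp at hb
  refine ⟨α / β, ?_⟩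
  rw [mul_left_comm, ← C_mul, div_mul_cancel₀ _ hβ]

variable {d : ℕ} {l : Fin (d + 1) → ℂ × ℂ × ℂ}

theorem clear_SI (B : Bas l) (a : BB l) (ha : a ∈ SI l Finset.univ) :
    ∃ (N : ℕ) (z : Poly), cB l z = cB l (ff l) ^ N * a := by
  obtain ⟨N, Z, hZ⟩ := B.clear a
  have h1 : ∀ m, pderiv m Z = 0 := fun m => by
    apply B.iinj
    rw [← B.Li, hZ, ← map_pow, Derivation.leibniz, B.Lc, ha m (Finset.mem_univ m)]
    simp
  exact ⟨N, coeff 0 Z, by rw [← hZ, ← iB_C, ← const_of Z h1]⟩

theorem ring_wron (B : Bas l) (a b : BB l) (ha : a ∈ SI l Finset.univ)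
    (hb : b ∈ SI l Finset.univ) (hb0 : b ≠ 0) (h : ∀ i, a * dB l i b = b * dB l i a) :
    ∃ c : ℂ, a = algebraMap ℂ (BB l) c * b := by
  obtain ⟨N, z, hz⟩ := clear_SI B a ha
  obtain ⟨M, y, hy⟩ := clear_SI B b hb
  have hu : IsUnit (cB l (ff l) ^ (N + M)) := B.unit.pow _
  have h1 : cB l (ff l ^ M * z) = cB l (ff l) ^ (N + M) * a := by
    rw [map_mul, map_pow, hz]; ring
  have h2 : cB l (ff l ^ N * y) = cB l (ff l) ^ (N + M) * b := by
    rw [map_mul, map_pow, hy]; ring
  generalize cB l (ff l) ^ (N + M) = g at hu h1 h2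
  generalize ff l ^ M * z = u at h1
  generalize ff l ^ N * y = v at h2
  have hv : v ≠ 0 := by
    rintro rfl
    rw [map_zero] at h2
    exact hb0 ((hu.mul_right_eq_zero).1 h2.symm)
  obtain ⟨c, hc⟩ := poly_wron u v hv fun i => by
    apply B.cinj
    rw [map_mul, map_mul, ← dB_cB, ← dB_cB, h1, h2]
    simp only [Derivation.leibniz, smul_eq_mul]
    linear_combination g * g * h i
  refine ⟨c, hu.mul_left_cancel ?_⟩
  rw [← h1, hc, map_mul, cB_C, h2]; ring

theorem step (B : Bas l) (G : PowerSeries (BB l)) (hG : InS (SI l Finset.univ : Set (BB l)) G)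
    (h0 : PowerSeries.constantCoeff G ≠ 0) (F : PowerSeries (BB l))
    (hF : InS (SI l Finset.univ : Set (BB l)) F ∧
      ∀ i, F * cd (dB l i) G = G * cd (dB l i) F) :
    ∃ (c : ℂ) (F1 : PowerSeries (BB l)), (InS (SI l Finset.univ : Set (BB l)) F1 ∧
      ∀ i, F1 * cd (dB l i) G = G * cd (dB l i) F1) ∧
      F = PowerSeries.C (algebraMap ℂ (BB l) c) * G + PowerSeries.X * F1 := by
  obtain ⟨c, hc⟩ := ring_wron B (PowerSeries.coeff 0 F) (PowerSeries.coeff 0 G) (hF.1 0) (hG 0)
    (by simpa using h0) fun i => by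
      have := congrArg (PowerSeries.coeff 0) (hF.2 i)
      simp only [PowerSeries.coeff_zero_eq_constantCoeff_apply, map_mul] at this
      simpa only [← PowerSeries.coeff_zero_eq_constantCoeff_apply, coeff_cd] using this
  obtain ⟨F1, h1⟩ : PowerSeries.X ∣ F - PowerSeries.C (algebraMap ℂ (BB l) c) * G := by
    rw [PowerSeries.X_dvd_iff, ← PowerSeries.coeff_zero_eq_constantCoeff_apply, map_sub,
      PowerSeries.coeff_C_mul, hc, sub_self]
  refine ⟨c, F1, ⟨fun k => ?_, fun i => ?_⟩, by rw [← h1]; ring⟩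
  · rw [← PowerSeries.coeff_succ_X_mul, ← h1, map_sub, PowerSeries.coeff_C_mul]
    exact sub_mem (hF.1 _) (mul_mem (Subalgebra.algebraMap_mem _ c) (hG _))
  · apply PowerSeries.X_mul_cancel
    have h2 := congrArg (cd (dB l i)) h1
    rw [cd_sub, cd_mul, cd_mul, cd_X, cd_C, Derivation.map_algebraMap, map_zero] at h2
    linear_combination hF.2 i - cd (dB l i) G * h1 + G * h2

end PoincA

theorem rowPoinc : PoincS ∧ OfWron := by
  refine ⟨fun T _ _ ι _ => ⟨PoincA.closed_exact, PoincA.const_of⟩, ?_⟩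
  intro _ d l B F G hF hG h0 hW
  let S := {F : PowerSeries (BB l) // InS (SI l Finset.univ : Set (BB l)) F ∧
    ∀ i, F * cd (dB l i) G = G * cd (dB l i) F}
  choose c F1 h1 h2 using fun F : S => PoincA.step B G hG h0 F.1 F.2
  let s : S → S := fun F => ⟨F1 F, h1 F⟩
  let γ : S → PowerSeries ℂ := fun F => PowerSeries.mk fun n => c (s^[n] F)
  have hγ : ∀ F, γ F = PowerSeries.C (c F) + PowerSeries.X * γ (s F) := by
    intro F
    ext k
    cases k with
    | zero => simp [γ]
    | succ k =>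
      simp only [γ, map_add, PowerSeries.coeff_succ_X_mul, PowerSeries.coeff_mk,
        PowerSeries.coeff_C, Function.iterate_succ_apply]
      simp
  have h3 : ∀ F : S, F.1 - PowerSeries.map (algebraMap ℂ (BB l)) (γ F) * G =
      PowerSeries.X * ((s F).1 - PowerSeries.map (algebraMap ℂ (BB l)) (γ (s F)) * G) := by
    intro F
    rw [hγ F, map_add, map_mul, PowerSeries.map_C, PowerSeries.map_X]
    have : (s F).1 = F1 F := rfl
    rw [this]
    linear_combination h2 F
  have h4 : ∀ k, ∀ F : S,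
      PowerSeries.coeff k (F.1 - PowerSeries.map (algebraMap ℂ (BB l)) (γ F) * G) = 0 := by
    intro k
    induction k with
    | zero => intro F; rw [h3]; simp
    | succ k ih => intro F; rw [h3, PowerSeries.coeff_succ_X_mul, ih]
  refine ⟨γ ⟨F, hF, hW⟩, sub_eq_zero.1 ?_⟩
  ext1 k
  rw [map_zero]
  exact h4 k ⟨F, hF, hW⟩

end Pool.Agent.MP_aa1ef7_ag.H20
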