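import Pool.Agent.MP_aa1ef7_ag.H20.Spec

/-! Row Pv: a subspace stable under a regular connection is stable under the rotation. -/

namespace Pool.Agent.MP_aa1ef7_ag.H20

namespace PvA

open PowerSeries

/-- Coefficients of the fundamental solution. -/
noncomputable def Yc {A R : Type} [Field A] [Fintype R] [DecidableEq R]
    (Mc : ℕ → Matrix R R A) : ℕ → Matrix R R A
  | 0 => 1
  | k + 1 => ((k : A) + 1)⁻¹ • ∑ j : Fin (k + 1), Mc (k - j) * Yc Mc j
termination_by n => n
decreasing_by exact j.2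

theorem exists_fund {A R : Type} [Field A] [CharZero A] [Fintype R] [DecidableEq R]
    (M : R → R → PowerSeries A) : ∃ Y : Matrix R R (PowerSeries A),
      Y.map constantCoeff = 1 ∧ ∀ a b, derivative A (Y a b) = ∑ c, M a c * Y c b := by
  let Mc : ℕ → Matrix R R A := fun k => Matrix.of fun a b => coeff k (M a b)
  refine ⟨Matrix.of fun a b => mk fun k => Yc Mc k a b, ?_, fun a b => ?_⟩
  · ext a b
    simp [Yc]
  · ext k
    have hk : (k : A) + 1 ≠ 0 := Nat.cast_add_one_ne_zero k
    rw [coeff_derivative, Matrix.of_apply, coeff_mk, Yc, Matrix.smul_apply, smul_eq_mul,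
      mul_comm, ← mul_assoc, mul_inv_cancel₀ hk, one_mul, map_sum, Matrix.sum_apply]
    simp only [Matrix.mul_apply, Matrix.of_apply]
    rw [Finset.sum_comm]
    refine Finset.sum_congr rfl fun c _ => ?_
    rw [mul_comm, coeff_mul, Finset.Nat.sum_antidiagonal_eq_sum_range_succ_mk,
      Finset.sum_range]
    refine Finset.sum_congr rfl fun j _ => ?_
    simp [Mc, mul_comm]

theorem der_expand {A : Type} [Field A] (e : ℕ) (he : e ≠ 0) (a : PowerSeries A) :
    derivative A (expand e he a) =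
      (e : PowerSeries A) * X ^ (e - 1) * expand e he (derivative A a) := by
  rw [expand_apply, expand_apply, derivative_subst (HasSubst.X_pow he), derivative_pow,
    derivative_X]
  ring

theorem rescale_expand {A : Type} [Field A] (e : ℕ) (he : e ≠ 0) (ζ : A) (hζ : ζ ^ e = 1)
    (a : PowerSeries A) : rescale ζ (expand e he a) = expand e he a := by
  ext n
  rw [coeff_rescale, coeff_expand]
  split_ifs with h
  · obtain ⟨q, rfl⟩ := h
    rw [pow_mul, hζ, one_pow, one_mul]
  · rw [mul_zero]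

theorem der_one {Ω : Type} [Field Ω] {dτ : Ω → Ω}
    (hm : ∀ x y, dτ (x * y) = x * dτ y + y * dτ x) : dτ 1 = 0 := by
  have := hm 1 1
  simp only [mul_one, one_mul] at this
  linear_combination -this

theorem der_zero {Ω : Type} [Field Ω] {dτ : Ω → Ω}
    (hm : ∀ x y, dτ (x * y) = x * dτ y + y * dτ x) : dτ 0 = 0 := by
  simpa using hm 0 0

theorem const {A Ω : Type} [Field A] [CharZero A] [Field Ω]
    [Algebra (PowerSeries A) Ω] [IsFractionRing (PowerSeries A) Ω] {dτ : Ω → Ω}
    (hm : ∀ x y, dτ (x * y) = x * dτ y + y * dτ x)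
    (hd : ∀ a, dτ (algebraMap (PowerSeries A) Ω a) =
      algebraMap (PowerSeries A) Ω (derivative A a)) {x : Ω} (hx : dτ x = 0) :
    ∃ c : A, x = algebraMap (PowerSeries A) Ω (C c) := by
  obtain ⟨a, b, hb, rfl⟩ := IsFractionRing.div_surjective (A := PowerSeries A) x
  have hb0 : b ≠ 0 := nonZeroDivisors.ne_zero hb
  obtain ⟨n, u, rfl⟩ := IsDiscreteValuationRing.eq_unit_mul_pow_irreducible hb0 X_irreducible
  have inj := IsFractionRing.injective (PowerSeries A) Ω
  set j := algebraMap (PowerSeries A) Ω with hj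
  set x := j a / j ((u : PowerSeries A) * X ^ n) with hxdef
  have hb1 : j ((u : PowerSeries A) * X ^ n) ≠ 0 := fun h => hb0 (inj (by rw [h, map_zero]))
  have hX : j (X ^ n) ≠ 0 := fun h =>
    pow_ne_zero n (X_ne_zero (R := A)) (inj (by rw [h, map_zero]))
  set a1 : PowerSeries A := a * ↑u⁻¹ with ha1
  have e1 : x * j (X ^ n) = j a1 := by
    have hu : j u * j ↑u⁻¹ = 1 := by rw [← map_mul]; simp
    have h2 : x * j ((u : PowerSeries A) * X ^ n) = j a := by rw [hxdef, div_mul_cancel₀ _ hb1]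
    rw [map_mul] at h2
    rw [ha1, map_mul, ← h2]
    linear_combination -(x * j (X ^ n)) * hu
  have e2 : X * derivative A a1 = (n : PowerSeries A) * a1 := by
    apply inj
    have h3 := congrArg dτ e1
    rw [hm, hx, hd, hd, mul_zero, add_zero] at h3
    have h4 : (X : PowerSeries A) * derivative A (X ^ n) = (n : PowerSeries A) * X ^ n := by
      rw [derivative_pow, derivative_X]
      rcases n with _ | n
      · simp
      · simp only [Nat.add_sub_cancel]; ring
    have h5 := congrArg j h4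
    rw [map_mul j, map_mul j] at h5
    rw [map_mul j, map_mul j (n : PowerSeries A), ← h3, ← e1]
    linear_combination x * h5
  have e3 : a1 = C (coeff n a1) * X ^ n := by
    ext k
    rw [coeff_C_mul, coeff_X_pow]
    split_ifs with h
    · rw [h, mul_one]
    · have h6 := congrArg (coeff k) e2
      have h7 : coeff k (X * derivative A a1) = k * coeff k a1 := by
        rcases k with _ | k
        · simp
        · rw [coeff_succ_X_mul, coeff_derivative]; push_cast; ring
      have h8 : coeff k ((n : PowerSeries A) * a1) = n * coeff k a1 := by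
        rw [← map_natCast (C (R := A)), coeff_C_mul]
      rw [h7, h8] at h6
      have h9 : (k : A) - n ≠ 0 := sub_ne_zero.2 (by exact_mod_cast h)
      rw [mul_zero]
      apply mul_left_cancel₀ h9
      linear_combination h6
  refine ⟨coeff n a1, mul_right_cancel₀ hX ?_⟩
  rw [e1, ← map_mul, ← e3]

theorem flat {Ω R : Type} [Field Ω] [DecidableEq R] {dτ : Ω → Ω}
    (hm : ∀ x y, dτ (x * y) = x * dτ y + y * dτ x) (W : Submodule Ω (R → Ω))
    (hW : ∀ w ∈ W, (fun b => dτ (w b)) ∈ W) (S : Finset R) :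
    ∀ w ∈ W, w ≠ 0 → (∀ b ∉ S, w b = 0) →
      ∃ w0 ∈ W, ∃ b ∈ S, w0 b = 1 ∧ (∀ b ∉ S, w0 b = 0) ∧ ∀ b, dτ (w0 b) = 0 := by
  induction S using Finset.strongInduction with
  | H S ih =>
    intro w hw h0 hS
    obtain ⟨b, hb⟩ := Function.ne_iff.1 h0
    have hb : w b ≠ 0 := hb
    have hbS : b ∈ S := by by_contra h; exact hb (hS b h)
    have h1 : ((w b)⁻¹ • w) b = 1 := by simp [hb]
    have h2 : ∀ c ∉ S, ((w b)⁻¹ • w) c = 0 := fun c hc => by simp [hS c hc]
    have h3 := W.smul_mem (w b)⁻¹ hw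
    by_cases hz : (fun c => dτ (((w b)⁻¹ • w) c)) = 0
    · exact ⟨_, h3, b, hbS, h1, h2, fun c => congrFun hz c⟩
    · obtain ⟨w0, m0, c, hc, e1, e2, e3⟩ := ih (S.erase b) (Finset.erase_ssubset hbS) _
        (hW _ h3) hz fun c hc => by
          by_cases hcb : c = b
          · rw [hcb, h1, der_one hm]
          · rw [h2 c fun h => hc (Finset.mem_erase.2 ⟨hcb, h⟩), der_zero hm]
      exact ⟨w0, m0, c, Finset.mem_of_mem_erase hc, e1,
        fun a ha => e2 a fun h => ha (Finset.mem_of_mem_erase h), e3⟩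

theorem stable {Ω R : Type} [Field Ω] [DecidableEq R] {dτ : Ω → Ω} (σ : Ω →+* Ω)
    (hm : ∀ x y, dτ (x * y) = x * dτ y + y * dτ x) (hσ : ∀ x, dτ x = 0 → σ x = x)
    (W : Submodule Ω (R → Ω)) (hW : ∀ w ∈ W, (fun b => dτ (w b)) ∈ W) (S : Finset R) :
    ∀ w ∈ W, (∀ b ∉ S, w b = 0) → (fun b => σ (w b)) ∈ W := by
  induction S using Finset.strongInduction with
  | H S ih =>
    intro w hw hS
    by_cases h0 : w = 0
    · subst h0
      have : (fun b => σ ((0 : R → Ω) b)) = 0 := by ext b; simp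
      rw [this]; exact W.zero_mem
    obtain ⟨w0, m0, b, hb, e1, e2, e3⟩ := flat hm W hW S w hw h0 hS
    have h1 := ih (S.erase b) (Finset.erase_ssubset hb) (w - w b • w0)
      (W.sub_mem hw (W.smul_mem _ m0)) fun c hc => by
        by_cases hcb : c = b
        · simp [hcb, e1]
        · have hcS : c ∉ S := fun h => hc (Finset.mem_erase.2 ⟨hcb, h⟩)
          simp [hS c hcS, e2 c hcS]
    have h2 := W.add_mem h1 (W.smul_mem (σ (w b)) m0)
    convert h2 using 1
    ext c
    simp [hσ _ (e3 c)]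

end PvA

open PvA in
theorem rowPv : PvS := by
  intro A Ω R _ _ _ _ _ _ e he dτ σ ζ M W ha hm hd hζ hσ hW w hw
  classical
  obtain ⟨Y, Y0, Yd⟩ := exists_fund M
  set j := algebraMap (PowerSeries A) Ω with hj
  let φ : PowerSeries A →+* Ω := j.comp (PowerSeries.expand e he).toRingHom
  have hφ : ∀ a, φ a = j (PowerSeries.expand e he a) := fun _ => rfl
  have hu : IsUnit (Y.map φ).det := by
    have h1 : IsUnit Y.det := by
      rw [PowerSeries.isUnit_iff_constantCoeff, RingHom.map_det, RingHom.mapMatrix_apply, Y0]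
      simp
    have h2 := h1.map φ
    rwa [RingHom.map_det, RingHom.mapMatrix_apply] at h2
  have inj : Function.Injective (Matrix.vecMulLinear (Y.map φ)) :=
    Matrix.vecMul_injective_iff_isUnit.2 ((Matrix.isUnit_iff_isUnit_det _).2 hu)
  have app : ∀ v b, Matrix.vecMulLinear (Y.map φ) v b = ∑ a, v a * φ (Y a b) := fun v b => by
    simp [Matrix.vecMul, dotProduct]
  let D : Ω →+ Ω := AddMonoidHom.mk' dτ ha
  have dsum : ∀ g : R → Ω, dτ (∑ a, g a) = ∑ a, dτ (g a) := fun g => map_sum D g _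
  have dY : ∀ a b, dτ (φ (Y a b)) = ∑ c, j ((e : PowerSeries A) * PowerSeries.X ^ (e - 1) *
      PowerSeries.expand e he (M a c)) * φ (Y c b) := fun a b => by
    rw [hφ, hd, der_expand, Yd, map_sum, Finset.mul_sum, map_sum]
    refine Finset.sum_congr rfl fun c _ => ?_
    rw [hφ, ← map_mul j, map_mul (PowerSeries.expand e he), mul_assoc (_ * _)]
  have hW' : ∀ v ∈ W.map (Matrix.vecMulLinear (Y.map φ)),
      (fun b => dτ (v b)) ∈ W.map (Matrix.vecMulLinear (Y.map φ)) := by
    rintro _ ⟨v, hv, rfl⟩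
    refine ⟨_, hW v hv, ?_⟩
    ext b
    rw [app, app, dsum]
    simp only [hm, dY, add_mul, Finset.sum_add_distrib, Finset.sum_mul, Finset.mul_sum]
    rw [add_comm, Finset.sum_comm]
    congr 1
    · exact Finset.sum_congr rfl fun _ _ => Finset.sum_congr rfl fun _ _ => by ring
    · exact Finset.sum_congr rfl fun _ _ => by ring
  have hc : ∀ x, dτ x = 0 → σ x = x := fun x hx => by
    obtain ⟨c, rfl⟩ := const hm hd hx
    rw [hσ]
    congr 1
    ext n
    rw [PowerSeries.coeff_rescale, PowerSeries.coeff_C]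
    split_ifs with h
    · rw [h, pow_zero, one_mul]
    · rw [mul_zero]
  obtain ⟨v, hv, ev⟩ := stable σ hm hc _ hW' Finset.univ _ ⟨w, hw, rfl⟩ (by simp)
  have : v = fun b => σ (w b) := by
    apply inj
    rw [ev]
    ext b
    rw [app, app, map_sum]
    refine Finset.sum_congr rfl fun a _ => ?_
    rw [map_mul, hφ, hσ, rescale_expand e he ζ hζ]
  rwa [← this]

end Pool.Agent.MP_aa1ef7_ag.H20
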