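import Pool.Agent.MP_aa1ef7_ag.H20.Spec

/-! Row Rec: recursive construction of first integrals and of the cofactor. -/

namespace Pool.Agent.MP_aa1ef7_ag.H20

namespace RecA

open PowerSeries

variable {S : Type} [CommRing S]

/-- Construction of a series coefficient by coefficient. -/
theorem rec_seq (V : Set S) (G : ℕ → PowerSeries S → Prop)
    (loc : ∀ k h h', (∀ i ≤ k, coeff i h = coeff i h') → G k h → G k h')
    (step : ∀ k h, (∀ i, k ≤ i → coeff i h = 0) → (∀ i < k, coeff i h ∈ V ∧ G i h) →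
      ∃ c ∈ V, G k (h + C c * X ^ k)) :
    ∃ h : PowerSeries S, (∀ k, coeff k h ∈ V) ∧ ∀ k, G k h := by
  let T : ℕ → PowerSeries S → Prop := fun k h =>
    (∀ i, k ≤ i → coeff i h = 0) ∧ ∀ i < k, coeff i h ∈ V ∧ G i h
  have st : ∀ k h, T k h → ∃ h', T (k + 1) h' ∧ ∀ i < k, coeff i h' = coeff i h := by
    intro k h ⟨h1, h2⟩
    obtain ⟨c, hc, hG⟩ := step k h h1 h2
    have e : ∀ i, i ≠ k → coeff i (h + C c * X ^ k) = coeff i h := fun i hi => by
      rw [map_add, coeff_C_mul, coeff_X_pow, if_neg hi, mul_zero, add_zero]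
    refine ⟨h + C c * X ^ k, ⟨fun i hi => ?_, fun i hi => ?_⟩, fun i hi => e i hi.ne⟩
    · rw [e i (by omega), h1 i (by omega)]
    · rcases (Nat.lt_succ_iff.1 hi).eq_or_lt with rfl | hi
      · refine ⟨?_, hG⟩
        rwa [map_add, coeff_C_mul, coeff_X_pow, if_pos rfl, mul_one, h1 i le_rfl, zero_add]
      · exact ⟨by rw [e i hi.ne]; exact (h2 i hi).1,
          loc i h _ (fun j hj => (e j (by omega)).symm) (h2 i hi).2⟩
  choose nx hn1 hn2 using st
  let F : ∀ k, {h // T k h} := fun k => Nat.rec (motive := fun k => {h // T k h})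
    ⟨0, fun i _ => map_zero _, fun i hi => absurd hi (Nat.not_lt_zero i)⟩
    (fun k h => ⟨nx k h.1 h.2, hn1 k h.1 h.2⟩) k
  have hF : ∀ i k, i + 1 ≤ k → coeff i (F k).1 = coeff i (F (i + 1)).1 := by
    intro i k hk
    induction k, hk using Nat.le_induction with
    | base => rfl
    | succ k hk ih => exact (hn2 k (F k).1 (F k).2 i hk).trans ih
  refine ⟨mk fun i => coeff i (F (i + 1)).1, fun k => ?_, fun k => ?_⟩
  · rw [coeff_mk]; exact ((F (k + 1)).2.2 k (Nat.lt_succ_self k)).1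
  · refine loc k (F (k + 1)).1 _ (fun i hi => ?_) ((F (k + 1)).2.2 k (Nat.lt_succ_self k)).2
    rw [coeff_mk, hF i (k + 1) (by omega)]

theorem coeff_low {k : ℕ} {R : PowerSeries S} (h : ∀ i < k, coeff i R = 0) (Z : PowerSeries S) :
    coeff k (R * Z) = coeff k R * coeff 0 Z := by
  rw [coeff_mul, Finset.sum_eq_single (k, 0)]
  · rintro ⟨a, b⟩ hab hne
    have := Finset.HasAntidiagonal.mem_antidiagonal.1 hab
    rw [h a, zero_mul]
    by_contra hc
    exact hne (Prod.ext (by simp only at this ⊢; omega) (by simp only at this ⊢; omega))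
  · intro hc; exact absurd (by simp) hc

theorem coeff_new (c : S) (k : ℕ) (Z : PowerSeries S) :
    coeff k (C c * X ^ k * Z) = c * coeff 0 Z := by
  rw [coeff_low, coeff_C_mul, coeff_X_pow, if_pos rfl, mul_one]
  intro i hi
  rw [coeff_C_mul, coeff_X_pow, if_neg hi.ne, mul_zero]

theorem coeff_mul_loc {k : ℕ} {g g' : PowerSeries S} (h : ∀ i ≤ k, coeff i g = coeff i g')
    (Z : PowerSeries S) : coeff k (g * Z) = coeff k (g' * Z) := by
  rw [coeff_mul, coeff_mul]
  refine Finset.sum_congr rfl fun x hx => ?_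
  rw [h x.1 (by have := Finset.HasAntidiagonal.mem_antidiagonal.1 hx; omega)]

variable [Algebra ℂ S] (D : Fin 2 → Derivation ℂ S S)

theorem coeff_vf (P Q h : PowerSeries S) (k : ℕ) : coeff k (vf D P Q h) =
    ∑ x ∈ Finset.HasAntidiagonal.antidiagonal k,
      (coeff x.1 P * D 0 (coeff x.2 h) + coeff x.1 Q * D 1 (coeff x.2 h)) := by
  simp only [vf, map_add, coeff_mul, coeff_cd, Finset.sum_add_distrib]

theorem cd_new (δ : Derivation ℂ S S) (c : S) (k : ℕ) :
    cd δ (C c * X ^ k) = C (δ c) * X ^ k := by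
  ext i
  rw [coeff_cd, coeff_C_mul, coeff_C_mul, coeff_X_pow]
  split_ifs <;> simp

theorem vf_new {f : S} {P Q : PowerSeries S} (hA : Amb D f P Q) (h : PowerSeries S) (c : S)
    (k : ℕ) : coeff k (vf D P Q (h + C c * X ^ k)) = coeff k (vf D P Q h) + br D f c := by
  have e : vf D P Q (h + C c * X ^ k) =
      vf D P Q h + (C (D 0 c) * X ^ k * P + C (D 1 c) * X ^ k * Q) := by
    simp only [vf, cd_add, cd_new]; ring
  rw [e, map_add, map_add, coeff_new, coeff_new, coeff_zero_eq_constantCoeff, hA.P0, hA.Q0, br]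
  ring

theorem rec0 : Rec0S := by
  intro S _ _ D f P Q V hA hf H
  obtain ⟨h, h1, h2⟩ := rec_seq (V : Set S)
    (fun k h => coeff 0 h = f ∧ coeff k (vf D P Q h) = 0)
    (fun k h h' e hG => ⟨(e 0 (Nat.zero_le k)).symm.trans hG.1, by
      rw [← hG.2, coeff_vf, coeff_vf]
      refine Finset.sum_congr rfl fun x hx => ?_
      rw [e x.2 (by have := Finset.HasAntidiagonal.mem_antidiagonal.1 hx; omega)]⟩)
    (fun k h h1 h2 => by
      rcases Nat.eq_zero_or_pos k with rfl | hk
      · obtain rfl : h = 0 := PowerSeries.ext fun i => h1 i (Nat.zero_le i)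
        refine ⟨f, hf, by simp, ?_⟩
        rw [vf_new D hA, br_self, coeff_vf]
        simp
      · have h0 := (h2 0 hk).2.1
        obtain ⟨A, hAV, e⟩ := H k h (fun i => by
            by_cases hi : i < k
            · exact (h2 i hi).1
            · rw [h1 i (by omega)]; exact zero_mem V)
          (by rw [← coeff_zero_eq_constantCoeff_apply, h0]) fun i hi => (h2 i hi).2.2
        refine ⟨-A, neg_mem hAV, ?_, ?_⟩
        · rw [map_add, coeff_C_mul, coeff_X_pow, if_neg hk.ne, mul_zero, add_zero, h0]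
        · rw [vf_new D hA, ← e, ← br_add, add_neg_cancel, br_zero])
  exact ⟨h, h1, by rw [← coeff_zero_eq_constantCoeff_apply, (h2 0).1],
    PowerSeries.ext fun k => (h2 k).2⟩

theorem rec1 (hO : ObsS) : RecS := by
  intro S _ _ D f P Q T V W hA hT ⟨H, hH, hH0, hH1⟩ hf hVT hW hV
  refine rec0 S D f P Q V hA hf fun k h hh h0 hk => ?_
  obtain ⟨A, hAT, e⟩ := hO S D f P Q T hA hT H hH hH0 k (fun i _ => by rw [hH1, map_zero]) h
    (fun i => hVT _ (hh i)) hk
  obtain ⟨A', hA', e'⟩ := hV A hAT (by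
    rw [e, coeff_vf]
    exact sum_mem fun x _ => hW x.1 _ (hh x.2))
  exact ⟨A', hA', e'.trans e⟩

theorem gdiv : GdivS := by
  intro S _ _ D f P Q U W h hA hT h0 hv hPQ hU hUW
  have c0 : ∀ i, coeff 0 (cd (D i) h) = D i f := fun i => by
    rw [coeff_cd, coeff_zero_eq_constantCoeff_apply, h0]
  have hP0 : coeff 0 P = D 1 f := by rw [coeff_zero_eq_constantCoeff_apply, hA.P0]
  have hQ0 : coeff 0 Q = -D 0 f := by rw [coeff_zero_eq_constantCoeff_apply, hA.Q0]
  have n1 : ∀ g c k, coeff k (P - (g + C c * X ^ k) * cd (D 1) h) =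
      coeff k (P - g * cd (D 1) h) - c * D 1 f := fun g c k => by
    rw [add_mul, map_sub, map_sub, map_add, coeff_new, c0]; ring
  have n2 : ∀ g c k, coeff k (Q + (g + C c * X ^ k) * cd (D 0) h) =
      coeff k (Q + g * cd (D 0) h) + c * D 0 f := fun g c k => by
    rw [add_mul, map_add, map_add, map_add, coeff_new, c0]; ring
  obtain ⟨g, h1, h2⟩ := rec_seq U
    (fun k g => coeff 0 g = 1 ∧ coeff k (P - g * cd (D 1) h) = 0 ∧
      coeff k (Q + g * cd (D 0) h) = 0)
    (fun k g g' e hG => ⟨(e 0 (Nat.zero_le k)).symm.trans hG.1,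
      by rw [← hG.2.1, map_sub, map_sub, coeff_mul_loc e],
      by rw [← hG.2.2, map_add, map_add, coeff_mul_loc e]⟩)
    (fun k g h1 h2 => by
      rcases Nat.eq_zero_or_pos k with rfl | hk
      · obtain rfl : g = 0 := PowerSeries.ext fun i => h1 i (Nat.zero_le i)
        refine ⟨1, hU 1 ?_ ?_, by simp, ?_, ?_⟩
        · rw [one_mul, ← neg_mem_iff, ← hQ0]; exact (hPQ 0).2
        · rw [one_mul, ← hP0]; exact (hPQ 0).1
        · rw [n1, zero_mul, sub_zero, hP0]; ring
        · rw [n2, zero_mul, add_zero, hQ0]; ring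
      · have hW : ∀ i, coeff k (g * cd (D i) h) ∈ W := fun i => by
          rw [coeff_mul]
          refine sum_mem fun x _ => ?_
          by_cases hx : x.1 < k
          · rw [coeff_cd]; exact hUW _ (h2 _ hx).1 _ _
          · rw [h1 _ (by omega), zero_mul]; exact zero_mem W
        have e : (P - g * cd (D 1) h) * cd (D 0) h + (Q + g * cd (D 0) h) * cd (D 1) h = 0 := by
          rw [← hv, vf]; ring
        have e' := congrArg (coeff k) e
        rw [map_add, coeff_low fun i hi => (h2 i hi).2.2.1,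
          coeff_low fun i hi => (h2 i hi).2.2.2, c0, c0, map_zero] at e'
        obtain ⟨c, -, ea, eb⟩ := hT.div _ Algebra.mem_top _ Algebra.mem_top e'
        refine ⟨c, hU c ?_ ?_, ?_, ?_, ?_⟩
        · rw [← neg_mem_iff, ← eb, map_add]; exact add_mem (hPQ k).2 (hW 0)
        · rw [← ea, map_sub]; exact sub_mem (hPQ k).1 (hW 1)
        · rw [map_add, coeff_C_mul, coeff_X_pow, if_neg hk.ne, mul_zero, add_zero,
            (h2 0 hk).2.1]
        · rw [n1, ea, sub_self]
        · rw [n2, eb, neg_add_cancel])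
  refine ⟨g, h1, by rw [← coeff_zero_eq_constantCoeff_apply, (h2 0).1], ?_, ?_⟩
  · exact sub_eq_zero.1 (PowerSeries.ext fun k => (h2 k).2.1)
  · exact eq_neg_of_add_eq_zero_left (PowerSeries.ext fun k => (h2 k).2.2)

end RecA

theorem rowRec : OfRec ∧ GdivS := ⟨fun hO => ⟨RecA.rec0, RecA.rec1 hO⟩, RecA.gdiv⟩

end Pool.Agent.MP_aa1ef7_ag.H20
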