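import Pool.Agent.MP_aa1ef7_ag.H20.Spec

/-! Regularity of the Jacobian ideal at a Morse point and the chain rule for substitution. -/

namespace Pool.Agent.MP_aa1ef7_ag.H20

open MvPolynomial
open Pool.Agent.MP_aa1ef7_ag.H40

namespace RegA

variable {K : Type} [CommRing K]

theorem split (G : Ser K) (hG : cc G = 0) :
    ∃ A B : Ser K, G = MvPowerSeries.X 0 * A + MvPowerSeries.X 1 * B := by
  classical
  let G0 : Ser K := fun e => if e 0 = 0 then MvPowerSeries.coeff e G else 0
  have hG0 : ∀ e : Fin 2 →₀ ℕ, MvPowerSeries.coeff e G0 =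
      if e 0 = 0 then MvPowerSeries.coeff e G else 0 := fun e => rfl
  have h0 : (MvPowerSeries.X 0 : Ser K) ∣ G - G0 := by
    rw [MvPowerSeries.X_dvd_iff]
    intro m hm
    rw [map_sub, hG0, if_pos hm, sub_self]
  have h1 : (MvPowerSeries.X 1 : Ser K) ∣ G0 := by
    rw [MvPowerSeries.X_dvd_iff]
    intro m hm
    rw [hG0]
    split_ifs with h
    · have : m = 0 := by
        ext i
        fin_cases i
        · simpa using h
        · simpa using hm
      rw [this, MvPowerSeries.coeff_zero_eq_constantCoeff_apply]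
      exact hG
    · rfl
  obtain ⟨A, hA⟩ := h0
  obtain ⟨B, hB⟩ := h1
  exact ⟨A, B, by rw [← hA, ← hB]; ring⟩

theorem cc_d0 (A B : Ser K) :
    cc (dS 0 (MvPowerSeries.X 0 * A + MvPowerSeries.X 1 * B)) = cc A := by
  simp [cc, dS, Derivation.leibniz]

theorem cc_d1 (A B : Ser K) :
    cc (dS 1 (MvPowerSeries.X 0 * A + MvPowerSeries.X 1 * B)) = cc B := by
  simp [cc, dS, Derivation.leibniz]

theorem syzX (a b : Ser ℂ) (h : a * MvPowerSeries.X 0 + b * MvPowerSeries.X 1 = 0) :
    ∃ c, a = c * MvPowerSeries.X 1 ∧ b = -(c * MvPowerSeries.X 0) := by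
  classical
  have h1 : (MvPowerSeries.X 1 : Ser ℂ) ∣ a := by
    rw [MvPowerSeries.X_dvd_iff]
    intro m hm
    have hd : (MvPowerSeries.X 1 : Ser ℂ) ∣ a * MvPowerSeries.X 0 :=
      ⟨-b, by linear_combination h⟩
    rw [MvPowerSeries.X_dvd_iff] at hd
    have h2 := hd (m + Finsupp.single 0 1) (by simp [hm])
    rw [MvPowerSeries.X_def, MvPowerSeries.coeff_add_mul_monomial, mul_one] at h2
    exact h2
  obtain ⟨c, hc⟩ := h1
  refine ⟨c, by rw [hc]; ring, ?_⟩
  have hX : (MvPowerSeries.X 1 : Ser ℂ) ≠ 0 := by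
    intro h0
    have := congrArg (MvPowerSeries.coeff (Finsupp.single (1 : Fin 2) 1)) h0
    simp [MvPowerSeries.coeff_X] at this
  apply mul_left_cancel₀ hX
  rw [hc] at h
  linear_combination h

theorem reg : RegS := by
  intro φ h0 hh
  obtain ⟨m00, m01, e0⟩ := split (dS 0 φ) (h0 0)
  obtain ⟨m10, m11, e1⟩ := split (dS 1 φ) (h0 1)
  have c00 : cc (dS 0 (dS 0 φ)) = cc m00 := by rw [e0, cc_d0]
  have c01 : cc (dS 0 (dS 1 φ)) = cc m01 := by rw [dS_comm, e0, cc_d1]
  have c10 : cc (dS 0 (dS 1 φ)) = cc m10 := by rw [e1, cc_d0]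
  have c11 : cc (dS 1 (dS 1 φ)) = cc m11 := by rw [e1, cc_d1]
  have hu : IsUnit (m00 * m11 - m01 * m10) := by
    rw [MvPowerSeries.isUnit_iff_constantCoeff, isUnit_iff_ne_zero]
    have : MvPowerSeries.constantCoeff (m00 * m11 - m01 * m10) = hess φ := by
      rw [hess, sq]
      nth_rewrite 1 [c01]
      rw [c00, c11, c10]
      simp [cc]
    rw [this]; exact hh
  obtain ⟨u, hu⟩ := hu.exists_right_inv
  refine ⟨⟨fun _ _ _ => Algebra.mem_top, fun a _ b _ hab => ?_⟩, fun G hG => ?_⟩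
  · obtain ⟨c, hc1, hc2⟩ := syzX (a * m00 + b * m10) (a * m01 + b * m11) (by
      rw [e0, e1] at hab; linear_combination hab)
    refine ⟨c * u, Algebra.mem_top, ?_, ?_⟩
    · rw [e1]; linear_combination (-a) * hu + (u * m11) * hc1 - (u * m10) * hc2
    · rw [e0]; linear_combination (-b) * hu - (u * m01) * hc1 + (u * m00) * hc2
  · obtain ⟨A, B, hAB⟩ := split G hG
    refine ⟨u * (A * m11 - B * m10), u * (B * m00 - A * m01), ?_⟩
    rw [e0, e1, hAB]
    linear_combination (-(MvPowerSeries.X 0 * A + MvPowerSeries.X 1 * B)) * hu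

theorem coeff_pow_mul (σ W : Ser K) (hσ : cc σ = 0) (e : Fin 2 →₀ ℕ) :
    MvPowerSeries.coeff e (σ ^ (e.degree + 1) * W) = 0 := by
  apply MvPowerSeries.coeff_of_lt_order
  have h1 := MvPowerSeries.le_order_pow_of_constantCoeff_eq_zero (f := σ) (e.degree + 1) hσ
  have h2 := MvPowerSeries.le_order_mul (f := σ ^ (e.degree + 1)) (g := W)
  refine lt_of_lt_of_le ?_ (le_trans (le_trans h1 le_self_add) h2)
  exact_mod_cast Nat.lt_succ_self _

theorem subst_poly (σ : Ser K) (hs : PowerSeries.HasSubst σ) (p : Polynomial K) (i : Fin 2) :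
    dS i (PowerSeries.subst σ (p : PowerSeries K)) =
      PowerSeries.subst σ (PowerSeries.derivative K (p : PowerSeries K)) * dS i σ := by
  simp [PowerSeries.subst_coe hs, PowerSeries.derivative_coe,
    Derivation.comp_aeval_eq (a := σ) (dS i) p, smul_eq_mul]

theorem subst : SubstS := by
  intro K _ σ r i hσ
  have hs : PowerSeries.HasSubst σ := PowerSeries.HasSubst.of_constantCoeff_zero hσ
  ext e
  set n := e.degree with hn
  obtain ⟨r', p, hr⟩ : ∃ (r' : PowerSeries K) (p : Polynomial K),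
      r = PowerSeries.X ^ (n + 2) * r' + (p : PowerSeries K) :=
    ⟨_, _, PowerSeries.eq_X_pow_mul_shift_add_trunc (n + 2) r⟩
  have hd : PowerSeries.derivative K r = PowerSeries.X ^ (n + 1) *
      (PowerSeries.X * PowerSeries.derivative K r' + ((n + 2 : ℕ) : PowerSeries K) * r') +
      PowerSeries.derivative K (p : PowerSeries K) := by
    rw [hr, map_add, Derivation.leibniz, Derivation.leibniz_pow]
    simp
    ring
  have h1 : dS i (PowerSeries.subst σ r) = σ ^ (n + 1) *
      (σ * dS i (PowerSeries.subst σ r') +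
        ((n + 2 : ℕ) : Ser K) * PowerSeries.subst σ r' * dS i σ) +
      dS i (PowerSeries.subst σ (p : PowerSeries K)) := by
    rw [hr, PowerSeries.subst_add hs, PowerSeries.subst_mul hs, PowerSeries.subst_pow hs,
      PowerSeries.subst_X hs, map_add, Derivation.leibniz, Derivation.leibniz_pow]
    simp
    ring
  rw [h1, hd, PowerSeries.subst_add hs, PowerSeries.subst_mul hs, PowerSeries.subst_pow hs,
    PowerSeries.subst_X hs, add_mul, map_add, map_add, subst_poly σ hs, mul_assoc (σ ^ (n + 1)), hn,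
    coeff_pow_mul σ _ hσ, coeff_pow_mul σ _ hσ]

end RegA

theorem rowReg : RegS ∧ SubstS := ⟨RegA.reg, RegA.subst⟩

end Pool.Agent.MP_aa1ef7_ag.H20
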