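import Pool.Agent.MP_aa1ef7_ag.H20.Spec

/-! Residues of a closed form with simple poles are constant; logarithmic forms. -/

namespace Pool.Agent.MP_aa1ef7_ag.H20

open MvPolynomial
open Pool.Agent.MP_aa1ef7_ag.H40

namespace ResA

variable {K : Type} [Field K]

theorem alg_of_dep [CharZero K] {L : Type} [Field L] [Algebra K L] (D : Derivation K L L) {x a : L}
    (hx : D x ≠ 0) (ha : D a = 0) (s : Finset ℕ) (N : ℕ) : ∀ f : ℕ → Polynomial K,
    (∀ k ∈ s, (f k).natDegree ≤ N) → (∃ k ∈ s, f k ≠ 0) →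
    ∑ k ∈ s, Polynomial.aeval x (f k) * a ^ k = 0 → IsAlgebraic K a := by
  have base : ∀ f : ℕ → Polynomial K, (∀ k ∈ s, (f k).natDegree = 0) → (∃ k ∈ s, f k ≠ 0) →
      ∑ k ∈ s, Polynomial.aeval x (f k) * a ^ k = 0 → IsAlgebraic K a := by
    rintro f h ⟨k, hk, hk'⟩ e
    refine ⟨∑ k ∈ s, Polynomial.monomial k ((f k).coeff 0), fun h0 => hk' ?_, ?_⟩
    · have := congrArg (Polynomial.coeff · k) h0
      simp [Polynomial.coeff_monomial, hk] at this
      rw [Polynomial.eq_C_of_natDegree_eq_zero (h k hk), this, map_zero]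
    · rw [map_sum, ← e]
      refine Finset.sum_congr rfl fun k hk => ?_
      conv_rhs => rw [Polynomial.eq_C_of_natDegree_eq_zero (h k hk)]
      simp [Polynomial.aeval_monomial]
  induction N with
  | zero => exact fun f h => base f fun k hk => Nat.le_zero.1 (h k hk)
  | succ N ih =>
    intro f h h1 e
    by_cases h2 : ∃ k ∈ s, Polynomial.derivative (f k) ≠ 0
    · refine ih (fun k => Polynomial.derivative (f k)) (fun k hk =>
        (Polynomial.natDegree_derivative_le _).trans (by have := h k hk; omega)) h2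
        (mul_right_cancel₀ hx ?_)
      rw [zero_mul, ← map_zero D, ← e, map_sum, Finset.sum_mul]
      refine Finset.sum_congr rfl fun k _ => ?_
      simp only [Derivation.leibniz, Derivation.leibniz_pow, ha, Derivation.map_aeval, smul_zero,
        smul_eq_mul]
      ring
    · push Not at h2
      exact base f (fun k hk => Polynomial.derivative_eq_zero.1 (h2 k hk)) h1 e

theorem dep {L : Type} [Field L] [Algebra K L] (π : Pl K →ₐ[K] L) {φ : Pl K} (h0 : φ ≠ 0)
    (hφ : π φ = 0) {i j : Fin 2} (hij : i ≠ j) (hall : ∀ k, k = i ∨ k = j) (m n : Pl K) :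
    ∃ (s : Finset ℕ) (f : ℕ → Polynomial K), (∃ k ∈ s, f k ≠ 0) ∧
      ∑ k ∈ s, Polynomial.aeval (π (X i)) (f k) * (π m * (π n)⁻¹) ^ k = 0 := by
  let Φ : Pl K →ₐ[K] Polynomial (Polynomial K) :=
    aeval fun k => if k = i then Polynomial.C Polynomial.X else Polynomial.X
  have key : ∀ (T : Type) [CommRing T] [Algebra K T] (u : Pl K →ₐ[K] T) (A : Pl K),
      Polynomial.eval₂ (Polynomial.aeval (u (X i))).toRingHom (u (X j)) (Φ A) = u A := by
    intro T _ _ u A
    induction A using MvPolynomial.induction_on with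
    | C c => simp [Polynomial.algebraMap_apply]
    | add a b ha hb => rw [map_add, Polynomial.eval₂_add, ha, hb, map_add]
    | mul_X a k ha =>
      rw [map_mul, Polynomial.eval₂_mul, ha, map_mul]
      rcases hall k with rfl | rfl <;> simp [Φ, hij.symm]
  let _ : Algebra (Polynomial K) L := (Polynomial.aeval (π (X i))).toRingHom.toAlgebra
  have alg : ∀ A, IsAlgebraic (Polynomial K) (π A) := by
    intro A
    induction A using MvPolynomial.induction_on with
    | C c =>
      convert isAlgebraic_algebraMap (A := L) (Polynomial.C c)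
      simp [RingHom.algebraMap_toAlgebra]
    | add a b ha hb => rw [map_add]; exact ha.add hb
    | mul_X a k ha =>
      rw [map_mul]
      refine ha.mul ?_
      rcases hall k with rfl | rfl
      · exact (Polynomial.aeval_X (R := K) (π (X k))) ▸
          isAlgebraic_algebraMap (A := L) (Polynomial.X : Polynomial K)
      · refine ⟨Φ φ, fun h => h0 ?_, (key L π φ).trans hφ⟩
        simpa [h] using (key _ (AlgHom.id K _) φ).symm
  obtain ⟨F, hF, e⟩ := (alg m).mul (alg n).inv
  refine ⟨F.support, F.coeff, ?_, ?_⟩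
  · obtain ⟨k, hk⟩ := Polynomial.support_nonempty.2 hF
    exact ⟨k, hk, Polynomial.mem_support_iff.1 hk⟩
  · rwa [Polynomial.aeval_def, Polynomial.eval₂_eq_sum, Polynomial.sum_def] at e

theorem const [CharZero K] [IsAlgClosed K] {φ : Pl K} (hφ : Irreducible φ) {i j : Fin 2}
    (hij : i ≠ j) (hall : ∀ k, k = i ∨ k = j) (hj : ¬ φ ∣ pderiv j φ) {m n : Pl K} (hn : ¬ φ ∣ n)
    (h : φ ∣ n * (pderiv j φ * pderiv i m - pderiv i φ * pderiv j m) -
      m * (pderiv j φ * pderiv i n - pderiv i φ * pderiv j n)) : ∃ μ : K, φ ∣ m - C μ * n := by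
  let I : Ideal (Pl K) := Ideal.span {φ}
  have hI : I.IsPrime := (Ideal.span_singleton_prime hφ.ne_zero).2 hφ.prime
  let D : Derivation K (Pl K) (Pl K) := pderiv j φ • pderiv i - pderiv i φ • pderiv j
  have hD : ∀ A, D A = pderiv j φ * pderiv i A - pderiv i φ * pderiv j A := fun A => by simp [D]
  have hk : ∀ A, Ideal.Quotient.mk I A = 0 ↔ φ ∣ A := fun A =>
    Ideal.Quotient.eq_zero_iff_mem.trans Ideal.mem_span_singleton
  obtain ⟨D1, hD1⟩ := exists_der_of_hom (k := K)
    (Ideal.Quotient.lift I (dualHom (Ideal.Quotient.mk I) D) (by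
      intro a ha
      obtain ⟨c, rfl⟩ := Ideal.mem_span_singleton.1 ha
      have : dualHom (Ideal.Quotient.mk I) D φ = 0 := by
        ext
        · rw [dualHom_fst]; exact (hk φ).2 dvd_rfl
        · rw [dualHom_snd, hD, mul_comm, sub_self, map_zero]; rfl
      rw [map_mul, this, zero_mul]))
    (fun a => by
      obtain ⟨a, rfl⟩ := Ideal.Quotient.mk_surjective a
      exact dualHom_fst _ _ _)
    (fun c => (dualHom_snd (Ideal.Quotient.mk I) D (C c)).trans (by simp))
  obtain ⟨D2, hD2⟩ := exists_der_loc (k := K) (A := FractionRing (Pl K ⧸ I))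
    (nonZeroDivisors (Pl K ⧸ I)) D1
  let π : Pl K →ₐ[K] FractionRing (Pl K ⧸ I) :=
    (IsScalarTower.toAlgHom K (Pl K ⧸ I) _).comp (Ideal.Quotient.mkₐ K I)
  have hπ : ∀ A, π A = 0 ↔ φ ∣ A := fun A =>
    (map_eq_zero_iff _ (IsFractionRing.injective (Pl K ⧸ I) _)).trans (hk A)
  have hπD : ∀ A, D2 (π A) = π (D A) := fun A =>
    (hD2 _).trans (congrArg _ ((hD1 _).trans (dualHom_snd _ _ _)))
  have hn' := mt (hπ n).1 hn
  obtain ⟨s, f, h1, h2⟩ := dep π hφ.ne_zero ((hπ φ).2 dvd_rfl) hij hall m n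
  have ha : D2 (π m * (π n)⁻¹) = 0 := by
    have e := (hπ _).2 h
    rw [← hD, ← hD, map_sub, map_mul, map_mul, ← hπD, ← hπD] at e
    rw [Derivation.leibniz, Derivation.leibniz_inv]
    simp only [smul_eq_mul]
    field_simp
    linear_combination e
  have := (alg_of_dep D2 (x := π (X i)) (by
    rw [hπD, hD]
    simpa [pderiv_X, hij, hij.symm] using mt (hπ _).1 hj) ha s _ f
    (fun k hk => Finset.le_sup (f := fun k => (f k).natDegree) hk) h1 h2).isIntegral
  obtain ⟨μ, hμ⟩ := minpoly.mem_range_of_degree_eq_one K _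
    (IsAlgClosed.degree_eq_one_of_irreducible K (minpoly.irreducible this))
  refine ⟨μ, (hπ _).1 ?_⟩
  rw [map_sub, map_mul, algHom_C, hμ]
  field_simp
  ring

theorem resid [CharZero K] [IsAlgClosed K] {φ : Pl K} (hφ : Irreducible φ) {i j : Fin 2}
    (hij : i ≠ j) (hall : ∀ k, k = i ∨ k = j) (hj : ¬ φ ∣ pderiv j φ)
    (hc : pderiv j (pderiv i φ) = pderiv i (pderiv j φ)) {P Q G : Pl K} (hG : ¬ φ ∣ G)
    (h : P * pderiv i (φ * G) + Q * pderiv j (φ * G) = φ * G * (pderiv i P + pderiv j Q)) :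
    ∃ μ : K, φ ∣ P - C μ * G * pderiv j φ ∧ φ ∣ Q + C μ * G * pderiv i φ := by
  simp only [Derivation.leibniz, smul_eq_mul] at h
  obtain ⟨κ, hκ⟩ : φ ∣ P * pderiv i φ + Q * pderiv j φ :=
    (hφ.prime.dvd_or_dvd (a := G) ⟨G * (pderiv i P + pderiv j Q) - P * pderiv i G - Q * pderiv j G,
      by linear_combination h⟩).resolve_left hG
  have h1 : κ * G + P * pderiv i G + Q * pderiv j G = G * (pderiv i P + pderiv j Q) :=
    mul_left_cancel₀ hφ.ne_zero (by linear_combination h - G * hκ)
  have h2 := congrArg (pderiv j) hκ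
  simp only [map_add, Derivation.leibniz, smul_eq_mul, hc] at h2
  obtain ⟨μ, c, hμ⟩ := const hφ hij hall hj (m := P) (n := G * pderiv j φ)
    (fun h => (hφ.prime.dvd_or_dvd h).elim hG hj)
    ⟨κ * pderiv j φ * pderiv j G + κ * G * pderiv j (pderiv j φ) - G * pderiv j φ * pderiv j κ, by
      simp only [Derivation.leibniz, smul_eq_mul]
      linear_combination (pderiv j φ * pderiv j G + G * pderiv j (pderiv j φ)) * hκ -
        pderiv j φ ^ 2 * h1 - G * pderiv j φ * h2⟩
  refine ⟨μ, ⟨c, by linear_combination hμ⟩, (hφ.prime.dvd_or_dvd (a := pderiv j φ)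
    ⟨κ - c * pderiv i φ, by linear_combination hκ - pderiv i φ * hμ⟩).resolve_left hj⟩

theorem deg_pos {φ : Pl K} (hφ : Irreducible φ) : 0 < φ.totalDegree := by
  refine Nat.pos_of_ne_zero fun h => hφ.not_isUnit ?_
  have e := totalDegree_eq_zero_iff_eq_C.1 h
  rw [e]
  refine (IsUnit.mk0 _ fun h0 => hφ.ne_zero ?_).map C
  rw [e, h0, map_zero]

theorem not_both [CharZero K] {φ : Pl K} (hφ : Irreducible φ) : ¬ ∀ i, φ ∣ pderiv i φ := by
  intro h
  have hp := deg_pos hφ
  have h0 : ∀ i, pderiv i φ = 0 := fun i => by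
    by_contra h1
    have := (totalDegree_le_of_dvd_of_isDomain (h i) h1).trans
      (deg_pderiv_le (n := φ.totalDegree - 1) (by omega) i)
    omega
  refine hp.not_ge (deg_le_iff.2 fun m hm => ?_)
  obtain ⟨i, hi⟩ : ∃ i, 0 < m i := by
    by_contra h1
    push Not at h1
    have := h1 0
    have := h1 1
    omega
  have := congrArg (coeff (m - Finsupp.single i 1)) (h0 i)
  rw [coeff_pderiv, tsub_add_cancel_of_le (Finsupp.single_le_iff.2 hi), coeff_zero] at this
  exact (mul_eq_zero.1 this).resolve_right (Nat.cast_add_one_ne_zero _)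

theorem deg_prod {ι : Type} (s : Finset ι) (f : ι → Pl K) (h : ∀ i, f i ≠ 0) :
    (∏ i ∈ s, f i).totalDegree = ∑ i ∈ s, (f i).totalDegree := by
  classical
  induction s using Finset.induction_on with
  | empty => simp
  | insert a s ha ih =>
    rw [Finset.prod_insert ha, Finset.sum_insert ha, totalDegree_mul_of_isDomain (h a)
      (Finset.prod_ne_zero_iff.2 fun i _ => h i), ih]

theorem eq_sum {s d : ℕ} (f : Fin s → Pl K) (hf : ∀ i, Irreducible (f i))
    (hs : Squarefree (∏ i, f i)) (hd : ∑ i, (f i).totalDegree = d + 1) (μ : Fin s → K) (k : Fin 2)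
    {P : Pl K} (hP : P.totalDegree ≤ d)
    (h : ∀ i, f i ∣ P - C (μ i) * (∏ j ∈ Finset.univ.erase i, f j) * pderiv k (f i)) :
    P = ∑ i, (C (μ i) * ∏ j ∈ Finset.univ.erase i, f j) * pderiv k (f i) := by
  by_contra hne
  have h1 : ∏ i, f i ∣ P - ∑ i, (C (μ i) * ∏ j ∈ Finset.univ.erase i, f j) * pderiv k (f i) := by
    refine Finset.prod_dvd_of_isRelPrime (fun i _ j _ hij => IsRelPrime.of_squarefree_mul
      (hs.squarefree_of_dvd ?_)) fun i _ => ?_
    · rw [← Finset.prod_pair hij]
      exact Finset.prod_dvd_prod_of_subset _ _ _ (Finset.subset_univ _)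
    · rw [← Finset.add_sum_erase _ _ (Finset.mem_univ i), ← sub_sub]
      refine (h i).sub (Finset.dvd_sum fun j hj => ((Finset.dvd_prod_of_mem f ?_).mul_left _).mul_right _)
      simpa using (Finset.ne_of_mem_erase hj).symm
  have h2 := totalDegree_le_of_dvd_of_isDomain h1 (sub_ne_zero.2 hne)
  rw [deg_prod _ _ fun i => (hf i).ne_zero, hd] at h2
  refine (Nat.lt_succ_self d).not_ge (h2.trans ((totalDegree_sub _ _).trans (max_le hP
    (totalDegree_finsetSum_le fun i _ => ?_))))
  have h3 := deg_pos (hf i)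
  have h4 := deg_pderiv_le (r := f i) (n := (f i).totalDegree - 1) (by omega) k
  have h5 := totalDegree_mul (C (μ i)) (∏ j ∈ Finset.univ.erase i, f j)
  rw [← Finset.add_sum_erase _ _ (Finset.mem_univ i)] at hd
  rw [totalDegree_C, deg_prod _ _ fun i => (hf i).ne_zero] at h5
  refine (totalDegree_mul _ _).trans ?_
  omega

end ResA

open ResA in
theorem rowRes : ResS ∧ OfLogf := by
  constructor
  · intro K _ _ _ P Q φ G hφ hG h
    by_cases h1 : φ ∣ pderiv 1 φ
    · have h0 : ¬ φ ∣ pderiv 0 φ := fun h0 => not_both hφ (Fin.forall_fin_two.2 ⟨h0, h1⟩)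
      obtain ⟨μ, h2, h3⟩ := resid hφ (i := 1) (j := 0) (by decide) (by decide) h0 (pderiv_comm2 φ)
        (P := Q) (Q := P) hG (by linear_combination h)
      exact ⟨-μ, by simpa using h3, by simpa [sub_eq_add_neg] using h2⟩
    · exact resid hφ (by decide) (by decide) h1 (pderiv_comm2 φ).symm hG h
  · intro hR K _ _ _ d P Q F hP hQ hF hs h
    obtain ⟨M, hM, u, hu⟩ := UniqueFactorizationMonoid.exists_prime_factors F hs.ne_zero
    obtain ⟨c, hc, e⟩ := isUnit_iff_eq_C_of_isReduced.1 u.isUnit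
    obtain ⟨s, f, hf, e1⟩ : ∃ (s : ℕ) (f : Fin s → Pl K), (∀ i, Irreducible (f i)) ∧
        ∏ i, f i = M.prod :=
      ⟨_, fun i : Fin M.toList.length => M.toList[i.1], fun i =>
        (hM _ (Multiset.mem_toList.1 (List.getElem_mem _))).irreducible,
        by rw [Fin.prod_univ_getElem, Multiset.prod_toList]⟩
    rw [e, ← e1] at hu
    subst hu
    have hc' : (C c : Pl K) ≠ 0 := by simpa using hc.ne_zero
    have hs' := hs.of_mul_left
    rw [totalDegree_mul_of_isDomain hs'.ne_zero hc', totalDegree_C, add_zero,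
      deg_prod _ _ fun i => (hf i).ne_zero] at hF
    have h' : P * pderiv 0 (∏ i, f i) + Q * pderiv 1 (∏ i, f i) =
        (∏ i, f i) * (pderiv 0 P + pderiv 1 Q) := by
      refine mul_left_cancel₀ hc' ?_
      simp only [Derivation.leibniz, smul_eq_mul, pderiv_C] at h
      linear_combination h
    have : ∀ i, ∃ μ : K, _ := fun i => hR K P Q (f i) (∏ j ∈ Finset.univ.erase i, f j) (hf i)
      (fun hd => (hf i).not_isUnit (hs' _ (by
        rw [← Finset.mul_prod_erase _ _ (Finset.mem_univ i)]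
        exact mul_dvd_mul_left _ hd)))
      (by rwa [Finset.mul_prod_erase _ _ (Finset.mem_univ i)])
    choose μ h1 h2 using this
    refine ⟨s, fun i => (f i).totalDegree, fun i => deg_pos (hf i), hF, f, μ, fun _ => le_rfl,
      eq_sum f hf hs' hF μ 1 hP h1, ?_⟩
    rw [eq_sum f hf hs' hF (fun i => -μ i) 0 hQ fun i => by simpa using h2 i]
    simp

end Pool.Agent.MP_aa1ef7_ag.H20
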