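import Pool.Agent.MP_aa1ef7_ag.H20.Spec

/-! The second order obstruction: an element whose logarithmic derivatives are exact. -/

namespace Pool.Agent.MP_aa1ef7_ag.H20

open MvPolynomial
open Pool.Agent.MP_aa1ef7_ag.H40

namespace SocA

variable {d : ℕ} (l : Fin (d + 1) → ℂ × ℂ × ℂ)

theorem DB_pow_mul (N : ℕ) (A : BB l) :
    DB l (cB l (ff l) ^ N * A) = cB l (ff l) ^ N * DB l A := by
  have h := br_aeval_mul (dB l) (cB l (ff l)) (Polynomial.X ^ N) A
  simpa [DB] using h

theorem clearC (t : TT l) : ∀ᶠ N in Filter.atTop, ∃ r : Poly,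
    cB l r = cB l (ff l) ^ N * C t := by
  obtain ⟨⟨r, s, n, rfl⟩, h⟩ := IsLocalization.surj (Submonoid.powers (ff l)) t
  refine Filter.eventually_atTop.2 ⟨n, fun N hN => ⟨ff l ^ (N - n) * r, ?_⟩⟩
  obtain ⟨k, rfl⟩ := Nat.exists_eq_add_of_le hN
  have h' : t * algebraMap Poly (TT l) (ff l) ^ n = algebraMap Poly (TT l) r := by
    simpa using h
  have h2 : cB l r = C t * cB l (ff l) ^ n := by
    simp only [cB, RingHom.comp_apply, ← h', map_mul, map_pow]
  rw [Nat.add_sub_cancel_left, map_mul, map_pow, h2]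
  ring

theorem clearB (hb : Bas l) (A : BB l) : ∀ᶠ N in Filter.atTop, ∃ Z : RL d,
    iB l Z = cB l (ff l) ^ N * A := by
  obtain ⟨n, Z, h⟩ := hb.clear A
  refine Filter.eventually_atTop.2 ⟨n, fun N hN => ⟨C (ff l ^ (N - n)) * Z, ?_⟩⟩
  obtain ⟨k, rfl⟩ := Nat.exists_eq_add_of_le hN
  rw [Nat.add_sub_cancel_left, map_mul, iB_C, map_pow, h]
  ring

/-- The statement before denominators are cleared. -/
theorem core (hP : PoincS) (hb : Bas l) (hv : Dv l) (ht : Tf l) (I : Finset (Fin (d + 1)))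
    (hI : I.Nonempty) (b : BB l) (hbI : b ∈ SI l I)
    (hex : ∀ m, ∃ A ∈ SI l I, DB l A = pderiv m b) :
    ∃ (A : BB l) (t0 : TT l) (t : Fin (d + 1) → Fin (d + 1) → TT l), A ∈ SI l I ∧
      (∀ m n, t m n = -t n m) ∧ (∀ m ∈ I, ∀ n, t m n = 0) ∧ (∀ m n, DB l (C (t m n)) = 0) ∧
      b = DB l A + C t0 + ∑ m, ∑ n, C (t m n) * (X m * cB l (bet l n)) := by
  classical
  have hex' : ∀ m, ∃ A ∈ SI l I, DB l A = pderiv m b ∧ (m ∈ I → A = 0) := by
    intro m
    by_cases hm : m ∈ I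
    · exact ⟨0, zero_mem _, by rw [hbI m hm]; exact br_zero _ _, fun _ => rfl⟩
    · obtain ⟨A, hA, h⟩ := hex m
      exact ⟨A, hA, h, fun h' => absurd h' hm⟩
  choose A hAI hAD hA0 using hex'
  obtain ⟨hP1, hP2⟩ := hP (TT l) (Fin (d + 1))
  set c : Fin (d + 1) → Fin (d + 1) → BB l :=
    fun m n => (2⁻¹ : ℂ) • (pderiv n (A m) - pderiv m (A n)) with hc
  have hcI : ∀ m n, c m n ∈ SI l I := fun m n =>
    Subalgebra.smul_mem _ (sub_mem (hv.siL I n _ (hAI m)) (hv.siL I m _ (hAI n))) _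
  have hcD : ∀ m n, DB l (c m n) = 0 := by
    intro m n
    have h1 : DB l (pderiv n (A m) - pderiv m (A n)) = 0 := by
      rw [DB, br_sub]
      change DB l _ - DB l _ = 0
      rw [← hb.DL, ← hb.DL, hAD, hAD, hb.LL, sub_self]
    rw [hc]
    change br _ _ (_ • _) = 0
    rw [br_smul]
    change _ • DB l _ = 0
    rw [h1, smul_zero]
  have hcL : ∀ m n k, pderiv k (c m n) = 0 := fun m n => ht.ker I hI _ (hcI m n) (hcD m n)
  have hcC : ∀ m n, c m n = C (coeff 0 (c m n)) := fun m n => hP2 _ (hcL m n)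
  have hanti : ∀ m n, c m n = -c n m := by
    intro m n
    simp only [hc, ← smul_neg, neg_sub]
  have hc0 : ∀ m ∈ I, ∀ n, c m n = 0 := by
    intro m hm n
    simp only [hc, hA0 m hm, hAI n m hm, map_zero, sub_self, smul_zero]
  have htwo : ∀ m n, c m n + c m n = pderiv n (A m) - pderiv m (A n) := by
    intro m n
    simp only [hc, ← add_smul]
    norm_num
  have hder : ∀ m k, pderiv k (∑ n, c m n * X n) = c m k := by
    intro m k
    simp [map_sum, Derivation.leibniz, hcL, pderiv_X, Pi.single_apply]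
  obtain ⟨A', hA'⟩ := hP1 (fun m => A m - ∑ n, c m n * X n) fun m n => by
    simp only [map_sub, hder]
    rw [hanti n m]
    linear_combination -htwo m n
  have hA'I : A' ∈ SI l I := by
    intro m hm
    rw [hA', hA0 m hm]
    simp [hc0 m hm]
  have hW : ∀ k, pderiv k (b - DB l A' - ∑ m, ∑ n, c m n * (X m * cB l (bet l n))) = 0 := by
    intro k
    have h1 : pderiv k (∑ m, ∑ n, c m n * (X m * cB l (bet l n))) =
        ∑ n, c k n * cB l (bet l n) := by
      simp only [map_sum, Derivation.leibniz, hcL, hb.Lc, pderiv_X, Pi.single_apply, smul_eq_mul,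
        mul_zero, add_zero, zero_add]
      rw [Finset.sum_eq_single k]
      · simp
      · intro m _ hm
        simp [hm]
      · simp
    have h2 : DB l (A k - ∑ n, c k n * X n) = pderiv k b - ∑ n, c k n * cB l (bet l n) := by
      rw [DB, br_sub, br_sum]
      congr 1
      · exact hAD k
      · refine Finset.sum_congr rfl fun n _ => ?_
        rw [br_mul]
        change _ * DB l _ + _ * DB l _ = _
        rw [hcD, hb.DX, mul_zero, add_zero]
    rw [map_sub, map_sub, h1, hb.DL, hA', h2]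
    ring
  refine ⟨A', coeff 0 (b - DB l A' - ∑ m, ∑ n, c m n * (X m * cB l (bet l n))),
    fun m n => coeff 0 (c m n), hA'I, fun m n => ?_, fun m hm n => ?_, fun m n => ?_, ?_⟩
  · change coeff 0 (c m n) = -coeff 0 (c n m)
    rw [hanti m n, coeff_neg]
  · simp [hc0 m hm n]
  · rw [← hcC]; exact hcD m n
  · simp only [← hcC]
    rw [← hP2 _ hW]
    ring

end SocA

theorem rowSoc : OfSoc := by
  intro hP d l hl hb hv ht I hI b hbI hex
  obtain ⟨A, t0, t, hA, hanti, h0, hD, hbe⟩ := SocA.core l hP hb hv ht I hI b hbI hex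
  have hall : ∀ᶠ N in Filter.atTop, ∀ m n, ∃ r : Poly,
      cB l r = cB l (ff l) ^ N * C (t m n) :=
    Filter.eventually_all.2 fun m => Filter.eventually_all.2 fun n => SocA.clearC l (t m n)
  obtain ⟨N, ⟨Z, hZ⟩, ⟨b0, hb0⟩, hr⟩ :=
    ((SocA.clearB l hb A).and ((SocA.clearC l t0).and hall)).exists
  choose r hr using hr
  have hr0 : ∀ m n, DP l (r m n) = 0 := by
    intro m n
    apply hb.cinj
    rw [← hb.Dc, hr, SocA.DB_pow_mul, hD, mul_zero, map_zero]
  choose c hc _ using fun m n => ht.kerr _ (hr0 m n)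
  have hfI : cB l (ff l) ∈ SI l I := fun m _ => hb.Lc m _
  refine ⟨N, iB l Z, b0, c, hv.rii I Z (hZ ▸ mul_mem (pow_mem hfI N) hA), fun m n => ?_,
    fun m hm n => ?_, ?_⟩
  · apply hl.aevalinj
    apply hb.cinj
    rw [map_neg, map_neg, ← hc, ← hc, hr, hr, hanti m n, map_neg]
    ring
  · apply hl.aevalinj
    apply hb.cinj
    rw [← hc, hr, h0 m hm n, map_zero, map_zero, map_zero, mul_zero]
  · simp only [← hc, hr]
    rw [hZ, SocA.DB_pow_mul, hb0]
    conv_lhs => rw [hbe]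
    simp only [mul_add, Finset.mul_sum, mul_assoc]

end Pool.Agent.MP_aa1ef7_ag.H20
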