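import Pool.Agent.MP_aa1ef7_ag.H20.Spec

/-! One step of the division by `f` in a chart. -/

namespace Pool.Agent.MP_aa1ef7_ag.H20

open MvPolynomial
open Pool.Agent.MP_aa1ef7_ag.H40

namespace StepA

variable {d : ℕ} {l : Fin (d + 1) → ℂ × ℂ × ℂ}

theorem DP_pow (g : Poly) (N : ℕ) : g * DP l (g ^ N) = N * g ^ N * DP l g := by
  induction N with
  | zero => simp [DP, br]
  | succ N ih =>
    have h : DP l (g ^ (N + 1)) = g ^ N * DP l g + g * DP l (g ^ N) := by
      rw [pow_succ]
      exact br_mul _ _ _ _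
    rw [h, ih]
    push_cast
    ring

theorem ff_one (i : Fin (d + 1)) : ff l = lin (l i) * gI l {i} := by
  rw [ff_eq l {i}, Finset.prod_singleton]

theorem ndvd_prod (hL : Lin l) (i : Fin (d + 1)) (S : Finset (Fin (d + 1))) (hi : i ∉ S) :
    ¬ lin (l i) ∣ ∏ m ∈ S, lin (l m) := by
  intro h
  obtain ⟨m, hm, hd⟩ := ((hL.prime i).dvd_finsetProd_iff _).1 h
  exact hL.ndvd i m (fun e => hi (e ▸ hm)) hd

theorem res_DP (hL : Lin l) (i : Fin (d + 1)) (r : Poly) :
    res l i (DP l r) = res l i (gI l {i}) * Polynomial.derivative (res l i r) := by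
  have h0 : res l i (lin (l i)) = 0 := (hL.resker i _).2 dvd_rfl
  have e0 : pderiv 0 (lin (l i)) = C (l i).1 := by simp [lin, pderiv_X]
  have e1 : pderiv 1 (lin (l i)) = C (l i).2.1 := by simp [lin, pderiv_X]
  have e : DP l r = gI l {i} * (C (l i).2.1 * pderiv 0 r - C (l i).1 * pderiv 1 r) +
      lin (l i) * (pderiv 1 (gI l {i}) * pderiv 0 r - pderiv 0 (gI l {i}) * pderiv 1 r) := by
    have e' : DP l r = pderiv 1 (ff l) * pderiv 0 r - pderiv 0 (ff l) * pderiv 1 r := rfl
    rw [e', ff_one i, Derivation.leibniz, Derivation.leibniz, e0, e1]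
    simp only [smul_eq_mul]
    ring
  rw [e, map_add, map_mul, map_mul, h0, hL.resder, zero_mul, add_zero]

theorem res_g (i : Fin (d + 1)) :
    res l i (gI l {i}) = ∏ m ∈ Finset.univ.erase i, res l i (lin (l m)) := by
  rw [gI, map_prod, Finset.compl_singleton]

theorem res_bet (hL : Lin l) {i m : Fin (d + 1)} (hm : m ≠ i) :
    res l i (bet l m) = Polynomial.C ((l m).1 * (l i).2.1 - (l m).2.1 * (l i).1) *
      ∏ k ∈ (Finset.univ.erase i).erase m, res l i (lin (l k)) := by
  have h0 : res l i (lin (l m)) ≠ 0 := fun h => hL.ndvd i m hm.symm ((hL.resker i _).1 h)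
  apply mul_left_cancel₀ h0
  have h1 : Polynomial.derivative (res l i (lin (l m))) =
      Polynomial.C ((l m).1 * (l i).2.1 - (l m).2.1 * (l i).1) := by
    rw [hL.reslin, map_add, Polynomial.derivative_C_mul_X, Polynomial.derivative_C, add_zero]
  rw [← map_mul, hL.bet, res_DP hL, h1, res_g,
    ← Finset.mul_prod_erase _ _ (Finset.mem_erase.2 ⟨hm, Finset.mem_univ m⟩)]
  ring

/-- The restriction to one line. -/
theorem one_line (hP : PoincS) (hO : OneS) (hG : Geo l) (hL : Lin l) (i : Fin (d + 1)) (N : ℕ)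
    (Z : RL d) (hi : pderiv i Z = 0)
    (hZ : ∀ e, lin (l i) ∣ gI l {i} * coeff e (DL l Z) - N * DP l (gI l {i}) * coeff e Z) :
    ∃ c : ℂ, ∀ e, lin (l i) ∣ coeff e (Z - C (C c * gI l {i} ^ N)) := by
  classical
  have hg : res l i (gI l {i}) ≠ 0 := fun h =>
    ndvd_prod hL i _ (by simp) ((hL.resker i _).1 h)
  have hα : ∀ m ∈ Finset.univ.erase i, (l m).1 * (l i).2.1 - (l m).2.1 * (l i).1 ≠ 0 := by
    intro m hm h
    exact hG.gen.1 m i (Finset.ne_of_mem_erase hm) (by linear_combination h)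
  have hc : ∀ (Y : RL d) e, coeff e (MvPolynomial.map (res l i).toRingHom Y) =
      res l i (coeff e Y) := fun Y e => coeff_map _ _ _
  obtain ⟨h1, h2⟩ := hO (Fin (d + 1)) (Finset.univ.erase i)
    (fun m => (l m).1 * (l i).2.1 - (l m).2.1 * (l i).1)
    (fun m => (l m).2.2 - (l m).2.1 * (l i).2.2 / (l i).2.1) 1 N
    (MvPolynomial.map (res l i).toRingHom Z)
    (by
      rw [← Finset.card_pos, Finset.card_erase_of_mem (Finset.mem_univ i), Finset.card_univ,
        Fintype.card_fin]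
      have := hG.two
      omega) le_rfl hα
    (by
      intro m hm k hk hmk h
      obtain ⟨p, hp⟩ := hL.node i m (Finset.ne_of_mem_erase hm).symm
      have a1 := hL.reseval i p hp.2.1 (lin (l m))
      have a2 := hL.reseval i p hp.2.1 (lin (l k))
      rw [hp.2.2] at a1
      have a3 := hL.nodeoff i m p hp k (Finset.ne_of_mem_erase hk) hmk.symm
      rw [← a2] at a3
      simp only [hL.reslin, Polynomial.eval_add, Polynomial.eval_mul, Polynomial.eval_C,
        Polynomial.eval_X] at a1 a3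
      refine mul_ne_zero (hα m hm) a3 ?_
      linear_combination ((l k).1 * (l i).2.1 - (l k).2.1 * (l i).1) * a1 + h)
    (by
      intro e
      simp only [← hL.reslin, ← res_g, pderiv_map, hc]
      apply mul_left_cancel₀ hg
      have a1 := (hL.resker i _).2 (hZ e)
      rw [DL, coeff_dext, ← Finset.add_sum_erase _ _ (Finset.mem_univ i), hi, coeff_zero, mul_zero,
        zero_add, derP_apply] at a1
      simp only [map_sub, map_mul, map_add, map_sum, res_DP hL, map_natCast] at a1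
      have a2 : ∑ m ∈ Finset.univ.erase i, res l i (bet l m) * res l i (coeff e (pderiv m Z)) =
          ∑ m ∈ Finset.univ.erase i, Polynomial.C ((l m).1 * (l i).2.1 - (l m).2.1 * (l i).1) *
            (∏ k ∈ (Finset.univ.erase i).erase m, res l i (lin (l k))) *
            res l i (coeff e (pderiv m Z)) :=
        Finset.sum_congr rfl fun m hm => by rw [res_bet hL (Finset.ne_of_mem_erase hm)]
      rw [a2] at a1
      rw [Nat.cast_one, one_mul]
      linear_combination a1)
  have h3 := (hP (Polynomial ℂ) (Fin (d + 1))).2 (MvPolynomial.map (res l i).toRingHom Z)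
    (fun m => by
      by_cases hm : m = i
      · rw [hm, pderiv_map, hi, map_zero]
      · exact h1 m (Finset.mem_erase.2 ⟨hm, Finset.mem_univ m⟩))
  have h4 : ∃ c : ℂ, coeff 0 (MvPolynomial.map (res l i).toRingHom Z) =
      Polynomial.C c * res l i (gI l {i}) ^ N := by
    rcases h2 0 with h | ⟨-, c, h⟩
    · exact ⟨0, by rw [h, map_zero, zero_mul]⟩
    · refine ⟨c, ?_⟩
      rw [h]
      simp only [← hL.reslin, ← res_g, Nat.div_one]
  obtain ⟨c, h4⟩ := h4
  refine ⟨c, fun e => (hL.resker i _).1 ?_⟩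
  rw [← hc, map_sub, map_C, h3, h4]
  have a3 : (res l i).toRingHom (C c * gI l {i} ^ N) = Polynomial.C c * res l i (gI l {i}) ^ N := by
    change res l i _ = _
    rw [map_mul, map_pow]
    exact congrArg (· * _) ((res l i).commutes c)
  rw [a3, sub_self, coeff_zero]

theorem in_chart (hP : PoincS) (hO : OneS) (hG : Geo l) (hL : Lin l) (hB : Bas l)
    {I : Finset (Fin (d + 1))} {A b : BB l} {N M : ℕ} {Z W : RL d}
    (hZ : iB l Z = cB l (gI l I) ^ N * A) (hW : iB l W = cB l (gI l I) ^ M * b)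
    (hD : DB l A = cB l (ff l) * b) {i : Fin (d + 1)} (hi : i ∈ I) (hA : pderiv i A = 0) :
    ∃ c : ℂ, ∀ e, lin (l i) ∣ coeff e (Z - C (C c * gI l I ^ N)) := by
  classical
  obtain ⟨h, hh⟩ : ∃ h, h = ∏ m ∈ I.erase i, lin (l m) := ⟨_, rfl⟩
  have hnh : ¬ lin (l i) ∣ h := hh ▸ ndvd_prod hL i _ (by simp)
  have hnG : ¬ lin (l i) ∣ gI l I := ndvd_prod hL i _ (by simpa using hi)
  have hg : gI l {i} = h * gI l I := by
    apply mul_left_cancel₀ (hL.prime i).ne_zero
    rw [← ff_one, ff_eq l I, ← Finset.mul_prod_erase _ _ hi, hh, mul_assoc]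
  have h1 : iB l (C (h ^ N) * Z) = cB l (gI l {i} ^ N) * A := by
    rw [map_mul, iB_C, hZ, hg, mul_pow, map_mul, map_pow, map_pow, mul_assoc]
  have h2 : pderiv i (C (h ^ N) * Z) = 0 := by
    apply hB.iinj
    rw [← hB.Li, h1, Derivation.leibniz, hA, hB.Lc, smul_zero, smul_zero, add_zero, map_zero]
  have h3 : iB l (DL l (C (h ^ N) * Z)) =
      cB l (gI l {i} ^ N) * (cB l (ff l) * b) + A * cB l (DP l (gI l {i} ^ N)) := by
    rw [← hB.Di, h1, ← hD, ← hB.Dc]
    exact br_mul _ _ _ _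
  have h4 : C (gI l I ^ M) * (C (gI l {i}) * DL l (C (h ^ N) * Z) -
      C (N * DP l (gI l {i})) * (C (h ^ N) * Z)) = C (ff l * gI l {i} ^ (N + 1)) * W := by
    apply hB.iinj
    have a1 := congrArg (cB l) (DP_pow (l := l) (gI l {i}) N)
    rw [map_mul, map_sub, map_mul, map_mul (iB l) (C _) (C (h ^ N) * Z), h1, h3, map_mul (iB l), hW]
    simp only [iB_C, map_mul, map_pow] at a1 ⊢
    linear_combination cB l (gI l I) ^ M * A * a1
  obtain ⟨c, hc⟩ := one_line hP hO hG hL i N (C (h ^ N) * Z) h2 fun e => by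
    have a1 := congrArg (coeff e) h4
    rw [coeff_C_mul, coeff_sub, coeff_C_mul, coeff_C_mul (a := N * DP l (gI l {i})),
      coeff_C_mul (a := ff l * gI l {i} ^ (N + 1))] at a1
    have a2 : lin (l i) ∣ ff l * gI l {i} ^ (N + 1) * coeff e W :=
      ((Dvd.intro _ (ff_one i).symm).mul_right _).mul_right _
    rw [← a1] at a2
    exact ((hL.prime i).dvd_or_dvd a2).resolve_left fun a3 =>
      hnG ((hL.prime i).dvd_of_dvd_pow a3)
  refine ⟨c, fun e => ?_⟩
  have a1 : C (h ^ N) * Z - C (C c * gI l {i} ^ N) = C (h ^ N) * (Z - C (C c * gI l I ^ N)) := by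
    rw [hg, mul_sub, ← map_mul, mul_pow, mul_left_comm]
  have a2 := hc e
  rw [a1, coeff_C_mul] at a2
  exact ((hL.prime i).dvd_or_dvd a2).resolve_left fun a3 => hnh ((hL.prime i).dvd_of_dvd_pow a3)

end StepA

open StepA in
theorem rowStep : OfStep := by
  classical
  intro hP hO d l hG hL hB I hI A hA b hb hD
  obtain ⟨hAS, N, Z, hZ⟩ := hA
  obtain ⟨-, M, W, hW⟩ := hb
  have := hB.dom
  obtain ⟨i, hi⟩ := hI
  obtain ⟨c, hc⟩ := in_chart hP hO hG hL hB hZ hW hD hi (hAS i hi)
  have h1 : ∀ j ∈ I, ∀ e, lin (l j) ∣ coeff e (Z - C (C c * gI l I ^ N)) := by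
    intro j hj
    by_cases hij : i = j
    · exact hij ▸ hc
    obtain ⟨c', hc'⟩ := in_chart hP hO hG hL hB hZ hW hD hj (hAS j hj)
    obtain ⟨p, hp⟩ := hL.node i j hij
    have a1 := map_dvd (eval p) (hc 0)
    have a2 := map_dvd (eval p) (hc' 0)
    rw [hp.2.1, zero_dvd_iff] at a1
    rw [hp.2.2, zero_dvd_iff] at a2
    rw [coeff_sub, coeff_zero_C, map_sub, map_mul, map_pow, eval_C] at a1 a2
    have a3 : eval p (gI l I) ≠ 0 := by
      rw [gI, map_prod]
      refine Finset.prod_ne_zero_iff.2 fun m hm => hL.nodeoff i j p hp m ?_ ?_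
      · rintro rfl
        exact Finset.mem_compl.1 hm hi
      · rintro rfl
        exact Finset.mem_compl.1 hm hj
    have a4 : c = c' := mul_right_cancel₀ (pow_ne_zero N a3) (by linear_combination a2 - a1)
    rw [a4]
    exact hc'
  have h2 : (C (∏ m ∈ I, lin (l m)) : RL d) ∣ Z - C (C c * gI l I ^ N) := by
    rw [C_dvd_iff_dvd_coeff]
    intro e
    refine Finset.prod_dvd_of_isRelPrime (fun m _ k _ hmk => ?_) fun j hj => h1 j hj e
    exact (hL.prime m).irreducible.isRelPrime_iff_not_dvd.2 (hL.ndvd m k hmk)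
  obtain ⟨Z', hZ'⟩ := h2
  obtain ⟨u, hu⟩ := hB.unit.exists_right_inv
  have h3 : cB l (ff l) * (u * (A - cB l (C c))) = A - cB l (C c) := by
    rw [← mul_assoc, hu, one_mul]
  refine ⟨c, u * (A - cB l (C c)), ⟨fun j hj => ?_, N + 1, Z', ?_⟩, by rw [h3]; ring⟩
  · have a1 := congrArg (pderiv j) h3
    rw [Derivation.leibniz, hB.Lc, smul_zero, add_zero, map_sub, hAS j hj, hB.Lc, sub_zero,
      smul_eq_mul] at a1
    exact (mul_eq_zero.1 a1).resolve_left hB.unit.ne_zero
  · have a1 := congrArg (iB l) hZ'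
    rw [map_sub, map_mul (iB l), iB_C, iB_C, hZ, map_mul, map_pow] at a1
    have a2 : cB l (ff l) = cB l (∏ m ∈ I, lin (l m)) * cB l (gI l I) := by
      rw [← map_mul, ← ff_eq]
    have a3 : cB l (∏ m ∈ I, lin (l m)) ≠ 0 := fun h => hB.unit.ne_zero (by rw [a2, h, zero_mul])
    apply mul_left_cancel₀ a3
    rw [a2] at h3
    linear_combination -a1 - cB l (gI l I) ^ N * h3

end Pool.Agent.MP_aa1ef7_ag.H20
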