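import Pool.Agent.MP_aa1ef7_ag.H20.Spec

/-! Sylvester's theorem for two binary forms, over a field and near a point. -/

namespace Pool.Agent.MP_aa1ef7_ag.H20

open MvPolynomial

namespace Syl0A

/-- The exponents of total degree `n`. -/
noncomputable def mo (n : ℕ) (i : Fin (n + 1)) : Fin 2 →₀ ℕ :=
  Finsupp.single 0 i.1 + Finsupp.single 1 (n - i.1)

theorem mo_0 (n : ℕ) (i : Fin (n + 1)) : mo n i 0 = i := by simp [mo]

theorem mo_1 (n : ℕ) (i : Fin (n + 1)) : mo n i 1 = n - i := by simp [mo]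

theorem mo_inj (n : ℕ) : Function.Injective (mo n) := fun i j h =>
  Fin.ext (by rw [← mo_0, h, mo_0])

theorem mo_deg (n : ℕ) (i : Fin (n + 1)) : (mo n i).degree = n := by
  rw [Finsupp.degree_eq_sum, Fin.sum_univ_two, mo_0, mo_1]
  omega

theorem mo_surj {n : ℕ} {m : Fin 2 →₀ ℕ} (h : m 0 + m 1 = n) : ∃ i, mo n i = m := by
  refine ⟨⟨m 0, by omega⟩, ?_⟩
  ext j
  fin_cases j
  · exact mo_0 _ _
  · exact (mo_1 _ _).trans (by simp; omega)

variable {A : Type} [CommRing A]

/-- The form with given coefficients. -/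
noncomputable def fm (n : ℕ) : (Fin (n + 1) → A) →ₗ[A] Pl A :=
  ∑ i, (monomial (mo n i)).comp (LinearMap.proj i)

theorem fm_apply (n : ℕ) (c : Fin (n + 1) → A) : fm n c = ∑ i, monomial (mo n i) (c i) := by
  simp [fm]

theorem fm_hom (n : ℕ) (c : Fin (n + 1) → A) : (fm n c).IsHomogeneous n := by
  rw [fm_apply]
  exact IsHomogeneous.sum _ _ _ fun i _ => isHomogeneous_monomial _ (mo_deg n i)

theorem coeff_fm (n : ℕ) (c : Fin (n + 1) → A) (i : Fin (n + 1)) :
    coeff (mo n i) (fm n c) = c i := by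
  classical
  rw [fm_apply, coeff_sum, Finset.sum_eq_single i, coeff_monomial, if_pos rfl]
  · intro j _ hj; rw [coeff_monomial, if_neg fun h => hj (mo_inj n h)]
  · simp

theorem hom_ext {n : ℕ} {f g : Pl A} (hf : f.IsHomogeneous n) (hg : g.IsHomogeneous n)
    (h : ∀ i, coeff (mo n i) f = coeff (mo n i) g) : f = g := by
  ext m
  by_cases hm : m 0 + m 1 = n
  · obtain ⟨i, rfl⟩ := mo_surj hm
    exact h i
  · have : m.degree ≠ n := by rwa [Finsupp.degree_eq_sum, Fin.sum_univ_two]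
    rw [hf.coeff_eq_zero this, hg.coeff_eq_zero this]

theorem comb_hom {k : ℕ} {α β G H : Pl A} (hα : α.IsHomogeneous k) (hβ : β.IsHomogeneous k)
    (hG : G.IsHomogeneous (k + 1)) (hH : H.IsHomogeneous (k + 1)) :
    (α * G + β * H).IsHomogeneous (2 * k + 1) := by
  rw [show 2 * k + 1 = k + (k + 1) by omega]
  exact (hα.mul hG).add (hβ.mul hH)

theorem syl0 : Syl0S := by
  intro K _ d G H hd hG hH hr m hm
  obtain ⟨k, rfl⟩ : ∃ k, d = k + 1 := ⟨d - 1, by omega⟩
  obtain ⟨i, rfl⟩ := mo_surj (n := 2 * k + 1) (m := m) (by omega)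
  have H0 : H ≠ 0 := by
    rintro rfl
    have hu := isRelPrime_zero_right.1 hr
    have := totalDegree_le_of_dvd_of_isDomain (hu.dvd (a := 1)) one_ne_zero
    rw [hG.totalDegree hu.ne_zero, totalDegree_one] at this
    omega
  let T : ((Fin (k + 1) → K) × (Fin (k + 1) → K)) →ₗ[K] (Fin (2 * k + 1 + 1) → K) :=
    (LinearMap.pi fun j => lcoeff K (mo (2 * k + 1) j)).comp
      (((LinearMap.mulRight K G).comp (fm k)).coprod ((LinearMap.mulRight K H).comp (fm k)))
  have hT : ∀ a b j, T (a, b) j = coeff (mo (2 * k + 1) j) (fm k a * G + fm k b * H) :=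
    fun _ _ _ => rfl
  have inj : Function.Injective T := by
    rw [injective_iff_map_eq_zero]
    rintro ⟨a, b⟩ h
    have h1 : fm k a * G + fm k b * H = 0 :=
      hom_ext (comb_hom (fm_hom k a) (fm_hom k b) hG hH) (isHomogeneous_zero _ _ _) fun j => by
        rw [← hT, h]; rfl
    have h2 : H ∣ fm k a := hr.symm.dvd_of_dvd_mul_right
      ⟨-fm k b, by rw [eq_neg_of_add_eq_zero_left h1]; ring⟩
    have h3 : fm k a = 0 := by
      by_contra hn
      have := (totalDegree_le_of_dvd_of_isDomain h2 hn).trans (fm_hom k a).totalDegree_le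
      rw [hH.totalDegree H0] at this
      omega
    rw [h3, zero_mul, zero_add, mul_eq_zero, or_iff_left H0] at h1
    ext j
    · exact (coeff_fm k a j).symm.trans (by rw [h3]; rfl)
    · exact (coeff_fm k b j).symm.trans (by rw [h1]; rfl)
  obtain ⟨⟨a, b⟩, h⟩ := (LinearMap.injective_iff_surjective_of_finrank_eq_finrank
    (by simp; omega)).1 inj fun j => coeff (mo (2 * k + 1) j) (monomial (mo (2 * k + 1) i) 1)
  exact ⟨fm k a, fm k b, fm_hom k a, fm_hom k b, hom_ext (isHomogeneous_monomial _ (mo_deg _ i))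
    (comb_hom (fm_hom k a) (fm_hom k b) hG hH) fun j => by rw [← hT, h]⟩

theorem syla : OfSyla := by
  classical
  intro h0 A _ _ e d G H hd hG hH hr
  obtain ⟨k, rfl⟩ : ∃ k, d = k + 1 := ⟨d - 1, by omega⟩
  choose α β hα hβ h using fun i : Fin (2 * k + 1 + 1) =>
    h0 ℂ (k + 1) _ _ hd (hG.map _) (hH.map _) hr (mo (2 * k + 1) i) (by
      rw [mo_0, mo_1]; omega)
  have hα' : ∀ i, (map (algebraMap ℂ A) (α i)).IsHomogeneous k := fun i => (hα i).map _
  have hβ' : ∀ i, (map (algebraMap ℂ A) (β i)).IsHomogeneous k := fun i => (hβ i).map _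
  have back : ∀ f : Pl ℂ, map e.toRingHom (map (algebraMap ℂ A) f) = f := fun f => by
    rw [map_map, show e.toRingHom.comp (algebraMap ℂ A) = RingHom.id ℂ from
      RingHom.ext fun z => e.commutes z, map_id]
  let N : Matrix (Fin (2 * k + 1 + 1)) (Fin (2 * k + 1 + 1)) A := Matrix.of fun i j =>
    coeff (mo (2 * k + 1) j) (map (algebraMap ℂ A) (α i) * G + map (algebraMap ℂ A) (β i) * H)
  have hN : e.toRingHom.mapMatrix N = 1 := by
    ext i j
    simp only [RingHom.mapMatrix_apply, Matrix.map_apply, N, Matrix.of_apply]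
    rw [← coeff_map, map_add, map_mul, map_mul, back, back, ← h i, coeff_monomial,
      Matrix.one_apply]
    exact if_congr (mo_inj _).eq_iff rfl rfl
  refine ⟨N.det, (e.toRingHom.map_det N).trans (by rw [hN, Matrix.det_one]), fun m hm => ?_⟩
  obtain ⟨i, rfl⟩ := mo_surj (n := 2 * k + 1) (m := m) (by omega)
  have s1 : (∑ j, C (N.adjugate i j) * map (algebraMap ℂ A) (α j)).IsHomogeneous k :=
    IsHomogeneous.sum _ _ _ fun j _ => (hα' j).C_mul _
  have s2 : (∑ j, C (N.adjugate i j) * map (algebraMap ℂ A) (β j)).IsHomogeneous k :=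
    IsHomogeneous.sum _ _ _ fun j _ => (hβ' j).C_mul _
  refine ⟨_, _, s1, s2, hom_ext (isHomogeneous_monomial _ (mo_deg _ i)) (comb_hom s1 s2 hG hH)
    fun j => ?_⟩
  have := congrFun (congrFun (Matrix.adjugate_mul N) i) j
  rw [Matrix.mul_apply, Matrix.smul_apply, Matrix.one_apply, smul_eq_mul, mul_ite, mul_one,
    mul_zero] at this
  rw [coeff_monomial, if_congr (mo_inj _).eq_iff rfl rfl, ← this, Finset.sum_mul, Finset.sum_mul,
    ← Finset.sum_add_distrib, coeff_sum]
  refine Finset.sum_congr rfl fun l _ => ?_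
  rw [mul_assoc, mul_assoc, ← mul_add, coeff_C_mul]
  rfl

end Syl0A

theorem rowSyl0 : Syl0S ∧ OfSyla := ⟨Syl0A.syl0, Syl0A.syla⟩

end Pool.Agent.MP_aa1ef7_ag.H20
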