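import Pool.Agent.MP_aa1ef7_ag.G.Tayla

/-! Taylor series of holomorphic functions; a centre is a formal centre. -/

namespace Pool.Agent.MP_aa1ef7_ag.H20

open MvPolynomial Set
open Pool.Agent.MP_aa1ef7_ag.H40
open scoped Topology

namespace TaylA

/-- Partial derivative. -/
noncomputable def D (i : Fin 2) (F : (Fin 2 → ℂ) → ℂ) (z : Fin 2 → ℂ) : ℂ :=
  fderiv ℂ F z (Pi.single i 1)

/-- Taylor series. -/
noncomputable def T (p : Fin 2 → ℂ) (F : (Fin 2 → ℂ) → ℂ) : Ser ℂ := fun e =>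
  (D 0)^[e 0] ((D 1)^[e 1] F) p / (((e 0).factorial : ℂ) * ((e 1).factorial : ℂ))

theorem coeff_T (p : Fin 2 → ℂ) (F : (Fin 2 → ℂ) → ℂ) (e : Fin 2 →₀ ℕ) :
    MvPowerSeries.coeff e (T p F) =
      (D 0)^[e 0] ((D 1)^[e 1] F) p / (((e 0).factorial : ℂ) * ((e 1).factorial : ℂ)) := rfl

theorem cc_T (p : Fin 2 → ℂ) (F : (Fin 2 → ℂ) → ℂ) : cc (T p F) = F p := by
  rw [cc, ← MvPowerSeries.coeff_zero_eq_constantCoeff_apply, coeff_T]
  simp

theorem ser_zero (S : Set (Ser ℂ)) (h0 : ∀ A ∈ S, cc A = 0)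
    (h1 : ∀ A ∈ S, ∀ i, ∃ B ∈ S, dS i A = B ∨ ∃ B' ∈ S, dS i A = B + B') :
    ∀ A ∈ S, A = 0 := by
  have key : ∀ n, ∀ A ∈ S, ∀ e : Fin 2 →₀ ℕ, e 0 + e 1 = n → MvPowerSeries.coeff e A = 0 := by
    intro n
    induction n with
    | zero =>
      intro A hA e he
      have : e = 0 := by
        ext i
        fin_cases i <;> simp <;> omega
      rw [this, MvPowerSeries.coeff_zero_eq_constantCoeff_apply]
      exact h0 A hA
    | succ n ih =>
      intro A hA e he
      obtain ⟨i, e', rfl, he'⟩ : ∃ (i : Fin 2) (e' : Fin 2 →₀ ℕ),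
          e = e' + Finsupp.single i 1 ∧ e' 0 + e' 1 = n := by
        by_cases h : e 0 = 0
        · refine ⟨1, e - Finsupp.single 1 1, ?_, by simp; omega⟩
          ext i
          fin_cases i <;> simp
          omega
        · refine ⟨0, e - Finsupp.single 0 1, ?_, by simp; omega⟩
          ext i
          fin_cases i <;> simp
          omega
      have h2 : MvPowerSeries.coeff e' (dS i A) = 0 := by
        obtain ⟨B, hB, h | ⟨B', hB', h⟩⟩ := h1 A hA i
        · rw [h, ih B hB e' he']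
        · rw [h, map_add, ih B hB e' he', ih B' hB' e' he', add_zero]
      rw [dS, MvPowerSeries.coeff_pderiv] at h2
      exact (mul_eq_zero.1 h2).resolve_right (Nat.cast_add_one_ne_zero _)
  intro A hA
  ext e
  rw [key _ A hA e rfl, map_zero]

variable {U : Set (Fin 2 → ℂ)} {p : Fin 2 → ℂ} {F G : (Fin 2 → ℂ) → ℂ}

theorem D_diff (hU : IsOpen U) (hF : DifferentiableOn ℂ F U) (i : Fin 2) :
    DifferentiableOn ℂ (D i F) U := osg U F hU hF _

theorem D_congr (hU : IsOpen U) (h : EqOn F G U) (i : Fin 2) : EqOn (D i F) (D i G) U := by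
  intro z hz
  have : F =ᶠ[𝓝 z] G := Filter.mem_of_superset (hU.mem_nhds hz) h
  simp only [D, this.fderiv_eq]

theorem iter_congr (hU : IsOpen U) (i : Fin 2) (n : ℕ) : ∀ {F G : (Fin 2 → ℂ) → ℂ},
    EqOn F G U → EqOn ((D i)^[n] F) ((D i)^[n] G) U := by
  induction n with
  | zero => intro F G h; exact h
  | succ n ih => intro F G h; exact ih (D_congr hU h i)

theorem T_congr (hU : IsOpen U) (hp : p ∈ U) (h : EqOn F G U) : T p F = T p G := by
  ext e
  rw [coeff_T, coeff_T, iter_congr hU 0 _ (iter_congr hU 1 _ h) hp]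

theorem contDiffOn_of_diff (hU : IsOpen U) (n : ℕ) : ∀ {F : (Fin 2 → ℂ) → ℂ},
    DifferentiableOn ℂ F U → ContDiffOn ℂ n F U := by
  induction n with
  | zero => intro F hF; simpa using hF.continuousOn
  | succ n ih =>
    intro F hF
    rw [Nat.cast_succ, contDiffOn_succ_iff_fderiv_of_isOpen hU, contDiffOn_clm_apply]
    exact ⟨hF, by simp, fun y => ih (osg U F hU hF y)⟩

theorem D_comm (hU : IsOpen U) (hF : DifferentiableOn ℂ F U) :
    EqOn (D 1 (D 0 F)) (D 0 (D 1 F)) U := by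
  intro z hz
  have h2 : ContDiffAt ℂ 2 F z := (contDiffOn_of_diff hU 2 hF).contDiffAt (hU.mem_nhds hz)
  have hs := h2.isSymmSndFDerivAt (by simp)
  have hd : DifferentiableAt ℂ (fderiv ℂ F) z :=
    (h2.fderiv_right (m := 1) (by norm_num)).differentiableAt (by norm_num)
  have e : ∀ v w : Fin 2 → ℂ, fderiv ℂ (fun x => fderiv ℂ F x v) z w
      = fderiv ℂ (fderiv ℂ F) z w v := by
    intro v w
    rw [fderiv_clm_apply hd (differentiableAt_const v)]
    simp
  change fderiv ℂ (fun x => fderiv ℂ F x _) z _ = fderiv ℂ (fun x => fderiv ℂ F x _) z _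
  rw [e, e, hs]

theorem iter_comm (hU : IsOpen U) (n : ℕ) : ∀ {F : (Fin 2 → ℂ) → ℂ}, DifferentiableOn ℂ F U →
    EqOn ((D 1)^[n] (D 0 F)) (D 0 ((D 1)^[n] F)) U := by
  induction n with
  | zero => intro F _ z _; rfl
  | succ n ih =>
    intro F hF
    exact (iter_congr hU 1 n (D_comm hU hF)).trans (ih (D_diff hU hF 1))

theorem dS_T (hU : IsOpen U) (hp : p ∈ U) (hF : DifferentiableOn ℂ F U) (i : Fin 2) :
    dS i (T p F) = T p (D i F) := by
  ext e
  rw [dS, MvPowerSeries.coeff_pderiv, coeff_T, coeff_T]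
  have h0 : ((e 0).factorial : ℂ) ≠ 0 := by exact_mod_cast (e 0).factorial_ne_zero
  have h1 : ((e 1).factorial : ℂ) ≠ 0 := by exact_mod_cast (e 1).factorial_ne_zero
  have h2 : ((e 0 : ℂ) + 1) ≠ 0 := Nat.cast_add_one_ne_zero _
  have h3 : ((e 1 : ℂ) + 1) ≠ 0 := Nat.cast_add_one_ne_zero _
  fin_cases i
  · have := iter_congr hU 0 (e 0) (iter_comm hU (e 1) hF) hp
    simp only [Fin.zero_eta, Finsupp.add_apply, Finsupp.single_eq_same, ne_eq, one_ne_zero,
      not_false_eq_true, Finsupp.single_eq_of_ne, add_zero, Function.iterate_succ_apply,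
      Nat.factorial_succ, Nat.cast_mul, Nat.cast_add, Nat.cast_one, this]
    field_simp
  · simp only [Fin.mk_one, Finsupp.add_apply, Finsupp.single_eq_same, ne_eq, zero_ne_one,
      not_false_eq_true, Finsupp.single_eq_of_ne, add_zero, Function.iterate_succ_apply,
      Nat.factorial_succ, Nat.cast_mul, Nat.cast_add, Nat.cast_one]
    field_simp

theorem D_add (hU : IsOpen U) (hF : DifferentiableOn ℂ F U) (hG : DifferentiableOn ℂ G U)
    (i : Fin 2) : EqOn (D i (F + G)) (D i F + D i G) U := by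
  intro z hz
  simp only [D, Pi.add_apply]
  rw [fderiv_add (hF.differentiableAt (hU.mem_nhds hz)) (hG.differentiableAt (hU.mem_nhds hz))]
  rfl

theorem D_mul (hU : IsOpen U) (hF : DifferentiableOn ℂ F U) (hG : DifferentiableOn ℂ G U)
    (i : Fin 2) : EqOn (D i (F * G)) (F * D i G + D i F * G) U := by
  intro z hz
  simp only [D, Pi.add_apply, Pi.mul_apply]
  rw [fderiv_mul (hF.differentiableAt (hU.mem_nhds hz)) (hG.differentiableAt (hU.mem_nhds hz))]
  simp [mul_comm]

theorem T_add (hU : IsOpen U) (hp : p ∈ U) (hF : DifferentiableOn ℂ F U)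
    (hG : DifferentiableOn ℂ G U) : T p (F + G) = T p F + T p G := by
  rw [← sub_eq_zero]
  refine ser_zero {A | ∃ F G, DifferentiableOn ℂ F U ∧ DifferentiableOn ℂ G U ∧
    A = T p (F + G) - (T p F + T p G)} ?_ ?_ _ ⟨F, G, hF, hG, rfl⟩
  · rintro A ⟨F, G, -, -, rfl⟩
    have h1 := cc_T p (F + G)
    have h2 := cc_T p F
    have h3 := cc_T p G
    simp only [cc, map_sub, map_add] at h1 h2 h3 ⊢
    rw [h1, h2, h3, Pi.add_apply, sub_self]
  · rintro A ⟨F, G, hF, hG, rfl⟩ i
    refine ⟨_, ⟨D i F, D i G, D_diff hU hF i, D_diff hU hG i, rfl⟩, Or.inl ?_⟩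
    rw [map_sub, map_add, dS_T hU hp (hF.add hG), dS_T hU hp hF, dS_T hU hp hG,
      T_congr hU hp (D_add hU hF hG i)]

theorem T_mul (hU : IsOpen U) (hp : p ∈ U) (hF : DifferentiableOn ℂ F U)
    (hG : DifferentiableOn ℂ G U) : T p (F * G) = T p F * T p G := by
  rw [← sub_eq_zero]
  refine ser_zero {A | ∃ F G, DifferentiableOn ℂ F U ∧ DifferentiableOn ℂ G U ∧
    A = T p (F * G) - T p F * T p G} ?_ ?_ _ ⟨F, G, hF, hG, rfl⟩
  · rintro A ⟨F, G, -, -, rfl⟩
    have h1 := cc_T p (F * G)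
    have h2 := cc_T p F
    have h3 := cc_T p G
    simp only [cc, map_sub, map_mul] at h1 h2 h3 ⊢
    rw [h1, h2, h3, Pi.mul_apply, sub_self]
  · rintro A ⟨F, G, hF, hG, rfl⟩ i
    refine ⟨_, ⟨F, D i G, hF, D_diff hU hG i, rfl⟩,
      Or.inr ⟨_, ⟨D i F, G, D_diff hU hF i, hG, rfl⟩, ?_⟩⟩
    rw [map_sub, Derivation.leibniz, dS_T hU hp (hF.mul hG), dS_T hU hp hF, dS_T hU hp hG,
      T_congr hU hp (D_mul hU hF hG i),
      T_add hU hp (hF.mul (D_diff hU hG i)) ((D_diff hU hF i).mul hG)]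
    simp only [smul_eq_mul]
    ring

theorem eval_diff (r : Pl ℂ) : Differentiable ℂ (fun z : Fin 2 → ℂ => eval z r) ∧
    ∀ i, D i (fun z => eval z r) = fun z => eval z (pderiv i r) := by
  induction r using MvPolynomial.induction_on with
  | C a =>
    refine ⟨by simp, fun i => ?_⟩
    ext z
    simp [D]
  | add a b ha hb =>
    refine ⟨by simp only [map_add]; exact ha.1.add hb.1, fun i => ?_⟩
    ext z
    have := D_add isOpen_univ ha.1.differentiableOn hb.1.differentiableOn i (mem_univ z)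
    rw [ha.2, hb.2] at this
    simp only [map_add]
    exact this
  | mul_X a m ha =>
    have hX : Differentiable ℂ (fun z : Fin 2 → ℂ => z m) := by fun_prop
    refine ⟨by simp only [map_mul, eval_X]; exact ha.1.mul hX, fun i => ?_⟩
    ext z
    have := D_mul isOpen_univ ha.1.differentiableOn hX.differentiableOn i (mem_univ z)
    rw [ha.2] at this
    have h2 : D i (fun z : Fin 2 → ℂ => z m) z = eval z (pderiv i (X m : Pl ℂ)) := by
      rw [D, (hasFDerivAt_apply m z).fderiv, pderiv_X]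
      simp only [ContinuousLinearMap.proj_apply, Pi.single_apply]
      split_ifs <;> simp
    simp only [Pi.add_apply, Pi.mul_apply, h2] at this
    simp only [map_mul, eval_X, Derivation.leibniz, smul_eq_mul, map_add]
    exact this.trans (by ring)

theorem T_eval (p : Fin 2 → ℂ) (r : Pl ℂ) : T p (fun z => eval z r) = tay p r := by
  rw [← sub_eq_zero]
  refine ser_zero {A | ∃ r : Pl ℂ, A = T p (fun z => eval z r) - tay p r} ?_ ?_ _ ⟨r, rfl⟩
  · rintro A ⟨r, rfl⟩
    have h1 := cc_T p (fun z => eval z r)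
    have h2 := cc_tay p r
    simp only [cc, map_sub] at h1 h2 ⊢
    rw [h1, h2, sub_self]
  · rintro A ⟨r, rfl⟩ i
    refine ⟨_, ⟨pderiv i r, rfl⟩, Or.inl ?_⟩
    rw [map_sub, dS_T isOpen_univ (mem_univ p) (eval_diff r).1.differentiableOn, dS_tay,
      (eval_diff r).2]

theorem T_zero (p : Fin 2 → ℂ) : T p 0 = 0 := by
  have := T_eval p 0
  simp only [map_zero] at this
  exact this

theorem fderiv_pair (F : (Fin 2 → ℂ) → ℂ) (z : Fin 2 → ℂ) (a b : ℂ) :
    fderiv ℂ F z ![a, b] = a * D 0 F z + b * D 1 F z := by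
  have : (![a, b] : Fin 2 → ℂ) = a • Pi.single 0 1 + b • Pi.single 1 1 := by
    ext i
    fin_cases i <;> simp
  rw [this]
  simp only [map_add, map_smul, smul_eq_mul, D]

theorem det_ne {L : (Fin 2 → ℂ) →L[ℂ] (Fin 2 → ℂ)} (hL : Function.Injective L) :
    L (Pi.single 0 1) 0 * L (Pi.single 1 1) 1 - L (Pi.single 1 1) 0 * L (Pi.single 0 1) 1 ≠ 0 := by
  intro h
  have key : ∀ a b : ℂ, a * L (Pi.single 0 1) 0 + b * L (Pi.single 1 1) 0 = 0 →
      a * L (Pi.single 0 1) 1 + b * L (Pi.single 1 1) 1 = 0 → a = 0 ∧ b = 0 := by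
    intro a b h0 h1
    have : L (a • Pi.single 0 1 + b • Pi.single 1 1) = L 0 := by
      rw [map_zero, map_add, map_smul, map_smul]
      ext i
      fin_cases i
      · simpa using h0
      · simpa using h1
    have h2 := hL this
    exact ⟨by simpa using congrFun h2 0, by simpa using congrFun h2 1⟩
  obtain ⟨h1, h2⟩ := key (L (Pi.single 1 1) 1) (-L (Pi.single 0 1) 1)
    (by linear_combination h) (by ring)
  obtain ⟨h3, h4⟩ := key (L (Pi.single 1 1) 0) (-L (Pi.single 0 1) 0)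
    (by ring) (by linear_combination -h)
  exact one_ne_zero (key 1 0 (by simpa using h4) (by simpa using h2)).1

theorem tayl : TaylS := by
  rintro w p ⟨h0, h1, hj, e, hp, hep, he, hes, hint⟩
  have hU := e.open_source
  have hu : ∀ j, DifferentiableOn ℂ (fun q => e q j) e.source := fun j =>
    differentiableOn_pi.1 he j
  have hh : (fun q => e q 0 ^ 2 + e q 1 ^ 2) =
      (fun q => e q 0) * (fun q => e q 0) + (fun q => e q 1) * (fun q => e q 1) := by
    ext q
    simp [sq]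
  have hd : DifferentiableOn ℂ (fun q => e q 0 ^ 2 + e q 1 ^ 2) e.source :=
    ((hu 0).pow 2).add ((hu 1).pow 2)
  have hT : T p (fun q => e q 0 ^ 2 + e q 1 ^ 2) =
      T p (fun q => e q 0) * T p (fun q => e q 0) + T p (fun q => e q 1) * T p (fun q => e q 1) := by
    rw [hh, T_add hU hp ((hu 0).mul (hu 0)) ((hu 1).mul (hu 1)), T_mul hU hp (hu 0) (hu 0),
      T_mul hU hp (hu 1) (hu 1)]
  have hc : ∀ j, MvPowerSeries.constantCoeff (T p fun q => e q j) = 0 := fun j =>
    (cc_T p _).trans (by simp [hep])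
  have hde : DifferentiableAt ℂ e p := he.differentiableAt (hU.mem_nhds hp)
  have hc1 : ∀ i j, MvPowerSeries.constantCoeff (dS i (T p fun q => e q j)) =
      fderiv ℂ e p (Pi.single i 1) j := fun i j => by
    rw [dS_T hU hp (hu j)]
    refine (cc_T p _).trans ?_
    rw [D, (hasFDerivAt_pi'.1 hde.hasFDerivAt j).fderiv]
    rfl
  have hinj : Function.Injective (fderiv ℂ e p) := by
    have hs : DifferentiableAt ℂ e.symm (e p) :=
      hes.differentiableAt (e.open_target.mem_nhds (e.map_source hp))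
    have h2 := hs.hasFDerivAt.comp p hde.hasFDerivAt
    have h3 : HasFDerivAt (e.symm ∘ e) (ContinuousLinearMap.id ℂ _) p :=
      (hasFDerivAt_id p).congr_of_eventuallyEq (e.eventually_left_inverse hp)
    have h4 := h2.unique h3
    intro a b hab
    have h5 := congrArg (fderiv ℂ e.symm (e p)) hab
    have h6 := fun v => congrArg (fun L : (Fin 2 → ℂ) →L[ℂ] (Fin 2 → ℂ) => L v) h4
    simp only [ContinuousLinearMap.comp_apply, ContinuousLinearMap.id_apply] at h6
    rwa [h6, h6] at h5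
  refine ⟨T p (fun q => e q 0 ^ 2 + e q 1 ^ 2), by rw [cc_tay, h0], by rw [cc_tay, h1],
    by rw [jac_tay]; exact hj.isUnit, ?_, fun i => ?_, ?_⟩
  · have hP := (eval_diff w.1).1.differentiableOn (s := e.source)
    have hQ := (eval_diff w.2).1.differentiableOn (s := e.source)
    rw [dS_T hU hp hd, dS_T hU hp hd, ← T_eval, ← T_eval, ← T_mul hU hp hP (D_diff hU hd 0),
      ← T_mul hU hp hQ (D_diff hU hd 1),
      ← T_add hU hp (hP.mul (D_diff hU hd 0)) (hQ.mul (D_diff hU hd 1)), ← T_zero p]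
    refine T_congr hU hp fun z hz => ?_
    have := hint z hz
    rw [fderiv_pair] at this
    exact this
  · rw [hT]
    simp [cc, hc]
  · refine Ne.isUnit ?_
    have h5 : hess (T p (fun q => e q 0 ^ 2 + e q 1 ^ 2)) =
        4 * (fderiv ℂ e p (Pi.single 0 1) 0 * fderiv ℂ e p (Pi.single 1 1) 1 -
          fderiv ℂ e p (Pi.single 1 1) 0 * fderiv ℂ e p (Pi.single 0 1) 1) ^ 2 := by
      rw [hT]
      simp only [hess, cc, map_add, Derivation.leibniz, smul_eq_mul, map_mul, hc, hc1]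
      ring
    rw [h5]
    exact mul_ne_zero (by norm_num) (pow_ne_zero 2 (det_ne hinj))

end TaylA

theorem rowTayl : OsgS ∧ OfTayl := ⟨TaylA.osg, fun _ => TaylA.tayl⟩

end Pool.Agent.MP_aa1ef7_ag.H20
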