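import Pool.Agent.MP_aa1ef7_ag.H20.Spec

/-! Torsion freeness of the quotient by `D` and the kernels of `D`. -/

namespace Pool.Agent.MP_aa1ef7_ag.H20

open MvPolynomial
open Pool.Agent.MP_aa1ef7_ag.H40

namespace TfA

variable {d : ℕ} {l : Fin (d + 1) → ℂ × ℂ × ℂ}

theorem DB_add (A B : BB l) : DB l (A + B) = DB l A + DB l B := br_add _ _ A B

theorem DB_sub (A B : BB l) : DB l (A - B) = DB l A - DB l B := br_sub _ _ A B

theorem DB_mul (A B : BB l) : DB l (A * B) = A * DB l B + B * DB l A := br_mul _ _ A B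

theorem DB_F : DB l (cB l (ff l)) = 0 := br_self _ _

theorem DB_one : DB l 1 = 0 := by simp [DB, br]

theorem DB_cmul {x : BB l} (hx : DB l x = 0) (A : BB l) : DB l (x * A) = x * DB l A := by
  rw [DB_mul, hx, mul_zero, add_zero]

theorem DB_pow {x : BB l} (hx : DB l x = 0) (n : ℕ) : DB l (x ^ n) = 0 := by
  induction n with
  | zero => rw [pow_zero, DB_one]
  | succ n ih => rw [pow_succ, DB_cmul ih, hx, mul_zero]

theorem DP_aeval (c : Polynomial ℂ) : DP l (Polynomial.aeval (ff l) c) = 0 := br_aeval _ _ c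

theorem DB_aeval (hb : Bas l) (c : Polynomial ℂ) :
    DB l (cB l (Polynomial.aeval (ff l) c)) = 0 := by
  rw [hb.Dc, DP_aeval, map_zero]

theorem DB_C (hb : Bas l) (c : ℂ) : DB l (cB l (C c)) = 0 := by
  have h := DB_aeval hb (Polynomial.C c)
  rwa [Polynomial.aeval_C, algebraMap_eq] at h

theorem cB_RP (hb : Bas l) (r : Poly) : cB l r ∈ RP l := hb.pc _

theorem pd_cmul (hb : Bas l) (r : Poly) (n : ℕ) (m : Fin (d + 1)) (A : BB l) :
    pderiv m (cB l r ^ n * A) = cB l r ^ n * pderiv m A := by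
  rw [← map_pow, Derivation.leibniz, hb.Lc, smul_zero, add_zero, smul_eq_mul]

/-- The inverse of `f`. -/
theorem exists_inv (hb : Bas l) :
    ∃ u : BB l, cB l (ff l) * u = 1 ∧ DB l u = 0 ∧ u ∈ RP l := by
  obtain ⟨u, hu⟩ := hb.unit.exists_right_inv
  refine ⟨u, hu, ?_, ?_⟩
  · have h : cB l (ff l) * DB l u = 0 := by rw [← DB_cmul DB_F, hu, DB_one]
    exact hb.unit.mul_right_eq_zero.1 h
  · have h : cB l (ff l) * subP l u = cB l (ff l) * u := by
      have h1 : subP l (cB l (ff l)) = cB l (ff l) := (mem_RP l).1 (cB_RP hb _)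
      rw [hu, ← h1, ← map_mul, hu, map_one]
    exact (mem_RP l).2 (hb.unit.mul_left_cancel h)

theorem clear_RI (hb : Bas l) (hv : Dv l) (I : Finset (Fin (d + 1))) {A : BB l}
    (hA : A ∈ SI l I) : ∃ (N : ℕ) (Z : RL d), iB l Z = cB l (ff l) ^ N * A ∧ iB l Z ∈ RI l I := by
  obtain ⟨N, Z, hZ⟩ := hb.clear A
  refine ⟨N, Z, hZ, hv.rii I Z ?_⟩
  rw [hZ]
  exact mul_mem (pow_mem (hv.ric I _).1 N) hA

/-- The conclusion of the step lemma for one arrangement. -/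
def St (l : Fin (d + 1) → ℂ × ℂ × ℂ) : Prop :=
  ∀ I : Finset (Fin (d + 1)), I.Nonempty → ∀ A ∈ RI l I, ∀ b ∈ RI l I,
    DB l A = cB l (ff l) * b → ∃ c : ℂ, ∃ A' ∈ RI l I, A = cB l (C c) + cB l (ff l) * A'

/-- The conclusion of the degree lemma for one arrangement. -/
def Dg (l : Fin (d + 1) → ℂ × ℂ × ℂ) : Prop :=
  ∀ (n : ℕ) (Z : RL d), ∑ m, pderiv m Z = 0 →
    (∀ e, (coeff e (DL l Z)).totalDegree ≤ n + d - 1) →
    ∃ c : Polynomial ℂ, ∀ e, (coeff e (Z - C (Polynomial.aeval (ff l) c))).totalDegree ≤ n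

theorem tf_ind (hb : Bas l) (hv : Dv l) (hs : St l) (I : Finset (Fin (d + 1))) (hI : I.Nonempty)
    (N : ℕ) : ∀ A : BB l, DB l A ∈ RI l I → cB l (ff l) ^ N * A ∈ RI l I →
      ∃ A' ∈ RI l I, DB l A' = DB l A := by
  obtain ⟨u, hu, hDu, -⟩ := exists_inv hb
  induction N with
  | zero => intro A _ h; exact ⟨A, by simpa using h, rfl⟩
  | succ N ih =>
    intro A hD h
    obtain ⟨c, B, hB, hc⟩ := hs I hI _ h (cB l (ff l) ^ N * DB l A)
      (mul_mem (pow_mem (hv.ric I _) N) hD) (by rw [DB_cmul (DB_pow DB_F _)]; ring)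
    have e1 : DB l (A - cB l (C c) * u ^ (N + 1)) = DB l A := by
      rw [DB_sub, DB_cmul (DB_C hb c), DB_pow hDu, mul_zero, sub_zero]
    have e2 : cB l (ff l) ^ N * (A - cB l (C c) * u ^ (N + 1)) = B := by
      apply hb.unit.mul_left_cancel
      have h1 : (cB l (ff l) * u) ^ (N + 1) = 1 := by rw [hu, one_pow]
      linear_combination hc - cB l (C c) * h1
    rw [← e1]
    exact ih _ (by rwa [e1]) (by rwa [e2])

theorem tf (hb : Bas l) (hv : Dv l) (hs : St l) (I : Finset (Fin (d + 1))) (hI : I.Nonempty)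
    (A : BB l) (hA : A ∈ SI l I) (hD : DB l A ∈ RI l I) : ∃ A' ∈ RI l I, DB l A' = DB l A := by
  obtain ⟨N, Z, hZ, hR⟩ := clear_RI hb hv I hA
  exact tf_ind hb hv hs I hI N A hD (hZ ▸ hR)

theorem ker_ind (hb : Bas l) (hs : St l) (I : Finset (Fin (d + 1))) (hI : I.Nonempty)
    (A : BB l) (hA : A ∈ RI l I) (hD : DB l A = 0) (n : ℕ) :
    ∃ B ∈ RI l I, DB l B = 0 ∧ ∀ m, pderiv m A = cB l (ff l) ^ n * pderiv m B := by
  induction n with
  | zero => exact ⟨A, hA, hD, fun m => by simp⟩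
  | succ n ih =>
    obtain ⟨B, hB, hDB, h⟩ := ih
    obtain ⟨c, B', hB', hc⟩ := hs I hI B hB 0 (zero_mem _) (by rw [hDB, mul_zero])
    refine ⟨B', hB', ?_, fun m => ?_⟩
    · rw [hc, DB_add, DB_C hb, zero_add, DB_cmul DB_F] at hDB
      exact hb.unit.mul_right_eq_zero.1 hDB
    · have h1 := pd_cmul hb (ff l) 1 m B'
      rw [pow_one] at h1
      rw [h m, hc, map_add, hb.Lc, zero_add, h1]
      ring

theorem not_dvd_gI (hl : Lin l) (i : Fin (d + 1)) : ¬ lin (l i) ∣ gI l {i} := by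
  intro h
  obtain ⟨m, hm, hd⟩ := ((hl.prime i).dvd_finsetProd_iff _).1 h
  refine hl.ndvd i m ?_ hd
  rintro rfl
  simp at hm

theorem ker (hl : Lin l) (hb : Bas l) (hv : Dv l) (hs : St l) (I : Finset (Fin (d + 1)))
    (hI : I.Nonempty) (A : BB l) (hA : A ∈ SI l I) (hD : DB l A = 0) (m : Fin (d + 1)) :
    pderiv m A = 0 := by
  obtain ⟨i, hi⟩ := hI
  have hA' : A ∈ SI l {i} := (mem_SI l).2 fun k hk => by
    rw [Finset.mem_singleton.1 hk]; exact (mem_SI l).1 hA i hi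
  obtain ⟨N, Z, hZ, hR⟩ := clear_RI hb hv {i} hA'
  have hD' : DB l (iB l Z) = 0 := by rw [hZ, DB_cmul (DB_pow DB_F _), hD, mul_zero]
  have hW : pderiv m Z = 0 := by
    ext1 e
    rw [coeff_zero]
    by_contra hne
    obtain ⟨n, hn⟩ := FiniteMultiplicity.of_not_isUnit (hl.prime i).not_isUnit hne
    obtain ⟨B, hB, -, h⟩ := ker_ind hb hs {i} (Finset.singleton_nonempty i) _ hR hD' (n + 1)
    obtain ⟨-, M, Y, hY⟩ := (mem_RI l).1 (hv.riL {i} m B hB)
    have h1 : C (gI l {i} ^ M) * pderiv m Z = C (ff l ^ (n + 1)) * Y := by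
      apply hb.iinj
      rw [map_mul, map_mul, iB_C, iB_C, ← hb.Li, h m, hY, map_pow, map_pow]
      ring
    have h2 := congrArg (coeff e) h1
    rw [coeff_C_mul, coeff_C_mul] at h2
    refine hn ((hl.prime i).pow_dvd_of_dvd_mul_left (n + 1) (a := gI l {i} ^ M)
      (fun h3 => not_dvd_gI hl i ((hl.prime i).dvd_of_dvd_pow h3)) ?_)
    rw [h2]
    refine Dvd.dvd.mul_right (pow_dvd_pow_of_dvd ?_ _) _
    exact Finset.dvd_prod_of_mem _ (Finset.mem_univ i)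
  have h3 : cB l (ff l) ^ N * pderiv m A = 0 := by
    rw [← pd_cmul hb, ← hZ, hb.Li, hW, map_zero]
  exact (hb.unit.pow N).mul_right_eq_zero.1 h3

theorem kerp (hp : PoincS) (hl : Lin l) (hb : Bas l) (hv : Dv l) (hs : St l) (A : BB l)
    (hA : A ∈ RP l) (hD : DB l A = 0) (m : Fin (d + 1)) : pderiv m A = 0 := by
  have h1 := ker hl hb hv hs {0} (Finset.singleton_nonempty 0) _ (hb.sI 0 A)
    (by rw [← hb.sD, hD, map_zero])
  have h2 := (hp (TT l) (Fin (d + 1))).2 _ h1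
  have h3 : A = C (coeff 0 (subS l 0 A)) := by
    rw [← (mem_RP l).1 (hb.pc (coeff 0 (subS l 0 A))), ← h2, hb.ps, (mem_RP l).1 hA]
  rw [h3, pderiv_C]

theorem dg_C (hg : Dg l) (n : ℕ) (r : Poly) (hr : (DP l r).totalDegree ≤ n + d - 1) :
    ∃ c : Polynomial ℂ, (r - Polynomial.aeval (ff l) c).totalDegree ≤ n := by
  classical
  obtain ⟨c, hc⟩ := hg n (C r) (by simp) fun e => by
    rw [DL, dext_C, derP_apply, coeff_C]
    split_ifs
    · exact hr
    · simp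
  refine ⟨c, ?_⟩
  have h := hc 0
  rwa [← map_sub, coeff_zero_C] at h

theorem kerr (hl : Lin l) (hg : Dg l) (r : Poly) (hr : DP l r = 0) :
    ∃ c : Polynomial ℂ, r = Polynomial.aeval (ff l) c ∧
      (d + 1) * c.natDegree ≤ r.totalDegree := by
  obtain ⟨c, hc⟩ := dg_C hg 0 r (by rw [hr]; simp)
  have h1 := totalDegree_eq_zero_iff_eq_C.1 (Nat.le_zero.1 hc)
  have h2 : r = Polynomial.aeval (ff l)
      (c + Polynomial.C (coeff 0 (r - Polynomial.aeval (ff l) c))) := by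
    rw [map_add, Polynomial.aeval_C, algebraMap_eq, ← h1]; ring
  refine ⟨_, h2, ?_⟩
  rw [← hl.aevaldeg, ← h2]

theorem tfi (hb : Bas l) (hv : Dv l) (hs : St l) (i : Fin (d + 1)) (A : BB l)
    (hD : DB l A ∈ RI l {i}) : ∃ A' ∈ RI l {i}, DB l A' = DB l A := by
  have h1 : DB l (subS l i A) = DB l A := by rw [← hb.sD, hb.sfix i _ hD.1]
  rw [← h1]
  exact tf hb hv hs {i} (Finset.singleton_nonempty i) _ (hb.sI i A) (by rwa [h1])

theorem tfd (hb : Bas l) (hg : Dg l) (A : BB l) (hD : DB l A ∈ RD l (2 * d)) :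
    ∃ A' ∈ RD l (d + 1), DB l A' = DB l A := by
  obtain ⟨u, hu, hDu, huP⟩ := exists_inv hb
  obtain ⟨hP, M, Y, hY, hd⟩ := (mem_RD l).1 hD
  have h1 : DB l (subP l A) = DB l A := by rw [← hb.pD, (mem_RP l).1 hP]
  obtain ⟨K, Z, hZ⟩ := hb.clear (subP l A)
  have hZ' : iB l (C (ff l ^ M) * Z) = cB l (ff l) ^ (K + M) * subP l A := by
    rw [map_mul, iB_C, hZ, map_pow]; ring
  have h2 : DL l (C (ff l ^ M) * Z) = C (ff l ^ K) * Y := by
    apply hb.iinj
    rw [← hb.Di, hZ', DB_cmul (DB_pow DB_F _), h1, map_mul, iB_C, hY, map_pow]; ring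
  have h3 : ∑ m, pderiv m (C (ff l ^ M) * Z) = 0 := by
    apply hb.iinj
    rw [map_sum, map_zero, ← hb.psum _ (mul_mem (pow_mem (cB_RP hb (ff l)) (K + M)) (hb.pP A))]
    exact Finset.sum_congr rfl fun m _ => by rw [← hb.Li, hZ']
  obtain ⟨c, hc⟩ := hg (d + 1 + (K + M) * (d + 1)) _ h3 fun e => by
    rw [h2, coeff_C_mul]
    refine (deg_pow_mul l (hd e)).trans ?_
    rw [add_mul K M]
    omega
  refine ⟨subP l A - cB l (Polynomial.aeval (ff l) c) * u ^ (K + M), (mem_RD l).2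
    ⟨sub_mem (hb.pP A) (mul_mem (cB_RP hb _) (pow_mem huP _)), K + M, _, ?_, hc⟩, ?_⟩
  · have h4 : (cB l (ff l) * u) ^ (K + M) = 1 := by rw [hu, one_pow]
    rw [map_sub, hZ', iB_C]
    linear_combination cB l (Polynomial.aeval (ff l) c) * h4
  · rw [DB_sub, DB_cmul (DB_aeval hb c), DB_pow hDu, mul_zero, sub_zero, h1]

theorem tfh (hb : Bas l) (hv : Dv l) (hs : St l) (hg : Dg l) (A : BB l)
    (hA : A ∈ SI l Finset.univ) (hD : DB l A ∈ RH l (2 * d)) :
    ∃ A' ∈ RH l (d + 1), DB l A' = DB l A := by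
  obtain ⟨r, hr, hD⟩ := (mem_RH l).1 hD
  obtain ⟨B, hB, hDB⟩ := tf hb hv hs Finset.univ Finset.univ_nonempty A hA
    (by rw [hD]; exact hv.ric _ r)
  obtain ⟨s, rfl⟩ := hv.riuniv B hB
  have h1 : DP l s = r := hb.cinj (by rw [← hb.Dc, hDB, hD])
  obtain ⟨c, hc⟩ := dg_C hg (d + 1) s (by rw [h1]; omega)
  refine ⟨cB l (s - Polynomial.aeval (ff l) c), (mem_RH l).2 ⟨_, hc, rfl⟩, ?_⟩
  rw [map_sub, DB_sub, DB_aeval hb, sub_zero, hDB]

end TfA

theorem rowTf : OfTf := fun hp hs hg d l hG hl hb hv =>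
  { tf := TfA.tf hb hv (hs d l hG hl hb)
    ker := TfA.ker hl hb hv (hs d l hG hl hb)
    kerp := TfA.kerp hp hl hb hv (hs d l hG hl hb)
    kerr := TfA.kerr hl (hg d l hG hl)
    tfi := TfA.tfi hb hv (hs d l hG hl hb)
    tfd := TfA.tfd hb (hg d l hG hl)
    tfh := TfA.tfh hb hv (hs d l hG hl hb) (hg d l hG hl) }

end Pool.Agent.MP_aa1ef7_ag.H20
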