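import Pool.Agent.MP_aa1ef7_ag.H20.Spec

/-! Row `Unr`: automorphisms over `κ(u)` stabilise the modules. -/

namespace Pool.Agent.MP_aa1ef7_ag.H20

namespace UnrA

open Polynomial

/-- A derivation that preserves `k` preserves every algebraic extension of `k` inside `ℂ`. -/
theorem der_mem {k E : Type} [Field k] [CharZero k] [Field E] [Algebra k E] [Algebra k ℂ]
    [Algebra E ℂ] [IsScalarTower k E ℂ] [Algebra.IsAlgebraic k E] (δ : Derivation ℤ ℂ ℂ)
    (hk : ∀ a : k, ∃ b : k, algebraMap k ℂ b = δ (algebraMap k ℂ a)) (x : E) :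
    ∃ y : E, algebraMap E ℂ y = δ (algebraMap E ℂ x) := by
  have key : ∀ p : k[X], ∃ y : E, δ (aeval (algebraMap E ℂ x) p) =
      algebraMap E ℂ y + algebraMap E ℂ (aeval x (derivative p)) * δ (algebraMap E ℂ x) := by
    intro p
    induction p using Polynomial.induction_on' with
    | add p q hp hq =>
      obtain ⟨y, hy⟩ := hp
      obtain ⟨z, hz⟩ := hq
      exact ⟨y + z, by simp only [map_add, hy, hz]; ring⟩
    | monomial n a =>
      obtain ⟨b, hb⟩ := hk a
      refine ⟨algebraMap k E b * x ^ n, ?_⟩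
      simp only [aeval_monomial, derivative_monomial, Derivation.leibniz, Derivation.leibniz_pow,
        smul_eq_mul, map_mul, map_pow, map_natCast, ← IsScalarTower.algebraMap_apply, hb,
        nsmul_eq_mul]
      ring
  obtain ⟨y, hy⟩ := key (minpoly k x)
  have h0 : aeval (algebraMap E ℂ x) (minpoly k x) = 0 := by
    rw [aeval_algebraMap_apply, minpoly.aeval, map_zero]
  have hsep : (minpoly k x).Separable :=
    (minpoly.irreducible (Algebra.IsIntegral.isIntegral x)).separable
  have h1 : aeval x (derivative (minpoly k x)) ≠ 0 :=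
    hsep.aeval_derivative_ne_zero (minpoly.aeval k x)
  have h2 : algebraMap E ℂ (aeval x (derivative (minpoly k x))) ≠ 0 := by
    simpa using h1
  refine ⟨-y / aeval x (derivative (minpoly k x)), ?_⟩
  rw [h0, map_zero] at hy
  rw [map_div₀, map_neg, div_eq_iff h2]
  linear_combination hy

/-- The restricted derivation. -/
theorem exists_der {κ : Subfield ℂ} {E : Type} [Field E] [Algebra κ E] [Algebra E ℂ]
    [IsScalarTower κ E ℂ] (δ : Derivation ℤ ℂ ℂ) (hκ : ∀ z ∈ κ, δ z = 0)
    (h : ∀ x : E, ∃ y : E, algebraMap E ℂ y = δ (algebraMap E ℂ x)) :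
    ∃ D : Derivation κ E E, ∀ x, algebraMap E ℂ (D x) = δ (algebraMap E ℂ x) := by
  choose f hf using h
  have inj := (algebraMap E ℂ).injective
  have hmul : ∀ a b, f (a * b) = a * f b + b * f a := fun a b => inj (by
    simp only [hf, map_mul, map_add, Derivation.leibniz, smul_eq_mul])
  refine ⟨Derivation.mk'
    { toFun := f
      map_add' := fun a b => inj (by simp only [hf, map_add])
      map_smul' := fun c a => ?_ } fun a b => by simpa using hmul a b, hf⟩
  have hc : f (algebraMap κ E c) = 0 := inj (by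
    rw [hf, ← IsScalarTower.algebraMap_apply, map_zero]
    exact hκ _ c.2)
  simp [Algebra.smul_def, hmul, hc]

theorem mem_of_eq {R M : Type} [Ring R] [AddCommGroup M] [Module R M] {N : Submodule R M}
    {x y : M} (h : x ∈ N) (e : x = y) : y ∈ N := e ▸ h

section core

variable {E A : Type} [Field E] [Algebra E ℂ]

/-- The vectors over `E` whose image lies in `N`. -/
def res (E : Type) [Field E] [Algebra E ℂ] (N : Submodule ℂ[X] (A → ℂ[X])) :
    Submodule E[X] (A → E[X]) where
  carrier := {c | (fun a => (c a).map (algebraMap E ℂ)) ∈ N}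
  add_mem' := fun {a b} ha hb => by
    refine mem_of_eq (N := N) (N.add_mem ha hb) ?_
    funext i; simp
  zero_mem' := by
    refine mem_of_eq (N := N) N.zero_mem ?_
    funext i; simp
  smul_mem' := fun g c hc => by
    refine mem_of_eq (N := N) (N.smul_mem (g.map (algebraMap E ℂ)) hc) ?_
    funext i; simp

theorem mem_res {N : Submodule ℂ[X] (A → ℂ[X])} {c : A → E[X]} :
    c ∈ res E N ↔ (fun a => (c a).map (algebraMap E ℂ)) ∈ N := Iff.rfl

theorem satu_res {N : Submodule ℂ[X] (A → ℂ[X])} (h : Satu N) : Satu (res E N) := by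
  intro g c hg hc
  refine h (g.map (algebraMap E ℂ)) _ ?_ ?_
  · simpa using hg
  · refine mem_of_eq (mem_res.1 hc) ?_
    funext i; simp

theorem stab_res [Fintype A] {N : Submodule ℂ[X] (A → ℂ[X])} {δ : ℂ → ℂ} {D : E → E}
    (hD : ∀ x, algebraMap E ℂ (D x) = δ (algebraMap E ℂ x)) {q : E[X]} {Θ : A → A → E[X]}
    (h : Stab δ (q.map (algebraMap E ℂ)) (fun a b => (Θ a b).map (algebraMap E ℂ)) N) :
    Stab D q Θ (res E N) := by
  intro c c' hc' hc
  have := h (fun a => (c a).map (algebraMap E ℂ)) (fun a => (c' a).map (algebraMap E ℂ))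
    (fun a n => by simp only [coeff_map, hc', hD]) hc
  refine mem_res.2 (mem_of_eq this ?_)
  funext i
  simp [Polynomial.map_sum]

end core

theorem core (hI : InertS) (hE : EtaleS) (κ : Subfield ℂ) [IsAlgClosed κ] (k E A : Type)
    [Field k] [Field E] [Algebra κ k] [Algebra k E] [Algebra κ E] [IsScalarTower κ k E]
    [Algebra k ℂ] [Algebra E ℂ] [IsScalarTower k E ℂ] [IsScalarTower κ E ℂ]
    [FiniteDimensional k E] [IsGalois k E] [Normal k ℂ] [Fintype A] (u : k)
    (htop : IntermediateField.adjoin κ {u} = ⊤) (δ : ℂ → ℂ) (D : Derivation κ E E)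
    (hD : ∀ x, algebraMap E ℂ (D x) = δ (algebraMap E ℂ x)) (hu : D (algebraMap k E u) = 1)
    (𝓜 : Set (Submodule ℂ[X] (A → ℂ[X]))) (q : E[X]) (Θ : A → A → E[X]) (hq : q.Monic)
    (hqc : ∀ n, q.coeff n ∈ Algebra.adjoin κ {algebraMap k E u})
    (hΘ : ∀ a b n, (Θ a b).coeff n ∈ Algebra.adjoin κ {algebraMap k E u})
    (hsat : ∀ N ∈ 𝓜, Satu N)
    (hst : ∀ N ∈ 𝓜, Stab δ (q.map (algebraMap E ℂ)) (fun a b => (Θ a b).map (algebraMap E ℂ)) N)
    (hact : ∀ θ : ℂ ≃ₐ[k] ℂ, ∀ N ∈ 𝓜, ∃ N' ∈ 𝓜,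
      ∀ c, c ∈ N ↔ (fun a => (c a).map (θ : ℂ →+* ℂ)) ∈ N')
    (g : E ≃ₐ[k] E) (N : Submodule ℂ[X] (A → ℂ[X])) (hN : N ∈ 𝓜) (c : A → E[X])
    (hc : c ∈ res E N) : (fun a => (c a).map (g : E →+* E)) ∈ res E N := by
  let P : (E ≃ₐ[k] E) → Prop := fun g => ∀ N ∈ 𝓜, ∀ c ∈ res E N,
    (fun a => (c a).map (g : E →+* E)) ∈ res E N
  have hcomp : ∀ (g h : E ≃ₐ[k] E) (c : A → E[X]),
      (fun a => (c a).map ((g * h : E ≃ₐ[k] E) : E →+* E)) =
        fun a => ((c a).map (h : E →+* E)).map (g : E →+* E) := by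
    intro g h c
    funext a
    rw [Polynomial.map_map]
    rfl
  have hone : ∀ c : A → E[X], (fun a => (c a).map ((1 : E ≃ₐ[k] E) : E →+* E)) = c := by
    intro c
    funext a
    exact Polynomial.map_id
  have P1 : P 1 := fun N _ c hc => by rw [hone]; exact hc
  have Pm : ∀ g h, P g → P h → P (g * h) := fun g h hg hh N hN c hc => by
    rw [hcomp]; exact hg N hN _ (hh N hN c hc)
  have Pp : ∀ g, P g → ∀ n : ℕ, P (g ^ n) := fun g hg n => by
    induction n with
    | zero => rw [pow_zero]; exact P1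
    | succ n ih => rw [pow_succ]; exact Pm _ _ ih hg
  let H : Subgroup (E ≃ₐ[k] E) :=
    { carrier := {g | P g}
      mul_mem' := fun {a b} ha hb => Pm a b ha hb
      one_mem' := P1
      inv_mem' := fun {a} ha => by
        have h1 : a⁻¹ = a ^ (orderOf a - 1) := by
          apply inv_eq_of_mul_eq_one_left
          rw [← pow_succ, Nat.sub_add_cancel (orderOf_pos a), pow_orderOf_eq_one]
        show P a⁻¹
        rw [h1]
        exact Pp a ha _ }
  have hnorm : H.Normal := by
    refine ⟨fun h hh g N hN c hc => ?_⟩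
    obtain ⟨N', hN', hiff⟩ := hact (g⁻¹.liftNormal ℂ) N hN
    have hres : ∀ c : A → E[X],
        c ∈ res E N ↔ (fun a => (c a).map ((g⁻¹ : E ≃ₐ[k] E) : E →+* E)) ∈ res E N' := by
      intro c
      rw [mem_res, mem_res, hiff]
      refine iff_of_eq (congrArg (· ∈ N') ?_)
      funext a
      rw [Polynomial.map_map, Polynomial.map_map]
      congr 1
      ext x
      exact AlgEquiv.liftNormal_commutes g⁻¹ ℂ x
    rw [hres, ← hcomp]
    have e : g⁻¹ * (g * h * g⁻¹) = h * g⁻¹ := by group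
    rw [e, hcomp]
    exact hh N' hN' _ ((hres c).1 hc)
  have htopH : H = ⊤ := by
    refine hE κ k E u D H htop hu hnorm fun u0 ζ e j σ g hpl hg N hN c hc => ?_
    exact hI κ k E A u D u0 ζ e j σ (g : E →+* E) q Θ (res E N) htop hu hpl hg hq hqc hΘ
      (satu_res (hsat N hN)) (stab_res hD (hst N hN)) c hc
  have hg : g ∈ H := htopH ▸ Subgroup.mem_top g
  exact hg N hN c hc

theorem algClosed (κ : Subfield ℂ) (h : ∀ z : ℂ, IsAlgebraic κ z → z ∈ κ) : IsAlgClosed κ := by
  refine IsAlgClosed.of_exists_root _ fun p hp hirr => ?_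
  obtain ⟨z, hz⟩ := IsAlgClosed.exists_aeval_eq_zero ℂ p (degree_pos_of_irreducible hirr).ne'
  have hm := h z ⟨p, hp.ne_zero, hz⟩
  refine ⟨⟨z, hm⟩, (algebraMap κ ℂ).injective ?_⟩
  rw [map_zero, ← hz, ← aeval_algebraMap_apply_eq_algebraMap_eval]
  rfl

theorem exists_coeffs {A : Type} [Fintype A] (𝓜 : Set (Submodule ℂ[X] (A → ℂ[X])))
    (h : 𝓜.Finite) : ∃ S : Set ℂ, S.Finite ∧ ∀ N ∈ 𝓜, ∃ s : Set (A → ℂ[X]),
      Submodule.span ℂ[X] s = N ∧ ∀ v ∈ s, ∀ a n, (v a).coeff n ∈ insert 0 S := by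
  have hfg : ∀ N : Submodule ℂ[X] (A → ℂ[X]), ∃ s : Finset (A → ℂ[X]),
      Submodule.span ℂ[X] (s : Set (A → ℂ[X])) = N := fun N => IsNoetherian.noetherian N
  choose s hs using hfg
  refine ⟨⋃ N ∈ 𝓜, ⋃ v ∈ s N, ⋃ a, ((v a).coeffs : Set ℂ), ?_, fun N hN => ⟨s N, hs N, ?_⟩⟩
  · exact h.biUnion fun N _ => (s N).finite_toSet.biUnion fun v _ =>
      Set.finite_iUnion fun a => Finset.finite_toSet _
  · intro v hv a n
    by_cases h0 : (v a).coeff n = 0
    · exact Or.inl h0
    · refine Or.inr ?_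
      simp only [Set.mem_iUnion]
      exact ⟨N, hN, v, hv, a, coeff_mem_coeffs h0⟩

theorem exists_lift {E : Type} [Field E] [Algebra E ℂ] (p : ℂ[X])
    (h : ∀ n, ∃ y : E, algebraMap E ℂ y = p.coeff n) : ∃ p' : E[X], p'.map (algebraMap E ℂ) = p :=
  (mem_lifts p).1 ((lifts_iff_coeff_lifts p).2 h)

end UnrA

open UnrA Polynomial in
theorem rowUnr : OfUnr := by
  intro hI hE κ u δ A _ 𝓜 q Θ hκ hδκ hδu halg hfin hq hqc hΘc hsat hst hact θ hθκ hθu N hN c hc
  have : IsAlgClosed κ := algClosed κ hκ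
  obtain ⟨S, hSfin, hS⟩ := exists_coeffs 𝓜 hfin
  let kk : IntermediateField κ ℂ := IntermediateField.adjoin κ {u}
  have : Algebra.IsAlgebraic kk ℂ := ⟨halg⟩
  have : IsAlgClosure kk ℂ := ⟨inferInstance, inferInstance⟩
  have : Normal kk ℂ := IsAlgClosure.normal kk ℂ
  have : Finite S := hSfin
  let K0 : IntermediateField kk ℂ := IntermediateField.adjoin kk S
  have : FiniteDimensional kk K0 :=
    IntermediateField.finiteDimensional_adjoin fun x _ => (halg x).isIntegral
  let E : IntermediateField kk ℂ := IntermediateField.normalClosure kk K0 ℂ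
  have : FiniteDimensional kk E := inferInstance
  have : Normal kk E := inferInstance
  have : IsGalois kk E := {}
  have : IsScalarTower κ E ℂ := IsScalarTower.of_algebraMap_eq fun _ => rfl
  have : IsScalarTower κ kk E := IsScalarTower.of_algebraMap_eq fun _ => rfl
  have hSE : ∀ z ∈ insert 0 S, ∃ y : E, algebraMap E ℂ y = z := by
    rintro z (rfl | hz)
    · exact ⟨0, map_zero _⟩
    · exact ⟨⟨z, IntermediateField.le_normalClosure K0 (IntermediateField.subset_adjoin _ _ hz)⟩,
        rfl⟩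
  let uk : kk := ⟨u, IntermediateField.mem_adjoin_simple_self κ u⟩
  have htop : IntermediateField.adjoin κ {uk} = ⊤ := by
    apply IntermediateField.lift_injective
    rw [IntermediateField.lift_adjoin_simple, IntermediateField.lift_top]
  have hk : ∀ a : kk, ∃ b : kk, algebraMap kk ℂ b = δ (algebraMap kk ℂ a) := by
    rintro ⟨a, ha⟩
    suffices h : δ a ∈ kk from ⟨⟨_, h⟩, rfl⟩
    induction ha using IntermediateField.adjoin_induction with
    | mem x hx => rw [Set.mem_singleton_iff.1 hx, hδu]; exact one_mem _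
    | algebraMap x => rw [show δ (algebraMap κ ℂ x) = 0 from hδκ _ x.2]; exact zero_mem _
    | add x y _ _ hx hy => rw [map_add]; exact add_mem hx hy
    | inv x hx' hx =>
      rw [Derivation.leibniz_inv, smul_eq_mul]
      exact mul_mem (neg_mem (pow_mem (inv_mem hx') 2)) hx
    | mul x y hx' hy' hx hy =>
      rw [Derivation.leibniz, smul_eq_mul, smul_eq_mul]
      exact add_mem (mul_mem hx' hy) (mul_mem hy' hx)
  obtain ⟨D, hD⟩ := exists_der (κ := κ) (E := E) δ hδκ (der_mem (k := kk) δ hk)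
  have huE : algebraMap E ℂ (algebraMap kk E uk) = u := rfl
  have hDu : D (algebraMap kk E uk) = 1 := (algebraMap E ℂ).injective (by
    rw [hD, huE, hδu, map_one])
  have hadj : ∀ z ∈ Algebra.adjoin κ {u}, ∃ y ∈ Algebra.adjoin κ {algebraMap kk E uk},
      algebraMap E ℂ y = z := by
    intro z hz
    have e : (Algebra.adjoin κ {algebraMap kk E uk}).map (IsScalarTower.toAlgHom κ E ℂ) =
        Algebra.adjoin κ {u} := by
      rw [AlgHom.map_adjoin_singleton]; rfl
    rw [← e] at hz
    exact hz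
  have hlift : ∀ p : ℂ[X], (∀ n, p.coeff n ∈ Algebra.adjoin κ {u}) → ∃ p' : E[X],
      p'.map (algebraMap E ℂ) = p ∧ ∀ n, p'.coeff n ∈ Algebra.adjoin κ {algebraMap kk E uk} := by
    intro p hp
    obtain ⟨p', hp'⟩ := exists_lift (E := E) p fun n => (hadj _ (hp n)).imp fun _ h => h.2
    refine ⟨p', hp', fun n => ?_⟩
    obtain ⟨y, hy, hy'⟩ := hadj _ (hp n)
    rw [← hp', coeff_map] at hy'
    exact (algebraMap E ℂ).injective hy' ▸ hy
  obtain ⟨q', hq', hq'c⟩ := hlift q hqc
  choose Θ' hΘ' hΘ'c using fun a b => hlift (Θ a b) (hΘc a b)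
  have hq'm : q'.Monic := monic_of_injective (algebraMap E ℂ).injective (hq'.symm ▸ hq)
  have hfix : ∀ a : kk, θ (algebraMap kk ℂ a) = algebraMap kk ℂ a := by
    rintro ⟨a, ha⟩
    change θ a = a
    induction ha using IntermediateField.adjoin_induction with
    | mem x hx => rw [Set.mem_singleton_iff.1 hx, hθu]
    | algebraMap x => exact hθκ _ x.2
    | add x y _ _ hx hy => rw [map_add, hx, hy]
    | inv x _ hx => rw [map_inv₀, hx]
    | mul x y _ _ hx hy => rw [map_mul, hx, hy]
  let θ' : ℂ ≃ₐ[kk] ℂ := AlgEquiv.ofRingEquiv hfix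
  have key := core hI hE κ kk E A uk htop δ D hD hDu 𝓜 q' Θ' hq'm hq'c hΘ'c hsat
    (fun N hN => by
      rw [hq', show (fun a b => (Θ' a b).map (algebraMap E ℂ)) = Θ from
        funext fun a => funext fun b => hΘ' a b]
      exact hst N hN)
    (fun φ N hN => hact φ.toRingEquiv
      (fun z hz => φ.commutes (algebraMap κ kk ⟨z, hz⟩)) (φ.commutes uk) N hN)
    (θ'.restrictNormal E) N hN
  obtain ⟨s, hs, hsc⟩ := hS N hN
  rw [← hs] at hc
  induction hc using Submodule.span_induction with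
  | mem v hv =>
    choose w hw using fun a => exists_lift (E := E) (v a) fun n => hSE _ (hsc v hv a n)
    have hv' : v = fun a => (w a).map (algebraMap E ℂ) := funext fun a => (hw a).symm
    have hwN : w ∈ UnrA.res E N := by
      rw [mem_res, ← hv', ← hs]; exact Submodule.subset_span hv
    have := mem_res.1 (key w hwN)
    refine mem_of_eq this ?_
    funext a
    rw [← hw a, Polynomial.map_map, Polynomial.map_map]
    congr 1
    ext x
    exact AlgEquiv.restrictNormal_commutes θ' E x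
  | zero =>
    refine mem_of_eq N.zero_mem ?_
    funext a; simp
  | add x y _ _ hx hy =>
    refine mem_of_eq (N.add_mem hx hy) ?_
    funext a; simp
  | smul g x _ hx =>
    refine mem_of_eq (N.smul_mem (g.map θ.toRingHom) hx) ?_
    funext a; simp

end Pool.Agent.MP_aa1ef7_ag.H20
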