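import Pool.Agent.MP_aa1ef7_ag.H20.Spec
import Pool.Agent.MP_aa1ef7_ag.H40.Zar

/-! The theorem for arrangements with algebraically independent coefficients. -/

namespace Pool.Agent.MP_aa1ef7_ag.H20

open MvPolynomial
open Pool.Agent.MP_aa1ef7_ag.H40

namespace VeryA

lemma van_prod {d : ℕ} {C : Set (Fol d)} (h1 : ¬ Van C 1)
    (hp : ∀ Φ Ψ, Van C (Φ * Ψ) → Van C Φ ∨ Van C Ψ) {ι : Type} (s : Finset ι)
    (Φ : ι → MvPolynomial CI ℂ) (h : ∀ i ∈ s, ¬ Van C (Φ i)) : ¬ Van C (∏ i ∈ s, Φ i) := by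
  classical
  induction s using Finset.induction_on with
  | empty => simpa using h1
  | insert a s ha ih =>
    rw [Finset.prod_insert ha]
    intro hv
    rcases hp _ _ hv with h2 | h2
    · exact h a (Finset.mem_insert_self _ _) h2
    · exact ih (fun i hi => h i (Finset.mem_insert_of_mem hi)) h2

lemma zcl_sub {d : ℕ} {A B : Set (Fol d)} (h : A ⊆ zcl B) : zcl A ⊆ zcl B :=
  fun _ hF Z hZ => hF Z ⟨hZ.1, fun _ hG => h hG Z hZ⟩

/-- The finite set of all types. -/
lemma types_finite (d : ℕ) :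
    {x : Σ s : ℕ, Fin s → ℕ | (∀ i, 0 < x.2 i) ∧ ∑ i, x.2 i = d + 1}.Finite := by
  classical
  refine (((Finset.range (d + 2)).sigma fun s =>
    Fintype.piFinset fun _ : Fin s => Finset.range (d + 2)).finite_toSet).subset ?_
  rintro ⟨s, D⟩ ⟨h1, h2⟩
  simp only [Finset.coe_sigma, Set.mem_sigma_iff, Finset.coe_range, Set.mem_Iio, Finset.mem_coe,
    Fintype.mem_piFinset, Finset.mem_range]
  dsimp only at h1 h2
  constructor
  · have : ∑ _i : Fin s, 1 ≤ ∑ i, D i := Finset.sum_le_sum fun i _ => h1 i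
    simp only [Finset.sum_const, Finset.card_univ, Fintype.card_fin, smul_eq_mul, mul_one] at this
    omega
  · intro i
    have : D i ≤ ∑ i, D i := Finset.single_le_sum (fun _ _ => Nat.zero_le _) (Finset.mem_univ i)
    omega

lemma om_inj : Function.Injective (algebraMap (PowerSeries ℂ) Om) := by
  rw [IsScalarTower.algebraMap_eq (PowerSeries ℂ) (FractionRing (PowerSeries ℂ)) Om,
    RingHom.coe_comp]
  exact (algebraMap (FractionRing (PowerSeries ℂ)) Om).injective.comp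
    (IsFractionRing.injective (PowerSeries ℂ) (FractionRing (PowerSeries ℂ)))

end VeryA

open VeryA

theorem concl_of_all (hZar : ZarS) (hGenpt : GenptS) (hArcd : ArcdS) (hLocsol : LocsolS)
    (hSol : SolS) (hBthm : BthmS) (hEnd : EndS) (hParam : ParamS) (hDens : DensS) (hC9 : C9S)
    {d : ℕ} {l : Fin (d + 1) → ℂ × ℂ × ℂ} (A : All l) : Concl l := by
  classical
  rintro F₀ ⟨v, hv, hvw, rfl⟩ C hC hF
  have hd := A.geo.two
  obtain ⟨-, h1, hp, -, -⟩ := (hZar d (Cent d)).2 C hC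
  suffices h : ∃ (s : ℕ) (D : Fin s → ℕ), (∀ i, 0 < D i) ∧ ∑ i, D i = d + 1 ∧
      C ⊆ zcl (LogFam d D) by
    obtain ⟨s, D, hD, hs, hsub⟩ := h
    refine ⟨s, D, hD, hs, hsub.antisymm ?_⟩
    have h01 : (0 : Fin (d + 1)) ≠ Fin.last d := by
      intro h
      have := congrArg Fin.val h
      simp at this
      omega
    obtain ⟨p, hpn⟩ := A.lin.node _ _ h01
    obtain ⟨p', hp', -⟩ := hC9 d l A.geo A.lin A.jac A.mor _ _ p hpn
    have h2 := hDens d l A.geo A.lin A.jac p' hp' (A.mor.nd p' hp'.1) s D hD hs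
    exact hC.2 ⟨zcl_sub h2, (hParam d s D hD hs).1⟩ hsub
  by_contra hcon
  have hex : ∀ x : Σ s : ℕ, Fin s → ℕ, ∃ Φ : MvPolynomial CI ℂ,
      (∀ i, 0 < x.2 i) ∧ ∑ i, x.2 i = d + 1 → Van (LogFam d x.2) Φ ∧ ¬ Van C Φ := by
    intro x
    by_cases hx : (∀ i, 0 < x.2 i) ∧ ∑ i, x.2 i = d + 1
    · obtain ⟨Φ, hΦ⟩ := (hParam d x.1 x.2 hx.1 hx.2).2.2 C fun h =>
        hcon ⟨x.1, x.2, hx.1, hx.2, h⟩
      exact ⟨Φ, fun _ => hΦ⟩
    · exact ⟨0, fun h => absurd h hx⟩
  choose Φ hΦ using hex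
  have hΦ0 := van_prod h1 hp (types_finite d).toFinset Φ fun x hx =>
    (hΦ x ((types_finite d).mem_toFinset.1 hx)).2
  obtain ⟨Ω, _, _, χ, p, hχ, hfc⟩ := hGenpt d C hC
  have hw1 : (dform (ff l)).1.totalDegree ≤ d := (A.jac.degd 1).le
  have hw2 : (dform (ff l)).2.totalDegree ≤ d := by
    simpa [dform] using (A.jac.degd 0).le
  have hhigh : ∀ i : CI, d < i.2 0 + i.2 1 → χ (X i) = 0 := by
    rintro ⟨b, m⟩ hi
    refine (hχ _).2 fun u _ _ => ?_
    rw [eval_X]
    cases b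
    · exact deg_le_iff.1 ((mem_restrictTotalDegree _ _ _).1 u.2.2) m hi
    · exact deg_le_iff.1 ((mem_restrictTotalDegree _ _ _).1 u.2.1) m hi
  obtain ⟨ψ, pt, hψ0, hψ1, hψ2, hψ3⟩ := hArcd d Ω χ p (dform (ff l)) _ (by omega) hfc hhigh hw1 hw2
    (by
      simp only [dform, map_neg]
      exact A.jac.cop.symm.neg_right)
    (fun z h1 h2 => by
      have hz : Crit l z := fun i => by
        fin_cases i
        · simpa [dform] using h2
        · exact h1
      have := A.mor.nd z hz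
      rwa [← jac_ham, dS_tay, dS_tay, ← map_neg] at this)
    (fun Ψ h => by
      have := (hχ Ψ).1 h v hv hF
      rwa [hvw] at this)
    (fun h => hΦ0 ((hχ _).1 h))
  have hmap : ∀ b, MvPolynomial.map PowerSeries.constantCoeff (formOf d (fun i => ψ (X i)) b) =
      formOf d (coordsK (dform (ff l)).1 (dform (ff l)).2) b := by
    intro b
    rw [formOf_map]
    congr 1
    funext i
    simp only [Function.comp_apply, hψ0, eval_X]
    rfl
  obtain ⟨vv, p0, hdef, hloc⟩ := hLocsol d l _ _ pt (deg_formOf _ _ _) (deg_formOf _ _ _)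
    ((hmap true).trans (formOf_coordsK hw1 hw2).1)
    ((hmap false).trans (formOf_coordsK hw1 hw2).2) hψ3
  obtain ⟨s, D, hD, hs, hlog⟩ := hEnd d l A.geo A.lin A.jac _ _ vv (deg_formOf _ _ _)
    (deg_formOf _ _ _) (hBthm d l A _ _ hdef (hSol d l A _ _ p0 hdef hloc))
  have h3 := (hParam d s D hD hs).2.1 _ (hΦ ⟨s, D⟩ ⟨hD, hs⟩).1 Om _ _ hlog
  have h4 : coordsK
      (MvPolynomial.map (algebraMap (PowerSeries ℂ) Om) (formOf d (fun i => ψ (X i)) true))
      (MvPolynomial.map (algebraMap (PowerSeries ℂ) Om) (formOf d (fun i => ψ (X i)) false)) =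
      fun i => algebraMap (PowerSeries ℂ) Om (ψ (X i)) := by
    funext ⟨b, m⟩
    cases b <;> simp only [coordsK, Bool.false_eq_true, if_false, if_true, coeff_map,
      coeff_formOf] <;> split_ifs with h
    · rfl
    · rw [hψ2 _ (hhigh (false, m) (by simpa using h))]
    · rfl
    · rw [hψ2 _ (hhigh (true, m) (by simpa using h))]
  have h5 : (aeval fun i => algebraMap (PowerSeries ℂ) Om (ψ (X i))) =
      (IsScalarTower.toAlgHom ℂ (PowerSeries ℂ) Om).comp ψ := algHom_ext fun i => by simp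
  rw [h4, h5] at h3
  have h6 : ψ (Φ ⟨s, D⟩) = 0 := om_inj (by simpa using h3)
  refine hψ1 ?_
  rw [map_prod]
  exact Finset.prod_eq_zero ((types_finite d).mem_toFinset.2 ⟨hD, hs⟩) h6

theorem very_of (hZar : ZarS) (hGenpt : GenptS) (hArcd : ArcdS) (hLocsol : LocsolS)
    (hSol : SolS) (hBthm : BthmS) (hEnd : EndS) (hParam : ParamS) (hDens : DensS) (hC9 : C9S)
    (hFld : FldS) (hLin : LinS) (hJac : JacS) (hMor : MorS) (hBas : BasS) (hDv : DvS) (hTf : TfS)
    (hFt : FtS) (hCore : CoreS) : VeryS := by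
  intro d l hd hl
  obtain ⟨geo, ⟨F⟩⟩ := hFld d l hd hl
  have lin := hLin d l geo
  have jac := hJac d l geo lin
  have mor := hMor d l geo lin jac F
  have bas := hBas d l geo lin
  have dv := hDv d l geo lin jac bas
  exact concl_of_all hZar hGenpt hArcd hLocsol hSol hBthm hEnd hParam hDens hC9
    ⟨geo, lin, jac, mor, bas, dv, hTf d l geo lin bas dv,
      hCore d l geo lin jac mor (hFt d l geo lin jac mor F)⟩

end Pool.Agent.MP_aa1ef7_ag.H20
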