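import Pool.Agent.MP_aa1ef7_ag.H20.Spec
import Pool.Agent.MP_aa1ef7_ag.H40.Zar

/-! The Zariski topology of the space of forms is Noetherian. -/

namespace Pool.Agent.MP_aa1ef7_ag.H20

open MvPolynomial
open Pool.Agent.MP_aa1ef7_ag.H40

namespace ZarA

theorem exists_pol (Φ : MvPolynomial CI ℂ) (x : CI → ℂ) : ∃ q : Polynomial ℂ,
    (∀ t : ℂ, q.eval t = eval (t • x) Φ) ∧
      ∀ n, q.coeff n = eval x (homogeneousComponent n Φ) := by
  refine ⟨∑ n ∈ Finset.range (Φ.totalDegree + 1),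
    Polynomial.monomial n (eval x (homogeneousComponent n Φ)), fun t => ?_, fun n => ?_⟩
  · conv_rhs => rw [← sum_homogeneousComponent Φ]
    rw [Polynomial.eval_finsetSum, map_sum]
    refine Finset.sum_congr rfl fun n _ => ?_
    rw [Polynomial.eval_monomial, eval_smul_hom (homogeneousComponent_isHomogeneous n Φ), mul_comm]
  · rw [Polynomial.finsetSum_coeff]
    simp only [Polynomial.coeff_monomial, Finset.sum_ite_eq', Finset.mem_range]
    split_ifs with h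
    · rfl
    · rw [homogeneousComponent_eq_zero _ _ (by omega), map_zero]

theorem pol_zero {q : Polynomial ℂ} (h : ∀ t : ℂ, t ≠ 0 → q.eval t = 0) : q = 0 := by
  refine Polynomial.eq_zero_of_infinite_isRoot q ?_
  refine Set.Infinite.mono (s := ({0} : Set ℂ)ᶜ) (fun t ht => h t ht) ?_
  exact (Set.finite_singleton (0 : ℂ)).infinite_compl

variable {d : ℕ}

/-- The common zeros of the homogeneous components of `Φ`. -/
def hz (d : ℕ) (Φ : MvPolynomial CI ℂ) : Set (Fol d) :=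
  {F | ∀ Ψ ∈ Set.range fun n => homogeneousComponent n Φ,
    eval (coords (F.rep : Poly × Poly)) Ψ = 0}

theorem hz_closed (Φ : MvPolynomial CI ℂ) : IsZClosed (hz d Φ) :=
  ⟨_, by rintro _ ⟨n, rfl⟩; exact ⟨n, homogeneousComponent_isHomogeneous n Φ⟩, rfl⟩

theorem mem_hz {Φ : MvPolynomial CI ℂ} {v : Form d} {hv : v ≠ 0} :
    Projectivization.mk ℂ v hv ∈ hz d Φ ↔
      ∀ t : ℂ, t ≠ 0 → eval (t • coords (v : Poly × Poly)) Φ = 0 := by
  obtain ⟨q, h1, h2⟩ := exists_pol Φ (coords (v : Poly × Poly))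
  constructor
  · intro h t _
    have : q = 0 := by
      ext n
      rw [h2, Polynomial.coeff_zero,
        (eval_rep_iff (homogeneousComponent_isHomogeneous n Φ) v hv).1 (h _ ⟨n, rfl⟩)]
    rw [← h1, this, Polynomial.eval_zero]
  · rintro h _ ⟨n, rfl⟩
    have : q = 0 := pol_zero fun t ht => by rw [h1, h t ht]
    rw [eval_rep_iff (homogeneousComponent_isHomogeneous n Φ) v hv, ← h2, this,
      Polynomial.coeff_zero]

theorem van_iff {C : Set (Fol d)} {Φ : MvPolynomial CI ℂ} : Van C Φ ↔ C ⊆ hz d Φ := by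
  constructor
  · intro h F hF
    induction F using Projectivization.ind with
    | h v hv =>
      refine mem_hz.2 fun t ht => ?_
      have hne : t • v ≠ 0 := smul_ne_zero ht hv
      have e : Projectivization.mk ℂ (t • v) hne = Projectivization.mk ℂ v hv :=
        (Projectivization.mk_eq_mk_iff' ℂ _ _ hne hv).2 ⟨t, rfl⟩
      have := h (t • v) hne (e ▸ hF)
      rwa [show ((t • v : Form d) : Poly × Poly) = t • (v : Poly × Poly) from rfl,
        coords_smul] at this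
  · intro h v hv hF
    simpa using mem_hz.1 (h hF) 1 one_ne_zero

theorem hz_mul (Φ Ψ : MvPolynomial CI ℂ) : hz d (Φ * Ψ) ⊆ hz d Φ ∪ hz d Ψ := by
  intro F hF
  induction F using Projectivization.ind with
  | h v hv =>
    obtain ⟨q, h1, -⟩ := exists_pol Φ (coords (v : Poly × Poly))
    obtain ⟨r, h2, -⟩ := exists_pol Ψ (coords (v : Poly × Poly))
    have : q * r = 0 := pol_zero fun t ht => by
      rw [Polynomial.eval_mul, h1, h2, ← map_mul, mem_hz.1 hF t ht]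
    rcases mul_eq_zero.1 this with h | h
    · exact Or.inl (mem_hz.2 fun t _ => by rw [← h1, h, Polynomial.eval_zero])
    · exact Or.inr (mem_hz.2 fun t _ => by rw [← h2, h, Polynomial.eval_zero])

theorem closed_sInter {T : Set (Set (Fol d))} (h : ∀ Z ∈ T, IsZClosed Z) : IsZClosed (⋂₀ T) := by
  choose S hS hZ using h
  refine ⟨{Φ | ∃ Z hZ, Φ ∈ S Z hZ}, ?_, ?_⟩
  · rintro Φ ⟨Z, hZ, hΦ⟩
    exact hS Z hZ Φ hΦ
  · ext F
    constructor
    · rintro hF Φ ⟨Z, hZ', hΦ⟩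
      have := hF Z hZ'
      rw [hZ Z hZ'] at this
      exact this Φ hΦ
    · intro hF Z hZ'
      rw [hZ Z hZ']
      exact fun Φ hΦ => hF Φ ⟨Z, hZ', hΦ⟩

theorem closed_inter {Z W : Set (Fol d)} (hZ : IsZClosed Z) (hW : IsZClosed W) :
    IsZClosed (Z ∩ W) := by
  rw [← Set.sInter_pair]
  refine closed_sInter ?_
  rintro _ (rfl | rfl) <;> assumption

theorem closed_union {Z W : Set (Fol d)} (hZ : IsZClosed Z) (hW : IsZClosed W) :
    IsZClosed (Z ∪ W) := by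
  obtain ⟨S, hS, rfl⟩ := hZ
  obtain ⟨T, hT, rfl⟩ := hW
  refine ⟨{Φ | ∃ a ∈ S, ∃ b ∈ T, Φ = a * b}, ?_, ?_⟩
  · rintro _ ⟨a, ha, b, hb, rfl⟩
    obtain ⟨n, hn⟩ := hS a ha
    obtain ⟨m, hm⟩ := hT b hb
    exact ⟨n + m, hn.mul hm⟩
  · ext F
    constructor
    · rintro (hF | hF) _ ⟨a, ha, b, hb, rfl⟩
      · rw [map_mul, hF a ha, zero_mul]
      · rw [map_mul, hF b hb, mul_zero]
    · intro hF
      by_contra hc
      simp only [Set.mem_union, Set.mem_ofPred_eq, not_or, not_forall] at hc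
      obtain ⟨⟨a, ha, h1⟩, b, hb, h2⟩ := hc
      have := hF _ ⟨a, ha, b, hb, rfl⟩
      rw [map_mul] at this
      exact mul_ne_zero h1 h2 this

theorem closed_empty : IsZClosed (∅ : Set (Fol d)) := by
  refine ⟨{1}, ?_, ?_⟩
  · rintro _ rfl
    exact ⟨0, isHomogeneous_one _ _⟩
  · ext F
    simp

theorem closed_sUnion {T : Set (Set (Fol d))} (hT : T.Finite) (h : ∀ Z ∈ T, IsZClosed Z) :
    IsZClosed (⋃₀ T) := by
  induction T, hT using Set.Finite.induction_on with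
  | empty => simpa using closed_empty
  | insert _ _ ih =>
    rw [Set.sUnion_insert]
    exact closed_union (h _ (Set.mem_insert _ _)) (ih fun Z hZ => h Z (Set.mem_insert_of_mem _ hZ))

theorem irr_sUnion {C : Set (Fol d)} (hC : IsIrred C) {T : Set (Set (Fol d))} (hT : T.Finite)
    (h : ∀ Z ∈ T, IsZClosed Z) (hs : C ⊆ ⋃₀ T) : ∃ Z ∈ T, C ⊆ Z := by
  induction T, hT using Set.Finite.induction_on with
  | empty =>
    obtain ⟨x, hx⟩ := hC.1
    simpa using hs hx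
  | insert _ hT ih =>
    rw [Set.sUnion_insert] at hs
    have h' := fun Z hZ => h Z (Set.mem_insert_of_mem _ hZ)
    rcases hC.2 _ _ (h _ (Set.mem_insert _ _)) (closed_sUnion hT h') hs with h1 | h1
    · exact ⟨_, Set.mem_insert _ _, h1⟩
    · obtain ⟨Z, hZ, h2⟩ := ih h' h1
      exact ⟨Z, Set.mem_insert_of_mem _ hZ, h2⟩

theorem sep {Z : Set (Fol d)} (hZ : IsZClosed Z) {v : Form d} {hv : v ≠ 0}
    (h : Projectivization.mk ℂ v hv ∉ Z) :
    ∃ Φ, Van Z Φ ∧ eval (coords (v : Poly × Poly)) Φ ≠ 0 := by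
  obtain ⟨S, hS, rfl⟩ := hZ
  simp only [Set.mem_ofPred_eq, not_forall] at h
  obtain ⟨Φ, hΦ, hne⟩ := h
  obtain ⟨n, hn⟩ := hS Φ hΦ
  exact ⟨Φ, fun w hw hm => (eval_rep_iff hn w hw).1 (hm Φ hΦ),
    fun h0 => hne ((eval_rep_iff hn v hv).2 h0)⟩

/-- The finitely many relevant coordinates. -/
abbrev JJ (d : ℕ) : Type := Bool × {m // m ∈ mon d}

/-- The ideal of the cone over `Z`. -/
def idl (Z : Set (Fol d)) : Ideal (MvPolynomial (JJ d) ℂ) where
  carrier := {Ψ | ∀ (v : Form d) (hv : v ≠ 0), Projectivization.mk ℂ v hv ∈ Z →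
    eval (fun j : JJ d => coords (v : Poly × Poly) (j.1, j.2.1)) Ψ = 0}
  zero_mem' := fun _ _ _ => map_zero _
  add_mem' := fun ha hb v hv h => by rw [map_add, ha v hv h, hb v hv h, add_zero]
  smul_mem' := fun c a ha v hv h => by rw [smul_eq_mul, map_mul, ha v hv h, mul_zero]

theorem exists_res (Φ : MvPolynomial CI ℂ) : ∃ Ψ : MvPolynomial (JJ d) ℂ, ∀ v : Form d,
    eval (fun j : JJ d => coords (v : Poly × Poly) (j.1, j.2.1)) Ψ =
      eval (coords (v : Poly × Poly)) Φ := by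
  induction Φ using MvPolynomial.induction_on with
  | C a => exact ⟨C a, by simp⟩
  | add p q hp hq =>
    obtain ⟨a, ha⟩ := hp
    obtain ⟨b, hb⟩ := hq
    exact ⟨a + b, fun v => by rw [map_add, map_add, ha, hb]⟩
  | mul_X p i hp =>
    obtain ⟨a, ha⟩ := hp
    by_cases hi : i.2 ∈ mon d
    · exact ⟨a * X (i.1, ⟨i.2, hi⟩), fun v => by rw [map_mul, map_mul, ha, eval_X, eval_X]⟩
    · refine ⟨0, fun v => ?_⟩
      have h0 : coords (v : Poly × Poly) i = 0 := by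
        rw [mem_mon, not_le] at hi
        have h1 := (mem_restrictTotalDegree _ _ _).1 v.2.1
        have h2 := (mem_restrictTotalDegree _ _ _).1 v.2.2
        unfold coords
        split_ifs
        · exact deg_le_iff.1 h1 _ hi
        · exact deg_le_iff.1 h2 _ hi
      rw [map_mul, eval_X, h0, mul_zero, map_zero]

theorem idl_lt {Z W : Set (Fol d)} (hZ : IsZClosed Z) (h : Z ⊂ W) : idl W < idl Z := by
  refine lt_of_le_of_ne (fun Ψ hΨ v hv hm => hΨ v hv (h.1 hm)) fun he => ?_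
  obtain ⟨F, hW, hF⟩ := Set.exists_of_ssubset h
  induction F using Projectivization.ind with
  | h v hv =>
    obtain ⟨Φ, h1, h2⟩ := sep hZ hF
    obtain ⟨Ψ, hΨ⟩ := exists_res (d := d) Φ
    have h3 : Ψ ∈ idl Z := fun w hw hm => by rw [hΨ]; exact h1 w hw hm
    rw [← he] at h3
    exact h2 (by rw [← hΨ]; exact h3 v hv hW)

theorem decomp (Z : Set (Fol d)) (hZ : IsZClosed Z) : ∃ T : Set (Set (Fol d)), T.Finite ∧
    (∀ W ∈ T, IsZClosed W ∧ IsIrred W) ∧ ⋃₀ T = Z := by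
  have wf : WellFounded fun Z W : Set (Fol d) => idl Z > idl W :=
    InvImage.wf idl (wellFounded_gt (α := Ideal (MvPolynomial (JJ d) ℂ)))
  induction Z using wf.induction with
  | _ Z ih =>
    by_cases hI : IsIrred Z
    · exact ⟨{Z}, Set.finite_singleton _, by rintro _ rfl; exact ⟨hZ, hI⟩, Set.sUnion_singleton _⟩
    rcases Z.eq_empty_or_nonempty with rfl | hne
    · exact ⟨∅, Set.finite_empty, by simp, by simp⟩
    have : ∃ Z₁ Z₂, IsZClosed Z₁ ∧ IsZClosed Z₂ ∧ Z ⊆ Z₁ ∪ Z₂ ∧ ¬ Z ⊆ Z₁ ∧ ¬ Z ⊆ Z₂ := by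
      by_contra hc
      refine hI ⟨hne, fun Z₁ Z₂ h1 h2 h3 => ?_⟩
      by_contra hc'
      exact hc ⟨Z₁, Z₂, h1, h2, h3, fun h => hc' (Or.inl h), fun h => hc' (Or.inr h)⟩
    obtain ⟨Z₁, Z₂, h1, h2, h3, h4, h5⟩ := this
    have k : ∀ W, IsZClosed W → ¬ Z ⊆ W → ∃ T : Set (Set (Fol d)), T.Finite ∧
        (∀ W ∈ T, IsZClosed W ∧ IsIrred W) ∧ ⋃₀ T = Z ∩ W := fun W hW hn =>
      ih _ (idl_lt (closed_inter hZ hW)
        ⟨Set.inter_subset_left, fun h => hn (h.trans Set.inter_subset_right)⟩) (closed_inter hZ hW)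
    obtain ⟨T₁, a1, b1, c1⟩ := k Z₁ h1 h4
    obtain ⟨T₂, a2, b2, c2⟩ := k Z₂ h2 h5
    refine ⟨T₁ ∪ T₂, a1.union a2, ?_, ?_⟩
    · rintro W (h | h)
      · exact b1 W h
      · exact b2 W h
    · rw [Set.sUnion_union, c1, c2, ← Set.inter_union_distrib_left, Set.inter_eq_left.2 h3]

end ZarA

open ZarA in
theorem rowZar : ZarS := by
  intro d A
  have hcl : IsZClosed (zcl A) := closed_sInter fun Z hZ => hZ.1
  have hA : A ⊆ zcl A := Set.subset_sInter fun Z hZ => hZ.2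
  obtain ⟨T, hT, hT', hU⟩ := decomp _ hcl
  have heq : ∀ C, IsComponent (zcl A) C → ∀ Z ∈ T, C ⊆ Z → C = Z := fun C hC Z hZ h =>
    Set.Subset.antisymm h (hC.2 ⟨hU ▸ Set.subset_sUnion_of_mem hZ, (hT' Z hZ).2⟩ h)
  have hmem : ∀ C, IsComponent (zcl A) C → C ∈ T := fun C hC => by
    obtain ⟨Z, hZ, h⟩ := irr_sUnion hC.1.2 hT (fun Z hZ => (hT' Z hZ).1) (hU ▸ hC.1.1)
    rwa [heq C hC Z hZ h]
  refine ⟨hT.subset hmem, fun C hC => ⟨(hT' C (hmem C hC)).1, fun h => ?_, fun Φ Ψ h => ?_, ?_,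
    fun Ψ h => ?_⟩⟩
  · obtain ⟨F, hF⟩ := hC.1.2.1
    induction F using Projectivization.ind with
    | h v hv => simpa using h v hv hF
  · simp only [van_iff] at h ⊢
    exact hC.1.2.2 _ _ (hz_closed Φ) (hz_closed Ψ) (h.trans (hz_mul Φ Ψ))
  · have hf : {Z | Z ∈ T ∧ ¬ C ⊆ Z}.Finite := hT.subset fun Z hZ => hZ.1
    have hc : ∀ Z ∈ {Z | Z ∈ T ∧ ¬ C ⊆ Z}, IsZClosed Z := fun Z hZ => (hT' Z hZ.1).1
    have hn : ¬ C ⊆ ⋃₀ {Z | Z ∈ T ∧ ¬ C ⊆ Z} := fun h => by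
      obtain ⟨Z, hZ, h'⟩ := irr_sUnion hC.1.2 hf hc h
      exact hZ.2 h'
    obtain ⟨F, hF, hF'⟩ := Set.not_subset.1 hn
    induction F using Projectivization.ind with
    | h w hw =>
      obtain ⟨Φ, h1, h2⟩ := sep (closed_sUnion hf hc) hF'
      refine ⟨Φ, fun h => h2 (h w hw hF), fun v hv hvA hne => ?_⟩
      obtain ⟨Z, hZ, hvZ⟩ : Projectivization.mk ℂ v hv ∈ ⋃₀ T := hU ▸ hA hvA
      by_cases hCZ : C ⊆ Z
      · rwa [heq C hC Z hZ hCZ]
      · exact absurd (h1 v hv ⟨Z, ⟨hZ, hCZ⟩, hvZ⟩) hne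
  · rw [van_iff] at h ⊢
    exact hC.1.1.trans (Set.sInter_subset_of_mem ⟨hz_closed Ψ, h⟩)

end Pool.Agent.MP_aa1ef7_ag.H20
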