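import Pool.Agent.MP_aa1ef7_ag.G.Obs
import Pool.Agent.MP_aa1ef7_ag.G.Rec
import Pool.Agent.MP_aa1ef7_ag.G.Iif
import Pool.Agent.MP_aa1ef7_ag.G.Poinc
import Pool.Agent.MP_aa1ef7_ag.G.Syl0
import Pool.Agent.MP_aa1ef7_ag.G.Copr
import Pool.Agent.MP_aa1ef7_ag.G.Gens
import Pool.Agent.MP_aa1ef7_ag.G.Lin
import Pool.Agent.MP_aa1ef7_ag.G.Jac
import Pool.Agent.MP_aa1ef7_ag.G.Mor
import Pool.Agent.MP_aa1ef7_ag.G.Fld
import Pool.Agent.MP_aa1ef7_ag.G.Bas
import Pool.Agent.MP_aa1ef7_ag.G.Dv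
import Pool.Agent.MP_aa1ef7_ag.G.One
import Pool.Agent.MP_aa1ef7_ag.G.Step
import Pool.Agent.MP_aa1ef7_ag.G.Deg
import Pool.Agent.MP_aa1ef7_ag.G.Tf
import Pool.Agent.MP_aa1ef7_ag.G.Soc
import Pool.Agent.MP_aa1ef7_ag.G.Lg
import Pool.Agent.MP_aa1ef7_ag.G.Emb
import Pool.Agent.MP_aa1ef7_ag.G.Reg
import Pool.Agent.MP_aa1ef7_ag.H44.Grad
import Pool.Agent.MP_aa1ef7_ag.G.Loc
import Pool.Agent.MP_aa1ef7_ag.G.Nf
import Pool.Agent.MP_aa1ef7_ag.G.Per
import Pool.Agent.MP_aa1ef7_ag.G.C8a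
import Pool.Agent.MP_aa1ef7_ag.G.C8
import Pool.Agent.MP_aa1ef7_ag.G.C9
import Pool.Agent.MP_aa1ef7_ag.G.Gm
import Pool.Agent.MP_aa1ef7_ag.G.Eqv
import Pool.Agent.MP_aa1ef7_ag.G.Exp
import Pool.Agent.MP_aa1ef7_ag.G.Pv
import Pool.Agent.MP_aa1ef7_ag.G.Inert
import Pool.Agent.MP_aa1ef7_ag.G.Eta1
import Pool.Agent.MP_aa1ef7_ag.G.Eta2
import Pool.Agent.MP_aa1ef7_ag.G.Unr
import Pool.Agent.MP_aa1ef7_ag.G.Gen
import Pool.Agent.MP_aa1ef7_ag.G.Ft
import Pool.Agent.MP_aa1ef7_ag.G.Sol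
import Pool.Agent.MP_aa1ef7_ag.G.Ham
import Pool.Agent.MP_aa1ef7_ag.G.Chart
import Pool.Agent.MP_aa1ef7_ag.G.Zar
import Pool.Agent.MP_aa1ef7_ag.G.Tayl
import Pool.Agent.MP_aa1ef7_ag.G.Genpt
import Pool.Agent.MP_aa1ef7_ag.G.Arc
import Pool.Agent.MP_aa1ef7_ag.G.Integ
import Pool.Agent.MP_aa1ef7_ag.G.Arcd
import Pool.Agent.MP_aa1ef7_ag.G.Locsol
import Pool.Agent.MP_aa1ef7_ag.G.Res
import Pool.Agent.MP_aa1ef7_ag.G.End
import Pool.Agent.MP_aa1ef7_ag.G.Param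
import Pool.Agent.MP_aa1ef7_ag.G.Morse
import Pool.Agent.MP_aa1ef7_ag.G.Dens
import Pool.Agent.MP_aa1ef7_ag.G.Open
import Pool.Agent.MP_aa1ef7_ag.G.Very

/-! Assembly of the proof for generic arrangements. -/

namespace Pool.Agent.MP_aa1ef7_ag.H20

theorem extS : ExtS := rowObs.1
theorem obsS : ObsS := rowObs.2 extS
theorem rec0S : Rec0S := (rowRec.1 obsS).1
theorem recS : RecS := (rowRec.1 obsS).2
theorem gdivS : GdivS := rowRec.2
theorem iifS : IifS := rowIif extS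
theorem poincS : PoincS := rowPoinc.1
theorem wronS : WronS := rowPoinc.2 poincS
theorem sylaS : SylaS := rowSyl0.2 rowSyl0.1
theorem sylgS : SylgS := rowCopr.2 rowSyl0.1 rowCopr.1
theorem jacS : JacS := rowJac rowSyl0.1 rowCopr.1
theorem morS : MorS := rowMor rowGens
theorem basS : BasS := rowBas poincS
theorem dvS : DvS := rowDv poincS
theorem tfS : TfS := rowTf poincS (rowStep poincS rowOne) (rowDeg poincS rowOne)
theorem socS : SocS := rowSoc poincS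
theorem lgS : LgS := rowLg.1
theorem nablaS : NablaS := rowLg.2 lgS
theorem locaS : LocaS := rowLoc.1 gradB
theorem locbS : LocbS := rowLoc.2 gradB
theorem nfS : NfS := rowNf locaS locbS
theorem perS : PerS := rowPer rowReg.1 rowReg.2 locaS locbS
theorem c8S : C8S := rowC8 (rowC8a poincS)
theorem c9S : C9S := rowC9 perS nablaS rowGens
theorem gmS : GmS := rowGm lgS sylgS rowGens
theorem deruS : DeruS := rowEqv.2
theorem puiS : PuiS := rowExp.2 rowExp.1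
theorem etaleS : EtaleS := rowEta2.2 deruS (rowEta1 deruS puiS) (rowEta2.1 deruS puiS)
theorem unrS : UnrS := rowUnr (rowInert deruS rowPv) etaleS
theorem ftS : FtS := rowFt.1 perS rowGens gmS rowEqv.1 unrS (rowGen.1 deruS) rowGen.2
theorem coreS : CoreS := rowFt.2 lgS perS nablaS c8S c9S
theorem solS : SolS := rowSol obsS rec0S socS (rowEmb lgS) rowReg.1
theorem bthmS : BthmS := rowHam.2 wronS (rowHam.1 poincS recS gdivS) (rowChart recS gdivS iifS)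
theorem genptS : GenptS := rowGenpt rowZar (rowTayl.2 rowTayl.1)
theorem arcdS : ArcdS := rowArcd (rowInteg.1 sylaS) rowArc.2 nfS (rowArc.1 rowExp.1)
theorem locsolS : LocsolS := rowLocsol rowInteg.2 extS rowReg.1
theorem endS : EndS := rowEnd rowInteg.2 sylaS (rowRes.2 rowRes.1)
theorem densS : DensS := rowDens.2 sylaS (rowMorse.2 rowMorse.1) rowDens.1

theorem veryS : VeryS :=
  very_of rowZar genptS arcdS locsolS solS bthmS endS rowParam densS c9S rowFld rowLin jacS morS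
    basS dvS tfS ftS coreS

theorem openS : OpenS := rowOpen rowZar rowLin jacS veryS

end Pool.Agent.MP_aa1ef7_ag.H20
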