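import Pool.Agent.MP_aa1ef7_ag.H20.Spec

/-! Extension of first integrals and the obstruction lemma. -/

namespace Pool.Agent.MP_aa1ef7_ag.H20

namespace ObsA

open PowerSeries

variable {S : Type} [CommRing S] [Algebra ℂ S]

theorem ins_add {T : Subalgebra ℂ S} {G H : PowerSeries S} (hG : InS (T : Set S) G)
    (hH : InS (T : Set S) H) : InS (T : Set S) (G + H) := fun k => by
  rw [map_add]; exact T.add_mem (hG k) (hH k)

theorem ins_sub {T : Subalgebra ℂ S} {G H : PowerSeries S} (hG : InS (T : Set S) G)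
    (hH : InS (T : Set S) H) : InS (T : Set S) (G - H) := fun k => by
  rw [map_sub]; exact T.sub_mem (hG k) (hH k)

theorem ins_mul {T : Subalgebra ℂ S} {G H : PowerSeries S} (hG : InS (T : Set S) G)
    (hH : InS (T : Set S) H) : InS (T : Set S) (G * H) := fun k => by
  rw [PowerSeries.coeff_mul]
  exact T.sum_mem fun x _ => T.mul_mem (hG _) (hH _)

theorem ins_C {T : Subalgebra ℂ S} {a : S} (ha : a ∈ T) :
    InS (T : Set S) (PowerSeries.C a) := fun k => by
  rw [PowerSeries.coeff_C]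
  split_ifs
  · exact ha
  · exact T.zero_mem

theorem ins_pow {T : Subalgebra ℂ S} {G : PowerSeries S} (hG : InS (T : Set S) G) (n : ℕ) :
    InS (T : Set S) (G ^ n) := by
  induction n with
  | zero =>
    rw [pow_zero, ← map_one (PowerSeries.C (R := S))]
    exact ins_C T.one_mem
  | succ n ih => rw [pow_succ]; exact ins_mul ih hG

theorem cd_pow (δ : Derivation ℂ S S) (G : PowerSeries S) (n : ℕ) :
    cd δ (G ^ (n + 1)) = ((n : PowerSeries S) + 1) * G ^ n * cd δ G := by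
  induction n with
  | zero => simp
  | succ n ih =>
    rw [pow_succ, cd_mul, ih]
    push_cast
    ring

/-- Truncated Taylor sum. -/
noncomputable def EN (ψ : ℕ → S) (ε : PowerSeries S) (N : ℕ) : PowerSeries S :=
  ∑ n ∈ Finset.range (N + 1), PowerSeries.C (((n.factorial : ℂ)⁻¹) • ψ n) * ε ^ n

/-- The Taylor sum. -/
noncomputable def EE (ψ : ℕ → S) (ε : PowerSeries S) : PowerSeries S :=
  PowerSeries.mk fun k => PowerSeries.coeff k (EN ψ ε k)

theorem EN_succ (ψ : ℕ → S) (ε : PowerSeries S) (N : ℕ) :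
    EN ψ ε (N + 1) = EN ψ ε N +
      PowerSeries.C ((((N + 1).factorial : ℂ)⁻¹) • ψ (N + 1)) * ε ^ (N + 1) := by
  rw [EN, Finset.sum_range_succ]; rfl

theorem EN_zero (ψ : ℕ → S) (ε : PowerSeries S) : EN ψ ε 0 = PowerSeries.C (ψ 0) := by
  simp [EN]

theorem coeff_EE (ψ : ℕ → S) {ε : PowerSeries S} (hε : (X : PowerSeries S) ∣ ε) {k N : ℕ}
    (hk : k ≤ N) : PowerSeries.coeff k (EE ψ ε) = PowerSeries.coeff k (EN ψ ε N) := by
  induction N, hk using Nat.le_induction with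
  | base => exact PowerSeries.coeff_mk _ _
  | succ N hk ih =>
    have h : (X : PowerSeries S) ^ (N + 1) ∣
        PowerSeries.C ((((N + 1).factorial : ℂ)⁻¹) • ψ (N + 1)) * ε ^ (N + 1) :=
      Dvd.dvd.mul_left (pow_dvd_pow_of_dvd hε _) _
    rw [EN_succ, map_add, ← ih, PowerSeries.X_pow_dvd_iff.1 h k (by omega), add_zero]

theorem ins_EN {T : Subalgebra ℂ S} {ψ : ℕ → S} (hψ : ∀ n, ψ n ∈ T) {ε : PowerSeries S}
    (hε : InS (T : Set S) ε) (N : ℕ) : InS (T : Set S) (EN ψ ε N) := by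
  induction N with
  | zero => rw [EN_zero]; exact ins_C (hψ 0)
  | succ N ih =>
    rw [EN_succ]
    exact ins_add ih (ins_mul (ins_C (T.smul_mem (hψ _) _)) (ins_pow hε _))

theorem cd_EN (δ : Derivation ℂ S S) (ψ : ℕ → S) (f : S) (ε : PowerSeries S)
    (hψ : ∀ n, δ (ψ n) = ψ (n + 1) * δ f) (N : ℕ) :
    cd δ (EN ψ ε N) = EN (fun n => ψ (n + 1)) ε N * (PowerSeries.C (δ f) + cd δ ε) -
      PowerSeries.C (((N.factorial : ℂ)⁻¹) • ψ (N + 1)) * ε ^ N * cd δ ε := by
  induction N with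
  | zero =>
    rw [EN_zero, EN_zero, cd_C, hψ, map_mul]
    simp only [Nat.factorial_zero, Nat.cast_one, inv_one, one_smul, pow_zero, mul_one]
    ring
  | succ N ih =>
    have h1 : PowerSeries.C (((N.factorial : ℂ)⁻¹) • ψ (N + 1)) =
        PowerSeries.C ((((N + 1).factorial : ℂ)⁻¹) • ψ (N + 1)) * ((N : PowerSeries S) + 1) := by
      have h2 : ((N : PowerSeries S) + 1) = PowerSeries.C ((N : S) + 1) := by simp
      have h3 : ((N : S) + 1) = algebraMap ℂ S ((N : ℂ) + 1) := by simp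
      have h4 : (N.factorial : ℂ) ≠ 0 := Nat.cast_ne_zero.2 (Nat.factorial_ne_zero N)
      have h5 : (N : ℂ) + 1 ≠ 0 := Nat.cast_add_one_ne_zero N
      have h6 : (N.factorial : ℂ)⁻¹ = ((N : ℂ) + 1) * (((N + 1).factorial : ℂ))⁻¹ := by
        rw [Nat.factorial_succ]
        push_cast
        field_simp
      rw [h2, ← map_mul, h3, mul_comm, ← Algebra.smul_def, smul_smul, ← h6]
    rw [EN_succ, EN_succ, cd_add, ih, cd_mul, cd_pow, cd_C, Derivation.map_smul, hψ,
      ← smul_mul_assoc, map_mul, h1]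
    ring

theorem cd_EE (δ : Derivation ℂ S S) (ψ : ℕ → S) (H : PowerSeries S)
    (hψ : ∀ n, δ (ψ n) = ψ (n + 1) * δ (PowerSeries.constantCoeff H)) :
    cd δ (EE ψ (H - PowerSeries.C (PowerSeries.constantCoeff H))) =
      EE (fun n => ψ (n + 1)) (H - PowerSeries.C (PowerSeries.constantCoeff H)) * cd δ H := by
  obtain ⟨ε, hε⟩ : ∃ ε, ε = H - PowerSeries.C (PowerSeries.constantCoeff H) := ⟨_, rfl⟩
  rw [← hε]
  have hX : (X : PowerSeries S) ∣ ε := by
    rw [PowerSeries.X_dvd_iff, hε]; simp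
  have hX' : (X : PowerSeries S) ∣ cd δ ε := by
    rw [PowerSeries.X_dvd_iff, ← PowerSeries.coeff_zero_eq_constantCoeff_apply, coeff_cd,
      PowerSeries.coeff_zero_eq_constantCoeff_apply, PowerSeries.X_dvd_iff.1 hX, map_zero]
  have hH : PowerSeries.C (δ (PowerSeries.constantCoeff H)) + cd δ ε = cd δ H := by
    rw [hε, cd_sub, cd_C]; ring
  ext k
  have h : (X : PowerSeries S) ^ (k + 1) ∣
      PowerSeries.C (((k.factorial : ℂ)⁻¹) • ψ (k + 1)) * ε ^ k * cd δ ε := by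
    rw [pow_succ, mul_assoc]
    exact Dvd.dvd.mul_left (mul_dvd_mul (pow_dvd_pow_of_dvd hX _) hX') _
  rw [coeff_cd, coeff_EE ψ hX le_rfl, ← coeff_cd, cd_EN δ ψ _ ε hψ, hH, map_sub,
    PowerSeries.X_pow_dvd_iff.1 h k (by omega), sub_zero, PowerSeries.coeff_mul,
    PowerSeries.coeff_mul]
  refine Finset.sum_congr rfl fun x hx => ?_
  have hx' := Finset.HasAntidiagonal.mem_antidiagonal.1 hx
  rw [coeff_EE _ hX (show x.1 ≤ k by omega)]

theorem ext : ExtS := by
  intro S _ _ ι Δ T K H hK hH hcl ψ hψ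
  choose nx hnK hn using hcl
  let sq : ℕ → K := fun n => Nat.rec ⟨ψ, hψ⟩ (fun _ a => ⟨nx a.1 a.2, hnK a.1 a.2⟩) n
  have hs : ∀ i n, Δ i (sq n).1 = (sq (n + 1)).1 * Δ i (PowerSeries.constantCoeff H) :=
    fun i n => hn (sq n).1 (sq n).2 i
  have h0 : PowerSeries.constantCoeff H ∈ T := by
    rw [← PowerSeries.coeff_zero_eq_constantCoeff_apply]; exact hH 0
  refine ⟨EE (fun n => (sq n).1) (H - PowerSeries.C (PowerSeries.constantCoeff H)),
    EE (fun n => (sq (n + 1)).1) (H - PowerSeries.C (PowerSeries.constantCoeff H)), fun k => ?_,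
    ?_, fun i => cd_EE (Δ i) (fun n => (sq n).1) H (hs i)⟩
  · rw [EE, PowerSeries.coeff_mk]
    exact ins_EN (fun n => hK (sq n).2) (ins_sub hH (ins_C h0)) k k
  · rw [← PowerSeries.coeff_zero_eq_constantCoeff_apply, EE, PowerSeries.coeff_mk, EN_zero,
      PowerSeries.coeff_zero_C]
    rfl

theorem coeff_zero_vf {D : Fin 2 → Derivation ℂ S S} {f : S} {P Q : PowerSeries S}
    (hA : Amb D f P Q) (h : PowerSeries S) :
    PowerSeries.coeff 0 (vf D P Q h) = br D f (PowerSeries.coeff 0 h) := by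
  rw [vf, map_add, PowerSeries.coeff_zero_eq_constantCoeff_apply,
    PowerSeries.coeff_zero_eq_constantCoeff_apply, map_mul, map_mul, hA.P0, hA.Q0,
    ← PowerSeries.coeff_zero_eq_constantCoeff_apply,
    ← PowerSeries.coeff_zero_eq_constantCoeff_apply, coeff_cd, coeff_cd, br]
  ring

theorem closed {D : Fin 2 → Derivation ℂ S S} {f : S} {P Q : PowerSeries S}
    {T : Subalgebra ℂ S} (hA : Amb D f P Q) (hT : Sub D f T) (ψ : S) (hψ : ψ ∈ T)
    (hb : br D f ψ = 0) : ∃ ψ', (ψ' ∈ T ∧ br D f ψ' = 0) ∧ ∀ i, D i ψ = ψ' * D i f := by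
  obtain ⟨c, hc, h1, h0⟩ := hT.div (-D 1 ψ) (T.neg_mem (hT.der 1 ψ hψ)) (D 0 ψ) (hT.der 0 ψ hψ)
    (by rw [← hb, br]; ring)
  have e0 : D 0 ψ = -c * D 0 f := by rw [h0]; ring
  have e1 : D 1 ψ = -c * D 1 f := by rw [neg_mul, ← h1, neg_neg]
  refine ⟨-c, ⟨T.neg_mem hc, ?_⟩, fun i => ?_⟩
  · have h := hA.comm ψ
    rw [e0, e1, Derivation.leibniz, Derivation.leibniz, hA.comm f] at h
    simp only [smul_eq_mul] at h
    rw [br]
    linear_combination h
  · fin_cases i
    · exact e0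
    · exact e1

theorem obs (hE : ExtS) : ObsS := by
  intro S _ _ D f P Q T hA hT H hH hf j
  induction j with
  | zero => exact fun _ h hh _ => ⟨_, hh 0, (coeff_zero_vf hA h).symm⟩
  | succ j ih =>
    intro hv h hh hz
    have hb : br D f (PowerSeries.coeff 0 h) = 0 := by
      rw [← coeff_zero_vf hA h]; exact hz 0 (Nat.succ_pos j)
    obtain ⟨E, E', hET, hE0, hEd⟩ := hE S (Fin 2) D T {ψ | ψ ∈ T ∧ br D f ψ = 0} H
      (fun ψ hψ => hψ.1) hH (fun ψ hψ => by rw [hf]; exact closed hA hT ψ hψ.1 hψ.2)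
      (PowerSeries.coeff 0 h) ⟨hh 0, hb⟩
    have hvE : vf D P Q E = E' * vf D P Q H := by
      rw [vf, vf, hEd, hEd]; ring
    have hEz : ∀ i ≤ j + 1, PowerSeries.coeff i (vf D P Q E) = 0 := by
      intro i hi
      rw [hvE, PowerSeries.coeff_mul]
      refine Finset.sum_eq_zero fun x hx => ?_
      have hx' := Finset.HasAntidiagonal.mem_antidiagonal.1 hx
      rw [hv x.2 (by omega), mul_zero]
    have hd : (X : PowerSeries S) ∣ h - E := by
      rw [PowerSeries.X_dvd_iff, map_sub, hE0, PowerSeries.coeff_zero_eq_constantCoeff_apply,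
        sub_self]
    obtain ⟨g, hg⟩ := hd
    have hgT : InS (T : Set S) g := fun k => by
      rw [← PowerSeries.coeff_succ_X_mul, ← hg]
      exact ins_sub hh hET _
    have hvh : vf D P Q h = vf D P Q E + X * vf D P Q g := by
      have e : h = E + X * g := by rw [← hg]; ring
      rw [e]
      simp only [vf, cd_add, cd_mul, cd_X]
      ring
    have hc : ∀ i ≤ j, PowerSeries.coeff (i + 1) (vf D P Q h) =
        PowerSeries.coeff i (vf D P Q g) := by
      intro i hi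
      rw [hvh, map_add, hEz (i + 1) (by omega), zero_add, PowerSeries.coeff_succ_X_mul]
    obtain ⟨A, hAT, hAe⟩ := ih (fun i hi => hv i (by omega)) g hgT fun i hi => by
      rw [← hc i hi.le]; exact hz (i + 1) (by omega)
    exact ⟨A, hAT, by rw [hc j le_rfl, hAe]⟩

end ObsA

theorem rowObs : ExtS ∧ OfObs := ⟨ObsA.ext, ObsA.obs⟩

end Pool.Agent.MP_aa1ef7_ag.H20
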