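import Pool.Agent.MP_aa1ef7_ag.H20.Spec
import Pool.Agent.MP_aa1ef7_ag.H40.Zar

/-! Parametrisation of the logarithmic family. -/

namespace Pool.Agent.MP_aa1ef7_ag.H20

open MvPolynomial
open Pool.Agent.MP_aa1ef7_ag.H40

namespace ParamA

/-- Parameters: residues and coefficients. -/
abbrev V (s : ℕ) : Type := Fin s ⊕ (Fin s × (Fin 2 →₀ ℕ))

variable {s : ℕ} (D : Fin s → ℕ) {K K' : Type} [CommRing K] [CommRing K']

/-- The curves with given coefficients. -/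
noncomputable def fx (x : V s → K) (i : Fin s) : Pl K :=
  ∑ m ∈ mon (D i), monomial m (x (Sum.inr (i, m)))

/-- First component. -/
noncomputable def LP (x : V s → K) : Pl K :=
  ∑ i, (C (x (Sum.inl i)) * ∏ j ∈ Finset.univ.erase i, fx D x j) * pderiv 1 (fx D x i)

/-- Second component. -/
noncomputable def LQ (x : V s → K) : Pl K :=
  ∑ i, (C (x (Sum.inl i)) * ∏ j ∈ Finset.univ.erase i, fx D x j) * -pderiv 0 (fx D x i)

theorem coeff_fx (x : V s → K) (i : Fin s) (m : Fin 2 →₀ ℕ) :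
    coeff m (fx D x i) = if m 0 + m 1 ≤ D i then x (Sum.inr (i, m)) else 0 := by
  classical
  simp [fx, coeff_sum, coeff_monomial, mem_mon]

theorem deg_fx (x : V s → K) (i : Fin s) : (fx D x i).totalDegree ≤ D i :=
  deg_le_iff.2 fun m hm => by rw [coeff_fx, if_neg (by omega)]

theorem map_fx (j : K →+* K') (x : V s → K) (i : Fin s) :
    MvPolynomial.map j (fx D x i) = fx D (j ∘ x) i := by
  simp [fx]

theorem map_LP (j : K →+* K') (x : V s → K) : MvPolynomial.map j (LP D x) = LP D (j ∘ x) := by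
  simp only [LP, map_sum, map_mul, map_prod, map_C, ← pderiv_map, map_fx, Function.comp_apply]

theorem map_LQ (j : K →+* K') (x : V s → K) : MvPolynomial.map j (LQ D x) = LQ D (j ∘ x) := by
  simp only [LQ, map_sum, map_mul, map_prod, map_neg, map_C, ← pderiv_map, map_fx,
    Function.comp_apply]

theorem isLog_iff (P Q : Pl K) : IsLog D P Q ↔ ∃ x, P = LP D x ∧ Q = LQ D x := by
  constructor
  · rintro ⟨f, lam, hf, rfl, rfl⟩
    have e : ∀ i, fx D (Sum.elim lam fun q => coeff q.2 (f q.1)) i = f i := by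
      intro i
      ext m
      rw [coeff_fx]
      split_ifs with h
      · rfl
      · exact (deg_le_iff.1 (hf i) m (by omega)).symm
    exact ⟨Sum.elim lam fun q => coeff q.2 (f q.1), by simp only [LP, e, Sum.elim_inl],
      by simp only [LQ, e, Sum.elim_inl]⟩
  · rintro ⟨x, rfl, rfl⟩
    exact ⟨fx D x, fun i => x (Sum.inl i), deg_fx D x, rfl, rfl⟩

/-- Pull-back to the parameter space. -/
noncomputable def Th : MvPolynomial CI ℂ →ₐ[ℂ] MvPolynomial (V s) ℂ :=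
  aeval (coordsK (LP D X) (LQ D X))

theorem aeval_Th [Algebra ℂ K] (x : V s → K) (Φ : MvPolynomial CI ℂ) :
    aeval x (Th D Φ) = aeval (coordsK (LP D x) (LQ D x)) Φ := by
  have e : ((aeval x : MvPolynomial (V s) ℂ →ₐ[ℂ] K).toRingHom : _ → K) ∘ X = x := by
    funext v; simp
  have : (aeval x : MvPolynomial (V s) ℂ →ₐ[ℂ] K).comp (Th D) =
      aeval (coordsK (LP D x) (LQ D x)) := by
    refine MvPolynomial.algHom_ext fun c => ?_
    rw [AlgHom.comp_apply, Th, aeval_X, aeval_X]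
    conv_rhs => rw [← e, ← map_LP, ← map_LQ]
    rcases c with ⟨_ | _, m⟩ <;> simp [coordsK, coeff_map]
  exact congrArg (fun φ => φ Φ) this

theorem eval_Th (x : V s → ℂ) (Φ : MvPolynomial CI ℂ) :
    eval x (Th D Φ) = eval (coords (LP D x, LQ D x)) Φ := aeval_Th D x Φ

variable {D}

theorem deg_term {d : ℕ} (h0 : ∀ i, 0 < D i) (hs : ∑ i, D i = d + 1) (f : Fin s → Pl K)
    (hf : ∀ i, (f i).totalDegree ≤ D i) (c : K) (i : Fin s) (k : Fin 2) :
    ((C c * ∏ j ∈ Finset.univ.erase i, f j) * pderiv k (f i)).totalDegree ≤ d := by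
  have h1 : (∏ j ∈ Finset.univ.erase i, f j).totalDegree ≤ ∑ j ∈ Finset.univ.erase i, D j :=
    (totalDegree_finset_prod _ _).trans (Finset.sum_le_sum fun j _ => hf j)
  have h2 : (pderiv k (f i)).totalDegree ≤ D i - 1 :=
    deg_pderiv_le ((hf i).trans (by have := h0 i; omega)) k
  have h3 := Finset.add_sum_erase Finset.univ D (Finset.mem_univ i)
  have h4 := totalDegree_mul (C c * ∏ j ∈ Finset.univ.erase i, f j) (pderiv k (f i))
  have h5 := totalDegree_mul (C c) (∏ j ∈ Finset.univ.erase i, f j)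
  rw [totalDegree_C] at h5
  have := h0 i
  omega

theorem mem_form {d : ℕ} (h0 : ∀ i, 0 < D i) (hs : ∑ i, D i = d + 1) (x : V s → ℂ) :
    (LP D x, LQ D x) ∈ Form d := by
  constructor
  · refine (mem_restrictTotalDegree _ _ _).2 ?_
    exact totalDegree_finsetSum_le fun i _ => deg_term h0 hs _ (deg_fx D x) _ i 1
  · refine (mem_restrictTotalDegree _ _ _).2 ?_
    refine totalDegree_finsetSum_le fun i _ => ?_
    rw [mul_neg, totalDegree_neg]
    exact deg_term h0 hs _ (deg_fx D x) _ i 0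

theorem sum_dform (f : Fin s → Poly) (lam : Fin s → ℂ) :
    (∑ i, (C (lam i) * ∏ j ∈ Finset.univ.erase i, f j) • dform (f i)) =
      (∑ i, (C (lam i) * ∏ j ∈ Finset.univ.erase i, f j) * pderiv 1 (f i),
        ∑ i, (C (lam i) * ∏ j ∈ Finset.univ.erase i, f j) * -pderiv 0 (f i)) := by
  apply Prod.ext
  · simp [Prod.fst_sum, dform]
  · simp [Prod.snd_sum, dform]

theorem mk_mem {d : ℕ} (x : V s → ℂ) (v : Form d) (hv : v ≠ 0)
    (h : (v : Poly × Poly) = (LP D x, LQ D x)) : Projectivization.mk ℂ v hv ∈ LogFam d D :=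
  ⟨fx D x, fun i => x (Sum.inl i), deg_fx D x, v, hv, by rw [sum_dform, h]; rfl, rfl⟩

theorem of_mem {d : ℕ} {F : Fol d} (h : F ∈ LogFam d D) : ∃ (x : V s → ℂ) (v : Form d)
    (hv : v ≠ 0), (v : Poly × Poly) = (LP D x, LQ D x) ∧ F = Projectivization.mk ℂ v hv := by
  obtain ⟨f, lam, hf, v, hv, h1, h2⟩ := h
  obtain ⟨x, hP, hQ⟩ := (isLog_iff D _ _).1 ⟨f, lam, hf, rfl, rfl⟩
  exact ⟨x, v, hv, by rw [h1, sum_dform, hP, hQ], h2⟩

theorem exists_ne {d : ℕ} (h0 : ∀ i, 0 < D i) (hs : ∑ i, D i = d + 1) :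
    ∃ x : V s → ℂ, LQ D x = -1 := by
  classical
  have hne : (Finset.univ : Finset (Fin s)).Nonempty := by
    by_contra hc
    rw [Finset.not_nonempty_iff_eq_empty] at hc
    rw [hc] at hs
    simp at hs
  obtain ⟨i0, -⟩ := hne
  obtain ⟨x, -, hQ⟩ := (isLog_iff (K := ℂ) D _ _).1
    ⟨fun i => if i = i0 then X 0 else 1, fun i => if i = i0 then 1 else 0, fun i => by
      beta_reduce
      split_ifs
      · rw [totalDegree_X]; exact h0 i
      · simp, rfl, rfl⟩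
  refine ⟨x, ?_⟩
  rw [← hQ, Finset.sum_eq_single i0]
  · rw [Finset.prod_eq_one fun j hj => if_neg (Finset.ne_of_mem_erase hj)]
    simp
  · intro b _ hb
    simp [hb]
  · simp

theorem Th_eq_zero {d : ℕ} (h0 : ∀ i, 0 < D i) (hs : ∑ i, D i = d + 1) (Φ : MvPolynomial CI ℂ)
    (h : Van (LogFam d D) Φ) : Th D Φ = 0 := by
  obtain ⟨x0, hx0⟩ := exists_ne h0 hs
  have h1 : Th D (X (false, 0)) ≠ 0 := by
    intro hc
    have := eval_Th D x0 (X (false, 0))
    rw [hc, hx0] at this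
    simp [coords] at this
  have h2 : Th D Φ * Th D (X (false, 0)) = 0 := by
    refine MvPolynomial.funext fun x => ?_
    rw [map_mul, eval_Th, eval_Th, map_zero]
    by_cases hv : (⟨_, mem_form h0 hs x⟩ : Form d) = 0
    · have : LQ D x = 0 := congrArg (fun v : Form d => (v : Poly × Poly).2) hv
      simp [coords, this]
    · rw [h _ hv (mk_mem x _ hv rfl), zero_mul]
  exact (mul_eq_zero.1 h2).resolve_right h1

theorem sub_zcl {d : ℕ} (A : Set (Fol d)) : A ⊆ zcl A := fun _ h _ hZ => hZ.2 h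

theorem zcl_sub {d : ℕ} {A Z : Set (Fol d)} (hZ : IsZClosed Z) (h : A ⊆ Z) : zcl A ⊆ Z :=
  fun _ hF => hF Z ⟨hZ, h⟩

theorem sep {d : ℕ} {Z : Set (Fol d)} (hZ : IsZClosed Z) {F : Fol d} (hF : F ∉ Z) :
    ∃ Φ, Van Z Φ ∧ ∀ (v : Form d) (hv : v ≠ 0), F = Projectivization.mk ℂ v hv →
      eval (coords (v : Poly × Poly)) Φ ≠ 0 := by
  obtain ⟨S, hS, rfl⟩ := hZ
  simp only [Set.mem_ofPred_eq, not_forall] at hF
  obtain ⟨Φ, hΦ, hne⟩ := hF
  obtain ⟨n, hn⟩ := hS Φ hΦ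
  refine ⟨Φ, fun v hv hm => (eval_rep_iff hn v hv).1 (hm Φ hΦ), ?_⟩
  rintro v hv rfl hc
  exact hne ((eval_rep_iff hn v hv).2 hc)

end ParamA

open ParamA

theorem rowParam : ParamS := by
  intro d s D h0 hs
  refine ⟨⟨?_, ?_⟩, ?_, ?_⟩
  · obtain ⟨x0, hx0⟩ := exists_ne h0 hs
    have hv : (⟨_, mem_form h0 hs x0⟩ : Form d) ≠ 0 := by
      intro hv
      have : LQ D x0 = 0 := congrArg (fun v : Form d => (v : Poly × Poly).2) hv
      rw [hx0] at this
      simp at this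
    exact ⟨_, sub_zcl _ (mk_mem x0 _ hv rfl)⟩
  · intro Z₁ Z₂ h1 h2 hsub
    have key : ∀ Z : Set (Fol d), IsZClosed Z → ¬ zcl (LogFam d D) ⊆ Z →
        ∃ Φ, Van Z Φ ∧ Th D Φ ≠ 0 := by
      intro Z hZ hn
      obtain ⟨F, hF, hFZ⟩ := Set.not_subset.1 fun hc => hn (zcl_sub hZ hc)
      obtain ⟨Φ, hΦ, hne⟩ := sep hZ hFZ
      obtain ⟨x, v, hv, e1, e2⟩ := of_mem hF
      refine ⟨Φ, hΦ, fun hc => hne v hv e2 ?_⟩
      rw [e1, ← eval_Th, hc, map_zero]
    by_contra hc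
    push Not at hc
    obtain ⟨Φ1, a1, b1⟩ := key Z₁ h1 hc.1
    obtain ⟨Φ2, a2, b2⟩ := key Z₂ h2 hc.2
    refine mul_ne_zero b1 b2 ?_
    rw [← map_mul]
    refine Th_eq_zero h0 hs _ fun v hv hm => ?_
    rw [map_mul]
    rcases hsub (sub_zcl _ hm) with h' | h'
    · rw [a1 v hv h', zero_mul]
    · rw [a2 v hv h', mul_zero]
  · intro Φ hΦ K _ _ P Q hL
    obtain ⟨x, rfl, rfl⟩ := (isLog_iff D P Q).1 hL
    rw [← aeval_Th, Th_eq_zero h0 hs Φ hΦ, map_zero]
  · intro C hC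
    obtain ⟨F, hF, hFZ⟩ := Set.not_subset.1 hC
    simp only [zcl, Set.mem_sInter, not_forall] at hFZ
    obtain ⟨Z, ⟨hZ, hLZ⟩, hFZ⟩ := hFZ
    obtain ⟨Φ, hΦ, hne⟩ := sep hZ hFZ
    refine ⟨Φ, fun v hv hm => hΦ v hv (hLZ hm), fun hc => ?_⟩
    exact hne F.rep F.rep_nonzero F.mk_rep.symm (hc _ _ (by rwa [F.mk_rep]))

end Pool.Agent.MP_aa1ef7_ag.H20
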