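import Pool.Agent.MP_aa1ef7_ag.H20.Spec

/-! Existence of a formal first integral with logarithms. -/

namespace Pool.Agent.MP_aa1ef7_ag.H20

open MvPolynomial
open Pool.Agent.MP_aa1ef7_ag.H40

namespace SolA

variable {d : ℕ} {l : Fin (d + 1) → ℂ × ℂ × ℂ}

lemma amb (bas : Bas l) {P Q : PowerSeries Poly} (hD : Def l P Q) :
    Amb (dB l) (cB l (ff l)) (PowerSeries.map (cB l) P) (PowerSeries.map (cB l) Q) where
  comm := bas.comm
  P0 := by rw [← PowerSeries.coeff_zero_eq_constantCoeff_apply, PowerSeries.coeff_map,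
    PowerSeries.coeff_zero_eq_constantCoeff_apply, hD.P0, dB_cB]
  Q0 := by rw [← PowerSeries.coeff_zero_eq_constantCoeff_apply, PowerSeries.coeff_map,
    PowerSeries.coeff_zero_eq_constantCoeff_apply, hD.Q0, dB_cB, map_neg]

lemma ambS {P Q : PowerSeries Poly} (hD : Def l P Q) (p : Fin 2 → ℂ) :
    Amb dS (tay p (ff l)) (PowerSeries.map (tay p).toRingHom P)
      (PowerSeries.map (tay p).toRingHom Q) where
  comm := dS_comm
  P0 := by
    rw [← PowerSeries.coeff_zero_eq_constantCoeff_apply, PowerSeries.coeff_map,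
      PowerSeries.coeff_zero_eq_constantCoeff_apply, hD.P0, dS_tay]
    rfl
  Q0 := by
    rw [← PowerSeries.coeff_zero_eq_constantCoeff_apply, PowerSeries.coeff_map,
      PowerSeries.coeff_zero_eq_constantCoeff_apply, hD.Q0, dS_tay, map_neg]
    rfl

lemma coeff_vf {S : Type} [CommRing S] [Algebra ℂ S] (D : Fin 2 → Derivation ℂ S S)
    (P Q h : PowerSeries S) (k : ℕ) : PowerSeries.coeff k (vf D P Q h) =
      ∑ x ∈ Finset.HasAntidiagonal.antidiagonal k, (PowerSeries.coeff x.1 P * D 0 (PowerSeries.coeff x.2 h) +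
        PowerSeries.coeff x.1 Q * D 1 (PowerSeries.coeff x.2 h)) := by
  simp only [vf, map_add, PowerSeries.coeff_mul, coeff_cd, Finset.sum_add_distrib]

lemma vf_X_mul {S : Type} [CommRing S] [Algebra ℂ S] (D : Fin 2 → Derivation ℂ S S)
    (P Q h : PowerSeries S) :
    vf D P Q (PowerSeries.X * h) = PowerSeries.X * vf D P Q h := by
  simp only [vf, cd_mul, cd_X]; ring

lemma dL_vf (bas : Bas l) (P Q : PowerSeries Poly) (h : PowerSeries (BB l)) (m : Fin (d + 1))
    (k : ℕ) : pderiv m (PowerSeries.coeff k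
      (vf (dB l) (PowerSeries.map (cB l) P) (PowerSeries.map (cB l) Q) h)) =
    PowerSeries.coeff k
      (vf (dB l) (PowerSeries.map (cB l) P) (PowerSeries.map (cB l) Q) (cd (dL l m) h)) := by
  rw [coeff_vf, coeff_vf, map_sum]
  refine Finset.sum_congr rfl fun x _ => ?_
  simp only [PowerSeries.coeff_map, map_add, Derivation.leibniz, bas.Lc, smul_eq_mul, mul_zero,
    add_zero, bas.cL, coeff_cd, dL_apply]

lemma DB_aeval_mul (c : Polynomial ℂ) (A : BB l) :
    DB l (cB l (Polynomial.aeval (ff l) c) * A) = cB l (Polynomial.aeval (ff l) c) * DB l A := by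
  have h : cB l (Polynomial.aeval (ff l) c) = Polynomial.aeval (cB l (ff l)) c := by
    induction c using Polynomial.induction_on' with
    | add a b ha hb => simp only [map_add, ha, hb]
    | monomial n a =>
      simp only [Polynomial.aeval_monomial, map_mul, map_pow, algebraMap_eq, cB_C]
  rw [h, DB, br_aeval_mul]; rfl

lemma step (hObs : ObsS) (hSoc : SocS) (hEmb : EmbS) (hReg : RegS) (A : All l)
    {P Q : PowerSeries Poly} {p : Fin 2 → ℂ} (hD : Def l P Q) (hL : LocSol l P Q p)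
    {I : Finset (Fin (d + 1))} (hI : I.Nonempty) (hoff : ∀ m, m ∉ I → eval p (lin (l m)) ≠ 0)
    (hcase : (∃ i, I = {i} ∧ Face l p) ∨ ∃ i j, I = {i, j} ∧ Node l i j p) (k : ℕ)
    (h : PowerSeries (BB l)) (hh : InS (RI l I : Set (BB l)) h)
    (h0 : PowerSeries.constantCoeff h = cB l (ff l))
    (hk : ∀ i < k, PowerSeries.coeff i
      (vf (dB l) (PowerSeries.map (cB l) P) (PowerSeries.map (cB l) Q) h) = 0) :
    ∃ Z ∈ RI l I, DB l Z = PowerSeries.coeff k
      (vf (dB l) (PowerSeries.map (cB l) P) (PowerSeries.map (cB l) Q) h) := by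
  obtain ⟨hcrit, H, hH0, hH⟩ := hL
  have bas := A.bas
  have dv := A.dv
  have hmem : ∀ i, PowerSeries.coeff i
      (vf (dB l) (PowerSeries.map (cB l) P) (PowerSeries.map (cB l) Q) h) ∈ RI l I := by
    intro i
    rw [coeff_vf]
    refine sum_mem fun x _ => add_mem (mul_mem ?_ (dv.rid I 0 _ (hh _)))
      (mul_mem ?_ (dv.rid I 1 _ (hh _))) <;> rw [PowerSeries.coeff_map] <;> exact dv.ric I _
  set b := PowerSeries.coeff k
    (vf (dB l) (PowerSeries.map (cB l) P) (PowerSeries.map (cB l) Q) h) with hb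
  have hbR : b ∈ RI l I := hmem k
  -- local exactness
  obtain ⟨ε, hmul, hc, hX, hd⟩ := hEmb d l bas dv I p hoff
  have hεvf : ∀ i, PowerSeries.coeff i (vf dS (PowerSeries.map (tay p).toRingHom P)
      (PowerSeries.map (tay p).toRingHom Q) (PowerSeries.mk fun n => ε (PowerSeries.coeff n h))) =
      ε (PowerSeries.coeff i
        (vf (dB l) (PowerSeries.map (cB l) P) (PowerSeries.map (cB l) Q) h)) := by
    intro i
    rw [coeff_vf, coeff_vf, map_sum]
    refine Finset.sum_congr rfl fun x _ => ?_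
    simp only [PowerSeries.coeff_map, PowerSeries.coeff_mk, map_add]
    rw [hmul _ (dv.ric I _) _ (dv.rid I 0 _ (hh _)), hmul _ (dv.ric I _) _ (dv.rid I 1 _ (hh _)),
      hc, hc, hd 0 _ (hh _), hd 1 _ (hh _)]
    rfl
  have hreg := (hReg (tay p (ff l)) (fun i => by rw [dS_tay, cc_tay]; exact hcrit i)
    (A.mor.nd p hcrit)).1
  obtain ⟨A0, -, hA0⟩ := hObs (Ser ℂ) dS _ _ _ ⊤ (ambS hD p) hreg H (fun _ => trivial) hH0 k
    (fun i _ => by rw [hH, map_zero]) (PowerSeries.mk fun n => ε (PowerSeries.coeff n h))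
    (fun _ => trivial) (fun i hi => by rw [hεvf, hk i hi, map_zero])
  rw [hεvf, ← hb] at hA0
  -- the derivatives in the logarithms are exact
  have hsoc : ∀ m, ∃ Z ∈ SI l I, DB l Z = pderiv m b := by
    intro m
    have h1 : PowerSeries.constantCoeff (cd (dL l m) h) = 0 := by
      rw [← PowerSeries.coeff_zero_eq_constantCoeff_apply, coeff_cd,
        PowerSeries.coeff_zero_eq_constantCoeff_apply, h0, dL_apply, bas.Lc]
    obtain ⟨h', hh'⟩ := PowerSeries.X_dvd_iff.2 h1
    have h2 : ∀ i, pderiv m (PowerSeries.coeff (i + 1)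
        (vf (dB l) (PowerSeries.map (cB l) P) (PowerSeries.map (cB l) Q) h)) =
        PowerSeries.coeff i
          (vf (dB l) (PowerSeries.map (cB l) P) (PowerSeries.map (cB l) Q) h') := by
      intro i
      rw [dL_vf bas, hh', vf_X_mul, PowerSeries.coeff_succ_X_mul]
    rcases k with _ | j
    · refine ⟨0, zero_mem _, ?_⟩
      rw [hb, dL_vf bas, hh', vf_X_mul, PowerSeries.coeff_zero_X_mul, DB, br_zero]
    · have h3 : InS (SI l I : Set (BB l)) h' := fun n => by
        have := congrArg (PowerSeries.coeff (n + 1)) hh'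
        rw [PowerSeries.coeff_succ_X_mul, coeff_cd, dL_apply] at this
        rw [← this]
        exact dv.siL I m _ (hh _).1
      obtain ⟨Z, hZ, hZ'⟩ := hObs (BB l) (dB l) _ _ _ (SI l I) (amb bas hD) (dv.si I) h
        (fun n => (hh n).1) h0 j (fun i hi => hk i (by omega)) h' h3
        (fun i hi => by rw [← h2, hk _ (by omega), map_zero])
      exact ⟨Z, hZ, by rw [hb, h2, ← hZ']; rfl⟩
  obtain ⟨N, Z, b0, c, hZ, hanti, hcI, heq⟩ := hSoc d l A.lin bas dv A.tf I hI b hbR.1 hsoc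
  have hpow : ∀ n : ℕ, ε (cB l (ff l) ^ n * b) = tay p (ff l) ^ n * ε b := fun n => by
    rw [← map_pow, hmul _ (dv.ric I _) _ hbR, hc, map_pow]
  have hDZ : ε (DB l Z) = br dS (tay p (ff l)) (ε Z) := by
    simp only [DB, br, dB_cB, map_sub]
    rw [hmul _ (dv.ric I _) _ (dv.rid I 0 _ hZ), hmul _ (dv.ric I _) _ (dv.rid I 1 _ hZ), hc, hc,
      hd 0 _ hZ, hd 1 _ hZ, dS_tay, dS_tay]
  have hsum : ∀ m n, ε (cB l (Polynomial.aeval (ff l) (c m n)) * (X m * cB l (bet l n))) =
      Polynomial.aeval (tay p (ff l)) (c m n) * (lg l p m * tay p (bet l n)) := by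
    intro m n
    by_cases hm : m ∈ I
    · simp [hcI m hm n]
    · rw [hmul _ (dv.ric I _) _ (mul_mem (dv.riX I m hm) (dv.ric I _)),
        hmul _ (dv.riX I m hm) _ (dv.ric I _), hc, hc, hX m hm, Polynomial.aeval_algHom_apply]
  have hex : Ex l p (ev l p b0 c) := by
    refine ⟨tay p (ff l) ^ N * A0 - ε Z, ?_⟩
    have h1 := congrArg ε heq
    simp only [map_add, map_sum, hsum, hpow, hDZ, hc] at h1
    have h2 : tay p (ff l) ^ N = Polynomial.aeval (tay p (ff l)) (Polynomial.X ^ N : Polynomial ℂ) := by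
      simp
    rw [br_sub, h2, br_aeval_mul, ← h2, hA0, h1, ev]
    ring
  obtain ⟨rfl, A1, e, he, rfl⟩ := A.core I p hcase b0 c hanti hcI hex
  obtain ⟨u, hu⟩ := bas.unit.exists_left_inv
  have huf : u ^ N * cB l (ff l) ^ N = 1 := by rw [← mul_pow, hu, one_pow]
  have hDu : DB l u = 0 := by
    have h1 : DB l (u * cB l (ff l)) = 0 := by
      rw [hu]; simp [DB, br]
    rw [DB, br_mul, br_self, mul_zero, zero_add] at h1
    have h2 : u * (cB l (ff l) * br (dB l) (cB l (ff l)) u) = 0 := by rw [h1, mul_zero]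
    rwa [← mul_assoc, hu, one_mul] at h2
  have hDuN : ∀ n : ℕ, DB l (u ^ n) = 0 := by
    intro n
    induction n with
    | zero => simp [DB, br]
    | succ n ih =>
      rw [pow_succ, DB, br_mul]
      change u ^ n * DB l u + u * DB l (u ^ n) = 0
      rw [ih, hDu]; simp
  have huS : u ∈ SI l I := fun i _ => by
    have h1 : pderiv i (u * cB l (ff l)) = 0 := by rw [hu]; simp
    rw [Derivation.leibniz, bas.Lc, smul_zero, zero_add, smul_eq_mul] at h1
    have h2 : u * (cB l (ff l) * pderiv i u) = 0 := by rw [h1, mul_zero]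
    rwa [← mul_assoc, hu, one_mul] at h2
  let W : BB l := Z + cB l A1 + ∑ m, cB l (Polynomial.aeval (ff l) (e m)) * X m
  have hW : W ∈ RI l I := by
    refine add_mem (add_mem hZ (dv.ric I _)) (sum_mem fun m _ => ?_)
    by_cases hm : m ∈ I
    · simp [he m hm]
    · exact mul_mem (dv.ric I _) (dv.riX I m hm)
  have hDW : DB l W = cB l (ff l) ^ N * b := by
    have h1 : DB l W = DB l Z + DB l (cB l A1) +
        ∑ m, DB l (cB l (Polynomial.aeval (ff l) (e m)) * X m) := by
      simp only [W, DB, br_add, br_sum]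
    rw [h1, heq]
    simp only [DB_aeval_mul, bas.DX, bas.Dc, map_add, map_sum, map_mul, Pi.zero_apply, map_zero,
      zero_mul, Finset.sum_const_zero]
    ring
  have hfin : DB l (u ^ N * W) = b := by
    rw [DB, br_mul]
    change u ^ N * DB l W + W * DB l (u ^ N) = b
    rw [hDuN, hDW, ← mul_assoc, huf]; simp
  obtain ⟨Z', hZ', hZ''⟩ := A.tf.tf I hI (u ^ N * W) (mul_mem (pow_mem huS N) hW.1)
    (by rw [hfin]; exact hbR)
  exact ⟨Z', hZ', hZ''.trans hfin⟩

end SolA

open SolA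

theorem rowSol : OfSol := by
  intro hObs hRec hSoc hEmb hReg d l A P Q p hD hL
  obtain ⟨I, hI, hoff, hcase⟩ : ∃ I : Finset (Fin (d + 1)), I.Nonempty ∧
      (∀ m, m ∉ I → eval p (lin (l m)) ≠ 0) ∧
      ((∃ i, I = {i} ∧ Face l p) ∨ ∃ i j, I = {i, j} ∧ Node l i j p) := by
    rcases A.lin.cls p hL.1 with hf | ⟨i, j, hn⟩
    · exact ⟨{0}, by simp, fun m _ => hf.2 m, Or.inl ⟨0, rfl, hf⟩⟩
    · refine ⟨{i, j}, by simp, fun m hm => ?_, Or.inr ⟨i, j, rfl, hn⟩⟩
      simp only [Finset.mem_insert, Finset.mem_singleton, not_or] at hm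
      exact A.lin.nodeoff i j p hn m hm.1 hm.2
  obtain ⟨h, -, h0, h1⟩ := hRec (BB l) (dB l) (cB l (ff l)) _ _
    (RI l I).toSubring.toAddSubgroup (amb A.bas hD) (A.dv.ric I _)
    fun k h hh h0 hk => step hObs hSoc hEmb hReg A hD hL hI hoff hcase k h hh h0 hk
  exact ⟨h, fun _ => trivial, h0, h1⟩

end Pool.Agent.MP_aa1ef7_ag.H20
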