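import Pool.Agent.MP_aa1ef7_ag.H20.Spec

/-! The derivative of a holomorphic function of two variables is holomorphic. -/

namespace Pool.Agent.MP_aa1ef7_ag.H20

open Complex Metric Set MeasureTheory
open scoped Real Topology

namespace TaylA

/-- The kernel in the Cauchy formula for the first derivative. -/
noncomputable def cker (θ : ℝ) : ℂ :=
  (2 * π * I)⁻¹ * (deriv (circleMap 0 1) θ * (1 / (circleMap 0 1 θ - 0) ^ 2))

theorem continuous_cker : Continuous cker := by
  unfold cker
  simp only [deriv_circleMap]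
  refine continuous_const.mul (((continuous_circleMap 0 1).mul continuous_const).mul ?_)
  refine continuous_const.div (((continuous_circleMap 0 1).sub continuous_const).pow 2) ?_
  intro θ
  simp

theorem fderiv_eq_integral {F : (Fin 2 → ℂ) → ℂ} {z v : Fin 2 → ℂ} {r : ℝ}
    (hF : ∀ w ∈ closedBall z r, DifferentiableAt ℂ F w) (hv : ‖v‖ ≤ r) :
    fderiv ℂ F z v = ∫ θ in (0 : ℝ)..2 * π, cker θ * F (z + circleMap 0 1 θ • v) := by
  have hl : ∀ t ∈ closedBall (0 : ℂ) 1,
      HasDerivAt (fun t : ℂ => F (z + t • v)) (fderiv ℂ F (z + t • v) v) t := by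
    intro t ht
    have h1 : HasDerivAt (fun t : ℂ => z + t • v) v t := by
      simpa using ((hasDerivAt_id t).smul_const v).const_add z
    refine (hF (z + t • v) ?_).hasFDerivAt.comp_hasDerivAt t h1
    rw [mem_closedBall_zero_iff] at ht
    rw [add_mem_closedBall_iff_norm, norm_smul]
    calc ‖t‖ * ‖v‖ ≤ 1 * r := mul_le_mul ht hv (norm_nonneg _) zero_le_one
      _ = r := one_mul r
  have hd : DifferentiableOn ℂ (fun t : ℂ => F (z + t • v)) (closedBall 0 1) :=
    fun t ht => (hl t ht).differentiableAt.differentiableWithinAt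
  have h := hd.deriv_eq_smul_circleIntegral one_pos
  have h0 := (hl 0 (by simp)).deriv
  simp only [zero_smul, add_zero] at h0
  rw [h0] at h
  have h2 : fderiv ℂ F z v = (2 * π * I)⁻¹ * ((2 * π * I) • fderiv ℂ F z v) := by
    rw [smul_eq_mul, ← mul_assoc, inv_mul_cancel₀ two_pi_I_ne_zero, one_mul]
  rw [h2, ← h, circleIntegral, ← intervalIntegral.integral_const_mul]
  congr 1
  ext θ
  simp only [cker, smul_eq_mul]
  ring

theorem osg_small {F : (Fin 2 → ℂ) → ℂ} {z0 v : Fin 2 → ℂ} {ε : ℝ} (hε : 0 < ε)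
    (hF : ∀ w ∈ closedBall z0 (3 * ε), DifferentiableAt ℂ F w) (hv : ‖v‖ ≤ ε) :
    DifferentiableAt ℂ (fun z => fderiv ℂ F z v) z0 := by
  have hcont : ContinuousOn F (closedBall z0 (3 * ε)) :=
    fun w hw => (hF w hw).continuousAt.continuousWithinAt
  obtain ⟨M, hM⟩ := (isCompact_closedBall z0 (3 * ε)).exists_bound_of_continuousOn hcont
  have hb : ∀ w ∈ closedBall z0 (2 * ε), ‖fderiv ℂ F w‖ ≤ (M + M) / ε := by
    intro w hw
    have hsub : ball w ε ⊆ closedBall z0 (3 * ε) := fun y hy => by
      rw [mem_closedBall] at hw ⊢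
      rw [mem_ball] at hy
      linarith [dist_triangle y w z0]
    refine Complex.norm_fderiv_le_div_of_mapsTo_ball
      (fun y hy => (hF y (hsub hy)).differentiableWithinAt) (fun y hy => ?_) hε
    rw [mem_closedBall, dist_eq_norm]
    exact (norm_sub_le _ _).trans (add_le_add (hM y (hsub hy)) (hM w (hsub (mem_ball_self hε))))
  have hmem : ∀ z ∈ closedBall z0 ε, ∀ θ : ℝ,
      z + circleMap 0 1 θ • v ∈ closedBall z0 (2 * ε) := by
    intro z hz θ
    rw [mem_closedBall] at hz ⊢
    have h1 : dist (z + circleMap 0 1 θ • v) z ≤ ε := by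
      rw [dist_eq_norm, add_sub_cancel_left, norm_smul]
      simpa using hv
    linarith [dist_triangle (z + circleMap 0 1 θ • v) z z0]
  have hmem3 : ∀ z ∈ closedBall z0 ε, ∀ θ : ℝ,
      z + circleMap 0 1 θ • v ∈ closedBall z0 (3 * ε) := fun z hz θ =>
    closedBall_subset_closedBall (by linarith) (hmem z hz θ)
  have h1 := continuous_cker
  have h3 := continuous_circleMap 0 1
  have hc : ∀ z ∈ closedBall z0 ε, Continuous fun θ : ℝ => cker θ * F (z + circleMap 0 1 θ • v) :=
    fun z hz => h1.mul (hcont.comp_continuous (by fun_prop) (hmem3 z hz))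
  obtain ⟨B, hB⟩ := (isCompact_uIcc (a := (0 : ℝ)) (b := 2 * π)).exists_bound_of_continuousOn
    h1.continuousOn
  have hz0 : z0 ∈ closedBall z0 ε := mem_closedBall_self hε.le
  have key := intervalIntegral.hasFDerivAt_integral_of_dominated_of_fderiv_le (𝕜 := ℂ)
    (μ := volume) (a := 0) (b := 2 * π) (bound := fun _ => B * ((M + M) / ε))
    (F := fun z θ => cker θ * F (z + circleMap 0 1 θ • v))
    (F' := fun z θ => cker θ • fderiv ℂ F (z + circleMap 0 1 θ • v)) (x₀ := z0)
    (closedBall_mem_nhds z0 hε)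
    (Filter.mem_of_superset (closedBall_mem_nhds z0 hε) fun z hz =>
      (hc z hz).aestronglyMeasurable)
    ((hc z0 hz0).intervalIntegrable _ _)
    (h1.aestronglyMeasurable.smul
      (((measurable_fderiv ℂ F).comp
        (by fun_prop : Continuous fun θ : ℝ => z0 + circleMap 0 1 θ • v).measurable).aestronglyMeasurable))
    (Filter.Eventually.of_forall fun θ hθ z hz => by
      have h5 := hB θ (uIoc_subset_uIcc hθ)
      rw [norm_smul]
      exact mul_le_mul h5 (hb _ (hmem z hz θ)) (norm_nonneg _) ((norm_nonneg _).trans h5))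
    intervalIntegrable_const
    (Filter.Eventually.of_forall fun θ _ z hz => by
      have h5 : HasFDerivAt (fun x : Fin 2 → ℂ => F (x + circleMap 0 1 θ • v))
          (fderiv ℂ F (z + circleMap 0 1 θ • v)) z := by
        have := (hF _ (hmem3 z hz θ)).hasFDerivAt.comp z
          ((hasFDerivAt_id z).add_const (circleMap 0 1 θ • v))
        simpa [Function.comp_def] using this
      exact h5.const_mul _)
  refine key.differentiableAt.congr_of_eventuallyEq ?_
  filter_upwards [closedBall_mem_nhds z0 hε] with z hz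
  refine fderiv_eq_integral (r := ε) (fun w hw => hF w ?_) hv
  rw [mem_closedBall] at hz hw ⊢
  linarith [dist_triangle w z z0]

theorem osg : OsgS := by
  intro U F hU hF v z0 hz0
  obtain ⟨r, hr, hrU⟩ := Metric.isOpen_iff.1 hU z0 hz0
  have hε : 0 < r / 4 := by positivity
  have hF' : ∀ w ∈ closedBall z0 (3 * (r / 4)), DifferentiableAt ℂ F w := fun w hw =>
    hF.differentiableAt (hU.mem_nhds (hrU (closedBall_subset_ball (by linarith) hw)))
  set c : ℝ := r / 4 / (‖v‖ + 1) with hc
  have hc0 : 0 < c := by positivity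
  have hv : ‖(c : ℂ) • v‖ ≤ r / 4 := by
    rw [norm_smul, Complex.norm_real, Real.norm_of_nonneg hc0.le, hc, div_mul_eq_mul_div,
      div_le_iff₀ (by positivity)]
    nlinarith [norm_nonneg v]
  have h := (osg_small hε hF' hv).const_mul (c : ℂ)⁻¹
  have hne : (c : ℂ) ≠ 0 := by exact_mod_cast hc0.ne'
  simp only [map_smul, smul_eq_mul, inv_mul_cancel_left₀ hne] at h
  exact h.differentiableWithinAt

end TaylA

end Pool.Agent.MP_aa1ef7_ag.H20
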